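import Pool.Agent.H42.D2.Npd
import Pool.Agent.H5.PN.Jfq

/-!
# The chain of the near path theorem at the windows of a record

`chj_of`, `RecG.chj`: `ChJ` for the windows `t + vv q < t`. `RecG.fwx`: the context of the chain at the
window `t + vv q` given the near jets at the window `t`.
-/

set_option autoImplicit false

namespace Pool.NPZ

open Finset Real MvPolynomial
open Pool.Agent.H49.Ent Pool.Agent.H32.Dense Pool.STK Pool.KA Pool.KSAT Pool.K2S Pool.PB Pool.GEN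
open Pool.S6C Pool.RCD Pool.LA91 Pool.OWN68 Pool.CHT Pool.AJW
open Pool.AJX (LbX FwX)

/-- **The chain of the near path theorem**, from the chain at the windows of a set. -/
theorem chj_of {m : ℕ} {S : PCl m} {c : ℕ → Fin m} {r K : ℕ} {sn : ℕ → ℝ → ℝ} {G : Set ℝ}
    {v w X φ lam kf q : ℝ} {v₀ : ℕ → ℝ} (hch : ChG S c (r + 1) sn G)
    (H : JfN r sn G v w X φ lam kf v₀ K) (hr : 1 ≤ r) {E rd : ℕ → ℝ} {m₁ g₀ : ℝ} (hg : 0 < g₀)
    (hm : 3 ^ r * X + g₀ ≤ m₁) (hE : ∀ i < r, 0 ≤ E i ∧ sn i v + E i + m₁ ≤ 1)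
    (hrd : ∀ i < r, 0 ≤ rd i ∧ rd i + g₀ ≤ 1) (hq : 0 < q) (hqX : q + (w - v) + 3 * φ ≤ X) :
    ChJ S c 0 r v w lam q φ g₀ E (fun i => sn i v) (fun i => sn i w) (nX r sn v X)
      (fun l => aX r X l - (w - v) - 2 * φ) rd := by
  obtain ⟨uv, rv, hrv, hcv⟩ := hch.ch v H.vG
  obtain ⟨uw, rw, hrw, hcw⟩ := hch.ch w H.wG
  have hvw := H.vw
  have hφ := H.φ0
  have hX := H.XK
  have hφX := H.φX
  have hkf := H.kfX
  have hlam := H.lamk
  have hl1 := H.l1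
  have hKD : 0 ≤ (K : ℝ) * (w - v) := mul_nonneg (Nat.cast_nonneg K) (by linarith)
  have hXD : 12 * (w - v) ≤ X := by nlinarith
  have hX0 : 0 ≤ X := by linarith
  have hrφ : 0 ≤ (r : ℝ) * φ := mul_nonneg (Nat.cast_nonneg r) hφ.le
  have hX1 : 32 * φ ≤ X := by nlinarith
  have hX3 : X ≤ 3 ^ r * X := by
    have h1 : (1 : ℝ) ≤ 3 ^ r := one_le_pow₀ (by norm_num)
    nlinarith
  have ha : ∀ l < r, X ≤ aX r X l := fun l _ => aX_ge hX0 l
  have ha3 : ∀ l < r, 3 * aX r X l ≤ 3 ^ r * X := fun l hl => aX_le hX0 hl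
  have hak : ∀ l < r, 3 * aX r X l ≤ kf := fun l hl => (aX_le hX0 hl).trans hkf
  have hfl : ∀ i < r, sn i v + (w - v) - φ ≤ sn i w ∧ sn i w ≤ sn i v + (w - v) + φ :=
    fun i hi => by
      have := abs_le.1 (H.fl i hi)
      exact ⟨by linarith [this.1], by linarith [this.2]⟩
  have hmn : ∀ i < r, sn i v - φ ≤ min (sn i v) (sn i w) := fun i hi =>
    le_min (by linarith) (by linarith [(hfl i hi).1])
  have hsv : ∀ i ≤ r, 0 ≤ sn i v := fun i hi => (hcv.s0 i (Nat.zero_le _) (by omega)).1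
  refine
    { hr := Nat.zero_le _
      r1 := hr
      v0 := hcv.w0
      vw := hvw.le
      ρ0 := hφ
      g0 := hg
      q0 := hq
      l1 := hl1
      E0 := fun i _ hi => ⟨(hE i hi).1, ?_⟩
      chn := ⟨uw, rw, hcw.take (Nat.zero_le _) (Nat.le_succ r)⟩
      rd0 := fun i _ hi => hrd i hi
      n1 := fun i _ hi => ?_
      lv0 := fun l _ hl => by linarith [ha l hl]
      dig := fun l _ hl => ?_
      nst := fun i _ hi l _ hl => ?_
      bas := fun i _ hi => ?_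
      top := fun l _ hl => ?_
      topb := ?_ }
  · linarith [(hE i hi).2, hsv i hi.le]
  · show nX r sn v X i + E i + g₀ ≤ 1
    unfold nX
    linarith [(hE i hi).2, ha i hi, ha3 i hi]
  · have h1 := (hfl l hl).2
    show sn l w + (aX r X l - (w - v) - 2 * φ) + φ ≤ nX r sn v X l
    unfold nX
    linarith
  · have h1 := (hfl i hi).2
    have h2 := hmn i hi
    have h3 := aX_nest hX0 hl hi
    have h4 := ha i hi
    show sn i w + (aX r X i - (w - v) - 2 * φ) + φ ≤ min (sn i v) (sn i w) +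
      (aX r X l - (w - v) - 2 * φ)
    linarith
  · have h1 := (hfl i hi).2
    have h2 := hmn i hi
    have h3 := hak i hi
    have h4 := ha i hi
    show sn i w + (aX r X i - (w - v) - 2 * φ) + φ ≤ min (sn i v) (sn i w) + (v + lam - w)
    linarith
  · have h1 := ha l hl
    show q + φ ≤ aX r X l - (w - v) - 2 * φ
    linarith
  · linarith

end Pool.NPZ

namespace Pool.PKG

open Finset Real
open Pool.Agent.H49.Ent Pool.Agent.H32.Dense Pool.STK Pool.KA Pool.KSAT Pool.K2S Pool.PB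
open Pool.GEN Pool.S6C Pool.STAT Pool.CHT Pool.GRW Pool.ONE Pool.STA
open Pool.LA91 Pool.AJW Pool.NPZ
open Pool.RCD (vg)
open Pool.AJX (LbX FwX)

section

variable {m : ℕ} {S : PCl m} {al : ℝ} {g₀ : ℝ → ℝ} {P : List (Fin m) × Fin m → ℝ → ℝ → ℝ}
  {θ : ℝ} {P₂ : ℕ → List (Fin m) × Fin m → ℝ → ℝ → ℝ} {θ₂ Eb e₂ : ℕ → ℝ}
  {c : ℕ → Fin m} {Pt : ℝ → ℝ → ℝ} {rt : ℝ → ℝ} {h K₀ g : ℝ} {L T : ℕ → ℝ → ℝ → ℝ}
  {Sl : ℕ → ℝ} {κ : ℕ → Kg} {G : Set ℝ} {S₀ N : ℕ} {A V : ℕ → ℝ} {S₂ N' : ℕ} {V' : ℕ → ℝ}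
  {K' ε q t : ℝ} {S₁ : PCl m} {r K : ℕ} {vv X φ lam kf : ℝ}

/-- Other digits which agree for the places of the chain. -/
theorem _root_.Pool.AJW.FarV.nf {c : ℕ → Fin m} {r₀ r : ℕ} {v₀ : ℕ → ℝ} {v w lam σ : ℝ}
    {P₀ p s pf n lv lw : ℕ → ℝ} {Nf Nf' : ℕ → ℕ → ℝ}
    (H : FarV S c r₀ r v₀ v w lam σ P₀ p s pf n lv lw Nf)
    (h : ∀ l < r, ∀ j ≤ 1, Nf' l j = Nf l j) :
    FarV S c r₀ r v₀ v w lam σ P₀ p s pf n lv lw Nf' :=
  { H with
    w1 := fun l a b j hj => by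
      rw [h l b j hj]
      exact H.w1 l a b j hj
    w4 := fun l a b j hj => by
      rw [h l b j hj]
      exact H.w4 l a b j hj }

/-- **The chain of the near path theorem** at the windows `t + vv q < t` of a record. -/
theorem RecG.chj
    (R : RecG S al g₀ P θ P₂ θ₂ Eb e₂ c Pt rt h K₀ g L T Sl κ G S₀ N A V S₂ N' V' K' ε q t)
    (hκ : ∀ l < r, κ l = .one) (hr : 1 ≤ r) (hrm : r < m)
    (hch : ChG S₁ c (r + 1) (fun l x => L l x x) G)
    (U : JfU r K vv X φ lam kf) (hGt : t ∈ G)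
    (hG : ∀ k ≤ r, t + jfV r vv X k * q ∈ G) (hK : -vv + 3 ^ r * X ≤ K') (hlam : lam ≤ K')
    (hε : 2 * ε ≤ φ) {m₁ ρ g₁ : ℝ} {E rd : ℕ → ℝ} (hg : 0 < g₁) (hm : 3 ^ r * X * q + g₁ ≤ m₁)
    (hρ : ρ + g₁ ≤ 1)
    (hE : ∀ i < r, 0 ≤ E i ∧ L i (t + vv * q) (t + vv * q) + E i + m₁ ≤ 1 ∧
      0 ≤ rd i ∧ rd i ≤ ρ) {qv : ℝ} (hqv : 0 < qv) (hqX : qv - vv + 3 * φ ≤ X) :
    ChJ S₁ c 0 r (t + vv * q) t (lam * q) (qv * q) (φ * q) g₁ E
      (fun i => L i (t + vv * q) (t + vv * q)) (fun i => L i t t)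
      (nX r (fun l x => L l x x) (t + vv * q) (X * q))
      (fun l => aX r (X * q) l - (t - (t + vv * q)) - 2 * (φ * q)) rd := by
  have hq := R.q0
  refine chj_of hch (R.jf hκ hrm.le U hGt hG hK hlam hε) hr (m₁ := m₁) hg (by linarith)
    (fun i hi => ⟨(hE i hi).1, (hE i hi).2.1⟩) (fun i hi => ⟨(hE i hi).2.2.1, by
      linarith [(hE i hi).2.2.2]⟩) (mul_pos hqv hq) ?_
  have h1 := mul_le_mul_of_nonneg_right hqX hq.le
  linarith

/-- **The context of the chain** at the window `t + vv q` given the near jets at the window `t`. -/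
theorem RecG.fwx {C₀ : ℝ} (htm : TmC S₁ C₀)
    (R : RecG S al g₀ P θ P₂ θ₂ Eb e₂ c Pt rt h K₀ g L T Sl κ G S₀ N A V S₂ N' V' K' ε q t)
    (hκ : ∀ l < r, κ l = .one) (hrm : r ≤ m)
    (hch : ChG S₁ c (r + 1) (fun l x => L l x x) G)
    (U : JfU r K vv X φ lam kf) (hGt : t ∈ G)
    (hG : ∀ k ≤ r, t + jfV r vv X k * q ∈ G) (hK : -vv + 3 ^ r * X ≤ K') (hlam : lam ≤ K')
    (hε : 2 * ε ≤ φ) {pf : ℕ → ℝ} (hpf : ∀ l < r, L l t t - φ * q ≤ pf l) {E rd : ℕ → ℝ}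
    (hE : ∀ i < r, E i ≤ 1) (hrd : ∀ i < r, 0 ≤ rd i) {Kc : ℕ} {e δ : ℝ} (hδ : 0 < δ)
    (he : 0 < e) (hle : e ≤ φ * q / 8) {Nf : ℕ → ℕ → ℝ}
    (hNf : ∀ l < r, ∀ j ≤ 1, Nf l j = L l t t + kf * q - (j : ℕ) * t) :
    FwX S₁ (fun J F => ptr F J) (vg t) (fun _ F => F.T)
      (qJets m c 0 r 1 (fun _ _ => t) (fun l _ => pf l) Nf) c 0 r Kc E (t + vv * q) rd
      (fun i => L i (t + vv * q) (t + vv * q))
      (Pool.AJW.ctx c 0 r Kc (t + vv * q) (lam * q) (nX r (fun l x => L l x x) (t + vv * q) (X * q)))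
      e δ := by
  have HF := (R.farV hκ hrm hch U hGt hG hK hlam hε hpf).nf hNf
  have ht1 : t ≤ 1 := by
    have h1 := HF.wl
    have h2 := HF.l1
    linarith
  exact far_ctxX htm HF le_rfl ht1 (fun J F => ⟨id, fun ω => rfl⟩) (fun J F => by
    refine ⟨fun t => (t, fun _ => 0, fun _ => 0), fun ω => ?_⟩
    simp only [Finset.range_zero, Finset.image_empty, Finset.notMem_empty, if_false])
    (fun i _ hi => hE i hi) (fun i _ hi => hrd i hi) hδ le_rfl he hle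

end

end Pool.PKG
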