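import Pool.Agent.H73.D2.Tmu
import Pool.Agent.H18.PN.Prt
import Pool.Agent.H18.PN.Vfu
import Pool.Agent.H3.D2G.RecN

/-!
# The dead velocity of a place at all scales of the record from its first jet

`F1U`: the first jet of the place `r` given the own jets of the places before is few bits, at every
scale of the record. `velU_of_f1`: `VelU`. `celQG_f1`: then there is no drop at the place `r`.
-/

set_option autoImplicit false

namespace Pool.PKG

open Finset Real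
open Pool.Agent.H49.Ent Pool.Agent.H32.Dense Pool.STK Pool.KA Pool.KSAT Pool.K2S Pool.PB
open Pool.GEN Pool.S6C Pool.STAT Pool.CHT Pool.GRW Pool.ONE Pool.STA
open Pool.LBT (LSys ThrOf)
open Pool.LEV (Law)
open Pool.ALL (RateOf)
open Pool.ISO (PtD lvN WinD)
open Pool.V1E (vF vF_ge VfW VuN vfw_of rstC VfW.of_part)
open Pool.LA91 (FaQ sumQ qJets qJet)
open Pool.OWN68 (F1)
open Pool.RCD (vg)

/-- **The first jet of the place** `r` at all scales of the record: to `(Sl r - 1) q` digits beyond its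
level it is few bits (rate `dd`) given the own jets of the places before, to `kf q` digits beyond their
levels, on the events with a hereditary property `Φ` which holds on a part of relative mass `1 / K₂` of
each event; the precision of the labels is `φ q` below the levels, or better. `Ar`, `Vr`: pairs, `Vv`:
windows of the chain, `Q`: the property of the windows. -/
def F1U (m r : ℕ) (h : ℝ) (Sl : ℕ → ℝ) (κ : ℕ → Kg) {ι : Type} (Q : PropG m ι) : Prop :=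
  ∀ al : ℝ, 0 < al → ∀ K₀ : ℝ, 0 < K₀ → ∀ S₀ : ℕ, 1 ≤ S₀ →
  ∃ (Kr : ℝ) (Nr : ℕ) (Ar Vr : ℕ → ℝ), 1 ≤ Kr ∧ (∀ k < Nr, -Kr ≤ Vr k ∧ Vr k ≤ Ar k ∧ Ar k ≤ Kr) ∧
  ∀ S₂ : ℕ, S₀ ≤ S₂ → ∀ dd : ℝ, 0 < dd →
  ∃ kf φ : ℝ, Sl r ≤ kf ∧ 0 < φ ∧
  ∃ (K₁ : ℝ) (Nv : ℕ) (Vv : ℕ → ℝ), (∀ j < Nv, -K₁ ≤ Vv j ∧ Vv j ≤ K₁) ∧ ∀ K' : ℝ, K₁ ≤ K' →
  ∃ ε₀ : ℝ, 0 < ε₀ ∧ ∀ ε : ℝ, 0 < ε → ε ≤ ε₀ →
  ∀ (S : PCl m) (g₀ : ℝ → ℝ) (P : List (Fin m) × Fin m → ℝ → ℝ → ℝ)
    (θ : ℝ) (P₂ : ℕ → List (Fin m) × Fin m → ℝ → ℝ → ℝ) (θ₂ Eb e₂ : ℕ → ℝ) (c : ℕ → Fin m)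
    (Pt : ℝ → ℝ → ℝ) (rt : ℝ → ℝ) (L T : ℕ → ℝ → ℝ → ℝ) (G : Set ℝ) (g : ℝ),
    IsClosed G → g ∈ G → ∃ (p : ℕ → ι) (M : ℕ) (B₀ B₁ : ℕ → ℝ),
    (∀ j < M, B₀ j < B₁ j) ∧ ∀ k₀ : ℕ → ℕ, ∃ q₁ : ℝ, 0 < q₁ ∧ ∀ (q t : ℝ) (x : ℕ → ℝ),
      q < q₁ → (∀ j < M, x j ∈ G ∧ t + B₀ j * q ≤ x j ∧ x j ≤ t + B₁ j * q ∧
        Q (p j) (k₀ j) S P θ c Pt rt L T κ G (x j)) →
      ∀ (N : ℕ) (A V : ℕ → ℝ) (N' : ℕ) (V' : ℕ → ℝ),
      RecG S al g₀ P θ P₂ θ₂ Eb e₂ c Pt rt h K₀ g L T Sl κ G S₀ N A V S₂ N' V' K' ε q t →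
      (∀ k < Nr, ∃ j < N, A j = Ar k ∧ V j = Vr k) → (∀ k < Nv, ∃ j < N', V' j = Vv k) →
      ∀ (pf : ℕ → ℝ) (pr : ℝ) (Nf : ℕ → ℕ → ℝ),
      (∀ l < r, L l t t - φ * q ≤ pf l ∧ pf l ≤ L l t t) →
      L r t t - φ * q ≤ pr → pr ≤ L r t t →
      (∀ l < r, ∀ j ≤ 1, Nf l j = L l t t + kf * q - (j : ℕ) * t) →
      ∃ (Φ : Stat m) (hΦ : ∀ (J : ℕ) (F : Fam m J) (A B : F.Ω → Prop), Sub B A → Φ J F A → Φ J F B)
        (K₂ : ℝ), 0 < K₂ ∧
        Bas S (fun J F A => ∃ B : F.Ω → Prop, Sub B A ∧ Pe F.p A ≤ K₂ * Pe F.p B ∧ Φ J F B) ∧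
        ∃ e : ℝ, 0 < e ∧ F1 (rstC S Φ hΦ) (fun J F => ptr F J) (vg t) (fun _ F => F.T)
          (qJets m c 0 r 1 (fun _ _ => t) (fun l _ => pf l) Nf)
          (qJet m ((range r).image c) (c r) 1 t pr (L r t t + (Sl r - 1) * q - t)) e (dd * q)

/-- **The dead velocity of a place** from its first jet. -/
theorem velU_of_f1 {m r : ℕ} (hrm : r < m) {h : ℝ} {Sl : ℕ → ℝ} {κ : ℕ → Kg} (hs : 0 ≤ Sl r)
    {ι : Type} {Q : PropG m ι} (hF : F1U m r h Sl κ Q) : VelU m r h Sl κ Q := by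
  intro al hal K₀ hK₀ S₀ hS₀
  obtain ⟨Kr, Nr, Ar, Vr, hKr, hAV, hF⟩ := hF al hal K₀ hK₀ S₀ hS₀
  refine ⟨Kr, Nr, Ar, Vr, hKr, hAV, fun S₂ hS₂ D Dr C δ hD hDr hC hδ hδ1 => ?_⟩
  obtain ⟨kf, φ, hkf, hφ, K₁, Nv, Vv, hVv, hF⟩ := hF S₂ hS₂ (δ / 2) (by linarith only [hδ])
  obtain ⟨C', hC', hvf⟩ := vfw_of D r
  have hC0 : 0 < C := by linarith only [hC]
  have hC'0 : 0 < C' := by linarith only [hC']
  obtain ⟨h₁, hh₁⟩ : ∃ h₁ : ℝ, h₁ = min φ (min (1 / 2) (δ / (8 * (C' * C)))) := ⟨_, rfl⟩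
  have hh0 : 0 < h₁ := by rw [hh₁]; positivity
  have hhφ : h₁ ≤ φ := by rw [hh₁]; exact min_le_left _ _
  have hh2 : h₁ ≤ 1 / 2 := by rw [hh₁]; exact (min_le_right _ _).trans (min_le_left _ _)
  have hh3 : h₁ ≤ δ / (8 * (C' * C)) := by
    rw [hh₁]; exact (min_le_right _ _).trans (min_le_right _ _)
  rw [le_div_iff₀ (by positivity)] at hh3
  refine ⟨kf, h₁, hkf, hh0, fun hh k₁ hhp hhl hk₁ => ?_⟩
  refine ⟨max K₁ (k₁ + C + 1), Nv, Vv, fun j hj => ?_, fun K' hK' => ?_⟩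
  · obtain ⟨h1, h2⟩ := hVv j hj
    have h3 := le_max_left K₁ (k₁ + C + 1)
    exact ⟨by linarith only [h1, h3], h2.trans h3⟩
  obtain ⟨ε₀, hε₀, hF⟩ := hF K' ((le_max_left _ _).trans hK')
  have hKk : k₁ + C + 1 ≤ K' := (le_max_right _ _).trans hK'
  refine ⟨ε₀, hε₀, fun ε hε hεε S g₀ P θ P₂ θ₂ Eb e₂ c Pt rt L T G g hG hg => ?_⟩
  obtain ⟨p, M, B₀, B₁, hB, hF⟩ := hF ε hε hεε S g₀ P θ P₂ θ₂ Eb e₂ c Pt rt L T G g hG hg
  refine ⟨p, M, B₀, B₁, hB, fun k₀ => ?_⟩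
  obtain ⟨q₁, hq₁, hF⟩ := hF k₀
  refine ⟨q₁, hq₁, fun q t x hq hx N A V N' V' R hp hv N₂ vw κ' qf Pq hκ' hPq hqf => ?_⟩
  have hq0 := R.q0
  have ht0 := R.t0
  have ht1 := R.t1
  have hlv : ∀ l ≤ r, lvN P c r (L r) l t t = L l t t := fun l hl => by rw [← R.lv_at hrm hl]
  -- products
  have hkq : 0 ≤ kf * q := mul_nonneg (hs.trans hkf) hq0.le
  have hsq : 0 ≤ Sl r * q := mul_nonneg hs hq0.le
  have hhq : 0 < hh * q := mul_pos hhp hq0
  have hhq2 : hh * q ≤ 1 / 2 * q := mul_le_mul_of_nonneg_right (hhl.trans hh2) hq0.le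
  have hhφq : hh * q ≤ φ * q := mul_le_mul_of_nonneg_right (hhl.trans hhφ) hq0.le
  have hk1q : kf * q + 8 * q ≤ k₁ * q := by
    have := mul_le_mul_of_nonneg_right hk₁ hq0.le
    linarith only [this]
  have hKq : k₁ * q + C * q + q ≤ K' * q := by
    have := mul_le_mul_of_nonneg_right hKk hq0.le
    linarith only [this]
  have hCq : 0 < C * q := mul_pos hC0 hq0
  have ht : 0 ≤ t := by linarith only [ht0, hKq, hk1q, hCq, hkq, hq0]
  have ht' : t ≤ 1 := by linarith only [ht1, hKq, hk1q, hCq, hkq, hq0]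
  have hCh : C * (hh * q) ≤ C * q := by
    refine mul_le_mul_of_nonneg_left ?_ hC0.le
    linarith only [hhq2, hq0]
  have hsm : C' * (C * (hh * q + hh * q)) ≤ δ / 4 * q := by
    have h1 : C' * C * 8 * hh ≤ C' * C * 8 * h₁ :=
      mul_le_mul_of_nonneg_left hhl (by positivity)
    have h2 : C' * C * 8 * hh ≤ δ := by linarith only [h1, hh3]
    have h3 := mul_le_mul_of_nonneg_right h2 hq0.le
    have h4 : C' * (C * (hh * q + hh * q)) = C' * C * 8 * hh * q / 4 := by ring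
    rw [h4]
    linarith only [h3]
  have hδq : 0 < δ * q := mul_pos hδ hq0
  have e0 : t + vF k₁ vw 0 * q = t := by simp [vF]
  have e2 : t + vF k₁ vw 2 * q = t - k₁ * q := by simp [vF]; ring
  have e3 : t + vF k₁ vw 3 * q = t + q := by simp [vF]
  obtain ⟨Φ, hΦ, K₂, hK₂, hpart, e, he, hF⟩ := hF q t x hq hx N A V N' V' R hp hv (fun l => lvN P c r (L r) l t t - hh * q)
    (L r t t - hh * q) (fun l j => lvN P c r (L r) l t t + kf * q - (j : ℕ) * t)
    (fun l hl => by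
      rw [hlv l hl.le]
      exact ⟨by linarith only [hhφq], by linarith only [hhq]⟩)
    (by linarith only [hhφq]) (by linarith only [hhq]) (fun l hl j _ => by rw [hlv l hl.le])
  refine ⟨K₂ * 1, by positivity, VfW.of_part (hΦ := hΦ) hK₂ hκ'.le hpart
    (hvf (kf := kf * q) (pr := L r t t - hh * q)
    (N₁ := L r t t + (Sl r - 1) * q - t) (e := e) (d := δ / 2 * q)
    (pf := fun l => lvN P c r (L r) l t t - hh * q) (Pq := Pq)
    (fun τ J F A h => R.pos τ J F A h.1) ?_ ?_)⟩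
  · simp only [e0]
    exact hF
  · exact
      { C1 := hC
        η0 := hhq
        ζ0 := hhq.le
        mb0 := hsq
        kk0 := hkq
        kf0 := hkq
        o0 := by
          simp only [e2]
          linarith only [ht0, hKq, hCq, hq0]
        o01 := by
          simp only [e0, e2]
          linarith only [hk1q, hkq, hq0]
        o12 := by
          simp only [e0, e3]
          linarith only [hq0]
        l0 := fun l hl => by
          simp only [e0]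
          rw [hlv l hl]
          exact ht.trans (R.low_at (by omega) ht le_rfl ht')
        pf0 := fun l hl => by
          simp only [e0]
          linarith only [he]
        pr0 := by
          simp only [e0]
          rw [hlv r le_rfl]
          linarith only [he]
        kq := by
          simp only [e0, e3]
          linarith only [hhq2, hq0]
        kf1 := by
          simp only [e0, e2]
          linarith only [hhq2, hk1q, hq0]
        kf2 := fun i => by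
          have := hPq i
          linarith only [this, hhq2, hq0]
        qf1 := hqf
        N1 := by
          simp only [e0, e3]
          rw [hlv r le_rfl]
          linarith only []
        oJ := by
          simp only [e0]
          linarith only [hCh, ht1, hKq, hk1q, hkq, hq0]
        δ0 := hδ
        sm := by
          simp only [e0, e3]
          linarith only [hsm, hδq] }

/-- **The class theorem of a steep coordinate** over coordinates of slope one, from its first jet. -/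
theorem celQG_f1 {m r : ℕ} (hr : 1 ≤ r) (hrm : r < m) {h : ℝ} {Sl : ℕ → ℝ} {κ : ℕ → Kg}
    (hκ : ∀ l < r, κ l = .one) (hκt : κ r = .stp) (hs : 2 < Sl r) {ι : Type} {Q : PropG m ι}
    (hF : F1U m r h Sl κ Q) : CelQG m r h Sl κ (sumQ Q FaQ) :=
  celQG_u hr hrm hκ hκt hs (velU_of_f1 hrm (by linarith only [hs]) hF)

end Pool.PKG
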