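import Pool.Agent.H73.D2.Tmw
import Pool.Agent.H42.D2.Vlu

/-!
# The dead velocity of a place from its first jet, under a hypothesis on the class

`F1UZ`: as `F1U`, the hypothesis `Z lam` on the class, `lam` chosen after the rate. `velUZ_of_f1`:
`VelUZ`. `celZ_f1`: then there is no drop at the place `r`. `F1U.z`: `F1UZ` without hypothesis.
-/

set_option autoImplicit false

namespace Pool.PKG

open Finset Real
open Pool.Agent.H49.Ent Pool.Agent.H32.Dense Pool.STK Pool.KA Pool.KSAT Pool.K2S Pool.PB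
open Pool.GEN Pool.S6C Pool.STAT Pool.CHT Pool.GRW Pool.ONE Pool.STA
open Pool.LBT (LSys ThrOf)
open Pool.LEV (Law)
open Pool.ALL (RateOf)
open Pool.ISO (PtD lvN WinD)
open Pool.V1E (vF vF_ge VfW VuN vfw_of rstC VfW.of_part)
open Pool.LA91 (FaQ sumQ qJets qJet)
open Pool.OWN68 (F1)
open Pool.RCD (vg)

/-- **The first jet of the place** `r`, under the hypothesis `Z lam` on the class, at all scales of the record: to `(Sl r - 1) q` digits beyond its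
level it is few bits (rate `dd`) given the own jets of the places before, to `kf q` digits beyond their
levels, on the events with a hereditary property `Φ` which holds on a part of relative mass `1 / K₂` of
each event; the precision of the labels is `φ q` below the levels, or better. `Ar`, `Vr`: pairs, `Vv`:
windows of the chain, `Q`: the property of the windows. -/
def F1UZ (m r : ℕ) (h : ℝ) (Sl : ℕ → ℝ) (κ : ℕ → Kg) {ι Λ : Type} (Q : PropG m ι)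
    (Z : PropZ m Λ) : Prop :=
  ∀ al : ℝ, 0 < al → ∀ K₀ : ℝ, 0 < K₀ → ∀ S₀ : ℕ, 1 ≤ S₀ →
  ∃ (Kr : ℝ) (Nr : ℕ) (Ar Vr : ℕ → ℝ), 1 ≤ Kr ∧ (∀ k < Nr, -Kr ≤ Vr k ∧ Vr k ≤ Ar k ∧ Ar k ≤ Kr) ∧
  ∀ S₂ : ℕ, S₀ ≤ S₂ → ∀ dd : ℝ, 0 < dd →
  ∃ (lam : Λ) (kf φ : ℝ), Sl r ≤ kf ∧ 0 < φ ∧
  ∃ (K₁ : ℝ) (Nv : ℕ) (Vv : ℕ → ℝ), (∀ j < Nv, -K₁ ≤ Vv j ∧ Vv j ≤ K₁) ∧ ∀ K' : ℝ, K₁ ≤ K' →
  ∃ ε₀ : ℝ, 0 < ε₀ ∧ ∀ ε : ℝ, 0 < ε → ε ≤ ε₀ →
  ∀ (S : PCl m) (g₀ : ℝ → ℝ) (P : List (Fin m) × Fin m → ℝ → ℝ → ℝ)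
    (θ : ℝ) (P₂ : ℕ → List (Fin m) × Fin m → ℝ → ℝ → ℝ) (θ₂ Eb e₂ : ℕ → ℝ) (c : ℕ → Fin m)
    (Pt : ℝ → ℝ → ℝ) (rt : ℝ → ℝ) (L T : ℕ → ℝ → ℝ → ℝ) (G : Set ℝ) (g : ℝ),
    IsClosed G → g ∈ G → (∀ l < m, HasDerivAt (fun x => L l x x) (Sl l) g) →
    Z lam S P θ c Pt rt L T κ G g →
    ∃ (p : ℕ → ι) (M : ℕ) (B₀ B₁ : ℕ → ℝ),
    (∀ j < M, B₀ j < B₁ j) ∧ ∀ k₀ : ℕ → ℕ, (∀ j < M, Q (p j) (k₀ j) S P θ c Pt rt L T κ G g) →
    ∃ q₁ : ℝ, 0 < q₁ ∧ ∀ (q t : ℝ) (x : ℕ → ℝ),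
      q < q₁ → (∀ j < M, x j ∈ G ∧ t + B₀ j * q ≤ x j ∧ x j ≤ t + B₁ j * q ∧
        Q (p j) (k₀ j) S P θ c Pt rt L T κ G (x j)) →
      ∀ (N : ℕ) (A V : ℕ → ℝ) (N' : ℕ) (V' : ℕ → ℝ),
      RecG S al g₀ P θ P₂ θ₂ Eb e₂ c Pt rt h K₀ g L T Sl κ G S₀ N A V S₂ N' V' K' ε q t →
      (∀ k < Nr, ∃ j < N, A j = Ar k ∧ V j = Vr k) → (∀ k < Nv, ∃ j < N', V' j = Vv k) →
      ∀ (pf : ℕ → ℝ) (pr : ℝ) (Nf : ℕ → ℕ → ℝ),
      (∀ l < r, L l t t - φ * q ≤ pf l ∧ pf l ≤ L l t t) →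
      L r t t - φ * q ≤ pr → pr ≤ L r t t →
      (∀ l < r, ∀ j ≤ 1, Nf l j = L l t t + kf * q - (j : ℕ) * t) →
      ∃ (Φ : Stat m) (hΦ : ∀ (J : ℕ) (F : Fam m J) (A B : F.Ω → Prop), Sub B A → Φ J F A → Φ J F B)
        (K₂ : ℝ), 0 < K₂ ∧
        Bas S (fun J F A => ∃ B : F.Ω → Prop, Sub B A ∧ Pe F.p A ≤ K₂ * Pe F.p B ∧ Φ J F B) ∧
        ∃ e : ℝ, 0 < e ∧ F1 (rstC S Φ hΦ) (fun J F => ptr F J) (vg t) (fun _ F => F.T)
          (qJets m c 0 r 1 (fun _ _ => t) (fun l _ => pf l) Nf)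
          (qJet m ((range r).image c) (c r) 1 t pr (L r t t + (Sl r - 1) * q - t)) e (dd * q)

/-- **The dead velocity of a place** from its first jet, under a hypothesis on the class. -/
theorem velUZ_of_f1 {m r : ℕ} (hrm : r < m) {h : ℝ} {Sl : ℕ → ℝ} {κ : ℕ → Kg} (hs : 0 ≤ Sl r)
    {ι Λ : Type} {Q : PropG m ι} {Z : PropZ m Λ} (hF : F1UZ m r h Sl κ Q Z) :
    VelUZ m r h Sl κ Q Z := by
  intro al hal K₀ hK₀ S₀ hS₀
  obtain ⟨Kr, Nr, Ar, Vr, hKr, hAV, hF⟩ := hF al hal K₀ hK₀ S₀ hS₀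
  refine ⟨Kr, Nr, Ar, Vr, hKr, hAV, fun S₂ hS₂ D Dr C δ hD hDr hC hδ hδ1 => ?_⟩
  obtain ⟨lam, kf, φ, hkf, hφ, K₁, Nv, Vv, hVv, hF⟩ := hF S₂ hS₂ (δ / 2) (by linarith only [hδ])
  obtain ⟨C', hC', hvf⟩ := vfw_of D r
  have hC0 : 0 < C := by linarith only [hC]
  have hC'0 : 0 < C' := by linarith only [hC']
  obtain ⟨h₁, hh₁⟩ : ∃ h₁ : ℝ, h₁ = min φ (min (1 / 2) (δ / (8 * (C' * C)))) := ⟨_, rfl⟩
  have hh0 : 0 < h₁ := by rw [hh₁]; positivity
  have hhφ : h₁ ≤ φ := by rw [hh₁]; exact min_le_left _ _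
  have hh2 : h₁ ≤ 1 / 2 := by rw [hh₁]; exact (min_le_right _ _).trans (min_le_left _ _)
  have hh3 : h₁ ≤ δ / (8 * (C' * C)) := by
    rw [hh₁]; exact (min_le_right _ _).trans (min_le_right _ _)
  rw [le_div_iff₀ (by positivity)] at hh3
  refine ⟨lam, kf, h₁, hkf, hh0, fun hh k₁ hhp hhl hk₁ => ?_⟩
  refine ⟨max K₁ (k₁ + C + 1), Nv, Vv, fun j hj => ?_, fun K' hK' => ?_⟩
  · obtain ⟨h1, h2⟩ := hVv j hj
    have h3 := le_max_left K₁ (k₁ + C + 1)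
    exact ⟨by linarith only [h1, h3], h2.trans h3⟩
  obtain ⟨ε₀, hε₀, hF⟩ := hF K' ((le_max_left _ _).trans hK')
  have hKk : k₁ + C + 1 ≤ K' := (le_max_right _ _).trans hK'
  refine ⟨ε₀, hε₀, fun ε hε hεε S g₀ P θ P₂ θ₂ Eb e₂ c Pt rt L T G g hG hg
    hder hZ => ?_⟩
  obtain ⟨p, M, B₀, B₁, hB, hF⟩ := hF ε hε hεε S g₀ P θ P₂ θ₂ Eb e₂ c Pt rt L T G g hG hg hder hZ
  refine ⟨p, M, B₀, B₁, hB, fun k₀ hgk => ?_⟩
  obtain ⟨q₁, hq₁, hF⟩ := hF k₀ hgk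
  refine ⟨q₁, hq₁, fun q t x hq hx N A V N' V' R hp hv N₂ vw κ' qf Pq hκ' hPq hqf => ?_⟩
  have hq0 := R.q0
  have ht0 := R.t0
  have ht1 := R.t1
  have hlv : ∀ l ≤ r, lvN P c r (L r) l t t = L l t t := fun l hl => by rw [← R.lv_at hrm hl]
  -- products
  have hkq : 0 ≤ kf * q := mul_nonneg (hs.trans hkf) hq0.le
  have hsq : 0 ≤ Sl r * q := mul_nonneg hs hq0.le
  have hhq : 0 < hh * q := mul_pos hhp hq0
  have hhq2 : hh * q ≤ 1 / 2 * q := mul_le_mul_of_nonneg_right (hhl.trans hh2) hq0.le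
  have hhφq : hh * q ≤ φ * q := mul_le_mul_of_nonneg_right (hhl.trans hhφ) hq0.le
  have hk1q : kf * q + 8 * q ≤ k₁ * q := by
    have := mul_le_mul_of_nonneg_right hk₁ hq0.le
    linarith only [this]
  have hKq : k₁ * q + C * q + q ≤ K' * q := by
    have := mul_le_mul_of_nonneg_right hKk hq0.le
    linarith only [this]
  have hCq : 0 < C * q := mul_pos hC0 hq0
  have ht : 0 ≤ t := by linarith only [ht0, hKq, hk1q, hCq, hkq, hq0]
  have ht' : t ≤ 1 := by linarith only [ht1, hKq, hk1q, hCq, hkq, hq0]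
  have hCh : C * (hh * q) ≤ C * q := by
    refine mul_le_mul_of_nonneg_left ?_ hC0.le
    linarith only [hhq2, hq0]
  have hsm : C' * (C * (hh * q + hh * q)) ≤ δ / 4 * q := by
    have h1 : C' * C * 8 * hh ≤ C' * C * 8 * h₁ :=
      mul_le_mul_of_nonneg_left hhl (by positivity)
    have h2 : C' * C * 8 * hh ≤ δ := by linarith only [h1, hh3]
    have h3 := mul_le_mul_of_nonneg_right h2 hq0.le
    have h4 : C' * (C * (hh * q + hh * q)) = C' * C * 8 * hh * q / 4 := by ring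
    rw [h4]
    linarith only [h3]
  have hδq : 0 < δ * q := mul_pos hδ hq0
  have e0 : t + vF k₁ vw 0 * q = t := by simp [vF]
  have e2 : t + vF k₁ vw 2 * q = t - k₁ * q := by simp [vF]; ring
  have e3 : t + vF k₁ vw 3 * q = t + q := by simp [vF]
  obtain ⟨Φ, hΦ, K₂, hK₂, hpart, e, he, hF⟩ := hF q t x hq hx N A V N' V' R hp hv (fun l => lvN P c r (L r) l t t - hh * q)
    (L r t t - hh * q) (fun l j => lvN P c r (L r) l t t + kf * q - (j : ℕ) * t)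
    (fun l hl => by
      rw [hlv l hl.le]
      exact ⟨by linarith only [hhφq], by linarith only [hhq]⟩)
    (by linarith only [hhφq]) (by linarith only [hhq]) (fun l hl j _ => by rw [hlv l hl.le])
  refine ⟨K₂ * 1, by positivity, VfW.of_part (hΦ := hΦ) hK₂ hκ'.le hpart
    (hvf (kf := kf * q) (pr := L r t t - hh * q)
    (N₁ := L r t t + (Sl r - 1) * q - t) (e := e) (d := δ / 2 * q)
    (pf := fun l => lvN P c r (L r) l t t - hh * q) (Pq := Pq)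
    (fun τ J F A h => R.pos τ J F A h.1) ?_ ?_)⟩
  · simp only [e0]
    exact hF
  · exact
      { C1 := hC
        η0 := hhq
        ζ0 := hhq.le
        mb0 := hsq
        kk0 := hkq
        kf0 := hkq
        o0 := by
          simp only [e2]
          linarith only [ht0, hKq, hCq, hq0]
        o01 := by
          simp only [e0, e2]
          linarith only [hk1q, hkq, hq0]
        o12 := by
          simp only [e0, e3]
          linarith only [hq0]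
        l0 := fun l hl => by
          simp only [e0]
          rw [hlv l hl]
          exact ht.trans (R.low_at (by omega) ht le_rfl ht')
        pf0 := fun l hl => by
          simp only [e0]
          linarith only [he]
        pr0 := by
          simp only [e0]
          rw [hlv r le_rfl]
          linarith only [he]
        kq := by
          simp only [e0, e3]
          linarith only [hhq2, hq0]
        kf1 := by
          simp only [e0, e2]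
          linarith only [hhq2, hk1q, hq0]
        kf2 := fun i => by
          have := hPq i
          linarith only [this, hhq2, hq0]
        qf1 := hqf
        N1 := by
          simp only [e0, e3]
          rw [hlv r le_rfl]
          linarith only []
        oJ := by
          simp only [e0]
          linarith only [hCh, ht1, hKq, hk1q, hkq, hq0]
        δ0 := hδ
        sm := by
          simp only [e0, e3]
          linarith only [hsm, hδq] }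

/-- **The class theorem of a steep coordinate** over coordinates of slope one, from its first jet,
under a hypothesis on the class. -/
theorem celZ_f1 {m r : ℕ} (hr : 1 ≤ r) (hrm : r < m) {h : ℝ} {Sl : ℕ → ℝ} {κ : ℕ → Kg}
    (hκ : ∀ l < r, κ l = .one) (hκt : κ r = .stp) (hs : 2 < Sl r) {ι Λ : Type} {Q : PropG m ι}
    {Z : PropZ m Λ} (hF : F1UZ m r h Sl κ Q Z) : CelZ m r h Sl κ (sumQ Q FaQ) Z :=
  celZ_u hr hrm hκ hκt hs (velUZ_of_f1 hrm (by linarith only [hs]) hF)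

/-- Without hypothesis on the class. -/
theorem F1U.z {m r : ℕ} {h : ℝ} {Sl : ℕ → ℝ} {κ : ℕ → Kg} {ι Λ : Type} {Q : PropG m ι}
    {Z : PropZ m Λ} (hF : F1U m r h Sl κ Q) (lam : Λ) : F1UZ m r h Sl κ Q Z := by
  intro al hal K₀ hK₀ S₀ hS₀
  obtain ⟨Kr, Nr, Ar, Vr, hKr, hAV, hF⟩ := hF al hal K₀ hK₀ S₀ hS₀
  refine ⟨Kr, Nr, Ar, Vr, hKr, hAV, fun S₂ hS₂ dd hdd => ?_⟩
  obtain ⟨kf, φ, hkf, hφ, K₁, Nv, Vv, hVv, hF⟩ := hF S₂ hS₂ dd hdd
  refine ⟨lam, kf, φ, hkf, hφ, K₁, Nv, Vv, hVv, fun K' hK' => ?_⟩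
  obtain ⟨ε₀, hε₀, hF⟩ := hF K' hK'
  refine ⟨ε₀, hε₀, fun ε hε hεε S g₀ P θ P₂ θ₂ Eb e₂ c Pt rt L T G g hG hg _ _ => ?_⟩
  obtain ⟨p, M, B₀, B₁, hB, hF⟩ := hF ε hε hεε S g₀ P θ P₂ θ₂ Eb e₂ c Pt rt L T G g hG hg
  exact ⟨p, M, B₀, B₁, hB, fun k₀ _ => hF k₀⟩

end Pool.PKG
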