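import Pool.Agent.H92.V0F.Vsd

/-!
# Labels of the chain windows with a margin for the radii

`recG_lbf`: as `recG_lbe` of helper92, the radii stay below one by the margin, too.
-/

set_option autoImplicit false

namespace Pool.V0F

open Finset Real MvPolynomial
open Pool.Agent.H49.Ent Pool.Agent.H32.Dense Pool.STK Pool.KA Pool.KSAT Pool.K2S Pool.PB Pool.GEN
open Pool.S6C Pool.RCD Pool.LA91 Pool.OWN68 Pool.PKG
open Pool.D2R (BalD)
open Pool.CHT (chsys TmH)
open Pool.ISO (lvN)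
open Pool.TOP (TopS)
open Pool.ONE (lst)

/-- **Labels of a universal degree at the chain windows of a record**, in a subclass, with a margin, also for the radii:
the degree `D` depends only on `n` and `S₀`. -/
theorem recG_lbf (n S₀ : ℕ) (hn : 2 ≤ n) (hS₀ : 1 ≤ S₀) : ∃ D : ℕ, 1 ≤ D ∧
    ∀ {S : PCl n} {al : ℝ} {g₀ : ℝ → ℝ} {P : List (Fin n) × Fin n → ℝ → ℝ → ℝ}
    {θ : ℝ} {P₂ : ℕ → List (Fin n) × Fin n → ℝ → ℝ → ℝ} {θ₂ Eb e₂ : ℕ → ℝ}
    {c : ℕ → Fin n} {Pt : ℝ → ℝ → ℝ} {r : ℝ → ℝ} {h K₀ g : ℝ} {L T : ℕ → ℝ → ℝ → ℝ}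
    {Sl : ℕ → ℝ} {κ : ℕ → Kg} {G : Set ℝ} {N : ℕ} {A V : ℕ → ℝ} {S₂ N' : ℕ} {V' : ℕ → ℝ}
    {K ε q t m₁ : ℝ},
    RecG S al g₀ P θ P₂ θ₂ Eb e₂ c Pt r h K₀ g L T Sl κ G S₀ N A V S₂ N' V' K ε q t →
    0 < K → (∀ k < N', |V' k| ≤ K) → m₁ ≤ 3 * K * q →
    (∀ k < N', ∃ rd : ℕ → ℝ, Chn S c 0 (n - 1) (t + V' k * q) (t + V' k * q)
      (L (n - 2) (t + V' k * q) (t + V' k * q)) (fun l => L l (t + V' k * q) (t + V' k * q)) rd) →
    (∀ k < N', ∃ rk E : ℝ, 0 ≤ E ∧ E + L (n - 1) (t + V' k * q) (t + V' k * q) + m₁ ≤ 1 ∧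
      AttR S ((range (n - 1)).image c) (c (n - 1)) (t + V' k * q)
        (L (n - 1) (t + V' k * q) (t + V' k * q)) rk E) →
    ∃ S' : PCl n,
      (∀ (τ : ℝ) (J : ℕ) (F : Fam n J) (A : F.Ω → Prop), S'.St τ J F A → S.St τ J F A) ∧
      RecG S' al g₀ P θ P₂ θ₂ Eb e₂ c Pt r h K₀ g L T Sl κ G S₀ N A V S₂ N' V' K ε q t ∧
      ∀ k < N', ∃ (E rd : ℕ → ℝ),
        (∀ l ≤ n - 1, 0 ≤ E l ∧ L l (t + V' k * q) (t + V' k * q) + E l + m₁ ≤ 1 ∧
          0 ≤ rd l ∧ rd l + m₁ ≤ 1) ∧ ∀ e : ℝ, 0 < e →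
        Bas S' (fun J F A => ∃ (V : Type) (z : PtT F → V) (z' : LnT F → V)
          (g : V → ℕ → MvPolynomial (Option (Fin n)) ℝ),
          LbE F c n D E e (t + V' k * q) rd
            (fun l => L l (t + V' k * q) (t + V' k * q)) A z z' g) := by
  obtain ⟨D, hD, hext⟩ := lbc_ext n (n - 1) S₀ (by omega) hS₀
  refine ⟨D, hD, ?_⟩
  intro S al g₀ P θ P₂ θ₂ Eb e₂ c Pt r h K₀ g L T Sl κ G N A V S₂ N' V' K ε q t m₁ R hK hV hm₁
    hch hatt
  have hn1 : n - 1 + 1 = n := by omega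
  have hq := R.q0
  choose! rd hch using hch
  choose! rk E hE0 hE1 hatt using hatt
  have hlv : ∀ k < N', ∀ i ≤ n - 1, 0 < lvN P c (n - 1) Pt i (t + V' k * q) (t + V' k * q) := by
    intro k hk i hi
    obtain ⟨ρ, vs, e, e₀, E, sg, Q, k1, -⟩ := (balD_rec R hn hK hk (hV k hk)).dw
    exact k1.w0.trans_le (k1.low R.thr i)
  have hlvL : ∀ k : ℕ, ∀ i ≤ n - 1, lvN P c (n - 1) Pt i (t + V' k * q) (t + V' k * q) =
      L i (t + V' k * q) (t + V' k * q) := fun k i hi => by rw [R.lv i (by omega)]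
  have hroom : ∀ k < N', ∀ i ≤ n - 1, L i (t + V' k * q) (t + V' k * q) + m₁ ≤ 1 := by
    intro k hk i hi
    have W := R.tg (n - 1) (by omega) (by omega)
    have h3 := W.room i hi (t + V' k * q) (by
      rw [add_sub_cancel_left, abs_mul, abs_of_pos hq]
      exact mul_le_mul_of_nonneg_right (hV k hk) hq.le)
    have := W.Eb0
    linarith
  obtain ⟨u, hu⟩ : ∃ u : ℕ → ℝ, u = fun k => L (n - 2) (t + V' k * q) (t + V' k * q) := ⟨_, rfl⟩
  have hue : ∀ k, L (n - 2) (t + V' k * q) (t + V' k * q) = u k := fun k => by rw [hu]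
  obtain ⟨E', hE'⟩ : ∃ E' : ℕ → ℝ, E' = fun k =>
      max (E k) (u k - L (n - 1) (t + V' k * q) (t + V' k * q)) := ⟨_, rfl⟩
  obtain ⟨S', hne, hsub, hlab⟩ := hext (ι := {k : ℕ // k < N'}) (w := fun k => t + V' k.1 * q)
    (u := fun k _ => u k.1)
    (E := fun k i => if i < n - 1 then max 0 (u k.1 - L i (t + V' k.1 * q) (t + V' k.1 * q))
      else E' k.1) R.ne R.thr R.th0 R.tmh
    (by norm_num : (0 : ℝ) ≤ 6) R.tmc (by rw [hn1]; exact R.inj) R.law (fun k => by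
      have h1 := hch k.1 k.2
      rw [hue] at h1
      refine LbD.of2 (balD_rec R hn hK k.2 (hV k.1 k.2)) h1 (fun i hi => (hlvL k.1 i hi.le).symm)
        (rk := rk k.1) ?_ ?_ ?_ (hlv k.1 k.2)
      · rw [hlvL k.1 _ le_rfl]
        refine (hatt k.1 k.2).mono ?_
        rw [hE']
        exact le_max_left _ _
      · rw [hE']
        exact (hE0 k.1 k.2).trans (le_max_left _ _)
      · rw [hlvL k.1 _ le_rfl, hE']
        have := le_max_right (E k.1) (u k.1 - L (n - 1) (t + V' k.1 * q) (t + V' k.1 * q))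
        linarith)
  have hu1 : ∀ k < N', u k + m₁ ≤ 1 := fun k hk => by
    rw [← hue]
    exact hroom k hk _ (by omega)
  refine ⟨S', hsub, R.sub hne hsub, fun k hk => ⟨fun i => if i < n - 1 then
    max 0 (u k - L i (t + V' k * q) (t + V' k * q)) else E' k, fun _ => u k,
    fun l hl => ⟨?_, ?_, ?_, hu1 k hk⟩, fun e he => ?_⟩⟩
  · by_cases h1 : l < n - 1
    · simp only [if_pos h1]
      exact le_max_left _ _
    · simp only [if_neg h1]
      rw [hE']
      exact (hE0 k hk).trans (le_max_left _ _)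
  · have hu1 := hu1 k hk
    by_cases h1 : l < n - 1
    · simp only [if_pos h1]
      have h2 := hroom k hk l hl
      rcases max_choice 0 (u k - L l (t + V' k * q) (t + V' k * q)) with h3 | h3
      · rw [h3]
        linarith
      · rw [h3]
        linarith
    · have h2 : l = n - 1 := by omega
      subst h2
      simp only [lt_irrefl, if_false]
      rw [hE']
      simp only
      rcases max_choice (E k) (u k - L (n - 1) (t + V' k * q) (t + V' k * q)) with h3 | h3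
      · rw [h3]
        linarith [hE1 k hk]
      · rw [h3]
        linarith
  · show 0 ≤ u k
    rw [← hue]
    exact (hch k hk).w0.trans (hch k hk).wu1
  · refine (hlab ⟨k, hk⟩ e he).mono 0 ?_
    rintro J - F A' ⟨V₁, z, z', g', h1⟩
    refine ⟨V₁, z, z', g', fun i hi => ?_⟩
    have h2 := h1 i (by omega)
    simp only [← R.lv i hi] at h2
    exact h2

end Pool.V0F
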