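import Pool.Agent.H42.D2.Npc
import Pool.Agent.H18.PN.Prb

/-!
# The jets of the own path given the far digits of the chain

`NpH`: the hypotheses of the near path theorem in one structure. `path_nph`: the theorem.
`fw2_nph`: each jet of the own path.
-/

set_option autoImplicit false

namespace Pool.NPZ

open Finset Real MvPolynomial
open Pool.Agent.H49.Ent Pool.Agent.H32.Dense Pool.STK Pool.KA Pool.KSAT Pool.K2S Pool.PB Pool.GEN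
open Pool.S6C Pool.RCD Pool.LA91 Pool.OWN68 Pool.CHT Pool.AJW
open Pool.GRD (LbP)
open Pool.UNJ (ceI Tub)
open Pool.ALT (DpI)
open Pool.AJX (LbX FwX)
open Pool.PN18 (Fm2 Fw2)

/-- **The hypotheses of the near path theorem**: degree `K` of the labels of the path, deficit `h`,
error `δ q` of the rows. -/
structure NpH (K : ℕ) (h δ : ℝ) {m : ℕ} (S : PCl m) (c : ℕ → Fin m) (r₀ r : ℕ)
    (v w lam q₁ ρ g₀ : ℝ) (E pc s n lv rd : ℕ → ℝ) (κ : Fin m) (I : Finset (Fin m)) (Kc K' : ℕ)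
    (e P pN pa q d rG eG a : ℝ) (Θ : Fm4 m) : Prop where
  ch : ChJ S c r₀ r v w lam q₁ ρ g₀ E pc s n lv rd
  e0 : 0 < e
  e8 : e ≤ ρ / 8
  eg : e ≤ g₀ / 2
  pN0 : 0 < pN
  pNP : pN < P
  Pe : P - pN ≤ e
  Pδ : P - pN ≤ δ * q / 8
  Pa : P + q ≤ pa
  Pq : P + q ≤ pN + q₁
  q0 : 0 < q
  vq : v + q ≤ 1
  wa : w ≤ a
  a1 : a ≤ 1
  rG0 : 0 ≤ rG
  eG0 : 0 < eG
  dd : d + (r + 1) * ρ < δ * q / 2
  npc : NpC Θ c r₀ r κ Kc K' v w pN pa e E rd pc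
  lb : ∀ (J : ℕ) (F : Fam m J) (A : F.Ω → Prop) (V : Type) (z : PtT F → V) (z' : LnT F → V)
    (G : V → MvPolynomial (Option (Fin m)) ℝ) (g : V → ℕ → MvPolynomial (Option (Fin m)) ℝ),
    Θ J F A V z z' G g →
    LbOK F I κ K ⌊eG * J⌋₊ J ⌊v * J⌋₊ ⌊(rG + eG) * J⌋₊ ⌊pN * J⌋₊ A z z' G
  hs : ∀ (J : ℕ) (F : Fam m J) (A B : F.Ω → Prop) (V : Type) (z : PtT F → V) (z' : LnT F → V)
    (G : V → MvPolynomial (Option (Fin m)) ℝ) (g : V → ℕ → MvPolynomial (Option (Fin m)) ℝ),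
    Sub B A → Θ J F A V z z' G g → Θ J F B V z z' G g
  row : ∀ sa sb : ℝ, P ≤ sa → sa ≤ sb → sb ≤ P + q →
    Bas S (fun J F A => ∀ (V : Type) (z : PtT F → V) (z' : LnT F → V)
    (G : V → MvPolynomial (Option (Fin m)) ℝ) (g : V → ℕ → MvPolynomial (Option (Fin m)) ℝ),
    Θ J F A V z z' G g →
    CH (Pool.Agent.H49.Ent.cond F.p A True)
      (fun ω => ⌊(2 : ℝ) ^ (sb * J) * ojet F κ 0 (G (z' (slam F ⌊v * J⌋₊ ω))) ω⌋)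
      (fun ω => (⌊(2 : ℝ) ^ (sa * J) * ojet F κ 0 (G (z' (slam F ⌊v * J⌋₊ ω))) ω⌋,
        (ceI ((range r).image c) (fun _ => J) (F.x ω),
          (z' (slam F ⌊v * J⌋₊ ω), F.W ω)))) ≤
      ((1 - h) * (sb - sa) * Real.log 2 + d) * J)

/-- **The near path theorem.** -/
theorem path_nph (K : ℕ) {h : ℝ} (hh : 0 < h) (hh1 : h ≤ 1) {ε : ℝ} (hε : 0 < ε) :
    ∃ δ : ℝ, 0 < δ ∧ ∀ {m : ℕ} {S : PCl m} {C₀ : ℝ} (_ : TmC S C₀) {c : ℕ → Fin m} {r₀ r : ℕ}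
    {v w lam q₁ ρ g₀ : ℝ} {E pc s n lv rd : ℕ → ℝ} {κ : Fin m} {I : Finset (Fin m)} {Kc K' : ℕ}
    {e P pN pa q d rG eG a : ℝ} {Θ : Fm4 m}
    (_ : NpH K h δ S c r₀ r v w lam q₁ ρ g₀ E pc s n lv rd κ I Kc K' e P pN pa q d rG eG a Θ)
    {U₀ : Type} {Qu : Qt m U₀} {α γ : ∀ J : ℕ, Fam m J → Type}
    {f : ∀ (J : ℕ) (F : Fam m J), F.Ω → α J F} {y : ∀ (J : ℕ) (F : Fam m J), F.Ω → γ J F}
    (_ : ∀ (J : ℕ) (F : Fam m J), ∃ φ : α J F → PtT F, ∀ ω, ptr F J ω = φ (f J F ω))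
    (_ : Kn0 ((range r₀).image c) (v + lam) y)
    (_ : FwX S f (vg a) y Qu c r₀ r Kc E v rd pc (ctx c r₀ r Kc v lam n) e (δ * q / 4)),
    ∀ K₀ : ℕ, Bas S (fun J F A => ∀ (V : Type) (z : PtT F → V) (z' : LnT F → V)
      (G : V → MvPolynomial (Option (Fin m)) ℝ) (g : V → ℕ → MvPolynomial (Option (Fin m)) ℝ),
      Θ J F A V z z' G g → ∀ u₀ : F.Ω → U₀, Qu.P K₀ (P - pN) J F A u₀ →
      ∃ (V₁ : Type) (z₁ : F.Ω → V₁), Cl2 (f J F) (vg a J F) A z₁ ∧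
        CH (Pool.Agent.H49.Ent.cond F.p A True)
          (fun ω => ((z' (vg v J F ω), (vg v J F ω).2), (ctx c r₀ r Kc v lam n J F V z' g ω,
            fun j : Fin (K + 3) => ⌊jr F ⌊v * J⌋₊ (2 ^ ((P + q) * J)) κ z' G j (vg v J F ω)⌋)))
          (fun ω => (u₀ ω, (z₁ ω, y J F ω))) ≤ ε * q * J) := by
  obtain ⟨δ, hδ, Hp⟩ := path_np K hh hh1 hε
  refine ⟨δ, hδ, ?_⟩
  intro m S C₀ htm c r₀ r v w lam q₁ ρ g₀ E pc s n lv rd κ I Kc K' e P pN pa q d rG eG a Θ H U₀ Qu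
    α γ f y hf hy hctx
  exact Hp htm H.ch H.e0 H.e8 H.eg H.pN0 H.pNP H.Pe H.Pδ H.Pa H.Pq H.q0 H.vq H.wa H.a1 H.rG0 H.eG0
    H.dd H.npc H.lb H.hs H.row hf hy hctx

/-- **The jets of the own path**, given the near digits of the chain. -/
theorem fw2_nph (K : ℕ) {h : ℝ} (hh : 0 < h) (hh1 : h ≤ 1) {ε : ℝ} (hε : 0 < ε) :
    ∃ δ : ℝ, 0 < δ ∧ ∀ {m : ℕ} {S : PCl m} {C₀ : ℝ} (_ : TmC S C₀) {c : ℕ → Fin m} {r₀ r : ℕ}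
    {v w lam q₁ ρ g₀ : ℝ} {E pc s n lv rd : ℕ → ℝ} {κ : Fin m} {I : Finset (Fin m)} {Kc K' : ℕ}
    {e P pN pa q d rG eG a : ℝ} {Θ : Fm4 m}
    (_ : NpH K h δ S c r₀ r v w lam q₁ ρ g₀ E pc s n lv rd κ I Kc K' e P pN pa q d rG eG a Θ)
    {U₀ : Type} {Qu : Qt m U₀} {α γ : ∀ J : ℕ, Fam m J → Type}
    {f : ∀ (J : ℕ) (F : Fam m J), F.Ω → α J F} {y : ∀ (J : ℕ) (F : Fam m J), F.Ω → γ J F}
    (_ : ∀ (J : ℕ) (F : Fam m J), ∃ φ : α J F → PtT F, ∀ ω, ptr F J ω = φ (f J F ω))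
    (_ : Kn0 ((range r₀).image c) (v + lam) y)
    (_ : FwX S f (vg a) y Qu c r₀ r Kc E v rd pc (ctx c r₀ r Kc v lam n) e (δ * q / 4))
    {Th : Fm2 m} (_ : ∀ (J : ℕ) (F : Fam m J) (A : F.Ω → Prop) (V C : Type) (z : PtT F → V)
      (z' : LnT F → V) (G₁ G₂ : V → MvPolynomial (Option (Fin m)) ℝ) (cc : LnT F → C),
      Th J F A V C z z' G₁ G₂ cc →
      ∃ g : V → ℕ → MvPolynomial (Option (Fin m)) ℝ, Θ J F A V z z' G₂ g) (j : ℕ) {e' : ℝ}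
    (_ : e' ≤ P - pN),
    Fw2 S f a y Qu Th (τ := fun _ _ _ _ => ℤ)
      (fun J F _ _ z' _ G₂ _ ω => ⌊(2 : ℝ) ^ ((P + q - j * v) * J) *
        ojet F κ j (G₂ (z' (slam F ⌊v * J⌋₊ ω))) ω⌋) e' (ε * q) := by
  classical
  obtain ⟨δ, hδ, Hp⟩ := path_nph K hh hh1 (half_pos hε)
  refine ⟨δ, hδ, ?_⟩
  intro m S C₀ htm c r₀ r v w lam q₁ ρ g₀ E pc s n lv rd κ I Kc K' e P pN pa q d rG eG a Θ H U₀ Qu
    α γ f y hf hy hctx Th hTh j e' he' K₀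
  have hq := H.q0
  have hv0 := H.ch.v0
  have hv1 : v ≤ 1 := by linarith [H.vq]
  have hyT : ∀ (J : ℕ) (F : Fam m J), ∃ φ : γ J F → ℕ, ∀ ω, F.T ω = φ (y J F ω) := by
    intro J F
    obtain ⟨φ, hφ⟩ := hy J F
    exact ⟨fun x => (φ x).1, fun ω => (congrArg Prod.fst (hφ ω)).symm⟩
  obtain ⟨M, hM⟩ := jet_path (K + 2) j
  obtain ⟨J₁, hJ₁⟩ := exists_nat_ge (Real.log (2 * M + 1) / (ε / 2 * q))
  refine Bas.mono J₁ ((Hp htm H hf hy hctx K₀).and (Pool.GRW.tmc_bas htm one_pos)) ?_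
  rintro J hJ F A ⟨h1, hA, -⟩ V C z z' G₁ G₂ cc hT u₀ hu₀
  obtain ⟨g, hg⟩ := hTh J F A V C z z' G₁ G₂ cc hT
  have hJ0 : (0 : ℝ) ≤ J := Nat.cast_nonneg J
  have f1 : Real.log (2 * M + 1) ≤ ε / 2 * q * J := by
    have e1 : (J₁ : ℝ) ≤ J := by exact_mod_cast hJ
    have e2 := hJ₁.trans e1
    rw [div_le_iff₀ (by positivity)] at e2
    linarith
  obtain ⟨V₁, z₁, hz₁, h2⟩ := h1 V z z' G₂ g hg u₀ (Qu.mono le_rfl he' hu₀)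
  refine ⟨V₁, z₁, hz₁, ?_⟩
  obtain ⟨q', hq'⟩ : ∃ q' : F.Ω → ℝ, q' = Pool.Agent.H49.Ent.cond F.p A True := ⟨_, rfl⟩
  have hq'l : IsLaw q' := by
    rw [hq']
    exact isLaw_cond F.isLaw hA
  have h0 := hq'l.nonneg
  rw [← hq'] at h2 ⊢
  obtain ⟨X, hX⟩ : ∃ X : F.Ω → (V × (F.ζ × ℕ)) × (((Fin m → ℤ × ℤ) × (ℕ → ℕ → ℤ)) ×
      (Fin (K + 3) → ℤ)), X = fun ω => ((z' (vg v J F ω), (vg v J F ω).2),
        (ctx c r₀ r Kc v lam n J F V z' g ω,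
        fun j : Fin (K + 3) => ⌊jr F ⌊v * J⌋₊ (2 ^ ((P + q) * J)) κ z' G₂ j (vg v J F ω)⌋)) :=
    ⟨_, rfl⟩
  rw [← hX] at h2
  obtain ⟨Y, hY⟩ : ∃ Y : F.Ω → U₀ × (V₁ × γ J F), Y = fun ω => (u₀ ω, (z₁ ω, y J F ω)) := ⟨_, rfl⟩
  rw [← hY] at h2 ⊢
  have s1 := CH_le_add h0 (fun ω => ⌊(2 : ℝ) ^ ((P + q - j * v) * J) *
        ojet F κ j (G₂ (z' (slam F ⌊v * J⌋₊ ω))) ω⌋) X Y
  have s2 := hM hv0 (floor_le hv1 J) (s := P + q) (κ := κ) (z' := z') (G := G₂) (fun x => by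
      have h3 := (H.lb J F A V z z' G₂ g hg).deg x
      refine (MvPolynomial.totalDegree_sub _ _).trans (max_le ?_ (h3.trans (by omega)))
      exact (totalDegree_X _).le.trans (by omega)) hq'l (fun ω => (X ω, Y ω)) (fun ω ω' _ _ e => by
      obtain ⟨φT, hφT⟩ := hyT J F
      have e1 := (Prod.ext_iff.mp e).1
      have e2 := (Prod.ext_iff.mp e).2
      rw [hX] at e1
      rw [hY] at e2
      simp only [Prod.mk.injEq] at e1 e2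
      refine ⟨by rw [hφT, hφT, e2.2.2], fun i hi => ?_⟩
      exact congrFun e1.2.2 ⟨i, by omega⟩)
  have e3 : ε * q * J = ε / 2 * q * J + ε / 2 * q * J := by ring
  linarith

end Pool.NPZ
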