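import Pool.Agent.H42.D2.Nqa
import Pool.Agent.H42.D2.Nqb
import Pool.Agent.H42.D2.Nqd
import Pool.Agent.H60.ALT.Nbf
import Pool.Agent.H92.ALT.Jn1

/-!
# The velocity over the natural labels of a family of small rate

`vfN_B`: the velocity of `N - P` is dead (`VfNU`) at a window of a record, `P` a natural label of `N`
of the window `t - y₁ q`, if the places before the last two have slope one. `VbYb`, `vbYb_of`: with the
choice of all numbers, for any `y₁` from the slope of `N` on. `vbY_of`: `VbY` of helper92.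
-/

set_option autoImplicit false

namespace Pool.ALT

open Finset Real MvPolynomial
open Pool.Agent.H49.Ent Pool.Agent.H32.Dense Pool.STK Pool.KA Pool.KSAT Pool.K2S Pool.PB Pool.S6C
  Pool.GEN Pool.RCD Pool.LA91 Pool.OWN68 Pool.PKG
open Pool.CHT Pool.CHX Pool.ISO Pool.D2R Pool.D2G30 Pool.V1E Pool.CR99 Pool.GRW
open Pool.UNJ (ceI)
open Pool.GRD (LbP)
open Pool.PN18 (Fm2 Fw2)
open Pool.AJX (LbX FwX)
open Pool.AJW (JfU jfV jfV_mem nX aX)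
open Pool.NPZ (Fm4 NpC VaD ChJ NpH fw2_nph)
open Pool.V0F (ChUQ AttUQ recG_lbf)

/-- The family of pairs of labels of a family with labels of the chain: the first label is free. -/
def ThB {m : ℕ} (Θ : Fm4 m) : Fm2 m := fun J F A V _ z z' _ G₂ _ => ∃ g, Θ J F A V z z' G₂ g

/-- **The constants** of `vfN_B`: `s` the slope of the target, the labels are closed at the window
`t - y₁ q`, `δN` the constant of the path. -/
structure VbK (r : ℕ) (s y₁ δN C C' δ lam φ Xc dt X kf hh k₁ a ε : ℝ) : Prop where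
  s1 : 1 < s
  y1 : s ≤ y₁
  l0 : 0 < lam
  ls : lam = s * y₁ - (y₁ - s + 1) / 2
  φ0 : 0 < φ
  φ1 : φ ≤ 1
  φN : (r + 1) * φ ≤ δN * lam / 8
  φX : 32 * (r + 1) * φ ≤ Xc
  sX : 12 * y₁ ≤ Xc
  lX : lam + dt * lam / 8 - -y₁ + 3 * φ ≤ Xc
  X30 : 0 ≤ 3 ^ r * Xc
  kX : 3 ^ r * Xc ≤ kf
  ks : s * y₁ + s + 1 ≤ kf
  dt0 : 0 < dt
  dtN : dt ≤ δN / 2
  dtφ : dt * lam ≤ φ
  C1 : 1 ≤ C
  C'1 : 1 ≤ C'
  δ0 : 0 < δ
  X0 : 0 < X
  X2 : X ≤ 1 / 2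
  Xδ : C' * X ≤ δ / 4
  h0 : 0 < hh
  hφ : hh ≤ φ
  h4 : hh ≤ 1 / 4
  hC : 4 * (C * hh) ≤ X
  hX : 4 * hh ≤ X
  kk : kf + 8 ≤ k₁
  ka : a + 1 ≤ k₁
  ε0 : 0 < ε
  εφ : 2 * ε ≤ φ
  εX : 4 * ε ≤ X

set_option maxHeartbeats 1000000 in
/-- **The velocity over the natural labels of a family of small rate**, at the windows of a record. -/
theorem vfN_B (Db Dw r : ℕ) (hr : 1 ≤ r) {hb : ℝ} (hb0 : 0 < hb) (hb1 : hb ≤ 1) {δ lam : ℝ}
    (hδ : 0 < δ) (hlam : 0 < lam) : ∃ δN C' : ℝ, 0 < δN ∧ 1 ≤ C' ∧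
    ∀ {S : PCl (r + 2)} {al : ℝ} {g₀ : ℝ → ℝ}
    {P : List (Fin (r + 2)) × Fin (r + 2) → ℝ → ℝ → ℝ} {θ : ℝ}
    {P₂ : ℕ → List (Fin (r + 2)) × Fin (r + 2) → ℝ → ℝ → ℝ} {θ₂ Eb e₂ : ℕ → ℝ}
    {c : ℕ → Fin (r + 2)} {Pt : ℝ → ℝ → ℝ} {rt : ℝ → ℝ} {h K₀ g : ℝ} {L T : ℕ → ℝ → ℝ → ℝ}
    {Sl : ℕ → ℝ} {κ : ℕ → Kg} {G : Set ℝ} {S₀ N : ℕ} {A V : ℕ → ℝ} {S₂ Na : ℕ} {Va : ℕ → ℝ}
    {K' ε q t : ℝ}
    (_ : RecG S al g₀ P θ P₂ θ₂ Eb e₂ c Pt rt h K₀ g L T Sl κ G S₀ N A V S₂ Na Va K' ε q t)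
    (_ : ∀ l < r, κ l = .one) {s y₁ C φ Xc dt X kf hh k₁ a : ℝ}
    (_ : Sl (r + 1) = s) (_ : VbK r s y₁ δN C C' δ lam φ Xc dt X kf hh k₁ a ε)
    (_ : k₁ + C + 3 ^ r * Xc + kf + y₁ + lam + 3 ≤ K')
    (_ : ChG S c (r + 1) (fun l x => L l x x) G) (_ : t ∈ G)
    (_ : ∀ k ≤ r, t + jfV r (-y₁) Xc k * q ∈ G) {E rd : ℕ → ℝ} {Kl : ℕ}
    (_ : ∀ i < r, 0 ≤ E i ∧ L i (t + -y₁ * q) (t + -y₁ * q) + E i + 3 * K' * q ≤ 1 ∧
      0 ≤ rd i ∧ rd i + 3 * K' * q ≤ 1)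
    (_ : ∀ e : ℝ, 0 < e → Bas S (fun J F A => ∃ (V : Type) (z : PtT F → V) (z' : LnT F → V)
      (g : V → ℕ → MvPolynomial (Option (Fin (r + 2))) ℝ),
      LbX F c 0 r Kl e E (t + -y₁ * q) rd (fun i => L i (t + -y₁ * q) (t + -y₁ * q)) A z z' g))
    {i j : ℕ} {Rr rr ℓ g₂ Xa μ e₀ π₀ : ℝ} {Ψ : Fml (r + 2)}
    {w p₁ p₂ eN uN pN pa₁ pa₂ ea ua pa : ℝ} (_ : 0 < μ) (_ : Va i = -y₁) (_ : Va j = 0)
    (_ : AlO S c L Db Na Va i j Rr hb dt lam rr ℓ g₂ Xa hh μ e₀ π₀ q t Ψ w p₁ p₂ eN uN pN pa₁ pa₂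
      ea ua pa) {D Dr : ℕ}
    (_ : (max D (Db * max 1 Db) + 1) * (max D (Db * max 1 Db) + 1) ≤ Dr),
    ∃ Θ : Fm2 (r + 2),
      (∀ (J : ℕ) (F : Fam (r + 2) J) (A B : F.Ω → Prop) (V C : Type) (z : PtT F → V)
        (z' : LnT F → V) (G₁ G₂ : V → MvPolynomial (Option (Fin (r + 2))) ℝ) (cc : LnT F → C),
        Sub B A → Θ J F A V C z z' G₁ G₂ cc → Θ J F B V C z z' G₁ G₂ cc) ∧
      (∀ (J : ℕ) (F : Fam (r + 2) J) (A : F.Ω → Prop) (V C : Type) (z : PtT F → V)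
        (z' : LnT F → V) (G₁ G₂ : V → MvPolynomial (Option (Fin (r + 2))) ℝ) (cc : LnT F → C),
        Θ J F A V C z z' G₁ G₂ cc →
        NzF Ψ c r (c (r + 1)) Db Db Db w (t + -y₁ * q) p₁ p₂ eN uN pN J F A V z z' G₂) ∧
      Bas S (fun J F A => ∃ (V C : Type) (z : PtT F → V) (z' : LnT F → V)
        (G₁ G₂ : V → MvPolynomial (Option (Fin (r + 2))) ℝ) (cc : LnT F → C),
        Θ J F A V C z z' G₁ G₂ cc) ∧
      ∀ {y : ℝ} {vw : ℕ → ℝ} {N₁ N₂ : ℕ} {Rg : ℕ → Prop} {be : ℕ → ℕ → ℝ} {E₁ ε₁ a₁ : ℝ}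
        (κ' : ℝ) (qf : ℕ → Fin r → ℕ) (Pq : Fin r → ℝ), 0 < κ' → κ' ≤ 1 →
        (∀ i, (kf + 1) * q ≤ Pq i) → (∀ (J : ℕ) (i : Fin r), Pq i * J - 2 ≤ qf J i) →
        VfNU S c r D Dw Dr N₁ N₂ Rg C a₁ E₁ ε₁ (hh * q) (X * q) (s * q) (kf * q) (L (r + 1))
          (fun k => t + vG y k₁ vw k * q)
          (fun k l => lvN P c (r + 1) (L (r + 1)) l (t + vG y k₁ vw k * q)
            (t + vG y k₁ vw k * q)) be κ' qf δ (2 * 1) (XiF Θ (t + -y₁ * q)) := by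
  classical
  obtain ⟨δN, hδN, Hfw⟩ := fw2_nph (Db * max 1 Db) hb0 hb1 (ε := δ / (4 * lam)) (by positivity)
  obtain ⟨C', hC', hvf⟩ := vfnU_of Dw r
  refine ⟨δN, C', hδN, hC', ?_⟩
  intro S al g₀ P θ P₂ θ₂ Eb e₂ c Pt rt h K₀ g L T Sl κ G S₀ N A V S₂ Na Va K' ε q t R hκ s y₁ C φ Xc
    dt X kf hh k₁ a hs Kn hK' hCG hGt hGw E rd Kl hE hlb i j Rr rr ℓ g₂ Xa μ e₀ π₀ Ψ w p₁ p₂ eN uN
    pN pa₁ pa₂ ea ua pa hμ hVi hVj H D Dr hDr
  have hq0 := R.q0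
  have ht0 := R.t0
  have ht1 := R.t1
  have hs1 := Kn.s1
  have hy1 := Kn.y1
  have hy0 : 1 < y₁ := by linarith only [hs1, hy1]
  have hsy0 : 0 < s * y₁ := by positivity
  have hkf0 : 0 < kf := by linarith only [Kn.ks, hs1, hsy0]
  have hC0 : 0 < C := by linarith only [Kn.C1]
  have hk1 : 0 < k₁ := by linarith only [Kn.kk, hkf0]
  -- the multiples of the scale
  have hKq : k₁ * q + C * q + 3 ^ r * Xc * q + kf * q + y₁ * q + lam * q + 3 * q ≤ K' * q := by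
    have h1 := mul_le_mul_of_nonneg_right hK' hq0.le
    linarith only [h1]
  have hkq8 : kf * q + 8 * q ≤ k₁ * q := by
    have h1 := mul_le_mul_of_nonneg_right Kn.kk hq0.le
    linarith only [h1]
  have hCq : q ≤ C * q := by
    have h1 := mul_le_mul_of_nonneg_right Kn.C1 hq0.le
    linarith only [h1]
  have hXq3 : 0 ≤ 3 ^ r * Xc * q := mul_nonneg Kn.X30 hq0.le
  have hkfq : 0 < kf * q := mul_pos hkf0 hq0
  have hsq : q < y₁ * q := by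
    have h1 := mul_lt_mul_of_pos_right hy0 hq0
    linarith only [h1]
  have hs0q : q < s * q := by
    have h1 := mul_lt_mul_of_pos_right hs1 hq0
    linarith only [h1]
  have hlq : 0 < lam * q := mul_pos Kn.l0 hq0
  have ht : 0 < t := by linarith only [ht0, hKq, hkq8, hCq, hXq3, hkfq, hsq, hlq, hq0]
  have ht' : t < 1 := by linarith only [ht1, hKq, hkq8, hCq, hXq3, hkfq, hsq, hlq, hq0]
  have hφq0 : 0 < φ * q := mul_pos Kn.φ0 hq0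
  have hφq : φ * q ≤ q := by
    have h1 := mul_le_mul_of_nonneg_right Kn.φ1 hq0.le
    linarith only [h1]
  have hdq : dt * lam * q ≤ φ * q := mul_le_mul_of_nonneg_right Kn.dtφ hq0.le
  have hdl0 : 0 < dt * lam := mul_pos Kn.dt0 Kn.l0
  have hdl0q : 0 < dt * lam * q := mul_pos hdl0 hq0
  have hhq : 0 < hh * q := mul_pos Kn.h0 hq0
  have hh4q : hh * q ≤ q / 4 := by
    have h1 := mul_le_mul_of_nonneg_right Kn.h4 hq0.le
    linarith only [h1]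
  have hhφq : hh * q ≤ φ * q := mul_le_mul_of_nonneg_right Kn.hφ hq0.le
  have hXq : 0 < X * q := mul_pos Kn.X0 hq0
  have hX2q : X * q ≤ q / 2 := by
    have h1 := mul_le_mul_of_nonneg_right Kn.X2 hq0.le
    linarith only [h1]
  have hhXq : 4 * (hh * q) ≤ X * q := by
    have h1 := mul_le_mul_of_nonneg_right Kn.hX hq0.le
    linarith only [h1]
  have hhCq : 4 * (C * (hh * q)) ≤ X * q := by
    have h1 := mul_le_mul_of_nonneg_right Kn.hC hq0.le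
    linarith only [h1]
  have hεq0 : 0 < ε * q := mul_pos Kn.ε0 hq0
  have hεq : 2 * (ε * q) ≤ φ * q := by
    have h1 := mul_le_mul_of_nonneg_right Kn.εφ hq0.le
    linarith only [h1]
  have hεXq : 4 * (ε * q) ≤ X * q := by
    have h1 := mul_le_mul_of_nonneg_right Kn.εX hq0.le
    linarith only [h1]
  have eW : t + Va j * q = t := by
    rw [hVj]
    ring
  have U : JfU r 0 (-y₁) Xc φ (kf + y₁) kf :=
    { vv0 := by linarith only [hy0]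
      φ0 := Kn.φ0
      XK := by
        have h1 := Kn.sX
        push_cast
        linarith only [h1]
      φX := Kn.φX
      kfX := Kn.kX
      lamk := by linarith only [] }
  -- the windows
  have hE' : ∀ i < r, 0 ≤ E i ∧ L i (t + -y₁ * q) (t + -y₁ * q) + E i + 3 * K' * q ≤ 1 ∧
      0 ≤ rd i ∧ rd i ≤ 1 - 3 * K' * q := fun i hi => by
    obtain ⟨h1, h2, h3, h4⟩ := hE i hi
    exact ⟨h1, h2, h3, by linarith only [h4]⟩
  have hsK : y₁ + 3 ^ r * Xc ≤ K' := by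
    linarith only [hK', hk1, hC0, hkf0, hy0, Kn.l0]
  have hlK : kf + y₁ ≤ K' := by
    linarith only [hK', hk1, hC0, hkf0, hy0, Kn.l0, Kn.X30]
  have HC := R.chj (K := 0) hκ hr (by omega) hCG U hGt hGw (by linarith only [hsK]) hlK Kn.εφ
    (g₁ := φ * q / 4) (by linarith only [hφq0]) (m₁ := 3 * K' * q) (by
      linarith only [hKq, hkq8, hCq, hXq3, hkfq, hsq, hlq, hφq, hq0]) (ρ := 1 - 3 * K' * q)
    (by linarith only [hKq, hkq8, hCq, hXq3, hkfq, hsq, hlq, hφq, hq0]) hE'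
    (qv := lam + dt * lam / 8) (by linarith only [hdl0, Kn.l0]) Kn.lX
  have HC' : ChJ S c 0 r (t + Va i * q) (t + Va j * q) ((kf + y₁) * q) ((lam + dt * lam / 8) * q)
      (φ * q) (φ * q / 4) E (fun i => L i (t + -y₁ * q) (t + -y₁ * q)) (fun i => L i t t)
      (nX r (fun l x => L l x x) (t + -y₁ * q) (Xc * q))
      (fun l => aX r (Xc * q) l - (t - (t + -y₁ * q)) - 2 * (φ * q)) rd := by
    rw [hVi, eW]
    exact HC
  -- the level at the window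
  have hv0 : 0 ≤ t + -y₁ * q := by
    linarith only [ht0, hKq, hkq8, hCq, hXq3, hkfq, hsq, hlq, hq0]
  have hLv : t + -y₁ * q ≤ L (r + 1) (t + -y₁ * q) (t + -y₁ * q) :=
    R.low_at (by omega) hv0 le_rfl (by linarith only [ht', hsq, hq0])
  have hvq : q ≤ t + -y₁ * q := by
    linarith only [ht0, hKq, hkq8, hCq, hXq3, hkfq, hsq, hlq, hq0]
  obtain ⟨P₀, hP₀⟩ : ∃ P₀, P₀ = L (r + 1) (t + -y₁ * q) (t + -y₁ * q) := ⟨_, rfl⟩
  have hδφ : dt * (lam * q) / 4 + δN * lam * q / 8 + (r + 1) * (φ * q) < δN * (lam * q) / 2 := by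
    have h1 := mul_le_mul_of_nonneg_right Kn.dtN hlq.le
    have h2 := mul_le_mul_of_nonneg_right Kn.φN hq0.le
    have h3 : 0 < δN * (lam * q) := mul_pos hδN hlq
    linarith only [h1, h2, h3]
  have NP := nbf_nph R.pos H hμ.le HC' Kl (e := φ * q / 8) (δN := δN) (δ₂ := δN * lam * q / 8)
    (b := t) (by linarith only [hφq0]) (by linarith only [hdq]) le_rfl
    (by linarith only [hφq0]) (by linarith only [Kn.dtN, hδN])
    (by linarith only [hdl0q]) (by positivity) hδφ (by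
      rw [hVi]
      linarith only [hdq, hφq, hLv, hvq, hq0]) (by rw [eW]) ht'.le
  rw [hVi, eW] at NP
  have hpp := NP.pNP
  have hpN0 := NP.pN0
  have hpN1 := H.pN1
  rw [hVi] at hpN1
  rw [← hP₀] at hpp hpN1 hLv
  -- the first jet
  have HX := R.fwx (K := 0) R.tmc hκ (by omega) hCG U hGt hGw (by linarith only [hsK]) hlK Kn.εφ
    (pf := fun l => L l t t - hh * q) (fun l _ => by
      show L l t t - φ * q ≤ L l t t - hh * q
      linarith only [hhφq]) (E := E) (rd := rd) (fun i hi => by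
      obtain ⟨h1, h2, -, -⟩ := hE i hi
      have h3 : 0 ≤ L i (t + -y₁ * q) (t + -y₁ * q) :=
        hv0.trans (R.low_at (by omega) hv0 le_rfl (by linarith only [ht', hsq, hq0]))
      have h4 : 0 < K' * q := by linarith only [hKq, hkq8, hCq, hXq3, hkfq, hsq, hlq, hq0]
      linarith only [h2, h3, h4]) (fun i hi => (hE i hi).2.2.1) (Kc := Kl) (e := φ * q / 8)
    (δ := δN * (lam * q) / 4) (by positivity) (by linarith only [hφq0]) le_rfl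
    (Nf := fun l j => lvN P c (r + 1) (L (r + 1)) l t t + kf * q - (j : ℕ) * t)
    (fun l hl j _ => by rw [← R.lv_at (by omega : r + 1 < r + 2) (by omega)])
  have HF := Hfw R.tmc NP (f := fun J F => ptr F J) (y := fun _ F => F.T)
    (fun J F => ⟨id, fun ω => rfl⟩) (fun J F => by
      refine ⟨fun t => (t, fun _ => 0), fun ω => ?_⟩
      simp only [Finset.range_zero, Finset.image_empty, Finset.notMem_empty, if_false]) HX
    (Th := ThB (NbF Ψ c r (c (r + 1)) Db w (t + -y₁ * q) p₁ p₂ eN uN pN t pa₁ pa₂ ea ua pa Kl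
      (φ * q / 8) E rd (fun i => L i (t + -y₁ * q) (t + -y₁ * q))))
    (fun J F A V C z z' G₁ G₂ cc h => h) 1 (e' := P₀ - pN) (by rw [hP₀])
  rw [← hP₀] at HF
  obtain ⟨Θ, hΘ⟩ : ∃ Θ : Fm2 (r + 2), Θ = ThB (NbF Ψ c r (c (r + 1)) Db w (t + -y₁ * q) p₁ p₂ eN uN
    pN t pa₁ pa₂ ea ua pa Kl (φ * q / 8) E rd (fun i => L i (t + -y₁ * q) (t + -y₁ * q))) := ⟨_, rfl⟩
  have hΘs : ∀ (J : ℕ) (F : Fam (r + 2) J) (A B : F.Ω → Prop) (V C : Type) (z : PtT F → V)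
      (z' : LnT F → V) (G₁ G₂ : V → MvPolynomial (Option (Fin (r + 2))) ℝ) (cc : LnT F → C),
      Sub B A → Θ J F A V C z z' G₁ G₂ cc → Θ J F B V C z z' G₁ G₂ cc := by
    intro J F A B V C z z' G₁ G₂ cc hB h
    rw [hΘ] at h ⊢
    obtain ⟨g, hg⟩ := h
    exact ⟨g, NP.hs J F A B V z z' G₂ g hB hg⟩
  rw [← hΘ] at HF
  refine ⟨Θ, hΘs, fun J F A V C z z' G₁ G₂ cc h => ?_, ?_, ?_⟩
  · rw [hΘ] at h
    obtain ⟨g, hg⟩ := h
    exact nbf_nzf hg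
  · have h1 := H.nzq
    rw [hVi, eW] at h1
    refine Bas.mono 0 (nbf_ex' hr h1 (hlb (φ * q / 8) (by linarith only [hφq0]))) ?_
    rintro J - F A ⟨V, z, z', G₂, g, hg⟩
    rw [hΘ]
    exact ⟨V, Unit, z, z', G₂, G₂, fun _ => (), g, hg⟩
  intro y vw N₁ N₂ Rg be E₁ ε₁ a₁ κ' qf Pq hκ' hκ1 hPq hqf
  have hlv : ∀ l ≤ r + 1, ∀ x : ℝ, lvN P c (r + 1) (L (r + 1)) l x x = L l x x :=
    fun l hl x => by rw [← R.lv_at (by omega : r + 1 < r + 2) hl]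
  have v0 : vG y k₁ vw 0 = 0 := by norm_num [vG]
  have v2 : vG y k₁ vw 2 = -k₁ := by norm_num [vG]
  have v3 : vG y k₁ vw 3 = 1 := by norm_num [vG]
  have hLt : ∀ l ≤ r + 1, 0 ≤ L l t t := fun l hl =>
    ht.le.trans (R.low_at (by omega) ht.le le_rfl ht'.le)
  have hKx : |t + -y₁ * q - t| ≤ K' * q := by
    rw [add_sub_cancel_left, abs_mul, abs_neg, abs_of_pos hq0, abs_of_pos (by linarith only [hy0])]
    linarith only [hKq, hkq8, hCq, hXq3, hkfq, hsq, hlq, hq0]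
  have hdN := abs_le.1 (R.dL (r + 1) (by omega) _ hKx)
  rw [hs, ← hP₀] at hdN
  have e1 : s * (t + -y₁ * q - t) = -(s * y₁ * q) := by ring
  rw [e1] at hdN
  obtain ⟨hdN1, hdN2⟩ := hdN
  have hs2q : q < s * y₁ * q := by
    have h1 : (1 : ℝ) < s * y₁ := by nlinarith only [hs1, hy0]
    have h2 := mul_lt_mul_of_pos_right h1 hq0
    linarith only [h2]
  have hy1q : s * q ≤ y₁ * q := mul_le_mul_of_nonneg_right hy1 hq0.le
  have hksq : s * y₁ * q + s * q + q ≤ kf * q := by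
    have h1 := mul_le_mul_of_nonneg_right Kn.ks hq0.le
    linarith only [h1]
  have hΘx : ∀ (J : ℕ) (F : Fam (r + 2) J) (B : F.Ω → Prop)
      (Cp : PtT F → MvPolynomial (Option (Fin (r + 2))) ℝ),
      (∃ (V C : Type) (z : PtT F → V) (z' : LnT F → V)
        (G₁ G₂ : V → MvPolynomial (Option (Fin (r + 2))) ℝ) (cc : LnT F → C),
        Θ J F B V C z z' G₁ G₂ cc ∧
        ∀ ω, B ω → Cp (ptr F J ω) = G₂ (z' (slam F ⌊(t + -y₁ * q) * J⌋₊ ω))) →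
      ∃ (V : Type) (z : PtT F → V) (z' : LnT F → V)
        (Gp : V → MvPolynomial (Option (Fin (r + 2))) ℝ),
        (∀ y, (Gp y).totalDegree ≤ Db * max 1 Db) ∧
        (∀ y, DpI ((range (r + 1)).image c) (Gp y)) ∧
        (∀ ω, B ω → z (ptr F J ω) = z' (slam F ⌊(t + -y₁ * q) * J⌋₊ ω)) ∧
        (∀ ω, B ω → |ojet F (c (r + 1)) 0 (Gp (z' (slam F ⌊(t + -y₁ * q) * J⌋₊ ω))) ω| ≤
          1 / 2 ^ ⌊pN * J⌋₊) ∧
        ∀ ω, B ω → Cp (ptr F J ω) = Gp (z' (slam F ⌊(t + -y₁ * q) * J⌋₊ ω)) := by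
    rintro J F B Cp ⟨V, C, z, z', G₁, G₂, cc, h, hCp⟩
    rw [hΘ] at h
    obtain ⟨g, hg⟩ := h
    have h1 := nbf_lb hg
    obtain ⟨-, h2, -, -⟩ := NP.npc J F B V z z' G₂ g hg
    exact ⟨V, z, z', G₂, h1.deg, h1.dep, h1.cls, h2, hCp⟩
  obtain ⟨m₁, hm₁⟩ : ∃ m₁, m₁ = pN - 2 * (hh * q) := ⟨_, rfl⟩
  have hm0 : 0 ≤ m₁ := by
    rw [hm₁]
    linarith only [hpN1, hdq, hφq, hLv, hvq, hh4q, hq0]
  have hbx := bxU_part (S := S) (c := c) (r := r) (D := D) (Dw := Dw) (Dr := Dr) (N := N₁)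
    (N₂ := N₂) (R := Rg) (C := C) (a := a₁) (Eb := E₁) (ε₀ := ε₁) (η₀ := hh * q) (χ := X * q)
    (mb := s * q) (Pt := L (r + 1)) (o := fun k => t + vG y k₁ vw k * q)
    (lv := fun k l => lvN P c (r + 1) (L (r + 1)) l (t + vG y k₁ vw k * q)
      (t + vG y k₁ vw k * q)) (be := be) (qf := qf) R.pos hκ1 (Kd := Db * max 1 Db)
    (w := t + -y₁ * q) (pN := pN) (m₁ := m₁) (by
      simp only [v0]
      linarith only [hsq, hq0]) (by
      simp only [v0]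
      linarith only [ht']) hhq.le hXq.le hDr hpN0.le (by
      rw [hm₁]
      linarith only [hhq]) (by
      simp only [v0, zero_mul, add_zero, hlv _ le_rfl]
      rw [hm₁]
      linarith only [hpp, hdN2, hs2q, hX2q, hεXq, hXq, hq0, hhq]) (by
      simp only [v0, zero_mul, add_zero]
      rw [hlv r (by omega)]
      exact hLt r (by omega)) (Ξ := XiF Θ (t + -y₁ * q))
    (fun J F B g₀ G H Ht CL Cp h => hΘx J F B Cp h)
  refine VfNU.of_xi (Ξ' := fun J F B g₀ G H Ht CL Cp => XiF Θ (t + -y₁ * q) J F B g₀ G H Ht CL Cp ∧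
    ∀ ω, B ω → ∀ b', NBx c (G 0 (ptr F J ω)) (g₀ 0) ⌊(t + vG y k₁ vw 0 * q) * J⌋₊ (F.t ω) r b' →
      |eval b' (nW c r (G 0 (ptr F J ω)) (Cp (ptr F J ω)))| ≤ (2 : ℝ) ^ (-(m₁ * J))) two_pos hκ'.le
    ?_ (hvf (w := t + -y₁ * q) (m₁ := m₁) (ζ := ε * q) (kf := kf * q) (pf := fun l => L l t t - hh * q)
      (N₁ := P₀ + lam * q - (1 : ℕ) * (t + -y₁ * q)) (e := P₀ - pN)
      (d := δ / (4 * lam) * (lam * q)) (Pq := Pq) (Ψ := Θ) R.pos ?_ ?_ ?_ ?_)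
  · refine Bas.mono 0 hbx ?_
    rintro J - F B hB b z gc gT g₀ G H T TH Gt Ht CL Cp W hX
    obtain ⟨B₂, d1, d2, d3⟩ := hB b z gc gT g₀ G H T TH Gt Ht CL Cp W hX
    refine ⟨B₂, d1, d2, ?_, d3⟩
    obtain ⟨V, C, z, z', G₁, G₂, cc, h1, h2⟩ := hX
    exact ⟨V, C, z, z', G₁, G₂, cc, hΘs J F B B₂ V C z z' G₁ G₂ cc d1 h1, fun ω hω => h2 ω (d1 ω hω)⟩
  · rintro J F B g₀ G H Ht CL Cp ⟨⟨V, C, z, z', G₁, G₂, cc, h1, h2⟩, -⟩
    exact ⟨V, C, z, z', G₁, G₂, cc, h1, h2⟩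
  · refine Bas.mono 0 (pos_bas R.pos) ?_
    rintro J - F B - b z gc gT g₀ G H T TH Gt Ht CL Cp W hX ω hω
    refine ⟨0, fun b' hb' => ?_⟩
    rw [add_zero]
    exact hX.2 ω hω b' hb'
  · simp only [v0, zero_mul, add_zero]
    exact HF
  · exact
      { η0 := hhq
        χ1 := by linarith only [hεXq, hhXq, hXq]
        χ2 := by linarith only [hhCq, hXq]
        ζ1 := fun l hl => by
          simp only [v0, v2, zero_mul, add_zero]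
          rw [hlv l (by omega), hlv l (by omega)]
          have h1 := (abs_le.1 (R.dOne (by omega) (hκ l hl) (t + -k₁ * q) (by
            rw [add_sub_cancel_left, abs_mul, abs_neg, abs_of_pos hq0, abs_of_pos hk1]
            linarith only [hKq, hkq8, hCq, hXq3, hkfq, hsq, hlq, hq0]))).1
          linarith only [h1]
        mb0 := by linarith only [hs0q, hq0]
        kk0 := hkfq.le
        kf0 := hkfq.le
        o01 := by
          simp only [v0, v2]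
          linarith only [hkq8, hkfq, hh4q, hq0]
        o12 := by
          simp only [v0, v3]
          linarith only [hq0]
        l0 := fun l hl => by
          simp only [v0, zero_mul, add_zero]
          rw [hlv l hl]
          exact hLt l hl
        pf0 := fun l hl => by
          simp only [v0, zero_mul, add_zero]
          rw [hlv l (by omega)]
          linarith only [hpp]
        kq := by
          simp only [v0, v3]
          linarith only [hh4q, hq0]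
        kf1 := by
          simp only [v0, v2]
          linarith only [hkq8, hh4q, hq0]
        kf2 := fun i => by
          have := hPq i
          linarith only [this, hh4q, hq0]
        qf1 := hqf
        N1 := by
          simp only [v0, v3, zero_mul, add_zero]
          rw [hlv _ le_rfl, Kn.ls]
          push_cast
          linarith only [hdN1, hεXq, hX2q, hq0, hy1q]
        m1 := by
          simp only [v0, v3, zero_mul, add_zero]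
          rw [hlv _ le_rfl, hm₁]
          linarith only [hdN1, hpN1, hksq, hdq, hφq, hh4q, hεXq, hX2q, hq0]
        m10 := hm0
        oJ := by
          simp only [v0, zero_mul, add_zero]
          linarith only [hhCq, hX2q, ht1, hKq, hkq8, hCq, hXq3, hkfq, hsq, hlq, hq0]
        δ0 := Kn.δ0
        sm := by
          simp only [v0, v3]
          have h1 := mul_le_mul_of_nonneg_right Kn.Xδ hq0.le
          have h2 : δ / (4 * lam) * (lam * q) = δ / 4 * q := by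
            field_simp
          have h3 : 0 < δ * q := mul_pos hδ hq0
          rw [h2]
          linarith only [h1, h3] }

/-- **The velocity over the natural labels of a family of small rate**, as `VbY`, the window
`t - y₁ q` of the natural labels given, `y₁` any number from the slope of the target on. -/
def VbYb (r : ℕ) (y a h hb : ℝ) (Sl : ℕ → ℝ) (κ : ℕ → Kg) {ι : Type} (Q : PropG (r + 2) ι) : Prop :=
  ∀ al : ℝ, 0 < al → ∀ K₀ : ℝ, 0 < K₀ → ∀ S₀ : ℕ, 1 ≤ S₀ →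
  ∃ (Kr : ℝ) (Nr : ℕ) (Ar Vr : ℕ → ℝ), 1 ≤ Kr ∧ (∀ k < Nr, -Kr ≤ Vr k ∧ Vr k ≤ Ar k ∧ Ar k ≤ Kr) ∧
  ∀ S₂ : ℕ, S₀ ≤ S₂ → ∀ D : ℕ, 1 ≤ D → ∃ D₁ : ℕ, ∀ Db : ℕ, D ≤ Db → D₁ ≤ Db → ∃ Dr₀ : ℕ,
  ∀ Dr : ℕ, Dr₀ ≤ Dr → ∀ C : ℝ, 1 ≤ C → ∃ Dw₀ : ℕ, ∀ Dw : ℕ, Dw₀ ≤ Dw →
  ∀ δ X₀ : ℝ, 0 < δ → δ ≤ 1 → 0 < X₀ → ∀ y₁ : ℝ, Sl (r + 1) ≤ y₁ →
  ∃ lam rr gg dt ℓ₀ kf₀ X₁ : ℝ, 0 < lam ∧ lam ≤ rr ∧ 0 < gg ∧ 0 < dt ∧ 0 < ℓ₀ ∧
  0 < X₁ ∧ lam + gg ≤ Sl (r + 1) * y₁ ∧ ∀ ℓ X kf : ℝ, 0 < ℓ → ℓ ≤ ℓ₀ → 0 < X → X ≤ X₁ → kf₀ ≤ kf →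
  ∃ h₁ : ℝ, 0 < h₁ ∧ ∀ hh k₁ : ℝ, 0 < hh → hh ≤ h₁ → kf + 8 ≤ k₁ → a + 1 ≤ k₁ →
  ∃ (K₁ : ℝ) (Nv : ℕ) (Vv : ℕ → ℝ) (ns : ℕ) (vs : ℕ → ℝ), (∀ j < Nv, -K₁ ≤ Vv j ∧ Vv j ≤ K₁) ∧
  (∀ j < ns, -K₁ ≤ vs j ∧ vs j ≤ a - 1 / 2) ∧ ∀ K' : ℝ, K₁ ≤ K' →
  ∃ ε₀ : ℝ, 0 < ε₀ ∧ ∀ ε : ℝ, 0 < ε → ε ≤ ε₀ →
  ∀ (S : PCl (r + 2)) (g₀ : ℝ → ℝ) (P : List (Fin (r + 2)) × Fin (r + 2) → ℝ → ℝ → ℝ)
    (θ : ℝ) (P₂ : ℕ → List (Fin (r + 2)) × Fin (r + 2) → ℝ → ℝ → ℝ) (θ₂ Eb e₂ : ℕ → ℝ)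
    (c : ℕ → Fin (r + 2)) (Pt : ℝ → ℝ → ℝ) (rt : ℝ → ℝ) (L T : ℕ → ℝ → ℝ → ℝ) (G : Set ℝ)
    (g : ℝ), IsClosed G → g ∈ G → (∀ l < r + 2, HasDerivAt (fun x => L l x x) (Sl l) g) →
    ∃ (p : ℕ → ι) (M : ℕ) (B₀ B₁ : ℕ → ℝ),
    (∀ j < M, B₀ j < B₁ j) ∧ ∀ k₀ : ℕ → ℕ, (∀ j < M, Q (p j) (k₀ j) S P θ c Pt rt L T κ G g) →
    ∀ μ : ℝ, 0 < μ → ∃ q₁ : ℝ, 0 < q₁ ∧ ∀ (q t : ℝ) (x : ℕ → ℝ),
      q < q₁ → (∀ j < M, x j ∈ G ∧ t + B₀ j * q ≤ x j ∧ x j ≤ t + B₁ j * q ∧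
        Q (p j) (k₀ j) S P θ c Pt rt L T κ G (x j)) →
      ∀ (N : ℕ) (A V : ℕ → ℝ) (Na : ℕ) (Va : ℕ → ℝ) (S₁ : PCl (r + 2)), SubC S₁ S →
      RecG S₁ al g₀ P θ P₂ θ₂ Eb e₂ c Pt rt h K₀ g L T Sl κ G S₀ N A V S₂ Na Va K' ε q t →
      (∀ k < Na, |Va k| ≤ K') →
      (∀ k < Nr, ∃ j < N, A j = Ar k ∧ V j = Vr k) → (∀ k < Nv, ∃ j < Na, Va j = Vv k) →
      ∀ (N₁ N₂ : ℕ) (vw : ℕ → ℝ), 1 ≤ N₁ → N₁ ≤ N₂ → 3 ≤ N₂ →
      (∀ k < ns, ∃ j, N₁ < j ∧ 4 ≤ j ∧ j ≤ N₂ ∧ vw j = vs k) →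
      ∀ (i j : ℕ) (R g₂ Xa e₀ π₀ : ℝ) (Ψ : Fml (r + 2)) (w p₁ p₂ eN uN pN pa₁ pa₂ ea ua pa : ℝ),
      i < Na → j < Na → Va i = -y₁ → Va j = 0 → y₁ ≤ R →
      AlO S₁ c L Db Na Va i j R hb dt lam rr ℓ g₂ Xa hh μ e₀ π₀ q t Ψ w p₁ p₂ eN uN pN pa₁ pa₂ ea
        ua pa →
      ∃ (S' : PCl (r + 2)) (Θ : Fm2 (r + 2)), S'.Ne ∧ SubC S' S₁ ∧
      (∀ (J : ℕ) (F : Fam (r + 2) J) (A B : F.Ω → Prop) (V C : Type) (z : PtT F → V)
        (z' : LnT F → V) (G₁ G₂ : V → MvPolynomial (Option (Fin (r + 2))) ℝ) (cc : LnT F → C),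
        Sub B A → Θ J F A V C z z' G₁ G₂ cc → Θ J F B V C z z' G₁ G₂ cc) ∧
      (∀ (J : ℕ) (F : Fam (r + 2) J) (A : F.Ω → Prop) (V C : Type) (z : PtT F → V)
        (z' : LnT F → V) (G₁ G₂ : V → MvPolynomial (Option (Fin (r + 2))) ℝ) (cc : LnT F → C),
        Θ J F A V C z z' G₁ G₂ cc →
        NzF Ψ c r (c (r + 1)) Db Db Db w (t + Va i * q) p₁ p₂ eN uN pN J F A V z z' G₂) ∧
      Bas S' (fun J F A => ∃ (V C : Type) (z : PtT F → V) (z' : LnT F → V)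
        (G₁ G₂ : V → MvPolynomial (Option (Fin (r + 2))) ℝ) (cc : LnT F → C),
        Θ J F A V C z z' G₁ G₂ cc) ∧
      ∀ (κ' : ℝ) (qf : ℕ → Fin r → ℕ) (Pq : Fin r → ℝ), 0 < κ' → κ' ≤ 1 →
        (∀ i, (kf + 1) * q ≤ Pq i) → (∀ (J : ℕ) (i : Fin r), Pq i * J - 2 ≤ qf J i) →
        ∃ K₂ : ℝ, 0 < K₂ ∧
        VfNU S' c r D Dw Dr N₁ N₂ (fun l => κ l = .one ∨ κ l = .thin) C (t + a * q)
          (Eb (r + 1)) (3 * ε * q) (hh * q) (X * q) (Sl (r + 1) * q) (kf * q) (L (r + 1))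
          (fun k => t + vG y k₁ vw k * q)
          (fun k l => lvN P c (r + 1) (L (r + 1)) l (t + vG y k₁ vw k * q) (t + vG y k₁ vw k * q))
          (fun k l => bet P c l (t + a * q) (t + vG y k₁ vw k * q)) κ' qf δ K₂
          (XiF Θ (t + Va i * q))

/-- **The velocity over the natural labels of a family of small rate**, at any earlier window. -/
theorem vbYb_of {r : ℕ} (hr : 1 ≤ r) {y a h hb : ℝ} {Sl : ℕ → ℝ} {κ : ℕ → Kg}
    (hκ : ∀ l < r, κ l = .one) (hs1 : 1 < Sl (r + 1)) (hb0 : 0 < hb) (hb1 : hb ≤ 1) :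
    VbYb r y a h hb Sl κ (sumQ (ChUQ : PropG (r + 2) Unit) (AttUQ : PropG (r + 2) Unit)) := by
  intro al hal K₀ hK₀ S₀ hS₀
  obtain ⟨Kl, hKl, hlbf⟩ := recG_lbf (r + 2) S₀ (by omega) hS₀
  refine ⟨1, 0, fun _ => 0, fun _ => 0, le_rfl, fun k hk => absurd hk (Nat.not_lt_zero k), ?_⟩
  intro S₂ hS₂ D hD
  refine ⟨0, fun Db hDb _ => ⟨(max D (Db * max 1 Db) + 1) * (max D (Db * max 1 Db) + 1),
    fun Dr hDr C hC => ⟨0, fun Dw _ δ X₀ hδ hδ1 hX₀ y₁ hy₁ => ?_⟩⟩⟩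
  obtain ⟨s, hs⟩ : ∃ s, Sl (r + 1) = s := ⟨_, rfl⟩
  rw [hs] at hs1 hy₁
  have hy0 : 1 < y₁ := by linarith only [hs1, hy₁]
  have hC0 : 0 < C := by linarith only [hC]
  have hr0 : (0 : ℝ) ≤ r := Nat.cast_nonneg r
  -- the constants
  obtain ⟨gg, hgg⟩ : ∃ gg : ℝ, gg = (y₁ - s + 1) / 2 := ⟨_, rfl⟩
  have hgg0 : 0 < gg := by
    rw [hgg]
    linarith only [hy₁]
  have hsy : y₁ < s * y₁ := by nlinarith only [hs1, hy0]
  obtain ⟨lam, hlam⟩ : ∃ lam : ℝ, lam = s * y₁ - (y₁ - s + 1) / 2 := ⟨_, rfl⟩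
  have hlam0 : 1 / 2 < lam := by
    rw [hlam]
    linarith only [hs1, hy0, hsy]
  have hlp : 0 < lam := by linarith only [hlam0]
  obtain ⟨δN, C', hδN, hC', Hv⟩ := vfN_B Db Dw r hr hb0 hb1 hδ hlp
  obtain ⟨φ, hφ⟩ : ∃ φ : ℝ, φ = min 1 (δN * lam / (8 * (r + 1))) := ⟨_, rfl⟩
  have hφ0 : 0 < φ := by
    rw [hφ]
    positivity
  have hφ1 : φ ≤ 1 := by
    rw [hφ]
    exact min_le_left _ _
  have hφN : (r + 1) * φ ≤ δN * lam / 8 := by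
    have h1 : φ ≤ δN * lam / (8 * (r + 1)) := by
      rw [hφ]
      exact min_le_right _ _
    rw [le_div_iff₀ (by positivity)] at h1
    linarith only [h1]
  have hrφ : 0 ≤ (r : ℝ) * φ := mul_nonneg hr0 hφ0.le
  obtain ⟨Xc, hXc⟩ : ∃ Xc : ℝ, Xc = 12 * y₁ + 32 * (r + 1) * φ + lam := ⟨_, rfl⟩
  have hXc0 : 0 < Xc := by
    rw [hXc]
    linarith only [hy0, hrφ, hφ0, hlp]
  have h3X : 0 ≤ 3 ^ r * Xc := by positivity
  obtain ⟨dt, hdt⟩ : ∃ dt : ℝ, dt = min (δN / 2) (φ / lam) := ⟨_, rfl⟩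
  have hdt0 : 0 < dt := by
    rw [hdt]
    exact lt_min (by linarith only [hδN]) (by positivity)
  have hdtN : dt ≤ δN / 2 := by
    rw [hdt]
    exact min_le_left _ _
  have hdtφ : dt * lam ≤ φ := by
    have h1 : dt ≤ φ / lam := by
      rw [hdt]
      exact min_le_right _ _
    rwa [le_div_iff₀ hlp] at h1
  have hC'0 : 0 < C' := by linarith only [hC']
  refine ⟨lam, lam, gg, dt, 1, max (3 ^ r * Xc) (s * y₁ + s + 1), min (1 / 2) (δ / (4 * C')),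
    hlp, le_rfl, hgg0, hdt0, one_pos, by positivity, ?_, ?_⟩
  · rw [hs, hlam, hgg]
    linarith only []
  intro ℓ X kf hℓ hℓ1 hX hX1 hkf
  have hX2 : X ≤ 1 / 2 := hX1.trans (min_le_left _ _)
  have hXδ : C' * X ≤ δ / 4 := by
    have h1 : X ≤ δ / (4 * C') := hX1.trans (min_le_right _ _)
    rw [le_div_iff₀ (by positivity)] at h1
    linarith only [h1]
  refine ⟨min φ (min (1 / 4) (X / (4 * C))), by positivity, fun hh k₁ hh0 hh1 hk₁ hak₁ => ?_⟩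
  have hhC : 4 * (C * hh) ≤ X := by
    have h1 : hh ≤ X / (4 * C) := hh1.trans ((min_le_right _ _).trans (min_le_right _ _))
    rw [le_div_iff₀ (by positivity)] at h1
    linarith only [h1]
  have hhX : 4 * hh ≤ X := by
    have h1 : hh ≤ C * hh := le_mul_of_one_le_left hh0.le hC
    linarith only [h1, hhC]
  have hkf0 : 0 < kf := by
    have h1 := (le_max_right _ _).trans hkf
    linarith only [h1, hs1, hy0, hsy]
  have hK0 : 0 ≤ k₁ + C + kf + lam + 3 := by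
    linarith only [hk₁, hkf0, hC0, hlp]
  refine ⟨k₁ + C + 3 ^ r * Xc + kf + y₁ + lam + 3, r + 1, jfV r (-y₁) Xc, 0, fun _ => 0,
    fun j hj => ?_, fun j hj => absurd hj (Nat.not_lt_zero j), fun K' hK' => ?_⟩
  · obtain ⟨h1, h2⟩ := jfV_mem (r := r) (vv := -y₁) (X := Xc) (by linarith only [hy0]) hXc0.le
      (show j ≤ r by omega)
    constructor <;> linarith only [h1, h2, hK0, h3X, hy0]
  have hK'0 : 0 < K' := by linarith only [hK', hK0, h3X, hy0]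
  refine ⟨min (φ / 2) (X / 4), by positivity, fun ε hε hεε S g₀ P θ P₂ θ₂ Eb e₂ c Pt rt L T G g hG
    hg hder => ?_⟩
  have Kn : VbK r s y₁ δN C C' δ lam φ Xc dt X kf hh k₁ a ε :=
    { s1 := hs1
      y1 := hy₁
      l0 := hlp
      ls := hlam
      φ0 := hφ0
      φ1 := hφ1
      φN := hφN
      φX := by
        rw [hXc]
        linarith only [hy0, hlp]
      sX := by
        rw [hXc]
        linarith only [hrφ, hφ0, hlp]
      lX := by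
        rw [hXc]
        linarith only [hrφ, hφ0, hlp, hy0, hdtφ]
      X30 := h3X
      kX := (le_max_left _ _).trans hkf
      ks := (le_max_right _ _).trans hkf
      dt0 := hdt0
      dtN := hdtN
      dtφ := hdtφ
      C1 := hC
      C'1 := hC'
      δ0 := hδ
      X0 := hX
      X2 := hX2
      Xδ := hXδ
      h0 := hh0
      hφ := hh1.trans (min_le_left _ _)
      h4 := hh1.trans ((min_le_right _ _).trans (min_le_left _ _))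
      hC := hhC
      hX := hhX
      kk := hk₁
      ka := hak₁
      ε0 := hε
      εφ := by
        have h1 := hεε.trans (min_le_left _ _)
        linarith only [h1]
      εX := by
        have h1 := hεε.trans (min_le_right _ _)
        linarith only [h1] }
  refine ⟨fun j => if j = 0 then Sum.inl () else Sum.inr (), 2, fun _ => 0, fun _ => 1,
    fun j _ => one_pos, fun k₀ hQ μ hμ => ?_⟩
  have hQ0 : ChUQ () (k₀ 0) S P θ c Pt rt L T κ G g := by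
    have h1 := hQ 0 (by norm_num)
    simp only [if_true] at h1
    exact h1
  have hQ1 : AttUQ () (k₀ 1) S P θ c Pt rt L T κ G g := by
    have h1 := hQ 1 (by norm_num)
    simp only [one_ne_zero, if_false] at h1
    exact h1
  refine ⟨(1 / 2) ^ k₀ 1 / (3 * K' + K₀), by positivity, ?_⟩
  intro q t x hq hx N A V Na Va S₁ hS₁ R hVa hpairs hwin N₁ N₂ vw hN₁ hN₂ hN3 hvs i j Rr g₂ Xa e₀
    π₀ Ψ w p₁ p₂ eN uN pN pa₁ pa₂ ea ua pa hi hj hVi hVj hyR H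
  rw [lt_div_iff₀ (by positivity)] at hq
  have hq0 := R.q0
  have h9 : 0 < K' * q := mul_pos hK'0 hq0
  have h10 : 0 < K₀ * q := mul_pos hK₀ hq0
  -- the labels of the chain
  obtain ⟨S', hsub, R', hlab⟩ := hlbf R hK'0 hVa (le_refl (3 * K' * q)) (fun k hk => by
      obtain ⟨rd, -, h2⟩ := hQ0 _ (R.memG.2 k hk)
      exact ⟨rd, h2.sub hS₁⟩) (fun k hk => by
      obtain ⟨rk, E, h1, h2, h3, h4, h5⟩ := hQ1 _ (R.memG.2 k hk) (by
        have h6 := R.near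
        have h7 : |Va k * q| ≤ K' * q := by
          rw [abs_mul, abs_of_pos hq0]
          exact mul_le_mul_of_nonneg_right (hVa k hk) hq0.le
        have h8 : |t + Va k * q - g| ≤ |Va k * q| + |t - g| := by
          have e1 : t + Va k * q - g = Va k * q + (t - g) := by ring
          rw [e1]
          exact abs_add_le _ _
        linarith only [h6, h7, h8, h9, hq])
      refine ⟨rk, E, h3, ?_, fun e he => ?_⟩
      · show E + L (r + 2 - 1) _ _ + 3 * K' * q ≤ 1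
        linarith only [h4, h10, hq]
      · obtain ⟨K, hK⟩ := h5 e he
        exact ⟨K, hK.sub hS₁⟩)
  obtain ⟨E, rd, hE, hlb⟩ := hlab i hi
  have hSS : ∀ (τ : ℝ) (J : ℕ) (F : Fam (r + 2) J) (A : F.Ω → Prop), S'.St τ J F A →
      S.St τ J F A := fun τ J F A h => hS₁ τ J F A (hsub τ J F A h)
  have hCG : ChG S' c (r + 1) (fun l x => L l x x) G := ⟨fun w hw => by
    obtain ⟨rd, h1, h2⟩ := hQ0 w hw
    exact ⟨_, rd, h1, h2.sub hSS⟩⟩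
  have hGt : t ∈ G := by
    have h1 := R.memG.2 j hj
    rwa [hVj, zero_mul, add_zero] at h1
  have hGw : ∀ k ≤ r, t + jfV r (-y₁) Xc k * q ∈ G := fun k hk => by
    obtain ⟨k', hk', e1⟩ := hwin k (by omega)
    have h1 := R.memG.2 k' hk'
    rwa [e1] at h1
  rw [hVi] at hE hlb ⊢
  obtain ⟨Θ, t1, t2, t3, t4⟩ := Hv R' hκ hs Kn hK' hCG hGt hGw (fun l hl => hE l (by omega))
    (fun e he => by
      refine Bas.mono 0 (hlb e he) ?_
      rintro J - F A ⟨V, z, z', g, hg⟩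
      exact ⟨V, z, z', g, fun l _ hl => hg l (by omega)⟩) hμ hVi hVj (H.sub hsub) hDr
  refine ⟨S', Θ, R'.ne, hsub, t1, t2, t3, fun κ' qf Pq hκ' hκ1 hPq hqf => ⟨2 * 1, by norm_num, ?_⟩⟩
  rw [hs]
  exact t4 κ' qf Pq hκ' hκ1 hPq hqf

/-- **The velocity over the natural labels of a family of small rate.** -/
theorem vbY_of {r : ℕ} (hr : 1 ≤ r) {y a h hb : ℝ} {Sl : ℕ → ℝ} {κ : ℕ → Kg}
    (hκ : ∀ l < r, κ l = .one) (hs1 : 1 < Sl (r + 1)) (hb0 : 0 < hb) (hb1 : hb ≤ 1) :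
    VbY r y a h hb Sl κ (sumQ (ChUQ : PropG (r + 2) Unit) (AttUQ : PropG (r + 2) Unit)) := by
  intro al hal K₀ hK₀ S₀ hS₀
  obtain ⟨Kr, Nr, Ar, Vr, h1, h2, H⟩ := vbYb_of hr hκ hs1 hb0 hb1 (y := y) (a := a) (h := h) al hal
    K₀ hK₀ S₀ hS₀
  refine ⟨Kr, Nr, Ar, Vr, h1, h2, fun S₂ hS₂ D hD => ?_⟩
  obtain ⟨D₁, H⟩ := H S₂ hS₂ D hD
  refine ⟨D₁, fun Db h3 h4 => ?_⟩
  obtain ⟨Dr₀, H⟩ := H Db h3 h4
  refine ⟨Dr₀, fun Dr hDr C hC => ?_⟩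
  obtain ⟨Dw₀, H⟩ := H Dr hDr C hC
  refine ⟨Dw₀, fun Dw hDw δ X₀ hδ hδ1 hX₀ => ?_⟩
  obtain ⟨lam, rr, gg, dt, ℓ₀, kf₀, X₁, a1, a2, a3, a4, a5, a6, a7, H⟩ :=
    H Dw hDw δ X₀ hδ hδ1 hX₀ (Sl (r + 1)) le_rfl
  exact ⟨Sl (r + 1), lam, rr, gg, dt, ℓ₀, kf₀, X₁, by linarith only [hs1], a1, a2, a3, a4, a5, a6,
    a7, H⟩

end Pool.ALT
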