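import Pool.Agent.H42.D2.Jcb

/-!
# The critical slope: the variation of the denominator

`jrel`: the relation at one sample. `jvar_st`, `jvar_ts`: the variation of the closed denominator along
the window of the line. `jcl_st_ev`, `jcl_ts_ev`: the closed gradient of the thin place on an event.
-/

set_option autoImplicit false

namespace Pool.TNW

open Finset Real MvPolynomial
open Pool.Agent.H49.Ent Pool.Agent.H32.Dense Pool.STK Pool.KA Pool.KSAT Pool.K2S Pool.PB Pool.S6C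
open Pool.GEN Pool.CHT Pool.CHX Pool.ISO Pool.D2R Pool.D2Z Pool.D2F Pool.TN
open Pool.FLF (Fam.sub)
open Pool.PB.Trl (rt rt_mem t_rt)

variable {m J : ℕ}

theorem co_co {F : Fam m J} (a b : ℕ) (s : LnT F) : co a (co b s) = co (a + b) s := by
  unfold co
  simp only [Prod.mk.injEq, true_and]
  rw [Nat.div_div_eq_div_mul, ← pow_add, Nat.add_comm]

/-! ### The frame does not enter -/

/-- The last vector of the frame. -/
theorem zp_fr2 {F : Fam m J} {c : ℕ → Fin m} {t : ℕ} (hc : Set.InjOn c (Set.Iio 3))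
    {Q : LnT F → MvPolynomial (Option (Fin m)) ℝ} (hQ : ∀ s, DepC c 3 (Q s))
    {Xc Xc' : LnT F → ℕ → MvPolynomial (Option (Fin m)) ℝ} (hX : ∀ s l, DepC c l (Xc s l))
    (hX' : ∀ s l, DepC c l (Xc' s l)) (s : LnT F) (τ : ℝ) :
    (zp c 3 t Q Xc 2 s).eval τ = (zp c 3 t Q Xc' 2 s).eval τ := by
  rw [zp_ev hc hQ hX, zp_ev hc hQ hX']
  refine hs_agr hc (hQ s) _ _ (ev_none _ _ _ _) (ev_none _ _ _ _) fun i hi => ?_
  by_cases h : i = 2
  · subst h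
    rw [ev_eq hc (fun l => cvc_kx hX s τ l) hi, ev_eq hc (fun l => cvc_kx hX' s τ l) hi]
  · rw [ev_low hc (fun l => cvc_kx hX s τ l) i hi (by omega),
      ev_low hc (fun l => cvc_kx hX' s τ l) i hi (by omega)]

/-- The vector of the place one sees only the chart of the place two. -/
theorem zp_fr1 {F : Fam m J} {c : ℕ → Fin m} {t : ℕ} (hc : Set.InjOn c (Set.Iio 3))
    {Q : LnT F → MvPolynomial (Option (Fin m)) ℝ} (hQ : ∀ s, DepC c 3 (Q s))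
    {Xc Xc' : LnT F → ℕ → MvPolynomial (Option (Fin m)) ℝ} (hX : ∀ s l, DepC c l (Xc s l))
    (hX' : ∀ s l, DepC c l (Xc' s l)) (s : LnT F) (h : Xc s 2 = Xc' s 2) (τ : ℝ) :
    (zp c 3 t Q Xc 1 s).eval τ = (zp c 3 t Q Xc' 1 s).eval τ := by
  rw [zp_ev hc hQ hX, zp_ev hc hQ hX']
  have k1 := fun l => cvc_kx (t := t) hX s τ l
  have k2 := fun l => cvc_kx (t := t) hX' s τ l
  have a0 : ev c 3 (kx t Xc s τ) 1 (some (c 0)) = ev c 3 (kx t Xc' s τ) 1 (some (c 0)) := by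
    rw [ev_low hc k1 0 (by norm_num) (by norm_num), ev_low hc k2 0 (by norm_num) (by norm_num)]
  have a1 : ev c 3 (kx t Xc s τ) 1 (some (c 1)) = ev c 3 (kx t Xc' s τ) 1 (some (c 1)) := by
    rw [ev_eq hc k1 (by norm_num), ev_eq hc k2 (by norm_num)]
  refine hs_agr hc (hQ s) _ _ (ev_none _ _ _ _) (ev_none _ _ _ _) fun i hi => ?_
  have : i = 0 ∨ i = 1 ∨ i = 2 := by omega
  rcases this with h1 | h1 | h1
  · rw [h1]; exact a0
  · rw [h1]; exact a1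
  · rw [h1, ev_rec hc k1 1 (show 2 < 3 by norm_num), ev_rec hc k2 1 (show 2 < 3 by norm_num),
      Finset.sum_range_succ, Finset.sum_range_one, Finset.sum_range_succ, Finset.sum_range_one,
      a0, a1]
    have e1 : kx t Xc s τ 2 = kx t Xc' s τ 2 := by
      unfold kx
      rw [h]
    rw [e1]

/-- A chart over the places zero and one. -/
theorem zp_fr12 {F : Fam m J} {c : ℕ → Fin m} {t : ℕ} (hc : Set.InjOn c (Set.Iio 3))
    {Q : LnT F → MvPolynomial (Option (Fin m)) ℝ} (hQ : ∀ s, DepC c 2 (Q s))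
    {Xc Xc' : LnT F → ℕ → MvPolynomial (Option (Fin m)) ℝ} (hX : ∀ s l, DepC c l (Xc s l))
    (hX' : ∀ s l, DepC c l (Xc' s l)) (s : LnT F) (τ : ℝ) :
    (zp c 3 t Q Xc 1 s).eval τ = (zp c 3 t Q Xc' 1 s).eval τ := by
  rw [zp_ev hc (fun s => (hQ s).mono (by norm_num)) hX,
    zp_ev hc (fun s => (hQ s).mono (by norm_num)) hX',
    hs_cut hc (l := 2) (by norm_num) (fun l => cvc_kx hX s τ l) 1 (hQ s),
    hs_cut hc (l := 2) (by norm_num) (fun l => cvc_kx hX' s τ l) 1 (hQ s)]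
  have hc2 : Set.InjOn c (Set.Iio 2) := hc.mono (Set.Iio_subset_Iio (by norm_num))
  refine hs_agr hc2 (hQ s) _ _ (ev_none _ _ _ _) (ev_none _ _ _ _) fun i hi => ?_
  have : i = 0 ∨ i = 1 := by omega
  rcases this with h1 | h1
  · rw [h1, ev_low hc2 (fun l => cvc_kx hX s τ l) 0 (by norm_num) (by norm_num),
      ev_low hc2 (fun l => cvc_kx hX' s τ l) 0 (by norm_num) (by norm_num)]
  · rw [h1, ev_eq hc2 (fun l => cvc_kx hX s τ l) (by norm_num),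
      ev_eq hc2 (fun l => cvc_kx hX' s τ l) (by norm_num)]

/-- **The relation at one sample**, for every rough place. -/
theorem jrel : ∃ C : ℕ, 1 ≤ C ∧ ∀ {m J : ℕ} {F : Fam m J} {c : ℕ → Fin m}
    {D Dr N M A cl : ℕ} {Sc : ℕ → Prop} {w e h pp : ℕ → ℕ} {z g gc gT g₀ : ℕ → ℕ → ℕ} {κ : ℝ}
    {B : F.Ω → Prop} {G : ℕ → PtT F → ℕ → MvPolynomial (Option (Fin m)) ℝ}
    {H : ℕ → LnT F → ℕ → MvPolynomial (Option (Fin m)) ℝ}
    {T : ℕ → PtT F → ℕ → MvPolynomial (Option (Fin m)) ℝ}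
    {TH : ℕ → LnT F → ℕ → MvPolynomial (Option (Fin m)) ℝ}
    {Gt : ℕ → PtT F → MvPolynomial (Option (Fin m)) ℝ}
    {Ht : ℕ → LnT F → MvPolynomial (Option (Fin m)) ℝ},
    CEv F c 3 D Dr N M A cl Sc w e h pp z g gc gT g₀ κ B G H T TH Gt Ht →
    ∀ {X f dd i i₁ t k P j st x : ℕ}, st < 3 →
    (∀ l < 3, (Sc l ↔ l = st)) → JNum N A cl X f dd w pp gc gT g₀ i i₁ t k P j st →
    ∀ {ω : F.Ω}, B ω → ¬ Sc x →
    |hs (Ht i₁ (slam F (w i₁) ω)) (bt F ω) (bd F ω)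
          (ev c 3 (mx Sc (kT w TH ω i) (gG G ω k)) x) -
        cv (gG G ω k 3 - grd (Ht i₁ (slam F (w i₁) ω)) (bt F ω))
          (ev c 3 (mx Sc (kT w TH ω i) (gG G ω k)) st) *
        hs (TH i (slam F (w i) ω) st) (bt F ω) (bd F ω)
          (ev c 3 (mx Sc (kT w TH ω i) (gG G ω k)) x)| ≤
      2 ^ (C * (cl + X + 1)) * (2 ^ (w k + g₀ k x) / 2 ^ g₀ k 3) := by
  obtain ⟨C₁, hC₁, hex⟩ := CEv.ex 3
  refine ⟨C₁ + 2, by omega, ?_⟩
  intro m J F c D Dr N M A cl Sc w e h pp z g gc gT g₀ κ B G H T TH Gt Ht E X f dd i i₁ t k P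
    j st x hst3 hSc n ω hω hx
  have hi := n.iN
  have hi1 := n.i1N
  have hk := n.kN
  have hE0 := hex E (i₀ := i) (i₁ := i₁) (k := k) (P := P) (X := X) hi hi1 hk (n.it.trans n.tk)
    (n.i1t.trans n.tk) (fun l hl _ => ⟨(n.cT l hl).1, (n.cT l hl).2.2.1, (n.cT l hl).2.2.2⟩)
    (fun l hl hs => by
      rw [(hSc l hl).1 hs]
      exact ⟨n.m1, n.lb⟩) n.P1 n.P2 ω hω x hx
  have hsum : ∀ (δ b : ℕ → ℝ), ∑ s ∈ range 3, wt Sc δ s * b s = δ st * b st := by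
    intro δ b
    rw [Finset.sum_eq_single st]
    · rw [wt_pos ((hSc st hst3).2 rfl)]
    · intro x hx hxs
      rw [Finset.mem_range] at hx
      rw [wt_neg (fun h => hxs ((hSc x hx).1 h)), zero_mul]
    · intro hx
      exact absurd (Finset.mem_range.2 hst3) hx
  rw [hsum (fun s => cv (gG G ω k 3 - grd (Ht i₁ (slam F (w i₁) ω)) (bt F ω))
    (ev c 3 (mx Sc (kT w TH ω i) (gG G ω k)) s)) (fun s => hs (TH i (slam F (w i) ω) s) (bt F ω)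
    (bd F ω) (ev c 3 (mx Sc (kT w TH ω i) (gG G ω k)) x))] at hE0
  refine hE0.trans ?_
  have g0 : (2 : ℝ) ^ A / 2 ^ P ≤ 2 ^ X * (2 ^ w k / 2 ^ g₀ k 3) := by
    rw [← mul_div_assoc, div_le_div_iff₀ (by positivity) (by positivity), ← pow_add,
      ← pow_add, ← pow_add]
    have a1 := n.vp
    have a2 := E.radA hk
    exact p2 (by omega)
  have g1 : (2 : ℝ) ^ A / 2 ^ P + 2 ^ w k / 2 ^ g₀ k 3 ≤
      2 ^ (X + 1) * (2 ^ w k / 2 ^ g₀ k 3) := by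
    have g2 : (1 : ℝ) ≤ 2 ^ X := one_le_pow₀ (by norm_num)
    have g3 := mul_le_mul_of_nonneg_right g2 (show (0 : ℝ) ≤ 2 ^ w k / 2 ^ g₀ k 3 by
      positivity)
    rw [pow_succ 2 X]
    linarith
  calc 2 ^ (C₁ * (cl + X + 1)) * (2 ^ A / 2 ^ P + 2 ^ w k / 2 ^ g₀ k 3) * 2 ^ g₀ k x ≤
        2 ^ (C₁ * (cl + X + 1)) * (2 ^ (X + 1) * (2 ^ w k / 2 ^ g₀ k 3)) * 2 ^ g₀ k x :=
        mul_le_mul_of_nonneg_right (mul_le_mul_of_nonneg_left g1 (by positivity))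
          (by positivity)
    _ = 2 ^ (C₁ * (cl + X + 1) + (X + 1)) * (2 ^ (w k + g₀ k x) / 2 ^ g₀ k 3) := by
        rw [pow_add 2 (C₁ * (cl + X + 1)), pow_add 2 (w k)]
        ring
    _ ≤ _ := by
        refine mul_le_mul_of_nonneg_right (p2 ?_) (by positivity)
        have e1 : (C₁ + 2) * (cl + X + 1) = C₁ * (cl + X + 1) + 2 * (cl + X + 1) := by ring
        omega

/-- **The variation of the denominator**, static place one and thin place two. -/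
theorem jvar_st (m D : ℕ) : ∃ C : ℕ, 1 ≤ C ∧ ∀ {J : ℕ} {F : Fam m J} {c : ℕ → Fin m}
    {Dr N M A cl : ℕ} {Sc : ℕ → Prop} {w e h pp : ℕ → ℕ} {z g gc gT g₀ : ℕ → ℕ → ℕ} {κ θ : ℝ}
    {B : F.Ω → Prop} {G : ℕ → PtT F → ℕ → MvPolynomial (Option (Fin m)) ℝ}
    {H : ℕ → LnT F → ℕ → MvPolynomial (Option (Fin m)) ℝ}
    {T : ℕ → PtT F → ℕ → MvPolynomial (Option (Fin m)) ℝ}
    {TH : ℕ → LnT F → ℕ → MvPolynomial (Option (Fin m)) ℝ}
    {Gt : ℕ → PtT F → MvPolynomial (Option (Fin m)) ℝ}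
    {Ht : ℕ → LnT F → MvPolynomial (Option (Fin m)) ℝ},
    CEv F c 3 D Dr N M A cl Sc w e h pp z g gc gT g₀ κ B G H T TH Gt Ht →
    ∀ {X f dd i i₁ t k P n : ℕ}, ¬ Sc 0 → Sc 1 → ¬ Sc 2 →
    JNum N A cl X f dd w pp gc gT g₀ i i₁ t k P 2 1 → 0 < Pe F.p B → 0 ≤ θ →
    (∀ (B' : F.Ω → Prop) (hB' : 0 < Pe F.p B'), Sub B' B → Pe F.p B ≤ 2 * Pe F.p B' →
      (Fam.sub F B' hB').Tm θ) →
    C * (θ + 1) ≤ ((J : ℝ) - w i₁) * Real.log 2 → Real.exp (C * (θ + 1)) ≤ 2 ^ n →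
    f + dd + C * (cl + X + n + 1) ≤ w t - w i₁ →
    ∃ B' : F.Ω → Prop, Sub B' B ∧ Pe F.p B ≤ 2 * Pe F.p B' ∧
      ∀ (mu : LnT F → Polynomial ℝ) (ω : F.Ω), B' ω →
        |(jL c (w t) 1 2 (fun s => Ht i₁ (co (w t - w i₁) s)) (Xcf w TH Sc i t) mu
            (slam F (w t) ω)).eval (rt F (w t) ω) -
          (jL c (w t) 1 2 (fun s => Ht i₁ (co (w t - w i₁) s)) (Xcf w TH Sc i t) mu
            (slam F (w t) ω)).eval 0| ≤ 2 ^ (w k + g₀ k 2) / 2 ^ (g₀ k 3 + dd + f + 2) := by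
  obtain ⟨C₁, hC₁, hrel⟩ := jrel
  obtain ⟨C₂, hC₂, hrem⟩ := rem_win m (D * (3 + 1)) 1 1
  obtain ⟨C₃, hC₃, hvar⟩ := var_one (D * (3 + 1))
  obtain ⟨a₂, ha₂⟩ := exists_nat_ge C₂
  obtain ⟨a₃, ha₃⟩ := pow_unbounded_of_one_lt C₃ (show (1 : ℝ) < 2 by norm_num)
  obtain ⟨C, hC⟩ : ∃ C, C = C₁ + a₂ + a₃ + 10 := ⟨_, rfl⟩
  refine ⟨C, by omega, ?_⟩
  intro J F c Dr N M A cl Sc w e h pp z g gc gT g₀ κ θ B G H T TH Gt Ht E X f dd i i₁ t k P n
    hs0 hs1 hs2 nn hB hθ hTm hJ hexp hnum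
  have hi := nn.iN
  have hi1 := nn.i1N
  have ht := nn.tN
  have hk := nn.kN
  have hi1J : w i₁ ≤ J := (E.wA i₁ hi1).trans E.AJ
  have htJ : w t ≤ J := (E.wA t ht).trans E.AJ
  have hc : Set.InjOn c (Set.Iio 3) := E.inj.mono (Set.Iio_subset_Iio (by norm_num))
  have hΓ : ∀ ω l, CvC c l (gG G ω k l) := fun ω l => cvc_grd ((E.evs k hk).ball.depG _ l) _
  have hκ : ∀ j ≤ N, ∀ ω l, CvC c l (kT w TH ω j l) := fun j hj ω l =>
    cvc_grd ((E.evs j hj).thin.depH _ l) _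
  have hSc : ∀ l < 3, (Sc l ↔ l = 1) := fun l hl => by
    have : l = 0 ∨ l = 1 ∨ l = 2 := by omega
    rcases this with h | h | h
    · rw [h]; exact ⟨fun h => absurd h hs0, fun h => absurd h (by norm_num)⟩
    · rw [h]; exact ⟨fun _ => rfl, fun _ => hs1⟩
    · rw [h]; exact ⟨fun h => absurd h hs2, fun h => absurd h (by norm_num)⟩
  have hHd : ∀ s, DepC c 3 (Ht i₁ s) := fun s => (E.evs i₁ hi1).pH s
  have hHg : ∀ s, (Ht i₁ s).totalDegree ≤ D := fun s => (E.evs i₁ hi1).dH s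
  have hCC : C₂ * (θ + 1) ≤ C * (θ + 1) := by
    refine mul_le_mul_of_nonneg_right (ha₂.trans ?_) (by linarith)
    have : a₂ ≤ C := by omega
    exact_mod_cast this
  obtain ⟨S, hS⟩ : ∃ S : ℝ, S = 2 ^ (C₁ * (cl + X + 1)) * (2 ^ (w k + g₀ k 2) / 2 ^ g₀ k 3) :=
    ⟨_, rfl⟩
  have hS0 : 0 < S := by rw [hS]; positivity
  obtain ⟨B', k1, k2, k3⟩ := hrem J F B hB (fun _ => w i₁)
    (fun _ _ => zp c 3 (w i₁) (Ht i₁) (TH i₁) 2) (fun _ _ => S) θ (fun _ _ => hi1J)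
    (fun _ _ _ _ s => zp_deg c 3 (w i₁) hHg (fun s l => deg_TH E hi1 s l) 2 s)
    (fun _ _ _ _ => hS0) hθ (fun B' hB' h1 h2 => hTm B' hB' h1 (by rwa [pow_one] at h2))
    (fun _ _ => hCC.trans hJ) (fun ω hω _ _ _ _ => by
      rw [zp_rt hc hi1J hHd (fun s l => dep_TH E hi1 s l)]
      have h1 := hrel E (x := 2) (by norm_num) hSc nn hω hs2
      rw [hs_zero_ev hc (l := 1) (by norm_num) (fun l => mx_cvc (hκ i hi ω) (hΓ ω) l)
        (by norm_num) (dep_TH E hi _ 1), mul_zero, sub_zero, ← hS] at h1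
      have h2 : hs (Ht i₁ (slam F (w i₁) ω)) (bt F ω) (bd F ω)
          (ev c 3 (kc (w i₁) (TH i₁) ω) 2) = hs (Ht i₁ (slam F (w i₁) ω)) (bt F ω) (bd F ω)
          (ev c 3 (mx Sc (kT w TH ω i) (gG G ω k)) 2) := by
        refine hs_agr hc (hHd _) _ _ (ev_none _ _ _ _) (ev_none _ _ _ _) fun j hj => ?_
        have q1 := fun l => cvc_kc (t := w i₁) (fun s l => dep_TH E hi1 s l) ω l
        have q2 : ∀ l, CvC c l (mx Sc (kT w TH ω i) (gG G ω k) l) :=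
          fun l => mx_cvc (hκ i hi ω) (hΓ ω) l
        by_cases h : j = 2
        · subst h
          rw [ev_eq hc q1 hj, ev_eq hc q2 hj]
        · rw [ev_low hc q1 j hj (by omega), ev_low hc q2 j hj (by omega)]
      rw [h2]
      exact h1)
  refine ⟨B', k1, by rwa [pow_one] at k2, fun mu ω hω => ?_⟩
  have hsup := k3 ω hω 0 (by norm_num) 0 (by norm_num)
  have hev : ∀ τ, (jL c (w t) 1 2 (fun s => Ht i₁ (co (w t - w i₁) s)) (Xcf w TH Sc i t) mu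
      (slam F (w t) ω)).eval τ = (zp c 3 (w i₁) (Ht i₁) (TH i₁) 2 (slam F (w i₁) ω)).eval
        (((((slam F (w t) ω).2.2 % 2 ^ (w t - w i₁) : ℕ) : ℝ) + τ) / 2 ^ (w t - w i₁)) := by
    intro τ
    unfold jL
    rw [Polynomial.eval_sub, Polynomial.eval_mul]
    have e1 : (zp c 3 (w t) (fun s => Xcf w TH Sc i t s 1) (Xcf w TH Sc i t) 2
        (slam F (w t) ω)).eval τ = 0 := by
      rw [zp_ev hc (fun s => (dep_Xcf E hi ht s 1).mono (by norm_num))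
        (fun s l => dep_Xcf E hi ht s l)]
      exact hs_zero_ev hc (l := 1) (by norm_num)
        (fun l => cvc_kx (fun s l => dep_Xcf E hi ht s l) _ τ l) (by norm_num)
        (dep_Xcf E hi ht _ 1) _ _
    rw [e1, mul_zero, sub_zero, zp_fr2 hc (fun s => hHd _) (fun s l => dep_Xcf E hi ht s l)
      (Xc' := fun s => TH i₁ (co (w t - w i₁) s)) (fun s l => dep_TH E hi1 _ l),
      zp_co hc nn.i1t hHd (fun s l => dep_TH E hi1 s l), co_slam F nn.i1t htJ]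
  rw [hev, hev]
  obtain ⟨d, hd⟩ : ∃ d, d = w t - w i₁ := ⟨_, rfl⟩
  rw [← hd] at hnum ⊢
  have h1 := hvar _ _ (zp_deg c 3 (w i₁) hHg (fun s l => deg_TH E hi1 s l) 2
    (slam F (w i₁) ω)) hsup _ (mem_co (b := (slam F (w t) ω).2.2) (n := d)
    (rt_mem F (w t) ω)) _ (mem_co (b := (slam F (w t) ω).2.2) (n := d)
    (show (0 : ℝ) ∈ Set.Icc (0 : ℝ) 1 by constructor <;> norm_num))
  refine h1.trans ?_
  have e1 : |((((slam F (w t) ω).2.2 % 2 ^ d : ℕ) : ℝ) + rt F (w t) ω) / 2 ^ d -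
      ((((slam F (w t) ω).2.2 % 2 ^ d : ℕ) : ℝ) + 0) / 2 ^ d| ≤ 1 / 2 ^ d := by
    have e2 : ((((slam F (w t) ω).2.2 % 2 ^ d : ℕ) : ℝ) + rt F (w t) ω) / 2 ^ d -
      ((((slam F (w t) ω).2.2 % 2 ^ d : ℕ) : ℝ) + 0) / 2 ^ d = rt F (w t) ω / 2 ^ d := by ring
    have h2 := rt_mem F (w t) ω
    rw [e2, abs_of_nonneg (div_nonneg h2.1 (by positivity))]
    exact div_le_div_of_nonneg_right h2.2 (by positivity)
  have e3 : Real.exp (C₂ * (θ + 1)) ≤ 2 ^ n := (Real.exp_le_exp.2 hCC).trans hexp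
  calc C₃ * (Real.exp (C₂ * (θ + 1)) * S) * _ ≤ 2 ^ a₃ * (2 ^ n * S) * (1 / 2 ^ d) :=
        mul_le_mul (mul_le_mul ha₃.le (mul_le_mul_of_nonneg_right e3 hS0.le) (by positivity)
          (by positivity)) e1 (abs_nonneg _) (by positivity)
    _ = 2 ^ (a₃ + n + C₁ * (cl + X + 1) + (w k + g₀ k 2)) / 2 ^ (g₀ k 3 + d) := by
        rw [hS]
        simp only [pow_add]
        field_simp
    _ ≤ _ := by
        rw [div_le_div_iff₀ (by positivity) (by positivity), ← pow_add, ← pow_add]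
        refine p2 ?_
        have e4 : C * (cl + X + n + 1) = C₁ * (cl + X + 1) + C₁ * n + a₂ * (cl + X + n + 1) +
            a₃ * (cl + X + n + 1) + 10 * (cl + X + n + 1) := by
          rw [hC]
          ring
        have e5 : a₃ ≤ a₃ * (cl + X + n + 1) := Nat.le_mul_of_pos_right _ (by omega)
        omega

/-- **The numbers** of the variation, thin place one and static place two. -/
structure JTs (A cl X Y f dd y Q : ℕ) (w pp : ℕ → ℕ) (gc gT g₀ : ℕ → ℕ → ℕ)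
    (i i₁ t k : ℕ) : Prop where
  ii : w i ≤ w i₁
  cT : ∀ l < 3, cl ≤ gT i l ∧ cl ≤ gc i l
  pi : cl ≤ pp i
  ci : cl ≤ gc i 3
  lb : g₀ i 2 + (A - w i) ≤ gT i 2 + X
  ex : gT k 2 ≤ g₀ k 2 + (A - w k) + y
  fr : f + dd + Q ≤ w t - w i₁
  nv : Y + y + f + dd + (w i + g₀ i 1 + g₀ k 2) + Q ≤ w k + g₀ k 1 + g₀ i 2

/-- **The variation of the denominator**, thin place one and static place two. -/
theorem jvar_ts (m D D₁ : ℕ) : ∃ C : ℕ, 1 ≤ C ∧ ∀ {J : ℕ} {F : Fam m J} {c : ℕ → Fin m}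
    {Dr N M A cl : ℕ} {Sc : ℕ → Prop} {w e h pp : ℕ → ℕ} {z g gc gT g₀ : ℕ → ℕ → ℕ} {κ θ : ℝ}
    {B : F.Ω → Prop} {G : ℕ → PtT F → ℕ → MvPolynomial (Option (Fin m)) ℝ}
    {H : ℕ → LnT F → ℕ → MvPolynomial (Option (Fin m)) ℝ}
    {T : ℕ → PtT F → ℕ → MvPolynomial (Option (Fin m)) ℝ}
    {TH : ℕ → LnT F → ℕ → MvPolynomial (Option (Fin m)) ℝ}
    {Gt : ℕ → PtT F → MvPolynomial (Option (Fin m)) ℝ}
    {Ht : ℕ → LnT F → MvPolynomial (Option (Fin m)) ℝ},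
    CEv F c 3 D Dr N M A cl Sc w e h pp z g gc gT g₀ κ B G H T TH Gt Ht →
    ∀ {X Y f dd y i i₁ t k P n : ℕ}, ¬ Sc 0 → ¬ Sc 1 → Sc 2 →
    JNum N A cl X f dd w pp gc gT g₀ i i₁ t k P 1 2 →
    JTs A cl X Y f dd y (C * (cl + X + n + 1)) w pp gc gT g₀ i i₁ t k →
    0 < Pe F.p B → 0 ≤ θ →
    (∀ (B' : F.Ω → Prop) (hB' : 0 < Pe F.p B'), Sub B' B → Pe F.p B ≤ 8 * Pe F.p B' →
      (Fam.sub F B' hB').Tm θ) →
    C * (θ + 1) ≤ ((J : ℝ) - w t) * Real.log 2 → Real.exp (C * (θ + 1)) ≤ 2 ^ n →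
    ∀ {mu : LnT F → Polynomial ℝ}, (∀ s, (mu s).natDegree ≤ D₁) →
    (∀ ω, B ω → |cv (gG G ω k 3 - grd (Ht i₁ (slam F (w i₁) ω)) (bt F ω))
        (ev c 3 (mx Sc (kT w TH ω i) (gG G ω k)) 2) -
      (mu (slam F (w t) ω)).eval (rt F (w t) ω)| ≤ 2 ^ Y * (2 ^ g₀ k 2 / 2 ^ g₀ k 3)) →
    ∃ B' : F.Ω → Prop, Sub B' B ∧ Pe F.p B ≤ 8 * Pe F.p B' ∧ ∀ ω, B' ω →
        |(jL c (w t) 2 1 (fun s => Ht i₁ (co (w t - w i₁) s)) (Xcf w TH Sc i t) mu
            (slam F (w t) ω)).eval (rt F (w t) ω) -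
          (jL c (w t) 2 1 (fun s => Ht i₁ (co (w t - w i₁) s)) (Xcf w TH Sc i t) mu
            (slam F (w t) ω)).eval 0| ≤ 2 ^ (w k + g₀ k 1) / 2 ^ (g₀ k 3 + dd + f + 2) := by
  obtain ⟨C₁, hC₁, hrel⟩ := jrel
  obtain ⟨C₂, hC₂, hrem⟩ := rem_win m (D * (3 + 1) + D₁) 1 3
  obtain ⟨C₃, hC₃, hvar⟩ := var_one (D * (3 + 1))
  obtain ⟨a₂, ha₂⟩ := exists_nat_ge C₂
  obtain ⟨a₃, ha₃⟩ := pow_unbounded_of_one_lt C₃ (show (1 : ℝ) < 2 by norm_num)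
  obtain ⟨C, hC⟩ : ∃ C, C = C₁ + a₂ + a₃ + 60 := ⟨_, rfl⟩
  refine ⟨C, by omega, ?_⟩
  intro J F c Dr N M A cl Sc w e h pp z g gc gT g₀ κ θ B G H T TH Gt Ht E X Y f dd y i i₁ t k P n
    hs0 hs1 hs2 nn nt hB hθ hTm hJ hexp mu hmud hmu
  have hi := nn.iN
  have hi1 := nn.i1N
  have ht := nn.tN
  have hk := nn.kN
  have hiJ : w i ≤ J := (E.wA i hi).trans E.AJ
  have hi1J : w i₁ ≤ J := (E.wA i₁ hi1).trans E.AJ
  have htJ : w t ≤ J := (E.wA t ht).trans E.AJ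
  have hc : Set.InjOn c (Set.Iio 3) := E.inj.mono (Set.Iio_subset_Iio (by norm_num))
  have hΓ : ∀ ω l, CvC c l (gG G ω k l) := fun ω l => cvc_grd ((E.evs k hk).ball.depG _ l) _
  have hκ : ∀ j ≤ N, ∀ ω l, CvC c l (kT w TH ω j l) := fun j hj ω l =>
    cvc_grd ((E.evs j hj).thin.depH _ l) _
  have hSc : ∀ l < 3, (Sc l ↔ l = 2) := fun l hl => by
    have : l = 0 ∨ l = 1 ∨ l = 2 := by omega
    rcases this with h | h | h
    · rw [h]; exact ⟨fun h => absurd h hs0, fun h => absurd h (by norm_num)⟩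
    · rw [h]; exact ⟨fun h => absurd h hs1, fun h => absurd h (by norm_num)⟩
    · rw [h]; exact ⟨fun _ => rfl, fun _ => hs2⟩
  have hHd : ∀ s, DepC c 3 (Ht i₁ s) := fun s => (E.evs i₁ hi1).pH s
  have hHg : ∀ s, (Ht i₁ s).totalDegree ≤ D := fun s => (E.evs i₁ hi1).dH s
  have hXg : ∀ s l, (Xcf w TH Sc i i₁ s l).totalDegree ≤ D := fun s l => by
    unfold Xcf
    split_ifs
    · exact deg_TH E hi _ l
    · exact deg_TH E hi1 _ l
  have hCC : C₂ * (θ + 1) ≤ C * (θ + 1) := by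
    refine mul_le_mul_of_nonneg_right (ha₂.trans ?_) (by linarith)
    have : a₂ ≤ C := by omega
    exact_mod_cast this
  have e3 : Real.exp (C₂ * (θ + 1)) ≤ 2 ^ n := (Real.exp_le_exp.2 hCC).trans hexp
  have eQ : C * (cl + X + n + 1) = C₁ * (cl + X + 1) + C₁ * n + a₂ * (cl + X + n + 1) +
      a₃ * (cl + X + n + 1) + 60 * (cl + X + n + 1) := by
    rw [hC]
    ring
  have e5 : a₃ ≤ a₃ * (cl + X + n + 1) := Nat.le_mul_of_pos_right _ (by omega)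
  have hnv := nt.nv
  have hfr := nt.fr
  rw [eQ] at hnv hfr
  -- the sizes
  obtain ⟨R, hR⟩ : ∃ R : ℝ, R = 2 ^ (w k + g₀ k 1) / 2 ^ g₀ k 3 := ⟨_, rfl⟩
  obtain ⟨U, hU⟩ : ∃ U : ℝ, U = 2 ^ g₀ k 2 / 2 ^ g₀ k 3 := ⟨_, rfl⟩
  obtain ⟨S₁, hS₁⟩ : ∃ S : ℝ, S = 2 ^ (C₁ * (cl + X + 1) + 1) * R := ⟨_, rfl⟩
  obtain ⟨S₂, hS₂⟩ : ∃ S : ℝ, S = 2 ^ (18 * cl + X + 25) * 2 ^ w i / 2 ^ g₀ i 2 * 2 ^ g₀ i 1 :=
    ⟨_, rfl⟩
  obtain ⟨S₃, hS₃⟩ : ∃ S : ℝ, S = 2 ^ (Y + cl + X + y + 2) * U := ⟨_, rfl⟩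
  have hR0 : 0 < R := by rw [hR]; positivity
  have hU0 : 0 < U := by rw [hU]; positivity
  have hS10 : 0 < S₁ := by rw [hS₁]; positivity
  have hS20 : 0 < S₂ := by rw [hS₂]; positivity
  have hS30 : 0 < S₃ := by rw [hS₃]; positivity
  -- the frame
  have hΞ : ∀ ω l, CvC c l (mx Sc (kT w TH ω i) (gG G ω k) l) := fun ω l =>
    mx_cvc (hκ i hi ω) (hΓ ω) l
  have hz2 : ∀ ω, B ω → |hs (TH i (slam F (w i) ω) 2) (bt F ω) (bd F ω)
      (ev c 3 (mx Sc (kT w TH ω i) (gG G ω k)) 1)| ≤ S₂ := by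
    intro ω hω
    have h1 := zsam E hi nt.cT nt.pi nt.ci hω (l := 2) (by norm_num) (fun x hx h => by
      have := (hSc x (by omega)).1 h
      omega) (fun _ => nt.lb) 1
    rw [zp_rt hc hiJ (fun s => (dep_TH E hi s 2).mono (by norm_num))
      (fun s l => dep_TH E hi s l)] at h1
    have h2 : hs (TH i (slam F (w i) ω) 2) (bt F ω) (bd F ω) (ev c 3 (kc (w i) (TH i) ω) 1) =
        hs (TH i (slam F (w i) ω) 2) (bt F ω) (bd F ω)
          (ev c 3 (mx Sc (kT w TH ω i) (gG G ω k)) 1) := by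
      have q1 := fun l => cvc_kc (t := w i) (fun s l => dep_TH E hi s l) ω l
      rw [hs_cut hc (l := 2) (by norm_num) q1 1 (dep_TH E hi _ 2),
        hs_cut hc (l := 2) (by norm_num) (hΞ ω) 1 (dep_TH E hi _ 2)]
      have hc2 : Set.InjOn c (Set.Iio 2) := hc.mono (Set.Iio_subset_Iio (by norm_num))
      refine hs_agr hc2 (dep_TH E hi _ 2) _ _ (ev_none _ _ _ _) (ev_none _ _ _ _)
        fun j hj => ?_
      by_cases h : j = 1
      · subst h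
        rw [ev_eq hc2 q1 hj, ev_eq hc2 (hΞ ω) hj]
      · rw [ev_low hc2 q1 j hj (by omega), ev_low hc2 (hΞ ω) j hj (by omega)]
    rw [h2] at h1
    refine h1.trans (le_of_eq ?_)
    rw [hS₂, show 15 * cl + 4 * 3 + X + 10 + (cl + 1) * 3 = 18 * cl + X + 25 by ring]
  have hab : ∀ ω, B ω → |cv (gG G ω k 3 - grd (Ht i₁ (slam F (w i₁) ω)) (bt F ω))
      (ev c 3 (mx Sc (kT w TH ω i) (gG G ω k)) 2)| ≤ 2 ^ (cl + X + y + 1) * U := by
    intro ω hω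
    have h1 := E.rb hi1 hk (nn.i1t.trans nn.tk) nn.P1 nn.P2 hω
      (ev c 3 (mx Sc (kT w TH ω i) (gG G ω k)) 2)
    rw [cv_swp] at h1
    have v0 := ev_none c 3 (mx Sc (kT w TH ω i) (gG G ω k)) 2
    have v1 := ev_low hc (hΞ ω) (x := 2) 0 (by norm_num) (by norm_num)
    have v2 := ev_low hc (hΞ ω) (x := 2) 1 (by norm_num) (by norm_num)
    have v3 := ev_eq hc (hΞ ω) (show 2 < 3 by norm_num)
    have hen : ∀ (g' : ℕ → ℕ) (a : ℕ) (χ : ℕ → Option (Fin m) → ℝ), (∀ l, CvC c l (χ l)) →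
        en c g' a χ 3 (ev c 3 (mx Sc (kT w TH ω i) (gG G ω k)) 2) = 2 ^ g' 2 := by
      intro g' a χ hχ
      have z0 : ∀ l ≤ 2, cv (χ l) (ev c 3 (mx Sc (kT w TH ω i) (gG G ω k)) 2) = 0 := by
        intro l hl
        rw [cv_eq (hc.mono (Set.Iio_subset_Iio (by omega))) (hχ l), v0, mul_zero, zero_add]
        refine Finset.sum_eq_zero fun j hj => ?_
        rw [Finset.mem_range] at hj
        rw [ev_low hc (hΞ ω) (x := 2) j (by omega) (by omega), mul_zero]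
      rw [show (3 : ℕ) = 2 + 1 from rfl, en_succ, show (2 : ℕ) = 1 + 1 from rfl, en_succ,
        en_one _ _ (hχ 0) v0, v1, z0 1 (by norm_num), z0 (1 + 1) (by norm_num), v2, v3]
      simp
    rw [hen _ _ _ (hκ k hk ω), hen _ _ _ (hΓ ω)] at h1
    refine h1.trans ?_
    have f1 : (2 : ℝ) ^ cl / 2 ^ P * 2 ^ gT k 2 ≤ 2 ^ (cl + X + y) * U := by
      rw [hU, div_mul_eq_mul_div, ← mul_div_assoc,
        div_le_div_iff₀ (by positivity) (by positivity), ← pow_add, ← pow_add, ← pow_add,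
        ← pow_add]
      have a1 := nn.vp
      have a2 := nt.ex
      exact p2 (by omega)
    have f2 : (2 : ℝ) ^ cl / 2 ^ g₀ k 3 * 2 ^ g₀ k 2 ≤ 2 ^ (cl + X + y) * U := by
      rw [hU]
      have e1 : (2 : ℝ) ^ cl / 2 ^ g₀ k 3 * 2 ^ g₀ k 2 = 2 ^ cl * (2 ^ g₀ k 2 / 2 ^ g₀ k 3) := by
        ring
      rw [e1]
      exact mul_le_mul_of_nonneg_right (p2 (by omega)) (by positivity)
    rw [pow_succ 2 (cl + X + y)]
    linarith
  have haz : ∀ ω, B ω → |cv (gG G ω k 3 - grd (Ht i₁ (slam F (w i₁) ω)) (bt F ω))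
      (ev c 3 (mx Sc (kT w TH ω i) (gG G ω k)) 2) * hs (TH i (slam F (w i) ω) 2) (bt F ω)
      (bd F ω) (ev c 3 (mx Sc (kT w TH ω i) (gG G ω k)) 1)| ≤ R := by
    intro ω hω
    rw [abs_mul]
    refine (mul_le_mul (hab ω hω) (hz2 ω hω) (abs_nonneg _) (by positivity)).trans ?_
    have e1 : 2 ^ (cl + X + y + 1) * U * S₂ =
        2 ^ ((cl + X + y + 1) + g₀ k 2 + (18 * cl + X + 25) + w i + g₀ i 1) /
          2 ^ (g₀ k 3 + g₀ i 2) := by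
      rw [hU, hS₂]
      simp only [pow_add]
      field_simp
    rw [e1, hR, div_le_div_iff₀ (by positivity) (by positivity), ← pow_add, ← pow_add]
    exact p2 (by omega)
  have hP1 : ∀ ω, B ω → |hs (Ht i₁ (slam F (w i₁) ω)) (bt F ω) (bd F ω)
      (ev c 3 (mx Sc (kT w TH ω i) (gG G ω k)) 1)| ≤ S₁ := by
    intro ω hω
    have h1 := hrel E (x := 1) (by norm_num) hSc nn hω hs1
    have h2 := haz ω hω
    rw [← hR] at h1
    obtain ⟨p, hp⟩ : ∃ p, p = hs (Ht i₁ (slam F (w i₁) ω)) (bt F ω) (bd F ω)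
      (ev c 3 (mx Sc (kT w TH ω i) (gG G ω k)) 1) := ⟨_, rfl⟩
    obtain ⟨q, hq⟩ : ∃ q, q = cv (gG G ω k 3 - grd (Ht i₁ (slam F (w i₁) ω)) (bt F ω))
      (ev c 3 (mx Sc (kT w TH ω i) (gG G ω k)) 2) * hs (TH i (slam F (w i) ω) 2) (bt F ω)
      (bd F ω) (ev c 3 (mx Sc (kT w TH ω i) (gG G ω k)) 1) := ⟨_, rfl⟩
    rw [← hp, ← hq] at h1
    rw [← hq] at h2
    rw [← hp]
    have h3 : |p| ≤ |p - q| + |q| := by
      calc |p| = |(p - q) + q| := by rw [sub_add_cancel]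
        _ ≤ _ := abs_add_le _ _
    have h4 : (1 : ℝ) ≤ 2 ^ (C₁ * (cl + X + 1)) := one_le_pow₀ (by norm_num)
    have h5 := mul_le_mul_of_nonneg_right h4 hR0.le
    rw [hS₁, pow_succ]
    linarith
  -- the three polynomials
  obtain ⟨w', hw'⟩ : ∃ w' : ℕ → ℕ, w' = fun a => if a = 0 then w i₁ else if a = 1 then w i
    else w t := ⟨_, rfl⟩
  obtain ⟨q, hq⟩ : ∃ q : ℕ → ℕ → LnT F → Polynomial ℝ, q = fun a _ s => if a = 0 then
    zp c 3 (w i₁) (Ht i₁) (Xcf w TH Sc i i₁) 1 s else if a = 1 then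
    zp c 3 (w i) (fun s => TH i s 2) (TH i) 1 s else mu s := ⟨_, rfl⟩
  obtain ⟨S, hS⟩ : ∃ S : ℕ → ℕ → ℝ, S = fun a _ => if a = 0 then S₁ else if a = 1 then S₂
    else S₃ := ⟨_, rfl⟩
  obtain ⟨B', k1, k2, k3⟩ := hrem J F B hB w' q S θ
    (fun a _ => by
      rw [hw']
      beta_reduce
      split_ifs
      · exact hi1J
      · exact hiJ
      · exact htJ)
    (fun a _ _ _ s => by
      rw [hq]
      beta_reduce
      split_ifs
      · have := zp_deg c 3 (w i₁) hHg hXg 1 s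
        omega
      · have := zp_deg c 3 (w i) (Q := fun s => TH i s 2) (fun s => deg_TH E hi s 2)
          (fun s l => deg_TH E hi s l) 1 s
        omega
      · have := hmud s
        omega)
    (fun a _ _ _ => by
      rw [hS]
      beta_reduce
      split_ifs <;> assumption) hθ (fun B' hB' h1 h2 => hTm B' hB' h1 (by
        have e1 : (2 : ℝ) ^ 3 = 8 := by norm_num
        rwa [e1] at h2))
    (fun a _ => by
      have hle : w' a ≤ w t := by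
        rw [hw']
        beta_reduce
        split_ifs
        · exact nn.i1t
        · exact nn.it
        · exact le_rfl
      have h1 : ((w' a : ℕ) : ℝ) ≤ w t := by exact_mod_cast hle
      refine (hCC.trans hJ).trans (mul_le_mul_of_nonneg_right (by linarith)
        (Real.log_nonneg (by norm_num))))
    (fun ω hω a _ _ _ => by
      rw [hq, hw', hS]
      beta_reduce
      split_ifs
      · rw [zp_rt hc hi1J hHd (fun s l => dep_Xcf E hi hi1 s l)]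
        have h1 := hP1 ω hω
        have h2 : hs (Ht i₁ (slam F (w i₁) ω)) (bt F ω) (bd F ω)
            (ev c 3 (kc (w i₁) (Xcf w TH Sc i i₁) ω) 1) =
            hs (Ht i₁ (slam F (w i₁) ω)) (bt F ω) (bd F ω)
            (ev c 3 (mx Sc (kT w TH ω i) (gG G ω k)) 1) := by
          have q1 := fun l => cvc_kc (t := w i₁) (fun s l => dep_Xcf E hi hi1 s l) ω l
          have a0 : ev c 3 (kc (w i₁) (Xcf w TH Sc i i₁) ω) 1 (some (c 0)) =
              ev c 3 (mx Sc (kT w TH ω i) (gG G ω k)) 1 (some (c 0)) := by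
            rw [ev_low hc q1 0 (by norm_num) (by norm_num),
              ev_low hc (hΞ ω) 0 (by norm_num) (by norm_num)]
          have a1 : ev c 3 (kc (w i₁) (Xcf w TH Sc i i₁) ω) 1 (some (c 1)) =
              ev c 3 (mx Sc (kT w TH ω i) (gG G ω k)) 1 (some (c 1)) := by
            rw [ev_eq hc q1 (by norm_num), ev_eq hc (hΞ ω) (by norm_num)]
          refine hs_agr hc (hHd _) _ _ (ev_none _ _ _ _) (ev_none _ _ _ _) fun j hj => ?_
          have : j = 0 ∨ j = 1 ∨ j = 2 := by omega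
          rcases this with h1 | h1 | h1
          · rw [h1]; exact a0
          · rw [h1]; exact a1
          · rw [h1, ev_rec hc q1 1 (show 2 < 3 by norm_num),
              ev_rec hc (hΞ ω) 1 (show 2 < 3 by norm_num),
              Finset.sum_range_succ, Finset.sum_range_one, Finset.sum_range_succ,
              Finset.sum_range_one, a0, a1]
            have e1 : kc (w i₁) (Xcf w TH Sc i i₁) ω 2 = mx Sc (kT w TH ω i) (gG G ω k) 2 := by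
              rw [kc_Xcf nt.ii hi1J, mx_pos hs2, mx_pos hs2]
            rw [e1]
        rw [h2]
        exact h1
      · rw [zp_rt hc hiJ (fun s => (dep_TH E hi s 2).mono (by norm_num))
          (fun s l => dep_TH E hi s l)]
        have h1 := zsam E hi nt.cT nt.pi nt.ci hω (l := 2) (by norm_num) (fun x hx h => by
          have := (hSc x (by omega)).1 h
          omega) (fun _ => nt.lb) 1
        rw [zp_rt hc hiJ (fun s => (dep_TH E hi s 2).mono (by norm_num))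
          (fun s l => dep_TH E hi s l)] at h1
        refine h1.trans (le_of_eq ?_)
        rw [hS₂, show 15 * cl + 4 * 3 + X + 10 + (cl + 1) * 3 = 18 * cl + X + 25 by ring]
      · have h1 := hmu ω hω
        have h2 := hab ω hω
        rw [← hU] at h1
        obtain ⟨a', ha'⟩ : ∃ a', a' = cv (gG G ω k 3 - grd (Ht i₁ (slam F (w i₁) ω)) (bt F ω))
          (ev c 3 (mx Sc (kT w TH ω i) (gG G ω k)) 2) := ⟨_, rfl⟩
        rw [← ha'] at h1 h2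
        have h3 : |(mu (slam F (w t) ω)).eval (rt F (w t) ω)| ≤
            |a' - (mu (slam F (w t) ω)).eval (rt F (w t) ω)| + |a'| := by
          have := abs_sub a' (a' - (mu (slam F (w t) ω)).eval (rt F (w t) ω))
          rw [sub_sub_cancel] at this
          linarith
        have h4 : (2 : ℝ) ^ Y ≤ 2 ^ (Y + cl + X + y + 1) := p2 (by omega)
        have h5 : (2 : ℝ) ^ (cl + X + y + 1) ≤ 2 ^ (Y + cl + X + y + 1) := p2 (by omega)
        have h6 := mul_le_mul_of_nonneg_right h4 hU0.le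
        have h7 := mul_le_mul_of_nonneg_right h5 hU0.le
        rw [hS₃, pow_succ 2 (Y + cl + X + y + 1)]
        linarith)
  refine ⟨B', k1, by
    have e1 : (2 : ℝ) ^ 3 = 8 := by norm_num
    rwa [e1] at k2, fun ω hω => ?_⟩
  have hsup1 := k3 ω hω 0 (by norm_num) 0 (by norm_num)
  have hsup2 := k3 ω hω 1 (by norm_num) 0 (by norm_num)
  have hsup3 := k3 ω hω 2 (by norm_num) 0 (by norm_num)
  rw [hq, hw', hS] at hsup1 hsup2 hsup3
  simp only [if_true, if_neg (show ¬ (1 : ℕ) = 0 by norm_num),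
    if_neg (show ¬ (2 : ℕ) = 0 by norm_num), if_neg (show ¬ (2 : ℕ) = 1 by norm_num)]
    at hsup1 hsup2 hsup3
  -- the values along the window
  obtain ⟨P₁, hP₁⟩ : ∃ p, p = zp c 3 (w t) (fun s => Ht i₁ (co (w t - w i₁) s))
    (Xcf w TH Sc i t) 1 (slam F (w t) ω) := ⟨_, rfl⟩
  obtain ⟨Z₁, hZ₁⟩ : ∃ p, p = zp c 3 (w t) (fun s => Xcf w TH Sc i t s 2)
    (Xcf w TH Sc i t) 1 (slam F (w t) ω) := ⟨_, rfl⟩
  obtain ⟨u₁, hu₁⟩ : ∃ p, p = mu (slam F (w t) ω) := ⟨_, rfl⟩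
  have hev : ∀ τ, P₁.eval τ =
      (zp c 3 (w i₁) (Ht i₁) (Xcf w TH Sc i i₁) 1 (slam F (w i₁) ω)).eval
        (((((slam F (w t) ω).2.2 % 2 ^ (w t - w i₁) : ℕ) : ℝ) + τ) / 2 ^ (w t - w i₁)) := by
    intro τ
    rw [hP₁, zp_fr1 hc (fun s => hHd _) (fun s l => dep_Xcf E hi ht s l)
      (Xc' := fun s => Xcf w TH Sc i i₁ (co (w t - w i₁) s))
      (fun s l => dep_Xcf E hi hi1 _ l) _ (by
        unfold Xcf
        rw [if_pos hs2, if_pos hs2, co_co]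
        congr 2
        have := nt.ii
        have := nn.i1t
        omega) τ,
      zp_co hc nn.i1t hHd (fun s l => dep_Xcf E hi hi1 s l), co_slam F nn.i1t htJ]
  have hevZ : ∀ τ, Z₁.eval τ =
      (zp c 3 (w i) (fun s => TH i s 2) (TH i) 1 (slam F (w i) ω)).eval
        (((((slam F (w t) ω).2.2 % 2 ^ (w t - w i) : ℕ) : ℝ) + τ) / 2 ^ (w t - w i)) := by
    intro τ
    rw [hZ₁, zp_fr12 hc (fun s => dep_Xcf E hi ht s 2) (fun s l => dep_Xcf E hi ht s l)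
      (Xc' := fun s => TH i (co (w t - w i) s)) (fun s l => dep_TH E hi _ l)]
    have e1 : (fun s => Xcf w TH Sc i t s 2) = fun s => TH i (co (w t - w i) s) 2 := by
      funext s
      unfold Xcf
      rw [if_pos hs2]
    rw [e1, zp_co hc nn.it (Q := fun s => TH i s 2) (Xc := TH i)
      (fun s => (dep_TH E hi s 2).mono (by norm_num)) (fun s l => dep_TH E hi s l),
      co_slam F nn.it htJ]
  have hZb : ∀ τ ∈ Set.Icc (0 : ℝ) 1, |Z₁.eval τ| ≤ 2 ^ n * S₂ := fun τ hτ => by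
    rw [hevZ]
    exact (hsup2 _ (mem_co hτ)).trans (mul_le_mul_of_nonneg_right e3 hS20.le)
  have hub : ∀ τ ∈ Set.Icc (0 : ℝ) 1, |u₁.eval τ| ≤ 2 ^ n * S₃ := fun τ hτ => by
    rw [hu₁]
    exact (hsup3 _ hτ).trans (mul_le_mul_of_nonneg_right e3 hS30.le)
  have h01 : (0 : ℝ) ∈ Set.Icc (0 : ℝ) 1 := by constructor <;> norm_num
  have hr01 := rt_mem F (w t) ω
  have hPv : |P₁.eval (rt F (w t) ω) - P₁.eval 0| ≤ 2 ^ (w k + g₀ k 1) /
      2 ^ (g₀ k 3 + dd + f + 3) := by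
    rw [hev, hev]
    obtain ⟨d, hd⟩ : ∃ d, d = w t - w i₁ := ⟨_, rfl⟩
    rw [← hd] at hfr ⊢
    have h1 := hvar _ _ (zp_deg c 3 (w i₁) hHg hXg 1 (slam F (w i₁) ω)) hsup1 _
      (mem_co (b := (slam F (w t) ω).2.2) (n := d) hr01) _
      (mem_co (b := (slam F (w t) ω).2.2) (n := d) h01)
    refine h1.trans ?_
    have e1 : |((((slam F (w t) ω).2.2 % 2 ^ d : ℕ) : ℝ) + rt F (w t) ω) / 2 ^ d -
        ((((slam F (w t) ω).2.2 % 2 ^ d : ℕ) : ℝ) + 0) / 2 ^ d| ≤ 1 / 2 ^ d := by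
      have e2 : ((((slam F (w t) ω).2.2 % 2 ^ d : ℕ) : ℝ) + rt F (w t) ω) / 2 ^ d -
        ((((slam F (w t) ω).2.2 % 2 ^ d : ℕ) : ℝ) + 0) / 2 ^ d = rt F (w t) ω / 2 ^ d := by
        ring
      rw [e2, abs_of_nonneg (div_nonneg hr01.1 (by positivity))]
      exact div_le_div_of_nonneg_right hr01.2 (by positivity)
    calc C₃ * (Real.exp (C₂ * (θ + 1)) * S₁) * _ ≤ 2 ^ a₃ * (2 ^ n * S₁) * (1 / 2 ^ d) :=
          mul_le_mul (mul_le_mul ha₃.le (mul_le_mul_of_nonneg_right e3 hS10.le) (by positivity)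
            (by positivity)) e1 (abs_nonneg _) (by positivity)
      _ = 2 ^ (a₃ + n + (C₁ * (cl + X + 1) + 1) + (w k + g₀ k 1)) / 2 ^ (g₀ k 3 + d) := by
          rw [hS₁, hR]
          simp only [pow_add]
          field_simp
      _ ≤ _ := by
          rw [div_le_div_iff₀ (by positivity) (by positivity), ← pow_add, ← pow_add]
          exact p2 (by omega)
  have hMZ : ∀ τ ∈ Set.Icc (0 : ℝ) 1, |u₁.eval τ * Z₁.eval τ| ≤ 2 ^ (w k + g₀ k 1) /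
      2 ^ (g₀ k 3 + dd + f + 4) := by
    intro τ hτ
    rw [abs_mul]
    refine (mul_le_mul (hub τ hτ) (hZb τ hτ) (abs_nonneg _) (by positivity)).trans ?_
    have e1 : 2 ^ n * S₃ * (2 ^ n * S₂) =
        2 ^ (n + (Y + cl + X + y + 2) + g₀ k 2 + n + (18 * cl + X + 25) + w i + g₀ i 1) /
          2 ^ (g₀ k 3 + g₀ i 2) := by
      rw [hS₃, hS₂, hU]
      simp only [pow_add]
      field_simp
    rw [e1, div_le_div_iff₀ (by positivity) (by positivity), ← pow_add, ← pow_add]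
    exact p2 (by omega)
  have hjL : ∀ τ, (jL c (w t) 2 1 (fun s => Ht i₁ (co (w t - w i₁) s)) (Xcf w TH Sc i t) mu
      (slam F (w t) ω)).eval τ = P₁.eval τ - u₁.eval τ * Z₁.eval τ := by
    intro τ
    unfold jL
    rw [Polynomial.eval_sub, Polynomial.eval_mul, ← hP₁, ← hZ₁, ← hu₁]
  rw [hjL, hjL]
  have h1 := hMZ _ hr01
  have h2 := hMZ _ h01
  have e1 : P₁.eval (rt F (w t) ω) - u₁.eval (rt F (w t) ω) * Z₁.eval (rt F (w t) ω) -
      (P₁.eval 0 - u₁.eval 0 * Z₁.eval 0) = (P₁.eval (rt F (w t) ω) - P₁.eval 0) -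
      (u₁.eval (rt F (w t) ω) * Z₁.eval (rt F (w t) ω) - u₁.eval 0 * Z₁.eval 0) := by ring
  rw [e1]
  have h3 := (abs_sub (P₁.eval (rt F (w t) ω) - P₁.eval 0)
    (u₁.eval (rt F (w t) ω) * Z₁.eval (rt F (w t) ω) - u₁.eval 0 * Z₁.eval 0)).trans
    (add_le_add hPv (abs_sub _ _))
  refine h3.trans ?_
  have f1 : (2 : ℝ) ^ (w k + g₀ k 1) / 2 ^ (g₀ k 3 + dd + f + 3) =
      2 ^ (w k + g₀ k 1) / 2 ^ (g₀ k 3 + dd + f + 2) / 2 := by
    rw [pow_succ 2 (g₀ k 3 + dd + f + 2)]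
    field_simp
  have f2 : (2 : ℝ) ^ (w k + g₀ k 1) / 2 ^ (g₀ k 3 + dd + f + 4) =
      2 ^ (w k + g₀ k 1) / 2 ^ (g₀ k 3 + dd + f + 2) / 4 := by
    rw [show g₀ k 3 + dd + f + 4 = g₀ k 3 + dd + f + 2 + 2 by ring,
      pow_add 2 (g₀ k 3 + dd + f + 2)]
    field_simp
    norm_num
  rw [f2] at h1 h2
  rw [f1]
  linarith

/-! ### On an event -/

/-- **The closed gradient of the thin place two on an event** (static place one). -/
theorem jcl_st_ev (m D : ℕ) : ∃ C : ℕ, 1 ≤ C ∧ ∀ {J : ℕ} {F : Fam m J} {c : ℕ → Fin m}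
    {Dr N M A cl : ℕ} {Sc : ℕ → Prop} {w e h pp : ℕ → ℕ} {z g gc gT g₀ : ℕ → ℕ → ℕ} {κ θ : ℝ}
    {B : F.Ω → Prop} {G : ℕ → PtT F → ℕ → MvPolynomial (Option (Fin m)) ℝ}
    {H : ℕ → LnT F → ℕ → MvPolynomial (Option (Fin m)) ℝ}
    {T : ℕ → PtT F → ℕ → MvPolynomial (Option (Fin m)) ℝ}
    {TH : ℕ → LnT F → ℕ → MvPolynomial (Option (Fin m)) ℝ}
    {Gt : ℕ → PtT F → MvPolynomial (Option (Fin m)) ℝ}
    {Ht : ℕ → LnT F → MvPolynomial (Option (Fin m)) ℝ},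
    CEv F c 3 D Dr N M A cl Sc w e h pp z g gc gT g₀ κ B G H T TH Gt Ht →
    ∀ {X Y f dd i i₁ t k P n : ℕ}, ¬ Sc 0 → Sc 1 → ¬ Sc 2 →
    JNum N A cl X f dd w pp gc gT g₀ i i₁ t k P 2 1 → 0 < Pe F.p B → 0 ≤ θ →
    (∀ (B' : F.Ω → Prop) (hB' : 0 < Pe F.p B'), Sub B' B → Pe F.p B ≤ 2 * Pe F.p B' →
      (Fam.sub F B' hB').Tm θ) →
    C * (θ + 1) ≤ ((J : ℝ) - w i₁) * Real.log 2 → Real.exp (C * (θ + 1)) ≤ 2 ^ n →
    f + dd + C * (cl + X + n + 1) ≤ w t - w i₁ →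
    ∀ {mu mu₂ : LnT F → Polynomial ℝ},
    (∀ ω, B ω → |cv (gG G ω k 3 - grd (Ht i₁ (slam F (w i₁) ω)) (bt F ω))
        (ev c 3 (mx Sc (kT w TH ω i) (gG G ω k)) 1) -
      (mu (slam F (w t) ω)).eval (rt F (w t) ω)| ≤ 2 ^ Y * (2 ^ g₀ k 1 / 2 ^ g₀ k 3)) →
    (∀ ω, B ω → |gG G ω k 2 (some (c 1)) - (mu₂ (slam F (w t) ω)).eval (rt F (w t) ω)| ≤
      2 ^ Y * (2 ^ g₀ k 1 / 2 ^ g₀ k 2)) →
    (∀ ω, B ω → 2 ^ (w k + g₀ k 2) / 2 ^ (g₀ k 3 + dd) ≤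
      |hs (Ht i₁ (slam F (w i₁) ω)) (bt F ω) (bd F ω)
          (ev c 3 (mx Sc (kT w TH ω i) (gG G ω k)) 2) -
        cv (gG G ω k 3 - grd (Ht i₁ (slam F (w i₁) ω)) (bt F ω))
          (ev c 3 (mx Sc (kT w TH ω i) (gG G ω k)) 1) *
        hs (TH i (slam F (w i) ω) 1) (bt F ω) (bd F ω)
          (ev c 3 (mx Sc (kT w TH ω i) (gG G ω k)) 2)|) →
    ∃ B' : F.Ω → Prop, Sub B' B ∧ Pe F.p B ≤ 2 * Pe F.p B' ∧ ∀ ω, B' ω →
      ∀ V : Option (Fin m) → ℝ, V none = 0 →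
      |∑ j ∈ range 2, (lamS c (w t) (fun s => Ht i₁ (co (w t - w i₁) s)) (Xcf w TH Sc i t) mu
          mu₂ (slam F (w t) ω) j).eval (rt F (w t) ω) * V (some (c j)) - cv (gG G ω k 2) V| ≤
        2 ^ (C * (cl + X + Y + 1) + dd) / 2 ^ g₀ k 2 *
          en c (g₀ k) (w k) (gG G ω k) 2 V := by
  obtain ⟨C₁, hC₁, h1⟩ := jvar_st m D
  obtain ⟨C₂, hC₂, h2⟩ := jcl_st
  refine ⟨C₁ + C₂, by omega, ?_⟩
  intro J F c Dr N M A cl Sc w e h pp z g gc gT g₀ κ θ B G H T TH Gt Ht E X Y f dd i i₁ t k P n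
    hs0 hs1 hs2 nn hB hθ hTm hJ hexp hnum mu mu₂ hmu hmu2 hbig
  have hCC : (C₁ : ℝ) * (θ + 1) ≤ ((C₁ + C₂ : ℕ) : ℝ) * (θ + 1) := by
    refine mul_le_mul_of_nonneg_right ?_ (by linarith)
    exact_mod_cast Nat.le_add_right _ _
  obtain ⟨B', k1, k2, k3⟩ := h1 E hs0 hs1 hs2 nn hB hθ hTm (hCC.trans hJ)
    ((Real.exp_le_exp.2 hCC).trans hexp) (by
      have e1 : (C₁ + C₂) * (cl + X + n + 1) = C₁ * (cl + X + n + 1) +
        C₂ * (cl + X + n + 1) := by ring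
      omega)
  refine ⟨B', k1, k2, fun ω hω V hV => ?_⟩
  have hb := k1 ω hω
  refine (h2 E hs0 hs1 hs2 nn hb (hmu ω hb) (hmu2 ω hb) (hbig ω hb) (k3 mu ω hω) V hV).trans ?_
  refine mul_le_mul_of_nonneg_right (div_le_div_of_nonneg_right (p2 ?_) (by positivity))
    (en_nonneg _ _ _ _ _ _)
  have e1 : (C₁ + C₂) * (cl + X + Y + 1) = C₁ * (cl + X + Y + 1) + C₂ * (cl + X + Y + 1) := by
    ring
  omega

/-- **The closed gradient of the thin place one on an event** (static place two). -/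
theorem jcl_ts_ev (m D D₁ : ℕ) : ∃ C : ℕ, 1 ≤ C ∧ ∀ {J : ℕ} {F : Fam m J} {c : ℕ → Fin m}
    {Dr N M A cl : ℕ} {Sc : ℕ → Prop} {w e h pp : ℕ → ℕ} {z g gc gT g₀ : ℕ → ℕ → ℕ} {κ θ : ℝ}
    {B : F.Ω → Prop} {G : ℕ → PtT F → ℕ → MvPolynomial (Option (Fin m)) ℝ}
    {H : ℕ → LnT F → ℕ → MvPolynomial (Option (Fin m)) ℝ}
    {T : ℕ → PtT F → ℕ → MvPolynomial (Option (Fin m)) ℝ}
    {TH : ℕ → LnT F → ℕ → MvPolynomial (Option (Fin m)) ℝ}
    {Gt : ℕ → PtT F → MvPolynomial (Option (Fin m)) ℝ}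
    {Ht : ℕ → LnT F → MvPolynomial (Option (Fin m)) ℝ},
    CEv F c 3 D Dr N M A cl Sc w e h pp z g gc gT g₀ κ B G H T TH Gt Ht →
    ∀ {X Y f dd y i i₁ t k P n : ℕ}, ¬ Sc 0 → ¬ Sc 1 → Sc 2 →
    JNum N A cl X f dd w pp gc gT g₀ i i₁ t k P 1 2 →
    JTs A cl X Y f dd y (C * (cl + X + n + 1)) w pp gc gT g₀ i i₁ t k →
    0 < Pe F.p B → 0 ≤ θ →
    (∀ (B' : F.Ω → Prop) (hB' : 0 < Pe F.p B'), Sub B' B → Pe F.p B ≤ 8 * Pe F.p B' →
      (Fam.sub F B' hB').Tm θ) →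
    C * (θ + 1) ≤ ((J : ℝ) - w t) * Real.log 2 → Real.exp (C * (θ + 1)) ≤ 2 ^ n →
    ∀ {mu : LnT F → Polynomial ℝ}, (∀ s, (mu s).natDegree ≤ D₁) →
    (∀ ω, B ω → |cv (gG G ω k 3 - grd (Ht i₁ (slam F (w i₁) ω)) (bt F ω))
        (ev c 3 (mx Sc (kT w TH ω i) (gG G ω k)) 2) -
      (mu (slam F (w t) ω)).eval (rt F (w t) ω)| ≤ 2 ^ Y * (2 ^ g₀ k 2 / 2 ^ g₀ k 3)) →
    (∀ ω, B ω → 2 ^ (w k + g₀ k 1) / 2 ^ (g₀ k 3 + dd) ≤
      |hs (Ht i₁ (slam F (w i₁) ω)) (bt F ω) (bd F ω)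
          (ev c 3 (mx Sc (kT w TH ω i) (gG G ω k)) 1) -
        cv (gG G ω k 3 - grd (Ht i₁ (slam F (w i₁) ω)) (bt F ω))
          (ev c 3 (mx Sc (kT w TH ω i) (gG G ω k)) 2) *
        hs (TH i (slam F (w i) ω) 2) (bt F ω) (bd F ω)
          (ev c 3 (mx Sc (kT w TH ω i) (gG G ω k)) 1)|) →
    ∃ B' : F.Ω → Prop, Sub B' B ∧ Pe F.p B ≤ 8 * Pe F.p B' ∧ ∀ ω, B' ω →
      ∀ V : Option (Fin m) → ℝ, V none = 0 →
      |∑ j ∈ range 1, (lamT c (w t) (fun s => Ht i₁ (co (w t - w i₁) s)) (Xcf w TH Sc i t) mu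
          (slam F (w t) ω) j).eval (rt F (w t) ω) * V (some (c j)) - cv (gG G ω k 1) V| ≤
        2 ^ (C * (cl + X + Y + 1) + dd) / 2 ^ g₀ k 1 *
          en c (g₀ k) (w k) (gG G ω k) 1 V := by
  obtain ⟨C₁, hC₁, h1⟩ := jvar_ts m D D₁
  obtain ⟨C₂, hC₂, h2⟩ := jcl_ts
  refine ⟨C₁ + C₂ + 30, by omega, ?_⟩
  intro J F c Dr N M A cl Sc w e h pp z g gc gT g₀ κ θ B G H T TH Gt Ht E X Y f dd y i i₁ t k P n
    hs0 hs1 hs2 nn nt hB hθ hTm hJ hexp mu hmud hmu hbig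
  have hCC : (C₁ : ℝ) * (θ + 1) ≤ ((C₁ + C₂ + 30 : ℕ) : ℝ) * (θ + 1) := by
    refine mul_le_mul_of_nonneg_right ?_ (by linarith)
    have : C₁ ≤ C₁ + C₂ + 30 := by omega
    exact_mod_cast this
  have eQ : (C₁ + C₂ + 30) * (cl + X + n + 1) = C₁ * (cl + X + n + 1) +
    C₂ * (cl + X + n + 1) + 30 * (cl + X + n + 1) := by ring
  have hfr := nt.fr
  have hnv := nt.nv
  rw [eQ] at hfr hnv
  have nt' : JTs A cl X Y f dd y (C₁ * (cl + X + n + 1)) w pp gc gT g₀ i i₁ t k :=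
    ⟨nt.ii, nt.cT, nt.pi, nt.ci, nt.lb, nt.ex, by omega, by omega⟩
  have nz : ZNb A cl X Y dd w pp gc gT g₀ i k := ⟨nt.cT, nt.pi, nt.ci, nt.lb, by omega⟩
  obtain ⟨B', k1, k2, k3⟩ := h1 E hs0 hs1 hs2 nn nt' hB hθ hTm (hCC.trans hJ)
    ((Real.exp_le_exp.2 hCC).trans hexp) hmud hmu
  refine ⟨B', k1, k2, fun ω hω V hV => ?_⟩
  have hb := k1 ω hω
  refine (h2 E hs0 hs1 hs2 nn nz hb (hmu ω hb) (hbig ω hb) (k3 ω hω) V hV).trans ?_
  refine mul_le_mul_of_nonneg_right (div_le_div_of_nonneg_right (p2 ?_) (by positivity))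
    (en_nonneg _ _ _ _ _ _)
  have e1 : (C₁ + C₂ + 30) * (cl + X + Y + 1) = C₁ * (cl + X + Y + 1) +
      C₂ * (cl + X + Y + 1) + 30 * (cl + X + Y + 1) := by
    ring
  omega

end Pool.TNW
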