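import Pool.Agent.H42.D2.Dsp
import Pool.Agent.H23.D2.Wst

/-!
# The end with plain labels

`StaD`: the plain components of the spatial gradient of the visible chart `Gp` are closed
polynomials `lam` of the relative time, with all errors measured in norms `gN` of a closed thin
chart along the own line. `sta_lab`: then the target has a two-sided label on the thin boxes. The
closed label is `line i + ∑ lam l * (X (c l) - line l)`, it is affine in the space; the visible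
label is the affine polynomial of `Gp` at a representative of the exact point. There is no term of
second order: the gain is not bounded by the radius of the boxes.
-/

set_option autoImplicit false

namespace Pool.D2S

open Finset Real MvPolynomial
open Pool.Agent.H49.Ent Pool.Agent.H32.Dense Pool.STK Pool.KA Pool.KSAT Pool.K2S Pool.PB Pool.S6C
open Pool.GEN Pool.CHT Pool.CHX Pool.ISO Pool.D2F Pool.D2R
open Pool.LBT (ThrOf)
open Pool.FLF (Fam.sub)
open Pool.PB.Trl (rt rt_mem t_rt)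

variable {m J : ℕ}

/-- The own line, as a function of the relative time. -/
theorem ptw_eq (F : Fam m J) {w : ℕ} (hw : w ≤ J) (ω : F.Ω) (τ : ℝ) (o : Option (Fin m)) :
    ptw F w ω τ o = bt F ω o + (τ - rt F w ω) / 2 ^ w * bd F ω o := by
  have h1 := eval_lc F hw ω o
  unfold ptw
  rw [← h1]
  cases o with
  | none =>
    simp only [lc, bd, Polynomial.eval_add, Polynomial.eval_mul, Polynomial.eval_C,
      Polynomial.eval_X]
    ring
  | some j =>
    have e2 : (slam F w ω).1.2 j = F.d ω j := rfl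
    simp only [lc, bd, e2, Polynomial.eval_add, Polynomial.eval_mul, Polynomial.eval_C,
      Polynomial.eval_X]
    ring

/-- The coordinate of the line, as a polynomial of the time. -/
noncomputable def lnP {ζ : Type} (c : ℕ → Fin m) (s : ((Fin m → ℝ) × (Fin m → ℝ)) × ζ × ℕ)
    (l : ℕ) : MvPolynomial (Option (Fin m)) ℝ := C (s.1.1 (c l)) + C (s.1.2 (c l)) * X none

theorem eval_lnP {ζ : Type} (c : ℕ → Fin m) (s : ((Fin m → ℝ) × (Fin m → ℝ)) × ζ × ℕ)
    (l : ℕ) (b : Option (Fin m) → ℝ) :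
    eval b (lnP c s l) = s.1.1 (c l) + s.1.2 (c l) * b none := by
  unfold lnP
  rw [map_add, map_mul, eval_C, eval_C, eval_X]

theorem deg_lnP {ζ : Type} (c : ℕ → Fin m) (s : ((Fin m → ℝ) × (Fin m → ℝ)) × ζ × ℕ)
    (l : ℕ) : (lnP c s l).totalDegree ≤ 1 := by
  unfold lnP
  refine (totalDegree_add _ _).trans (max_le (by rw [totalDegree_C]; exact Nat.zero_le _) ?_)
  refine (totalDegree_mul _ _).trans ?_
  rw [totalDegree_C, totalDegree_X]

theorem dep_lnP {ζ : Type} (c : ℕ → Fin m) (s : ((Fin m → ℝ) × (Fin m → ℝ)) × ζ × ℕ)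
    (l : ℕ) : DepC c l (lnP c s l) := by
  intro b b' h _
  rw [eval_lnP, eval_lnP, h]

theorem eval_lnP_own (F : Fam m J) (c : ℕ → Fin m) (w : ℕ) (ω : F.Ω) (l : ℕ)
    (b : Option (Fin m) → ℝ) : eval b (lnP c (slam F w ω) l) =
      F.x ω (c l) + (b none - F.t ω) * F.d ω (c l) := by
  rw [eval_lnP]
  have e1 : (slam F w ω).1.1 (c l) = F.u ω (c l) := rfl
  have e2 : (slam F w ω).1.2 (c l) = F.d ω (c l) := rfl
  rw [e1, e2]
  unfold Fam.x
  ring

/-- The displacement of `b` from the own line. -/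
noncomputable def offL (F : Fam m J) (ω : F.Ω) (b : Option (Fin m) → ℝ) : Option (Fin m) → ℝ :=
  fun o => b o - bt F ω o - (b none - F.t ω) * bd F ω o

theorem offL_none (F : Fam m J) (ω : F.Ω) (b : Option (Fin m) → ℝ) : offL F ω b none = 0 := by
  show b none - F.t ω - (b none - F.t ω) * 1 = 0
  ring

/-- **The difference of the two labels.** -/
theorem sta_id (F : Fam m J) (c : ℕ → Fin m) (w i : ℕ) (lam : LnT F → ℕ → Polynomial ℝ)
    (P : MvPolynomial (Option (Fin m)) ℝ) (ω ν : F.Ω) (b : Option (Fin m) → ℝ) :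
    eval b (afp (bt F ν) (F.x ν (c i)) (grd P (bt F ν))) -
      eval b (nuH c w i (lnP c) lam (slam F w ω)) =
    (F.x ν (c i) - F.x ω (c i) + dd P (bt F ν) (bt F ω - bt F ν)) +
    (b none - F.t ω) * (dd P (bt F ν) (bd F ω) - bd F ω (some (c i))) +
    (dd P (bt F ν) (offL F ω b) - ∑ l ∈ range i,
      (lam (slam F w ω) l).eval (2 ^ w * b none - ((slam F w ω).2.2 : ℝ)) *
        offL F ω b (some (c l))) := by
  rw [eval_afp, cv_grd, eval_nuH, eval_lnP_own]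
  have e1 : b - bt F ν = (bt F ω - bt F ν) + (offL F ω b + (b none - F.t ω) • bd F ω) := by
    funext o
    rw [Pi.sub_apply, Pi.add_apply, Pi.add_apply, Pi.sub_apply, Pi.smul_apply, smul_eq_mul]
    unfold offL
    ring
  have e2 : ∑ l ∈ range i, (lam (slam F w ω) l).eval (2 ^ w * b none - ((slam F w ω).2.2 : ℝ)) *
      (b (some (c l)) - eval b (lnP c (slam F w ω) l)) = ∑ l ∈ range i,
      (lam (slam F w ω) l).eval (2 ^ w * b none - ((slam F w ω).2.2 : ℝ)) *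
        offL F ω b (some (c l)) := by
    refine Finset.sum_congr rfl fun l _ => ?_
    rw [eval_lnP_own]
    unfold offL
    have e3 : bt F ω (some (c l)) = F.x ω (c l) := rfl
    have e4 : bd F ω (some (c l)) = F.d ω (c l) := rfl
    rw [e3, e4]
    ring
  have e5 : bd F ω (some (c i)) = F.d ω (c i) := rfl
  rw [e1, dd_add, dd_add, dd_smul, e2, e5]
  ring

/-- **The data.** -/
structure StaD (F : Fam m J) (c : ℕ → Fin m) (i D₁ w K : ℕ) (gN gT E : ℕ → ℕ)
    (ε₁ ε₂ ε₃ L : ℝ) (B : F.Ω → Prop) (T : PtT F → ℕ → MvPolynomial (Option (Fin m)) ℝ)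
    (TH : LnT F → ℕ → MvPolynomial (Option (Fin m)) ℝ)
    (Gp : PtT F → MvPolynomial (Option (Fin m)) ℝ) (lam : LnT F → ℕ → Polynomial ℝ) : Prop where
  pGp : ∀ y, DepC c i (Gp y)
  dlam : ∀ s l, (lam s l).natDegree ≤ D₁
  lip : ∀ ω, B ω → ∀ l < i, |eval (bt F ω) (pderiv (some (c l)) (Gp (ptr F J ω)))| ≤ 2 ^ E l
  vel : ∀ ω ν, B ω → B ν → ptr F J ω = ptr F J ν →
    |bd F ν (some (c i)) - dd (Gp (ptr F J ω)) (bt F ω) (bd F ν)| ≤ ε₂
  shf : ∀ ω ν, B ω → B ν → ptr F J ω = ptr F J ν → ∀ V : Option (Fin m) → ℝ, V none = 0 →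
    |dd (Gp (ptr F J ω)) (bt F ν) V - dd (Gp (ptr F J ω)) (bt F ω) V| ≤
      ε₁ * nrm c (TH (slam F w ω)) gN K i (bt F ω) V
  spa : ∀ ω, B ω → ∀ V : Option (Fin m) → ℝ, V none = 0 →
    |∑ l ∈ range i, (lam (slam F w ω) l).eval (rt F w ω) * V (some (c l)) -
      dd (Gp (ptr F J ω)) (bt F ω) V| ≤ ε₁ * nrm c (TH (slam F w ω)) gN K i (bt F ω) V
  der : ∀ ω, B ω → ∀ V : Option (Fin m) → ℝ, V none = 0 →
    |∑ l ∈ range i, (Polynomial.derivative (lam (slam F w ω) l)).eval (rt F w ω) *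
      V (some (c l))| ≤ ε₃ * nrm c (TH (slam F w ω)) gN K i (bt F ω) V
  nru : ∀ ω, B ω → ∀ b, NBx c (T (ptr F J ω)) gT K (F.t ω) i b → ∀ τ : ℝ,
    |τ - rt F w ω| ≤ 2 ^ w / 2 ^ K →
      nrm c (TH (slam F w ω)) gN K i (ptw F w ω τ) (offL F ω b) ≤ L

theorem StaD.sub {F : Fam m J} {c : ℕ → Fin m} {i D₁ w K : ℕ} {gN gT E : ℕ → ℕ}
    {ε₁ ε₂ ε₃ L : ℝ} {B B' : F.Ω → Prop} {T : PtT F → ℕ → MvPolynomial (Option (Fin m)) ℝ}
    {TH : LnT F → ℕ → MvPolynomial (Option (Fin m)) ℝ}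
    {Gp : PtT F → MvPolynomial (Option (Fin m)) ℝ} {lam : LnT F → ℕ → Polynomial ℝ}
    (h : StaD F c i D₁ w K gN gT E ε₁ ε₂ ε₃ L B T TH Gp lam) (hB : Sub B' B) :
    StaD F c i D₁ w K gN gT E ε₁ ε₂ ε₃ L B' T TH Gp lam :=
  ⟨h.pGp, h.dlam, fun ω hω => h.lip ω (hB ω hω), fun ω ν hω hν => h.vel ω ν (hB ω hω) (hB ν hν),
    fun ω ν hω hν => h.shf ω ν (hB ω hω) (hB ν hν), fun ω hω => h.spa ω (hB ω hω),
    fun ω hω => h.der ω (hB ω hω), fun ω hω => h.nru ω (hB ω hω)⟩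

/-- A polynomial between two points. -/
theorem pol_mv (p : Polynomial ℝ) {x y M : ℝ}
    (h : ∀ u, |u - x| ≤ |y - x| → |(Polynomial.derivative p).eval u| ≤ M) :
    |p.eval y - p.eval x| ≤ M * |y - x| := by
  have h1 := Convex.norm_image_sub_le_of_norm_deriv_le (f := fun t => p.eval t) (C := M)
    (s := Set.uIcc x y) (x := x) (y := y) (fun u _ => p.differentiable u)
    (fun u hu => by
      rw [Polynomial.deriv, Real.norm_eq_abs]
      exact h u (by
        rw [Set.mem_uIcc] at hu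
        rcases hu with ⟨h1, h2⟩ | ⟨h1, h2⟩
        · rw [abs_of_nonneg (by linarith), abs_of_nonneg (by linarith)]
          linarith
        · rw [abs_of_nonpos (by linarith), abs_of_nonpos (by linarith)]
          linarith)) (convex_uIcc x y) Set.left_mem_uIcc Set.right_mem_uIcc
  rw [Real.norm_eq_abs, Real.norm_eq_abs] at h1
  exact h1

/-- **The natural components of a plain gradient** along the own line: they are polynomials of the
relative time; if they are small at the own times then they are small on the whole window, on one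
half of the event. -/
theorem gra_ext (m D₁ D i : ℕ) : ∃ C : ℕ, 1 ≤ C ∧ ∀ {J : ℕ} {F : Fam m J} {c : ℕ → Fin m}
    {w k K : ℕ} {gN : ℕ → ℕ} {ε θ : ℝ} {B : F.Ω → Prop}
    {TH : LnT F → ℕ → MvPolynomial (Option (Fin m)) ℝ} {mu : LnT F → ℕ → Polynomial ℝ}
    (hB : 0 < Pe F.p B), Set.InjOn c (Set.Iio i) → w ≤ J → 0 < ε → 0 ≤ θ →
    (Fam.sub F B hB).Tm θ → C * (θ + 1) ≤ ((J : ℝ) - w) * Real.log 2 →
    Real.exp (C * (θ + 1)) ≤ 2 ^ k →
    (∀ s l, (TH s l).totalDegree ≤ D) → (∀ s l, DepC c l (TH s l)) →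
    (∀ s l, (mu s l).natDegree ≤ D₁) →
    (∀ ω, B ω → ∀ V : Option (Fin m) → ℝ, V none = 0 →
      |∑ l ∈ range i, (mu (slam F w ω) l).eval (rt F w ω) * V (some (c l))| ≤
        ε * nrm c (TH (slam F w ω)) gN K i (bt F ω) V) →
    ∃ B' : F.Ω → Prop, Sub B' B ∧ Pe F.p B / 2 ≤ Pe F.p B' ∧
      ∀ ω, B' ω → ∀ V : Option (Fin m) → ℝ, V none = 0 → ∀ τ : ℝ, |τ| ≤ 2 →
        |∑ l ∈ range i, (mu (slam F w ω) l).eval τ * V (some (c l))| ≤
          2 ^ (k + C) * ε * nrm c (TH (slam F w ω)) gN K i (ptw F w ω τ) V := by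
  classical
  obtain ⟨C₁, hC₁, hrem⟩ := rem_fam m (D₁ + D * i) i
  obtain ⟨C₂, hC₂, hext⟩ := pol_ext (D₁ + D * i)
  obtain ⟨C₃, hC₃⟩ := exists_nat_gt C₁
  obtain ⟨C₄, hC₄⟩ := pow_unbounded_of_one_lt C₂ (one_lt_two (α := ℝ))
  refine ⟨C₃ + C₄ + 1, by omega, ?_⟩
  intro J F c w k K gN ε θ B TH mu hB hc hw hε hθ hTm hJ hexp hTd hTp hmu hown
  have hCC : C₁ ≤ ((C₃ + C₄ + 1 : ℕ) : ℝ) := by
    push_cast
    have : (0 : ℝ) ≤ C₄ := Nat.cast_nonneg _
    linarith
  have hlcd : ∀ (s : LnT F) (P : MvPolynomial (Option (Fin m)) ℝ) (l : ℕ), P.totalDegree ≤ D →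
      (MvPolynomial.aeval (lc w s) (pderiv (some (c l)) P)).natDegree ≤ D := fun s P l hP =>
    Pool.KBX.natDegree_aeval_le _ _ (natDegree_lc w s) (totalDegree_pdσ hP _)
  obtain ⟨ν, hν1, hν2⟩ := tri_pol (ι := LnT F) i D D₁ (fun s l => mu s l)
    (fun s l' l => MvPolynomial.aeval (lc w s) (pderiv (some (c l)) (TH s l')))
    (fun s l => hmu s l) (fun s l l' => hlcd s _ l' (hTd s l))
  have hev : ∀ ω (P : MvPolynomial (Option (Fin m)) ℝ) (τ : ℝ),
      (MvPolynomial.aeval (lc w (slam F w ω)) P).eval τ = eval (ptw F w ω τ) P := by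
    intro ω P τ
    rw [Pool.KBX.eval_aeval_poly]
    rfl
  have hid : ∀ ω, ∀ τ : ℝ, ∀ l < i, (ν (slam F w ω) l).eval τ =
      (mu (slam F w ω) l).eval τ + ∑ l' ∈ Finset.Ico (l + 1) i, (ν (slam F w ω) l').eval τ *
        eval (ptw F w ω τ) (pderiv (some (c l)) (TH (slam F w ω) l')) := by
    intro ω τ l hl
    have h1 := congrArg (fun q => Polynomial.eval τ q) (hν2 (slam F w ω) l hl)
    simp only [Polynomial.eval_add, Polynomial.eval_finsetSum, Polynomial.eval_mul, hev] at h1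
    exact h1
  -- the natural components
  have hsum : ∀ ω (τ : ℝ) (V : Option (Fin m) → ℝ), V none = 0 →
      ∑ l ∈ range i, (ν (slam F w ω) l).eval τ *
        (V (some (c l)) - dd (TH (slam F w ω) l) (ptw F w ω τ) V) =
      ∑ l ∈ range i, (mu (slam F w ω) l).eval τ * V (some (c l)) := by
    intro ω τ V hV
    obtain ⟨H', hH'⟩ : ∃ H' : ℕ → MvPolynomial (Option (Fin m)) ℝ,
        H' = fun l => if l < i then TH (slam F w ω) l else 0 := ⟨_, rfl⟩
    have hH1 : ∀ l < i, H' l = TH (slam F w ω) l := fun l hl => by rw [hH']; exact if_pos hl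
    have hH2 : H' i = 0 := by rw [hH']; exact if_neg (lt_irrefl i)
    have hHp : ∀ l, DepC c l (H' l) := by
      intro l
      rw [hH']
      show DepC c l (if l < i then TH (slam F w ω) l else 0)
      split_ifs
      · exact hTp _ l
      · intro b b' _ _
        rw [map_zero, map_zero]
    have h1 := tri_id hc hHp (ptw F w ω τ) hV (fun l => (ν (slam F w ω) l).eval τ)
      (fun l => (mu (slam F w ω) l).eval τ) (fun l hl => by
        have h2 := hid ω τ l hl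
        show (ν (slam F w ω) l).eval τ = (mu (slam F w ω) l).eval τ -
          eval (ptw F w ω τ) (pderiv (some (c l)) (H' i)) + _
        rw [hH2, map_zero, map_zero, sub_zero, h2]
        congr 1
        refine Finset.sum_congr rfl fun l' hl' => ?_
        rw [hH1 l' (Finset.mem_Ico.1 hl').2])
    have h3 : dd (H' i) (ptw F w ω τ) V = 0 := by
      rw [hH2]
      unfold dd
      simp
    rw [h3, zero_add] at h1
    rw [← h1]
    refine Finset.sum_congr rfl fun l hl => ?_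
    rw [hH1 l (Finset.mem_range.1 hl)]
  -- the own times
  have hνx : ∀ ω, B ω → ∀ l < i, |(ν (slam F w ω) l).eval (rt F w ω)| ≤ ε * 2 ^ gN l := by
    intro ω hω l hl
    obtain ⟨V, hV0, hV⟩ := vec_adapt hc (hTp (slam F w ω)) (bt F ω) 0
      (fun j => if j = l then 1 else 0) i le_rfl
    have h1 := hsum ω (rt F w ω) V hV0
    rw [ptw_rt F hw ω] at h1
    have h2 : ∑ j ∈ range i, (ν (slam F w ω) j).eval (rt F w ω) *
        (V (some (c j)) - dd (TH (slam F w ω) j) (bt F ω) V) =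
        (ν (slam F w ω) l).eval (rt F w ω) := by
      rw [Finset.sum_eq_single l]
      · rw [hV l hl]
        simp
      · intro j hj hjl
        rw [hV j (Finset.mem_range.1 hj)]
        simp [hjl]
      · intro h
        exact absurd (Finset.mem_range.2 hl) h
    rw [h2] at h1
    rw [h1]
    refine (hown ω hω V hV0).trans (le_of_eq ?_)
    congr 1
    rw [nrm_sp _ _ _ hV0, Finset.sum_eq_single l]
    · rw [hV l hl, if_pos rfl, abs_one, mul_one]
    · intro j hj hjl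
      rw [hV j (Finset.mem_range.1 hj), if_neg hjl, abs_zero, mul_zero]
    · intro h
      exact absurd (Finset.mem_range.2 hl) h
  obtain ⟨B', hB'1, hB'2, hB'3⟩ := hrem J F B hB w (fun l s => ν s l) (fun l => ε * 2 ^ gN l) θ hw
    (fun l _ s => hν1 s l) (fun l _ => by positivity) hθ hTm
    (le_trans (mul_le_mul_of_nonneg_right hCC (by linarith)) hJ)
    (fun ω hω l hl => hνx ω hω l hl)
  refine ⟨B', hB'1, hB'2, fun ω hω V hV τ hτ => ?_⟩
  rw [← hsum ω τ V hV]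
  have h1 : Real.exp (C₁ * (θ + 1)) ≤ 2 ^ k :=
    (Real.exp_le_exp.2 (mul_le_mul_of_nonneg_right hCC (by linarith))).trans hexp
  have h2 : ∀ l < i, |(ν (slam F w ω) l).eval τ| ≤ 2 ^ (k + (C₃ + C₄ + 1)) * ε * 2 ^ gN l := by
    intro l hl
    have h3 := hext (ν (slam F w ω) l) _ (hν1 _ l) (hB'3 ω hω l hl) τ hτ
    refine h3.trans ?_
    have h4 : (0 : ℝ) ≤ ε * 2 ^ gN l := by positivity
    have h5 : C₂ * Real.exp (C₁ * (θ + 1)) ≤ 2 ^ (k + (C₃ + C₄ + 1)) := by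
      have h6 : (2 : ℝ) ^ C₄ ≤ 2 ^ (C₃ + C₄ + 1) := pow_le_pow_right₀ (by norm_num) (by omega)
      rw [pow_add, mul_comm]
      exact mul_le_mul h1 (hC₄.le.trans h6) (by linarith) (by positivity)
    calc C₂ * (Real.exp (C₁ * (θ + 1)) * (ε * 2 ^ gN l)) =
          (C₂ * Real.exp (C₁ * (θ + 1))) * (ε * 2 ^ gN l) := by ring
      _ ≤ 2 ^ (k + (C₃ + C₄ + 1)) * (ε * 2 ^ gN l) := mul_le_mul_of_nonneg_right h5 h4
      _ = _ := by ring
  refine (Finset.abs_sum_le_sum_abs _ _).trans ?_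
  rw [nrm_sp _ _ _ hV, Finset.mul_sum]
  refine Finset.sum_le_sum fun l hl => ?_
  rw [abs_mul]
  calc |(ν (slam F w ω) l).eval τ| *
        |V (some (c l)) - dd (TH (slam F w ω) l) (ptw F w ω τ) V| ≤
        (2 ^ (k + (C₃ + C₄ + 1)) * ε * 2 ^ gN l) *
        |V (some (c l)) - dd (TH (slam F w ω) l) (ptw F w ω τ) V| :=
        mul_le_mul_of_nonneg_right (h2 l (Finset.mem_range.1 hl)) (abs_nonneg _)
    _ = _ := by ring

/-- **A closed plain gradient gives a label**, affine in the space; with the closed label and the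
derivative of the gradient on the window. -/
theorem sta_lab' (m D₁ D i : ℕ) : ∃ C : ℕ, 1 ≤ C ∧ ∀ {J : ℕ} {F : Fam m J} {c : ℕ → Fin m}
    {w k K q : ℕ} {gN gT E : ℕ → ℕ} {ε₁ ε₂ ε₃ L θ : ℝ} {B : F.Ω → Prop}
    {T : PtT F → ℕ → MvPolynomial (Option (Fin m)) ℝ}
    {TH : LnT F → ℕ → MvPolynomial (Option (Fin m)) ℝ}
    {Gp : PtT F → MvPolynomial (Option (Fin m)) ℝ} {lam : LnT F → ℕ → Polynomial ℝ}
    (hB : 0 < Pe F.p B), Set.InjOn c (Set.Iio i) → w ≤ J → w ≤ K → 0 ≤ ε₁ → 0 ≤ ε₂ → 0 < ε₃ →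
    0 ≤ θ → (Fam.sub F B hB).Tm θ → C * (θ + 1) ≤ ((J : ℝ) - w) * Real.log 2 →
    Real.exp (C * (θ + 1)) ≤ 2 ^ k →
    (∀ s l, (TH s l).totalDegree ≤ D) → (∀ s l, DepC c l (TH s l)) →
    (∀ l < i, E l + q + C ≤ J) → q + C ≤ J →
    StaD F c i D₁ w K gN gT E ε₁ ε₂ ε₃ L B T TH Gp lam →
    ∃ (B' : F.Ω → Prop) (Gt : PtT F → MvPolynomial (Option (Fin m)) ℝ), Sub B' B ∧
      Pe F.p B / 2 ≤ Pe F.p B' ∧ (∀ y, (Gt y).totalDegree ≤ C) ∧
      (∀ s, (nuH c w i (lnP c) lam s).totalDegree ≤ C) ∧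
      (∀ y, DepC c i (Gt y)) ∧ (∀ s, DepC c i (nuH c w i (lnP c) lam s)) ∧
      (∀ ω, B' ω →
      |F.x ω (c i) - eval (bt F ω) (Gt (ptr F J ω))| ≤ 1 / 2 ^ q ∧
      (∀ b, NBx c (T (ptr F J ω)) gT K (F.t ω) i b →
        |eval b (Gt (ptr F J ω)) - eval b (nuH c w i (lnP c) lam (slam F w ω))| ≤
          1 / 2 ^ q + ε₂ / 2 ^ K + L * (2 * ε₁ + 2 ^ (k + C) * (ε₃ * 2 ^ w / 2 ^ K))) ∧
      ∀ b, ∀ l < i, |eval b (pderiv (some (c l)) (Gt (ptr F J ω)))| ≤ 2 ^ E l) ∧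
      ∀ ω, B' ω → ∀ V : Option (Fin m) → ℝ, V none = 0 → ∀ τ : ℝ, |τ| ≤ 2 →
        |∑ l ∈ range i, (Polynomial.derivative (lam (slam F w ω) l)).eval τ * V (some (c l))| ≤
          2 ^ (k + C) * ε₃ * nrm c (TH (slam F w ω)) gN K i (ptw F w ω τ) V := by
  classical
  obtain ⟨C₁, hC₁, hext⟩ := gra_ext m D₁ D i
  obtain ⟨C, hC⟩ : ∃ C, C = C₁ + i + D₁ + 2 := ⟨_, rfl⟩
  refine ⟨C, by omega, ?_⟩
  intro J F c w k K q gN gT E ε₁ ε₂ ε₃ L θ B T TH Gp lam hB hc hw hwK hε₁ hε₂ hε₃ hθ hTm hJ hexp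
    hTd hTp hE hqJ hD
  have hCC : (C₁ : ℝ) ≤ C := by exact_mod_cast (by omega : C₁ ≤ C)
  obtain ⟨B', hB'1, hB'2, hB'3⟩ := hext (K := K) (gN := gN)
    (mu := fun s l => Polynomial.derivative (lam s l)) hB hc hw hε₃ hθ hTm
    (le_trans (mul_le_mul_of_nonneg_right hCC (by linarith)) hJ)
    ((Real.exp_le_exp.2 (mul_le_mul_of_nonneg_right hCC (by linarith))).trans hexp) hTd hTp
    (fun s l => (Polynomial.natDegree_derivative_le _).trans
      ((Nat.sub_le _ _).trans (hD.dlam s l))) hD.der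
  have hgrd : ∀ y (x : Option (Fin m) → ℝ), CvC c i (grd (Gp y) x) := fun y x k hk =>
    pd_zero (hD.pGp y) (fun l hl h => hk l hl h.symm) x
  -- the representatives
  obtain ⟨Gt, hGt⟩ : ∃ Gt : PtT F → MvPolynomial (Option (Fin m)) ℝ, Gt = fun y =>
      if h : ∃ ν, B' ν ∧ ptr F J ν = y then
        afp (bt F h.choose) (F.x h.choose (c i)) (grd (Gp y) (bt F h.choose)) else 0 := ⟨_, rfl⟩
  have hrep : ∀ ω, B' ω → ∃ ν, B' ν ∧ ptr F J ω = ptr F J ν ∧
      Gt (ptr F J ω) = afp (bt F ν) (F.x ν (c i)) (grd (Gp (ptr F J ω)) (bt F ν)) := by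
    intro ω hω
    have h : ∃ ν, B' ν ∧ ptr F J ν = ptr F J ω := ⟨ω, hω, rfl⟩
    refine ⟨h.choose, h.choose_spec.1, h.choose_spec.2.symm, ?_⟩
    rw [hGt]
    exact dif_pos h
  have key : ∀ ω ν, B' ω → B' ν → ptr F J ω = ptr F J ν →
      Gt (ptr F J ω) = afp (bt F ν) (F.x ν (c i)) (grd (Gp (ptr F J ω)) (bt F ν)) →
      |F.x ω (c i) - eval (bt F ω) (Gt (ptr F J ω))| ≤ 1 / 2 ^ q ∧
      (∀ b, NBx c (T (ptr F J ω)) gT K (F.t ω) i b →
        |eval b (Gt (ptr F J ω)) - eval b (nuH c w i (lnP c) lam (slam F w ω))| ≤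
          1 / 2 ^ q + ε₂ / 2 ^ K + L * (2 * ε₁ + 2 ^ (k + C) * (ε₃ * 2 ^ w / 2 ^ K))) ∧
      ∀ b, ∀ l < i, |eval b (pderiv (some (c l)) (Gt (ptr F J ω)))| ≤ 2 ^ E l := by
    intro ω ν hω hν hpt hGν
    have hBω := hB'1 ω hω
    have hBν := hB'1 ν hν
    rw [hGν]
    obtain ⟨hT, ht, hxx⟩ := bt_near hpt
    -- the junk of the representatives
    have hq : (0 : ℝ) < 2 ^ q := by positivity
    have hjunk : |F.x ν (c i) - F.x ω (c i) +
        dd (Gp (ptr F J ω)) (bt F ν) (bt F ω - bt F ν)| ≤ 1 / 2 ^ q := by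
      have h1 : |F.x ν (c i) - F.x ω (c i)| ≤ 1 / 2 ^ J := by
        rw [abs_sub_comm]
        exact hxx _
      have h0 : (bt F ω - bt F ν) none = 0 := by
        rw [Pi.sub_apply, ht, sub_self]
      have h2 : |dd (Gp (ptr F J ω)) (bt F ν) (bt F ω - bt F ν)| ≤ i * (1 / 2 ^ (q + C)) := by
        rw [dd_spa hc (hD.pGp _) _ h0]
        refine (Finset.abs_sum_le_sum_abs _ _).trans ?_
        have h3 : ∀ l ∈ range i, |eval (bt F ν) (pderiv (some (c l)) (Gp (ptr F J ω))) *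
            (bt F ω - bt F ν) (some (c l))| ≤ 1 / 2 ^ (q + C) := by
          intro l hl
          have hl' := Finset.mem_range.1 hl
          rw [abs_mul]
          have h4 := hD.lip ν hBν l hl'
          rw [← hpt] at h4
          have h5 : |(bt F ω - bt F ν) (some (c l))| ≤ 1 / 2 ^ J := hxx (c l)
          refine (mul_le_mul h4 h5 (abs_nonneg _) (by positivity)).trans ?_
          rw [mul_one_div, div_le_div_iff₀ (by positivity) (by positivity), one_mul, ← pow_add]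
          have := hE l hl'
          exact pow_le_pow_right₀ (by norm_num) (by omega)
        refine (Finset.sum_le_sum h3).trans (le_of_eq ?_)
        rw [Finset.sum_const, Finset.card_range, nsmul_eq_mul]
      refine (abs_add_le _ _).trans ((add_le_add h1 h2).trans ?_)
      have h3 : (1 : ℝ) / 2 ^ J ≤ 1 / 2 ^ (q + C) := inv_mono hqJ
      have h4 : ((i : ℝ) + 1) ≤ 2 ^ C := by
        have h5 : ((C : ℕ) : ℝ) ≤ 2 ^ C := by exact_mod_cast (Nat.lt_two_pow_self (n := C)).le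
        have h6 : ((i : ℝ) + 1) ≤ (C : ℕ) := by exact_mod_cast (by omega : i + 1 ≤ C)
        linarith
      have h5 : (1 : ℝ) / 2 ^ (q + C) = 1 / 2 ^ q / 2 ^ C := by
        rw [pow_add]
        field_simp
      have h6 : ((i : ℝ) + 1) * (1 / 2 ^ (q + C)) ≤ 1 / 2 ^ q := by
        rw [h5, mul_div_assoc', div_le_iff₀ (by positivity), mul_comm]
        exact mul_le_mul_of_nonneg_left h4 (by positivity)
      linarith
    refine ⟨?_, fun b hb => ?_, fun b l hl => ?_⟩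
    · rw [eval_afp, cv_grd, abs_sub_comm]
      have e1 : F.x ν (c i) + dd (Gp (ptr F J ω)) (bt F ν) (bt F ω - bt F ν) - F.x ω (c i) =
          F.x ν (c i) - F.x ω (c i) + dd (Gp (ptr F J ω)) (bt F ν) (bt F ω - bt F ν) := by ring
      rw [e1]
      exact hjunk
    · rw [sta_id]
      have hU0 := offL_none F ω b
      obtain ⟨U, hU⟩ : ∃ U, U = offL F ω b := ⟨_, rfl⟩
      rw [← hU] at hU0 ⊢
      have htb : |b none - F.t ω| ≤ 1 / 2 ^ K := hb.1
      -- the velocity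
      have h1 : |(b none - F.t ω) * (dd (Gp (ptr F J ω)) (bt F ν) (bd F ω) -
          bd F ω (some (c i)))| ≤ ε₂ / 2 ^ K := by
        rw [abs_mul]
        have h2 := hD.vel ν ω hBν hBω hpt.symm
        rw [← hpt, abs_sub_comm] at h2
        refine (mul_le_mul htb h2 (abs_nonneg _) (by positivity)).trans (le_of_eq (by ring))
      -- the norms
      obtain ⟨x, hx⟩ : ∃ x, x = rt F w ω := ⟨_, rfl⟩
      obtain ⟨τ, hτ⟩ : ∃ τ : ℝ, τ = 2 ^ w * b none - ((slam F w ω).2.2 : ℝ) := ⟨_, rfl⟩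
      have hτx : τ - x = 2 ^ w * (b none - F.t ω) := by
        rw [hτ, hx, ← rt_eq F hw ω]
        ring
      have hτx' : |τ - x| ≤ 2 ^ w / 2 ^ K := by
        rw [hτx, abs_mul, abs_of_pos (show (0 : ℝ) < 2 ^ w by positivity)]
        refine (mul_le_mul_of_nonneg_left htb (by positivity)).trans (le_of_eq (by ring))
      have hwK1 : (2 : ℝ) ^ w / 2 ^ K ≤ 1 := by
        rw [div_le_one (by positivity)]
        exact pow_le_pow_right₀ (by norm_num) hwK
      have hx01 : x ∈ Set.Icc (0 : ℝ) 1 := by rw [hx]; exact rt_mem F w ω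
      have hL : ∀ u : ℝ, |u - x| ≤ 2 ^ w / 2 ^ K →
          nrm c (TH (slam F w ω)) gN K i (ptw F w ω u) U ≤ L := by
        intro u hu
        rw [hx] at hu
        rw [hU]
        exact hD.nru ω hBω b hb u hu
      have hLx : nrm c (TH (slam F w ω)) gN K i (bt F ω) U ≤ L := by
        have h2 := hL x (by rw [sub_self, abs_zero]; positivity)
        rw [hx, ptw_rt F hw ω] at h2
        exact h2
      have hn0 := nrm_nonneg c (TH (slam F w ω)) gN K i (bt F ω) U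
      have hL0 : 0 ≤ L := hn0.trans hLx
      -- the variation of the gradient
      have h2 : |∑ l ∈ range i, (lam (slam F w ω) l).eval τ * U (some (c l)) -
          ∑ l ∈ range i, (lam (slam F w ω) l).eval x * U (some (c l))| ≤
            2 ^ (k + C₁) * ε₃ * L * (2 ^ w / 2 ^ K) := by
        obtain ⟨p, hp⟩ : ∃ p : Polynomial ℝ,
            p = ∑ l ∈ range i, lam (slam F w ω) l * Polynomial.C (U (some (c l))) := ⟨_, rfl⟩
        have hpe : ∀ u, p.eval u = ∑ l ∈ range i, (lam (slam F w ω) l).eval u * U (some (c l)) := by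
          intro u
          rw [hp, Polynomial.eval_finsetSum]
          exact Finset.sum_congr rfl fun l _ => by rw [Polynomial.eval_mul, Polynomial.eval_C]
        have hpd : ∀ u, (Polynomial.derivative p).eval u = ∑ l ∈ range i,
            (Polynomial.derivative (lam (slam F w ω) l)).eval u * U (some (c l)) := by
          intro u
          rw [hp, Polynomial.derivative_sum, Polynomial.eval_finsetSum]
          refine Finset.sum_congr rfl fun l _ => ?_
          rw [Polynomial.derivative_mul, Polynomial.derivative_C, mul_zero, add_zero,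
            Polynomial.eval_mul, Polynomial.eval_C]
        rw [← hpe, ← hpe]
        have h3 := pol_mv p (x := x) (y := τ) (M := 2 ^ (k + C₁) * ε₃ * L) (fun u hu => by
          rw [hpd]
          have h4 : |u - x| ≤ 2 ^ w / 2 ^ K := hu.trans hτx'
          have h5 : |u| ≤ 2 := by
            have e1 : u = (u - x) + x := by ring
            rw [e1]
            refine (abs_add_le _ _).trans ?_
            rw [abs_of_nonneg hx01.1]
            linarith [hx01.2]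
          refine (hB'3 ω hω U hU0 u h5).trans ?_
          exact mul_le_mul_of_nonneg_left (hL u h4) (by positivity))
        exact h3.trans (mul_le_mul_of_nonneg_left hτx' (by positivity))
      -- the gradients at the exact points
      have h3 : |dd (Gp (ptr F J ω)) (bt F ν) U -
          ∑ l ∈ range i, (lam (slam F w ω) l).eval x * U (some (c l))| ≤ 2 * ε₁ * L := by
        have h4 := hD.shf ω ν hBω hBν hpt U hU0
        have h5 := hD.spa ω hBω U hU0
        rw [← hx, abs_sub_comm] at h5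
        have e1 : dd (Gp (ptr F J ω)) (bt F ν) U -
            ∑ l ∈ range i, (lam (slam F w ω) l).eval x * U (some (c l)) =
            (dd (Gp (ptr F J ω)) (bt F ν) U - dd (Gp (ptr F J ω)) (bt F ω) U) +
            (dd (Gp (ptr F J ω)) (bt F ω) U -
              ∑ l ∈ range i, (lam (slam F w ω) l).eval x * U (some (c l))) := by ring
        rw [e1]
        have h6 := mul_le_mul_of_nonneg_left hLx hε₁
        refine (abs_add_le _ _).trans ((add_le_add (h4.trans h6) (h5.trans h6)).trans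
          (le_of_eq (by ring)))
      have h4 : |dd (Gp (ptr F J ω)) (bt F ν) U -
          ∑ l ∈ range i, (lam (slam F w ω) l).eval τ * U (some (c l))| ≤
          L * (2 * ε₁ + 2 ^ (k + C) * (ε₃ * 2 ^ w / 2 ^ K)) := by
        have e1 : dd (Gp (ptr F J ω)) (bt F ν) U -
            ∑ l ∈ range i, (lam (slam F w ω) l).eval τ * U (some (c l)) =
            (dd (Gp (ptr F J ω)) (bt F ν) U -
              ∑ l ∈ range i, (lam (slam F w ω) l).eval x * U (some (c l))) -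
            (∑ l ∈ range i, (lam (slam F w ω) l).eval τ * U (some (c l)) -
              ∑ l ∈ range i, (lam (slam F w ω) l).eval x * U (some (c l))) := by ring
        rw [e1]
        refine (abs_sub _ _).trans ((add_le_add h3 h2).trans ?_)
        have h5 : (2 : ℝ) ^ (k + C₁) ≤ 2 ^ (k + C) := pow_le_pow_right₀ (by norm_num) (by omega)
        have h6 : (0 : ℝ) ≤ ε₃ * L * (2 ^ w / 2 ^ K) := by positivity
        have h7 := mul_le_mul_of_nonneg_right h5 h6
        calc 2 * ε₁ * L + 2 ^ (k + C₁) * ε₃ * L * (2 ^ w / 2 ^ K) =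
              2 * ε₁ * L + 2 ^ (k + C₁) * (ε₃ * L * (2 ^ w / 2 ^ K)) := by ring
          _ ≤ 2 * ε₁ * L + 2 ^ (k + C) * (ε₃ * L * (2 ^ w / 2 ^ K)) := add_le_add le_rfl h7
          _ = _ := by ring
      refine (abs_add_le _ _).trans ((add_le_add ((abs_add_le _ _).trans (add_le_add hjunk h1))
        ?_).trans le_rfl)
      rw [← hτ]
      exact h4
    · rw [pd_afp]
      show |eval (bt F ν) (pderiv (some (c l)) (Gp (ptr F J ω)))| ≤ 2 ^ E l
      rw [hpt]
      exact hD.lip ν hBν l hl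
  refine ⟨B', Gt, hB'1, hB'2, fun y => ?_, fun s => ?_,
    fun y => ?_, fun s => depC_nuH _ _ _ _ _ _ fun l => dep_lnP c s l, fun ω hω => ?_,
    fun ω hω V hV τ hτ => ?_⟩
  · rw [hGt]
    show (if h : ∃ ν, B' ν ∧ ptr F J ν = y then
      afp (bt F h.choose) (F.x h.choose (c i)) (grd (Gp y) (bt F h.choose)) else 0).totalDegree ≤ C
    split_ifs with h
    · exact (deg_afp _ _ _).trans (by omega)
    · rw [totalDegree_zero]
      exact Nat.zero_le _
  · exact (deg_nuH _ _ _ _ _ _ _ _ (fun l => deg_lnP c s l) (hD.dlam s) le_rfl).trans (by omega)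
  · rw [hGt]
    show DepC c i (if h : ∃ ν, B' ν ∧ ptr F J ν = y then
      afp (bt F h.choose) (F.x h.choose (c i)) (grd (Gp y) (bt F h.choose)) else 0)
    split_ifs with h
    · exact dep_afp _ _ (hgrd _ _)
    · intro b b' _ _
      rw [map_zero, map_zero]
  · obtain ⟨ν, hν, hpt, hGν⟩ := hrep ω hω
    exact key ω ν hω hν hpt hGν
  · refine (hB'3 ω hω V hV τ hτ).trans (mul_le_mul_of_nonneg_right ?_ (nrm_nonneg _ _ _ _ _ _ _))
    exact mul_le_mul_of_nonneg_right (pow_le_pow_right₀ (by norm_num) (by omega)) hε₃.le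

/-- **A closed plain gradient gives a label**, affine in the space. -/
theorem sta_lab (m D₁ D i : ℕ) : ∃ C : ℕ, 1 ≤ C ∧ ∀ {J : ℕ} {F : Fam m J} {c : ℕ → Fin m}
    {w k K q : ℕ} {gN gT E : ℕ → ℕ} {ε₁ ε₂ ε₃ L θ : ℝ} {B : F.Ω → Prop}
    {T : PtT F → ℕ → MvPolynomial (Option (Fin m)) ℝ}
    {TH : LnT F → ℕ → MvPolynomial (Option (Fin m)) ℝ}
    {Gp : PtT F → MvPolynomial (Option (Fin m)) ℝ} {lam : LnT F → ℕ → Polynomial ℝ}
    (hB : 0 < Pe F.p B), Set.InjOn c (Set.Iio i) → w ≤ J → w ≤ K → 0 ≤ ε₁ → 0 ≤ ε₂ → 0 < ε₃ →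
    0 ≤ θ → (Fam.sub F B hB).Tm θ → C * (θ + 1) ≤ ((J : ℝ) - w) * Real.log 2 →
    Real.exp (C * (θ + 1)) ≤ 2 ^ k →
    (∀ s l, (TH s l).totalDegree ≤ D) → (∀ s l, DepC c l (TH s l)) →
    (∀ l < i, E l + q + C ≤ J) → q + C ≤ J →
    StaD F c i D₁ w K gN gT E ε₁ ε₂ ε₃ L B T TH Gp lam →
    ∃ (B' : F.Ω → Prop) (Gt : PtT F → MvPolynomial (Option (Fin m)) ℝ)
      (Ht : LnT F → MvPolynomial (Option (Fin m)) ℝ), Sub B' B ∧ Pe F.p B / 2 ≤ Pe F.p B' ∧
      (∀ y, (Gt y).totalDegree ≤ C) ∧ (∀ s, (Ht s).totalDegree ≤ C) ∧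
      (∀ y, DepC c i (Gt y)) ∧ (∀ s, DepC c i (Ht s)) ∧ ∀ ω, B' ω →
      |F.x ω (c i) - eval (bt F ω) (Gt (ptr F J ω))| ≤ 1 / 2 ^ q ∧
      (∀ b, NBx c (T (ptr F J ω)) gT K (F.t ω) i b →
        |eval b (Gt (ptr F J ω)) - eval b (Ht (slam F w ω))| ≤
          1 / 2 ^ q + ε₂ / 2 ^ K + L * (2 * ε₁ + 2 ^ (k + C) * (ε₃ * 2 ^ w / 2 ^ K))) ∧
      ∀ b, ∀ l < i, |eval b (pderiv (some (c l)) (Gt (ptr F J ω)))| ≤ 2 ^ E l := by
  obtain ⟨C, hC, h⟩ := sta_lab' m D₁ D i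
  refine ⟨C, hC, ?_⟩
  intro J F c w k K q gN gT E ε₁ ε₂ ε₃ L θ B T TH Gp lam hB hc hw hwK hε₁ hε₂ hε₃ hθ hTm hJ hexp
    hTd hTp hE hqJ hD
  obtain ⟨B', Gt, h1, h2, h3, h4, h5, h6, h7, -⟩ := h hB hc hw hwK hε₁ hε₂ hε₃ hθ hTm hJ hexp
    hTd hTp hE hqJ hD
  exact ⟨B', Gt, fun s => nuH c w i (lnP c) lam s, h1, h2, h3, h4, h5, h6, h7⟩

/-- **No closed plain gradient above the threshold**, in a class. -/
theorem sta_no (D₁ D i : ℕ) : ∃ C : ℕ, 1 ≤ C ∧ D ≤ C ∧ ∀ {θ : ℝ} {S : PCl m}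
    {P : List (Fin m) × Fin m → ℝ → ℝ → ℝ} (_ : ThrOf (chsys m θ) S P) (_ : TmH S)
    (c : ℕ → Fin m) (_ : Set.InjOn c (Set.Iio i)) (a w : ℚ) (e h ε : ℝ) (_ : 0 ≤ w)
    (_ : w ≤ a) (_ : a ≤ 1) (_ : w < 1) (_ : e < θ * w) (_ : 0 < h) (_ : 0 < ε)
    (_ : bet P c i a w + h ≤ 1),
    ∃ δ : ℝ, 0 < δ ∧ Bas S (fun J F A => ∀ (a₀ w₀ e₀ k p : ℕ) (Kv gN gT E : ℕ → ℕ)
      (ε₁ ε₂ ε₃ L : ℝ) (B : F.Ω → Prop) (T : PtT F → ℕ → MvPolynomial (Option (Fin m)) ℝ)
      (TH : LnT F → ℕ → MvPolynomial (Option (Fin m)) ℝ)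
      (Gp : PtT F → MvPolynomial (Option (Fin m)) ℝ) (lam : LnT F → ℕ → Polynomial ℝ),
      w₀ ≤ a₀ → a₀ ≤ ⌊(a : ℝ) * J⌋₊ → w₀ ≤ ⌊(w : ℝ) * J⌋₊ → e₀ ≤ ⌊e * J⌋₊ → ε * J ≤ k →
      (∀ l, Kv l ≤ D) → (∀ l < i, gT l ≤ J) → p + 1 + C ≤ J →
      ⌊(bet P c i a w + h) * J⌋₊ + a₀ ≤ p + ⌊(a : ℝ) * J⌋₊ →
      (∀ l < i, E l ≤ e₀ + nlp (fun j => if j < i then gT j else p) l i) →
      (∀ l < i, E l + (p + 1) + C ≤ J) → 0 ≤ ε₁ → 0 ≤ ε₂ → 0 < ε₃ →
      ε₂ / 2 ^ a₀ + L * (2 * ε₁ + 2 ^ (k + C) * (ε₃ * 2 ^ w₀ / 2 ^ a₀)) ≤ 1 / 2 ^ (p + 1) →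
      Sub B A → ChOK F c i Kv a₀ w₀ e₀ gT B T TH →
      StaD F c i D₁ w₀ a₀ gN gT E ε₁ ε₂ ε₃ L B T TH Gp lam →
      Pe F.p B ≤ Real.exp (-(δ * J)) * Pe F.p A) := by
  obtain ⟨C', hC', hfin⟩ := sta_lab m D₁ D i
  obtain ⟨C, hCe⟩ : ∃ C, C = C' + D := ⟨_, rfl⟩
  refine ⟨C, by omega, by omega, ?_⟩
  intro θ S P hP hS c hc a w e h ε hw hwa ha hw1 he hh hε hbet
  obtain ⟨δ₁, hδ₁, τ₁, hτ₁, J₁, hlab⟩ := Pool.NLB46.lab_ev hP c i C a w e h hw hwa ha he hh hbet
  have hL2 : 0 < Real.log 2 := Real.log_pos (by norm_num)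
  have hC0 : (0 : ℝ) < C' := by exact_mod_cast hC'
  have hC1 : (1 : ℝ) ≤ C' := by exact_mod_cast hC'
  have hwR : (w : ℝ) < 1 := by exact_mod_cast hw1
  have hw0R : (0 : ℝ) ≤ w := by exact_mod_cast hw
  -- the time deficit
  obtain ⟨η, hη⟩ : ∃ η : ℝ, η = min (ε * Real.log 2 / (2 * C'))
      ((1 - w) * Real.log 2 / (2 * C')) := ⟨_, rfl⟩
  have hη0 : 0 < η := by
    rw [hη]
    exact lt_min (by positivity) (div_pos (mul_pos (by linarith) hL2) (by positivity))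
  have hη1 : 2 * C' * η ≤ ε * Real.log 2 := by
    have : η ≤ ε * Real.log 2 / (2 * C') := by rw [hη]; exact min_le_left _ _
    rw [le_div_iff₀ (by positivity)] at this
    linarith
  have hη2 : 2 * C' * η ≤ (1 - w) * Real.log 2 := by
    have : η ≤ (1 - w) * Real.log 2 / (2 * C') := by rw [hη]; exact min_le_right _ _
    rw [le_div_iff₀ (by positivity)] at this
    linarith
  obtain ⟨τ₂, hτ₂, J₂, htm⟩ := hS.2 η hη0
  obtain ⟨J₃, hJ₃⟩ := exists_nat_gt (1 / η)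
  obtain ⟨J₄, hJ₄⟩ := exists_nat_gt (2 * Real.log 2 / δ₁)
  obtain ⟨δ, hδ⟩ : ∃ δ : ℝ, δ = min (δ₁ / 2) (τ₂ / 2) := ⟨_, rfl⟩
  have hδ0 : 0 < δ := by rw [hδ]; exact lt_min (by linarith) (by linarith)
  have hδ1 : δ ≤ δ₁ / 2 := by rw [hδ]; exact min_le_left _ _
  have hδ2 : δ ≤ τ₂ / 2 := by rw [hδ]; exact min_le_right _ _
  refine ⟨δ, hδ0, min τ₁ (τ₂ - δ), lt_min hτ₁ (by linarith), max (max J₁ J₂) (max J₃ J₄), ?_⟩
  intro J hJ F A hA a₀ w₀ e₀ k p Kv gN gT E ε₁ ε₂ ε₃ L B T TH Gp lam k0 k1 k2 k3 k5 k6 k7 k8 k9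
    k10 k11 k12 k13 k14 k15 hBA hT hD
  by_contra hcon
  push Not at hcon
  have hJ1 : J₁ ≤ J := ((le_max_left _ _).trans (le_max_left _ _)).trans hJ
  have hJ2 : J₂ ≤ J := ((le_max_right _ _).trans (le_max_left _ _)).trans hJ
  have hJ3 : (1 : ℝ) / η < J := hJ₃.trans_le (by
    exact_mod_cast ((le_max_left _ _).trans (le_max_right _ _)).trans hJ)
  have hJ4 : 2 * Real.log 2 / δ₁ < J := hJ₄.trans_le (by
    exact_mod_cast ((le_max_right _ _).trans (le_max_right _ _)).trans hJ)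
  have hJ0 : (0 : ℝ) ≤ J := Nat.cast_nonneg J
  have hp := Pe_nonneg F.isLaw
  have hA1 : S.St τ₁ J F A := S.mono (min_le_left _ _) hA
  have hA2 : S.St (τ₂ - δ) J F A := S.mono (min_le_right _ _) hA
  have hB2 : S.St τ₂ J F B := by
    have h1 := S.res (by linarith) hA2 hBA hcon.le
    rw [show τ₂ - δ + δ = τ₂ by ring] at h1
    exact h1
  have hB0 : 0 < Pe F.p B := hS.1 _ _ _ _ hB2
  have hTm := htm J hJ2 F B hB2 hB0
  have hηJ : 1 ≤ η * J := by
    rw [div_lt_iff₀ hη0] at hJ3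
    linarith
  have hCη : (C' : ℝ) * (η * J + 1) ≤ 2 * C' * η * J := by
    have h1 : (C' : ℝ) * 1 ≤ C' * (η * J) := mul_le_mul_of_nonneg_left hηJ hC0.le
    linarith
  have hfw : (w₀ : ℝ) ≤ w * J := by
    have h3 : (w₀ : ℝ) ≤ ⌊(w : ℝ) * J⌋₊ := by exact_mod_cast k2
    exact h3.trans (Nat.floor_le (mul_nonneg hw0R hJ0))
  obtain ⟨B', Gt, Ht, l1, l2, l3, l4, l5, l6, l7⟩ := hfin (q := p + 1) hB0 hc (by
      have h2 : (w : ℝ) * J ≤ 1 * J := mul_le_mul_of_nonneg_right hwR.le hJ0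
      have h4 : (w₀ : ℝ) ≤ J := by linarith
      exact_mod_cast h4) k0 k12 k13 k14 (mul_nonneg hη0.le hJ0) hTm (by
      refine hCη.trans ?_
      calc 2 * C' * η * J ≤ (1 - w) * Real.log 2 * J := mul_le_mul_of_nonneg_right hη2 hJ0
        _ = (J - w * J) * Real.log 2 := by ring
        _ ≤ (J - w₀) * Real.log 2 := mul_le_mul_of_nonneg_right (by linarith) hL2.le) (by
      have h1 : Real.exp (C' * (η * J + 1)) ≤ Real.exp (ε * J * Real.log 2) := by
        refine Real.exp_le_exp.2 (hCη.trans ?_)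
        calc 2 * C' * η * J ≤ ε * Real.log 2 * J := mul_le_mul_of_nonneg_right hη1 hJ0
          _ = _ := by ring
      refine h1.trans ?_
      have h2 : Real.exp (ε * J * Real.log 2) ≤ Real.exp (k * Real.log 2) :=
        Real.exp_le_exp.2 (mul_le_mul_of_nonneg_right k5 hL2.le)
      refine h2.trans (le_of_eq ?_)
      rw [mul_comm, Real.exp_mul, Real.exp_log (by norm_num : (0 : ℝ) < 2), Real.rpow_natCast])
    (fun s l => (hT.degH s l).trans (k6 l)) hT.depH (fun l hl => by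
      have := k11 l hl
      omega) (by omega) hD
  have hq2 : (1 : ℝ) / 2 ^ (p + 1) + 1 / 2 ^ (p + 1) = 1 / 2 ^ p := by
    rw [pow_succ]
    field_simp
    norm_num
  have hq0 : (0 : ℝ) < 1 / 2 ^ (p + 1) := by positivity
  have hL0 : ∀ ω, B' ω → 0 ≤ L := by
    intro ω hω
    have hx : NBx c (T (ptr F J ω)) gT a₀ (F.t ω) i (bt F ω) := ⟨by
      show |F.t ω - F.t ω| ≤ _
      rw [sub_self, abs_zero]
      positivity, fun l hl => hT.pos ω (l1 ω hω) l hl⟩
    exact (nrm_nonneg _ _ _ _ _ _ _).trans (hD.nru ω (l1 ω hω) _ hx (rt F w₀ ω) (by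
      rw [sub_self, abs_zero]
      positivity))
  have hlb : Pool.NLB46.Lab F c i C a₀ w₀ e₀ p gT T B' Gt Ht :=
    { degG := fun y => (l3 y).trans (by omega)
      degH := fun s => (l4 s).trans (by omega)
      depG := l5
      depH := l6
      pos := fun ω hω => (l7 ω hω).1.trans (by linarith)
      agr := fun ω hω b hb => by
        refine ((l7 ω hω).2.1 b hb).trans ?_
        have h1 := hL0 ω hω
        have h2 : L * (2 * ε₁ + 2 ^ (k + C') * (ε₃ * 2 ^ w₀ / 2 ^ a₀)) ≤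
            L * (2 * ε₁ + 2 ^ (k + C) * (ε₃ * 2 ^ w₀ / 2 ^ a₀)) := by
          refine mul_le_mul_of_nonneg_left (add_le_add le_rfl (mul_le_mul_of_nonneg_right
            (pow_le_pow_right₀ (by norm_num) (by omega)) (by positivity))) h1
        linarith
      lip := fun ω hω b _ l hl => ((l7 ω hω).2.2 b l hl).trans (pow_le_pow_right₀
        (by norm_num) (k10 l hl)) }
  have h1 := hlab J hJ1 F A hA1 a₀ w₀ e₀ p Kv gT T TH Gt Ht k0 k1 k2 k3
    (fun l => (k6 l).trans (by omega)) k7 (by omega) k9 B' (fun ω hω => hBA ω (l1 ω hω))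
    (hT.sub l1) hlb
  have h2 : Pe F.p B ≤ 2 * (Real.exp (-(δ₁ * J)) * Pe F.p A) := by linarith
  have h3 : (2 : ℝ) * Real.exp (-(δ₁ * J)) ≤ Real.exp (-(δ * J)) := by
    have e1 : (2 : ℝ) = Real.exp (Real.log 2) := (Real.exp_log (by norm_num)).symm
    rw [e1, ← Real.exp_add]
    refine Real.exp_le_exp.2 ?_
    rw [div_lt_iff₀ hδ₁] at hJ4
    have h4 : δ * J ≤ δ₁ / 2 * J := mul_le_mul_of_nonneg_right hδ1 hJ0
    linarith
  have h4 : 2 * (Real.exp (-(δ₁ * J)) * Pe F.p A) ≤ Real.exp (-(δ * J)) * Pe F.p A := by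
    rw [← mul_assoc]
    exact mul_le_mul_of_nonneg_right h3 (hp A)
  linarith

end Pool.D2S
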