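import Pool.Agent.H42.D2.NoPk

/-!
# D2: the copies given the closed record span

`NoHyp`: the vector `X` is in no hyperplane which is a function of `z`, with a margin. `span_PL`: then
the copies given `z` span with a margin. `hyp_cls`: the natural velocities of the coordinates of `V0`
are in no hyperplane which is a function of a closed record `z`, i.e. a record which is read from the
point and from the line with its window (class theorem, over `lab_q`, any number of coordinates).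
`span_cls`: hence the copies given `z` span.
-/

set_option autoImplicit false

namespace Pool.D2Con

open Finset Real
open Pool.Agent.H49.Ent Pool.Agent.H32.Dense Pool.STK Pool.K2S Pool.D2A
open Pool.KM7 (P2 P2_isLaw P2_pos)
open Pool.JVE (pe_sum)

/-- **No hyperplanes.** -/
def NoHyp {Ω ζ : Type} [Fintype Ω] {d : ℕ} (q : Ω → ℝ) (X : Ω → Fin d → ℝ) (z : Ω → ζ)
    (η c : ℝ) : Prop :=
  ∀ n : ζ → Fin d → ℝ, (∀ ω, 0 < q ω → (∀ j, |n (z ω) j| ≤ 1) ∧ ∃ j, |n (z ω) j| = 1) →
    law q (fun ω => |∑ j, n (z ω) j * X ω j| ≤ η) True ≤ c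

/-- A normalised vector. -/
theorem nrmd {d : ℕ} {ρ : ℝ} (hρ : 0 < ρ) (hd : 0 < d) (n : Fin d → ℝ) : ∃ n' : Fin d → ℝ,
    (∀ j, |n' j| ≤ 1) ∧ (∃ j, |n' j| = 1) ∧ ((∃ j, ρ ≤ |n j|) → ∀ (X : Fin d → ℝ) (η : ℝ), 0 ≤ η →
      |∑ j, n j * X j| ≤ ρ * η → |∑ j, n' j * X j| ≤ η) := by
  by_cases h : ∃ j, ρ ≤ |n j|
  · obtain ⟨j₀, hj₀⟩ := h
    obtain ⟨j, -, hj⟩ := Finset.exists_max_image (Finset.univ : Finset (Fin d)) (fun j => |n j|)
      ⟨j₀, Finset.mem_univ j₀⟩
    have hN : ρ ≤ |n j| := hj₀.trans (hj j₀ (Finset.mem_univ j₀))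
    have hN0 : 0 < |n j| := hρ.trans_le hN
    refine ⟨fun l => n l / |n j|, fun l => ?_, ⟨j, ?_⟩, fun _ X η hη hX => ?_⟩
    · rw [abs_div, abs_abs, div_le_one hN0]
      exact hj l (Finset.mem_univ l)
    · rw [abs_div, abs_abs, div_self hN0.ne']
    · have e : ∑ l, n l / |n j| * X l = (∑ l, n l * X l) / |n j| := by
        rw [Finset.sum_div]
        exact Finset.sum_congr rfl fun l _ => by ring
      rw [e, abs_div, abs_abs, div_le_iff₀ hN0]
      refine hX.trans ?_
      rw [mul_comm η]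
      exact mul_le_mul_of_nonneg_right hN hη
  · refine ⟨fun _ => 1, fun _ => by norm_num, ⟨⟨0, hd⟩, by norm_num⟩, fun h' => absurd h' h⟩

section NoHyp

variable {Ω ζ : Type} [Fintype Ω] {q : Ω → ℝ} {d : ℕ} {X : Ω → Fin d → ℝ} {z : Ω → ζ} {η c : ℝ}

/-- Vectors of size at least `ρ`. -/
theorem NoHyp.scale (hq : ∀ ω, 0 ≤ q ω) (h : NoHyp q X z η c) (hη : 0 ≤ η) (hd : 0 < d) {ρ : ℝ}
    (hρ : 0 < ρ) (n : ζ → Fin d → ℝ) :
    law q (fun ω => (∃ j, ρ ≤ |n (z ω) j|) ∧ |∑ j, n (z ω) j * X ω j| ≤ ρ * η) True ≤ c := by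
  choose n' h1 h2 h3 using fun t => nrmd hρ hd (n t)
  refine le_trans (law_mono' hq fun ω _ hω => ?_) (h n' fun ω _ => ⟨h1 _, h2 _⟩)
  exact h3 _ hω.1 _ _ hη hω.2

theorem NoHyp.mono_le (h : NoHyp q X z η c) {c' : ℝ} (hc : c ≤ c') : NoHyp q X z η c' :=
  fun n hn => (h n hn).trans hc

theorem NoHyp.mono_eta (hq : ∀ ω, 0 ≤ q ω) (h : NoHyp q X z η c) {η' : ℝ} (hη : η' ≤ η) :
    NoHyp q X z η' c :=
  fun n hn => (law_mono' hq fun _ _ hω => hω.trans hη).trans (h n hn)

end NoHyp

/-! ### The leading minors -/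

/-- The first `k` rows are the vectors of `g`. -/
def Am {d : ℕ} (k : ℕ) (g : Fin d → Fin d → ℝ) : Matrix (Fin d) (Fin d) ℝ :=
  fun i => if i.val < k then g i else Pi.single i 1

theorem Am_zero {d : ℕ} (g : Fin d → Fin d → ℝ) : (Am 0 g).det = 1 := by
  have h : Am 0 g = 1 := by
    ext i j
    unfold Am
    rw [if_neg (Nat.not_lt_zero _), Matrix.one_apply, Pi.single_apply]
    by_cases h : i = j
    · rw [if_pos h, if_pos h.symm]
    · rw [if_neg h, if_neg (Ne.symm h)]
  rw [h, Matrix.det_one]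

theorem Am_top {d : ℕ} (g : Fin d → Fin d → ℝ) : Am d g = Matrix.of g := by
  funext i
  unfold Am
  rw [if_pos i.isLt]
  rfl

/-- The form of the next row. -/
noncomputable def nm {d : ℕ} (k : ℕ) (g : Fin d → Fin d → ℝ) (i : Fin d) (j : Fin d) : ℝ :=
  (Am k g).adjugate j i

theorem Am_updateRow {d : ℕ} (g : Fin d → Fin d → ℝ) (i : Fin d) (b : Fin d → ℝ) :
    (Am (i.val + 1) g).updateRow i b = (Am i.val g).updateRow i b := by
  funext l
  by_cases h : l = i
  · subst h
    rw [Matrix.updateRow_self, Matrix.updateRow_self]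
  · rw [Matrix.updateRow_ne h, Matrix.updateRow_ne h]
    unfold Am
    have h1 : l.val ≠ i.val := fun h2 => h (Fin.ext h2)
    by_cases h2 : l.val < i.val
    · rw [if_pos h2, if_pos (by omega)]
    · rw [if_neg h2, if_neg (by omega)]

/-- The next minor is a linear form of the next vector. -/
theorem det_succ {d : ℕ} (g : Fin d → Fin d → ℝ) (i : Fin d) :
    (Am (i.val + 1) g).det = ∑ j, nm i.val g i j * g i j := by
  rw [Matrix.det_eq_sum_mul_adjugate_row _ i]
  refine Finset.sum_congr rfl fun j _ => ?_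
  have h1 : Am (i.val + 1) g i j = g i j := by
    unfold Am
    rw [if_pos (Nat.lt_succ_self _)]
  rw [h1, mul_comm]
  congr 1
  unfold nm
  rw [Matrix.adjugate_apply, Matrix.adjugate_apply, Am_updateRow]

/-- The coefficient of the form is the minor. -/
theorem nm_self {d : ℕ} (g : Fin d → Fin d → ℝ) (i : Fin d) :
    nm i.val g i i = (Am i.val g).det := by
  unfold nm
  rw [Matrix.adjugate_apply]
  congr 1
  have h1 : Am i.val g i = Pi.single i 1 := by
    unfold Am
    rw [if_neg (lt_irrefl _)]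
  conv_rhs => rw [← Matrix.updateRow_eq_self (Am i.val g) i]
  rw [h1]

/-- The minor depends on the first vectors only. -/
theorem Am_congr {d k : ℕ} {g g' : Fin d → Fin d → ℝ} (h : ∀ i : Fin d, i.val < k → g i = g' i) :
    Am k g = Am k g' := by
  funext i
  unfold Am
  by_cases h1 : i.val < k
  · rw [if_pos h1, if_pos h1, h i h1]
  · rw [if_neg h1, if_neg h1]

section copies

variable {Ω ζ σ : Type} [Fintype Ω] {q : Ω → ℝ} {d N : ℕ} {X : Ω → Fin d → ℝ} {z : Ω → ζ} {η c : ℝ}

/-- The leading minors of the copies of one side. -/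
theorem span_min (hq : IsLaw q) (h : NoHyp q X z η c) (hη : 0 < η) (S : Ω → σ)
    (sd : Fin N → Bool) (b : Bool) (js : Fin d → Fin N) (hjs : Function.Injective js)
    (hsd : ∀ k, sd (js k) = b) (k : ℕ) (hk : k ≤ d) :
    law (PL q S z sd) (fun w => |(Am k (fun i => X (cp sd (js i) w))).det| < η ^ k) True ≤
      k * c := by
  classical
  have hPL := PL_isLaw hq S z sd
  induction k with
  | zero =>
    rw [Nat.cast_zero, zero_mul]
    have h1 : law (PL q S z sd) (fun w => |(Am 0 (fun i => X (cp sd (js i) w))).det| < η ^ 0)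
        True ≤ law (PL q S z sd) (fun _ => False) True := law_mono' hPL.nonneg fun w _ hw => by
      rw [Am_zero, abs_one, pow_zero] at hw
      exact lt_irrefl _ hw
    refine h1.trans ?_
    have h2 : law (PL q S z sd) (fun _ => False) True = 0 := by
      unfold law
      exact Finset.sum_eq_zero fun w _ => by rw [if_neg (by simp)]
    rw [h2]
  | succ k ih =>
    have hk' : k < d := hk
    have ih' := ih hk'.le
    -- the first copies
    have hd : 0 < d := by omega
    obtain ⟨i, hi⟩ : ∃ i : Fin d, i.val = k := ⟨⟨k, hk'⟩, rfl⟩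
    obtain ⟨jr, hjr⟩ : ∃ jr : Fin k → Fin N, jr = fun l => js ⟨l.val, l.isLt.trans hk'⟩ := ⟨_, rfl⟩
    obtain ⟨ex, hex⟩ : ∃ ex : (Fin k → Ω) → Ω → Fin d → Fin d → ℝ, ex = fun g ω (l : Fin d) =>
      if hl : l.val < k then X (g ⟨l.val, hl⟩) else X ω := ⟨_, rfl⟩
    have hw : ∀ (w : (Ω × Ω) × (Fin N → Ω × Ω)) (k' : ℕ), k' ≤ k + 1 →
        Am k' (fun i => X (cp sd (js i) w)) =
          Am k' (ex (fun l => cp sd (jr l) w) (cp sd (js i) w)) := by
      intro w k' hk'
      refine Am_congr fun l hl => ?_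
      rw [hex, hjr]
      by_cases h1 : l.val < k
      · simp only [dif_pos h1]
      · have h2 : l = i := Fin.ext (by omega)
        simp only [dif_neg h1]
        rw [h2]
    have hnx : ∀ (g : Fin k → Ω) (ω ω' : Ω), Am k (ex g ω) = Am k (ex g ω') := by
      intro g ω ω'
      refine Am_congr fun l hl => ?_
      rw [hex]
      simp only [dif_pos hl]
    obtain ⟨f, hf⟩ := cop_max (M := k) hq S z sd b jr (js i) (by
      intro x y hxy
      have hne : ∀ l : Fin k, jr l ≠ js i := by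
        intro l hl
        rw [hjr] at hl
        have h1 := Fin.ext_iff.mp (hjs hl)
        have h2 := l.isLt
        simp only at h1
        omega
      revert hxy
      refine Fin.cases ?_ (fun x => ?_) x
      · refine Fin.cases ?_ (fun y => ?_) y
        · intro _
          rfl
        · rw [Fin.cons_zero, Fin.cons_succ]
          intro hxy
          exact absurd hxy.symm (hne y)
      · refine Fin.cases ?_ (fun y => ?_) y
        · rw [Fin.cons_zero, Fin.cons_succ]
          intro hxy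
          exact absurd hxy (hne x)
        · rw [Fin.cons_succ, Fin.cons_succ]
          intro hxy
          rw [hjr] at hxy
          have h1 := Fin.ext_iff.mp (hjs hxy)
          simp only at h1
          rw [Fin.ext h1]) (fun l => by
      rw [hjr]
      exact hsd _) (hsd i) (fun g ω => η ^ k ≤ |(Am k (ex g ω)).det| ∧
        |(Am (k + 1) (ex g ω)).det| ≤ η ^ k * η)
    have h1 : law q (fun ω => η ^ k ≤ |(Am k (ex (f (z ω)) ω)).det| ∧
        |(Am (k + 1) (ex (f (z ω)) ω)).det| ≤ η ^ k * η) True ≤ c := by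
      obtain ⟨nv, hnv⟩ : ∃ nv : ζ → Fin d → ℝ, nv = fun t j =>
        nm k (fun l => if hl : l.val < k then X (f t ⟨l.val, hl⟩) else 0) i j := ⟨_, rfl⟩
      refine (law_mono' hq.nonneg (fun ω hω hG => ?_)).trans
        (h.scale hq.nonneg hη.le hd (pow_pos hη k) nv)
      have hAk : Am k (ex (f (z ω)) ω) = Am k (fun l => if hl : l.val < k then
          X (f (z ω) ⟨l.val, hl⟩) else 0) := by
        refine Am_congr fun l hl => ?_
        rw [hex]
        simp only [dif_pos hl]
      obtain ⟨g1, g2⟩ := hG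
      have hnve : ∀ j, nv (z ω) j = nm k (ex (f (z ω)) ω) i j := by
        intro j
        rw [hnv]
        unfold nm
        rw [hAk]
      refine ⟨⟨i, ?_⟩, ?_⟩
      · rw [hnve]
        have h2 := nm_self (ex (f (z ω)) ω) i
        rw [hi] at h2
        rw [h2]
        exact g1
      · have h2 := det_succ (ex (f (z ω)) ω) i
        rw [hi] at h2
        have h3 : ex (f (z ω)) ω i = X ω := by
          rw [hex]
          simp only [hi, lt_irrefl, dite_false]
        rw [h3] at h2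
        rw [Finset.sum_congr rfl fun j _ => by rw [hnve j], ← h2]
        exact g2
    have h2 := law_or hPL.nonneg
      (fun w => |(Am (k + 1) (fun i => X (cp sd (js i) w))).det| < η ^ (k + 1))
      (fun w => |(Am k (fun i => X (cp sd (js i) w))).det| < η ^ k)
      (fun w => η ^ k ≤ |(Am k (ex (fun l => cp sd (jr l) w) (cp sd (js i) w))).det| ∧
        |(Am (k + 1) (ex (fun l => cp sd (jr l) w) (cp sd (js i) w))).det| ≤ η ^ k * η)
      (fun w _ hG => by
        rcases lt_or_ge (|(Am k (fun i => X (cp sd (js i) w))).det|) (η ^ k) with h3 | h3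
        · exact Or.inl h3
        · right
          rw [← hw w k (Nat.le_succ k), ← hw w (k + 1) le_rfl, ← pow_succ]
          exact ⟨h3, hG.le⟩)
    have h3 : ((k + 1 : ℕ) : ℝ) * c = k * c + c := by
      push_cast
      ring
    rw [h3]
    exact h2.trans (add_le_add ih' (hf.trans h1))

/-- **The copies of one side span.** -/
theorem span_PL (hq : IsLaw q) (h : NoHyp q X z η c) (hη : 0 < η) (S : Ω → σ)
    (sd : Fin N → Bool) (b : Bool) (js : Fin d → Fin N) (hjs : Function.Injective js)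
    (hsd : ∀ k, sd (js k) = b) :
    law (PL q S z sd) (fun w => |(Matrix.of (fun i => X (cp sd (js i) w))).det| < η ^ d) True ≤
      d * c := by
  have h1 := span_min hq h hη S sd b js hjs hsd d le_rfl
  simp only [Am_top] at h1
  exact h1

open Classical in
/-- **The copies given the record span.** -/
theorem span_cop (hq : IsLaw q) (h : NoHyp q X z η c) (hη : 0 < η) :
    ∑ ω, q ω * ∑ g : Fin d → Ω, (∏ k, cond q z (z ω) (g k)) *
      (if |(Matrix.of (fun i => X (g i))).det| < η ^ d then 1 else 0) ≤ d * c := by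
  have h1 := span_PL hq h hη (fun _ : Ω => ()) (fun _ : Fin d => true) true id
    Function.injective_id fun _ => rfl
  rw [own_eq hq (fun _ : Ω => ()) z (fun _ : Fin d => true) true id Function.injective_id
    (fun _ => rfl) (fun g _ => |(Matrix.of (fun i => X (g i))).det| < η ^ d)] at h1
  exact h1

end copies

/-! ### Classes -/

section cls

open Pool.KA Pool.KSAT Pool.PB Pool.S6C Pool.GEN Pool.CHT Pool.D2F
open Pool.LBT (ThrOf)

variable {m : ℕ}

/-- The vector with the entries `v l`, `l < L`, at the places `idx l`. -/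
noncomputable def muI {d : ℕ} (idx : Fin d → ℕ) (L : Fin d) (v : Fin d → ℝ) (j : ℕ) : ℝ :=
  ∑ l, if idx l = j ∧ l < L then v l else 0

theorem ln_muI {d : ℕ} {idx : Fin d → ℕ} {L : Fin d} {i : ℕ} (hi : ∀ l < L, idx l ≤ i)
    (v : Fin d → ℝ) (η : ℕ → ℝ) :
    ln i (muI idx L v) η = ∑ l, if l < L then v l * η (idx l) else 0 := by
  classical
  unfold ln muI
  simp only [Finset.sum_mul]
  rw [Finset.sum_comm]
  refine Finset.sum_congr rfl fun l _ => ?_
  by_cases hl : l < L
  · rw [if_pos hl, Finset.sum_eq_single (idx l)]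
    · rw [if_pos ⟨rfl, hl⟩]
    · intro j _ hj
      rw [if_neg (fun h => hj h.1.symm), zero_mul]
    · intro h
      exact absurd (Finset.mem_range.2 (Nat.lt_succ_of_le (hi l hl))) h
  · rw [if_neg hl]
    refine Finset.sum_eq_zero fun j _ => ?_
    rw [if_neg (fun h => hl h.2), zero_mul]

theorem muI_le {d : ℕ} {idx : Fin d → ℕ} (hidx : Function.Injective idx) {L : Fin d}
    {v : Fin d → ℝ} {B : ℝ} (hB : 0 ≤ B) (hv : ∀ l < L, |v l| ≤ B) (j : ℕ) :
    |muI idx L v j| ≤ B := by
  classical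
  unfold muI
  by_cases h : ∃ l, idx l = j ∧ l < L
  · obtain ⟨l, h1, h2⟩ := h
    rw [Finset.sum_eq_single l]
    · rw [if_pos ⟨h1, h2⟩]
      exact hv l h2
    · intro l' _ hl'
      rw [if_neg (fun h3 => hl' (hidx (h3.1.trans h1.symm)))]
    · intro h3
      exact absurd (Finset.mem_univ l) h3
  · rw [Finset.sum_eq_zero fun l _ => if_neg fun h1 => h ⟨l, h1⟩, abs_zero]
    exact hB

/-- The vector `(1, X)` of the natural velocities of the coordinates `c (ι l)`. -/
noncomputable def Xv {J : ℕ} (F : Fam m J) (c : ℕ → Fin m) (g : ℕ → ℕ) (a : ℕ) {r : ℕ}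
    (ι : Fin r → ℕ) (ψ : PtT F → ℕ → Option (Fin m) → ℝ) (ω : F.Ω) : Fin (r + 1) → ℝ :=
  fun l => Xn F c g a ψ ω ((Fin.cons 0 (fun l => ι l + 1) : Fin (r + 1) → ℕ) l)

/-- A positive lower bound. -/
theorem fin_pos {r : ℕ} (f : Fin r → ℝ) (hf : ∀ l, 0 < f l) : ∃ x : ℝ, 0 < x ∧ ∀ l, x ≤ f l := by
  induction r with
  | zero => exact ⟨1, one_pos, fun l => l.elim0⟩
  | succ r ih =>
    obtain ⟨x, hx, h1⟩ := ih (fun l => f l.succ) fun l => hf _
    refine ⟨min x (f 0), lt_min hx (hf 0), fun l => ?_⟩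
    refine Fin.cases ?_ (fun l => ?_) l
    · exact min_le_right _ _
    · exact (min_le_left _ _).trans (h1 l)

/-- **The natural velocities of `V0` are in no closed hyperplane.** -/
theorem hyp_cls {θ : ℝ} {S : PCl m} {P : List (Fin m) × Fin m → ℝ → ℝ → ℝ}
    (hP : ThrOf (chsys m θ) S P) (c : ℕ → Fin m) {r : ℕ} (ι : Fin r → ℕ) (hι : StrictMono ι)
    (hc : ∀ l, Set.InjOn c (Set.Iio (ι l + 1)))
    (a : ℚ) (e h : ℝ) (ha0 : 0 ≤ a) (ha : a ≤ 1) (he : e < θ * a) (hh : 0 < h)
    (h1 : ∀ l, bet P c (ι l) a a + h ≤ 1) :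
    ∃ δ : ℝ, 0 < δ ∧ Bas S (fun J F A => ∀ (n a₀ e₀ e' k s V : ℕ) (p : Fin r → ℕ) (g : ℕ → ℕ)
      (ψ : PtT F → ℕ → Option (Fin m) → ℝ) (ψH : LnT F → ℕ → Option (Fin m) → ℝ),
      (∀ l, NumL J (bet P c (ι l) a a + h) a e (ι l) n a₀ e₀ e' k s V (p l) g) →
      ∀ (q : F.Ω → ℝ) (M : ℝ), IsLaw q → 0 ≤ M → (∀ ω, 0 < q ω → A ω) →
      (∀ ω, q ω * Pe F.p A ≤ M * F.p ω) →
      FrOK F c n a₀ k e₀ g (fun ω => 0 < q ω) ψ ψH →
      ∀ (ζ : Type) (z : F.Ω → ζ) (w : F.Ω → Fin (r + 1) → ℝ), Det q (fun ω => ptr F J ω) z →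
      Det q (slam F a₀) z →
      ∀ (δ₀ ν η : ℝ), 0 ≤ δ₀ → (∀ ω, 0 < q ω → ∀ l, |w ω l - Xv F c g a₀ ι ψ ω l| ≤ δ₀) →
      0 < ν → ν ≤ 1 → 0 ≤ η → 1 ≤ ν ^ r * 2 ^ e' →
      (r + 1) * (δ₀ + ν * 2 ^ k) + η < 1 →
      (∀ l, ((r + 1) * (δ₀ / ν ^ r + ν * 2 ^ k) + η / ν ^ r) *
        2 ^ (2 * (ι l + 1) + 2 * k + 6 + s) ≤ 1) →
      NoHyp q w z η (r * (M * Real.exp (-(δ * J))))) := by
  classical
  choose δl hδl τl hτl Jl hvl using fun l => lab_q hP c (ι l) (hc l) a e h ha0 ha he hh (h1 l)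
  obtain ⟨δ, hδ, hδle⟩ := fin_pos δl hδl
  obtain ⟨τ, hτ, hτle⟩ := fin_pos τl hτl
  refine ⟨δ, hδ, τ, hτ, Finset.univ.sup Jl, ?_⟩
  intro J hJ F A hA n a₀ e₀ e' k s V p g ψ ψH N q M hq hM hqA hqM hfr ζ z w hzp hzs δ₀ ν η hδ₀ hw hν
    hν1 hη hνe ha1 hb1 nv hnv
  have hJl : ∀ l, J ≥ Jl l := fun l => (Finset.le_sup (Finset.mem_univ l)).trans hJ
  have hJ0 : (0 : ℝ) ≤ J := Nat.cast_nonneg J
  obtain ⟨idx, hidx⟩ : ∃ idx : Fin (r + 1) → ℕ, idx = Fin.cons 0 (fun l => ι l + 1) := ⟨_, rfl⟩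
  have hi0 : idx 0 = 0 := by rw [hidx, Fin.cons_zero]
  have his : ∀ l : Fin r, idx l.succ = ι l + 1 := fun l => by rw [hidx, Fin.cons_succ]
  have hmono : StrictMono idx := by
    intro x y hxy
    revert hxy
    refine Fin.cases ?_ (fun y => ?_) y
    · intro hxy
      exact absurd hxy (Fin.not_lt_zero x)
    · refine Fin.cases ?_ (fun x => ?_) x
      · intro _
        rw [hi0, his]
        exact Nat.succ_pos _
      · intro hxy
        rw [his, his]
        exact Nat.succ_lt_succ (hι (Fin.succ_lt_succ_iff.mp hxy))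
  have hXv : ∀ ω l, Xv F c g a₀ ι ψ ω l = Xn F c g a₀ ψ ω (idx l) := by
    intro ω l
    rw [hidx]
    rfl
  have hX0 : ∀ ω, Xn F c g a₀ ψ ω (idx 0) = 1 := by
    intro ω
    rw [hi0, Xn_zero]
  have hXk : ∀ ω, 0 < q ω → ∀ l, |Xn F c g a₀ ψ ω (idx l)| ≤ 2 ^ k := by
    intro ω hω l
    refine Fin.cases ?_ (fun l => ?_) l
    · rw [hX0, abs_one]
      exact one_le_pow₀ (by norm_num)
    · rw [his]
      exact Xn_le hfr hω (N l).iin
  have hνr : 0 < ν ^ r := pow_pos hν r
  have hk0 : (0 : ℝ) < 2 ^ k := by positivity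
  -- the selected coordinate
  obtain ⟨G, hG⟩ : ∃ G : F.Ω → Prop, G = fun ω => |∑ j, nv (z ω) j * w ω j| ≤ η := ⟨_, rfl⟩
  obtain ⟨Gl, hGl⟩ : ∃ Gl : Fin r → F.Ω → Prop, Gl = fun l ω => G ω ∧
    ν ^ (l.succ).val ≤ |nv (z ω) l.succ| ∧ ∀ l', l.succ < l' → |nv (z ω) l'| < ν ^ l'.val :=
    ⟨_, rfl⟩
  have hcov : ∀ ω, 0 < q ω → G ω → ∃ l, Gl l ω := by
    intro ω hω hGω
    by_cases hex : ∃ l : Fin r, ν ^ (l.succ).val ≤ |nv (z ω) l.succ|
    · obtain ⟨l₀, hl₀⟩ := hex
      obtain ⟨l, hl1, hl2⟩ := Finset.exists_max_image (Finset.univ.filter (fun l : Fin r =>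
        ν ^ (l.succ).val ≤ |nv (z ω) l.succ|)) (fun l => l) ⟨l₀, by
          rw [Finset.mem_filter]
          exact ⟨Finset.mem_univ _, hl₀⟩⟩
      rw [Finset.mem_filter] at hl1
      refine ⟨l, ?_⟩
      rw [hGl]
      refine ⟨hGω, hl1.2, fun l' hl' => ?_⟩
      by_contra hcon
      rw [not_lt] at hcon
      revert hl' hcon
      refine Fin.cases ?_ (fun l' => ?_) l'
      · intro hl' _
        exact absurd hl' (Fin.not_lt_zero _)
      · intro hl' hcon
        have h3 := hl2 l' (by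
          rw [Finset.mem_filter]
          exact ⟨Finset.mem_univ _, hcon⟩)
        exact absurd (Fin.succ_lt_succ_iff.mp hl') (not_lt.mpr h3)
    · exfalso
      push Not at hex
      have h3 : ∀ l : Fin r, |nv (z ω) l.succ| ≤ ν := by
        intro l
        refine (hex l).le.trans ?_
        have : (l.succ).val = l.val + 1 := rfl
        rw [this, pow_succ]
        have h4 : ν ^ l.val ≤ 1 := pow_le_one₀ hν.le hν1
        calc ν ^ l.val * ν ≤ 1 * ν := mul_le_mul_of_nonneg_right h4 hν.le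
          _ = ν := one_mul ν
      obtain ⟨h5, j, h6⟩ := hnv ω hω
      have hr0 : (0 : ℝ) ≤ r := Nat.cast_nonneg r
      have hk1 : (1 : ℝ) ≤ 2 ^ k := one_le_pow₀ (by norm_num)
      have h7 : |nv (z ω) 0| = 1 := by
        revert h6
        refine Fin.cases ?_ (fun l => ?_) j
        · exact id
        · intro h6
          exfalso
          have h7 := h3 l
          rw [h6] at h7
          have h8 : ν * 1 ≤ ν * 2 ^ k := mul_le_mul_of_nonneg_left hk1 hν.le
          have h9 : 0 ≤ r * (δ₀ + ν * 2 ^ k) := by positivity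
          linarith only [h7, h8, h9, ha1, hη, hδ₀]
      have hwX : ∀ l, |w ω l - Xn F c g a₀ ψ ω (idx l)| ≤ δ₀ := fun l => by
        rw [← hXv]
        exact hw ω hω l
      have h8 : |nv (z ω) 0| ≤ |∑ j, nv (z ω) j * w ω j| + (r + 1) * (δ₀ + ν * 2 ^ k) := by
        have e1 : nv (z ω) 0 = (∑ j, nv (z ω) j * w ω j) -
            (nv (z ω) 0 * (w ω 0 - 1) + ∑ l : Fin r, nv (z ω) l.succ * w ω l.succ) := by
          rw [Fin.sum_univ_succ]
          ring
        have h9 : |nv (z ω) 0 * (w ω 0 - 1) + ∑ l : Fin r, nv (z ω) l.succ * w ω l.succ| ≤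
            (r + 1) * (δ₀ + ν * 2 ^ k) := by
          refine (abs_add_le _ _).trans ?_
          have h10 : |nv (z ω) 0 * (w ω 0 - 1)| ≤ δ₀ + ν * 2 ^ k := by
            rw [abs_mul, h7, one_mul]
            have := hwX 0
            rw [hX0] at this
            have h11 : 0 ≤ ν * 2 ^ k := by positivity
            linarith only [this, h11]
          have h12 : |∑ l : Fin r, nv (z ω) l.succ * w ω l.succ| ≤ r * (δ₀ + ν * 2 ^ k) := by
            refine (Finset.abs_sum_le_sum_abs _ _).trans ?_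
            have h13 : ∀ l ∈ (Finset.univ : Finset (Fin r)), |nv (z ω) l.succ * w ω l.succ| ≤
                δ₀ + ν * 2 ^ k := by
              intro l _
              have h14 := hwX l.succ
              have h15 := hXk ω hω l.succ
              have h16 : |w ω l.succ| ≤ δ₀ + 2 ^ k := by
                have := abs_add_le (w ω l.succ - Xn F c g a₀ ψ ω (idx l.succ))
                  (Xn F c g a₀ ψ ω (idx l.succ))
                rw [sub_add_cancel] at this
                linarith only [this, h14, h15]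
              rw [abs_mul]
              calc |nv (z ω) l.succ| * |w ω l.succ| ≤ ν * (δ₀ + 2 ^ k) :=
                    mul_le_mul (h3 l) h16 (abs_nonneg _) hν.le
                _ = ν * δ₀ + ν * 2 ^ k := by ring
                _ ≤ 1 * δ₀ + ν * 2 ^ k := by
                    have := mul_le_mul_of_nonneg_right hν1 hδ₀
                    linarith only [this]
                _ = _ := by rw [one_mul]
            refine (Finset.sum_le_sum h13).trans ?_
            rw [Finset.sum_const, Finset.card_univ, Fintype.card_fin, nsmul_eq_mul]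
          linarith only [h10, h12]
        have h17 := abs_sub (∑ j, nv (z ω) j * w ω j)
          (nv (z ω) 0 * (w ω 0 - 1) + ∑ l : Fin r, nv (z ω) l.succ * w ω l.succ)
        rw [← e1] at h17
        linarith only [h17, h9]
      rw [h7] at h8
      rw [hG] at hGω
      have hGω' : |∑ j, nv (z ω) j * w ω j| ≤ η := hGω
      linarith only [h8, hGω', ha1]
  -- each event
  have hlaw : ∀ l, law q (Gl l) True ≤ M * Real.exp (-(δ * J)) := by
    intro l
    obtain ⟨cl, hcl⟩ : ∃ cl, cl = law q (Gl l) True := ⟨_, rfl⟩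
    rw [← hcl]
    rcases le_or_gt cl 0 with hc0 | hc0
    · exact hc0.trans (mul_nonneg hM (Real.exp_pos _).le)
    · have hcle : cl ≤ law q (Gl l) True := hcl.le
      obtain ⟨hq', hsup⟩ := cond_law hq (Gl l) hc0 hcle
      have hdens : ∀ ω, cond q (Gl l) True ω * Pe F.p A ≤ M / cl * F.p ω := fun ω =>
        cond_dens (Gl l) hM F.isLaw.nonneg hqM hc0 hcle ω
      obtain ⟨q', hq'e⟩ : ∃ q' : F.Ω → ℝ, q' = cond q (Gl l) True := ⟨_, rfl⟩
      rw [← hq'e] at hq' hsup hdens
      have hfr' : FrOK F c n a₀ k e₀ g (fun ω => 0 < q' ω) ψ ψH := hfr.sub fun ω hω =>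
        (hsup ω hω).1
      -- the label
      obtain ⟨va, hva⟩ : ∃ va : (Fin (r + 1) → ℝ) → Fin (r + 1) → ℝ, va = fun n l' =>
        -(n l' / n l.succ) := ⟨_, rfl⟩
      obtain ⟨μ, hμ⟩ : ∃ μ : PtT F → ℕ → ℝ, μ = fun y => if hy : ∃ ω, 0 < q' ω ∧ ptr F J ω = y then
        muI idx l.succ (va (nv (z hy.choose))) else fun _ => 0 := ⟨_, rfl⟩
      have hμz : ∀ ω, 0 < q' ω → μ (ptr F J ω) = muI idx l.succ (va (nv (z ω))) := by
        intro ω hω
        have hy : ∃ ω', 0 < q' ω' ∧ ptr F J ω' = ptr F J ω := ⟨ω, hω, rfl⟩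
        rw [hμ]
        simp only [dif_pos hy]
        have h3 : z hy.choose = z ω := hzp _ _ (hsup _ hy.choose_spec.1).1 (hsup _ hω).1
          hy.choose_spec.2
        rw [h3]
      have hμb : ∀ ω, 0 < q' ω → ∀ j ≤ ι l, |μ (ptr F J ω) j| ≤ 2 ^ e' := by
        intro ω hω j _
        rw [hμz ω hω]
        obtain ⟨x1, x2⟩ := hsup ω hω
        rw [hGl] at x2
        obtain ⟨-, x3, -⟩ := x2
        have x4 := (hnv ω x1).1
        refine muI_le hmono.injective (by positivity) (fun l' _ => ?_) j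
        rw [hva]
        simp only
        rw [abs_neg, abs_div]
        have h3 : ν ^ r ≤ |nv (z ω) l.succ| := by
          refine le_trans ?_ x3
          exact pow_le_pow_of_le_one hν.le hν1 (Nat.lt_succ_iff.mp l.succ.isLt)
        have h4 : 0 < |nv (z ω) l.succ| := hνr.trans_le h3
        rw [div_le_iff₀ h4]
        refine (x4 l').trans (hνe.trans ?_)
        rw [mul_comm]
        exact mul_le_mul_of_nonneg_left h3 (by positivity)
      obtain ⟨ε, hε⟩ : ∃ ε, ε = (r + 1) * (δ₀ / ν ^ r + ν * 2 ^ k) + η / ν ^ r := ⟨_, rfl⟩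
      have hε0 : 0 ≤ ε := by
        rw [hε]
        positivity
      have h2 := hvl l J (hJl l) F A (S.mono (hτle l) hA) n a₀ e₀ e' k s V (p l) g ψ ψH (N l) q'
        (M / cl) hq' (div_nonneg hM hc0.le) (fun ω hω => hqA ω (hsup ω hω).1) hdens hfr' μ hμb ε hε0
        (by
          rw [hε]
          exact hb1 l)
      have h3 : Pe (P2 q' (slam F a₀)) (fun x => (∀ j ≤ ι l, |μ (ptr F J x.2) j -
          μ (ptr F J x.1) j| ≤ ε) ∧ |Xn F c g a₀ ψ x.1 (ι l + 1) -
            ln (ι l) (μ (ptr F J x.2)) (Xn F c g a₀ ψ x.1)| ≤ ε) = 1 := by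
        refine law_one (P2_isLaw hq' (slam F a₀)) fun x hx => ?_
        obtain ⟨x1, x2, x3⟩ := (P2_pos hq' x).mp hx
        have e1 : μ (ptr F J x.2) = μ (ptr F J x.1) := by
          rw [hμz _ x1, hμz _ x2, hzs _ _ (hsup _ x1).1 (hsup _ x2).1 x3]
        rw [e1]
        refine ⟨fun j _ => by rw [sub_self, abs_zero]; exact hε0, ?_⟩
        obtain ⟨y1, y2⟩ := hsup _ x1
        rw [hGl, hG] at y2
        obtain ⟨y3, y4, y5⟩ := y2
        have y6 := (hnv _ y1).1
        have hwX : ∀ l, |w x.1 l - Xn F c g a₀ ψ x.1 (idx l)| ≤ δ₀ := fun l => by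
          rw [← hXv]
          exact hw _ y1 l
        have hL : ∀ l' < l.succ, idx l' ≤ ι l := by
          intro l' hl'
          have h3 := hmono hl'
          rw [his] at h3
          exact Nat.lt_succ_iff.mp h3
        rw [hμz _ x1, ln_muI hL, ← his l]
        obtain ⟨nn, hnn⟩ : ∃ nn, nn = nv (z x.1) := ⟨_, rfl⟩
        obtain ⟨XX, hXX⟩ : ∃ XX : Fin (r + 1) → ℝ, XX = fun l => Xn F c g a₀ ψ x.1 (idx l) :=
          ⟨_, rfl⟩
        have hXXe : ∀ l, Xn F c g a₀ ψ x.1 (idx l) = XX l := fun l => by rw [hXX]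
        have hXXk : ∀ l, |XX l| ≤ 2 ^ k := fun l => by
          rw [← hXXe]
          exact hXk _ y1 l
        simp only [hXXe, ← hnn] at y3 y4 y5 y6 hwX ⊢
        rw [hva]
        simp only
        have hnl : ν ^ r ≤ |nn l.succ| := by
          refine le_trans ?_ y4
          exact pow_le_pow_of_le_one hν.le hν1 (Nat.lt_succ_iff.mp l.succ.isLt)
        have hnl0 : 0 < |nn l.succ| := hνr.trans_le hnl
        have hnl' : nn l.succ ≠ 0 := abs_pos.mp hnl0
        -- the identity
        have e2 : XX l.succ - ∑ l', (if l' < l.succ then -(nn l' / nn l.succ) * XX l' else 0) =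
            ((∑ l', nn l' * w x.1 l') - ∑ l', (nn l' * (w x.1 l' - XX l') +
              if l.succ < l' then nn l' * XX l' else 0)) / nn l.succ := by
          rw [eq_div_iff hnl', sub_mul, ← Finset.sum_sub_distrib, Finset.sum_mul]
          have e3 : ∀ l', nn l' * w x.1 l' - (nn l' * (w x.1 l' - XX l') +
              if l.succ < l' then nn l' * XX l' else 0) =
              (if l' = l.succ then XX l.succ * nn l.succ else 0) -
              (if l' < l.succ then -(nn l' / nn l.succ) * XX l' else 0) * nn l.succ := by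
            intro l'
            rcases lt_trichotomy l' l.succ with h3 | h3 | h3
            · rw [if_neg (not_lt.mpr h3.le), if_neg h3.ne, if_pos h3]
              field_simp
              ring
            · rw [h3, if_neg (lt_irrefl _), if_pos rfl, if_neg (lt_irrefl _)]
              ring
            · rw [if_pos h3, if_neg h3.ne', if_neg (not_lt.mpr h3.le)]
              ring
          rw [Finset.sum_congr rfl fun l' _ => e3 l', Finset.sum_sub_distrib,
            Finset.sum_ite_eq' Finset.univ l.succ, if_pos (Finset.mem_univ _)]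
        rw [e2, abs_div, div_le_iff₀ hnl0]
        have h4 : |∑ l', (nn l' * (w x.1 l' - XX l') +
            if l.succ < l' then nn l' * XX l' else 0)| ≤
              (r + 1) * (δ₀ + ν * |nn l.succ| * 2 ^ k) := by
          refine (Finset.abs_sum_le_sum_abs _ _).trans ?_
          have h13 : ∀ l' ∈ (Finset.univ : Finset (Fin (r + 1))), |nn l' * (w x.1 l' - XX l') +
              if l.succ < l' then nn l' * XX l' else 0| ≤ δ₀ + ν * |nn l.succ| * 2 ^ k := by
            intro l' _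
            refine (abs_add_le _ _).trans (add_le_add ?_ ?_)
            · rw [abs_mul]
              calc |nn l'| * |w x.1 l' - XX l'| ≤ 1 * δ₀ :=
                    mul_le_mul (y6 l') (hwX l') (abs_nonneg _) zero_le_one
                _ = δ₀ := one_mul _
            · split_ifs with h5
              · rw [abs_mul]
                refine mul_le_mul ?_ (hXXk l') (abs_nonneg _) (by positivity)
                refine (y5 l' h5).le.trans ?_
                have h6 : ν ^ l'.val ≤ ν ^ ((l.succ).val + 1) :=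
                  pow_le_pow_of_le_one hν.le hν1 h5
                rw [pow_succ, mul_comm] at h6
                exact h6.trans (mul_le_mul_of_nonneg_left y4 hν.le)
              · rw [abs_zero]
                positivity
          refine (Finset.sum_le_sum h13).trans ?_
          rw [Finset.sum_const, Finset.card_univ, Fintype.card_fin, nsmul_eq_mul]
          push_cast
          exact le_rfl
        refine (abs_sub _ _).trans ((add_le_add y3 h4).trans ?_)
        rw [hε]
        have h5 : η ≤ η / ν ^ r * |nn l.succ| := by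
          rw [div_mul_eq_mul_div, le_div_iff₀ hνr]
          exact mul_le_mul_of_nonneg_left hnl hη
        have h6 : δ₀ ≤ δ₀ / ν ^ r * |nn l.succ| := by
          rw [div_mul_eq_mul_div, le_div_iff₀ hνr]
          exact mul_le_mul_of_nonneg_left hnl hδ₀
        have hr1 : (0 : ℝ) ≤ r + 1 := by positivity
        have h7 := mul_le_mul_of_nonneg_left h6 hr1
        have e4 : ((r + 1) * (δ₀ / ν ^ r + ν * 2 ^ k) + η / ν ^ r) * |nn l.succ| =
            (r + 1) * (δ₀ / ν ^ r * |nn l.succ|) + (r + 1) * (ν * |nn l.succ| * 2 ^ k) +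
              η / ν ^ r * |nn l.succ| := by ring
        rw [e4]
        have e5 : (r + 1 : ℝ) * (δ₀ + ν * |nn l.succ| * 2 ^ k) =
            (r + 1) * δ₀ + (r + 1) * (ν * |nn l.succ| * 2 ^ k) := by ring
        rw [e5]
        linarith only [h5, h7]
      rw [h3] at h2
      have h4 : M / cl * Real.exp (-(δl l * J)) = M * Real.exp (-(δl l * J)) / cl := by ring
      rw [h4, le_div_iff₀ hc0, one_mul] at h2
      refine h2.trans (mul_le_mul_of_nonneg_left (Real.exp_le_exp.mpr ?_) hM)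
      have := mul_le_mul_of_nonneg_right (hδle l) hJ0
      linarith only [this]
  -- the sum
  have hsum : law q G True ≤ ∑ l, law q (Gl l) True := by
    have e1 : ∀ G : F.Ω → Prop, law q G True = ∑ ω, if G ω then q ω else 0 := fun G => pe_sum q G
    rw [e1, Finset.sum_congr rfl fun l _ => e1 (Gl l), Finset.sum_comm]
    refine Finset.sum_le_sum fun ω _ => ?_
    rcases (hq.nonneg ω).eq_or_lt with h0 | h0
    · rw [← h0]
      simp
    · by_cases hGω : G ω
      · obtain ⟨l, hl⟩ := hcov ω h0 hGω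
        rw [if_pos hGω]
        refine le_trans ?_ (Finset.single_le_sum (f := fun l => if Gl l ω then q ω else 0)
          (fun l _ => by
            split_ifs
            exacts [h0.le, le_rfl]) (Finset.mem_univ l))
        rw [if_pos hl]
      · rw [if_neg hGω]
        exact Finset.sum_nonneg fun l _ => by
          split_ifs
          exacts [h0.le, le_rfl]
  rw [← hG]
  refine hsum.trans ((Finset.sum_le_sum fun l _ => hlaw l).trans ?_)
  rw [Finset.sum_const, Finset.card_univ, Fintype.card_fin, nsmul_eq_mul]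

/-- **The copies given a closed record span**, class theorem. -/
theorem span_cls {θ : ℝ} {S : PCl m} {P : List (Fin m) × Fin m → ℝ → ℝ → ℝ}
    (hP : ThrOf (chsys m θ) S P) (c : ℕ → Fin m) {r : ℕ} (ι : Fin r → ℕ) (hι : StrictMono ι)
    (hc : ∀ l, Set.InjOn c (Set.Iio (ι l + 1)))
    (a : ℚ) (e h : ℝ) (ha0 : 0 ≤ a) (ha : a ≤ 1) (he : e < θ * a) (hh : 0 < h)
    (h1 : ∀ l, bet P c (ι l) a a + h ≤ 1) :
    ∃ δ : ℝ, 0 < δ ∧ Bas S (fun J F A => ∀ (n a₀ e₀ e' k s V : ℕ) (p : Fin r → ℕ) (g : ℕ → ℕ)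
      (ψ : PtT F → ℕ → Option (Fin m) → ℝ) (ψH : LnT F → ℕ → Option (Fin m) → ℝ),
      (∀ l, NumL J (bet P c (ι l) a a + h) a e (ι l) n a₀ e₀ e' k s V (p l) g) →
      ∀ (q : F.Ω → ℝ) (M : ℝ), IsLaw q → 0 ≤ M → (∀ ω, 0 < q ω → A ω) →
      (∀ ω, q ω * Pe F.p A ≤ M * F.p ω) →
      FrOK F c n a₀ k e₀ g (fun ω => 0 < q ω) ψ ψH →
      ∀ (ζ : Type) (z : F.Ω → ζ) (w : F.Ω → Fin (r + 1) → ℝ), Det q (fun ω => ptr F J ω) z →
      Det q (slam F a₀) z →
      ∀ (δ₀ ν η : ℝ), 0 ≤ δ₀ → (∀ ω, 0 < q ω → ∀ l, |w ω l - Xv F c g a₀ ι ψ ω l| ≤ δ₀) →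
      0 < ν → ν ≤ 1 → 0 < η → 1 ≤ ν ^ r * 2 ^ e' →
      (r + 1) * (δ₀ + ν * 2 ^ k) + η < 1 →
      (∀ l, ((r + 1) * (δ₀ / ν ^ r + ν * 2 ^ k) + η / ν ^ r) *
        2 ^ (2 * (ι l + 1) + 2 * k + 6 + s) ≤ 1) →
      ∀ (σ : Type) (S' : F.Ω → σ) (N' : ℕ) (sd : Fin N' → Bool) (b : Bool)
        (js : Fin (r + 1) → Fin N'), Function.Injective js → (∀ l, sd (js l) = b) →
      law (PL q S' z sd) (fun v => |(Matrix.of (fun i => w (cp sd (js i) v))).det| <
        η ^ (r + 1)) True ≤ ((r + 1 : ℕ) : ℝ) * (r * (M * Real.exp (-(δ * J))))) := by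
  obtain ⟨δ, hδ, τ, hτ, J₁, hv⟩ := hyp_cls hP c ι hι hc a e h ha0 ha he hh h1
  refine ⟨δ, hδ, τ, hτ, J₁, ?_⟩
  intro J hJ F A hA n a₀ e₀ e' k s V p g ψ ψH N q M hq hM hqA hqM hfr ζ z w hzp hzs δ₀ ν η hδ₀ hw hν
    hν1 hη hνe ha1 hb1 σ S' N' sd b js hjs hsd
  have h2 := hv J hJ F A hA n a₀ e₀ e' k s V p g ψ ψH N q M hq hM hqA hqM hfr ζ z w hzp hzs δ₀ ν η
    hδ₀ hw hν hν1 hη.le hνe ha1 hb1
  exact span_PL hq h2 hη S' sd b js hjs hsd

end cls

end Pool.D2Con
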