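import Pool.Agent.H66.D2.Alg

/-!
# D2, the conic: separated points of a nondegenerate conic

`X = (1, E)` are directions in space, `Q` is a symmetric form with `mu <= |det Q|`. Three separated
points near the conic of `Q` are not near a line (`con_det`), so a small linear form is small
(`con_lin`); a form which is small at five separated points of the conic is near a multiple of `Q`
(`con_quad`).
-/

set_option autoImplicit false

namespace Pool.D2Con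

open Pool.D2A

/-- The determinant of three vectors. -/
def br (X Y Z : Fin 3 → ℝ) : ℝ :=
  X 0 * (Y 1 * Z 2 - Y 2 * Z 1) - X 1 * (Y 0 * Z 2 - Y 2 * Z 0) + X 2 * (Y 0 * Z 1 - Y 1 * Z 0)

/-- The determinant of a form. -/
def dt (Q : Fin 3 → Fin 3 → ℝ) : ℝ := br (Q 0) (Q 1) (Q 2)

theorem bf3 (s : Fin 3 → Fin 3 → ℝ) (X Y : Fin 3 → ℝ) :
    bf s X Y = s 0 0 * X 0 * Y 0 + s 0 1 * X 0 * Y 1 + s 0 2 * X 0 * Y 2 +
      (s 1 0 * X 1 * Y 0 + s 1 1 * X 1 * Y 1 + s 1 2 * X 1 * Y 2) +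
      (s 2 0 * X 2 * Y 0 + s 2 1 * X 2 * Y 1 + s 2 2 * X 2 * Y 2) := by
  unfold bf
  simp only [Fin.sum_univ_three]

theorem bf3_le {s : Fin 3 → Fin 3 → ℝ} {X Y : Fin 3 → ℝ} {A R R' : ℝ} (hs : ∀ i j, |s i j| ≤ A)
    (hX : ∀ i, |X i| ≤ R) (hY : ∀ i, |Y i| ≤ R') :
    |bf s X Y| ≤ 9 * (A * R * R') := by
  have h1 := bf_le hs hX hY ((abs_nonneg _).trans (hs 0 0)) ((abs_nonneg _).trans (hX 0))
  norm_num at h1
  exact h1

theorem br_le {X Y Z : Fin 3 → ℝ} {R : ℝ} (hX : ∀ i, |X i| ≤ R) (hY : ∀ i, |Y i| ≤ R)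
    (hZ : ∀ i, |Z i| ≤ R) : |br X Y Z| ≤ 6 * R ^ 3 := by
  have hR : 0 ≤ R := (abs_nonneg _).trans (hX 0)
  have h1 : ∀ i j k : Fin 3, |X i * (Y j * Z k)| ≤ R ^ 3 := by
    intro i j k
    rw [abs_mul, abs_mul]
    calc |X i| * (|Y j| * |Z k|) ≤ R * (R * R) :=
          mul_le_mul (hX i) (mul_le_mul (hY j) (hZ k) (abs_nonneg _) hR) (by positivity) hR
      _ = R ^ 3 := by ring
  have e : br X Y Z = X 0 * (Y 1 * Z 2) - X 0 * (Y 2 * Z 1) - X 1 * (Y 0 * Z 2) +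
      X 1 * (Y 2 * Z 0) + X 2 * (Y 0 * Z 1) - X 2 * (Y 1 * Z 0) := by
    unfold br
    ring
  rw [e]
  have a1 := abs_le.mp (h1 0 1 2)
  have a2 := abs_le.mp (h1 0 2 1)
  have a3 := abs_le.mp (h1 1 0 2)
  have a4 := abs_le.mp (h1 1 2 0)
  have a5 := abs_le.mp (h1 2 0 1)
  have a6 := abs_le.mp (h1 2 1 0)
  rw [abs_le]
  constructor <;> linarith [a1.1, a1.2, a2.1, a2.2, a3.1, a3.2, a4.1, a4.2, a5.1, a5.2, a6.1, a6.2]

/-- Gram's identity. -/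
theorem gram (Q : Fin 3 → Fin 3 → ℝ) (X Y Z : Fin 3 → ℝ) :
    dt Q * br X Y Z ^ 2 =
      bf Q X X * (bf Q Y Y * bf Q Z Z - bf Q Y Z * bf Q Z Y) -
      bf Q X Y * (bf Q Y X * bf Q Z Z - bf Q Y Z * bf Q Z X) +
      bf Q X Z * (bf Q Y X * bf Q Z Y - bf Q Y Y * bf Q Z X) := by
  simp only [bf3, dt, br]
  ring

/-- A linear combination of vectors. -/
theorem bf3_lin (s : Fin 3 → Fin 3 → ℝ) (X Y Z W : Fin 3 → ℝ) (a b c m : ℝ)
    (h : ∀ i, m * W i = a * X i + b * Y i + c * Z i) :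
    m ^ 2 * bf s W W = a ^ 2 * bf s X X + b ^ 2 * bf s Y Y + c ^ 2 * bf s Z Z +
      a * b * (bf s X Y + bf s Y X) + a * c * (bf s X Z + bf s Z X) +
      b * c * (bf s Y Z + bf s Z Y) := by
  have e : m ^ 2 * bf s W W = s 0 0 * (m * W 0) * (m * W 0) + s 0 1 * (m * W 0) * (m * W 1) +
      s 0 2 * (m * W 0) * (m * W 2) +
      (s 1 0 * (m * W 1) * (m * W 0) + s 1 1 * (m * W 1) * (m * W 1) +
        s 1 2 * (m * W 1) * (m * W 2)) +
      (s 2 0 * (m * W 2) * (m * W 0) + s 2 1 * (m * W 2) * (m * W 1) +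
        s 2 2 * (m * W 2) * (m * W 2)) := by
    rw [bf3]
    ring
  rw [e, h 0, h 1, h 2]
  simp only [bf3]
  ring

/-- The value at the third point. -/
theorem num_a {R δ d m l u x y z xv yv vv : ℝ} (hR : 1 ≤ R) (hδ : 0 ≤ δ) (m0 : 0 ≤ m)
    (bm : m ≤ 8 * R ^ 2) (bl : |l| ≤ 8 * R ^ 2) (bml : |m - l| ≤ 16 * R ^ 2)
    (bd : |d| ≤ 8 * R ^ 2) (qX : |x| ≤ δ) (qY : |y| ≤ δ) (qZ : |z| ≤ δ)
    (bXV : |xv| ≤ 18 * R ^ 3) (bYV : |yv| ≤ 18 * R ^ 3) (bVV : |vv| ≤ 36 * R ^ 3)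
    (hx : m ^ 2 * z = (m - l) ^ 2 * x + l ^ 2 * y + d ^ 2 * vv + (m - l) * l * (u + u) +
      (m - l) * d * (xv + xv) + l * d * (yv + yv)) :
    |(m - l) * l * u| ≤ 576 * R ^ 5 * (δ + |d|) := by
  have e : (m - l) * l * u = (m ^ 2 * z - (m - l) ^ 2 * x - l ^ 2 * y - d ^ 2 * vv) / 2 -
      (m - l) * d * xv - l * d * yv := by
    rw [hx]
    ring
  have hR0 : 0 ≤ R := by linarith only [hR]
  have c1 : |m ^ 2 * z| ≤ 64 * R ^ 4 * δ := by
    rw [abs_mul, abs_of_nonneg (by positivity : 0 ≤ m ^ 2)]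
    calc m ^ 2 * |z| ≤ (8 * R ^ 2) ^ 2 * δ :=
          mul_le_mul (pow_le_pow_left₀ m0 bm 2) qZ (abs_nonneg _) (by positivity)
      _ = 64 * R ^ 4 * δ := by ring
  have c2 : |(m - l) ^ 2 * x| ≤ 256 * R ^ 4 * δ := by
    rw [abs_mul, abs_pow]
    calc |m - l| ^ 2 * |x| ≤ (16 * R ^ 2) ^ 2 * δ :=
          mul_le_mul (pow_le_pow_left₀ (abs_nonneg _) bml 2) qX (abs_nonneg _) (by positivity)
      _ = 256 * R ^ 4 * δ := by ring
  have c3 : |l ^ 2 * y| ≤ 64 * R ^ 4 * δ := by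
    rw [abs_mul, abs_pow]
    calc |l| ^ 2 * |y| ≤ (8 * R ^ 2) ^ 2 * δ :=
          mul_le_mul (pow_le_pow_left₀ (abs_nonneg _) bl 2) qY (abs_nonneg _) (by positivity)
      _ = 64 * R ^ 4 * δ := by ring
  have c4 : |d ^ 2 * vv| ≤ 288 * R ^ 5 * |d| := by
    rw [abs_mul, abs_pow]
    have hd2 : |d| ^ 2 ≤ 8 * R ^ 2 * |d| := by
      rw [pow_two]
      exact mul_le_mul_of_nonneg_right bd (abs_nonneg _)
    calc |d| ^ 2 * |vv| ≤ (8 * R ^ 2 * |d|) * (36 * R ^ 3) :=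
          mul_le_mul hd2 bVV (abs_nonneg _) (by positivity)
      _ = 288 * R ^ 5 * |d| := by ring
  have c5 : |(m - l) * d * xv| ≤ 288 * R ^ 5 * |d| := by
    rw [abs_mul, abs_mul]
    calc |m - l| * |d| * |xv| ≤ (16 * R ^ 2) * |d| * (18 * R ^ 3) :=
          mul_le_mul (mul_le_mul_of_nonneg_right bml (abs_nonneg _)) bXV (abs_nonneg _)
            (by positivity)
      _ = 288 * R ^ 5 * |d| := by ring
  have c6 : |l * d * yv| ≤ 144 * R ^ 5 * |d| := by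
    rw [abs_mul, abs_mul]
    calc |l| * |d| * |yv| ≤ (8 * R ^ 2) * |d| * (18 * R ^ 3) :=
          mul_le_mul (mul_le_mul_of_nonneg_right bl (abs_nonneg _)) bYV (abs_nonneg _)
            (by positivity)
      _ = 144 * R ^ 5 * |d| := by ring
  have hR45 : R ^ 4 * δ ≤ R ^ 5 * δ :=
    mul_le_mul_of_nonneg_right (pow_le_pow_right₀ hR (by norm_num)) hδ
  obtain ⟨A, hA⟩ : ∃ A, A = R ^ 5 * δ := ⟨_, rfl⟩
  obtain ⟨B, hB⟩ : ∃ B, B = R ^ 4 * δ := ⟨_, rfl⟩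
  obtain ⟨C, hC⟩ : ∃ C, C = R ^ 5 * |d| := ⟨_, rfl⟩
  have zB : 0 ≤ B := by rw [hB]; positivity
  have zC : 0 ≤ C := by rw [hC]; positivity
  rw [show 64 * R ^ 4 * δ = 64 * B by rw [hB]; ring] at c1 c3
  rw [show 256 * R ^ 4 * δ = 256 * B by rw [hB]; ring] at c2
  rw [show 288 * R ^ 5 * |d| = 288 * C by rw [hC]; ring] at c4 c5
  rw [show 144 * R ^ 5 * |d| = 144 * C by rw [hC]; ring] at c6
  rw [← hA, ← hB] at hR45
  rw [e, show 576 * R ^ 5 * (δ + |d|) = 576 * A + 576 * C by rw [hA, hC]; ring]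
  have d1 := abs_sub ((m ^ 2 * z - (m - l) ^ 2 * x - l ^ 2 * y - d ^ 2 * vv) / 2 -
      (m - l) * d * xv) (l * d * yv)
  have d2 := abs_sub ((m ^ 2 * z - (m - l) ^ 2 * x - l ^ 2 * y - d ^ 2 * vv) / 2)
      ((m - l) * d * xv)
  have d3 := abs_sub (m ^ 2 * z - (m - l) ^ 2 * x - l ^ 2 * y) (d ^ 2 * vv)
  have d4 := abs_sub (m ^ 2 * z - (m - l) ^ 2 * x) (l ^ 2 * y)
  have d5 := abs_sub (m ^ 2 * z) ((m - l) ^ 2 * x)
  have d6 : |(m ^ 2 * z - (m - l) ^ 2 * x - l ^ 2 * y - d ^ 2 * vv) / 2| =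
      |m ^ 2 * z - (m - l) ^ 2 * x - l ^ 2 * y - d ^ 2 * vv| / 2 := by
    rw [abs_div, abs_two]
  linarith only [c1, c2, c3, c4, c5, c6, d1, d2, d3, d4, d5, d6, hR45, zB, zC]

/-- The Gram determinant. -/
theorem num_b {R δ u x y xn yn nn : ℝ} (hR : 1 ≤ R) (hδ : 0 ≤ δ) (qX : |x| ≤ δ) (qY : |y| ≤ δ)
    (bYY : |y| ≤ 9 * R ^ 3) (bu : |u| ≤ 9 * R ^ 3) (bXn : |xn| ≤ 18 * R ^ 4)
    (bYn : |yn| ≤ 18 * R ^ 4) (bnn : |nn| ≤ 36 * R ^ 5) :
    |x * (y * nn - yn * yn) - u * (u * nn - yn * xn) + xn * (u * yn - y * xn)| ≤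
      972 * R ^ 8 * (δ + |u|) := by
  have hR0 : 0 ≤ R := by linarith only [hR]
  have k1 : |y * nn - yn * yn| ≤ 648 * R ^ 8 := by
    refine (abs_sub _ _).trans ?_
    rw [abs_mul, abs_mul]
    have a1 := mul_le_mul bYY bnn (abs_nonneg _) (by positivity)
    have a2 := mul_le_mul bYn bYn (abs_nonneg _) (by positivity)
    refine (add_le_add a1 a2).trans (le_of_eq (by ring))
  have k2 : |u * nn - yn * xn| ≤ 648 * R ^ 8 := by
    refine (abs_sub _ _).trans ?_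
    rw [abs_mul, abs_mul]
    have a1 := mul_le_mul bu bnn (abs_nonneg _) (by positivity)
    have a2 := mul_le_mul bYn bXn (abs_nonneg _) (by positivity)
    refine (add_le_add a1 a2).trans (le_of_eq (by ring))
  have k3 : |xn * (u * yn - y * xn)| ≤ 324 * R ^ 8 * (δ + |u|) := by
    rw [abs_mul]
    have a0 : |u * yn - y * xn| ≤ 18 * R ^ 4 * (δ + |u|) := by
      refine (abs_sub _ _).trans ?_
      rw [abs_mul, abs_mul]
      have a1 := mul_le_mul_of_nonneg_left bYn (abs_nonneg u)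
      have a2 := mul_le_mul qY bXn (abs_nonneg _) hδ
      refine (add_le_add a1 a2).trans (le_of_eq (by ring))
    calc |xn| * |u * yn - y * xn| ≤ 18 * R ^ 4 * (18 * R ^ 4 * (δ + |u|)) :=
          mul_le_mul bXn a0 (abs_nonneg _) (by positivity)
      _ = 324 * R ^ 8 * (δ + |u|) := by ring
  have j1 : |x * (y * nn - yn * yn)| ≤ 648 * R ^ 8 * δ := by
    rw [abs_mul]
    refine (mul_le_mul qX k1 (abs_nonneg _) hδ).trans (le_of_eq (by ring))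
  have j2 : |u * (u * nn - yn * xn)| ≤ 648 * R ^ 8 * |u| := by
    rw [abs_mul]
    refine (mul_le_mul_of_nonneg_left k2 (abs_nonneg u)).trans (le_of_eq (by ring))
  have h5 := abs_add_le (x * (y * nn - yn * yn) - u * (u * nn - yn * xn))
    (xn * (u * yn - y * xn))
  have h6 := abs_sub (x * (y * nn - yn * yn)) (u * (u * nn - yn * xn))
  have e : 972 * R ^ 8 * (δ + |u|) = 648 * R ^ 8 * δ + 648 * R ^ 8 * |u| +
      324 * R ^ 8 * (δ + |u|) := by ring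
  rw [e]
  linarith only [k3, j1, j2, h5, h6]

/-- The end of the computation. -/
theorem num_c {R δ u d κ μ D : ℝ} (hR : 1 ≤ R) (hδ : 0 ≤ δ) (hκ : 0 < κ) (hκm : κ ^ 2 ≤ 8 * R ^ 2)
    (hμ : μ ≤ D) (hg1 : D * κ ^ 4 ≤ 972 * R ^ 8 * (δ + |u|))
    (hu2 : |u| * κ ^ 4 ≤ 2304 * R ^ 5 * (δ + |d|)) :
    μ * κ ^ 8 ≤ 2 ^ 22 * R ^ 13 * (δ + |d|) := by
  have hR0 : 0 ≤ R := by linarith only [hR]
  have hk4 : κ ^ 4 ≤ 64 * R ^ 4 := by
    have := pow_le_pow_left₀ (by positivity) hκm 2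
    calc κ ^ 4 = (κ ^ 2) ^ 2 := by ring
      _ ≤ (8 * R ^ 2) ^ 2 := this
      _ = 64 * R ^ 4 := by ring
  calc μ * κ ^ 8 ≤ D * κ ^ 4 * κ ^ 4 := by
        rw [mul_assoc, show κ ^ 4 * κ ^ 4 = κ ^ 8 by ring]
        exact mul_le_mul_of_nonneg_right hμ (by positivity)
    _ ≤ 972 * R ^ 8 * (δ + |u|) * κ ^ 4 := mul_le_mul_of_nonneg_right hg1 (by positivity)
    _ = 972 * R ^ 8 * (δ * κ ^ 4 + |u| * κ ^ 4) := by ring
    _ ≤ 972 * R ^ 8 * (δ * (64 * R ^ 4) + 2304 * R ^ 5 * (δ + |d|)) := by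
        refine mul_le_mul_of_nonneg_left ?_ (by positivity)
        exact add_le_add (mul_le_mul_of_nonneg_left hk4 hδ) hu2
    _ ≤ 972 * R ^ 8 * (64 * (R ^ 5 * (δ + |d|)) + 2304 * R ^ 5 * (δ + |d|)) := by
        refine mul_le_mul_of_nonneg_left ?_ (by positivity)
        refine add_le_add ?_ le_rfl
        calc δ * (64 * R ^ 4) = 64 * (R ^ 4 * δ) := by ring
          _ ≤ 64 * (R ^ 5 * (δ + |d|)) := by
              refine mul_le_mul_of_nonneg_left ?_ (by norm_num)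
              exact mul_le_mul (pow_le_pow_right₀ hR (by norm_num))
                (le_add_of_nonneg_right (abs_nonneg _)) hδ (by positivity)
    _ = 2301696 * (R ^ 13 * (δ + |d|)) := by ring
    _ ≤ 2 ^ 22 * (R ^ 13 * (δ + |d|)) :=
        mul_le_mul_of_nonneg_right (by norm_num) (by positivity)
    _ = 2 ^ 22 * R ^ 13 * (δ + |d|) := by ring

/-- The case of a large determinant. -/
theorem num_d {R δ d κ μ D : ℝ} (hR : 1 ≤ R) (hδ : 0 ≤ δ) (hκ : 0 < κ) (hκm : κ ^ 2 ≤ 8 * R ^ 2)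
    (hμ : μ ≤ D) (hD : D ≤ 6 * R ^ 3) (hbig : κ ^ 2 / 2 ≤ |d|) :
    μ * κ ^ 8 ≤ 2 ^ 22 * R ^ 13 * (δ + |d|) := by
  have hR0 : 0 ≤ R := by linarith only [hR]
  have hk6 : (κ ^ 2) ^ 3 ≤ (8 * R ^ 2) ^ 3 := pow_le_pow_left₀ (by positivity) hκm 3
  calc μ * κ ^ 8 = μ * ((κ ^ 2) ^ 3 * κ ^ 2) := by ring
    _ ≤ (6 * R ^ 3) * ((κ ^ 2) ^ 3 * κ ^ 2) :=
        mul_le_mul_of_nonneg_right (hμ.trans hD) (by positivity)
    _ ≤ (6 * R ^ 3) * ((8 * R ^ 2) ^ 3 * (2 * |d|)) := by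
        refine mul_le_mul_of_nonneg_left ?_ (by positivity)
        exact mul_le_mul hk6 (by linarith only [hbig]) (by positivity) (by positivity)
    _ = 6144 * (R ^ 9 * |d|) := by ring
    _ ≤ 2 ^ 22 * (R ^ 13 * (δ + |d|)) := by
        refine mul_le_mul (by norm_num) ?_ (by positivity) (by norm_num)
        exact mul_le_mul (pow_le_pow_right₀ hR (by norm_num))
          (le_add_of_nonneg_left hδ) (abs_nonneg _) (by positivity)
    _ = 2 ^ 22 * R ^ 13 * (δ + |d|) := by ring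

/-- **Three separated points near a nondegenerate conic are not near a line.** -/
theorem con_det {Q : Fin 3 → Fin 3 → ℝ} (hs : ∀ i j, Q i j = Q j i) {X Y Z : Fin 3 → ℝ}
    {R κ δ μ : ℝ} (hR : 1 ≤ R) (hX0 : X 0 = 1) (hY0 : Y 0 = 1) (hZ0 : Z 0 = 1)
    (hX : ∀ i, |X i| ≤ R) (hY : ∀ i, |Y i| ≤ R) (hZ : ∀ i, |Z i| ≤ R) (hQ : ∀ i j, |Q i j| ≤ R)
    (hκ : 0 < κ) (hμ : μ ≤ |dt Q|)
    (h1 : κ ^ 2 ≤ (Y 1 - X 1) ^ 2 + (Y 2 - X 2) ^ 2)
    (h2 : κ ^ 2 ≤ (Z 1 - X 1) ^ 2 + (Z 2 - X 2) ^ 2)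
    (h3 : κ ^ 2 ≤ (Z 1 - Y 1) ^ 2 + (Z 2 - Y 2) ^ 2)
    (qX : |bf Q X X| ≤ δ) (qY : |bf Q Y Y| ≤ δ) (qZ : |bf Q Z Z| ≤ δ) :
    μ * κ ^ 8 ≤ 2 ^ 22 * R ^ 13 * (δ + |br X Y Z|) := by
  have hR0 : 0 ≤ R := by linarith only [hR]
  have hδ : 0 ≤ δ := (abs_nonneg _).trans qX
  obtain ⟨p, hp⟩ : ∃ p, p = Y 1 - X 1 := ⟨_, rfl⟩
  obtain ⟨q, hq⟩ : ∃ q, q = Y 2 - X 2 := ⟨_, rfl⟩
  obtain ⟨r, hr⟩ : ∃ r, r = Z 1 - X 1 := ⟨_, rfl⟩
  obtain ⟨t, ht⟩ : ∃ t, t = Z 2 - X 2 := ⟨_, rfl⟩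
  obtain ⟨d, hd⟩ : ∃ d, d = br X Y Z := ⟨_, rfl⟩
  have hd' : d = p * t - q * r := by
    rw [hd, hp, hq, hr, ht]
    unfold br
    rw [hX0, hY0, hZ0]
    ring
  obtain ⟨m, hm⟩ : ∃ m, m = p ^ 2 + q ^ 2 := ⟨_, rfl⟩
  obtain ⟨l, hl⟩ : ∃ l, l = p * r + q * t := ⟨_, rfl⟩
  rw [← hp, ← hq] at h1
  rw [← hr, ← ht] at h2
  have h3' : κ ^ 2 ≤ (p - r) ^ 2 + (q - t) ^ 2 := by
    refine h3.trans (le_of_eq ?_)
    rw [hp, hq, hr, ht]
    ring
  have bp : |p| ≤ 2 * R := by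
    rw [hp]
    exact (abs_sub _ _).trans (by linarith only [hY 1, hX 1])
  have bq : |q| ≤ 2 * R := by
    rw [hq]
    exact (abs_sub _ _).trans (by linarith only [hY 2, hX 2])
  have br' : |r| ≤ 2 * R := by
    rw [hr]
    exact (abs_sub _ _).trans (by linarith only [hZ 1, hX 1])
  have bt : |t| ≤ 2 * R := by
    rw [ht]
    exact (abs_sub _ _).trans (by linarith only [hZ 2, hX 2])
  have p2 : ∀ {x y : ℝ}, |x| ≤ 2 * R → |y| ≤ 2 * R → |x * y| ≤ 4 * R ^ 2 := by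
    intro x y hx hy
    rw [abs_mul]
    calc |x| * |y| ≤ (2 * R) * (2 * R) := mul_le_mul hx hy (abs_nonneg _) (by positivity)
      _ = 4 * R ^ 2 := by ring
  have bd : |d| ≤ 8 * R ^ 2 := by
    rw [hd']
    exact (abs_sub _ _).trans (by linarith only [p2 bp bt, p2 bq br'])
  have bl : |l| ≤ 8 * R ^ 2 := by
    rw [hl]
    exact (abs_add_le _ _).trans (by linarith only [p2 bp br', p2 bq bt])
  have bm : m ≤ 8 * R ^ 2 := by
    have a1 := p2 bp bp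
    have a2 := p2 bq bq
    have a3 := le_abs_self (p * p)
    have a4 := le_abs_self (q * q)
    rw [hm, pow_two, pow_two]
    linarith only [a1, a2, a3, a4]
  have m0 : 0 ≤ m := by
    rw [hm]
    positivity
  have bml : |m - l| ≤ 16 * R ^ 2 :=
    (abs_sub _ _).trans (by rw [abs_of_nonneg m0]; linarith only [bm, bl])
  have hκm : κ ^ 2 ≤ m := by
    rw [hm]
    exact h1
  have hdt : |dt Q| ≤ 6 * R ^ 3 := br_le (hQ 0) (hQ 1) (hQ 2)
  rw [← hd]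
  by_cases hbig : κ ^ 2 / 2 ≤ |d|
  · exact num_d hR hδ hκ (hκm.trans bm) hμ hdt hbig
  · rw [not_le] at hbig
    have hd2 : d ^ 2 ≤ κ ^ 4 / 4 := by
      have := pow_le_pow_left₀ (abs_nonneg d) hbig.le 2
      rw [sq_abs] at this
      exact this.trans (le_of_eq (by ring))
    have hl2 : (κ ^ 2 / 2) ^ 2 ≤ l ^ 2 := by
      have e : l ^ 2 + d ^ 2 = m * (r ^ 2 + t ^ 2) := by
        rw [hl, hd', hm]
        ring
      have h5 : κ ^ 2 * κ ^ 2 ≤ m * (r ^ 2 + t ^ 2) := mul_le_mul hκm h2 (by positivity) m0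
      have h6 : κ ^ 2 * κ ^ 2 = κ ^ 4 := by ring
      have h7 : (κ ^ 2 / 2) ^ 2 = κ ^ 4 / 4 := by ring
      rw [h7]
      linarith only [e, h5, h6, hd2, pow_pos hκ 4]
    have hml2 : (κ ^ 2 / 2) ^ 2 ≤ (m - l) ^ 2 := by
      have e : (m - l) ^ 2 + d ^ 2 = m * ((p - r) ^ 2 + (q - t) ^ 2) := by
        rw [hl, hd', hm]
        ring
      have h5 : κ ^ 2 * κ ^ 2 ≤ m * ((p - r) ^ 2 + (q - t) ^ 2) :=
        mul_le_mul hκm h3' (by positivity) m0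
      have h6 : κ ^ 2 * κ ^ 2 = κ ^ 4 := by ring
      have h7 : (κ ^ 2 / 2) ^ 2 = κ ^ 4 / 4 := by ring
      rw [h7]
      linarith only [e, h5, h6, hd2, pow_pos hκ 4]
    have hl' : κ ^ 2 / 2 ≤ |l| := by
      rw [← abs_of_nonneg (by positivity : 0 ≤ κ ^ 2 / 2)]
      exact sq_le_sq.mp hl2
    have hml' : κ ^ 2 / 2 ≤ |m - l| := by
      rw [← abs_of_nonneg (by positivity : 0 ≤ κ ^ 2 / 2)]
      exact sq_le_sq.mp hml2
    -- the relation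
    obtain ⟨V, hV⟩ : ∃ V : Fin 3 → ℝ, V = ![0, -q, p] := ⟨_, rfl⟩
    have bV : ∀ i, |V i| ≤ 2 * R := by
      intro i
      rw [hV]
      fin_cases i
      · change |(0 : ℝ)| ≤ _
        rw [abs_zero]
        positivity
      · change |-q| ≤ _
        rw [abs_neg]
        exact bq
      · exact bp
    have hrel : ∀ i, m * Z i = (m - l) * X i + l * Y i + d * V i := by
      intro i
      have e1 : Z 1 = X 1 + r := by rw [hr]; ring
      have e2 : Z 2 = X 2 + t := by rw [ht]; ring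
      have e3 : Y 1 = X 1 + p := by rw [hp]; ring
      have e4 : Y 2 = X 2 + q := by rw [hq]; ring
      rw [hV]
      fin_cases i
      · change m * Z 0 = (m - l) * X 0 + l * Y 0 + d * 0
        rw [hX0, hY0, hZ0]
        ring
      · change m * Z 1 = (m - l) * X 1 + l * Y 1 + d * (-q)
        rw [e1, e3, hm, hl, hd']
        ring
      · change m * Z 2 = (m - l) * X 2 + l * Y 2 + d * p
        rw [e2, e4, hm, hl, hd']
        ring
    have hx := bf3_lin Q X Y V Z (m - l) l d m hrel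
    have sxy : bf Q Y X = bf Q X Y := bf_comm hs _ _
    have sxv : bf Q V X = bf Q X V := bf_comm hs _ _
    have syv : bf Q V Y = bf Q Y V := bf_comm hs _ _
    rw [sxy, sxv, syv] at hx
    have bXV : |bf Q X V| ≤ 18 * R ^ 3 := (bf3_le hQ hX bV).trans (le_of_eq (by ring))
    have bYV : |bf Q Y V| ≤ 18 * R ^ 3 := (bf3_le hQ hY bV).trans (le_of_eq (by ring))
    have bVV : |bf Q V V| ≤ 36 * R ^ 3 := (bf3_le hQ bV bV).trans (le_of_eq (by ring))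
    obtain ⟨u, hu⟩ : ∃ u, u = bf Q X Y := ⟨_, rfl⟩
    rw [← hu] at hx
    have hu1 : |(m - l) * l * u| ≤ 576 * R ^ 5 * (δ + |d|) :=
      num_a hR hδ m0 bm bl bml bd qX qY qZ bXV bYV bVV hx
    have hu2 : |u| * κ ^ 4 ≤ 2304 * R ^ 5 * (δ + |d|) := by
      rw [abs_mul, abs_mul] at hu1
      have h5 : κ ^ 2 / 2 * (κ ^ 2 / 2) ≤ |m - l| * |l| :=
        mul_le_mul hml' hl' (by positivity) (abs_nonneg _)
      have h6 := mul_le_mul_of_nonneg_right h5 (abs_nonneg u)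
      calc |u| * κ ^ 4 = 4 * (κ ^ 2 / 2 * (κ ^ 2 / 2) * |u|) := by ring
        _ ≤ 4 * (576 * R ^ 5 * (δ + |d|)) :=
            mul_le_mul_of_nonneg_left (h6.trans hu1) (by norm_num)
        _ = 2304 * R ^ 5 * (δ + |d|) := by ring
    -- the normal
    obtain ⟨n, hn⟩ : ∃ n : Fin 3 → ℝ, n = ![X 1 * Y 2 - X 2 * Y 1, -q, p] := ⟨_, rfl⟩
    have hRR : 2 * R ≤ 2 * R ^ 2 := by
      have : R * 1 ≤ R * R := mul_le_mul_of_nonneg_left hR hR0
      linarith only [this, pow_two R]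
    have bn : ∀ i, |n i| ≤ 2 * R ^ 2 := by
      intro i
      rw [hn]
      fin_cases i
      · change |X 1 * Y 2 - X 2 * Y 1| ≤ _
        refine (abs_sub _ _).trans ?_
        rw [abs_mul, abs_mul]
        have a1 := mul_le_mul (hX 1) (hY 2) (abs_nonneg _) hR0
        have a2 := mul_le_mul (hX 2) (hY 1) (abs_nonneg _) hR0
        linarith only [a1, a2, pow_two R]
      · change |-q| ≤ _
        rw [abs_neg]
        exact bq.trans hRR
      · change |p| ≤ _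
        exact bp.trans hRR
    have hbn : κ ^ 2 ≤ br X Y n := by
      have e : br X Y n = (X 1 * Y 2 - X 2 * Y 1) ^ 2 + (p ^ 2 + q ^ 2) := by
        rw [hn]
        unfold br
        change X 0 * (Y 1 * p - Y 2 * -q) - X 1 * (Y 0 * p - Y 2 * (X 1 * Y 2 - X 2 * Y 1)) +
          X 2 * (Y 0 * -q - Y 1 * (X 1 * Y 2 - X 2 * Y 1)) = _
        rw [hX0, hY0, hp, hq]
        ring
      rw [e, ← hm]
      linarith only [sq_nonneg (X 1 * Y 2 - X 2 * Y 1), hκm]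
    have hg := gram Q X Y n
    rw [sxy, bf_comm hs n X, bf_comm hs n Y, ← hu] at hg
    have bXn : |bf Q X n| ≤ 18 * R ^ 4 := (bf3_le hQ hX bn).trans (le_of_eq (by ring))
    have bYn : |bf Q Y n| ≤ 18 * R ^ 4 := (bf3_le hQ hY bn).trans (le_of_eq (by ring))
    have bnn : |bf Q n n| ≤ 36 * R ^ 5 := (bf3_le hQ bn bn).trans (le_of_eq (by ring))
    have bYY : |bf Q Y Y| ≤ 9 * R ^ 3 := (bf3_le hQ hY hY).trans (le_of_eq (by ring))
    have bu : |u| ≤ 9 * R ^ 3 := by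
      rw [hu]
      exact (bf3_le hQ hX hY).trans (le_of_eq (by ring))
    have hg1 : |dt Q| * κ ^ 4 ≤ 972 * R ^ 8 * (δ + |u|) := by
      have g1 : |dt Q| * κ ^ 4 ≤ |dt Q * br X Y n ^ 2| := by
        rw [abs_mul, abs_of_nonneg (sq_nonneg (br X Y n))]
        refine mul_le_mul_of_nonneg_left ?_ (abs_nonneg _)
        have := pow_le_pow_left₀ (by positivity) hbn 2
        exact (le_of_eq (by ring)).trans this
      refine g1.trans ?_
      rw [hg]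
      exact num_b hR hδ qX qY bYY bu bXn bYn bnn
    exact num_c hR hδ hκ (hκm.trans bm) hμ hg1 hu2

end Pool.D2Con
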