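import Pool.Agent.H42.D2.Cov

/-!
# D2, the conic: a form which is small at five separated points of the conic

`cramer3`: a linear form which is small at three points with a large determinant is small.
`bas3`: a form which is small on a basis is small. `con_quad`: five separated points.
-/

set_option autoImplicit false

namespace Pool.D2Con

open Pool.D2A

/-- A linear form. -/
def lf (u X : Fin 3 → ℝ) : ℝ := u 0 * X 0 + u 1 * X 1 + u 2 * X 2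

/-- **Cramer's rule in space.** -/
theorem cramer3 {u X Y Z : Fin 3 → ℝ} {R η : ℝ} (hX : ∀ i, |X i| ≤ R) (hY : ∀ i, |Y i| ≤ R)
    (hZ : ∀ i, |Z i| ≤ R) (uX : |lf u X| ≤ η) (uY : |lf u Y| ≤ η) (uZ : |lf u Z| ≤ η)
    (i : Fin 3) : |u i| * |br X Y Z| ≤ 6 * R ^ 2 * η := by
  have hR : 0 ≤ R := (abs_nonneg _).trans (hX 0)
  have hη : 0 ≤ η := (abs_nonneg _).trans uX
  have p2 : ∀ {x y z w : ℝ}, |x| ≤ R → |y| ≤ R → |z| ≤ R → |w| ≤ R →
      |x * y - z * w| ≤ 2 * R ^ 2 := by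
    intro x y z w hx hy hz hw
    refine (abs_sub _ _).trans ?_
    rw [abs_mul, abs_mul]
    have a1 := mul_le_mul hx hy (abs_nonneg _) hR
    have a2 := mul_le_mul hz hw (abs_nonneg _) hR
    linarith
  have key : ∀ {a b c x y z : ℝ}, |a| ≤ 2 * R ^ 2 → |b| ≤ 2 * R ^ 2 → |c| ≤ 2 * R ^ 2 →
      |x| ≤ η → |y| ≤ η → |z| ≤ η → |a * x + b * y + c * z| ≤ 6 * R ^ 2 * η := by
    intro a b c x y z ha hb hc hx hy hz
    have a1 := mul_le_mul ha hx (abs_nonneg _) (by positivity)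
    have a2 := mul_le_mul hb hy (abs_nonneg _) (by positivity)
    have a3 := mul_le_mul hc hz (abs_nonneg _) (by positivity)
    rw [← abs_mul] at a1 a2 a3
    have h1 := abs_add_le (a * x + b * y) (c * z)
    have h2 := abs_add_le (a * x) (b * y)
    linarith
  rw [← abs_mul]
  fin_cases i
  · change |u 0 * br X Y Z| ≤ _
    have e : u 0 * br X Y Z = (Y 1 * Z 2 - Y 2 * Z 1) * lf u X + (Z 1 * X 2 - Z 2 * X 1) * lf u Y +
        (X 1 * Y 2 - X 2 * Y 1) * lf u Z := by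
      unfold br lf
      ring
    rw [e]
    exact key (p2 (hY 1) (hZ 2) (hY 2) (hZ 1)) (p2 (hZ 1) (hX 2) (hZ 2) (hX 1))
      (p2 (hX 1) (hY 2) (hX 2) (hY 1)) uX uY uZ
  · change |u 1 * br X Y Z| ≤ _
    have e : u 1 * br X Y Z = (Y 2 * Z 0 - Y 0 * Z 2) * lf u X + (Z 2 * X 0 - Z 0 * X 2) * lf u Y +
        (X 2 * Y 0 - X 0 * Y 2) * lf u Z := by
      unfold br lf
      ring
    rw [e]
    exact key (p2 (hY 2) (hZ 0) (hY 0) (hZ 2)) (p2 (hZ 2) (hX 0) (hZ 0) (hX 2))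
      (p2 (hX 2) (hY 0) (hX 0) (hY 2)) uX uY uZ
  · change |u 2 * br X Y Z| ≤ _
    have e : u 2 * br X Y Z = (Y 0 * Z 1 - Y 1 * Z 0) * lf u X + (Z 0 * X 1 - Z 1 * X 0) * lf u Y +
        (X 0 * Y 1 - X 1 * Y 0) * lf u Z := by
      unfold br lf
      ring
    rw [e]
    exact key (p2 (hY 0) (hZ 1) (hY 1) (hZ 0)) (p2 (hZ 0) (hX 1) (hZ 1) (hX 0))
      (p2 (hX 0) (hY 1) (hX 1) (hY 0)) uX uY uZ

/-- Three-term bound. -/
theorem bf3_row {v : Fin 3 → Fin 3 → ℝ} {X Y : Fin 3 → ℝ} :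
    bf v X Y = lf (fun i => lf (v i) Y) X := by
  rw [bf3]
  unfold lf
  ring

/-- **A form which is small on a basis is small.** -/
theorem bas3 {v : Fin 3 → Fin 3 → ℝ} {X Y Z : Fin 3 → ℝ} {R η : ℝ} (hX : ∀ i, |X i| ≤ R)
    (hY : ∀ i, |Y i| ≤ R) (hZ : ∀ i, |Z i| ≤ R)
    (h : ∀ U ∈ ({X, Y, Z} : Set (Fin 3 → ℝ)), ∀ W ∈ ({X, Y, Z} : Set (Fin 3 → ℝ)),
      |bf v U W| ≤ η) (i j : Fin 3) : |v i j| * |br X Y Z| ^ 2 ≤ 36 * R ^ 4 * η := by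
  have hR : 0 ≤ R := (abs_nonneg _).trans (hX 0)
  have mX : X ∈ ({X, Y, Z} : Set (Fin 3 → ℝ)) := by simp
  have mY : Y ∈ ({X, Y, Z} : Set (Fin 3 → ℝ)) := by simp
  have mZ : Z ∈ ({X, Y, Z} : Set (Fin 3 → ℝ)) := by simp
  obtain ⟨D, hD⟩ : ∃ D, D = |br X Y Z| := ⟨_, rfl⟩
  -- first in the first variable
  have h1 : ∀ W ∈ ({X, Y, Z} : Set (Fin 3 → ℝ)), ∀ i, |lf (v i) W| * |br X Y Z| ≤
      6 * R ^ 2 * η := by
    intro W hW i
    exact cramer3 (u := fun i => lf (v i) W) hX hY hZ (by rw [← bf3_row]; exact h X mX W hW)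
      (by rw [← bf3_row]; exact h Y mY W hW) (by rw [← bf3_row]; exact h Z mZ W hW) i
  have h2 : ∀ W ∈ ({X, Y, Z} : Set (Fin 3 → ℝ)), |lf (fun j => v i j * D) W| ≤
      6 * R ^ 2 * η := by
    intro W hW
    have e : lf (fun j => v i j * D) W = lf (v i) W * D := by
      unfold lf
      ring
    rw [e, abs_mul, hD, abs_abs]
    exact h1 W hW i
  have h3 := cramer3 (u := fun j => v i j * D) hX hY hZ (h2 X mX) (h2 Y mY) (h2 Z mZ) j
  rw [← hD] at h3 ⊢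
  have h4 : |v i j * D| * D = |v i j| * D ^ 2 := by
    rw [abs_mul, hD, abs_abs]
    ring
  rw [h4] at h3
  calc |v i j| * D ^ 2 ≤ 6 * R ^ 2 * (6 * R ^ 2 * η) := h3
    _ = 36 * R ^ 4 * η := by ring

/-- A vector which is nearly orthogonal to `n` and `n'` is nearly parallel to `n x n'`. -/
theorem par3 {V n n' : Fin 3 → ℝ} {N ε : ℝ} (hn : ∀ i, |n i| ≤ N) (hn' : ∀ i, |n' i| ≤ N)
    (h : |lf n V| ≤ ε) (h' : |lf n' V| ≤ ε) :
    |V 1 * (n 1 * n' 2 - n 2 * n' 1) - V 0 * (n 2 * n' 0 - n 0 * n' 2)| ≤ 2 * (N * ε) ∧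
    |V 2 * (n 1 * n' 2 - n 2 * n' 1) - V 0 * (n 0 * n' 1 - n 1 * n' 0)| ≤ 2 * (N * ε) := by
  have hN : 0 ≤ N := (abs_nonneg _).trans (hn 0)
  have key : ∀ {a b x y : ℝ}, |a| ≤ N → |b| ≤ N → |x| ≤ ε → |y| ≤ ε →
      |a * x - b * y| ≤ 2 * (N * ε) := by
    intro a b x y ha hb hx hy
    refine (abs_sub _ _).trans ?_
    rw [abs_mul, abs_mul]
    have a1 := mul_le_mul ha hx (abs_nonneg _) hN
    have a2 := mul_le_mul hb hy (abs_nonneg _) hN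
    linarith only [a1, a2]
  refine ⟨?_, ?_⟩
  · have e : V 1 * (n 1 * n' 2 - n 2 * n' 1) - V 0 * (n 2 * n' 0 - n 0 * n' 2) =
        n' 2 * lf n V - n 2 * lf n' V := by
      unfold lf
      ring
    rw [e]
    exact key (hn' 2) (hn 2) h h'
  · have e : V 2 * (n 1 * n' 2 - n 2 * n' 1) - V 0 * (n 0 * n' 1 - n 1 * n' 0) =
        n 1 * lf n' V - n' 1 * lf n V := by
      unfold lf
      ring
    rw [e]
    exact key (hn 1) (hn' 1) h' h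

/-- **The linear form on a conic**: three separated points. -/
theorem con_lin {Q : Fin 3 → Fin 3 → ℝ} (hs : ∀ i j, Q i j = Q j i) {X : Fin 3 → Fin 3 → ℝ}
    {R κ δ η μ : ℝ} (hR : 1 ≤ R) (hX0 : ∀ k, X k 0 = 1) (hX : ∀ k i, |X k i| ≤ R)
    (hQ : ∀ i j, |Q i j| ≤ R) (hκ : 0 < κ) (hμ : μ ≤ |dt Q|)
    (hsep : ∀ k l, k ≠ l → κ ^ 2 ≤ (X k 1 - X l 1) ^ 2 + (X k 2 - X l 2) ^ 2)
    (hq : ∀ k, |bf Q (X k) (X k)| ≤ δ) {u : Fin 3 → ℝ} (hu : ∀ k, |lf u (X k)| ≤ η)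
    (i : Fin 3) :
    |u i| * (μ * κ ^ 8) ≤ 2 ^ 22 * R ^ 13 * (δ * |u i| + 6 * R ^ 2 * η) := by
  have hR0 : 0 ≤ R := by linarith only [hR]
  have h1 := con_det hs hR (hX0 0) (hX0 1) (hX0 2) (hX 0) (hX 1) (hX 2) hQ hκ hμ
    (hsep 1 0 (by decide)) (hsep 2 0 (by decide)) (hsep 2 1 (by decide)) (hq 0) (hq 1) (hq 2)
  have h2 := cramer3 (hX 0) (hX 1) (hX 2) (hu 0) (hu 1) (hu 2) i
  calc |u i| * (μ * κ ^ 8) ≤ |u i| * (2 ^ 22 * R ^ 13 * (δ + |br (X 0) (X 1) (X 2)|)) :=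
        mul_le_mul_of_nonneg_left h1 (abs_nonneg _)
    _ = 2 ^ 22 * R ^ 13 * (δ * |u i| + |u i| * |br (X 0) (X 1) (X 2)|) := by ring
    _ ≤ 2 ^ 22 * R ^ 13 * (δ * |u i| + 6 * R ^ 2 * η) :=
        mul_le_mul_of_nonneg_left (add_le_add le_rfl h2) (by positivity)

/-- The coordinates of a fourth vector. -/
theorem br_rel (X Y Z W : Fin 3 → ℝ) (i : Fin 3) :
    br X Y Z * W i = br W Y Z * X i + br X W Z * Y i + br X Y W * Z i := by
  unfold br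
  fin_cases i
  · change _ * W 0 = _ * X 0 + _ * Y 0 + _ * Z 0
    ring
  · change _ * W 1 = _ * X 1 + _ * Y 1 + _ * Z 1
    ring
  · change _ * W 2 = _ * X 2 + _ * Y 2 + _ * Z 2
    ring

/-- A form which is small on the three basis vectors and on a fourth vector. -/
theorem bf_off {v : Fin 3 → Fin 3 → ℝ} (hv : ∀ i j, v i j = v j i) {X Y Z W : Fin 3 → ℝ}
    {R δ : ℝ} (hX : ∀ i, |X i| ≤ R) (hY : ∀ i, |Y i| ≤ R) (hZ : ∀ i, |Z i| ≤ R)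
    (hW : ∀ i, |W i| ≤ R) (vX : |bf v X X| ≤ δ) (vY : |bf v Y Y| ≤ δ) (vZ : |bf v Z Z| ≤ δ)
    (vW : |bf v W W| ≤ δ) :
    |br X W Z * br X Y W * bf v Y Z + br W Y Z * br X Y W * bf v X Z +
      br W Y Z * br X W Z * bf v X Y| ≤ 72 * R ^ 6 * δ := by
  have hδ : 0 ≤ δ := (abs_nonneg _).trans vX
  have hR : 0 ≤ R := (abs_nonneg _).trans (hX 0)
  have h1 := bf3_lin v X Y Z W (br W Y Z) (br X W Z) (br X Y W) (br X Y Z) (br_rel X Y Z W)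
  rw [bf_comm hv Y X, bf_comm hv Z X, bf_comm hv Z Y] at h1
  have key : ∀ {a x : ℝ}, |a| ≤ 6 * R ^ 3 → |x| ≤ δ → |a ^ 2 * x| ≤ 36 * R ^ 6 * δ := by
    intro a x ha hx
    rw [abs_mul, abs_pow]
    calc |a| ^ 2 * |x| ≤ (6 * R ^ 3) ^ 2 * δ :=
          mul_le_mul (pow_le_pow_left₀ (abs_nonneg _) ha 2) hx (abs_nonneg _) (by positivity)
      _ = 36 * R ^ 6 * δ := by ring
  have c1 := key (br_le hX hY hZ) vW
  have c2 := key (br_le hW hY hZ) vX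
  have c3 := key (br_le hX hW hZ) vY
  have c4 := key (br_le hX hY hW) vZ
  have e : br X W Z * br X Y W * bf v Y Z + br W Y Z * br X Y W * bf v X Z +
      br W Y Z * br X W Z * bf v X Y = (br X Y Z ^ 2 * bf v W W - br W Y Z ^ 2 * bf v X X -
      br X W Z ^ 2 * bf v Y Y - br X Y W ^ 2 * bf v Z Z) / 2 := by
    rw [h1]
    ring
  rw [e, abs_div, abs_two]
  have d1 := abs_sub (br X Y Z ^ 2 * bf v W W - br W Y Z ^ 2 * bf v X X -
      br X W Z ^ 2 * bf v Y Y) (br X Y W ^ 2 * bf v Z Z)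
  have d2 := abs_sub (br X Y Z ^ 2 * bf v W W - br W Y Z ^ 2 * bf v X X) (br X W Z ^ 2 * bf v Y Y)
  have d3 := abs_sub (br X Y Z ^ 2 * bf v W W) (br W Y Z ^ 2 * bf v X X)
  linarith only [c1, c2, c3, c4, d1, d2, d3]

/-- Pluecker's relation. -/
theorem plu (X Y Z W U : Fin 3 → ℝ) :
    br X Y W * br X U Z - br X W Z * br X Y U = -(br X Y Z * br X W U) := by
  unfold br
  ring

/-- The numbers of the last step. -/
theorem num_e {R δ la P0 S0 S1 P1 w0 w1 : ℝ} (hR : 1 ≤ R) (hla : 0 < la)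
    (hw : la ^ 4 ≤ |w0|) (hP0 : 0 < |P0|)
    (bP : |P0| ≤ 9 * R ^ 3) (bS : |S0| ≤ 9 * R ^ 3)
    (hS : |S1 * w0 - S0 * w1| ≤ 5184 * R ^ 12 * δ)
    (hP : |P1 * w0 - P0 * w1| ≤ 5184 * R ^ 12 * δ) :
    |S1 - S0 / P0 * P1| ≤ 93312 * R ^ 15 * δ / (la ^ 4 * |P0|) := by
  have hR0 : 0 ≤ R := by linarith only [hR]
  have hp : P0 ≠ 0 := abs_pos.mp hP0
  rw [le_div_iff₀ (by positivity)]
  have e : (S1 - S0 / P0 * P1) * (w0 * P0) = P0 * (S1 * w0 - S0 * w1) -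
      S0 * (P1 * w0 - P0 * w1) := by
    field_simp
    ring
  have h1 : |S1 - S0 / P0 * P1| * (|w0| * |P0|) ≤ 93312 * R ^ 15 * δ := by
    rw [← abs_mul, ← abs_mul, e]
    refine (abs_sub _ _).trans ?_
    rw [abs_mul, abs_mul]
    have a1 := mul_le_mul bP hS (abs_nonneg _) (by positivity)
    have a2 := mul_le_mul bS hP (abs_nonneg _) (by positivity)
    exact (add_le_add a1 a2).trans (le_of_eq (by ring))
  refine le_trans ?_ h1
  refine mul_le_mul_of_nonneg_left ?_ (abs_nonneg _)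
  exact mul_le_mul_of_nonneg_right hw hP0.le

/-- **Five points in general position near a conic**: a form which is small at them is a multiple
of the form of the conic. -/
theorem con_quad' {Q s : Fin 3 → Fin 3 → ℝ} (hQs : ∀ i j, Q i j = Q j i)
    (hss : ∀ i j, s i j = s j i) {X Y Z W U : Fin 3 → ℝ} {R δ la μ : ℝ} (hR : 1 ≤ R)
    (hX : ∀ i, |X i| ≤ R) (hY : ∀ i, |Y i| ≤ R) (hZ : ∀ i, |Z i| ≤ R) (hW : ∀ i, |W i| ≤ R)
    (hU : ∀ i, |U i| ≤ R) (hQ : ∀ i j, |Q i j| ≤ R) (hsR : ∀ i j, |s i j| ≤ R) (hla : 0 < la)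
    (hμ0 : 0 < μ) (hμ : μ ≤ |dt Q|) (hd : 648 * R ^ 6 * δ ≤ μ * la ^ 2)
    (b1 : la ≤ |br X Y Z|) (b2 : la ≤ |br W Y Z|) (b3 : la ≤ |br U Y Z|) (b4 : la ≤ |br X W U|)
    (qX : |bf Q X X| ≤ δ) (qY : |bf Q Y Y| ≤ δ) (qZ : |bf Q Z Z| ≤ δ) (qW : |bf Q W W| ≤ δ)
    (qU : |bf Q U U| ≤ δ) (sX : |bf s X X| ≤ δ) (sY : |bf s Y Y| ≤ δ) (sZ : |bf s Z Z| ≤ δ)
    (sW : |bf s W W| ≤ δ) (sU : |bf s U U| ≤ δ) :
    ∃ ρ : ℝ, |ρ| * (μ * la ^ 2) ≤ 2916 * R ^ 9 ∧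
      ∀ i j, |s i j - ρ * Q i j| ≤ 2 ^ 31 * R ^ 25 * δ / (μ * la ^ 8) := by
  have hR0 : 0 ≤ R := by linarith only [hR]
  have hδ : 0 ≤ δ := (abs_nonneg _).trans qX
  obtain ⟨n, hn⟩ : ∃ n : Fin 3 → ℝ, n = ![br X W Z * br X Y W, br W Y Z * br X Y W,
    br W Y Z * br X W Z] := ⟨_, rfl⟩
  obtain ⟨n', hn'⟩ : ∃ n' : Fin 3 → ℝ, n' = ![br X U Z * br X Y U, br U Y Z * br X Y U,
    br U Y Z * br X U Z] := ⟨_, rfl⟩
  have b2' : ∀ {a b : ℝ}, |a| ≤ 6 * R ^ 3 → |b| ≤ 6 * R ^ 3 → |a * b| ≤ 36 * R ^ 6 := by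
    intro a b ha hb
    rw [abs_mul]
    exact (mul_le_mul ha hb (abs_nonneg _) (by positivity)).trans (le_of_eq (by ring))
  have bn : ∀ i, |n i| ≤ 36 * R ^ 6 := by
    intro i
    rw [hn]
    fin_cases i
    · exact b2' (br_le hX hW hZ) (br_le hX hY hW)
    · exact b2' (br_le hW hY hZ) (br_le hX hY hW)
    · exact b2' (br_le hW hY hZ) (br_le hX hW hZ)
  have bn' : ∀ i, |n' i| ≤ 36 * R ^ 6 := by
    intro i
    rw [hn']
    fin_cases i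
    · exact b2' (br_le hX hU hZ) (br_le hX hY hU)
    · exact b2' (br_le hU hY hZ) (br_le hX hY hU)
    · exact b2' (br_le hU hY hZ) (br_le hX hU hZ)
  have hlf : ∀ {v : Fin 3 → Fin 3 → ℝ}, (∀ i j, v i j = v j i) → |bf v X X| ≤ δ →
      |bf v Y Y| ≤ δ → |bf v Z Z| ≤ δ → |bf v W W| ≤ δ → |bf v U U| ≤ δ →
      |lf n ![bf v Y Z, bf v X Z, bf v X Y]| ≤ 72 * R ^ 6 * δ ∧
      |lf n' ![bf v Y Z, bf v X Z, bf v X Y]| ≤ 72 * R ^ 6 * δ := by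
    intro v hv vX vY vZ vW vU
    constructor
    · rw [hn]
      exact bf_off hv hX hY hZ hW vX vY vZ vW
    · rw [hn']
      exact bf_off hv hX hY hZ hU vX vY vZ vU
  obtain ⟨w0, hw0⟩ : ∃ w, w = n 1 * n' 2 - n 2 * n' 1 := ⟨_, rfl⟩
  obtain ⟨w1, hw1⟩ : ∃ w, w = n 2 * n' 0 - n 0 * n' 2 := ⟨_, rfl⟩
  obtain ⟨w2, hw2⟩ : ∃ w, w = n 0 * n' 1 - n 1 * n' 0 := ⟨_, rfl⟩
  have hw : la ^ 4 ≤ |w0| := by
    have e : w0 = -(br W Y Z * br U Y Z * (br X Y Z * br X W U)) := by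
      have h1 := plu X Y Z W U
      rw [hw0, hn, hn']
      change br W Y Z * br X Y W * (br U Y Z * br X U Z) -
        br W Y Z * br X W Z * (br U Y Z * br X Y U) = _
      linear_combination (br W Y Z * br U Y Z) * h1
    rw [e, abs_neg, abs_mul, abs_mul, abs_mul]
    calc la ^ 4 = la * la * (la * la) := by ring
      _ ≤ _ := mul_le_mul (mul_le_mul b2 b3 hla.le (abs_nonneg _))
        (mul_le_mul b1 b4 hla.le (abs_nonneg _)) (by positivity) (by positivity)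
  have e36 : 2 * (36 * R ^ 6 * (72 * R ^ 6 * δ)) = 5184 * R ^ 12 * δ := by ring
  obtain ⟨s1, s2⟩ := hlf hss sX sY sZ sW sU
  obtain ⟨q1, q2⟩ := hlf hQs qX qY qZ qW qU
  have hS := par3 bn bn' s1 s2
  have hP := par3 bn bn' q1 q2
  rw [← hw0, ← hw1, ← hw2, e36] at hS hP
  obtain ⟨S0, hS0⟩ : ∃ x, x = bf s Y Z := ⟨_, rfl⟩
  obtain ⟨S1, hS1⟩ : ∃ x, x = bf s X Z := ⟨_, rfl⟩
  obtain ⟨S2, hS2⟩ : ∃ x, x = bf s X Y := ⟨_, rfl⟩
  obtain ⟨P0, hP0⟩ : ∃ x, x = bf Q Y Z := ⟨_, rfl⟩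
  obtain ⟨P1, hP1⟩ : ∃ x, x = bf Q X Z := ⟨_, rfl⟩
  obtain ⟨P2, hP2⟩ : ∃ x, x = bf Q X Y := ⟨_, rfl⟩
  have hS' : |S1 * w0 - S0 * w1| ≤ 5184 * R ^ 12 * δ ∧ |S2 * w0 - S0 * w2| ≤
      5184 * R ^ 12 * δ := by
    rw [hS0, hS1, hS2]
    exact hS
  have hP' : |P1 * w0 - P0 * w1| ≤ 5184 * R ^ 12 * δ ∧ |P2 * w0 - P0 * w2| ≤
      5184 * R ^ 12 * δ := by
    rw [hP0, hP1, hP2]
    exact hP
  have c9 : ∀ {v : Fin 3 → Fin 3 → ℝ} {A B : Fin 3 → ℝ}, (∀ i j, |v i j| ≤ R) →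
      (∀ i, |A i| ≤ R) → (∀ i, |B i| ≤ R) → |bf v A B| ≤ 9 * R ^ 3 := by
    intro v A B hv hA hB
    exact (bf3_le hv hA hB).trans (le_of_eq (by ring))
  have bP0 : |P0| ≤ 9 * R ^ 3 := by rw [hP0]; exact c9 hQ hY hZ
  have bP1 : |P1| ≤ 9 * R ^ 3 := by rw [hP1]; exact c9 hQ hX hZ
  have bP2 : |P2| ≤ 9 * R ^ 3 := by rw [hP2]; exact c9 hQ hX hY
  have bS0 : |S0| ≤ 9 * R ^ 3 := by rw [hS0]; exact c9 hsR hY hZ
  -- the lower bound
  have hPl : μ * la ^ 2 ≤ 324 * R ^ 6 * |P0| := by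
    have hg := gram Q X Y Z
    rw [bf_comm hQs Y X, bf_comm hQs Z X, bf_comm hQs Z Y, ← hP0, ← hP1, ← hP2] at hg
    have g0 : μ * la ^ 2 ≤ |dt Q * br X Y Z ^ 2| := by
      rw [abs_mul, abs_pow]
      exact mul_le_mul hμ (pow_le_pow_left₀ hla.le b1 2) (by positivity) (abs_nonneg _)
    rw [hg] at g0
    have e : bf Q X X * (bf Q Y Y * bf Q Z Z - P0 * P0) - P2 * (P2 * bf Q Z Z - P0 * P1) +
        P1 * (P2 * P0 - bf Q Y Y * P1) = bf Q X X * (bf Q Y Y * bf Q Z Z) -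
        bf Q X X * (P0 * P0) - bf Q Z Z * (P2 * P2) - bf Q Y Y * (P1 * P1) +
        2 * (P0 * (P1 * P2)) := by ring
    rw [e] at g0
    have k2 : ∀ {a b : ℝ}, |a| ≤ 9 * R ^ 3 → |b| ≤ 9 * R ^ 3 → |a * b| ≤ 81 * R ^ 6 := by
      intro a b ha hb
      rw [abs_mul]
      exact (mul_le_mul ha hb (abs_nonneg _) (by positivity)).trans (le_of_eq (by ring))
    have k3 : ∀ {x a b : ℝ}, |x| ≤ δ → |a| ≤ 9 * R ^ 3 → |b| ≤ 9 * R ^ 3 →
        |x * (a * b)| ≤ 81 * R ^ 6 * δ := by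
      intro x a b hx ha hb
      rw [abs_mul]
      exact (mul_le_mul hx (k2 ha hb) (abs_nonneg _) hδ).trans (le_of_eq (by ring))
    have t1 := k3 qX (c9 hQ hY hY) (c9 hQ hZ hZ)
    have t2 := k3 qX bP0 bP0
    have t3 := k3 qZ bP2 bP2
    have t4 := k3 qY bP1 bP1
    have t5 : |2 * (P0 * (P1 * P2))| ≤ 162 * R ^ 6 * |P0| := by
      rw [abs_mul, abs_two, abs_mul]
      exact (mul_le_mul_of_nonneg_left (mul_le_mul_of_nonneg_left (k2 bP1 bP2) (abs_nonneg _))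
        (by norm_num)).trans (le_of_eq (by ring))
    have u1 := abs_add_le (bf Q X X * (bf Q Y Y * bf Q Z Z) - bf Q X X * (P0 * P0) -
      bf Q Z Z * (P2 * P2) - bf Q Y Y * (P1 * P1)) (2 * (P0 * (P1 * P2)))
    have u2 := abs_sub (bf Q X X * (bf Q Y Y * bf Q Z Z) - bf Q X X * (P0 * P0) -
      bf Q Z Z * (P2 * P2)) (bf Q Y Y * (P1 * P1))
    have u3 := abs_sub (bf Q X X * (bf Q Y Y * bf Q Z Z) - bf Q X X * (P0 * P0))
      (bf Q Z Z * (P2 * P2))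
    have u4 := abs_sub (bf Q X X * (bf Q Y Y * bf Q Z Z)) (bf Q X X * (P0 * P0))
    linarith only [g0, t1, t2, t3, t4, t5, u1, u2, u3, u4, hd]
  have hPpos : 0 < |P0| := by
    have h1 : 0 < 324 * R ^ 6 * |P0| := lt_of_lt_of_le (by positivity) hPl
    exact pos_of_mul_pos_right h1 (by positivity)
  refine ⟨S0 / P0, ?_, ?_⟩
  · rw [abs_div, div_mul_eq_mul_div, div_le_iff₀ hPpos]
    calc |S0| * (μ * la ^ 2) ≤ (9 * R ^ 3) * (324 * R ^ 6 * |P0|) :=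
          mul_le_mul bS0 hPl (by positivity) (by positivity)
      _ = 2916 * R ^ 9 * |P0| := by ring
  · have v1 := num_e (R := R) (δ := δ) (la := la) hR hla hw hPpos bP0 bS0 hS'.1 hP'.1
    have v2 := num_e (R := R) (δ := δ) (la := la) hR hla hw hPpos bP0 bS0 hS'.2 hP'.2
    obtain ⟨η, hη⟩ : ∃ η, η = 93312 * R ^ 15 * δ / (la ^ 4 * |P0|) := ⟨_, rfl⟩
    rw [← hη] at v1 v2
    have hη0 : 0 ≤ η := by rw [hη]; positivity
    obtain ⟨v, hv⟩ : ∃ v : Fin 3 → Fin 3 → ℝ, v = fun i j => s i j - S0 / P0 * Q i j := ⟨_, rfl⟩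
    have hbv : ∀ A B : Fin 3 → ℝ, bf v A B = bf s A B - S0 / P0 * bf Q A B := by
      intro A B
      rw [hv]
      simp only [bf3]
      ring
    have hvs : ∀ i j, v i j = v j i := by
      intro i j
      rw [hv]
      simp only []
      rw [hss i j, hQs i j]
    have hla6 : la ≤ 6 * R ^ 3 := b1.trans (br_le hX hY hZ)
    have hdiag : ∀ {a b : ℝ}, |a| ≤ δ → |b| ≤ δ → |a - S0 / P0 * b| ≤ η := by
      intro a b ha hb
      rw [hη, le_div_iff₀ (by positivity)]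
      have h1 : |a - S0 / P0 * b| * |P0| ≤ 18 * R ^ 3 * δ := by
        rw [← abs_mul]
        have hp : P0 ≠ 0 := abs_pos.mp hPpos
        have e : (a - S0 / P0 * b) * P0 = P0 * a - S0 * b := by
          field_simp
        rw [e]
        refine (abs_sub _ _).trans ?_
        rw [abs_mul, abs_mul]
        have a1 := mul_le_mul bP0 ha (abs_nonneg _) (by positivity)
        have a2 := mul_le_mul bS0 hb (abs_nonneg _) (by positivity)
        exact (add_le_add a1 a2).trans (le_of_eq (by ring))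
      calc |a - S0 / P0 * b| * (la ^ 4 * |P0|) = |a - S0 / P0 * b| * |P0| * la ^ 4 := by ring
        _ ≤ 18 * R ^ 3 * δ * (6 * R ^ 3) ^ 4 :=
            mul_le_mul h1 (pow_le_pow_left₀ hla.le hla6 4) (by positivity) (by positivity)
        _ = 23328 * (R ^ 15 * δ) := by ring
        _ ≤ 93312 * (R ^ 15 * δ) := mul_le_mul_of_nonneg_right (by norm_num) (by positivity)
        _ = 93312 * R ^ 15 * δ := by ring
    have vXX : |bf v X X| ≤ η := by rw [hbv]; exact hdiag sX qX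
    have vYY : |bf v Y Y| ≤ η := by rw [hbv]; exact hdiag sY qY
    have vZZ : |bf v Z Z| ≤ η := by rw [hbv]; exact hdiag sZ qZ
    have vYZ : |bf v Y Z| ≤ η := by
      rw [hbv, ← hS0, ← hP0, div_mul_cancel₀ _ (abs_pos.mp hPpos), sub_self, abs_zero]
      exact hη0
    have vXZ : |bf v X Z| ≤ η := by rw [hbv, ← hS1, ← hP1]; exact v1
    have vXY : |bf v X Y| ≤ η := by rw [hbv, ← hS2, ← hP2]; exact v2
    intro i j
    have h1 := bas3 (v := v) (η := η) hX hY hZ (by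
      intro A hA B hB
      simp only [Set.mem_insert_iff, Set.mem_singleton_iff] at hA hB
      rcases hA with rfl | rfl | rfl <;> rcases hB with rfl | rfl | rfl
      · exact vXX
      · exact vXY
      · exact vXZ
      · rw [bf_comm hvs]; exact vXY
      · exact vYY
      · exact vYZ
      · rw [bf_comm hvs]; exact vXZ
      · rw [bf_comm hvs]; exact vYZ
      · exact vZZ) i j
    have h2 : |v i j| * la ^ 2 ≤ 36 * R ^ 4 * η :=
      (mul_le_mul_of_nonneg_left (pow_le_pow_left₀ hla.le b1 2) (abs_nonneg _)).trans h1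
    have h3 : η * (la ^ 4 * |P0|) = 93312 * R ^ 15 * δ := by
      rw [hη, div_mul_cancel₀ _ (by positivity)]
    have e : |s i j - S0 / P0 * Q i j| = |v i j| := by rw [hv]
    rw [e, le_div_iff₀ (by positivity)]
    calc |v i j| * (μ * la ^ 8) = |v i j| * la ^ 2 * (la ^ 4 * (μ * la ^ 2)) := by ring
      _ ≤ 36 * R ^ 4 * η * (la ^ 4 * (324 * R ^ 6 * |P0|)) :=
          mul_le_mul h2 (mul_le_mul_of_nonneg_left hPl (by positivity)) (by positivity)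
            (by positivity)
      _ = 11664 * R ^ 10 * (η * (la ^ 4 * |P0|)) := by ring
      _ = 1088391168 * (R ^ 25 * δ) := by rw [h3]; ring
      _ ≤ 2 ^ 31 * (R ^ 25 * δ) := mul_le_mul_of_nonneg_right (by norm_num) (by positivity)
      _ = 2 ^ 31 * R ^ 25 * δ := by ring

/-- **Five separated points near a nondegenerate conic.** -/
theorem con_quad {Q s : Fin 3 → Fin 3 → ℝ} (hQs : ∀ i j, Q i j = Q j i)
    (hss : ∀ i j, s i j = s j i) {X : Fin 5 → Fin 3 → ℝ} {R κ δ la μ : ℝ} (hR : 1 ≤ R)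
    (hX0 : ∀ k, X k 0 = 1) (hX : ∀ k i, |X k i| ≤ R) (hQ : ∀ i j, |Q i j| ≤ R)
    (hsR : ∀ i j, |s i j| ≤ R) (hκ : 0 < κ) (hla : 0 < la) (hμ0 : 0 < μ) (hμ : μ ≤ |dt Q|)
    (hlk : 2 ^ 23 * R ^ 13 * la ≤ μ * κ ^ 8) (hdk : 2 ^ 23 * R ^ 13 * δ ≤ μ * κ ^ 8)
    (hd : 648 * R ^ 6 * δ ≤ μ * la ^ 2)
    (hsep : ∀ k l, k ≠ l → κ ^ 2 ≤ (X k 1 - X l 1) ^ 2 + (X k 2 - X l 2) ^ 2)
    (hq : ∀ k, |bf Q (X k) (X k)| ≤ δ) (hs : ∀ k, |bf s (X k) (X k)| ≤ δ) :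
    ∃ ρ : ℝ, |ρ| * (μ * la ^ 2) ≤ 2916 * R ^ 9 ∧
      ∀ i j, |s i j - ρ * Q i j| ≤ 2 ^ 31 * R ^ 25 * δ / (μ * la ^ 8) := by
  have hR0 : 0 ≤ R := by linarith only [hR]
  have hbr : ∀ {a b c : Fin 5}, a ≠ b → a ≠ c → b ≠ c → la ≤ |br (X a) (X b) (X c)| := by
    intro a b c hab hac hbc
    have h1 := con_det hQs hR (hX0 a) (hX0 b) (hX0 c) (hX a) (hX b) (hX c) hQ hκ hμ
      (hsep b a hab.symm) (hsep c a hac.symm) (hsep c b hbc.symm) (hq a) (hq b) (hq c)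
    have hp : 0 < 2 ^ 23 * R ^ 13 := by positivity
    have h2 : 2 ^ 23 * R ^ 13 * la ≤ 2 ^ 23 * R ^ 13 * |br (X a) (X b) (X c)| := by
      have e1 : 2 ^ 22 * R ^ 13 * (δ + |br (X a) (X b) (X c)|) =
        (2 ^ 23 * R ^ 13 * δ) / 2 + (2 ^ 23 * R ^ 13 * |br (X a) (X b) (X c)|) / 2 := by ring
      rw [e1] at h1
      linarith only [h1, hlk, hdk]
    exact le_of_mul_le_mul_left h2 hp
  exact con_quad' hQs hss hR (hX 0) (hX 1) (hX 2) (hX 3) (hX 4) hQ hsR hla hμ0 hμ hd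
    (hbr (by decide) (by decide) (by decide)) (hbr (by decide) (by decide) (by decide))
    (hbr (by decide) (by decide) (by decide)) (hbr (by decide) (by decide) (by decide))
    (hq 0) (hq 1) (hq 2) (hq 3) (hq 4) (hs 0) (hs 1) (hs 2) (hs 3) (hs 4)

end Pool.D2Con
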