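import Pool.Agent.H60.D2.Rnd
import Pool.Agent.H23.D2.Cng

/-!
# Displacements in natural units

`CurB`: the curvature of the charts is natural on their natural boxes. `nrm_dsp`: then the segment
between two points which are deep in the box stays in the box, the natural norms along the segment
are equivalent, and the natural norm of the displacement is small. `nrm_off`: the natural norm of the
displacement from a line.
-/

set_option autoImplicit false

namespace Pool.D2S

open Finset Real MvPolynomial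
open Pool.Agent.H49.Ent Pool.Agent.H32.Dense Pool.STK Pool.KA Pool.KSAT Pool.K2S Pool.PB Pool.S6C
open Pool.GEN Pool.CHT Pool.CHX Pool.D2F Pool.D2R Pool.D2Z

variable {m : ℕ}

/-- The mean value theorem of second order on a segment. -/
theorem ev_seg2 (P : MvPolynomial (Option (Fin m)) ℝ) (x δ : Option (Fin m) → ℝ) {M : ℝ}
    (hM : ∀ u ∈ Set.Icc (0 : ℝ) 1, |hs P (fun o => x o + u * δ o) δ δ| ≤ M) :
    ∀ u ∈ Set.Icc (0 : ℝ) 1,
      |eval (fun o => x o + u * δ o) P - eval x P - u * dd P x δ| ≤ M := by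
  classical
  obtain ⟨Q, hQ⟩ : ∃ Q : MvPolynomial (Option (Fin m)) ℝ,
      Q = P - ∑ o, C (eval x (pderiv o P)) * X o := ⟨_, rfl⟩
  have e1 : ∀ y, eval y Q = eval y P - ∑ o, eval x (pderiv o P) * y o := by
    intro y
    rw [hQ, map_sub, map_sum]
    congr 1
    exact Finset.sum_congr rfl fun o _ => by rw [map_mul, eval_C, eval_X]
  have e2 : ∀ y, dd Q y δ = dd P y δ - dd P x δ := by
    intro y
    unfold dd
    rw [← Finset.sum_sub_distrib]
    refine Finset.sum_congr rfl fun o _ => ?_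
    have e3 : eval y (pderiv o Q) = eval y (pderiv o P) - eval x (pderiv o P) := by
      rw [hQ, map_sub, map_sub, map_sum, map_sum]
      congr 1
      rw [Finset.sum_eq_single o]
      · rw [pderiv_C_mul, pderiv_X_self, map_mul, eval_C, map_one, mul_one]
      · intro o' _ ho
        rw [pderiv_C_mul, pderiv_X_of_ne ho, mul_zero, map_zero]
      · intro h
        exact absurd (Finset.mem_univ _) h
    rw [e3, sub_mul]
  intro u hu
  have h1 := mv_seg Q x δ (M := M) (fun u hu => by
    rw [e2]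
    exact dd_seg P x δ δ hM u hu) u hu
  have e3 : eval (fun o => x o + u * δ o) Q - eval x Q =
      eval (fun o => x o + u * δ o) P - eval x P - u * dd P x δ := by
    rw [e1, e1]
    have e4 : ∑ o, eval x (pderiv o P) * (x o + u * δ o) =
        ∑ o, eval x (pderiv o P) * x o + u * dd P x δ := by
      unfold dd
      rw [Finset.mul_sum, ← Finset.sum_add_distrib]
      exact Finset.sum_congr rfl fun o _ => by ring
    rw [e4]
    ring
  rwa [e3] at h1

/-- **The curvature is natural** on the natural boxes. -/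
def CurB (c : ℕ → Fin m) (ψ : ℕ → MvPolynomial (Option (Fin m)) ℝ) (g : ℕ → ℕ) (a i : ℕ)
    (t K : ℝ) : Prop :=
  ∀ l < i, ∀ y : Option (Fin m) → ℝ, NBx c ψ g a t l y → ∀ V V' : Option (Fin m) → ℝ,
    |hs (ψ l) y V V'| ≤ K / 2 ^ g l * nrm c ψ g a l y V * nrm c ψ g a l y V'

theorem nrm_succ (c : ℕ → Fin m) (ψ : ℕ → MvPolynomial (Option (Fin m)) ℝ) (g : ℕ → ℕ) (a l : ℕ)
    (x V : Option (Fin m) → ℝ) :
    nrm c ψ g a (l + 1) x V = nrm c ψ g a l x V + 2 ^ g l * |V (some (c l)) - dd (ψ l) x V| := by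
  unfold nrm
  rw [Finset.sum_range_succ, ← add_assoc]

/-- **Displacements inside the box.** -/
theorem nrm_dsp {c : ℕ → Fin m} {ψ : ℕ → MvPolynomial (Option (Fin m)) ℝ} {g : ℕ → ℕ}
    {a i n : ℕ} {K : ℝ} {x b : Option (Fin m) → ℝ} (hK : 0 ≤ K)
    (hcur : CurB c ψ g a i (x none) K) (hn1 : 2 ≤ n)
    (hn : K * 4 ^ i * (4 * i + 4) ^ 2 ≤ 2 ^ n)
    (hx : ∀ l < i, |x (some (c l)) - eval x (ψ l)| ≤ 1 / 2 ^ (g l + n))
    (hb0 : |b none - x none| ≤ 1 / 2 ^ (a + n))
    (hb : ∀ l < i, |b (some (c l)) - eval b (ψ l)| ≤ 1 / 2 ^ (g l + n)) :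
    (∀ u ∈ Set.Icc (0 : ℝ) 1, NBx c ψ g a (x none) i (fun o => x o + u * (b o - x o))) ∧
    (∀ u ∈ Set.Icc (0 : ℝ) 1, ∀ V, nrm c ψ g a i (fun o => x o + u * (b o - x o)) V ≤
      2 ^ i * nrm c ψ g a i x V) ∧
    nrm c ψ g a i x (fun o => b o - x o) ≤ (4 * i + 4) / 2 ^ n := by
  obtain ⟨δ, hδ⟩ : ∃ δ : Option (Fin m) → ℝ, δ = fun o => b o - x o := ⟨_, rfl⟩
  obtain ⟨Y, hY⟩ : ∃ Y : ℝ → Option (Fin m) → ℝ, Y = fun u o => x o + u * δ o := ⟨_, rfl⟩
  have hYu : ∀ u, (fun o => x o + u * (b o - x o)) = Y u := fun u => by rw [hY, hδ]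
  have hYu' : ∀ u, (fun o => x o + u * δ o) = Y u := fun u => by rw [hY]
  have hY1 : Y 1 = b := by
    rw [hY, hδ]
    funext o
    ring
  obtain ⟨ρ, hρ⟩ : ∃ ρ : ℝ, ρ = 1 / 2 ^ n := ⟨_, rfl⟩
  have hρ0 : 0 < ρ := by rw [hρ]; positivity
  have hρ2 : ρ ≤ 1 / 4 := by
    rw [hρ, show (4 : ℝ) = 2 ^ 2 by norm_num]
    exact inv_mono hn1
  have e2n : ∀ z : ℕ, (1 : ℝ) / 2 ^ (z + n) = ρ / 2 ^ z := fun z => by
    rw [hρ, pow_add]
    field_simp
  have hKρ : K * 4 ^ i * (4 * i + 4) ^ 2 * ρ ≤ 1 := by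
    rw [hρ, mul_one_div, div_le_one (by positivity)]
    exact hn
  have hi0 : (0 : ℝ) ≤ i := Nat.cast_nonneg i
  have main : ∀ l ≤ i,
      (∀ u ∈ Set.Icc (0 : ℝ) 1, NBx c ψ g a (x none) l (Y u)) ∧
      (∀ u ∈ Set.Icc (0 : ℝ) 1, ∀ V, nrm c ψ g a l (Y u) V ≤ 2 ^ l * nrm c ψ g a l x V) ∧
      nrm c ψ g a l x δ ≤ (4 * l + 4) * ρ := by
    intro l
    induction l with
    | zero =>
      intro _
      refine ⟨fun u hu => ⟨?_, fun j hj => absurd hj (Nat.not_lt_zero _)⟩, fun u hu V => ?_, ?_⟩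
      · have e1 : Y u none - x none = u * (b none - x none) := by rw [hY, hδ]; ring
        rw [e1, abs_mul, abs_of_nonneg hu.1]
        calc u * |b none - x none| ≤ 1 * (1 / 2 ^ a) := by
              refine mul_le_mul hu.2 (hb0.trans ?_) (abs_nonneg _) (by norm_num)
              exact inv_mono (Nat.le_add_right _ _)
          _ = _ := one_mul _
      · unfold nrm
        rw [Finset.sum_range_zero, Finset.sum_range_zero, pow_zero, one_mul]
      · unfold nrm
        rw [Finset.sum_range_zero, add_zero]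
        have e1 : δ none = b none - x none := by rw [hδ]
        rw [e1]
        have h1 : (2 : ℝ) ^ a * |b none - x none| ≤ ρ := by
          calc (2 : ℝ) ^ a * |b none - x none| ≤ 2 ^ a * (1 / 2 ^ (a + n)) :=
                mul_le_mul_of_nonneg_left hb0 (by positivity)
            _ = ρ := by rw [e2n]; field_simp
        push_cast
        linarith
    | succ l ih =>
      intro hl
      obtain ⟨i1, i2, i3⟩ := ih (by omega)
      have hli : (l : ℝ) + 1 ≤ i := by exact_mod_cast hl
      have hl0 : (0 : ℝ) ≤ l := Nat.cast_nonneg l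
      have hδn := nrm_nonneg c ψ g a l x δ
      obtain ⟨κ, hκ⟩ : ∃ κ : ℝ, κ = 1 / 2 ^ g l := ⟨_, rfl⟩
      have hκ0 : 0 < κ := by rw [hκ]; positivity
      have hcl : l < i := by omega
      -- the curvature along the segment
      have hc1 : ∀ u ∈ Set.Icc (0 : ℝ) 1, ∀ V, |hs (ψ l) (Y u) δ V| ≤
          K * κ * (2 ^ l * ((4 * l + 4) * ρ)) * (2 ^ l * nrm c ψ g a l x V) := by
        intro u hu V
        refine (hcur l hcl (Y u) (i1 u hu) δ V).trans ?_
        have h1 : nrm c ψ g a l (Y u) δ ≤ 2 ^ l * ((4 * l + 4) * ρ) :=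
          (i2 u hu δ).trans (mul_le_mul_of_nonneg_left i3 (by positivity))
        rw [div_eq_mul_one_div, ← hκ]
        exact mul_le_mul (mul_le_mul_of_nonneg_left h1 (by positivity)) (i2 u hu V)
          (nrm_nonneg _ _ _ _ _ _ _) (by positivity)
      have h44 : (2 : ℝ) ^ l * 2 ^ l ≤ 4 ^ i := by
        rw [← mul_pow]
        norm_num
        exact pow_le_pow_right₀ (by norm_num) (by omega)
      have hcon : K * (2 ^ l * 2 ^ l) * (4 * l + 4) ^ 2 * ρ ≤ 1 := by
        refine le_trans ?_ hKρ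
        refine mul_le_mul_of_nonneg_right ?_ hρ0.le
        refine mul_le_mul (mul_le_mul_of_nonneg_left h44 hK) ?_ (by positivity) (by positivity)
        exact pow_le_pow_left₀ (by positivity) (by linarith) 2
      have hcon1 : K * (2 ^ l * 2 ^ l) * (4 * l + 4) * ρ ≤ 1 := by
        refine le_trans ?_ hcon
        refine mul_le_mul_of_nonneg_right ?_ hρ0.le
        refine mul_le_mul_of_nonneg_left ?_ (by positivity)
        have h1 : (1 : ℝ) ≤ 4 * l + 4 := by linarith
        exact le_self_pow₀ h1 (by norm_num)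
      -- second order
      have hc2 : ∀ u ∈ Set.Icc (0 : ℝ) 1, |hs (ψ l) (fun o => x o + u * δ o) δ δ| ≤ κ * ρ := by
        intro u hu
        rw [hYu']
        refine (hc1 u hu δ).trans ?_
        calc K * κ * (2 ^ l * ((4 * l + 4) * ρ)) * (2 ^ l * nrm c ψ g a l x δ) ≤
              K * κ * (2 ^ l * ((4 * l + 4) * ρ)) * (2 ^ l * ((4 * l + 4) * ρ)) :=
              mul_le_mul_of_nonneg_left (mul_le_mul_of_nonneg_left i3 (by positivity))
                (by positivity)
          _ = κ * ρ * (K * (2 ^ l * 2 ^ l) * (4 * l + 4) ^ 2 * ρ) := by ring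
          _ ≤ κ * ρ * 1 := mul_le_mul_of_nonneg_left hcon (by positivity)
          _ = _ := mul_one _
      have hc3 := ev_seg2 (ψ l) x δ hc2
      have hc4 : ∀ u ∈ Set.Icc (0 : ℝ) 1, ∀ V, |dd (ψ l) (Y u) V - dd (ψ l) x V| ≤
          κ * nrm c ψ g a l x V := by
        intro u hu V
        have hV0 := nrm_nonneg c ψ g a l x V
        have h1 := dd_seg (ψ l) x δ V (M := κ * nrm c ψ g a l x V) (fun u hu => by
          rw [hYu']
          refine (hc1 u hu V).trans ?_
          calc K * κ * (2 ^ l * ((4 * l + 4) * ρ)) * (2 ^ l * nrm c ψ g a l x V) =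
                κ * nrm c ψ g a l x V * (K * (2 ^ l * 2 ^ l) * (4 * l + 4) * ρ) := by ring
            _ ≤ κ * nrm c ψ g a l x V * 1 :=
                mul_le_mul_of_nonneg_left hcon1 (by positivity)
            _ = _ := mul_one _) u hu
        rwa [hYu'] at h1
      have hx' : |x (some (c l)) - eval x (ψ l)| ≤ κ * ρ := by
        refine (hx l hcl).trans (le_of_eq ?_)
        rw [e2n, hκ]
        ring
      have hb' : |b (some (c l)) - eval b (ψ l)| ≤ κ * ρ := by
        refine (hb l hcl).trans (le_of_eq ?_)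
        rw [e2n, hκ]
        ring
      have hx'' := abs_le.mp hx'
      have hb'' := abs_le.mp hb'
      have hδl : δ (some (c l)) = b (some (c l)) - x (some (c l)) := by rw [hδ]
      refine ⟨fun u hu => ⟨(i1 u hu).1, fun j hj => ?_⟩, fun u hu V => ?_, ?_⟩
      · rcases Nat.lt_succ_iff_lt_or_eq.mp hj with hjl | hjl
        · exact (i1 u hu).2 j hjl
        · subst hjl
          have h1 := hc3 u hu
          have h2 := hc3 1 ⟨zero_le_one, le_rfl⟩
          rw [hYu'] at h1 h2
          rw [hY1, one_mul] at h2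
          have h1' := abs_le.mp h1
          have h2' := abs_le.mp h2
          have e1 : Y u (some (c j)) = x (some (c j)) + u * (b (some (c j)) - x (some (c j))) := by
            rw [hY, hδ]
          have hκρ : 0 < κ * ρ := mul_pos hκ0 hρ0
          -- the defect of linearity
          have e2 : Y u (some (c j)) - eval (Y u) (ψ j) =
              (1 - u) * (x (some (c j)) - eval x (ψ j)) + u * (b (some (c j)) - eval b (ψ j)) +
              u * (eval b (ψ j) - eval x (ψ j) - dd (ψ j) x δ) -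
              (eval (Y u) (ψ j) - eval x (ψ j) - u * dd (ψ j) x δ) := by
            rw [e1]
            ring
          have hu0 := hu.1
          have hu1 := hu.2
          have b1 : |(1 - u) * (x (some (c j)) - eval x (ψ j))| ≤ (1 - u) * (κ * ρ) := by
            rw [abs_mul, abs_of_nonneg (by linarith)]
            exact mul_le_mul_of_nonneg_left hx' (by linarith)
          have b2 : |u * (b (some (c j)) - eval b (ψ j))| ≤ u * (κ * ρ) := by
            rw [abs_mul, abs_of_nonneg hu0]
            exact mul_le_mul_of_nonneg_left hb' hu0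
          have b3 : |u * (eval b (ψ j) - eval x (ψ j) - dd (ψ j) x δ)| ≤ u * (κ * ρ) := by
            rw [abs_mul, abs_of_nonneg hu0]
            exact mul_le_mul_of_nonneg_left h2 hu0
          rw [e2]
          refine (abs_sub _ _).trans ((add_le_add ((abs_add_le _ _).trans (add_le_add
            ((abs_add_le _ _).trans (add_le_add b1 b2)) b3)) h1).trans ?_)
          have h3 : u * (κ * ρ) ≤ 1 * (κ * ρ) := mul_le_mul_of_nonneg_right hu1 hκρ.le
          have h4 : κ * ρ ≤ κ * (1 / 4) := mul_le_mul_of_nonneg_left hρ2 hκ0.le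
          rw [← hκ]
          linarith
      · rw [nrm_succ, nrm_succ]
        have h1 := hc4 u hu V
        have h2 := i2 u hu V
        have hV0 := nrm_nonneg c ψ g a l x V
        have h3 : 2 ^ g l * |V (some (c l)) - dd (ψ l) (Y u) V| ≤
            2 ^ g l * |V (some (c l)) - dd (ψ l) x V| + nrm c ψ g a l x V := by
          have e1 : V (some (c l)) - dd (ψ l) (Y u) V = (V (some (c l)) - dd (ψ l) x V) -
              (dd (ψ l) (Y u) V - dd (ψ l) x V) := by ring
          rw [e1]
          have h4 : (2 : ℝ) ^ g l * (κ * nrm c ψ g a l x V) = nrm c ψ g a l x V := by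
            rw [hκ]
            field_simp
          calc 2 ^ g l * |(V (some (c l)) - dd (ψ l) x V) -
                (dd (ψ l) (Y u) V - dd (ψ l) x V)| ≤ 2 ^ g l *
                (|V (some (c l)) - dd (ψ l) x V| + κ * nrm c ψ g a l x V) := by
                refine mul_le_mul_of_nonneg_left ((abs_sub _ _).trans ?_) (by positivity)
                linarith
            _ = _ := by rw [mul_add, h4]
        have h5 : (0 : ℝ) ≤ 2 ^ g l * |V (some (c l)) - dd (ψ l) x V| := by positivity
        have h6 : (1 : ℝ) ≤ 2 ^ l := one_le_pow₀ (by norm_num)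
        have h7 : nrm c ψ g a l x V ≤ 2 ^ l * nrm c ψ g a l x V :=
          le_mul_of_one_le_left hV0 h6
        have h8 : 2 ^ g l * |V (some (c l)) - dd (ψ l) x V| ≤
            2 * 2 ^ l * (2 ^ g l * |V (some (c l)) - dd (ψ l) x V|) :=
          le_mul_of_one_le_left h5 (by linarith)
        rw [pow_succ]
        linarith
      · rw [nrm_succ]
        have h2 := hc3 1 ⟨zero_le_one, le_rfl⟩
        rw [hYu', hY1, one_mul] at h2
        have h3 : |δ (some (c l)) - dd (ψ l) x δ| ≤ 3 * (κ * ρ) := by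
          have e1 : δ (some (c l)) - dd (ψ l) x δ = (b (some (c l)) - eval b (ψ l)) -
              (x (some (c l)) - eval x (ψ l)) + (eval b (ψ l) - eval x (ψ l) - dd (ψ l) x δ) := by
            rw [hδl]
            ring
          rw [e1]
          refine (abs_add_le _ _).trans ((add_le_add ((abs_sub _ _).trans
            (add_le_add hb' hx')) h2).trans (le_of_eq (by ring)))
        have h4 : 2 ^ g l * |δ (some (c l)) - dd (ψ l) x δ| ≤ 3 * ρ := by
          refine (mul_le_mul_of_nonneg_left h3 (by positivity)).trans (le_of_eq ?_)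
          rw [hκ]
          field_simp
        push_cast
        linarith
  obtain ⟨m1, m2, m3⟩ := main i le_rfl
  refine ⟨fun u hu => by rw [hYu]; exact m1 u hu, fun u hu V => by rw [hYu]; exact m2 u hu V, ?_⟩
  rw [← hδ, div_eq_mul_one_div, ← hρ]
  exact m3

/-- **The displacement from a line.** -/
theorem nrm_off {c : ℕ → Fin m} {ψ : ℕ → MvPolynomial (Option (Fin m)) ℝ} {g : ℕ → ℕ}
    {a i n : ℕ} {K L : ℝ} {x b W : Option (Fin m) → ℝ} (hK : 0 ≤ K)
    (hcur : CurB c ψ g a i (x none) K) (hn1 : 2 ≤ n)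
    (hn : K * 4 ^ i * (4 * i + 4) ^ 2 ≤ 2 ^ n)
    (hx : ∀ l < i, |x (some (c l)) - eval x (ψ l)| ≤ 1 / 2 ^ (g l + n))
    (hb0 : |b none - x none| ≤ 1 / 2 ^ (a + n))
    (hb : ∀ l < i, |b (some (c l)) - eval b (ψ l)| ≤ 1 / 2 ^ (g l + n))
    (hW : nrm c ψ g a i x W ≤ L * 2 ^ a) :
    nrm c ψ g a i x (fun o => b o - x o - (b none - x none) * W o) ≤
      (4 * i + 4 + L) / 2 ^ n := by
  obtain ⟨-, -, h1⟩ := nrm_dsp hK hcur hn1 hn hx hb0 hb
  have e1 : (fun o => b o - x o - (b none - x none) * W o) =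
      (fun o => b o - x o) + (-(b none - x none)) • W := by
    funext o
    rw [Pi.add_apply, Pi.smul_apply, smul_eq_mul]
    ring
  rw [e1]
  refine (nrm_add _ _ _ _ _ _ _ _).trans ?_
  rw [nrm_smul, abs_neg]
  have h2 := nrm_nonneg c ψ g a i x W
  have h3 : |b none - x none| * nrm c ψ g a i x W ≤ 1 / 2 ^ (a + n) * (L * 2 ^ a) :=
    mul_le_mul hb0 hW h2 (by positivity)
  have e2 : (1 : ℝ) / 2 ^ (a + n) * (L * 2 ^ a) = L / 2 ^ n := by
    rw [pow_add]
    field_simp
  rw [e2] at h3
  rw [add_div]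
  exact add_le_add h1 h3

end Pool.D2S
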