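import Pool.Agent.H42.D2.Piv
import Pool.Agent.H46.D2.NoLb
import Pool.Agent.H60.D2.Rnd
import Pool.Agent.H73.D2.Tlh
import Pool.Agent.H73.D2.Tle

/-!
# Closed hyperplanes are labels over the curved frame

`rnd_ev`: the charts at two points of one cell of resolution `J`. `LPl`: the label of the coordinate
`c i` with the coefficients `v` in the heights over a frame. `frm_lab`: if the velocity of `c i` is an
affine function of the velocities of the coordinates before it, with closed visible coefficients, then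
this is a label of `c i`.
-/

set_option autoImplicit false

namespace Pool.NHZ

open Finset Real MvPolynomial
open Pool.Agent.H49.Ent Pool.Agent.H32.Dense Pool.STK Pool.KA Pool.KSAT Pool.K2S Pool.PB
open Pool.GEN Pool.D2R Pool.D2Z Pool.D2F Pool.D2G30 Pool.ISO Pool.CHT Pool.CHX Pool.V1E Pool.D2Con
open Pool.PB.Trl (rt rt_mem t_rt)
open Pool.NLB46 (Lab)

/-- **Rounding.** -/
theorem rnd_ev (D n : ℕ) : ∃ C : ℕ, 1 ≤ C ∧ ∀ {m J : ℕ} {c : ℕ → Fin m} {a e V : ℕ} {g : ℕ → ℕ}
    {G : ℕ → MvPolynomial (Option (Fin m)) ℝ} {x x' : Option (Fin m) → ℝ},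
    Set.InjOn c (Set.Iio n) → (∀ l, (G l).totalDegree ≤ D) → (∀ l, DepC c l (G l)) →
    (∀ l < n, ∀ b, NBx c G g a (x none) l b → ∀ j < l,
      |eval b (pderiv (some (c j)) (G l))| ≤ 2 ^ (e + nlp g j l)) →
    (∀ l < n, |x (some (c l)) - eval x (G l)| ≤ 1 / 2 ^ g l) → x' none = x none →
    (∀ k, |x' (some k) - x (some k)| ≤ 1 / 2 ^ J) → (∀ l < n, e + g l + V + C ≤ J) →
    ∀ l < n, |eval x' (G l) - eval x (G l)| ≤ ((n : ℝ) + 1) ^ 2 * (1 / 2 ^ (g l + V)) := by
  obtain ⟨C, hC, hmv⟩ := grd_move D n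
  refine ⟨C, hC, ?_⟩
  intro m J c a e V g G x x' hc hdeg hdep hlip hpos h0 hx hJ l hl
  obtain ⟨δ, hδ⟩ : ∃ δ : Option (Fin m) → ℝ, δ = fun o => x' o - x o := ⟨_, rfl⟩
  have hδ0 : δ none = 0 := by
    rw [hδ]
    beta_reduce
    rw [h0, sub_self]
  have hδk : ∀ k, |δ (some k)| ≤ 1 / 2 ^ J := fun k => by
    rw [hδ]
    exact hx k
  have hb : ∀ l < n, NBx c G g a (x none) l x := fun l hl => ⟨by
    rw [sub_self, abs_zero]
    positivity, fun j hj => hpos j (hj.trans hl)⟩
  -- the charts at the point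
  have hcv : ∀ l < n, CvC c l (grd (G l) x) := fun l _ => cvc_grd (hdep l) x
  have hll : ∀ l < n, ∀ j < l, |grd (G l) x (some (c j))| ≤ 2 ^ (e + nlp g j l) :=
    fun l hl j hj => hlip l hl x (hb l hl) j hj
  have hJV : ∀ l < n, ∀ j ≤ l, e + g j + V ≤ J := fun l hl j hj => by
    have := hJ j (hj.trans_lt hl)
    omega
  have hinj : ∀ l < n, Set.InjOn c (Set.Iio l) := fun l hl =>
    hc.mono (Set.Iio_subset_Iio hl.le)
  have h1 : ∀ l < n, |dd (G l) x δ| ≤ l * (1 / 2 ^ (g l + V)) := fun l hl => by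
    rw [← cv_grd]
    exact cv_small (hinj l hl) (hcv l hl) (hll l hl) hδ0 hδk (hJV l hl)
  have h2 : ∀ l < n, |δ (some (c l)) - dd (G l) x δ| ≤ (l + 1) * (1 / 2 ^ (g l + V)) :=
    fun l hl => by
    rw [← cv_grd]
    exact ht_small (hinj l hl) (hcv l hl) (hll l hl) hδ0 hδk (hJV l hl)
  have h3 : nrm c G g a l x δ ≤ l * ((n : ℝ) * (1 / 2 ^ V)) := by
    unfold nrm
    rw [hδ0, abs_zero, mul_zero, zero_add]
    have h4 : ∀ j ∈ range l, 2 ^ g j * |δ (some (c j)) - dd (G j) x δ| ≤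
        (n : ℝ) * (1 / 2 ^ V) := by
      intro j hj
      have hj' := Finset.mem_range.1 hj
      have h5 := mul_le_mul_of_nonneg_left (h2 j (hj'.trans hl))
        (by positivity : (0 : ℝ) ≤ 2 ^ g j)
      refine h5.trans ?_
      have e1 : (2 : ℝ) ^ g j * (((j : ℝ) + 1) * (1 / 2 ^ (g j + V))) =
          ((j : ℝ) + 1) * (1 / 2 ^ V) := by
        rw [pow_add]
        field_simp
      rw [e1]
      refine mul_le_mul_of_nonneg_right ?_ (by positivity)
      have : j + 1 ≤ n := by omega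
      exact_mod_cast this
    refine (Finset.sum_le_sum h4).trans (le_of_eq ?_)
    rw [Finset.sum_const, Finset.card_range, nsmul_eq_mul]
  -- the segment
  have h4 : ∀ u ∈ Set.Icc (0 : ℝ) 1, |dd (G l) (fun o => x o + u * δ o) δ| ≤
      ((n : ℝ) + 1) ^ 2 * (1 / 2 ^ (g l + V)) := by
    intro u hu
    have h5 := hmv (G := G) (g := g) (a := a) (e := e) (J := J) (x := x)
      (x' := fun o => x o + u * δ o) hc hdeg hdep hlip hpos (by
        beta_reduce
        rw [hδ0, mul_zero, add_zero]) (fun k => by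
        have e1 : x (some k) + u * δ (some k) - x (some k) = u * δ (some k) := by ring
        rw [e1, abs_mul, abs_of_nonneg hu.1]
        calc u * |δ (some k)| ≤ 1 * (1 / 2 ^ J) :=
              mul_le_mul hu.2 (hδk k) (abs_nonneg _) zero_le_one
          _ = _ := one_mul _) (fun l hl => by
        have := hJ l hl
        omega) l hl δ
    have h6 := abs_add_le (dd (G l) (fun o => x o + u * δ o) δ - dd (G l) x δ) (dd (G l) x δ)
    rw [sub_add_cancel] at h6
    refine h6.trans ((add_le_add (h5.trans (mul_le_mul_of_nonneg_left h3 (by positivity)))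
      (h1 l hl)).trans ?_)
    have e1 : (1 : ℝ) / 2 ^ g l * (l * ((n : ℝ) * (1 / 2 ^ V))) =
        (l * n : ℝ) * (1 / 2 ^ (g l + V)) := by
      rw [pow_add]
      field_simp
    rw [e1, ← add_mul]
    refine mul_le_mul_of_nonneg_right ?_ (by positivity)
    have hln : (l : ℝ) ≤ n := by exact_mod_cast hl.le
    have hl0 : (0 : ℝ) ≤ l := Nat.cast_nonneg l
    have hn0 : (0 : ℝ) ≤ n := Nat.cast_nonneg n
    nlinarith
  have h5 := mv_seg (G l) x δ h4 1 ⟨zero_le_one, le_rfl⟩
  have e1 : (fun o => x o + 1 * δ o) = x' := by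
    funext o
    rw [hδ]
    ring
  rw [e1] at h5
  exact h5

section lab

variable {m : ℕ}

/-- The form of the coordinate `c i` in the heights over the frame `P`. -/
noncomputable def fvl (c : ℕ → Fin m) (s : ℕ → ℕ) (w i : ℕ) (v : ℕ → ℝ)
    (P : ℕ → MvPolynomial (Option (Fin m)) ℝ) (b : Option (Fin m) → ℝ) : ℝ :=
  2 ^ s i * (b (some (c i)) - eval b (P i)) -
    ∑ j ∈ range i, v (j + 1) * (2 ^ s j * (b (some (c j)) - eval b (P j))) -
      v 0 * (2 ^ w * b none)

/-- The label of the coordinate `c i`. -/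
noncomputable def LPl (c : ℕ → Fin m) (s : ℕ → ℕ) (w i : ℕ) (v : ℕ → ℝ)
    (P : ℕ → MvPolynomial (Option (Fin m)) ℝ) (κ : ℝ) : MvPolynomial (Option (Fin m)) ℝ :=
  P i + C (1 / 2 ^ s i) * (∑ j ∈ range i, C (v (j + 1) * 2 ^ s j) * (X (some (c j)) - P j) +
    C (v 0 * 2 ^ w) * X none + C κ)

variable (c : ℕ → Fin m) (s : ℕ → ℕ) (w i : ℕ) (v : ℕ → ℝ)
  (P : ℕ → MvPolynomial (Option (Fin m)) ℝ)

theorem eval_LPl (κ : ℝ) (b : Option (Fin m) → ℝ) :
    b (some (c i)) - eval b (LPl c s w i v P κ) = (fvl c s w i v P b - κ) / 2 ^ s i := by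
  have h : (0 : ℝ) < 2 ^ s i := by positivity
  rw [eq_div_iff h.ne']
  unfold LPl fvl
  simp only [map_add, map_mul, map_sum, eval_C, map_sub, eval_X]
  have e1 : ∑ j ∈ range i, v (j + 1) * (2 ^ s j * (b (some (c j)) - eval b (P j))) =
      ∑ j ∈ range i, v (j + 1) * 2 ^ s j * (b (some (c j)) - eval b (P j)) :=
    Finset.sum_congr rfl fun j _ => by ring
  rw [e1]
  field_simp
  ring

theorem deg_LPl {D : ℕ} (hP : ∀ j, (P j).totalDegree ≤ D) (κ : ℝ) :
    (LPl c s w i v P κ).totalDegree ≤ D + 1 := by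
  unfold LPl
  have hCm : ∀ (r : ℝ) (R : MvPolynomial (Option (Fin m)) ℝ), R.totalDegree ≤ D + 1 →
      (C r * R).totalDegree ≤ D + 1 := fun r R hR =>
    (totalDegree_mul _ _).trans (by rw [totalDegree_C, zero_add]; exact hR)
  refine (totalDegree_add _ _).trans (max_le ((hP i).trans (Nat.le_succ D)) ?_)
  refine hCm _ _ ?_
  refine (totalDegree_add _ _).trans (max_le ((totalDegree_add _ _).trans (max_le ?_ ?_)) ?_)
  · refine (totalDegree_finsetSum_le (fun j _ => ?_))
    refine hCm _ _ ((totalDegree_sub _ _).trans (max_le ?_ ((hP j).trans (Nat.le_succ D))))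
    rw [totalDegree_X]
    omega
  · refine hCm _ _ ?_
    rw [totalDegree_X]
    omega
  · rw [totalDegree_C]
    exact Nat.zero_le _

theorem dep_LPl (hP : ∀ j, DepC c j (P j)) (κ : ℝ) : DepC c i (LPl c s w i v P κ) := by
  intro b b' h0 h1
  unfold LPl
  simp only [map_add, map_mul, map_sum, eval_C, map_sub, eval_X]
  rw [hP i b b' h0 h1, h0]
  congr 3
  congr 1
  refine Finset.sum_congr rfl fun j hj => ?_
  have hj' := Finset.mem_range.1 hj
  rw [h1 j hj', hP j b b' h0 fun l hl => h1 l (hl.trans hj')]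

theorem pd_LPl (κ : ℝ) {l : ℕ} (b : Option (Fin m) → ℝ) :
    eval b (pderiv (some (c l)) (LPl c s w i v P κ)) = eval b (pderiv (some (c l)) (P i)) +
      1 / 2 ^ s i * ∑ j ∈ range i, v (j + 1) * 2 ^ s j *
        ((if c j = c l then 1 else 0) - eval b (pderiv (some (c l)) (P j))) := by
  classical
  have hX : ∀ y : Option (Fin m), eval b (pderiv (some (c l)) (X y :
      MvPolynomial (Option (Fin m)) ℝ)) = if y = some (c l) then 1 else 0 := by
    intro y
    rw [pderiv_X, Pi.single_apply]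
    split_ifs <;> simp
  have hCm : ∀ (r : ℝ) (R : MvPolynomial (Option (Fin m)) ℝ),
      eval b (pderiv (some (c l)) (C r * R)) = r * eval b (pderiv (some (c l)) R) := by
    intro r R
    rw [pderiv_C_mul, map_mul, eval_C]
  unfold LPl
  rw [map_add, map_add, hCm, map_add, map_add, map_add, map_add, map_sum, map_sum, hCm, hX,
    pderiv_C, map_zero, if_neg (by simp), mul_zero, add_zero, add_zero]
  congr 2
  refine Finset.sum_congr rfl fun j _ => ?_
  rw [hCm, map_sub, map_sub, hX]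
  congr 2
  simp only [Option.some.injEq]

end lab

end Pool.NHZ
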