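import Pool.Agent.H42.D2.Hyg

/-!
# Closed hyperplanes are labels over the curved frame: the label

`frm_ch`: the chain. `frm_lab`: the label.
-/

set_option autoImplicit false

namespace Pool.NHZ

open Finset Real MvPolynomial
open Pool.Agent.H49.Ent Pool.Agent.H32.Dense Pool.STK Pool.KA Pool.KSAT Pool.K2S Pool.PB
open Pool.GEN Pool.D2R Pool.D2Z Pool.D2F Pool.D2G30 Pool.ISO Pool.CHT Pool.CHX Pool.V1E Pool.D2Con
open Pool.PB.Trl (rt rt_mem t_rt)
open Pool.NLB46 (Lab)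

section lab

variable {m J : ℕ} {F : Fam m J} {c : ℕ → Fin m} {r D n M ar MB q₀ Q x u p e : ℕ}
  {s : ℕ → ℕ} {qe : Fin r → ℕ} {o : ℕ → ℕ} {z g gc gT g₀ : ℕ → ℕ → ℕ} {B : F.Ω → Prop}
  {G T : ℕ → PtT F → ℕ → MvPolynomial (Option (Fin m)) ℝ}
  {H TH : ℕ → LnT F → ℕ → MvPolynomial (Option (Fin m)) ℝ}
  {Ht : LnT F → MvPolynomial (Option (Fin m)) ℝ}

/-- **The chain**, over a window behind the ball. -/
theorem frm_ch (W : Wdat F c r D n M ar MB q₀ Q x u p e s qe o z g gc gT g₀ B G T H TH Ht)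
    {i e' w : ℕ} (hi : i ≤ r) {B₁ : F.Ω → Prop} (hB : Sub B₁ B) (he : e ≤ e') (hw : o 2 ≤ w)
    (hwJ : w ≤ J) :
    ChOK F c i (fun _ => D) w w e' (fun l => g 0 l + (o 2 - o 0)) B₁
      (fun y l => Gno (c l) J J (fun y => G 0 y l) y)
      (fun s l => Hno (c l) (fun s => H 0 s l) (co (w - o 0) s)) := by
  have hR := W.rad0
  have h02 : o 0 ≤ w := by have := W.o1; have := W.o2; omega
  refine ⟨hR.degG, fun s l => hR.degH _ l, hR.depG, fun s l => hR.depH _ l,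
    fun ω hω l hl => hR.pos ω (hB ω hω) l (by omega), fun ω hω l hl b hb => ?_,
    fun ω hω l hl b hb j hj => ?_⟩
  · have h1 := hR.agr ω (hB ω hω) l (by omega) b (NBx.mono hb hw le_rfl)
    beta_reduce at h1 ⊢
    rw [co_slam F h02 hwJ]
    exact h1
  · exact (hR.lip ω (hB ω hω) l (by omega) b (NBx.mono hb hw le_rfl) j hj).trans
      (pow_le_pow_right₀ (by norm_num) (by omega))

theorem pd_Gno {ζ : Type} (k k' : Fin m)
    (G : (Fin m → ℤ) × (ℕ × ζ) → MvPolynomial (Option (Fin m)) ℝ)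
    (y : (Fin m → ℤ) × (ℕ × ζ)) (b : Option (Fin m) → ℝ) :
    eval b (pderiv (some k') (Gno k J J G y)) = eval b (pderiv (some k') (G y)) := by
  unfold Gno
  rw [map_add, pderiv_C, add_zero]

theorem LPl_congr {w i : ℕ} {v : ℕ → ℝ} {P P' : ℕ → MvPolynomial (Option (Fin m)) ℝ}
    (h : ∀ j ≤ i, P j = P' j) (κ : ℝ) : LPl c s w i v P κ = LPl c s w i v P' κ := by
  unfold LPl
  rw [h i le_rfl]
  congr 3
  congr 1
  refine Finset.sum_congr rfl fun j hj => ?_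
  rw [h j (Finset.mem_range.1 hj).le]

/-- The exponents. -/
theorem nlp_num {g' : ℕ → ℕ} {i l x Q Gn : ℕ} {s : ℕ → ℕ} (hl : l < i)
    (h1 : ∀ j ≤ i, g' j ≤ s j + Q + x) (h2 : ∀ j ≤ i, s j + Q ≤ g' j + 2 * x) :
    nlp g' l i ≤ nlp (fun j => if j < i then g' j else s i + Q + Gn) l i + (Gn + 3 * x) ∧
    (∀ j < i, l < j → s j + nlp g' l j ≤
      nlp (fun j => if j < i then g' j else s i + Q + Gn) l i + (Gn + 3 * x) + s i) ∧
    s l ≤ nlp (fun j => if j < i then g' j else s i + Q + Gn) l i + (Gn + 3 * x) + s i := by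
  obtain ⟨gp, hgp⟩ : ∃ gp : ℕ → ℕ, gp = fun j => if j < i then g' j else s i + Q + Gn := ⟨_, rfl⟩
  rw [← hgp]
  obtain ⟨T, hT⟩ : ∃ T, T = (Finset.Icc l i).sup gp := ⟨_, rfl⟩
  have hgpj : ∀ j < i, gp j = g' j := fun j hj => by
    rw [hgp]
    beta_reduce
    rw [if_pos hj]
  have hgpi : gp i = s i + Q + Gn := by
    rw [hgp]
    beta_reduce
    rw [if_neg (lt_irrefl i)]
  have hTx : ∀ j, l ≤ j → j ≤ i → gp j ≤ T := fun j h3 h4 => by
    rw [hT]
    exact Finset.le_sup (f := gp) (Finset.mem_Icc.2 ⟨h3, h4⟩)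
  have hTi := hTx i hl.le le_rfl
  rw [hgpi] at hTi
  have e1 : nlp gp l i = T - (s i + Q + Gn) := by
    unfold nlp
    rw [← hT, hgpi]
  rw [e1]
  have hS : ∀ j < i, l ≤ j → (Finset.Icc l j).sup g' ≤ T := by
    intro j hj hlj
    refine Finset.sup_le fun y hy => ?_
    rw [Finset.mem_Icc] at hy
    rw [← hgpj y (hy.2.trans_lt hj)]
    exact hTx y hy.1 (hy.2.trans hj.le)
  have hSi : (Finset.Icc l i).sup g' ≤ T + x := by
    refine Finset.sup_le fun y hy => ?_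
    rw [Finset.mem_Icc] at hy
    rcases hy.2.lt_or_eq with h3 | h3
    · rw [← hgpj y h3]
      exact (hTx y hy.1 hy.2).trans (Nat.le_add_right _ _)
    · rw [h3]
      have := h1 i le_rfl
      omega
  refine ⟨?_, fun j hj hlj => ?_, ?_⟩
  · have h3 : nlp g' l i = (Finset.Icc l i).sup g' - g' i := rfl
    rw [h3]
    have := h2 i le_rfl
    omega
  · have h3 : nlp g' l j = (Finset.Icc l j).sup g' - g' j := rfl
    have h4 := hS j hj hlj.le
    have h5 : g' j ≤ (Finset.Icc l j).sup g' :=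
      Finset.le_sup (f := g') (Finset.mem_Icc.2 ⟨hlj.le, le_rfl⟩)
    rw [h3]
    have := h2 j hj.le
    omega
  · have h3 := hTx l le_rfl hl.le
    rw [hgpj l hl] at h3
    have := h2 l hl.le
    omega

/-- **The gradient of the label.** -/
theorem lip_LPl {i N Gn : ℕ} {v : ℕ → ℝ} {P : ℕ → MvPolynomial (Option (Fin m)) ℝ}
    {g' : ℕ → ℕ} (hc : Set.InjOn c (Set.Iio (i + 1))) (hdep : ∀ j, DepC c j (P j))
    (hv : ∀ j, |v j| ≤ 2 ^ N) (h1 : ∀ j ≤ i, g' j ≤ s j + Q + x)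
    (h2 : ∀ j ≤ i, s j + Q ≤ g' j + 2 * x) {w : ℕ} (κ : ℝ) {b : Option (Fin m) → ℝ}
    (hb : ∀ j ≤ i, ∀ l < j, |eval b (pderiv (some (c l)) (P j))| ≤ 2 ^ (e + nlp g' l j))
    (hir : i < r) {l : ℕ} (hl : l < i) :
    |eval b (pderiv (some (c l)) (LPl c s w i v P κ))| ≤
      2 ^ (e + (N + Gn + 3 * x + r) +
        nlp (fun j => if j < i then g' j else s i + Q + Gn) l i) := by
  obtain ⟨n1, n2, n3⟩ := nlp_num (Gn := Gn) hl h1 h2
  obtain ⟨E, hE⟩ : ∃ E, E = nlp (fun j => if j < i then g' j else s i + Q + Gn) l i := ⟨_, rfl⟩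
  rw [← hE] at n1 n2 n3 ⊢
  rw [pd_LPl]
  have hsi : (0 : ℝ) < 2 ^ s i := by positivity
  obtain ⟨Y, hY⟩ : ∃ Y : ℝ, Y = 2 ^ (e + (N + Gn + 3 * x) + E) := ⟨_, rfl⟩
  have hY0 : 0 < Y := by rw [hY]; positivity
  have a1 : |eval b (pderiv (some (c l)) (P i))| ≤ Y := by
    refine (hb i le_rfl l hl).trans ?_
    rw [hY]
    refine pow_le_pow_right₀ (by norm_num) ?_
    omega
  have a2 : ∀ j ∈ range i, |v (j + 1) * 2 ^ s j *
      ((if c j = c l then 1 else 0) - eval b (pderiv (some (c l)) (P j)))| ≤ 2 ^ s i * Y := by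
    intro j hj
    have hj' := Finset.mem_range.1 hj
    rw [abs_mul, abs_mul, abs_of_pos (by positivity : (0 : ℝ) < 2 ^ s j)]
    have hvj := hv (j + 1)
    rcases lt_trichotomy j l with h3 | h3 | h3
    · have e1 : c j ≠ c l := fun h4 => by
        have := hc (Set.mem_Iio.2 (by omega)) (Set.mem_Iio.2 (by omega)) h4
        omega
      rw [if_neg e1, pd_zero (hdep j) (fun y hy h4 => by
        have := hc (Set.mem_Iio.2 (by omega)) (Set.mem_Iio.2 (by omega)) h4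
        omega) b, sub_zero, abs_zero, mul_zero]
      positivity
    · subst h3
      rw [if_pos rfl, pd_zero (hdep j) (fun y hy h4 => by
        have := hc (Set.mem_Iio.2 (by omega)) (Set.mem_Iio.2 (by omega)) h4
        omega) b, sub_zero, abs_one, mul_one]
      calc |v (j + 1)| * 2 ^ s j ≤ 2 ^ N * 2 ^ s j :=
            mul_le_mul_of_nonneg_right hvj (by positivity)
        _ = 2 ^ (N + s j) := (pow_add _ _ _).symm
        _ ≤ 2 ^ (s i + (e + (N + Gn + 3 * x) + E)) := by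
            refine pow_le_pow_right₀ (by norm_num) ?_
            omega
        _ = 2 ^ s i * Y := by rw [pow_add, hY]
    · have e1 : c j ≠ c l := fun h4 => by
        have := hc (Set.mem_Iio.2 (by omega)) (Set.mem_Iio.2 (by omega)) h4
        omega
      rw [if_neg e1, zero_sub, abs_neg]
      have h5 := hb j hj'.le l h3
      have h6 := n2 j hj' h3
      calc |v (j + 1)| * 2 ^ s j * |eval b (pderiv (some (c l)) (P j))| ≤
            2 ^ N * 2 ^ s j * 2 ^ (e + nlp g' l j) :=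
            mul_le_mul (mul_le_mul_of_nonneg_right hvj (by positivity)) h5 (abs_nonneg _)
              (by positivity)
        _ = 2 ^ (N + s j + (e + nlp g' l j)) := by rw [← pow_add, ← pow_add]
        _ ≤ 2 ^ (s i + (e + (N + Gn + 3 * x) + E)) := by
            refine pow_le_pow_right₀ (by norm_num) ?_
            omega
        _ = 2 ^ s i * Y := by rw [pow_add, hY]
  have a3 : |1 / 2 ^ s i * ∑ j ∈ range i, v (j + 1) * 2 ^ s j *
      ((if c j = c l then 1 else 0) - eval b (pderiv (some (c l)) (P j)))| ≤ i * Y := by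
    rw [abs_mul, abs_of_pos (by positivity : (0 : ℝ) < 1 / 2 ^ s i)]
    have h3 := (Finset.abs_sum_le_sum_abs _ _).trans (Finset.sum_le_sum a2)
    rw [Finset.sum_const, Finset.card_range, nsmul_eq_mul] at h3
    refine (mul_le_mul_of_nonneg_left h3 (by positivity)).trans (le_of_eq ?_)
    field_simp
  refine (abs_add_le _ _).trans ((add_le_add a1 a3).trans ?_)
  have h4 : Y + i * Y ≤ 2 ^ r * Y := by
    have h5 : ((i + 1 : ℕ) : ℝ) ≤ ((2 ^ r : ℕ) : ℝ) := by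
      exact_mod_cast (Nat.succ_le_of_lt hir).trans (Nat.lt_two_pow_self (n := r)).le
    push_cast at h5
    have := mul_le_mul_of_nonneg_right h5 hY0.le
    linarith
  refine h4.trans (le_of_eq ?_)
  rw [hY, ← pow_add]
  congr 1
  omega

end lab


/-- **The label.** -/
theorem frm_lab (D r : ℕ) : ∃ C : ℕ, ∀ {m J : ℕ} {F : Fam m J} {c : ℕ → Fin m}
    {n M ar MB q₀ Q x u p e : ℕ} {s : ℕ → ℕ} {qe : Fin r → ℕ} {o : ℕ → ℕ}
    {z g gc gT g₀ : ℕ → ℕ → ℕ} {B : F.Ω → Prop}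
    {G T : ℕ → PtT F → ℕ → MvPolynomial (Option (Fin m)) ℝ}
    {H TH : ℕ → LnT F → ℕ → MvPolynomial (Option (Fin m)) ℝ}
    {Ht : LnT F → MvPolynomial (Option (Fin m)) ℝ},
    Wdat F c r D n M ar MB q₀ Q x u p e s qe o z g gc gT g₀ B G T H TH Ht →
    ∀ {B₁ : F.Ω → Prop}, Sub B₁ B → ∀ {w : ℕ}, o 2 ≤ w → w ≤ J → ∀ {ζ : Type} {Z : F.Ω → ζ},
    (∀ ω ω', B₁ ω → B₁ ω' → ptr F J ω = ptr F J ω' → Z ω = Z ω') →
    (∀ ω ω', B₁ ω → B₁ ω' → slam F w ω = slam F w ω' → Z ω = Z ω') →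
    ∀ (i : Fin r) (v : ζ → Fin (r + 1) → ℝ) {N Gn : ℕ}, (∀ ω, B₁ ω → ∀ j, |v (Z ω) j| ≤ 2 ^ N) →
    (∀ ω, B₁ ω →
      |Xe r qe (eL c s r (o 1) qe (frH F r q₀ (H 0) (slam F (o 1) ω)) (slam F (o 1) ω)) i.succ -
      ∑ j, (if j < i.succ then v (Z ω) j * Xe r qe (eL c s r (o 1) qe
        (frH F r q₀ (H 0) (slam F (o 1) ω)) (slam F (o 1) ω)) j else 0)| ≤ 1 / 2 ^ (Gn + 2)) →
    C * (u + x + 1) + N + Gn ≤ MB →
    (∀ l < r, e + s l + Q + (C * (u + x + 1) + N + Gn) ≤ J) →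
    ∃ (Gt : PtT F → MvPolynomial (Option (Fin m)) ℝ)
      (Ht' : LnT F → MvPolynomial (Option (Fin m)) ℝ),
      Lab F c i (D + 1) w w (e + (N + Gn + 3 * x + r)) (s i + Q + Gn)
        (fun l => g 0 l + (o 2 - o 0)) (fun y l => Gno (c l) J J (fun y => G 0 y l) y) B₁ Gt Ht' := by
  classical
  obtain ⟨C₁, hC₁, hrnd⟩ := rnd_ev D r
  obtain ⟨C₀, hC₀, hown⟩ := own_frm D
  obtain ⟨N₁, hN₁⟩ := pow_unbounded_of_one_lt ((1 + ((r : ℝ) + 1) ^ 2) * (1 + r))
    (one_lt_two (α := ℝ))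
  obtain ⟨N₂, hN₂⟩ := pow_unbounded_of_one_lt ((C₀ + 1) * (1 + (r : ℝ))) (one_lt_two (α := ℝ))
  refine ⟨C₁ + N₁ + N₂ + 8, ?_⟩
  intro m J F c n M ar MB q₀ Q x u p e s qe o z g gc gT g₀ B G T H TH Ht W B₁ hB w hw2 hwJ ζ Z hZp
    hZs i v N Gn hv hX hMB hJ
  obtain ⟨CC, hCC⟩ : ∃ CC, CC = (C₁ + N₁ + N₂ + 8) * (u + x + 1) := ⟨_, rfl⟩
  rw [← hCC] at hMB
  simp only [← hCC] at hJ
  have hCC1 : C₁ + N₁ + N₂ + 8 ≤ CC := by
    rw [hCC]
    exact Nat.le_mul_of_pos_right _ (by omega)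
  have hCCx : 8 * x + C₁ + N₁ ≤ CC := by
    rw [hCC]
    nlinarith [Nat.zero_le (C₁ * u), Nat.zero_le (C₁ * x), Nat.zero_le (N₁ * u),
      Nat.zero_le (N₁ * x), Nat.zero_le (N₂ * u), Nat.zero_le (N₂ * x), Nat.zero_le N₂]
  have hCCu : N₂ + u + x + 2 ≤ CC := by
    rw [hCC]
    nlinarith [Nat.zero_le (C₁ * u), Nat.zero_le (C₁ * x), Nat.zero_le (N₁ * u),
      Nat.zero_le (N₁ * x), Nat.zero_le (N₂ * u), Nat.zero_le (N₂ * x), Nat.zero_le C₁,
      Nat.zero_le N₁]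
  have h1J : o 1 ≤ J := by have := W.oJ; have := W.o3; have := W.o2; omega
  have h2J : o 2 ≤ J := by have := W.oJ; have := W.o3; omega
  have h02 : o 0 ≤ o 2 := by have := W.o1; have := W.o2; omega
  have h12 : o 1 ≤ o 2 := by have := W.o2; omega
  obtain ⟨g', hg'⟩ : ∃ g' : ℕ → ℕ, g' = fun l => g 0 l + (o 2 - o 0) := ⟨_, rfl⟩
  have hg1 : ∀ j < r, g' j ≤ s j + Q + x := fun j hj => by
    rw [hg']
    exact W.n2d j hj
  have hg2 : ∀ j < r, s j + Q ≤ g' j + 2 * x := fun j hj => by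
    rw [hg']
    have h3 := W.n2b j hj
    have h4 := W.n2c j hj
    show s j + Q ≤ g 0 j + (o 2 - o 0) + 2 * x
    omega
  have hdeg : ∀ (y : PtT F) (l : ℕ), (Gno (c l) J J (fun y => G 0 y l) y).totalDegree ≤ D :=
    fun y l => W.rad0.degG y l
  have hdep : ∀ (y : PtT F) (l : ℕ), DepC c l (Gno (c l) J J (fun y => G 0 y l) y) :=
    fun y l => W.rad0.depG y l
  -- rounding of one height
  have hrh : ∀ ω ω', B₁ ω → B₁ ω' → ptr F J ω = ptr F J ω' → ∀ j < r,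
      |2 ^ s j * (bt F ω' (some (c j)) - eval (bt F ω') (G 0 (ptr F J ω) j)) -
        2 ^ s j * (bt F ω (some (c j)) - eval (bt F ω) (G 0 (ptr F J ω) j))| ≤
      (1 + ((r : ℝ) + 1) ^ 2) * (1 / 2 ^ (Q + (N + Gn + N₁ + 1))) := by
    intro ω ω' hω hω' hpp j hj
    obtain ⟨-, hn0, hxk⟩ := bt_near hpp
    have h3 := hrnd (J := J) (c := c) (a := o 2) (e := e) (V := N + Gn + N₁ + 1 + 2 * x) (g := g')
      (G := fun l => Gno (c l) J J (fun y => G 0 y l) (ptr F J ω)) (x := bt F ω)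
      (x' := bt F ω') W.hcr (hdeg _) (hdep _) (fun l hl b hb k hk => by
        rw [hg']
        rw [hg'] at hb
        exact W.rad0.lip ω (hB ω hω) l (by omega) b hb k hk) (fun l hl => by
        rw [hg']
        exact W.rad0.pos ω (hB ω hω) l (by omega)) hn0.symm (fun k => by
        rw [abs_sub_comm]
        exact hxk k) (fun l hl => by
        have h4 := hJ l hl
        have h5 := hg1 l hl
        omega) j hj
    have e1 : ∀ b : Option (Fin m) → ℝ, eval b (Gno (c j) J J (fun y => G 0 y j) (ptr F J ω)) =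
        eval b (G 0 (ptr F J ω) j) + (((ptr F J ω).1 (c j) : ℝ) / 2 ^ J -
          eval (bho J J (ptr F J ω)) (G 0 (ptr F J ω) j)) := fun b => by
      unfold Gno
      rw [map_add, eval_C]
    beta_reduce at h3
    rw [e1, e1] at h3
    have h4 : |bt F ω' (some (c j)) - bt F ω (some (c j))| ≤ 1 / 2 ^ J := by
      rw [abs_sub_comm]
      exact hxk (c j)
    obtain ⟨P1, hP1⟩ : ∃ P1, P1 = eval (bt F ω') (G 0 (ptr F J ω) j) := ⟨_, rfl⟩
    obtain ⟨P0, hP0⟩ : ∃ P0, P0 = eval (bt F ω) (G 0 (ptr F J ω) j) := ⟨_, rfl⟩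
    obtain ⟨K, hK⟩ : ∃ K : ℝ, K = ((ptr F J ω).1 (c j) : ℝ) / 2 ^ J -
      eval (bho J J (ptr F J ω)) (G 0 (ptr F J ω) j) := ⟨_, rfl⟩
    rw [← hP1, ← hP0, ← hK] at h3
    rw [← hP1, ← hP0]
    have e2 : P1 + K - (P0 + K) = P1 - P0 := by ring
    rw [e2] at h3
    have hsj : (0 : ℝ) < 2 ^ s j := by positivity
    rw [← mul_sub, abs_mul, abs_of_pos hsj]
    have e3 : bt F ω' (some (c j)) - P1 - (bt F ω (some (c j)) - P0) =
        (bt F ω' (some (c j)) - bt F ω (some (c j))) - (P1 - P0) := by ring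
    rw [e3]
    have h5 := (abs_sub (bt F ω' (some (c j)) - bt F ω (some (c j))) (P1 - P0)).trans
      (add_le_add h4 h3)
    have h6 : (2 : ℝ) ^ s j * (1 / 2 ^ J) ≤ 1 / 2 ^ (Q + (N + Gn + N₁ + 1)) := by
      rw [mul_one_div, div_le_div_iff₀ (by positivity) (by positivity), one_mul, ← pow_add]
      refine pow_le_pow_right₀ (by norm_num) ?_
      have := hJ j hj
      omega
    have h7 : (2 : ℝ) ^ s j * (1 / 2 ^ (g' j + (N + Gn + N₁ + 1 + 2 * x))) ≤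
        1 / 2 ^ (Q + (N + Gn + N₁ + 1)) := by
      rw [mul_one_div, div_le_div_iff₀ (by positivity) (by positivity), one_mul, ← pow_add]
      refine pow_le_pow_right₀ (by norm_num) ?_
      have := hg2 j hj
      omega
    have h8 := mul_le_mul_of_nonneg_left h5 hsj.le
    have h9 := mul_le_mul_of_nonneg_left h7 (by positivity : (0 : ℝ) ≤ ((r : ℝ) + 1) ^ 2)
    refine h8.trans ?_
    have e4 : (2 : ℝ) ^ s j * (1 / 2 ^ J + ((r : ℝ) + 1) ^ 2 *
        (1 / 2 ^ (g' j + (N + Gn + N₁ + 1 + 2 * x)))) = 2 ^ s j * (1 / 2 ^ J) +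
        ((r : ℝ) + 1) ^ 2 * (2 ^ s j * (1 / 2 ^ (g' j + (N + Gn + N₁ + 1 + 2 * x)))) := by ring
    rw [e4]
    linarith
  -- rounding of the form
  have hrf : ∀ ω ω', B₁ ω → B₁ ω' → ptr F J ω = ptr F J ω' →
      |fvl c s (o 1) i (vN (v (Z ω))) (G 0 (ptr F J ω)) (bt F ω') -
        fvl c s (o 1) i (vN (v (Z ω))) (G 0 (ptr F J ω)) (bt F ω)| ≤
      1 / 2 ^ (Q + Gn + 1) := by
    intro ω ω' hω hω' hpp
    obtain ⟨-, hn0, -⟩ := bt_near hpp
    obtain ⟨a, ha⟩ : ∃ a : ℕ → ℝ, a = fun j =>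
      2 ^ s j * (bt F ω' (some (c j)) - eval (bt F ω') (G 0 (ptr F J ω) j)) := ⟨_, rfl⟩
    obtain ⟨b, hb⟩ : ∃ b : ℕ → ℝ, b = fun j =>
      2 ^ s j * (bt F ω (some (c j)) - eval (bt F ω) (G 0 (ptr F J ω) j)) := ⟨_, rfl⟩
    obtain ⟨ρ, hρ⟩ : ∃ ρ : ℝ, ρ = (1 + ((r : ℝ) + 1) ^ 2) *
      (1 / 2 ^ (Q + (N + Gn + N₁ + 1))) := ⟨_, rfl⟩
    have hρ0 : 0 ≤ ρ := by
      rw [hρ]
      positivity
    have hab : ∀ j < r, |a j - b j| ≤ ρ := fun j hj => by
      rw [ha, hb, hρ]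
      exact hrh ω ω' hω hω' hpp j hj
    have e1 : fvl c s (o 1) i (vN (v (Z ω))) (G 0 (ptr F J ω)) (bt F ω') -
        fvl c s (o 1) i (vN (v (Z ω))) (G 0 (ptr F J ω)) (bt F ω) =
        (a i - b i) - ∑ j ∈ range i, vN (v (Z ω)) (j + 1) * (a j - b j) := by
      unfold fvl
      rw [← hn0, ha, hb]
      have e2 : ∀ a b : ℕ → ℝ, ∑ j ∈ range i, vN (v (Z ω)) (j + 1) * (a j - b j) =
          ∑ j ∈ range i, vN (v (Z ω)) (j + 1) * a j -
            ∑ j ∈ range i, vN (v (Z ω)) (j + 1) * b j := by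
        intro a b
        rw [← Finset.sum_sub_distrib]
        exact Finset.sum_congr rfl fun j _ => by ring
      rw [e2]
      ring
    rw [e1]
    have h3 : |∑ j ∈ range i, vN (v (Z ω)) (j + 1) * (a j - b j)| ≤ r * (2 ^ N * ρ) := by
      refine (Finset.abs_sum_le_sum_abs _ _).trans ?_
      have h5 : ∀ j ∈ range i, |vN (v (Z ω)) (j + 1) * (a j - b j)| ≤ 2 ^ N * ρ := by
        intro j hj
        rw [abs_mul]
        exact mul_le_mul (vN_le (by positivity) (hv ω hω) _)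
          (hab j ((Finset.mem_range.1 hj).trans i.isLt)) (abs_nonneg _) (by positivity)
      refine (Finset.sum_le_sum h5).trans ?_
      rw [Finset.sum_const, Finset.card_range, nsmul_eq_mul]
      refine mul_le_mul_of_nonneg_right ?_ (by positivity)
      exact_mod_cast i.isLt.le
    have h4 := (abs_sub (a i - b i) (∑ j ∈ range i, vN (v (Z ω)) (j + 1) * (a j - b j))).trans
      (add_le_add (hab i i.isLt) h3)
    refine h4.trans ?_
    have hN1 : (1 : ℝ) ≤ 2 ^ N := one_le_pow₀ (by norm_num)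
    have h5 : ρ + r * (2 ^ N * ρ) ≤ (1 + r) * 2 ^ N * ρ := by
      have h6 : ρ ≤ 2 ^ N * ρ := le_mul_of_one_le_left hρ0 hN1
      have e2 : (1 + (r : ℝ)) * 2 ^ N * ρ = 2 ^ N * ρ + r * (2 ^ N * ρ) := by ring
      rw [e2]
      linarith
    refine h5.trans ?_
    have e3 : (1 + (r : ℝ)) * 2 ^ N * ρ = ((1 + ((r : ℝ) + 1) ^ 2) * (1 + r)) *
        (2 ^ N / 2 ^ (Q + (N + Gn + N₁ + 1))) := by
      rw [hρ]
      ring
    rw [e3]
    refine (mul_le_mul_of_nonneg_right hN₁.le (by positivity)).trans (le_of_eq ?_)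
    rw [← mul_div_assoc, ← pow_add, div_eq_div_iff (by positivity) (by positivity), one_mul,
      ← pow_add]
    congr 1
    omega
  -- the own line
  have hof : ∀ ω ω', B₁ ω → B₁ ω' → slam F w ω = slam F w ω' →
      |fvl c s (o 1) i (vN (v (Z ω))) (G 0 (ptr F J ω)) (bt F ω) -
        fvl c s (o 1) i (vN (v (Z ω))) (G 0 (ptr F J ω')) (bt F ω')| ≤ 1 / 2 ^ (Q + Gn + 1) := by
    intro ω ω' hω hω' hsl'
    have hsl : slam F (o 2) ω = slam F (o 2) ω' := by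
      rw [slam_coarse F hw2 hwJ ω, slam_coarse F hw2 hwJ ω', hsl']
    refine (hown W (hB ω hω) (hB ω' hω') hsl i (v (Z ω)) (Mv := 2 ^ N) (by positivity) (hv ω hω)
      (hX ω hω)).trans ?_
    have hq0 := W.q0M
    have h3 : C₀ * 2 ^ (u + x) / 2 ^ q₀ + 1 / 2 ^ (MB + Q) ≤
        (C₀ + 1) * (2 ^ (u + x) / 2 ^ (MB + Q)) := by
      have h4 : C₀ * 2 ^ (u + x) / 2 ^ q₀ ≤ C₀ * (2 ^ (u + x) / 2 ^ (MB + Q)) := by
        rw [mul_div_assoc]
        refine mul_le_mul_of_nonneg_left ?_ (by linarith)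
        exact div_le_div_of_nonneg_left (by positivity) (by positivity)
          (pow_le_pow_right₀ (by norm_num) hq0)
      have h5 : (1 : ℝ) / 2 ^ (MB + Q) ≤ 2 ^ (u + x) / 2 ^ (MB + Q) :=
        div_le_div_of_nonneg_right (one_le_pow₀ (by norm_num)) (by positivity)
      linarith
    have h4 : (1 + (r : ℝ) * 2 ^ N) * (C₀ * 2 ^ (u + x) / 2 ^ q₀ + 1 / 2 ^ (MB + Q)) ≤
        1 / 2 ^ (Gn + 2) := by
      have hN1 : (1 : ℝ) ≤ 2 ^ N := one_le_pow₀ (by norm_num)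
      have h5 : 1 + (r : ℝ) * 2 ^ N ≤ (1 + r) * 2 ^ N := by linarith
      have h6 : (1 + (r : ℝ) * 2 ^ N) * (C₀ * 2 ^ (u + x) / 2 ^ q₀ + 1 / 2 ^ (MB + Q)) ≤
          (1 + r) * 2 ^ N * ((C₀ + 1) * (2 ^ (u + x) / 2 ^ (MB + Q))) :=
        mul_le_mul h5 h3 (by positivity) (by positivity)
      refine h6.trans ?_
      have e3 : (1 + (r : ℝ)) * 2 ^ N * ((C₀ + 1) * (2 ^ (u + x) / 2 ^ (MB + Q))) =
          (C₀ + 1) * (1 + r) * (2 ^ N * 2 ^ (u + x) / 2 ^ (MB + Q)) := by ring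
      rw [e3]
      refine (mul_le_mul_of_nonneg_right hN₂.le (by positivity)).trans ?_
      rw [← mul_div_assoc, ← pow_add, ← pow_add, div_le_div_iff₀ (by positivity) (by positivity),
        ← pow_add, one_mul]
      refine pow_le_pow_right₀ (by norm_num) ?_
      omega
    have h5 : (1 : ℝ) / 2 ^ (Gn + 2) + 1 / 2 ^ (Gn + 2) = 1 / 2 ^ (Gn + 1) := by
      rw [pow_succ 2 (Gn + 1)]
      field_simp
      norm_num
    have h6 : (1 : ℝ) / 2 ^ (Gn + 2) + (1 + r * 2 ^ N) * (C₀ * 2 ^ (u + x) / 2 ^ q₀ +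
        1 / 2 ^ (MB + Q)) ≤ 1 / 2 ^ (Gn + 1) := by linarith
    refine (div_le_div_of_nonneg_right h6 (by positivity)).trans (le_of_eq ?_)
    rw [div_div, ← pow_add]
    congr 2
    omega
  -- the label
  obtain ⟨Gt, hGt⟩ : ∃ Gt : PtT F → MvPolynomial (Option (Fin m)) ℝ, Gt = fun y =>
    if hy : ∃ ω, B₁ ω ∧ ptr F J ω = y then LPl c s (o 1) i (vN (v (Z hy.choose)))
      (G 0 (ptr F J hy.choose)) (fvl c s (o 1) i (vN (v (Z hy.choose)))
        (G 0 (ptr F J hy.choose)) (bt F hy.choose)) else 0 := ⟨_, rfl⟩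
  obtain ⟨Hs, hHs⟩ : ∃ Hs : LnT F → MvPolynomial (Option (Fin m)) ℝ, Hs = fun y =>
    if hy : ∃ ω, B₁ ω ∧ slam F w ω = y then LPl c s (o 1) i (vN (v (Z hy.choose)))
      (G 0 (ptr F J hy.choose)) (fvl c s (o 1) i (vN (v (Z hy.choose)))
        (G 0 (ptr F J hy.choose)) (bt F hy.choose)) else 0 := ⟨_, rfl⟩
  have hGe : ∀ ω, B₁ ω → ∃ ω', B₁ ω' ∧ ptr F J ω' = ptr F J ω ∧ Gt (ptr F J ω) =
      LPl c s (o 1) i (vN (v (Z ω))) (G 0 (ptr F J ω)) (fvl c s (o 1) i (vN (v (Z ω)))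
        (G 0 (ptr F J ω)) (bt F ω')) := by
    intro ω hω
    have hy : ∃ ω', B₁ ω' ∧ ptr F J ω' = ptr F J ω := ⟨ω, hω, rfl⟩
    obtain ⟨k1, k2⟩ := hy.choose_spec
    refine ⟨hy.choose, k1, k2, ?_⟩
    rw [hGt]
    beta_reduce
    rw [dif_pos hy, hZp _ _ k1 hω k2, k2]
  have hHe : ∀ ω, B₁ ω → ∃ ω', B₁ ω' ∧ slam F w ω' = slam F w ω ∧
      Hs (slam F w ω) = LPl c s (o 1) i (vN (v (Z ω))) (G 0 (ptr F J ω))
        (fvl c s (o 1) i (vN (v (Z ω))) (G 0 (ptr F J ω')) (bt F ω')) := by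
    intro ω hω
    have hy : ∃ ω', B₁ ω' ∧ slam F w ω' = slam F w ω := ⟨ω, hω, rfl⟩
    obtain ⟨k1, k2⟩ := hy.choose_spec
    refine ⟨hy.choose, k1, k2, ?_⟩
    rw [hHs]
    beta_reduce
    rw [dif_pos hy, hZs _ _ k1 hω k2]
    refine LPl_congr (fun j hj => ?_) _
    have hjr : j < r := lt_of_le_of_lt hj i.isLt
    rw [W.cl0 _ (hB _ k1) j hjr, W.cl0 _ (hB _ hω) j hjr,
      slam_coarse F (h02.trans hw2) hwJ hy.choose, slam_coarse F (h02.trans hw2) hwJ ω, k2]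
  have hsi : (0 : ℝ) < 2 ^ s i.val := by positivity
  refine ⟨Gt, Hs, ?_, ?_, ?_, ?_, ?_, ?_, ?_⟩
  · intro y
    rw [hGt]
    beta_reduce
    split_ifs with hy
    · exact deg_LPl c s (o 1) i _ _ (fun j => W.dG 0 _ j) _
    · rw [totalDegree_zero]
      exact Nat.zero_le _
  · intro y
    rw [hHs]
    beta_reduce
    split_ifs with hy
    · exact deg_LPl c s (o 1) i _ _ (fun j => W.dG 0 _ j) _
    · rw [totalDegree_zero]
      exact Nat.zero_le _
  · intro y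
    rw [hGt]
    beta_reduce
    split_ifs with hy
    · exact dep_LPl c s (o 1) i _ _ (fun j => W.pG 0 _ j) _
    · intro b b' _ _
      rw [map_zero, map_zero]
  · intro y
    rw [hHs]
    beta_reduce
    split_ifs with hy
    · exact dep_LPl c s (o 1) i _ _ (fun j => W.pG 0 _ j) _
    · intro b b' _ _
      rw [map_zero, map_zero]
  · intro ω hω
    obtain ⟨ω', k1, k2, k3⟩ := hGe ω hω
    rw [k3]
    show |bt F ω (some (c i)) - _| ≤ _
    rw [eval_LPl, abs_div, abs_of_pos hsi, abs_sub_comm]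
    refine (div_le_div_of_nonneg_right (hrf ω ω' hω k1 k2.symm) hsi.le).trans ?_
    rw [div_div, ← pow_add]
    exact one_div_le_one_div_of_le (by positivity) (pow_le_pow_right₀ (by norm_num) (by omega))
  · intro ω hω b _
    obtain ⟨ω', k1, k2, k3⟩ := hGe ω hω
    obtain ⟨ω'', k4, k5, k6⟩ := hHe ω hω
    rw [k3, k6]
    have e1 := eval_LPl c s (o 1) i (vN (v (Z ω))) (G 0 (ptr F J ω))
      (fvl c s (o 1) i (vN (v (Z ω))) (G 0 (ptr F J ω)) (bt F ω')) b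
    have e2 := eval_LPl c s (o 1) i (vN (v (Z ω))) (G 0 (ptr F J ω))
      (fvl c s (o 1) i (vN (v (Z ω))) (G 0 (ptr F J ω'')) (bt F ω'')) b
    have e3 : ∀ X Y : MvPolynomial (Option (Fin m)) ℝ, eval b X - eval b Y =
        (b (some (c i)) - eval b Y) - (b (some (c i)) - eval b X) := fun X Y => by ring
    rw [e3, e1, e2, ← sub_div, abs_div, abs_of_pos hsi]
    have h3 := hrf ω ω' hω k1 k2.symm
    have h4 := hof ω ω'' hω k4 k5.symm
    obtain ⟨f, hf⟩ : ∃ f, f = fvl c s (o 1) i (vN (v (Z ω))) (G 0 (ptr F J ω)) (bt F ω) := ⟨_, rfl⟩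
    obtain ⟨f1, hf1⟩ : ∃ f1, f1 = fvl c s (o 1) i (vN (v (Z ω))) (G 0 (ptr F J ω))
      (bt F ω') := ⟨_, rfl⟩
    obtain ⟨f2, hf2⟩ : ∃ f2, f2 = fvl c s (o 1) i (vN (v (Z ω))) (G 0 (ptr F J ω''))
      (bt F ω'') := ⟨_, rfl⟩
    obtain ⟨fb, hfb⟩ : ∃ fb, fb = fvl c s (o 1) i (vN (v (Z ω))) (G 0 (ptr F J ω)) b := ⟨_, rfl⟩
    rw [← hf, ← hf1] at h3
    rw [← hf, ← hf2] at h4
    rw [← hf1, ← hf2, ← hfb]
    have h5 : |fb - f2 - (fb - f1)| ≤ 1 / 2 ^ (Q + Gn) := by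
      have e4 : fb - f2 - (fb - f1) = (f1 - f) + (f - f2) := by ring
      rw [e4]
      refine (abs_add_le _ _).trans ((add_le_add h3 h4).trans (le_of_eq ?_))
      rw [pow_succ]
      field_simp
      norm_num
    refine (div_le_div_of_nonneg_right h5 hsi.le).trans (le_of_eq ?_)
    rw [div_div, ← pow_add]
    congr 2
    omega
  · intro ω hω b hb l hl
    obtain ⟨ω', k1, k2, k3⟩ := hGe ω hω
    rw [k3]
    have h3 := lip_LPl (e := e) (Q := Q) (x := x) (s := s) (r := r) (i := i.val) (N := N) (Gn := Gn)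
      (v := vN (v (Z ω))) (P := G 0 (ptr F J ω)) (g' := g') (w := o 1) (b := b) (l := l)
      (W.hc.mono (Set.Iio_subset_Iio (by have := i.isLt; omega))) (fun j => W.pG 0 _ j)
      (vN_le (by positivity) (hv ω hω)) (fun j hj => hg1 j (lt_of_le_of_lt hj i.isLt))
      (fun j hj => hg2 j (lt_of_le_of_lt hj i.isLt))
      (fvl c s (o 1) i (vN (v (Z ω))) (G 0 (ptr F J ω)) (bt F ω')) (fun j hj k hk => by
        have h4 := W.rad0.lip ω (hB ω hω) j (by have := i.isLt; omega) b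
          (NBx.mono hb hw2 hj) k hk
        beta_reduce at h4
        rw [pd_Gno] at h4
        rw [hg']
        exact h4) i.isLt hl
    rw [hg'] at h3
    exact h3

end Pool.NHZ
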