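import Pool.Agent.H42.D2.Hyh

/-!
# The velocities are in no closed hyperplane: class theorem over the curved frame

`hyp_frm`: `NoHyp` for the code of the velocities and a record which is read from the point and from
the line with the window of the ball.
-/

set_option autoImplicit false

namespace Pool.NHZ

open Finset Real MvPolynomial
open Pool.Agent.H49.Ent Pool.Agent.H32.Dense Pool.STK Pool.KA Pool.KSAT Pool.K2S Pool.PB
open Pool.S6C Pool.GEN Pool.D2R Pool.D2Z Pool.D2F Pool.D2G30 Pool.ISO Pool.CHT Pool.CHX Pool.V1E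
open Pool.D2Con
open Pool.PB.Trl (rt rt_mem t_rt)
open Pool.NLB46 (Lab lab_ev)
open Pool.LBT (ThrOf)
open Pool.JVE (pe_sum)

/-- **The velocities are natural.** -/
theorem xe_bd (D : ℕ) : ∃ C : ℕ, ∀ {m J : ℕ} {F : Fam m J} {c : ℕ → Fin m}
    {r n M ar MB q₀ Q x u p e : ℕ} {s : ℕ → ℕ} {qe : Fin r → ℕ} {o : ℕ → ℕ}
    {z g gc gT g₀ : ℕ → ℕ → ℕ} {B : F.Ω → Prop}
    {G T : ℕ → PtT F → ℕ → MvPolynomial (Option (Fin m)) ℝ}
    {H TH : ℕ → LnT F → ℕ → MvPolynomial (Option (Fin m)) ℝ}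
    {Ht : LnT F → MvPolynomial (Option (Fin m)) ℝ},
    Wdat F c r D n M ar MB q₀ Q x u p e s qe o z g gc gT g₀ B G T H TH Ht →
    ∀ {ω : F.Ω}, B ω → ∀ j, |Xe r qe (eL c s r (o 1) qe (frH F r q₀ (H 0) (slam F (o 1) ω))
      (slam F (o 1) ω)) j| ≤ 2 ^ (C + u + x) := by
  obtain ⟨C₀, hC₀, hhn⟩ := hL_near D
  obtain ⟨C, hC⟩ := pow_unbounded_of_one_lt (C₀ + 1) (one_lt_two (α := ℝ))
  refine ⟨C, ?_⟩
  intro m J F c r n M ar MB q₀ Q x u p e s qe o z g gc gT g₀ B G T H TH Ht W ω hω j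
  have h1J : o 1 ≤ J := by have := W.oJ; have := W.o3; have := W.o2; omega
  obtain ⟨L, hL'⟩ : ∃ L, L = slam F (o 1) ω := ⟨_, rfl⟩
  obtain ⟨P, hP⟩ : ∃ P, P = frH F r q₀ (H 0) L := ⟨_, rfl⟩
  rw [← hL', ← hP]
  refine Fin.cases ?_ (fun j => ?_) j
  · show |(1 : ℝ)| ≤ _
    rw [abs_one]
    exact one_le_pow₀ (by norm_num)
  have hcoL : co q₀ L = slam F (o 0) ω := by
    have h2 := co_slam F (w := o 0) (a := o 1) (by have := W.o1; omega) h1J ω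
    rw [hL']
    rwa [W.o1, Nat.add_sub_cancel_left, ← W.o1] at h2
  have h3 := (hhn (F := F) (c := c) (s := s) (d := r) (wb := o 0) (q₀ := q₀) (H₀ := H 0)
    (L := L) (M := 2 ^ u / 2 ^ g₀ 0 j) (i := j) (W.dH 0 _ _) (by
      rw [hcoL]
      exact W.own0 ω hω j j.isLt) 0 ⟨le_rfl, zero_le_one⟩).1
  rw [← W.o1, ← hP] at h3
  obtain ⟨f, hf⟩ : ∃ f, f = (Polynomial.derivative (hL c s r (o 1) P L (some j))).eval 0 :=
    ⟨_, rfl⟩
  rw [← hf] at h3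
  have h4 : C₀ * (2 ^ s j.val * (2 ^ u / 2 ^ g₀ 0 j) / 2 ^ q₀) ≤ C₀ * 2 ^ (u + x) := by
    refine mul_le_mul_of_nonneg_left ?_ (by linarith)
    rw [← mul_div_assoc, div_div, ← pow_add, ← pow_add, div_le_iff₀ (by positivity), ← pow_add]
    refine pow_le_pow_right₀ (by norm_num) ?_
    have := W.n0 j j.isLt
    omega
  show |((⌊2 ^ qe j * (Polynomial.derivative (hL c s r (o 1) P L (some j))).eval 0⌋ : ℤ) : ℝ) /
    2 ^ qe j| ≤ _
  rw [← hf]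
  have h5 := Int.floor_le ((2 : ℝ) ^ qe j * f)
  have h6 := (Int.lt_floor_add_one ((2 : ℝ) ^ qe j * f)).le
  have h7 : (1 : ℝ) ≤ 2 ^ qe j := one_le_pow₀ (by norm_num)
  have h8 : |((⌊2 ^ qe j * f⌋ : ℤ) : ℝ) / 2 ^ qe j - f| ≤ 1 := by
    have e2 : ((⌊2 ^ qe j * f⌋ : ℤ) : ℝ) / 2 ^ qe j - f =
        (((⌊2 ^ qe j * f⌋ : ℤ) : ℝ) - 2 ^ qe j * f) / 2 ^ qe j := by
      field_simp
    rw [e2, abs_div, abs_of_pos (by linarith : (0 : ℝ) < 2 ^ qe j), div_le_one (by linarith)]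
    refine le_trans ?_ h7
    rw [abs_le]
    constructor <;> linarith
  have h9 := abs_add_le (((⌊2 ^ qe j * f⌋ : ℤ) : ℝ) / 2 ^ qe j - f) f
  rw [sub_add_cancel] at h9
  have h10 : (1 : ℝ) ≤ 2 ^ (u + x) := one_le_pow₀ (by norm_num)
  have h11 : (C₀ + 1) * 2 ^ (u + x) ≤ 2 ^ C * 2 ^ (u + x) :=
    mul_le_mul_of_nonneg_right hC.le (by positivity)
  rw [← pow_add] at h11
  have e3 : C + u + x = C + (u + x) := by ring
  rw [e3]
  linarith

/-- The mass of an event of a law which is dominated. -/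
theorem law_le_mass {Ω : Type} [Fintype Ω] {q p : Ω → ℝ} (hq : ∀ ω, 0 ≤ q ω) {E : Ω → Prop}
    {A M X : ℝ} (hA : 0 < A) (hM : 0 ≤ M) (h : ∀ ω, q ω * A ≤ M * p ω) (hp : ∀ ω, 0 ≤ p ω)
    (hX : Pe p (fun ω => 0 < q ω ∧ E ω) ≤ X * A) : law q E True ≤ M * X := by
  classical
  have h1 : law q E True * A ≤ M * Pe p (fun ω => 0 < q ω ∧ E ω) := by
    have e1 := pe_sum q E
    have e2 := pe_sum p (fun ω => 0 < q ω ∧ E ω)
    change law q E True = _ at e1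
    rw [e1, e2, Finset.sum_mul, Finset.mul_sum]
    refine Finset.sum_le_sum fun ω _ => ?_
    by_cases hE : E ω
    · rcases (hq ω).eq_or_lt with h0 | h0
      · rw [if_pos hE, ← h0, zero_mul]
        split_ifs <;> first | exact mul_nonneg hM (hp ω) | simp
      · rw [if_pos hE, if_pos ⟨h0, hE⟩]
        exact h ω
    · rw [if_neg hE, zero_mul]
      split_ifs <;> first | exact mul_nonneg hM (hp ω) | simp
  have h2 := h1.trans (mul_le_mul_of_nonneg_left hX hM)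
  rw [← mul_assoc] at h2
  exact le_of_mul_le_mul_right h2 hA

/-- **The velocities are in no closed hyperplane.** -/
theorem hyp_frm (D r : ℕ) : ∃ C : ℕ, ∀ {m : ℕ} {θ : ℝ} {S : PCl m}
    {P : List (Fin m) × Fin m → ℝ → ℝ → ℝ} (_ : ThrOf (chsys m θ) S P) (c : ℕ → Fin m) (a : ℚ)
    (e h : ℝ), 0 ≤ a → a ≤ 1 → e < θ * a → 0 < h → (∀ l < r, bet P c l a a + h ≤ 1) →
    ∃ δ : ℝ, 0 < δ ∧ Bas S (fun J F A => ∀ {n M ar MB q₀ Q x u p e₀ : ℕ} {s : ℕ → ℕ}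
      {qe : Fin r → ℕ} {o : ℕ → ℕ} {z g gc gT g₀ : ℕ → ℕ → ℕ} {B : F.Ω → Prop}
      {G T : ℕ → PtT F → ℕ → MvPolynomial (Option (Fin m)) ℝ}
      {H TH : ℕ → LnT F → ℕ → MvPolynomial (Option (Fin m)) ℝ}
      {Ht : LnT F → MvPolynomial (Option (Fin m)) ℝ},
      Wdat F c r D n M ar MB q₀ Q x u p e₀ s qe o z g gc gT g₀ B G T H TH Ht →
      ∀ {Gn N₀ w : ℕ}, N₀ = C * (u + x + Gn + 1) → o 2 ≤ w → w ≤ ⌊(a : ℝ) * J⌋₊ → N₀ ≤ MB →
      e₀ + N₀ ≤ ⌊e * J⌋₊ → (∀ l < r, e₀ + s l + Q + N₀ ≤ J) →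
      (∀ l < r, ⌊(bet P c l a a + h) * J⌋₊ + w ≤ s l + Q + Gn + ⌊(a : ℝ) * J⌋₊) →
      ∀ {q : F.Ω → ℝ} {Mq : ℝ}, IsLaw q → 0 ≤ Mq → (∀ ω, 0 < q ω → A ω ∧ B ω) →
      (∀ ω, q ω * Pe F.p A ≤ Mq * F.p ω) →
      ∀ {ζ : Type} {Z : F.Ω → ζ}, Det q (fun ω => ptr F J ω) Z → Det q (slam F w) Z →
      NoHyp q (fun ω => Xe r qe (eL c s r (o 1) qe (frH F r q₀ (H 0) (slam F (o 1) ω))
        (slam F (o 1) ω))) Z (1 / 2 ^ N₀) (r * (Mq * Real.exp (-(δ * J))))) := by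
  classical
  obtain ⟨C₁, hlab⟩ := frm_lab D r
  obtain ⟨C₂, hxb⟩ := xe_bd D
  obtain ⟨C, hCd⟩ : ∃ C, C = C₁ + (r + 1) * (C₂ + r + 5) + 8 := ⟨_, rfl⟩
  refine ⟨C, ?_⟩
  intro m θ S P hP c a e h ha0 ha he hh h1
  choose δl hδl τl hτl Jl hvl using fun l : Fin r =>
    lab_ev hP c l (D + 1) a a e h ha0 le_rfl ha he hh (h1 l l.isLt)
  choose τp hτp Jp hvp using fun l : Fin r =>
    Pool.VIS24.pos_thr hP c l a a e h ha0 le_rfl ha he hh (h1 l l.isLt)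
  obtain ⟨δ, hδ, hδle⟩ := fin_pos δl hδl
  obtain ⟨τ, hτ, hτle⟩ := fin_pos (fun l => min (τl l) (τp l)) fun l => lt_min (hτl l) (hτp l)
  refine ⟨δ, hδ, τ, hτ, max (Finset.univ.sup Jl) (Finset.univ.sup Jp), ?_⟩
  intro J hJ F A hA n M ar MB q₀ Q x u p e₀ s qe o z g gc gT g₀ B G T H TH Ht W Gn N₀ w hN₀ hw2 hoa
    hNM heN hJN hbN q Mq hq hMq hqA hqM ζ Z hZp hZs
  have hJl : ∀ l, J ≥ Jl l := fun l =>
    (Finset.le_sup (Finset.mem_univ l)).trans ((le_max_left _ _).trans hJ)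
  have hJp : ∀ l, J ≥ Jp l := fun l =>
    (Finset.le_sup (Finset.mem_univ l)).trans ((le_max_right _ _).trans hJ)
  have hJ0 : (0 : ℝ) ≤ J := Nat.cast_nonneg J
  have hwJ : w ≤ J := hoa.trans (Nat.floor_le_of_le (by
    have h3 : (a : ℝ) ≤ 1 := by exact_mod_cast ha
    nlinarith))
  -- the numbers
  obtain ⟨k, hk⟩ : ∃ k, k = C₂ + u + x := ⟨_, rfl⟩
  obtain ⟨n₁, hn₁⟩ : ∃ n₁, n₁ = k + r + Gn + 3 := ⟨_, rfl⟩
  obtain ⟨N, hN⟩ : ∃ N, N = r * n₁ := ⟨_, rfl⟩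
  have hNle : N ≤ (r + 1) * (C₂ + r + 5) * (u + x + Gn + 1) := by
    rw [hN, hn₁, hk]
    have e1 : r * (C₂ + u + x + r + Gn + 3) ≤ (r + 1) * (C₂ + u + x + r + Gn + 3) :=
      Nat.mul_le_mul_right _ (Nat.le_succ r)
    refine e1.trans ?_
    rw [mul_assoc]
    refine Nat.mul_le_mul_left _ ?_
    nlinarith [Nat.zero_le (C₂ * u), Nat.zero_le (C₂ * x), Nat.zero_le (C₂ * Gn),
      Nat.zero_le (r * u), Nat.zero_le (r * x), Nat.zero_le (r * Gn)]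
  have hN₀a : C₁ * (u + x + 1) + N + Gn + 8 ≤ N₀ := by
    rw [hN₀, hCd]
    have e1 : C₁ * (u + x + 1) ≤ C₁ * (u + x + Gn + 1) := Nat.mul_le_mul_left _ (by omega)
    have e2 : Gn + 8 ≤ 8 * (u + x + Gn + 1) := by omega
    calc C₁ * (u + x + 1) + N + Gn + 8 ≤ C₁ * (u + x + Gn + 1) +
          (r + 1) * (C₂ + r + 5) * (u + x + Gn + 1) + 8 * (u + x + Gn + 1) := by omega
      _ = _ := by ring
  have hN₀b : N + Gn + 3 * x + r ≤ N₀ := by
    rw [hN₀, hCd]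
    have e2 : Gn + 3 * x + r ≤ (8 + r) * (u + x + Gn + 1) := by
      nlinarith [Nat.zero_le (r * u), Nat.zero_le (r * x), Nat.zero_le (r * Gn)]
    have e3 : N + r * (u + x + Gn + 1) ≤ (r + 1) * (C₂ + r + 5) * (u + x + Gn + 1) := by
      rw [hN, hn₁, hk]
      have e1 : r * (C₂ + u + x + r + Gn + 3) + r * (u + x + Gn + 1) =
          r * (C₂ + u + x + r + Gn + 3 + (u + x + Gn + 1)) := by ring
      rw [e1]
      have e4 : r * (C₂ + u + x + r + Gn + 3 + (u + x + Gn + 1)) ≤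
          (r + 1) * (C₂ + u + x + r + Gn + 3 + (u + x + Gn + 1)) :=
        Nat.mul_le_mul_right _ (Nat.le_succ r)
      refine e4.trans ?_
      rw [mul_assoc]
      refine Nat.mul_le_mul_left _ ?_
      nlinarith [Nat.zero_le (C₂ * u), Nat.zero_le (C₂ * x), Nat.zero_le (C₂ * Gn),
        Nat.zero_le (r * u), Nat.zero_le (r * x), Nat.zero_le (r * Gn)]
    calc N + Gn + 3 * x + r ≤ N + r * (u + x + Gn + 1) + 8 * (u + x + Gn + 1) := by
          nlinarith [e2]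
      _ ≤ (r + 1) * (C₂ + r + 5) * (u + x + Gn + 1) + 8 * (u + x + Gn + 1) := by omega
      _ ≤ _ := by nlinarith [Nat.zero_le (C₁ * (u + x + Gn + 1))]
  -- the pivots
  obtain ⟨ν, hν⟩ : ∃ ν : ℝ, ν = 1 / 2 ^ n₁ := ⟨_, rfl⟩
  have hν0 : 0 < ν := by rw [hν]; positivity
  have hνr : 1 / ν ^ r = 2 ^ N := by
    rw [hν, one_div_pow, one_div_one_div, ← pow_mul, hN, mul_comm]
  have hrY : (r : ℝ) * (ν * 2 ^ k) ≤ 1 / 2 ^ (Gn + 3) := by
    have h2 : (r : ℝ) ≤ 2 ^ r := by exact_mod_cast (Nat.lt_two_pow_self (n := r)).le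
    have e1 : ν * 2 ^ k = 1 / 2 ^ (r + Gn + 3) := by
      rw [hν, hn₁, div_mul_eq_mul_div, one_mul, div_eq_div_iff (by positivity) (by positivity),
        one_mul, ← pow_add]
      congr 1
      omega
    rw [e1]
    refine (mul_le_mul_of_nonneg_right h2 (by positivity)).trans (le_of_eq ?_)
    rw [mul_one_div, div_eq_div_iff (by positivity) (by positivity), one_mul, ← pow_add]
    congr 1
  have hη : (1 : ℝ) / 2 ^ N₀ / ν ^ r ≤ 1 / 2 ^ (Gn + 3) := by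
    rw [div_eq_mul_one_div (1 / 2 ^ N₀ : ℝ), hνr, div_mul_eq_mul_div, one_mul,
      div_le_div_iff₀ (by positivity) (by positivity), one_mul, ← pow_add]
    refine pow_le_pow_right₀ (by norm_num) ?_
    omega
  have hsm : (1 : ℝ) / 2 ^ (Gn + 3) ≤ 1 / 8 := by
    refine one_div_le_one_div_of_le (by norm_num) ?_
    have : (2 : ℝ) ^ 3 ≤ 2 ^ (Gn + 3) := pow_le_pow_right₀ (by norm_num) (by omega)
    linarith
  have hN0s : (1 : ℝ) / 2 ^ N₀ ≤ 1 / 2 := by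
    refine one_div_le_one_div_of_le (by norm_num) ?_
    have : (2 : ℝ) ^ 1 ≤ 2 ^ N₀ := pow_le_pow_right₀ (by norm_num) (by omega)
    linarith
  refine noHyp_piv hq (Y := 2 ^ k) (ν := ν) (ε := 1 / 2 ^ (Gn + 2)) (fun ω _ => rfl)
    (fun ω hω j => by
      rw [hk]
      exact hxb W (hqA ω hω).2 j) hν0 ?_ (by positivity) ?_ ?_ fun l v => ?_
  · rw [hν]
    exact (div_le_one (by positivity)).2 (one_le_pow₀ (by norm_num))
  · linarith
  · have e1 : (1 : ℝ) / 2 ^ (Gn + 3) + 1 / 2 ^ (Gn + 3) = 1 / 2 ^ (Gn + 2) := by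
      rw [pow_succ 2 (Gn + 2)]
      field_simp
      norm_num
    linarith
  · have hev := hvl l J (hJl l) F A (S.mono ((hτle l).trans (min_le_left _ _)) hA)
    have hA0 := hvp l J (hJp l) F A (S.mono ((hτle l).trans (min_le_right _ _)) hA)
    obtain ⟨E, hE⟩ : ∃ E : F.Ω → Prop, E = fun ω => (∀ j, |v (Z ω) j| ≤ 1 / ν ^ r) ∧
      |Xe r qe (eL c s r (o 1) qe (frH F r q₀ (H 0) (slam F (o 1) ω)) (slam F (o 1) ω)) l.succ -
        ∑ j, (if j < l.succ then v (Z ω) j * Xe r qe (eL c s r (o 1) qe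
          (frH F r q₀ (H 0) (slam F (o 1) ω)) (slam F (o 1) ω)) j else 0)| ≤
        1 / 2 ^ (Gn + 2) := ⟨_, rfl⟩
    show law q _ True ≤ _
    rw [← hE]
    refine (law_le_mass hq.nonneg (X := Real.exp (-(δl l * J))) hA0 hMq hqM
      (fun ω => F.isLaw.nonneg ω) ?_).trans (mul_le_mul_of_nonneg_left
        (Real.exp_le_exp.mpr (by
          have := mul_le_mul_of_nonneg_right (hδle l) hJ0
          linarith only [this])) hMq)
    obtain ⟨B₁, hB₁⟩ : ∃ B₁ : F.Ω → Prop, B₁ = fun ω => 0 < q ω ∧ E ω := ⟨_, rfl⟩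
    rw [← hB₁]
    have hBq : ∀ ω, B₁ ω → 0 < q ω ∧ E ω := fun ω hω => by
      rw [hB₁] at hω
      exact hω
    have hBB : Sub B₁ B := fun ω hω => (hqA ω (hBq ω hω).1).2
    obtain ⟨Gt, Ht', hL⟩ := hlab W hBB hw2 hwJ (Z := Z) (fun ω ω' k1 k2 k3 =>
      hZp ω ω' (hBq ω k1).1 (hBq ω' k2).1 k3) (fun ω ω' k1 k2 k3 =>
      hZs ω ω' (hBq ω k1).1 (hBq ω' k2).1 k3) l v (N := N) (Gn := Gn) (fun ω hω j => by
        have h3 := (hBq ω hω).2
        rw [hE] at h3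
        rw [← hνr]
        exact h3.1 j) (fun ω hω => by
        have h3 := (hBq ω hω).2
        rw [hE] at h3
        exact h3.2) (by omega) (fun l hl => by
        have := hJN l hl
        omega)
    have hch := frm_ch W (i := l) (e' := e₀ + (N + Gn + 3 * x + r)) l.isLt.le hBB (by omega) hw2 hwJ
    refine hev w w (e₀ + (N + Gn + 3 * x + r)) (s l + Q + Gn) (fun _ => D)
      (fun l => g 0 l + (o 2 - o 0)) _ _ Gt Ht' le_rfl hoa hoa (by omega)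
      (fun _ => Nat.le_succ D) (fun j hj => ?_) ?_ (hbN l l.isLt) B₁
      (fun ω hω => (hqA ω (hBq ω hω).1).1) hch hL
    · have h3 := hJN j (hj.trans l.isLt)
      have h4 := W.n2d j (hj.trans l.isLt)
      show g 0 j + (o 2 - o 0) ≤ J
      omega
    · have h3 := hJN l l.isLt
      omega

end Pool.NHZ
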