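import Pool.Agent.H44.D2.Clo

/-!
# The data of Lemma L1 from the own paths

Lines `L`, contexts `g` with a reference line `rf g`. `nL` = own path of the target over the closed
chart (polynomial of degree `K` in `th`), `aL` = own positions of the `k` base coordinates, `bb` =
rounded gradient of the ball chart (relative to the closed chart), `SN`, `SV` the units times
`2 ^ q`. `HD.y` = near digits of the positions, `HD.c` = near digits of the own path of the target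
over the reference line, `HD.N` = near digits of
`n - n_R - bb (a - a_R)`. `HD.avg`: the fields of `AvgA`; `HD.clo`: closed gradients.
-/

set_option autoImplicit false

namespace Pool.D2Hz

open Finset Real
open Pool.Agent.H49.Ent Pool.Agent.H32.Dense Pool.STK Pool.K2S Pool.KAF Pool.M5 Pool.SLO Pool.BFL
open Pool.MIC Pool.TIE

/-! ### Monomials of degree one -/

theorem Mon_one (k : ℕ) : Mon k 1 = (univ : Finset (Fin k)).image fun j => Pi.single j 1 := by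
  classical
  ext al
  unfold Mon
  simp only [mem_filter, Fintype.mem_piFinset, mem_range, mem_image, mem_univ, true_and]
  constructor
  · rintro ⟨h1, h2, h3⟩
    have h4 : ∑ j, al j = 1 := le_antisymm h3 h2
    have h5 : ∃ j, al j ≠ 0 := by
      by_contra hcon
      push Not at hcon
      rw [Finset.sum_eq_zero fun j _ => hcon j] at h4
      exact absurd h4 (by norm_num)
    obtain ⟨j, hj⟩ := h5
    have h6 : al j = 1 := by
      have := h1 j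
      omega
    refine ⟨j, ?_⟩
    funext i
    by_cases hij : i = j
    · rw [hij, Pi.single_eq_same, h6]
    · rw [Pi.single_eq_of_ne hij]
      have h7 : al i + al j ≤ ∑ l, al l := by
        have h8 : ∑ l ∈ ({i, j} : Finset (Fin k)), al l ≤ ∑ l, al l :=
          Finset.sum_le_sum_of_subset (Finset.subset_univ _)
        rwa [Finset.sum_pair hij] at h8
      omega
  · rintro ⟨j, rfl⟩
    refine ⟨fun i => ?_, ?_, ?_⟩
    · by_cases hij : i = j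
      · rw [hij, Pi.single_eq_same]
        norm_num
      · rw [Pi.single_eq_of_ne hij]
        norm_num
    · rw [Finset.sum_pi_single' j 1 univ, if_pos (mem_univ _)]
    · rw [Finset.sum_pi_single' j 1 univ, if_pos (mem_univ _)]

theorem sum_Mon1 {k : ℕ} (f : (Fin k → ℕ) → ℝ) :
    ∑ i : Mon k 1, f (i : Fin k → ℕ) = ∑ j : Fin k, f (Pi.single j 1) := by
  classical
  rw [Finset.sum_coe_sort (Mon k 1) f, Mon_one, Finset.sum_image]
  intro a _ b _ hab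
  by_contra hne
  have h1 := congrFun hab a
  simp only [Pi.single_eq_same] at h1
  rw [Pi.single_eq_of_ne hne] at h1
  exact absurd h1 (by norm_num)

/-- The family of coefficients of the monomials of degree one. -/
def cof {k : ℕ} (b : Fin k → ℝ) (i : Mon k 1) : ℝ := ∑ j, ((i : Fin k → ℕ) j : ℝ) * b j

theorem cof_single {k : ℕ} (b : Fin k → ℝ) (j : Fin k) :
    ∑ j', (((Pi.single j 1 : Fin k → ℕ) j' : ℕ) : ℝ) * b j' = b j := by
  classical
  rw [Finset.sum_eq_single j]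
  · rw [Pi.single_eq_same, Nat.cast_one, one_mul]
  · intro i _ hij
    rw [Pi.single_eq_of_ne hij, Nat.cast_zero, zero_mul]
  · intro h
    exact absurd (mem_univ _) h

theorem pv_cof {k : ℕ} (b y : Fin k → ℝ) : pv (cof b) y = ∑ j, b j * y j := by
  classical
  unfold pv cof
  rw [sum_Mon1 fun al => (∑ j, ((al j : ℕ) : ℝ) * b j) * mono al y]
  refine Finset.sum_congr rfl fun j _ => ?_
  rw [cof_single]
  congr 1
  unfold mono
  rw [Finset.prod_eq_single j]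
  · rw [Pi.single_eq_same, pow_one]
  · intro i _ hij
    rw [Pi.single_eq_of_ne hij, pow_zero]
  · intro h
    exact absurd (mem_univ _) h

theorem exists_cof {k : ℕ} (b : Fin k → ℝ) (i : Mon k 1) : ∃ j, cof b i = b j := by
  classical
  have h1 : (i : Fin k → ℕ) ∈ (univ : Finset (Fin k)).image fun j => Pi.single j 1 := by
    rw [← Mon_one]
    exact i.2
  obtain ⟨j, -, hj⟩ := Finset.mem_image.mp h1
  refine ⟨j, ?_⟩
  unfold cof
  rw [← hj]
  exact cof_single b j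

theorem single_mem {k : ℕ} (j : Fin k) : (Pi.single j 1 : Fin k → ℕ) ∈ Mon k 1 := by
  classical
  rw [Mon_one]
  exact Finset.mem_image.mpr ⟨j, mem_univ _, rfl⟩

/-! ### The data -/

/-- Data of the lines, contexts and samples. -/
structure HD (Ω Λ γ : Type) (k : ℕ) where
  L : Ω → Λ
  g : Ω → γ
  rf : γ → Λ
  nL : Λ → Polynomial ℝ
  aL : Λ → Fin k → ℝ
  th : Ω → ℝ
  bb : Ω → Fin k → ℝ
  SN : ℝ
  SV : Fin k → ℝ
  X : ℕ
  m : ℕ

namespace HD

variable {Ω Λ γ : Type} {k : ℕ} (d : HD Ω Λ γ k)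

/-- The reference line. -/
def R (ω : Ω) : Λ := d.rf (d.g ω)

/-- The near digits of the position. -/
noncomputable def yl (l : Λ) (j : Fin k) : ℤ := ⌊(2 : ℝ) ^ d.X * Int.fract (d.SV j * d.aL l j)⌋

noncomputable def y (ω : Ω) (j : Fin k) : ℤ := d.yl (d.L ω) j

/-- The digits of the position behind the near digits. -/
noncomputable def fl (l : Λ) (j : Fin k) : ℤ :=
  ⌊(2 : ℝ) ^ d.m * Int.fract ((2 : ℝ) ^ d.X * (d.SV j * d.aL l j))⌋

/-- The path of the target over the reference line. -/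
noncomputable def dn (ω : Ω) : Polynomial ℝ := d.nL (d.L ω) - d.nL (d.R ω)

/-- Its near digits. -/
noncomputable def c (K : ℕ) (ω : Ω) (a : Fin K) : ℤ :=
  ⌊(2 : ℝ) ^ d.X * (d.SN * (d.dn ω).coeff (a + 1))⌋

/-- The number. -/
noncomputable def val (ω : Ω) : ℝ :=
  d.SN * (d.dn ω).eval (d.th ω) - ∑ j, d.bb ω j * (d.SV j * (d.aL (d.L ω) j - d.aL (d.R ω) j))

noncomputable def N (ω : Ω) : ℤ := ⌊(2 : ℝ) ^ d.X * d.val ω⌋

/-- The shift. -/
noncomputable def s (ω : Ω) : ℝ :=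
  (∑ j, d.bb ω j * ((d.fl (d.R ω) j : ℝ) / 2 ^ d.m -
    (2 : ℝ) ^ d.X * Int.fract (d.SV j * d.aL (d.R ω) j))) / 2 ^ d.X

/-- The coefficients. -/
noncomputable def co (ω : Ω) : Mon k 1 → ℝ := cof (d.bb ω)

/-- The time with the coefficients and the shift. -/
noncomputable def T (ω : Ω) : ℝ × ((Fin k → ℝ) × ℝ) := (d.th ω, (d.bb ω, d.s ω))

/-- The lines of one context have the same digits. -/
structure Ok (K : ℕ) (p : Ω → ℝ) : Prop where
  g_L : ∀ ω ω', 0 < p ω → 0 < p ω' → d.L ω = d.L ω' → d.g ω = d.g ω'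
  dg : ∀ ω, 0 < p ω → (d.dn ω).natDegree ≤ K
  th0 : ∀ ω, 0 < p ω → 0 ≤ d.th ω ∧ d.th ω < 1
  cN : ∀ ω, 0 < p ω → ∀ a, |d.SN * (d.dn ω).coeff (a + 1)| ≤ 1
  cV : ∀ ω, 0 < p ω → ∀ j, ⌊d.SV j * d.aL (d.L ω) j⌋ = ⌊d.SV j * d.aL (d.R ω) j⌋
  cF : ∀ ω, 0 < p ω → ∀ j, d.fl (d.L ω) j = d.fl (d.R ω) j
  bd : ∀ ω, 0 < p ω → ∀ j, |d.bb ω j| ≤ 2 ^ d.m

variable {d}

theorem Det_of {Ω S T : Type} {p : Ω → ℝ} {X : Ω → S} {Y : Ω → T}
    (h : ∀ ω ω', 0 < p ω → 0 < p ω' → X ω = X ω' → Y ω = Y ω') : Det p X Y := h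

/-- The scaled number. -/
theorem val_eq {K : ℕ} {p : Ω → ℝ} (h : d.Ok K p) {ω : Ω} (hω : 0 < p ω) :
    ∃ (θ : Fin k → ℝ) (η : Fin K → ℝ), (∀ j, 0 ≤ θ j ∧ θ j ≤ 1) ∧ (∀ a, 0 ≤ η a ∧ η a ≤ 1) ∧
      (∀ j, θ j = (2 : ℝ) ^ d.m * Int.fract ((2 : ℝ) ^ d.X * (d.SV j * d.aL (d.L ω) j)) -
        d.fl (d.L ω) j) ∧
      (∀ a, η a = (2 : ℝ) ^ d.X * (d.SN * (d.dn ω).coeff (a.val + 1)) - d.c K ω a) ∧
      (2 : ℝ) ^ d.X * d.val ω = (2 : ℝ) ^ d.X * (d.SN * (d.dn ω).coeff 0) +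
        (∑ a : Fin K, (d.c K ω a + η a) * d.th ω ^ (a.val + 1)) -
        (∑ j, d.bb ω j * d.y ω j) - 2 ^ d.X * d.s ω - ∑ j, d.bb ω j * (θ j / 2 ^ d.m) := by
  have hX : (0 : ℝ) < 2 ^ d.X := by positivity
  have hm : (0 : ℝ) < 2 ^ d.m := by positivity
  refine ⟨fun j => (2 : ℝ) ^ d.m * Int.fract ((2 : ℝ) ^ d.X * (d.SV j * d.aL (d.L ω) j)) -
    d.fl (d.L ω) j, fun a => (2 : ℝ) ^ d.X * (d.SN * (d.dn ω).coeff (a.val + 1)) - d.c K ω a,
    fun j => ?_, fun a => ?_, fun j => rfl, fun a => rfl, ?_⟩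
  · unfold fl
    constructor
    · have := Int.floor_le ((2 : ℝ) ^ d.m * Int.fract ((2 : ℝ) ^ d.X * (d.SV j * d.aL (d.L ω) j)))
      linarith
    · have := Int.lt_floor_add_one
        ((2 : ℝ) ^ d.m * Int.fract ((2 : ℝ) ^ d.X * (d.SV j * d.aL (d.L ω) j)))
      linarith
  · unfold c
    constructor
    · have := Int.floor_le ((2 : ℝ) ^ d.X * (d.SN * (d.dn ω).coeff (a.val + 1)))
      linarith
    · have := Int.lt_floor_add_one ((2 : ℝ) ^ d.X * (d.SN * (d.dn ω).coeff (a.val + 1)))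
      linarith
  -- the polynomial
  have e1 : (2 : ℝ) ^ d.X * (d.SN * (d.dn ω).eval (d.th ω)) =
      (2 : ℝ) ^ d.X * (d.SN * (d.dn ω).coeff 0) +
      ∑ a : Fin K, (2 : ℝ) ^ d.X * (d.SN * (d.dn ω).coeff (a.val + 1)) *
        d.th ω ^ (a.val + 1) := by
    rw [Polynomial.eval_eq_sum_range' (Nat.lt_succ_of_le (h.dg ω hω)), Finset.sum_range_succ',
      pow_zero, mul_one, mul_add, mul_add, add_comm, Finset.sum_range, Finset.mul_sum,
      Finset.mul_sum]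
    congr 1
    refine Finset.sum_congr rfl fun a _ => ?_
    ring
  -- one coordinate
  have e2 : ∀ j, (2 : ℝ) ^ d.X * (d.SV j * (d.aL (d.L ω) j - d.aL (d.R ω) j)) =
      d.y ω j + ((d.fl (d.R ω) j : ℝ) / 2 ^ d.m -
        (2 : ℝ) ^ d.X * Int.fract (d.SV j * d.aL (d.R ω) j)) +
      ((2 : ℝ) ^ d.m * Int.fract ((2 : ℝ) ^ d.X * (d.SV j * d.aL (d.L ω) j)) -
        d.fl (d.L ω) j) / 2 ^ d.m := by
    intro j
    have h1 := h.cV ω hω j
    have h2 := h.cF ω hω j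
    -- the fractional part of `2 ^ X a`
    have h3 : (2 : ℝ) ^ d.X * Int.fract (d.SV j * d.aL (d.L ω) j) =
        d.y ω j + Int.fract ((2 : ℝ) ^ d.X * (d.SV j * d.aL (d.L ω) j)) := by
      have h4 : (2 : ℝ) ^ d.X * (d.SV j * d.aL (d.L ω) j) =
          (2 : ℝ) ^ d.X * Int.fract (d.SV j * d.aL (d.L ω) j) +
            ((2 ^ d.X * ⌊d.SV j * d.aL (d.L ω) j⌋ : ℤ) : ℝ) := by
        push_cast
        rw [← mul_add, Int.fract_add_floor]
      rw [h4, Int.fract_add_intCast]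
      unfold y yl
      rw [add_comm]
      exact (Int.fract_add_floor _).symm
    have h5 : d.SV j * d.aL (d.L ω) j = Int.fract (d.SV j * d.aL (d.L ω) j) +
        ⌊d.SV j * d.aL (d.L ω) j⌋ := (Int.fract_add_floor _).symm
    have h6 : d.SV j * d.aL (d.R ω) j = Int.fract (d.SV j * d.aL (d.R ω) j) +
        ⌊d.SV j * d.aL (d.R ω) j⌋ := (Int.fract_add_floor _).symm
    have h7 : (2 : ℝ) ^ d.X * (d.SV j * (d.aL (d.L ω) j - d.aL (d.R ω) j)) =
        (2 : ℝ) ^ d.X * Int.fract (d.SV j * d.aL (d.L ω) j) -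
        (2 : ℝ) ^ d.X * Int.fract (d.SV j * d.aL (d.R ω) j) := by
      have h8 : d.SV j * (d.aL (d.L ω) j - d.aL (d.R ω) j) =
          Int.fract (d.SV j * d.aL (d.L ω) j) - Int.fract (d.SV j * d.aL (d.R ω) j) := by
        have h9 : (⌊d.SV j * d.aL (d.L ω) j⌋ : ℝ) = ⌊d.SV j * d.aL (d.R ω) j⌋ := by rw [h1]
        rw [mul_sub]
        linarith only [h5, h6, h9]
      rw [h8, mul_sub]
    rw [h7, h3, h2, sub_div, mul_div_cancel_left₀ _ hm.ne']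
    ring
  have e3 : ∑ j, d.bb ω j * ((2 : ℝ) ^ d.X * (d.SV j * (d.aL (d.L ω) j - d.aL (d.R ω) j))) =
      (∑ j, d.bb ω j * d.y ω j) + 2 ^ d.X * d.s ω +
      ∑ j, d.bb ω j * (((2 : ℝ) ^ d.m *
        Int.fract ((2 : ℝ) ^ d.X * (d.SV j * d.aL (d.L ω) j)) - d.fl (d.L ω) j) / 2 ^ d.m) := by
    have e4 : (2 : ℝ) ^ d.X * d.s ω = ∑ j, d.bb ω j * ((d.fl (d.R ω) j : ℝ) / 2 ^ d.m -
        (2 : ℝ) ^ d.X * Int.fract (d.SV j * d.aL (d.R ω) j)) := by
      unfold s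
      rw [mul_div_cancel₀ _ hX.ne']
    rw [e4, ← Finset.sum_add_distrib, ← Finset.sum_add_distrib]
    refine Finset.sum_congr rfl fun j _ => ?_
    rw [e2 j]
    ring
  have e5 : (2 : ℝ) ^ d.X * d.val ω = (2 : ℝ) ^ d.X * (d.SN * (d.dn ω).eval (d.th ω)) -
      ∑ j, d.bb ω j * ((2 : ℝ) ^ d.X * (d.SV j * (d.aL (d.L ω) j - d.aL (d.R ω) j))) := by
    unfold val
    rw [mul_sub, Finset.mul_sum]
    congr 1
    refine Finset.sum_congr rfl fun j _ => ?_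
    ring
  have e6 : ∑ a : Fin K, (d.c K ω a + ((2 : ℝ) ^ d.X * (d.SN * (d.dn ω).coeff (a.val + 1)) -
      d.c K ω a)) * d.th ω ^ (a.val + 1) = ∑ a : Fin K,
      (2 : ℝ) ^ d.X * (d.SN * (d.dn ω).coeff (a.val + 1)) * d.th ω ^ (a.val + 1) := by
    refine Finset.sum_congr rfl fun a _ => ?_
    ring
  rw [e5, e1, e3, e6]
  ring

/-- **The field `hZ`.** -/
theorem hZ_of {K : ℕ} {p : Ω → ℝ} (h : d.Ok K p) {ω ω' : Ω} (hω : 0 < p ω) (hω' : 0 < p ω')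
    (hL : d.L ω = d.L ω') :
    |((d.N ω' : ℝ) - d.N ω) - 2 ^ d.X * (∑ a : Fin K,
      (d.th ω' ^ (a.val + 1) - d.th ω ^ (a.val + 1)) * (d.c K ω a / 2 ^ d.X) - (d.s ω' - d.s ω) -
      (pv (d.co ω') (fun j => (d.y ω j : ℝ) / 2 ^ d.X) -
        pv (d.co ω) (fun j => (d.y ω j : ℝ) / 2 ^ d.X)))| ≤ 2 ^ (K + 2 * k + 1) := by
  have hX : (0 : ℝ) < 2 ^ d.X := by positivity
  have hm : (0 : ℝ) < 2 ^ d.m := by positivity
  have hg := h.g_L ω ω' hω hω' hL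
  have hR : d.R ω = d.R ω' := by
    unfold R
    rw [hg]
  have hdn : d.dn ω = d.dn ω' := by
    unfold dn
    rw [hL, hR]
  have hy : d.y ω = d.y ω' := by
    funext j
    unfold y
    rw [hL]
  have hc : d.c K ω = d.c K ω' := by
    funext a
    unfold c
    rw [hdn]
  obtain ⟨θ, η, t1, t2, t3, t4, t5⟩ := val_eq h hω
  obtain ⟨θ', η', u1, u2, u3, u4, u5⟩ := val_eq h hω'
  have hθ : θ = θ' := by
    funext j
    rw [t3, u3, hL]
  have hη : η = η' := by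
    funext a
    rw [t4, u4, hdn, hc]
  rw [← hθ, ← hη, ← hdn, ← hy, ← hc] at u5
  -- the floors
  have f1 := Int.floor_le ((2 : ℝ) ^ d.X * d.val ω)
  have f2 := Int.lt_floor_add_one ((2 : ℝ) ^ d.X * d.val ω)
  have f3 := Int.floor_le ((2 : ℝ) ^ d.X * d.val ω')
  have f4 := Int.lt_floor_add_one ((2 : ℝ) ^ d.X * d.val ω')
  -- the polynomials
  have g1 : ∀ o : Ω, (2 : ℝ) ^ d.X * pv (d.co o) (fun j => (d.y ω j : ℝ) / 2 ^ d.X) =
      ∑ j, d.bb o j * d.y ω j := by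
    intro o
    unfold co
    rw [pv_cof, Finset.mul_sum]
    refine Finset.sum_congr rfl fun j _ => ?_
    rw [mul_div_assoc', mul_div_assoc', mul_comm ((2 : ℝ) ^ d.X), mul_div_cancel_right₀ _ hX.ne']
  have g2 : (2 : ℝ) ^ d.X * ∑ a : Fin K,
      (d.th ω' ^ (a.val + 1) - d.th ω ^ (a.val + 1)) * (d.c K ω a / 2 ^ d.X) =
      ∑ a : Fin K, (d.th ω' ^ (a.val + 1) - d.th ω ^ (a.val + 1)) * d.c K ω a := by
    rw [Finset.mul_sum]
    refine Finset.sum_congr rfl fun a _ => ?_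
    field_simp
  -- the errors
  obtain ⟨e₁, he₁⟩ : ∃ e : ℝ, e = ∑ a : Fin K,
    η a * (d.th ω' ^ (a.val + 1) - d.th ω ^ (a.val + 1)) := ⟨_, rfl⟩
  obtain ⟨e₂, he₂⟩ : ∃ e : ℝ, e = ∑ j, (d.bb ω' j - d.bb ω j) * (θ j / 2 ^ d.m) := ⟨_, rfl⟩
  have b1 : |e₁| ≤ K := by
    rw [he₁]
    refine (Finset.abs_sum_le_sum_abs _ _).trans ?_
    have h1 : ∀ a ∈ (univ : Finset (Fin K)),
        |η a * (d.th ω' ^ (a.val + 1) - d.th ω ^ (a.val + 1))| ≤ 1 := by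
      intro a _
      rw [abs_mul]
      have h2 := t2 a
      have h3 := h.th0 ω hω
      have h4 := h.th0 ω' hω'
      have h5 : d.th ω ^ (a.val + 1) ≤ 1 := pow_le_one₀ h3.1 h3.2.le
      have h6 : d.th ω' ^ (a.val + 1) ≤ 1 := pow_le_one₀ h4.1 h4.2.le
      have h7 : 0 ≤ d.th ω ^ (a.val + 1) := pow_nonneg h3.1 _
      have h8 : 0 ≤ d.th ω' ^ (a.val + 1) := pow_nonneg h4.1 _
      have h9 : |d.th ω' ^ (a.val + 1) - d.th ω ^ (a.val + 1)| ≤ 1 := by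
        rw [abs_le]
        constructor <;> linarith
      rw [abs_of_nonneg h2.1]
      exact mul_le_one₀ h2.2 (abs_nonneg _) h9
    refine (Finset.sum_le_sum h1).trans (le_of_eq ?_)
    rw [Finset.sum_const, Finset.card_univ, Fintype.card_fin, nsmul_eq_mul, mul_one]
  have b2 : |e₂| ≤ 2 * k := by
    rw [he₂]
    refine (Finset.abs_sum_le_sum_abs _ _).trans ?_
    have h1 : ∀ j ∈ (univ : Finset (Fin k)),
        |(d.bb ω' j - d.bb ω j) * (θ j / 2 ^ d.m)| ≤ 2 := by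
      intro j _
      rw [abs_mul, abs_div, abs_of_pos hm, abs_of_nonneg (t1 j).1]
      have h2 : |d.bb ω' j - d.bb ω j| ≤ 2 * 2 ^ d.m := by
        have h3 := h.bd ω hω j
        have h4 := h.bd ω' hω' j
        refine (abs_sub _ _).trans ?_
        linarith
      calc |d.bb ω' j - d.bb ω j| * (θ j / 2 ^ d.m) ≤ (2 * 2 ^ d.m) * (1 / 2 ^ d.m) := by
            refine mul_le_mul h2 ?_ (div_nonneg (t1 j).1 hm.le) (by positivity)
            exact div_le_div_of_nonneg_right (t1 j).2 hm.le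
        _ = 2 := by
            rw [mul_one_div, mul_div_assoc, div_self hm.ne', mul_one]
    refine (Finset.sum_le_sum h1).trans (le_of_eq ?_)
    rw [Finset.sum_const, Finset.card_univ, Fintype.card_fin, nsmul_eq_mul, mul_comm]
  -- the identity
  have key : (2 : ℝ) ^ d.X * d.val ω' - (2 : ℝ) ^ d.X * d.val ω =
      2 ^ d.X * (∑ a : Fin K,
      (d.th ω' ^ (a.val + 1) - d.th ω ^ (a.val + 1)) * (d.c K ω a / 2 ^ d.X) - (d.s ω' - d.s ω) -
      (pv (d.co ω') (fun j => (d.y ω j : ℝ) / 2 ^ d.X) -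
        pv (d.co ω) (fun j => (d.y ω j : ℝ) / 2 ^ d.X))) + e₁ - e₂ := by
    have k1 : ∑ a : Fin K, (d.c K ω a + η a) * d.th ω' ^ (a.val + 1) -
        ∑ a : Fin K, (d.c K ω a + η a) * d.th ω ^ (a.val + 1) =
        (∑ a : Fin K, (d.th ω' ^ (a.val + 1) - d.th ω ^ (a.val + 1)) * d.c K ω a) + e₁ := by
      rw [he₁, ← Finset.sum_sub_distrib, ← Finset.sum_add_distrib]
      refine Finset.sum_congr rfl fun a _ => ?_
      ring
    have k2 : ∑ j, d.bb ω' j * (θ j / 2 ^ d.m) - ∑ j, d.bb ω j * (θ j / 2 ^ d.m) = e₂ := by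
      rw [he₂, ← Finset.sum_sub_distrib]
      refine Finset.sum_congr rfl fun a _ => ?_
      ring
    rw [mul_sub, mul_sub, mul_sub, mul_sub, g1, g1, g2, t5, u5]
    linarith only [k1, k2]
  have b1' := abs_le.mp b1
  have b2' := abs_le.mp b2
  have hN : (d.N ω : ℝ) = ⌊(2 : ℝ) ^ d.X * d.val ω⌋ := rfl
  have hN' : (d.N ω' : ℝ) = ⌊(2 : ℝ) ^ d.X * d.val ω'⌋ := rfl
  have hfin : ((K + 2 * k + 1 : ℕ) : ℝ) ≤ 2 ^ (K + 2 * k + 1) := by
    exact_mod_cast (Nat.lt_two_pow_self (n := K + 2 * k + 1)).le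
  push_cast at hfin
  refine le_trans ?_ hfin
  rw [abs_le, hN, hN']
  constructor <;> linarith only [f1, f2, f3, f4, b1'.1, b1'.2, b2'.1, b2'.2, key]

/-- **The fields of `AvgA`.** -/
theorem avg [Fintype Ω] {K : ℕ} {p : Ω → ℝ} (hp : IsLaw p) (h : d.Ok K p) {cc κ π₀ ι ε₀ : ℝ}
    {j₀ : ℕ} (hb : ∀ ω, 0 < p ω → ∀ j, |d.bb ω j| ≤ (2 : ℝ) ^ (ι * d.X))
    (h1 : Pool.KVA.MI p d.T d.L d.g ≤ ι * d.X)
    (h1f : (1 - ι) * d.X * Real.log 2 ≤ CH p (fun ω => ⌊(2 : ℝ) ^ d.X * d.th ω⌋) d.L)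
    (h1a : j₀ * Real.log 2 - ε₀ ≤ CH p (fun ω => ⌊(2 : ℝ) ^ j₀ * d.th ω⌋) d.L)
    (h2 : Pool.KVA.MI p d.N (fun ω => (d.y ω, d.c K ω)) (fun ω => (d.T ω, d.g ω)) ≤ ι * d.X)
    (h3 : (k - ι) * d.X * Real.log 2 ≤ CH p d.y d.g)
    (h5 : ∀ j : ℕ, (j + 1) * ⌊κ * d.X⌋₊ ≤ d.X → ∀ E : Set Ω, π₀ ≤ Pr p E →
      CH (rs p E) (fun ω => d.N ω / 2 ^ (d.X - (j + 1) * ⌊κ * d.X⌋₊))
        (fun ω => ((d.N ω / 2 ^ (d.X - j * ⌊κ * d.X⌋₊), d.T ω), d.g ω)) ≤
        (1 - cc) * ⌊κ * d.X⌋₊ * Real.log 2) :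
    AvgA p d.L d.T d.g d.y (d.c K) d.N d.th d.s d.co d.X (K + 2 * k + 1) cc κ π₀ ι ε₀ j₀ := by
  have hX : (0 : ℝ) < 2 ^ d.X := by positivity
  refine ⟨hp, h.g_L, ?_, ?_, ?_, ?_, ?_, ?_, ?_, ?_, ?_, ?_, ?_, h1, h1f, h1a, h2, h3, h5⟩
  · intro ω ω' _ _ e
    funext j
    unfold y
    rw [e]
  · intro ω ω' hω hω' e
    have hg := h.g_L ω ω' hω hω' e
    funext a
    unfold c dn R
    rw [e, hg]
  · intro ω ω' _ _ e
    exact (Prod.ext_iff.mp e).1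
  · intro ω ω' _ _ e
    exact (Prod.ext_iff.mp (Prod.ext_iff.mp e).2).2
  · intro ω ω' _ _ e
    unfold co
    have h1 : d.bb ω = d.bb ω' := (Prod.ext_iff.mp (Prod.ext_iff.mp e).2).1
    rw [h1]
  · intro ω ω' hω hω' e
    obtain ⟨e1, e2⟩ := Prod.ext_iff.mp e
    have e1' : d.L ω = d.L ω' := e1
    have hg := h.g_L ω ω' hω hω' e1'
    have e3 : d.th ω = d.th ω' := (Prod.ext_iff.mp e2).1
    have e4 : d.bb ω = d.bb ω' := (Prod.ext_iff.mp (Prod.ext_iff.mp e2).2).1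
    unfold N val dn R
    rw [e1', hg, e3, e4]
  · intro ω _ j
    unfold y yl
    have f1 := Int.fract_nonneg (d.SV j * d.aL (d.L ω) j)
    have f2 := Int.fract_lt_one (d.SV j * d.aL (d.L ω) j)
    constructor
    · exact Int.floor_nonneg.mpr (mul_nonneg hX.le f1)
    · rw [Int.floor_lt]
      push_cast
      calc (2 : ℝ) ^ d.X * Int.fract (d.SV j * d.aL (d.L ω) j) < 2 ^ d.X * 1 :=
            mul_lt_mul_of_pos_left f2 hX
        _ = 2 ^ d.X := mul_one _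
  · intro ω hω a
    have h4 := abs_le.mp (h.cN ω hω a.val)
    have f1 := Int.floor_le ((2 : ℝ) ^ d.X * (d.SN * (d.dn ω).coeff (a.val + 1)))
    have f5 : (-(2 : ℝ) ^ d.X) ≤ (2 : ℝ) ^ d.X * (d.SN * (d.dn ω).coeff (a.val + 1)) := by
      nlinarith only [h4.1, hX]
    have f6 : (2 : ℝ) ^ d.X * (d.SN * (d.dn ω).coeff (a.val + 1)) ≤ 2 ^ d.X := by
      nlinarith only [h4.2, hX]
    have f7 : (-(2 ^ d.X : ℤ)) ≤ ⌊(2 : ℝ) ^ d.X * (d.SN * (d.dn ω).coeff (a.val + 1))⌋ := by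
      rw [Int.le_floor]
      push_cast
      exact f5
    have f8 : (-(2 : ℝ) ^ d.X) ≤ d.c K ω a := by
      unfold c
      exact_mod_cast f7
    rw [abs_le]
    refine ⟨f8, ?_⟩
    unfold c
    exact f1.trans f6
  · exact fun ω hω => h.th0 ω hω
  · intro ω hω i
    obtain ⟨j, hj⟩ := exists_cof (d.bb ω) i
    unfold co
    rw [hj]
    exact hb ω hω j
  · exact fun ω ω' hω hω' e => hZ_of h hω hω' e

end HD

/-- **Closed gradients.** -/
theorem clo_own (k K : ℕ) (cc ε : ℝ) (hcc : 0 < cc) (hε : 0 < ε) :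
    ∃ (κ₂ κ π₀ ι ε₀ : ℝ) (k₀ j₀ X₀ : ℕ), 0 < κ₂ ∧ 0 < κ ∧ κ ≤ 1 ∧ 0 < π₀ ∧ 0 < ι ∧ 0 < ε₀ ∧
      ∀ {Ω Λ γ : Type} [Fintype Ω] (p : Ω → ℝ) (d : HD Ω Λ γ k), X₀ ≤ d.X → IsLaw p → d.Ok K p →
        (∀ ω, 0 < p ω → ∀ j, |d.bb ω j| ≤ (2 : ℝ) ^ (ι * d.X)) →
        Pool.KVA.MI p d.T d.L d.g ≤ ι * d.X →
        (1 - ι) * d.X * Real.log 2 ≤ CH p (fun ω => ⌊(2 : ℝ) ^ d.X * d.th ω⌋) d.L →
        j₀ * Real.log 2 - ε₀ ≤ CH p (fun ω => ⌊(2 : ℝ) ^ j₀ * d.th ω⌋) d.L →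
        Pool.KVA.MI p d.N (fun ω => (d.y ω, d.c K ω)) (fun ω => (d.T ω, d.g ω)) ≤ ι * d.X →
        (k - ι) * d.X * Real.log 2 ≤ CH p d.y d.g →
        (∀ j : ℕ, (j + 1) * ⌊κ * d.X⌋₊ ≤ d.X → ∀ E : Set Ω, π₀ ≤ Pr p E →
          CH (rs p E) (fun ω => d.N ω / 2 ^ (d.X - (j + 1) * ⌊κ * d.X⌋₊))
            (fun ω => ((d.N ω / 2 ^ (d.X - j * ⌊κ * d.X⌋₊), d.T ω), d.g ω)) ≤
            (1 - cc) * ⌊κ * d.X⌋₊ * Real.log 2) →
        ∃ mu : Λ → Fin k → Polynomial ℝ, (∀ l i, (mu l i).natDegree ≤ K) ∧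
          (∀ l i (u : ℝ), |(mu l i).eval u| ≤
            (K + 1) * (2 ^ k₀ * (|u| + 1)) ^ K * (2 : ℝ) ^ (ι * d.X)) ∧
          Pb p (fun ω => ∃ i, (2 : ℝ) ^ (-(κ₂ * d.X)) <
            |d.bb ω i - (mu (d.L ω) i).eval (d.th ω)|) ≤ ε := by
  classical
  obtain ⟨κ₂, κ, π₀, ι, ε₀, k₀, j₀, X₀, a1, a2, a3, a4, a5, a6, H⟩ :=
    Pool.D2L.clo_law k K 1 (K + 2 * k + 1) cc ε hcc hε
  refine ⟨κ₂, κ, π₀, ι, ε₀, k₀, j₀, X₀, a1, a2, a3, a4, a5, a6, ?_⟩
  intro Ω Λ γ _ p d hX hp hok hb h1 h1f h1a h2 h3 h5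
  obtain ⟨mu, m1, m2, m3⟩ := H p d.L d.T d.g d.y (d.c K) d.N d.th d.s d.co d.X hX
    (HD.avg hp hok hb h1 h1f h1a h2 h3 h5)
  refine ⟨fun l j => mu l ⟨Pi.single j 1, single_mem j⟩, fun l i => m1 l _,
    fun l i u => m2 l _ u, le_trans ?_ m3⟩
  unfold Pb
  refine Finset.sum_le_sum fun ω _ => ?_
  by_cases h6 : ∃ i, (2 : ℝ) ^ (-(κ₂ * d.X)) < |d.bb ω i -
      (mu (d.L ω) ⟨Pi.single i 1, single_mem i⟩).eval (d.th ω)|
  · rw [if_pos h6, if_pos ?_]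
    obtain ⟨i, hi⟩ := h6
    refine ⟨⟨Pi.single i 1, single_mem i⟩, ?_⟩
    have h7 : d.co ω ⟨Pi.single i 1, single_mem i⟩ = d.bb ω i := by
      unfold HD.co cof
      exact cof_single (d.bb ω) i
    rw [h7]
    exact hi
  · rw [if_neg h6]
    split_ifs
    · exact hp.nonneg ω
    · exact le_rfl

/-! ### The change of the parameter -/

/-- The coefficients of `P (2 X - 1)`. -/
theorem comp_coeff {K : ℕ} {P : Polynomial ℝ} (hP : P.natDegree ≤ K) {δ : ℝ}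
    (h : ∀ a, |P.coeff a| ≤ δ) (a : ℕ) :
    |(P.comp (Polynomial.C 2 * Polynomial.X - Polynomial.C 1)).coeff a| ≤ (K + 1) * 3 ^ K * δ := by
  have hδ : 0 ≤ δ := (abs_nonneg _).trans (h 0)
  -- the coefficients of the powers
  have h1 : ∀ b a : ℕ, |((Polynomial.C (2 : ℝ) * Polynomial.X - Polynomial.C 1) ^ b).coeff a| ≤
      3 ^ b := by
    intro b
    induction b with
    | zero =>
      intro a
      rw [pow_zero, pow_zero, Polynomial.coeff_one]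
      split_ifs <;> simp
    | succ b ih =>
      intro a
      rw [pow_succ, mul_sub, Polynomial.coeff_sub, Polynomial.coeff_mul_C, mul_one]
      have h2 : (((Polynomial.C (2 : ℝ) * Polynomial.X - Polynomial.C 1) ^ b) *
          (Polynomial.C 2 * Polynomial.X)) =
          Polynomial.C 2 * (((Polynomial.C (2 : ℝ) * Polynomial.X - Polynomial.C 1) ^ b) *
            Polynomial.X) := by ring
      rw [h2, Polynomial.coeff_C_mul]
      refine (abs_sub _ _).trans ?_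
      rw [abs_mul, abs_two]
      have h3 : |((((Polynomial.C (2 : ℝ) * Polynomial.X - Polynomial.C 1) ^ b) *
            Polynomial.X)).coeff a| ≤ 3 ^ b := by
        cases a with
        | zero =>
          rw [Polynomial.coeff_mul_X_zero, abs_zero]
          positivity
        | succ a =>
          rw [Polynomial.coeff_mul_X]
          exact ih a
      have h4 := ih a
      rw [pow_succ]
      linarith
  rw [Polynomial.comp, Polynomial.eval₂_eq_sum_range' _ (Nat.lt_succ_of_le hP),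
    Polynomial.finsetSum_coeff]
  refine (Finset.abs_sum_le_sum_abs _ _).trans ?_
  have h5 : ∀ b ∈ range (K + 1), |(Polynomial.C (P.coeff b) *
      (Polynomial.C (2 : ℝ) * Polynomial.X - Polynomial.C 1) ^ b).coeff a| ≤ 3 ^ K * δ := by
    intro b hb
    rw [Polynomial.coeff_C_mul, abs_mul, mul_comm]
    refine mul_le_mul ((h1 b a).trans ?_) (h b) (abs_nonneg _) (by positivity)
    exact pow_le_pow_right₀ (by norm_num) (Nat.lt_succ_iff.mp (Finset.mem_range.mp hb))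
  refine (Finset.sum_le_sum h5).trans (le_of_eq ?_)
  rw [Finset.sum_const, Finset.card_range, nsmul_eq_mul]
  push_cast
  ring

end Pool.D2Hz
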