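import Pool.Agent.H42.D2.Zwc
import Pool.Agent.H88.D2.Uov

/-!
# The critical slope: algebra

`ev_chg`: two frames which differ in one place. `jreal`: the quotient with the frozen denominator.
`jL`, `jN`, `jG`: the closed polynomials; `lamT`, `lamS`: the closed gradients of the thin place.
-/

set_option autoImplicit false

namespace Pool.TNW

open Finset Real MvPolynomial
open Pool.Agent.H49.Ent Pool.Agent.H32.Dense Pool.STK Pool.KA Pool.KSAT Pool.K2S Pool.PB Pool.S6C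
open Pool.GEN Pool.CHT Pool.CHX Pool.ISO Pool.D2R Pool.D2Z Pool.D2F Pool.TN
open Pool.FLF (Fam.sub)
open Pool.PB.Trl (rt rt_mem t_rt)

variable {m J : ℕ}

/-! ### Two frames which differ in one place -/

/-- **Two frames which differ in one place** `j`. -/
theorem ev_chg {c : ℕ → Fin m} {n : ℕ} (hc : Set.InjOn c (Set.Iio n))
    {Ξ Ξ' : ℕ → Option (Fin m) → ℝ} (hΞ : ∀ l, CvC c l (Ξ l)) (hΞ' : ∀ l, CvC c l (Ξ' l)) {j : ℕ}
    (h : ∀ l < n, l ≠ j → ∀ V : Option (Fin m) → ℝ, V none = 0 → cv (Ξ l) V = cv (Ξ' l) V)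
    (x : ℕ) : ∀ i < n, ev c n Ξ x (some (c i)) =
      ev c n Ξ' x (some (c i)) + cv (Ξ j - Ξ' j) (ev c n Ξ' x) * ev c n Ξ j (some (c i)) := by
  intro i
  induction i using Nat.strong_induction_on with
  | _ i ih =>
    intro hi
    have h1 := ev_comp hc hΞ x hi
    have h2 := ev_comp hc hΞ' x hi
    have h3 := ev_comp hc hΞ j hi
    have hci := hc.mono (Set.Iio_subset_Iio hi.le)
    have e1 : cv (Ξ i) (ev c n Ξ x) = cv (Ξ i) (ev c n Ξ' x) +
        cv (Ξ j - Ξ' j) (ev c n Ξ' x) * cv (Ξ i) (ev c n Ξ j) := by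
      rw [cv_eq hci (hΞ i), cv_eq hci (hΞ i), cv_eq hci (hΞ i), ev_none, ev_none, ev_none,
        mul_zero, zero_add, zero_add, zero_add, Finset.mul_sum, ← Finset.sum_add_distrib]
      refine Finset.sum_congr rfl fun k hk => ?_
      rw [Finset.mem_range] at hk
      rw [ih k hk (hk.trans hi)]
      ring
    have e2 : cv (Ξ i) (ev c n Ξ' x) - cv (Ξ' i) (ev c n Ξ' x) =
        if i = j then cv (Ξ j - Ξ' j) (ev c n Ξ' x) else 0 := by
      split_ifs with hij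
      · rw [hij, cv_subl]
      · rw [h i hi hij _ (ev_none _ _ _ _), sub_self]
    have e3 : (if i = j then cv (Ξ j - Ξ' j) (ev c n Ξ' x) else 0) =
        cv (Ξ j - Ξ' j) (ev c n Ξ' x) * (if i = j then 1 else 0) := by
      split_ifs
      · rw [mul_one]
      · rw [mul_zero]
    rw [e3] at e2
    have e4 := congrArg (fun y => cv (Ξ j - Ξ' j) (ev c n Ξ' x) * y) h3
    simp only [mul_sub] at e4
    linarith

/-- A covector on the vectors of two frames which differ in one place. -/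
theorem cv_chg {c : ℕ → Fin m} {n : ℕ} (hc : Set.InjOn c (Set.Iio n))
    {Ξ Ξ' : ℕ → Option (Fin m) → ℝ} (hΞ : ∀ l, CvC c l (Ξ l)) (hΞ' : ∀ l, CvC c l (Ξ' l)) {j : ℕ}
    (h : ∀ l < n, l ≠ j → ∀ V : Option (Fin m) → ℝ, V none = 0 → cv (Ξ l) V = cv (Ξ' l) V)
    (x : ℕ) {φ : Option (Fin m) → ℝ} (hφ : CvC c n φ) :
    cv φ (ev c n Ξ x) = cv φ (ev c n Ξ' x) +
      cv (Ξ j - Ξ' j) (ev c n Ξ' x) * cv φ (ev c n Ξ j) := by
  rw [cv_eq hc hφ, cv_eq hc hφ, cv_eq hc hφ, ev_none, ev_none, ev_none, mul_zero, zero_add,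
    zero_add, zero_add, Finset.mul_sum, ← Finset.sum_add_distrib]
  refine Finset.sum_congr rfl fun k hk => ?_
  rw [ev_chg hc hΞ hΞ' h x k (Finset.mem_range.1 hk)]
  ring

/-- The second derivative on the vectors of two frames which differ in one place. -/
theorem hs_chg {c : ℕ → Fin m} {n : ℕ} (hc : Set.InjOn c (Set.Iio n))
    {Ξ Ξ' : ℕ → Option (Fin m) → ℝ} (hΞ : ∀ l, CvC c l (Ξ l)) (hΞ' : ∀ l, CvC c l (Ξ' l)) {j : ℕ}
    (h : ∀ l < n, l ≠ j → ∀ V : Option (Fin m) → ℝ, V none = 0 → cv (Ξ l) V = cv (Ξ' l) V)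
    (x : ℕ) {Q : MvPolynomial (Option (Fin m)) ℝ}
    (hQ : DepC c n Q) (y W : Option (Fin m) → ℝ) :
    hs Q y W (ev c n Ξ x) = hs Q y W (ev c n Ξ' x) +
      cv (Ξ j - Ξ' j) (ev c n Ξ' x) * hs Q y W (ev c n Ξ j) :=
  cv_chg hc hΞ hΞ' h x (cvc_hcv hQ y W)

/-- The vector of the place in which they differ. -/
theorem ev_chg_j {c : ℕ → Fin m} {n : ℕ} (hc : Set.InjOn c (Set.Iio n))
    {Ξ Ξ' : ℕ → Option (Fin m) → ℝ} (hΞ : ∀ l, CvC c l (Ξ l)) (hΞ' : ∀ l, CvC c l (Ξ' l)) {j : ℕ}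
    (hj : j < n)
    (h : ∀ l < n, l ≠ j → ∀ V : Option (Fin m) → ℝ, V none = 0 → cv (Ξ l) V = cv (Ξ' l) V) :
    ∀ i < n, ev c n Ξ j (some (c i)) = ev c n Ξ' j (some (c i)) := by
  intro i hi
  have h1 : ∀ χ : Option (Fin m) → ℝ, CvC c j χ → cv χ (ev c n Ξ' j) = 0 := by
    intro χ hχ
    rw [cv_eq (hc.mono (Set.Iio_subset_Iio hj.le)) hχ, ev_none, mul_zero, zero_add]
    exact Finset.sum_eq_zero fun k hk => by
      rw [Finset.mem_range] at hk
      rw [ev_low hc hΞ' k (hk.trans hj) hk, mul_zero]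
  rw [ev_chg hc hΞ hΞ' h j i hi, cv_subl, h1 _ (hΞ j), h1 _ (hΞ' j), sub_self, zero_mul,
    add_zero]

/-- The second derivative sees only the components. -/
theorem hs_agr {c : ℕ → Fin m} {n : ℕ} (hc : Set.InjOn c (Set.Iio n))
    {Q : MvPolynomial (Option (Fin m)) ℝ} (hQ : DepC c n Q) (y W : Option (Fin m) → ℝ)
    {V V' : Option (Fin m) → ℝ} (h0 : V none = 0) (h0' : V' none = 0)
    (h : ∀ i < n, V (some (c i)) = V' (some (c i))) : hs Q y W V = hs Q y W V' := by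
  rw [hs_sum_c hc hQ y W h0, hs_sum_c hc hQ y W h0']
  refine Finset.sum_congr rfl fun i hi => ?_
  rw [h i (Finset.mem_range.1 hi)]

/-! ### Real numbers -/

/-- **The quotient with the frozen denominator.** -/
theorem jreal {a μ zk zc zj pk pc pj γ L0 E₀ E₁ Λ Gt : ℝ} {f : ℕ} (hp : pk = pc + γ * pj)
    (hz : zk = zc + γ * zj) (h0 : |pk - a * zk| ≤ E₀) (h1 : |a - μ| * |zk| ≤ E₁) (hΛ : 0 < Λ)
    (hL : Λ ≤ |pj - μ * zj|) (hv : |(pj - μ * zj) - L0| ≤ Λ / 2 ^ (f + 1)) (hγ : |γ| ≤ Gt) :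
    |L0⁻¹ * (μ * zc - pc) - γ| ≤ 2 * (E₀ + E₁) / Λ + Gt / 2 ^ f := by
  have h2f : (1 : ℝ) ≤ 2 ^ f := one_le_pow₀ (by norm_num)
  have hL0 : Λ / 2 ≤ |L0| := by
    have h3 : |pj - μ * zj| ≤ |(pj - μ * zj) - L0| + |L0| := by
      calc |pj - μ * zj| = |((pj - μ * zj) - L0) + L0| := by rw [sub_add_cancel]
        _ ≤ _ := abs_add_le _ _
    have h4 : Λ / 2 ^ (f + 1) ≤ Λ / 2 := by
      refine div_le_div_of_nonneg_left hΛ.le (by norm_num) ?_
      rw [pow_succ]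
      linarith
    linarith
  have hL00 : 0 < |L0| := by linarith
  have hne : L0 ≠ 0 := abs_pos.1 hL00
  have e1 : L0⁻¹ * (μ * zc - pc) - γ =
      (-(pk - a * zk) - (a - μ) * zk + γ * ((pj - μ * zj) - L0)) / L0 := by
    rw [hp, hz]
    field_simp
    ring
  rw [e1, abs_div, div_le_iff₀ hL00]
  have h5 : |-(pk - a * zk) - (a - μ) * zk + γ * ((pj - μ * zj) - L0)| ≤
      E₀ + E₁ + Gt * (Λ / 2 ^ (f + 1)) := by
    refine (abs_add_le _ _).trans (add_le_add ((abs_sub _ _).trans (add_le_add ?_ ?_)) ?_)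
    · rw [abs_neg]
      exact h0
    · rw [abs_mul]
      exact h1
    · rw [abs_mul]
      exact mul_le_mul hγ hv (abs_nonneg _) ((abs_nonneg _).trans hγ)
  have hE : 0 ≤ E₀ + E₁ := add_nonneg ((abs_nonneg _).trans h0)
    ((mul_nonneg (abs_nonneg _) (abs_nonneg _)).trans h1)
  have hG : 0 ≤ Gt := (abs_nonneg _).trans hγ
  have h6 : (2 * (E₀ + E₁) / Λ + Gt / 2 ^ f) * (Λ / 2) ≤
      (2 * (E₀ + E₁) / Λ + Gt / 2 ^ f) * |L0| :=
    mul_le_mul_of_nonneg_left hL0 (by positivity)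
  have e2 : (2 * (E₀ + E₁) / Λ + Gt / 2 ^ f) * (Λ / 2) =
      E₀ + E₁ + Gt * (Λ / 2 ^ (f + 1)) := by
    rw [pow_succ]
    field_simp
  rw [e2] at h6
  exact h5.trans h6

/-! ### The closed polynomials -/

/-- The closed denominator. -/
noncomputable def jL {F : Fam m J} (c : ℕ → Fin m) (t st j : ℕ)
    (Φ : LnT F → MvPolynomial (Option (Fin m)) ℝ)
    (Xc : LnT F → ℕ → MvPolynomial (Option (Fin m)) ℝ) (mu : LnT F → Polynomial ℝ) (s : LnT F) :
    Polynomial ℝ := zp c 3 t Φ Xc j s - mu s * zp c 3 t (fun s => Xc s st) Xc j s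

/-- The closed numerator. -/
noncomputable def jN {F : Fam m J} (c : ℕ → Fin m) (t st : ℕ)
    (Φ : LnT F → MvPolynomial (Option (Fin m)) ℝ)
    (Xc : LnT F → ℕ → MvPolynomial (Option (Fin m)) ℝ) (mu : LnT F → Polynomial ℝ) (s : LnT F) :
    Polynomial ℝ := mu s * zp c 3 t (fun s => Xc s st) Xc 0 s - zp c 3 t Φ Xc 0 s

/-- The closed correction of the chart of the thin place. -/
noncomputable def jG {F : Fam m J} (c : ℕ → Fin m) (t st j : ℕ)
    (Φ : LnT F → MvPolynomial (Option (Fin m)) ℝ)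
    (Xc : LnT F → ℕ → MvPolynomial (Option (Fin m)) ℝ) (mu : LnT F → Polynomial ℝ) (s : LnT F) :
    Polynomial ℝ := Polynomial.C (((jL c t st j Φ Xc mu s).eval 0)⁻¹) * jN c t st Φ Xc mu s

theorem jG_deg {F : Fam m J} (c : ℕ → Fin m) (t st j : ℕ)
    {Φ : LnT F → MvPolynomial (Option (Fin m)) ℝ}
    {Xc : LnT F → ℕ → MvPolynomial (Option (Fin m)) ℝ} {mu : LnT F → Polynomial ℝ} {D D₁ : ℕ}
    (hΦ : ∀ s, (Φ s).totalDegree ≤ D) (hX : ∀ s l, (Xc s l).totalDegree ≤ D)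
    (hmu : ∀ s, (mu s).natDegree ≤ D₁) (s : LnT F) :
    (jG c t st j Φ Xc mu s).natDegree ≤ D₁ + 4 * D := by
  unfold jG jN
  refine (Polynomial.natDegree_C_mul_le _ _).trans ((Polynomial.natDegree_sub_le _ _).trans
    (max_le (Polynomial.natDegree_mul_le.trans ?_) ?_))
  · have h1 := zp_deg c 3 t (Q := fun s => Xc s st) (fun s => hX s st) hX 0 s
    have h2 := hmu s
    have h3 : D * (3 + 1) = 4 * D := by ring
    omega
  · have h1 := zp_deg c 3 t hΦ hX 0 s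
    have h3 : D * (3 + 1) = 4 * D := by ring
    omega

/-- **The closed gradient** of the thin place one. -/
noncomputable def lamT {F : Fam m J} (c : ℕ → Fin m) (t : ℕ)
    (Φ : LnT F → MvPolynomial (Option (Fin m)) ℝ)
    (Xc : LnT F → ℕ → MvPolynomial (Option (Fin m)) ℝ) (mu : LnT F → Polynomial ℝ) (s : LnT F)
    (_ : ℕ) : Polynomial ℝ :=
  kpol c t (fun s => Xc s 1) s 0 + jG c t 2 1 Φ Xc mu s

/-- **The closed gradient** of the thin place two over the static place one. -/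
noncomputable def lamS {F : Fam m J} (c : ℕ → Fin m) (t : ℕ)
    (Φ : LnT F → MvPolynomial (Option (Fin m)) ℝ)
    (Xc : LnT F → ℕ → MvPolynomial (Option (Fin m)) ℝ) (mu mu₂ : LnT F → Polynomial ℝ)
    (s : LnT F) (i : ℕ) : Polynomial ℝ :=
  if i = 0 then kpol c t (fun s => Xc s 2) s 0 +
    kpol c t (fun s => Xc s 1) s 0 * kpol c t (fun s => Xc s 2) s 1 + jG c t 1 2 Φ Xc mu s -
    kpol c t (fun s => Xc s 1) s 0 * mu₂ s else mu₂ s

theorem lamT_deg {F : Fam m J} (c : ℕ → Fin m) (t : ℕ)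
    {Φ : LnT F → MvPolynomial (Option (Fin m)) ℝ}
    {Xc : LnT F → ℕ → MvPolynomial (Option (Fin m)) ℝ} {mu : LnT F → Polynomial ℝ} {D D₁ : ℕ}
    (hΦ : ∀ s, (Φ s).totalDegree ≤ D) (hX : ∀ s l, (Xc s l).totalDegree ≤ D)
    (hmu : ∀ s, (mu s).natDegree ≤ D₁) (s : LnT F) (i : ℕ) :
    (lamT c t Φ Xc mu s i).natDegree ≤ D₁ + 4 * D := by
  unfold lamT
  refine (Polynomial.natDegree_add_le _ _).trans (max_le ?_ (jG_deg c t 2 1 hΦ hX hmu s))
  have := kpol_deg (F := F) c t (fun s => hX s 1) s 0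
  omega

theorem lamS_deg {F : Fam m J} (c : ℕ → Fin m) (t : ℕ)
    {Φ : LnT F → MvPolynomial (Option (Fin m)) ℝ}
    {Xc : LnT F → ℕ → MvPolynomial (Option (Fin m)) ℝ} {mu mu₂ : LnT F → Polynomial ℝ}
    {D D₁ : ℕ} (hΦ : ∀ s, (Φ s).totalDegree ≤ D) (hX : ∀ s l, (Xc s l).totalDegree ≤ D)
    (hmu : ∀ s, (mu s).natDegree ≤ D₁) (hmu₂ : ∀ s, (mu₂ s).natDegree ≤ D₁) (s : LnT F) (i : ℕ) :
    (lamS c t Φ Xc mu mu₂ s i).natDegree ≤ D₁ + 4 * D := by
  have h1 := fun l j => kpol_deg (F := F) c t (fun s => hX s l) s j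
  have h2 := jG_deg c t 1 2 hΦ hX hmu s
  have h3 := hmu₂ s
  unfold lamS
  split_ifs
  · refine (Polynomial.natDegree_sub_le _ _).trans (max_le ((Polynomial.natDegree_add_le _ _).trans
      (max_le ((Polynomial.natDegree_add_le _ _).trans (max_le ?_
      (Polynomial.natDegree_mul_le.trans ?_))) h2)) (Polynomial.natDegree_mul_le.trans ?_))
    · have := h1 2 0
      omega
    · have := h1 1 0
      have := h1 2 1
      omega
    · have := h1 1 0
      omega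
  · omega

end Pool.TNW
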