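import Pool.Agent.H42.D2.Jca

/-!
# The critical slope at one sample

`JNum`: the numbers. `jcore`: the closed correction of the chart of the thin place. `jcl_ts`: the closed
gradient of the thin place one (static place two). `jcl_st`: the closed gradient of the thin place two
(static place one).
-/

set_option autoImplicit false

namespace Pool.TNW

open Finset Real MvPolynomial
open Pool.Agent.H49.Ent Pool.Agent.H32.Dense Pool.STK Pool.KA Pool.KSAT Pool.K2S Pool.PB Pool.S6C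
open Pool.GEN Pool.CHT Pool.CHX Pool.ISO Pool.D2R Pool.D2Z Pool.D2F Pool.TN
open Pool.FLF (Fam.sub)
open Pool.PB.Trl (rt rt_mem t_rt)

variable {m J : ℕ}

/-- **The numbers** of the critical slope at one sample. -/
structure JNum (N A cl X f dd : ℕ) (w pp : ℕ → ℕ) (gc gT g₀ : ℕ → ℕ → ℕ)
    (i i₁ t k P j st : ℕ) : Prop where
  iN : i ≤ N
  i1N : i₁ ≤ N
  tN : t ≤ N
  kN : k ≤ N
  it : w i ≤ w t
  i1t : w i₁ ≤ w t
  tk : w t ≤ w k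
  cT : ∀ l < 3, cl ≤ gT i l ∧ cl ≤ gT t l ∧ cl ≤ gT k l ∧ cl ≤ gc k l
  pk : cl ≤ pp k
  ck : cl ≤ gc k 3
  m1 : gT k st ≤ gT i st + X
  lb : g₀ k st + (A - w k) ≤ gT k st + X
  P1 : P + cl ≤ pp i₁
  P2 : P + cl ≤ gc k 3
  vp : (A - w k) + g₀ k 3 ≤ P + X
  mj : g₀ t j + (w k - w t) ≤ g₀ k j + X
  fz : g₀ k j ≤ f + dd + (g₀ t j + (w k - w t)) + X

/-- The first vector of a mixed frame in the norm of the ball, up to the static place. -/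
theorem en_ev0 {c : ℕ → Fin m} {n l : ℕ} (hc : Set.InjOn c (Set.Iio n))
    {Ξ χ : ℕ → Option (Fin m) → ℝ} (hΞ : ∀ l, CvC c l (Ξ l)) (hl : l ≤ n) (h0 : 0 < l)
    (h : ∀ x < l, ∀ V : Option (Fin m) → ℝ, V none = 0 → cv (χ x) V = cv (Ξ x) V)
    (g : ℕ → ℕ) (a : ℕ) : en c g a χ l (ev c n Ξ 0) = 2 ^ g 0 := by
  rw [en_eq, ev_none, abs_zero, mul_zero, zero_add]
  rw [Finset.sum_eq_single 0]
  · rw [h 0 h0 _ (ev_none _ _ _ _), ev_comp hc hΞ 0 (h0.trans_le hl), if_pos rfl, abs_one, mul_one]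
  · intro x hx hx0
    rw [Finset.mem_range] at hx
    rw [h x hx _ (ev_none _ _ _ _), ev_comp hc hΞ 0 (hx.trans_le hl), if_neg hx0, abs_zero,
      mul_zero]
  · intro hx
    exact absurd (Finset.mem_range.2 h0) hx

/-- **The closed correction of the thin place at one sample.** -/
theorem jcore : ∃ C : ℕ, 1 ≤ C ∧ ∀ {m J : ℕ} {F : Fam m J} {c : ℕ → Fin m}
    {D Dr N M A cl : ℕ} {Sc : ℕ → Prop} {w e h pp : ℕ → ℕ} {z g gc gT g₀ : ℕ → ℕ → ℕ} {κ : ℝ}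
    {B : F.Ω → Prop} {G : ℕ → PtT F → ℕ → MvPolynomial (Option (Fin m)) ℝ}
    {H : ℕ → LnT F → ℕ → MvPolynomial (Option (Fin m)) ℝ}
    {T : ℕ → PtT F → ℕ → MvPolynomial (Option (Fin m)) ℝ}
    {TH : ℕ → LnT F → ℕ → MvPolynomial (Option (Fin m)) ℝ}
    {Gt : ℕ → PtT F → MvPolynomial (Option (Fin m)) ℝ}
    {Ht : ℕ → LnT F → MvPolynomial (Option (Fin m)) ℝ},
    CEv F c 3 D Dr N M A cl Sc w e h pp z g gc gT g₀ κ B G H T TH Gt Ht →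
    ∀ {X Y f dd u i i₁ t k P j st : ℕ}, (j = 1 ∧ st = 2 ∨ j = 2 ∧ st = 1) →
    (∀ l < 3, (Sc l ↔ l = st)) → JNum N A cl X f dd w pp gc gT g₀ i i₁ t k P j st →
    ∀ {mu : LnT F → Polynomial ℝ} {ω : F.Ω}, B ω →
    |cv (gG G ω k 3 - grd (Ht i₁ (slam F (w i₁) ω)) (bt F ω))
        (ev c 3 (mx Sc (kT w TH ω i) (gG G ω k)) st) -
      (mu (slam F (w t) ω)).eval (rt F (w t) ω)| ≤ 2 ^ Y * (2 ^ g₀ k st / 2 ^ g₀ k 3) →
    2 ^ (w k + g₀ k j) / 2 ^ (g₀ k 3 + dd) ≤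
      |hs (Ht i₁ (slam F (w i₁) ω)) (bt F ω) (bd F ω)
          (ev c 3 (mx Sc (kT w TH ω i) (gG G ω k)) j) -
        cv (gG G ω k 3 - grd (Ht i₁ (slam F (w i₁) ω)) (bt F ω))
          (ev c 3 (mx Sc (kT w TH ω i) (gG G ω k)) st) *
        hs (TH i (slam F (w i) ω) st) (bt F ω) (bd F ω)
          (ev c 3 (mx Sc (kT w TH ω i) (gG G ω k)) j)| →
    2 ^ Y * (2 ^ g₀ k st / 2 ^ g₀ k 3) * |hs (TH i (slam F (w i) ω) st) (bt F ω) (bd F ω)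
          (ev c 3 (mx Sc (kT w TH ω i) (gG G ω k)) j)| ≤
      2 ^ (w k + g₀ k j) / 2 ^ (g₀ k 3 + dd + 1) →
    |(jL c (w t) st j (fun s => Ht i₁ (co (w t - w i₁) s)) (Xcf w TH Sc i t) mu
        (slam F (w t) ω)).eval (rt F (w t) ω) -
      (jL c (w t) st j (fun s => Ht i₁ (co (w t - w i₁) s)) (Xcf w TH Sc i t) mu
        (slam F (w t) ω)).eval 0| ≤ 2 ^ (w k + g₀ k j) / 2 ^ (g₀ k 3 + dd + f + 2) →
    |cv (gG G ω k j - kT w TH ω t j) (ev c 3 (mx Sc (kT w TH ω i) (kT w TH ω t)) 0)| ≤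
      2 ^ u * (2 ^ g₀ k 0 / 2 ^ (g₀ t j + (w k - w t))) →
    |(jG c (w t) st j (fun s => Ht i₁ (co (w t - w i₁) s)) (Xcf w TH Sc i t) mu
        (slam F (w t) ω)).eval (rt F (w t) ω) -
      cv (gG G ω k j - kT w TH ω t j) (ev c 3 (mx Sc (kT w TH ω i) (kT w TH ω t)) 0)| ≤
      2 ^ (C * (cl + X + Y + 1) + u + dd) * (2 ^ g₀ k 0 / 2 ^ g₀ k j) := by
  obtain ⟨C₁, hC₁, hex⟩ := CEv.ex 3
  refine ⟨C₁ + 40, by omega, ?_⟩
  intro m J F c D Dr N M A cl Sc w e h pp z g gc gT g₀ κ B G H T TH Gt Ht E X Y f dd u i i₁ t k P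
    j st hjs hSc n mu ω hω hmu hbig hzj hvar hγ
  have hi := n.iN
  have hi1 := n.i1N
  have ht := n.tN
  have hk := n.kN
  have htJ : w t ≤ J := (E.wA t ht).trans E.AJ
  have hc : Set.InjOn c (Set.Iio 3) := E.inj.mono (Set.Iio_subset_Iio (by norm_num))
  have hst3 : st < 3 := by omega
  have hj3 : j < 3 := by omega
  have hScst : Sc st := (hSc st hst3).2 rfl
  have hScj : ¬ Sc j := fun h => by
    have := (hSc j hj3).1 h
    omega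
  have hSc0 : ¬ Sc 0 := fun h => by
    have := (hSc 0 (by norm_num)).1 h
    omega
  have hΓ : ∀ l, CvC c l (gG G ω k l) := fun l => cvc_grd ((E.evs k hk).ball.depG _ l) _
  have hκ : ∀ j ≤ N, ∀ l, CvC c l (kT w TH ω j l) := fun j hj l =>
    cvc_grd ((E.evs j hj).thin.depH _ l) _
  -- the relation
  have hE0 := hex E (i₀ := i) (i₁ := i₁) (k := k) (P := P) (X := X) hi hi1 hk (n.it.trans n.tk)
    (n.i1t.trans n.tk) (fun l hl _ => ⟨(n.cT l hl).1, (n.cT l hl).2.2.1, (n.cT l hl).2.2.2⟩)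
    (fun l hl hs => by
      rw [(hSc l hl).1 hs]
      exact ⟨n.m1, n.lb⟩) n.P1 n.P2 ω hω 0 hSc0
  have hsum : ∀ (δ b : ℕ → ℝ), ∑ s ∈ range 3, wt Sc δ s * b s = δ st * b st := by
    intro δ b
    rw [Finset.sum_eq_single st]
    · rw [wt_pos hScst]
    · intro x hx hxs
      rw [Finset.mem_range] at hx
      rw [wt_neg (fun h => hxs ((hSc x hx).1 h)), zero_mul]
    · intro hx
      exact absurd (Finset.mem_range.2 hst3) hx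
  rw [hsum (fun s => cv (gG G ω k 3 - grd (Ht i₁ (slam F (w i₁) ω)) (bt F ω))
    (ev c 3 (mx Sc (kT w TH ω i) (gG G ω k)) s)) (fun s => hs (TH i (slam F (w i) ω) s) (bt F ω)
    (bd F ω) (ev c 3 (mx Sc (kT w TH ω i) (gG G ω k)) 0))] at hE0
  have hzS := E.zS hi hk (n.it.trans n.tk)
    (fun l hl => ⟨(n.cT l hl).2.2.1, (n.cT l hl).2.2.2⟩) n.pk n.ck hω (l := st) hst3
    (fun x hx h => by
      have := (hSc x (hx.trans hst3)).1 h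
      omega) (n.cT st hst3).1 (X := 2 * X) (by
      have := n.m1
      have := n.lb
      omega) (ev c 3 (mx Sc (kT w TH ω i) (gG G ω k)) 0)
  -- the two frames
  obtain ⟨Ξ, hΞd⟩ : ∃ Ξ, Ξ = mx Sc (kT w TH ω i) (gG G ω k) := ⟨_, rfl⟩
  obtain ⟨Ξ', hΞd'⟩ : ∃ Ξ', Ξ' = mx Sc (kT w TH ω i) (kT w TH ω t) := ⟨_, rfl⟩
  have hΞ : ∀ l, CvC c l (Ξ l) := fun l => by rw [hΞd]; exact mx_cvc (hκ i hi) hΓ l
  have hΞ' : ∀ l, CvC c l (Ξ' l) := fun l => by rw [hΞd']; exact mx_cvc (hκ i hi) (hκ t ht) l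
  have hXc : kc (w t) (Xcf w TH Sc i t) ω = Ξ' := by rw [kc_Xcf n.it htJ, hΞd']
  have hdiff : ∀ l < 3, l ≠ j → ∀ V : Option (Fin m) → ℝ, V none = 0 →
      cv (Ξ l) V = cv (Ξ' l) V := by
    intro l hl hlj V hV
    by_cases hls : l = st
    · rw [hΞd, hΞd', hls, mx_pos hScst, mx_pos hScst]
    · have : l = 0 := by omega
      subst this
      rw [cv_c0 (hΞ 0) hV, cv_c0 (hΞ' 0) hV]
  have hΞj : Ξ j = gG G ω k j := by rw [hΞd]; exact mx_neg hScj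
  have hΞ'j : Ξ' j = kT w TH ω t j := by rw [hΞd']; exact mx_neg hScj
  have hen0 : en c (g₀ k) (w k) (gG G ω k) st (ev c 3 Ξ 0) = 2 ^ g₀ k 0 :=
    en_ev0 hc hΞ hst3.le (by omega) (fun x hx V _ => by
      have hx3 : ¬ Sc x := fun h => by
        have := (hSc x (hx.trans hst3)).1 h
        omega
      rw [hΞd, mx_neg hx3]) _ _
  rw [← hΞd] at hmu hbig hzj hE0 hzS
  rw [hen0] at hzS
  rw [← hΞd', ← hΞj, ← hΞ'j] at hγ ⊢
  -- the polynomials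
  obtain ⟨Φ, hΦ⟩ : ∃ Φ : LnT F → MvPolynomial (Option (Fin m)) ℝ,
    Φ = fun s => Ht i₁ (co (w t - w i₁) s) := ⟨_, rfl⟩
  rw [← hΦ] at hvar ⊢
  have hΦd : ∀ s, DepC c 3 (Φ s) := fun s => by
    rw [hΦ]
    exact (E.evs i₁ hi1).pH _
  have hΦs : Φ (slam F (w t) ω) = Ht i₁ (slam F (w i₁) ω) := by
    rw [hΦ]
    show Ht i₁ (co (w t - w i₁) (slam F (w t) ω)) = _
    rw [co_slam F n.i1t htJ]
  have hXst : Xcf w TH Sc i t (slam F (w t) ω) st = TH i (slam F (w i) ω) st := by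
    unfold Xcf
    rw [if_pos hScst, co_slam F n.it htJ]
  obtain ⟨Q₁, hQ₁⟩ : ∃ Q, Q = Ht i₁ (slam F (w i₁) ω) := ⟨_, rfl⟩
  obtain ⟨Q₂, hQ₂⟩ : ∃ Q, Q = TH i (slam F (w i) ω) st := ⟨_, rfl⟩
  have hQ1d : DepC c 3 Q₁ := by rw [hQ₁]; exact (E.evs i₁ hi1).pH _
  have hQ2d : DepC c 3 Q₂ := by rw [hQ₂]; exact (dep_TH E hi _ st).mono hst3.le
  rw [← hQ₁] at hΦs hmu hbig hE0
  rw [← hQ₂] at hXst hbig hzj hE0 hzS
  have ez1 : ∀ x, (zp c 3 (w t) Φ (Xcf w TH Sc i t) x (slam F (w t) ω)).eval (rt F (w t) ω) =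
      hs Q₁ (bt F ω) (bd F ω) (ev c 3 Ξ' x) := fun x => by
    rw [zp_rt hc htJ hΦd (fun s l => dep_Xcf E hi ht s l), hXc, hΦs]
  have ez2 : ∀ x, (zp c 3 (w t) (fun s => Xcf w TH Sc i t s st) (Xcf w TH Sc i t) x
      (slam F (w t) ω)).eval (rt F (w t) ω) = hs Q₂ (bt F ω) (bd F ω) (ev c 3 Ξ' x) := fun x => by
    rw [zp_rt hc htJ (fun s => (dep_Xcf E hi ht s st).mono hst3.le)
      (fun s l => dep_Xcf E hi ht s l), hXc, hXst]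
  have hagr : ∀ Q : MvPolynomial (Option (Fin m)) ℝ, DepC c 3 Q →
      hs Q (bt F ω) (bd F ω) (ev c 3 Ξ' j) = hs Q (bt F ω) (bd F ω) (ev c 3 Ξ j) := fun Q hQ =>
    hs_agr hc hQ _ _ (ev_none _ _ _ _) (ev_none _ _ _ _) fun l hl =>
      (ev_chg_j hc hΞ hΞ' hj3 hdiff l hl).symm
  obtain ⟨μ, hμ⟩ : ∃ μ, μ = (mu (slam F (w t) ω)).eval (rt F (w t) ω) := ⟨_, rfl⟩
  rw [← hμ] at hmu
  have ejL : (jL c (w t) st j Φ (Xcf w TH Sc i t) mu (slam F (w t) ω)).eval (rt F (w t) ω) =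
      hs Q₁ (bt F ω) (bd F ω) (ev c 3 Ξ j) - μ * hs Q₂ (bt F ω) (bd F ω) (ev c 3 Ξ j) := by
    unfold jL
    rw [Polynomial.eval_sub, Polynomial.eval_mul, ez1, ez2, ← hμ, hagr Q₁ hQ1d, hagr Q₂ hQ2d]
  have ejG : (jG c (w t) st j Φ (Xcf w TH Sc i t) mu (slam F (w t) ω)).eval (rt F (w t) ω) =
      ((jL c (w t) st j Φ (Xcf w TH Sc i t) mu (slam F (w t) ω)).eval 0)⁻¹ *
      (μ * hs Q₂ (bt F ω) (bd F ω) (ev c 3 Ξ' 0) - hs Q₁ (bt F ω) (bd F ω) (ev c 3 Ξ' 0)) := by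
    unfold jG jN
    rw [Polynomial.eval_mul, Polynomial.eval_C, Polynomial.eval_sub, Polynomial.eval_mul, ez1,
      ez2, ← hμ]
  rw [ejL] at hvar
  rw [ejG]
  obtain ⟨L0, hL0⟩ : ∃ L0, L0 = (jL c (w t) st j Φ (Xcf w TH Sc i t) mu
    (slam F (w t) ω)).eval 0 := ⟨_, rfl⟩
  rw [← hL0] at hvar ⊢
  -- the numbers
  obtain ⟨R, hR⟩ : ∃ R : ℝ, R = 2 ^ (w k + g₀ k 0) / 2 ^ g₀ k 3 := ⟨_, rfl⟩
  obtain ⟨Λ, hΛ⟩ : ∃ Λ : ℝ, Λ = 2 ^ (w k + g₀ k j) / 2 ^ (g₀ k 3 + dd + 1) := ⟨_, rfl⟩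
  have hR0 : 0 < R := by rw [hR]; positivity
  have hΛ0 : 0 < Λ := by rw [hΛ]; positivity
  have hΛ2 : 2 ^ (w k + g₀ k j) / 2 ^ (g₀ k 3 + dd) = 2 * Λ := by
    rw [hΛ, pow_succ 2 (g₀ k 3 + dd)]
    field_simp
  have hΛf : 2 ^ (w k + g₀ k j) / 2 ^ (g₀ k 3 + dd + f + 2) = Λ / 2 ^ (f + 1) := by
    rw [hΛ, show g₀ k 3 + dd + f + 2 = (g₀ k 3 + dd + 1) + (f + 1) by ring,
      pow_add 2 (g₀ k 3 + dd + 1)]
    field_simp
  rw [hΛ2] at hbig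
  rw [← hΛ] at hzj
  rw [hΛf] at hvar
  obtain ⟨a, ha⟩ : ∃ a, a = cv (gG G ω k 3 - grd Q₁ (bt F ω)) (ev c 3 Ξ st) := ⟨_, rfl⟩
  rw [← ha] at hmu hbig hE0
  have h0 : |hs Q₁ (bt F ω) (bd F ω) (ev c 3 Ξ 0) - a * hs Q₂ (bt F ω) (bd F ω) (ev c 3 Ξ 0)| ≤
      2 ^ (C₁ * (cl + X + 1) + X + 1) * R := by
    refine hE0.trans ?_
    have g0 : (2 : ℝ) ^ A / 2 ^ P ≤ 2 ^ X * (2 ^ w k / 2 ^ g₀ k 3) := by
      rw [← mul_div_assoc, div_le_div_iff₀ (by positivity) (by positivity), ← pow_add,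
        ← pow_add, ← pow_add]
      have a1 := n.vp
      have a2 := E.radA hk
      exact p2 (by omega)
    have g1 : (2 : ℝ) ^ A / 2 ^ P + 2 ^ w k / 2 ^ g₀ k 3 ≤
        2 ^ (X + 1) * (2 ^ w k / 2 ^ g₀ k 3) := by
      have g2 : (1 : ℝ) ≤ 2 ^ X := one_le_pow₀ (by norm_num)
      have g3 := mul_le_mul_of_nonneg_right g2 (show (0 : ℝ) ≤ 2 ^ w k / 2 ^ g₀ k 3 by
        positivity)
      rw [pow_succ 2 X]
      linarith
    calc 2 ^ (C₁ * (cl + X + 1)) * (2 ^ A / 2 ^ P + 2 ^ w k / 2 ^ g₀ k 3) * 2 ^ g₀ k 0 ≤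
          2 ^ (C₁ * (cl + X + 1)) * (2 ^ (X + 1) * (2 ^ w k / 2 ^ g₀ k 3)) * 2 ^ g₀ k 0 :=
          mul_le_mul_of_nonneg_right (mul_le_mul_of_nonneg_left g1 (by positivity))
            (by positivity)
      _ = 2 ^ (C₁ * (cl + X + 1) + X + 1) * R := by
          rw [hR, show C₁ * (cl + X + 1) + X + 1 = C₁ * (cl + X + 1) + (X + 1) by ring,
            pow_add 2 (C₁ * (cl + X + 1)), pow_add 2 (w k)]
          ring
  have h1 : |a - μ| * |hs Q₂ (bt F ω) (bd F ω) (ev c 3 Ξ 0)| ≤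
      2 ^ (Y + (12 * cl + 2 * X + 22)) * R := by
    refine (mul_le_mul hmu hzS (abs_nonneg _) (by positivity)).trans (le_of_eq ?_)
    rw [hR, pow_add 2 Y, pow_add 2 (w k),
      show 12 * cl + 4 * 3 + 2 * X + 10 = 12 * cl + 2 * X + 22 by ring]
    field_simp
  have hL : Λ ≤ |hs Q₁ (bt F ω) (bd F ω) (ev c 3 Ξ j) -
      μ * hs Q₂ (bt F ω) (bd F ω) (ev c 3 Ξ j)| := by
    obtain ⟨x, hx⟩ : ∃ x, x = hs Q₁ (bt F ω) (bd F ω) (ev c 3 Ξ j) := ⟨_, rfl⟩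
    obtain ⟨y, hy⟩ : ∃ y, y = hs Q₂ (bt F ω) (bd F ω) (ev c 3 Ξ j) := ⟨_, rfl⟩
    rw [← hx, ← hy] at hbig ⊢
    rw [← hy] at hzj
    have e1 : x - a * y = (x - μ * y) - (a - μ) * y := by ring
    have e2 := abs_sub (x - μ * y) ((a - μ) * y)
    rw [← e1, abs_mul] at e2
    have e3 := (mul_le_mul_of_nonneg_right hmu (abs_nonneg y)).trans hzj
    linarith
  have hres := jreal (hs_chg hc hΞ hΞ' hdiff 0 hQ1d (bt F ω) (bd F ω))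
    (hs_chg hc hΞ hΞ' hdiff 0 hQ2d (bt F ω) (bd F ω)) h0 h1 hΛ0 hL hvar hγ
  refine hres.trans ?_
  -- the end
  obtain ⟨ρ, hρ⟩ : ∃ ρ : ℝ, ρ = 2 ^ g₀ k 0 / 2 ^ g₀ k j := ⟨_, rfl⟩
  have hρ0 : 0 < ρ := by rw [hρ]; positivity
  have eR : R / Λ = 2 ^ (dd + 1) * ρ := by
    rw [hR, hΛ, hρ, show g₀ k 3 + dd + 1 = g₀ k 3 + (dd + 1) by ring, pow_add 2 (g₀ k 3),
      pow_add 2 (w k) (g₀ k 0), pow_add 2 (w k) (g₀ k j)]
    field_simp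
  have t1 : 2 * (2 ^ (C₁ * (cl + X + 1) + X + 1) * R + 2 ^ (Y + (12 * cl + 2 * X + 22)) * R) / Λ ≤
      2 ^ ((C₁ * (cl + X + 1) + X + Y + 12 * cl + 2 * X + 26) + dd) * ρ := by
    have e1 : 2 * (2 ^ (C₁ * (cl + X + 1) + X + 1) * R + 2 ^ (Y + (12 * cl + 2 * X + 22)) * R) /
        Λ = 2 * (2 ^ (C₁ * (cl + X + 1) + X + 1) + 2 ^ (Y + (12 * cl + 2 * X + 22))) *
          (R / Λ) := by ring
    have e2 : (2 : ℝ) ^ (C₁ * (cl + X + 1) + X + 1) ≤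
        2 ^ (C₁ * (cl + X + 1) + X + Y + 12 * cl + 2 * X + 22) := p2 (by omega)
    have e3 : (2 : ℝ) ^ (Y + (12 * cl + 2 * X + 22)) ≤
        2 ^ (C₁ * (cl + X + 1) + X + Y + 12 * cl + 2 * X + 22) := p2 (by omega)
    rw [e1, eR]
    have e4 : (2 : ℝ) ^ ((C₁ * (cl + X + 1) + X + Y + 12 * cl + 2 * X + 26) + dd) * ρ =
        2 * (2 ^ (C₁ * (cl + X + 1) + X + Y + 12 * cl + 2 * X + 22) * 4) *
          (2 ^ (dd + 1) * ρ) := by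
      rw [show (C₁ * (cl + X + 1) + X + Y + 12 * cl + 2 * X + 26) + dd =
        (C₁ * (cl + X + 1) + X + Y + 12 * cl + 2 * X + 22) + 2 + 1 + (dd + 1) by ring,
        pow_add 2 _ (dd + 1), pow_add 2 _ 1, pow_add 2 _ 2]
      ring
    rw [e4]
    have e5 : (0 : ℝ) < 2 ^ (C₁ * (cl + X + 1) + X + Y + 12 * cl + 2 * X + 22) := by positivity
    refine mul_le_mul_of_nonneg_right ?_ (by positivity)
    linarith
  have t2 : 2 ^ u * (2 ^ g₀ k 0 / 2 ^ (g₀ t j + (w k - w t))) / 2 ^ f ≤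
      2 ^ (u + X + dd) * ρ := by
    rw [hρ]
    have e1 : 2 ^ u * (2 ^ g₀ k 0 / 2 ^ (g₀ t j + (w k - w t))) / 2 ^ f =
        (2 : ℝ) ^ u * 2 ^ g₀ k 0 / (2 ^ (g₀ t j + (w k - w t)) * 2 ^ f) := by
      field_simp
    rw [e1, ← mul_div_assoc, div_le_div_iff₀ (by positivity) (by positivity), ← pow_add,
      ← pow_add, ← pow_add, ← pow_add, ← pow_add]
    have := n.fz
    exact p2 (by omega)
  have t3 : 2 ^ ((C₁ * (cl + X + 1) + X + Y + 12 * cl + 2 * X + 26) + dd) * ρ +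
      2 ^ (u + X + dd) * ρ ≤ 2 ^ ((C₁ + 40) * (cl + X + Y + 1) + u + dd) * ρ := by
    have e0 : (C₁ + 40) * (cl + X + Y + 1) = C₁ * (cl + X + 1) + C₁ * Y +
        40 * (cl + X + Y + 1) := by ring
    have e1 : (2 : ℝ) ^ ((C₁ * (cl + X + 1) + X + Y + 12 * cl + 2 * X + 26) + dd) ≤
        2 ^ (C₁ * (cl + X + 1) + C₁ * Y + 39 * (cl + X + Y + 1) + u + dd) := p2 (by omega)
    have e2 : (2 : ℝ) ^ (u + X + dd) ≤
        2 ^ (C₁ * (cl + X + 1) + C₁ * Y + 39 * (cl + X + Y + 1) + u + dd) := p2 (by omega)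
    have e3 : 2 * (2 : ℝ) ^ (C₁ * (cl + X + 1) + C₁ * Y + 39 * (cl + X + Y + 1) + u + dd) ≤
        2 ^ ((C₁ + 40) * (cl + X + Y + 1) + u + dd) := by
      rw [← pow_succ', e0]
      exact p2 (by omega)
    rw [← add_mul]
    refine mul_le_mul_of_nonneg_right ?_ hρ0.le
    linarith
  rw [← hρ]
  exact (add_le_add t1 t2).trans t3

section

variable {F : Fam m J} {c : ℕ → Fin m} {r D Dr N M A cl : ℕ} {Sc : ℕ → Prop}
    {w e h pp : ℕ → ℕ} {z g gc gT g₀ : ℕ → ℕ → ℕ} {κ : ℝ} {B : F.Ω → Prop}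
    {G : ℕ → PtT F → ℕ → MvPolynomial (Option (Fin m)) ℝ}
    {H : ℕ → LnT F → ℕ → MvPolynomial (Option (Fin m)) ℝ}
    {T : ℕ → PtT F → ℕ → MvPolynomial (Option (Fin m)) ℝ}
    {TH : ℕ → LnT F → ℕ → MvPolynomial (Option (Fin m)) ℝ}
    {Gt : ℕ → PtT F → MvPolynomial (Option (Fin m)) ℝ}
    {Ht : ℕ → LnT F → MvPolynomial (Option (Fin m)) ℝ}

/-- The norm up to the place one. -/
theorem en_one {c : ℕ → Fin m} (g' : ℕ → ℕ) (a : ℕ) {χ : ℕ → Option (Fin m) → ℝ}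
    (hχ : CvC c 0 (χ 0)) {V : Option (Fin m) → ℝ} (hV : V none = 0) :
    en c g' a χ 1 V = 2 ^ g' 0 * |V (some (c 0))| := by
  rw [en_succ, en_zero, hV, cv_c0 hχ hV]
  simp

/-- **The static chart one of an earlier window against the ball.** -/
theorem st_gg (E : CEv F c r D Dr N M A cl Sc w e h pp z g gc gT g₀ κ B G H T TH Gt Ht)
    (hr : 1 < r) (hs0 : ¬ Sc 0) {i k X : ℕ} (hi : i ≤ N) (hk : k ≤ N) (hik : w i ≤ w k)
    (b1 : cl ≤ gT i 1) (b2 : cl ≤ gc k 1) (m1 : gT k 1 ≤ gT i 1 + X)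
    (lb1 : g₀ k 1 + (A - w k) ≤ gT k 1 + X) {ω : F.Ω} (hω : B ω)
    {V : Option (Fin m) → ℝ} (hV : V none = 0) :
    2 ^ g₀ k 1 * |cv (kT w TH ω i 1 - gG G ω k 1) V| ≤
      2 ^ (8 * cl + 2 * X + 4) * (2 ^ g₀ k 0 * |V (some (c 0))|) := by
  have hrad := E.radA hk
  have hΓ : ∀ l, CvC c l (gG G ω k l) := fun l => cvc_grd ((E.evs k hk).ball.depG _ l) _
  have hκ : ∀ l, CvC c l (kT w TH ω k l) := fun l => cvc_grd ((E.evs k hk).thin.depH _ l) _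
  have a0 := E.ng k hk 0 (by omega)
  have a1 := E.ng k hk 1 (by omega)
  have hrg := E.t_rg hk (show 0 < r by omega) hs0
  obtain ⟨q, hq⟩ : ∃ q, q = g₀ k 1 + (A - w k) - (3 * cl + 2 * X) := ⟨_, rfl⟩
  have h3 := E.tb hr hi hk hik (q := q) (by omega) (by omega) hω V
  rw [en_one _ _ (hκ 0) hV, en_one _ _ (hΓ 0) hV] at h3
  have hv0 := abs_nonneg (V (some (c 0)))
  refine (mul_le_mul_of_nonneg_left h3 (by positivity)).trans ?_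
  have e1 : 2 ^ g₀ k 1 * (2 ^ cl / 2 ^ q * (2 ^ gT k 0 * |V (some (c 0))|) +
      2 ^ cl / 2 ^ g₀ k 1 * (2 ^ g₀ k 0 * |V (some (c 0))|)) =
      (2 ^ (g₀ k 1 + cl + gT k 0) / 2 ^ q + 2 ^ (cl + g₀ k 0)) * |V (some (c 0))| := by
    rw [pow_add 2 (g₀ k 1 + cl), pow_add 2 (g₀ k 1) cl, pow_add 2 cl]
    field_simp
  rw [e1, ← mul_assoc]
  refine mul_le_mul_of_nonneg_right ?_ hv0
  have e2 : (2 : ℝ) ^ (g₀ k 1 + cl + gT k 0) / 2 ^ q ≤ 2 ^ (8 * cl + 2 * X + 3 + g₀ k 0) := by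
    rw [div_le_iff₀ (by positivity), ← pow_add]
    exact p2 (by omega)
  have e3 : (2 : ℝ) ^ (cl + g₀ k 0) ≤ 2 ^ (8 * cl + 2 * X + 3 + g₀ k 0) := p2 (by omega)
  have e4 : (2 : ℝ) ^ (8 * cl + 2 * X + 4) * 2 ^ g₀ k 0 =
      2 * 2 ^ (8 * cl + 2 * X + 3 + g₀ k 0) := by
    rw [pow_add 2 (8 * cl + 2 * X + 3), pow_succ 2 (8 * cl + 2 * X + 3)]
    ring
  rw [e4]
  linarith

/-- The vectors of the static chart one of an earlier window: the thin norm. -/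
theorem st_tt (E : CEv F c r D Dr N M A cl Sc w e h pp z g gc gT g₀ κ B G H T TH Gt Ht)
    (hr : 1 < r) {i k X : ℕ} (hi : i ≤ N) (hk : k ≤ N) (hik : w i ≤ w k)
    (b1 : cl ≤ gT i 1) (b2 : cl ≤ gT k 1) (m1 : gT k 1 ≤ gT i 1 + X) {ω : F.Ω} (hω : B ω)
    {V : Option (Fin m) → ℝ} (hV : V none = 0) (h0 : V (some (c 0)) = 1)
    (h1 : V (some (c 1)) = cv (kT w TH ω i 1) V) :
    en c (gT k) A (kT w TH ω k) 2 V ≤ 2 ^ (2 * cl + X + 1) * 2 ^ gT k 0 := by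
  have hκ : ∀ l, CvC c l (kT w TH ω k l) := fun l => cvc_grd ((E.evs k hk).thin.depH _ l) _
  obtain ⟨q, hq⟩ : ∃ q, q = min (gT i 1) (gT k 1) - cl := ⟨_, rfl⟩
  have hq1 : q + cl ≤ gT i 1 := by omega
  have hq2 : q + cl ≤ gT k 1 := by omega
  have hq3 : gT k 1 ≤ q + cl + X := by omega
  have h3 := E.tt hr hi hk hik hq1 hq2 hω V
  rw [en_one _ _ (hκ 0) hV, h0, abs_one, mul_one] at h3
  rw [show (2 : ℕ) = 1 + 1 from rfl, en_succ, en_one _ _ (hκ 0) hV, h0, abs_one, mul_one,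
    h1, ← cv_subl]
  have e1 : 2 ^ gT k 1 * (2 ^ cl / 2 ^ q * 2 ^ gT k 0) ≤ (2 : ℝ) ^ (2 * cl + X) * 2 ^ gT k 0 := by
    have e2 : 2 ^ gT k 1 * (2 ^ cl / 2 ^ q * 2 ^ gT k 0) =
        (2 : ℝ) ^ (gT k 1 + cl) / 2 ^ q * 2 ^ gT k 0 := by
      rw [pow_add]
      ring
    rw [e2]
    refine mul_le_mul_of_nonneg_right ?_ (by positivity)
    rw [div_le_iff₀ (by positivity), ← pow_add]
    exact p2 (by omega)
  have e3 := (mul_le_mul_of_nonneg_left h3 (show (0 : ℝ) ≤ 2 ^ gT k 1 by positivity)).trans e1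
  have e4 : (1 : ℝ) ≤ 2 ^ (2 * cl + X) := one_le_pow₀ (by norm_num)
  have e5 := mul_le_mul_of_nonneg_right e4 (show (0 : ℝ) ≤ 2 ^ gT k 0 by positivity)
  rw [pow_succ 2 (2 * cl + X)]
  linarith

/-- **The chart of the thin place one against the ball**, on the first vector. -/
theorem jgam_one (E : CEv F c r D Dr N M A cl Sc w e h pp z g gc gT g₀ κ B G H T TH Gt Ht)
    (hr : 1 < r) (hs0 : ¬ Sc 0) (hs1 : ¬ Sc 1) {t k X : ℕ} (ht : t ≤ N) (hk : k ≤ N)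
    (htk : w t ≤ w k) (b1 : cl ≤ gT t 1) (b2 : cl ≤ gc k 1)
    (mj : g₀ t 1 + (w k - w t) ≤ g₀ k 1 + X) {ω : F.Ω} (hω : B ω)
    {V : Option (Fin m) → ℝ} (hV : V none = 0) (h0 : V (some (c 0)) = 1) :
    |cv (gG G ω k 1 - kT w TH ω t 1) V| ≤
      2 ^ (9 * cl + 2 * X + 10) * (2 ^ g₀ k 0 / 2 ^ (g₀ t 1 + (w k - w t))) := by
  have hrk := E.radA hk
  have hrt := E.radA ht
  have hΓ : ∀ l, CvC c l (gG G ω k l) := fun l => cvc_grd ((E.evs k hk).ball.depG _ l) _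
  have hκ : ∀ l, CvC c l (kT w TH ω k l) := fun l => cvc_grd ((E.evs k hk).thin.depH _ l) _
  have a0 := E.ng k hk 0 (by omega)
  have a1 := E.ng k hk 1 (by omega)
  have a2 := E.ng t ht 1 (by omega)
  have hrg := E.t_rg hk (show 0 < r by omega) hs0
  have hrg1 := E.t_rg ht (show 1 < r by omega) hs1
  obtain ⟨q, hq⟩ : ∃ q, q = g₀ t 1 + (A - w t) - (3 * cl + X) := ⟨_, rfl⟩
  have h3 := E.tb hr ht hk htk (q := q) (by omega) (by omega) hω V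
  rw [cv_swp] at h3
  rw [en_one _ _ (hκ 0) hV, en_one _ _ (hΓ 0) hV, h0, abs_one, mul_one, mul_one] at h3
  refine h3.trans ?_
  have e1 : (2 : ℝ) ^ cl / 2 ^ q * 2 ^ gT k 0 ≤
      2 ^ (8 * cl + 2 * X + 3) * (2 ^ g₀ k 0 / 2 ^ (g₀ t 1 + (w k - w t))) := by
    rw [div_mul_eq_mul_div, ← mul_div_assoc, div_le_div_iff₀ (by positivity) (by positivity),
      ← pow_add, ← pow_add, ← pow_add, ← pow_add]
    exact p2 (by omega)
  have e2 : (2 : ℝ) ^ cl / 2 ^ g₀ k 1 * 2 ^ g₀ k 0 ≤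
      2 ^ (8 * cl + 2 * X + 3) * (2 ^ g₀ k 0 / 2 ^ (g₀ t 1 + (w k - w t))) := by
    rw [div_mul_eq_mul_div, ← mul_div_assoc, div_le_div_iff₀ (by positivity) (by positivity),
      ← pow_add, ← pow_add, ← pow_add, ← pow_add]
    exact p2 (by omega)
  have e3 : (2 : ℝ) ^ (8 * cl + 2 * X + 3) + 2 ^ (8 * cl + 2 * X + 3) ≤
      2 ^ (9 * cl + 2 * X + 10) := by
    rw [← two_mul, ← pow_succ']
    exact p2 (by omega)
  have e4 := mul_le_mul_of_nonneg_right e3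
    (show (0 : ℝ) ≤ 2 ^ g₀ k 0 / 2 ^ (g₀ t 1 + (w k - w t)) by positivity)
  linarith

/-- **The chart of the thin place two against the ball**, on the first vector of the mixed frame. -/
theorem jgam_two (E : CEv F c r D Dr N M A cl Sc w e h pp z g gc gT g₀ κ B G H T TH Gt Ht)
    (hr : 2 < r) (hs0 : ¬ Sc 0) (hs2 : ¬ Sc 2) {i t k X : ℕ} (hi : i ≤ N) (ht : t ≤ N)
    (hk : k ≤ N) (hik : w i ≤ w k)
    (htk : w t ≤ w k) (c1 : cl ≤ gT i 1) (c2 : cl ≤ gc k 1) (c3 : cl ≤ gT k 1)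
    (m1 : gT k 1 ≤ gT i 1 + X) (lb1 : g₀ k 1 + (A - w k) ≤ gT k 1 + X)
    (b1 : cl ≤ gT t 2) (b2 : cl ≤ gc k 2)
    (mj : g₀ t 2 + (w k - w t) ≤ g₀ k 2 + X) {ω : F.Ω} (hω : B ω)
    {V : Option (Fin m) → ℝ} (hV : V none = 0) (h0 : V (some (c 0)) = 1)
    (h1 : V (some (c 1)) = cv (kT w TH ω i 1) V) :
    |cv (gG G ω k 2 - kT w TH ω t 2) V| ≤
      2 ^ (9 * cl + 3 * X + 10) * (2 ^ g₀ k 0 / 2 ^ (g₀ t 2 + (w k - w t))) := by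
  have hrk := E.radA hk
  have hrt := E.radA ht
  have hΓ : ∀ l, CvC c l (gG G ω k l) := fun l => cvc_grd ((E.evs k hk).ball.depG _ l) _
  have a0 := E.ng k hk 0 (by omega)
  have a1 := E.ng k hk 2 (by omega)
  have a2 := E.ng t ht 2 (by omega)
  have hrg := E.t_rg hk (show 0 < r by omega) hs0
  have hrg1 := E.t_rg ht (show 2 < r by omega) hs2
  have hPT := st_tt E (by omega) hi hk hik c1 c3 m1 hω hV h0 h1
  have hgg := st_gg E (by omega) hs0 hi hk hik c1 c2 m1 lb1 hω hV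
  rw [h0, abs_one, mul_one, cv_subl, ← h1] at hgg
  have hPG : en c (g₀ k) (w k) (gG G ω k) 2 V ≤ 2 ^ (8 * cl + 2 * X + 5) * 2 ^ g₀ k 0 := by
    rw [show (2 : ℕ) = 1 + 1 from rfl, en_succ, en_one _ _ (hΓ 0) hV, h0, abs_one, mul_one]
    have e1 : (1 : ℝ) ≤ 2 ^ (8 * cl + 2 * X + 4) := one_le_pow₀ (by norm_num)
    have e2 := mul_le_mul_of_nonneg_right e1 (show (0 : ℝ) ≤ 2 ^ g₀ k 0 by positivity)
    rw [pow_succ 2 (8 * cl + 2 * X + 4)]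
    linarith
  obtain ⟨q, hq⟩ : ∃ q, q = g₀ t 2 + (A - w t) - (3 * cl + X) := ⟨_, rfl⟩
  have h3 := E.tb hr ht hk htk (q := q) (by omega) (by omega) hω V
  rw [cv_swp] at h3
  refine h3.trans ((add_le_add (mul_le_mul_of_nonneg_left hPT (by positivity))
    (mul_le_mul_of_nonneg_left hPG (by positivity))).trans ?_)
  have e1 : (2 : ℝ) ^ cl / 2 ^ q * (2 ^ (2 * cl + X + 1) * 2 ^ gT k 0) ≤
      2 ^ (9 * cl + 3 * X + 9) * (2 ^ g₀ k 0 / 2 ^ (g₀ t 2 + (w k - w t))) := by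
    rw [div_mul_eq_mul_div, ← mul_div_assoc, div_le_div_iff₀ (by positivity) (by positivity),
      ← pow_add, ← pow_add, ← pow_add, ← pow_add, ← pow_add]
    exact p2 (by omega)
  have e2 : (2 : ℝ) ^ cl / 2 ^ g₀ k 2 * (2 ^ (8 * cl + 2 * X + 5) * 2 ^ g₀ k 0) ≤
      2 ^ (9 * cl + 3 * X + 9) * (2 ^ g₀ k 0 / 2 ^ (g₀ t 2 + (w k - w t))) := by
    rw [div_mul_eq_mul_div, ← mul_div_assoc, div_le_div_iff₀ (by positivity) (by positivity),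
      ← pow_add, ← pow_add, ← pow_add, ← pow_add, ← pow_add]
    exact p2 (by omega)
  have e3 : (2 : ℝ) ^ (9 * cl + 3 * X + 10) = 2 * 2 ^ (9 * cl + 3 * X + 9) := pow_succ' _ _
  rw [e3, mul_assoc]
  linarith

end

/-- **The numbers** of the static chart two at its own ball. -/
structure ZNb (A cl X Y dd : ℕ) (w pp : ℕ → ℕ) (gc gT g₀ : ℕ → ℕ → ℕ) (i k : ℕ) : Prop where
  cT : ∀ l < 3, cl ≤ gT i l ∧ cl ≤ gc i l
  pi : cl ≤ pp i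
  ci : cl ≤ gc i 3
  lb : g₀ i 2 + (A - w i) ≤ gT i 2 + X
  nb : Y + dd + (w i + g₀ i 1 + g₀ k 2) + (12 * cl + X + 23) ≤ w k + g₀ k 1 + g₀ i 2

/-- **The critical slope, thin place one and static place two**: the closed gradient of the thin
place. -/
theorem jcl_ts : ∃ C : ℕ, 1 ≤ C ∧ ∀ {m J : ℕ} {F : Fam m J} {c : ℕ → Fin m}
    {D Dr N M A cl : ℕ} {Sc : ℕ → Prop} {w e h pp : ℕ → ℕ} {z g gc gT g₀ : ℕ → ℕ → ℕ} {κ : ℝ}
    {B : F.Ω → Prop} {G : ℕ → PtT F → ℕ → MvPolynomial (Option (Fin m)) ℝ}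
    {H : ℕ → LnT F → ℕ → MvPolynomial (Option (Fin m)) ℝ}
    {T : ℕ → PtT F → ℕ → MvPolynomial (Option (Fin m)) ℝ}
    {TH : ℕ → LnT F → ℕ → MvPolynomial (Option (Fin m)) ℝ}
    {Gt : ℕ → PtT F → MvPolynomial (Option (Fin m)) ℝ}
    {Ht : ℕ → LnT F → MvPolynomial (Option (Fin m)) ℝ},
    CEv F c 3 D Dr N M A cl Sc w e h pp z g gc gT g₀ κ B G H T TH Gt Ht →
    ∀ {X Y f dd i i₁ t k P : ℕ}, ¬ Sc 0 → ¬ Sc 1 → Sc 2 →
    JNum N A cl X f dd w pp gc gT g₀ i i₁ t k P 1 2 → ZNb A cl X Y dd w pp gc gT g₀ i k →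
    ∀ {mu : LnT F → Polynomial ℝ} {ω : F.Ω}, B ω →
    |cv (gG G ω k 3 - grd (Ht i₁ (slam F (w i₁) ω)) (bt F ω))
        (ev c 3 (mx Sc (kT w TH ω i) (gG G ω k)) 2) -
      (mu (slam F (w t) ω)).eval (rt F (w t) ω)| ≤ 2 ^ Y * (2 ^ g₀ k 2 / 2 ^ g₀ k 3) →
    2 ^ (w k + g₀ k 1) / 2 ^ (g₀ k 3 + dd) ≤
      |hs (Ht i₁ (slam F (w i₁) ω)) (bt F ω) (bd F ω)
          (ev c 3 (mx Sc (kT w TH ω i) (gG G ω k)) 1) -
        cv (gG G ω k 3 - grd (Ht i₁ (slam F (w i₁) ω)) (bt F ω))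
          (ev c 3 (mx Sc (kT w TH ω i) (gG G ω k)) 2) *
        hs (TH i (slam F (w i) ω) 2) (bt F ω) (bd F ω)
          (ev c 3 (mx Sc (kT w TH ω i) (gG G ω k)) 1)| →
    |(jL c (w t) 2 1 (fun s => Ht i₁ (co (w t - w i₁) s)) (Xcf w TH Sc i t) mu
        (slam F (w t) ω)).eval (rt F (w t) ω) -
      (jL c (w t) 2 1 (fun s => Ht i₁ (co (w t - w i₁) s)) (Xcf w TH Sc i t) mu
        (slam F (w t) ω)).eval 0| ≤ 2 ^ (w k + g₀ k 1) / 2 ^ (g₀ k 3 + dd + f + 2) →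
    ∀ V : Option (Fin m) → ℝ, V none = 0 →
    |∑ j ∈ range 1, (lamT c (w t) (fun s => Ht i₁ (co (w t - w i₁) s)) (Xcf w TH Sc i t) mu
        (slam F (w t) ω) j).eval (rt F (w t) ω) * V (some (c j)) - cv (gG G ω k 1) V| ≤
      2 ^ (C * (cl + X + Y + 1) + dd) / 2 ^ g₀ k 1 * en c (g₀ k) (w k) (gG G ω k) 1 V := by
  obtain ⟨C₁, hC₁, hco⟩ := jcore
  refine ⟨C₁ + 20, by omega, ?_⟩
  intro m J F c D Dr N M A cl Sc w e h pp z g gc gT g₀ κ B G H T TH Gt Ht E X Y f dd i i₁ t k P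
    hs0 hs1 hs2 n nz mu ω hω hmu hbig hvar V hV
  have hi := n.iN
  have ht := n.tN
  have hk := n.kN
  have htJ : w t ≤ J := (E.wA t ht).trans E.AJ
  have hc : Set.InjOn c (Set.Iio 3) := E.inj.mono (Set.Iio_subset_Iio (by norm_num))
  have hΓ : ∀ l, CvC c l (gG G ω k l) := fun l => cvc_grd ((E.evs k hk).ball.depG _ l) _
  have hκ : ∀ j ≤ N, ∀ l, CvC c l (kT w TH ω j l) := fun j hj l =>
    cvc_grd ((E.evs j hj).thin.depH _ l) _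
  have hSc : ∀ l < 3, (Sc l ↔ l = 2) := fun l hl => by
    have : l = 0 ∨ l = 1 ∨ l = 2 := by omega
    rcases this with h | h | h
    · rw [h]; exact ⟨fun h => absurd h hs0, fun h => absurd h (by norm_num)⟩
    · rw [h]; exact ⟨fun h => absurd h hs1, fun h => absurd h (by norm_num)⟩
    · rw [h]; exact ⟨fun _ => rfl, fun _ => hs2⟩
  -- the second derivative of the static chart
  have hzj : 2 ^ Y * (2 ^ g₀ k 2 / 2 ^ g₀ k 3) * |hs (TH i (slam F (w i) ω) 2) (bt F ω) (bd F ω)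
          (ev c 3 (mx Sc (kT w TH ω i) (gG G ω k)) 1)| ≤
      2 ^ (w k + g₀ k 1) / 2 ^ (g₀ k 3 + dd + 1) := by
    have hzS := E.zS hi hi le_rfl nz.cT nz.pi nz.ci hω (l := 2) (by norm_num)
      (fun x hx h => by
        have := (hSc x (by omega)).1 h
        omega) (nz.cT 2 (by norm_num)).1 nz.lb
      (ev c 3 (mx Sc (kT w TH ω i) (gG G ω k)) 1)
    have hΓi : ∀ l, CvC c l (gG G ω i l) := fun l => cvc_grd ((E.evs i hi).ball.depG _ l) _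
    obtain ⟨Ξ, hΞd⟩ : ∃ Ξ, Ξ = mx Sc (kT w TH ω i) (gG G ω k) := ⟨_, rfl⟩
    have hΞ : ∀ l, CvC c l (Ξ l) := fun l => by rw [hΞd]; exact mx_cvc (hκ i hi) hΓ l
    rw [← hΞd] at hzS ⊢
    have v0 := ev_none c 3 Ξ 1
    have v1 : ev c 3 Ξ 1 (some (c 0)) = 0 := ev_low hc hΞ 0 (by norm_num) (by norm_num)
    have v2 : ev c 3 Ξ 1 (some (c 1)) = 1 := ev_eq hc hΞ (by norm_num)
    have hen : en c (g₀ i) (w i) (gG G ω i) 2 (ev c 3 Ξ 1) = 2 ^ g₀ i 1 := by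
      have hc1 : Set.InjOn c (Set.Iio 1) := hc.mono (Set.Iio_subset_Iio (by norm_num))
      rw [show (2 : ℕ) = 1 + 1 from rfl, en_succ, en_one _ _ (hΓi 0) v0, v1, v2,
        cv_eq hc1 (hΓi 1), v0, mul_zero, zero_add, Finset.sum_range_one, v1]
      simp
    rw [hen] at hzS
    refine (mul_le_mul_of_nonneg_left hzS (by positivity)).trans ?_
    have e1 : 2 ^ Y * (2 ^ g₀ k 2 / 2 ^ g₀ k 3) *
        (2 ^ (12 * cl + 4 * 3 + X + 10) * 2 ^ w i / 2 ^ g₀ i 2 * 2 ^ g₀ i 1) =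
        (2 : ℝ) ^ (Y + g₀ k 2 + (12 * cl + X + 22) + w i + g₀ i 1) /
          2 ^ (g₀ k 3 + g₀ i 2) := by
      rw [show 12 * cl + 4 * 3 + X + 10 = 12 * cl + X + 22 by ring]
      simp only [pow_add]
      field_simp
    rw [e1, div_le_div_iff₀ (by positivity) (by positivity), ← pow_add, ← pow_add]
    have := nz.nb
    exact p2 (by omega)
  -- the first vector
  obtain ⟨Ξ', hΞd'⟩ : ∃ Ξ', Ξ' = mx Sc (kT w TH ω i) (kT w TH ω t) := ⟨_, rfl⟩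
  have hΞ' : ∀ l, CvC c l (Ξ' l) := fun l => by rw [hΞd']; exact mx_cvc (hκ i hi) (hκ t ht) l
  have v0 := ev_none c 3 Ξ' 0
  have v1 : ev c 3 Ξ' 0 (some (c 0)) = 1 := ev_eq hc hΞ' (by norm_num)
  have hγ := jgam_one E (by norm_num) hs0 hs1 ht hk n.tk (n.cT 1 (by norm_num)).2.1
    (n.cT 1 (by norm_num)).2.2.2 n.mj hω v0 v1
  rw [hΞd'] at hγ
  have hmain := hco E (u := 9 * cl + 2 * X + 10) (Or.inl ⟨rfl, rfl⟩) hSc n hω hmu hbig hzj hvar hγ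
  have hcv1 : ∀ W : Option (Fin m) → ℝ, CvC c 1 W → ∀ V : Option (Fin m) → ℝ, V none = 0 →
      cv W V = W (some (c 0)) * V (some (c 0)) := fun W hW V hV => by
    have hc1 : Set.InjOn c (Set.Iio 1) := hc.mono (Set.Iio_subset_Iio (by norm_num))
    rw [cv_eq hc1 hW, hV, mul_zero, zero_add, Finset.sum_range_one]
  rw [← hΞd', cv_subl, hcv1 _ (hΓ 1) _ v0, hcv1 _ (hκ t ht 1) _ v0, v1, mul_one, mul_one] at hmain
  rw [Finset.sum_range_one, hcv1 _ (hΓ 1) _ hV, en_one _ _ (hΓ 0) hV]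
  have hlam : (lamT c (w t) (fun s => Ht i₁ (co (w t - w i₁) s)) (Xcf w TH Sc i t) mu
        (slam F (w t) ω) 0).eval (rt F (w t) ω) = kT w TH ω t 1 (some (c 0)) +
      (jG c (w t) 2 1 (fun s => Ht i₁ (co (w t - w i₁) s)) (Xcf w TH Sc i t) mu
        (slam F (w t) ω)).eval (rt F (w t) ω) := by
    unfold lamT
    rw [Polynomial.eval_add, kpol_rt F c htJ]
    congr 1
    unfold Xcf kT
    rw [if_neg hs1]
  rw [hlam]
  obtain ⟨x, hx⟩ : ∃ x, x = (jG c (w t) 2 1 (fun s => Ht i₁ (co (w t - w i₁) s))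
    (Xcf w TH Sc i t) mu (slam F (w t) ω)).eval (rt F (w t) ω) := ⟨_, rfl⟩
  rw [← hx] at hmain ⊢
  have e1 : (kT w TH ω t 1 (some (c 0)) + x) * V (some (c 0)) -
      gG G ω k 1 (some (c 0)) * V (some (c 0)) =
      (x - (gG G ω k 1 (some (c 0)) - kT w TH ω t 1 (some (c 0)))) * V (some (c 0)) := by ring
  rw [e1, abs_mul]
  refine (mul_le_mul_of_nonneg_right hmain (abs_nonneg _)).trans ?_
  have e2 : (2 : ℝ) ^ (C₁ * (cl + X + Y + 1) + (9 * cl + 2 * X + 10) + dd) ≤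
      2 ^ ((C₁ + 20) * (cl + X + Y + 1) + dd) := by
    have e3 : (C₁ + 20) * (cl + X + Y + 1) = C₁ * (cl + X + Y + 1) + 20 * (cl + X + Y + 1) := by
      ring
    exact p2 (by omega)
  have e4 : 2 ^ (C₁ * (cl + X + Y + 1) + (9 * cl + 2 * X + 10) + dd) *
      (2 ^ g₀ k 0 / 2 ^ g₀ k 1) * |V (some (c 0))| =
      2 ^ (C₁ * (cl + X + Y + 1) + (9 * cl + 2 * X + 10) + dd) *
      ((2 ^ g₀ k 0 / 2 ^ g₀ k 1) * |V (some (c 0))|) := by ring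
  have e5 : 2 ^ ((C₁ + 20) * (cl + X + Y + 1) + dd) / 2 ^ g₀ k 1 *
      (2 ^ g₀ k 0 * |V (some (c 0))|) = 2 ^ ((C₁ + 20) * (cl + X + Y + 1) + dd) *
      ((2 ^ g₀ k 0 / 2 ^ g₀ k 1) * |V (some (c 0))|) := by ring
  rw [e4, e5]
  exact mul_le_mul_of_nonneg_right e2 (by positivity)

/-- **The critical slope, static place one and thin place two**: the closed gradient of the thin
place. -/
theorem jcl_st : ∃ C : ℕ, 1 ≤ C ∧ ∀ {m J : ℕ} {F : Fam m J} {c : ℕ → Fin m}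
    {D Dr N M A cl : ℕ} {Sc : ℕ → Prop} {w e h pp : ℕ → ℕ} {z g gc gT g₀ : ℕ → ℕ → ℕ} {κ : ℝ}
    {B : F.Ω → Prop} {G : ℕ → PtT F → ℕ → MvPolynomial (Option (Fin m)) ℝ}
    {H : ℕ → LnT F → ℕ → MvPolynomial (Option (Fin m)) ℝ}
    {T : ℕ → PtT F → ℕ → MvPolynomial (Option (Fin m)) ℝ}
    {TH : ℕ → LnT F → ℕ → MvPolynomial (Option (Fin m)) ℝ}
    {Gt : ℕ → PtT F → MvPolynomial (Option (Fin m)) ℝ}
    {Ht : ℕ → LnT F → MvPolynomial (Option (Fin m)) ℝ},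
    CEv F c 3 D Dr N M A cl Sc w e h pp z g gc gT g₀ κ B G H T TH Gt Ht →
    ∀ {X Y f dd i i₁ t k P : ℕ}, ¬ Sc 0 → Sc 1 → ¬ Sc 2 →
    JNum N A cl X f dd w pp gc gT g₀ i i₁ t k P 2 1 →
    ∀ {mu mu₂ : LnT F → Polynomial ℝ} {ω : F.Ω}, B ω →
    |cv (gG G ω k 3 - grd (Ht i₁ (slam F (w i₁) ω)) (bt F ω))
        (ev c 3 (mx Sc (kT w TH ω i) (gG G ω k)) 1) -
      (mu (slam F (w t) ω)).eval (rt F (w t) ω)| ≤ 2 ^ Y * (2 ^ g₀ k 1 / 2 ^ g₀ k 3) →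
    |gG G ω k 2 (some (c 1)) - (mu₂ (slam F (w t) ω)).eval (rt F (w t) ω)| ≤
      2 ^ Y * (2 ^ g₀ k 1 / 2 ^ g₀ k 2) →
    2 ^ (w k + g₀ k 2) / 2 ^ (g₀ k 3 + dd) ≤
      |hs (Ht i₁ (slam F (w i₁) ω)) (bt F ω) (bd F ω)
          (ev c 3 (mx Sc (kT w TH ω i) (gG G ω k)) 2) -
        cv (gG G ω k 3 - grd (Ht i₁ (slam F (w i₁) ω)) (bt F ω))
          (ev c 3 (mx Sc (kT w TH ω i) (gG G ω k)) 1) *
        hs (TH i (slam F (w i) ω) 1) (bt F ω) (bd F ω)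
          (ev c 3 (mx Sc (kT w TH ω i) (gG G ω k)) 2)| →
    |(jL c (w t) 1 2 (fun s => Ht i₁ (co (w t - w i₁) s)) (Xcf w TH Sc i t) mu
        (slam F (w t) ω)).eval (rt F (w t) ω) -
      (jL c (w t) 1 2 (fun s => Ht i₁ (co (w t - w i₁) s)) (Xcf w TH Sc i t) mu
        (slam F (w t) ω)).eval 0| ≤ 2 ^ (w k + g₀ k 2) / 2 ^ (g₀ k 3 + dd + f + 2) →
    ∀ V : Option (Fin m) → ℝ, V none = 0 →
    |∑ j ∈ range 2, (lamS c (w t) (fun s => Ht i₁ (co (w t - w i₁) s)) (Xcf w TH Sc i t) mu mu₂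
        (slam F (w t) ω) j).eval (rt F (w t) ω) * V (some (c j)) - cv (gG G ω k 2) V| ≤
      2 ^ (C * (cl + X + Y + 1) + dd) / 2 ^ g₀ k 2 * en c (g₀ k) (w k) (gG G ω k) 2 V := by
  obtain ⟨C₁, hC₁, hco⟩ := jcore
  refine ⟨C₁ + 30, by omega, ?_⟩
  intro m J F c D Dr N M A cl Sc w e h pp z g gc gT g₀ κ B G H T TH Gt Ht E X Y f dd i i₁ t k P
    hs0 hs1 hs2 n mu mu₂ ω hω hmu hmu2 hbig hvar V hV
  have hi := n.iN
  have ht := n.tN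
  have hk := n.kN
  have htJ : w t ≤ J := (E.wA t ht).trans E.AJ
  have hc : Set.InjOn c (Set.Iio 3) := E.inj.mono (Set.Iio_subset_Iio (by norm_num))
  have hΓ : ∀ l, CvC c l (gG G ω k l) := fun l => cvc_grd ((E.evs k hk).ball.depG _ l) _
  have hκ : ∀ j ≤ N, ∀ l, CvC c l (kT w TH ω j l) := fun j hj l =>
    cvc_grd ((E.evs j hj).thin.depH _ l) _
  have hSc : ∀ l < 3, (Sc l ↔ l = 1) := fun l hl => by
    have : l = 0 ∨ l = 1 ∨ l = 2 := by omega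
    rcases this with h | h | h
    · rw [h]; exact ⟨fun h => absurd h hs0, fun h => absurd h (by norm_num)⟩
    · rw [h]; exact ⟨fun _ => rfl, fun _ => hs1⟩
    · rw [h]; exact ⟨fun h => absurd h hs2, fun h => absurd h (by norm_num)⟩
  have hzj : 2 ^ Y * (2 ^ g₀ k 1 / 2 ^ g₀ k 3) * |hs (TH i (slam F (w i) ω) 1) (bt F ω) (bd F ω)
          (ev c 3 (mx Sc (kT w TH ω i) (gG G ω k)) 2)| ≤
      2 ^ (w k + g₀ k 2) / 2 ^ (g₀ k 3 + dd + 1) := by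
    rw [hs_zero_ev hc (l := 1) (by norm_num) (fun l => mx_cvc (hκ i hi) hΓ l) (by norm_num)
      (dep_TH E hi _ 1), abs_zero, mul_zero]
    positivity
  -- the first vector
  obtain ⟨Ξ', hΞd'⟩ : ∃ Ξ', Ξ' = mx Sc (kT w TH ω i) (kT w TH ω t) := ⟨_, rfl⟩
  have hΞ' : ∀ l, CvC c l (Ξ' l) := fun l => by rw [hΞd']; exact mx_cvc (hκ i hi) (hκ t ht) l
  have hΞ'1 : Ξ' 1 = kT w TH ω i 1 := by rw [hΞd']; exact mx_pos hs1
  have v0 := ev_none c 3 Ξ' 0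
  have v1 : ev c 3 Ξ' 0 (some (c 0)) = 1 := ev_eq hc hΞ' (by norm_num)
  have v2 : ev c 3 Ξ' 0 (some (c 1)) = cv (kT w TH ω i 1) (ev c 3 Ξ' 0) := by
    have h3 := ev_comp hc hΞ' 0 (show 1 < 3 by norm_num)
    rw [if_neg (by norm_num), hΞ'1] at h3
    linarith
  have c1 := n.cT 1 (by norm_num)
  have c2 := n.cT 2 (by norm_num)
  have hγ := jgam_two E (by norm_num) hs0 hs2 hi ht hk (n.it.trans n.tk) n.tk c1.1 c1.2.2.2
    c1.2.2.1 n.m1 n.lb c2.2.1 c2.2.2.2 n.mj hω v0 v1 v2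
  rw [hΞd'] at hγ
  have hmain := hco E (u := 9 * cl + 3 * X + 10) (Or.inr ⟨rfl, rfl⟩) hSc n hω hmu hbig hzj hvar hγ
  have hcv1 : ∀ W : Option (Fin m) → ℝ, CvC c 1 W → ∀ V : Option (Fin m) → ℝ, V none = 0 →
      cv W V = W (some (c 0)) * V (some (c 0)) := fun W hW V hV => by
    have hc1 : Set.InjOn c (Set.Iio 1) := hc.mono (Set.Iio_subset_Iio (by norm_num))
    rw [cv_eq hc1 hW, hV, mul_zero, zero_add, Finset.sum_range_one]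
  have hcv2 : ∀ W : Option (Fin m) → ℝ, CvC c 2 W → ∀ V : Option (Fin m) → ℝ, V none = 0 →
      cv W V = W (some (c 0)) * V (some (c 0)) + W (some (c 1)) * V (some (c 1)) :=
    fun W hW V hV => by
      have hc2 : Set.InjOn c (Set.Iio 2) := hc.mono (Set.Iio_subset_Iio (by norm_num))
      rw [cv_eq hc2 hW, hV, mul_zero, zero_add, Finset.sum_range_succ, Finset.sum_range_one]
  have hk10 : ev c 3 Ξ' 0 (some (c 1)) = kT w TH ω i 1 (some (c 0)) := by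
    rw [v2, hcv1 _ (hκ i hi 1) _ v0, v1, mul_one]
  rw [← hΞd', cv_subl, hcv2 _ (hΓ 2) _ v0, hcv2 _ (hκ t ht 2) _ v0, v1, hk10, mul_one,
    mul_one] at hmain
  have hgg := st_gg E (by norm_num) hs0 hi hk (n.it.trans n.tk) c1.1 c1.2.2.2 n.m1 n.lb hω hV
  rw [hcv1 _ (by
    have e1 : CvC c 1 (kT w TH ω i 1 - gG G ω k 1) := fun l hl => by
      rw [Pi.sub_apply, hκ i hi 1 l hl, hΓ 1 l hl, sub_zero]
    exact e1) _ hV, Pi.sub_apply] at hgg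
  -- the sum
  have hlam : ∑ j ∈ range 2, (lamS c (w t) (fun s => Ht i₁ (co (w t - w i₁) s))
        (Xcf w TH Sc i t) mu mu₂ (slam F (w t) ω) j).eval (rt F (w t) ω) * V (some (c j)) =
      (kT w TH ω t 2 (some (c 0)) + kT w TH ω i 1 (some (c 0)) * kT w TH ω t 2 (some (c 1)) +
        (jG c (w t) 1 2 (fun s => Ht i₁ (co (w t - w i₁) s)) (Xcf w TH Sc i t) mu
          (slam F (w t) ω)).eval (rt F (w t) ω) -
        kT w TH ω i 1 (some (c 0)) * (mu₂ (slam F (w t) ω)).eval (rt F (w t) ω)) *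
          V (some (c 0)) + (mu₂ (slam F (w t) ω)).eval (rt F (w t) ω) * V (some (c 1)) := by
    rw [Finset.sum_range_succ, Finset.sum_range_one]
    unfold lamS
    rw [if_pos rfl, if_neg (by norm_num), Polynomial.eval_sub, Polynomial.eval_add,
      Polynomial.eval_add, Polynomial.eval_mul, Polynomial.eval_mul, kpol_rt F c htJ,
      kpol_rt F c htJ, kpol_rt F c htJ]
    have e1 : Xcf w TH Sc i t (slam F (w t) ω) 2 = TH t (slam F (w t) ω) 2 := by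
      unfold Xcf
      rw [if_neg hs2]
    have e2 : Xcf w TH Sc i t (slam F (w t) ω) 1 = TH i (slam F (w i) ω) 1 := by
      unfold Xcf
      rw [if_pos hs1, co_slam F n.it htJ]
    rw [e1, e2]
    rfl
  rw [hlam, hcv2 _ (hΓ 2) _ hV]
  obtain ⟨x, hx⟩ : ∃ x, x = (jG c (w t) 1 2 (fun s => Ht i₁ (co (w t - w i₁) s))
    (Xcf w TH Sc i t) mu (slam F (w t) ω)).eval (rt F (w t) ω) := ⟨_, rfl⟩
  obtain ⟨μ, hμ⟩ : ∃ μ, μ = (mu₂ (slam F (w t) ω)).eval (rt F (w t) ω) := ⟨_, rfl⟩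
  obtain ⟨p, hp⟩ : ∃ p, p = kT w TH ω i 1 (some (c 0)) := ⟨_, rfl⟩
  obtain ⟨k0, hk0⟩ : ∃ p, p = kT w TH ω t 2 (some (c 0)) := ⟨_, rfl⟩
  obtain ⟨k1, hk1⟩ : ∃ p, p = kT w TH ω t 2 (some (c 1)) := ⟨_, rfl⟩
  obtain ⟨q0, hq0⟩ : ∃ p, p = gG G ω k 2 (some (c 0)) := ⟨_, rfl⟩
  obtain ⟨q1, hq1⟩ : ∃ p, p = gG G ω k 2 (some (c 1)) := ⟨_, rfl⟩
  obtain ⟨p', hp'⟩ : ∃ p, p = gG G ω k 1 (some (c 0)) := ⟨_, rfl⟩
  obtain ⟨V0, hV0⟩ : ∃ p, p = V (some (c 0)) := ⟨_, rfl⟩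
  obtain ⟨V1, hV1⟩ : ∃ p, p = V (some (c 1)) := ⟨_, rfl⟩
  obtain ⟨En, hEn⟩ : ∃ x, x = en c (g₀ k) (w k) (gG G ω k) 2 V := ⟨_, rfl⟩
  have hEn2 : En = 2 ^ g₀ k 0 * |V0| + 2 ^ g₀ k 1 * |V1 - p' * V0| := by
    rw [hEn, show (2 : ℕ) = 1 + 1 from rfl, en_succ, en_one _ _ (hΓ 0) hV, hcv1 _ (hΓ 1) _ hV,
      hV0, hV1, hp']
  rw [← hx, ← hp, ← hk0, ← hk1, ← hq0, ← hq1] at hmain
  rw [← hμ, ← hq1] at hmu2
  rw [← hp, ← hp', ← hV0] at hgg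
  rw [← hx, ← hμ, ← hp, ← hk0, ← hk1, ← hq0, ← hq1, ← hV0, ← hV1, ← hEn]
  obtain ⟨u, hu⟩ : ∃ u : ℝ, u = 2 ^ (8 * cl + 2 * X + 4) := ⟨_, rfl⟩
  rw [← hu] at hgg
  have hu1 : 1 ≤ u := by rw [hu]; exact one_le_pow₀ (by norm_num)
  have hg0 : (0 : ℝ) < 2 ^ g₀ k 0 := by positivity
  have hg1 : (0 : ℝ) < 2 ^ g₀ k 1 := by positivity
  have hg2 : (0 : ℝ) < 2 ^ g₀ k 2 := by positivity
  have n1 : 0 ≤ 2 ^ g₀ k 0 * |V0| := by positivity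
  have n2 : 0 ≤ 2 ^ g₀ k 1 * |V1 - p' * V0| := by positivity
  have hEn0 : 0 ≤ En := by rw [hEn2]; linarith
  have hVr : |V0| * 2 ^ g₀ k 0 ≤ En := by rw [hEn2]; linarith
  have hVs : |V1 - p * V0| * 2 ^ g₀ k 1 ≤ (1 + u) * En := by
    have e1 : V1 - p * V0 = (V1 - p' * V0) - (p - p') * V0 := by ring
    have e2 := abs_sub (V1 - p' * V0) ((p - p') * V0)
    rw [← e1] at e2
    have e3 := mul_le_mul_of_nonneg_right e2 hg1.le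
    have e4 : u * (2 ^ g₀ k 0 * |V0|) ≤ u * En :=
      mul_le_mul_of_nonneg_left (by rw [hEn2]; linarith) (by linarith)
    have e5 : (|V1 - p' * V0| + |(p - p') * V0|) * 2 ^ g₀ k 1 =
        2 ^ g₀ k 1 * |V1 - p' * V0| + 2 ^ g₀ k 1 * |(p - p') * V0| := by ring
    rw [e5] at e3
    have e6 : 2 ^ g₀ k 1 * |V1 - p' * V0| ≤ En := by rw [hEn2]; linarith
    have e7 : (1 + u) * En = En + u * En := by ring
    rw [e7]
    linarith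
  have e1 : (k0 + p * k1 + x - p * μ) * V0 + μ * V1 - (q0 * V0 + q1 * V1) =
      (x - (q0 + q1 * p - (k0 + k1 * p))) * V0 + -((q1 - μ) * (V1 - p * V0)) := by ring
  rw [e1]
  refine (abs_add_le _ _).trans ?_
  rw [abs_neg, abs_mul, abs_mul]
  obtain ⟨Z, hZ⟩ : ∃ Z, Z = C₁ * (cl + X + Y + 1) + (9 * cl + 3 * X + 10) + dd := ⟨_, rfl⟩
  rw [← hZ] at hmain
  have k1' : |x - (q0 + q1 * p - (k0 + k1 * p))| * |V0| ≤ 2 ^ Z / 2 ^ g₀ k 2 * En := by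
    refine (mul_le_mul_of_nonneg_right hmain (abs_nonneg _)).trans ?_
    have e1 : 2 ^ Z * (2 ^ g₀ k 0 / 2 ^ g₀ k 2) * |V0| =
        2 ^ Z / 2 ^ g₀ k 2 * (|V0| * 2 ^ g₀ k 0) := by ring
    rw [e1]
    exact mul_le_mul_of_nonneg_left hVr (by positivity)
  have k2' : |q1 - μ| * |V1 - p * V0| ≤ 2 ^ Y / 2 ^ g₀ k 2 * ((1 + u) * En) := by
    refine (mul_le_mul_of_nonneg_right hmu2 (abs_nonneg _)).trans ?_
    have e1 : 2 ^ Y * (2 ^ g₀ k 1 / 2 ^ g₀ k 2) * |V1 - p * V0| =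
        2 ^ Y / 2 ^ g₀ k 2 * (|V1 - p * V0| * 2 ^ g₀ k 1) := by ring
    rw [e1]
    exact mul_le_mul_of_nonneg_left hVs (by positivity)
  refine (add_le_add k1' k2').trans ?_
  have e2 : 2 ^ Z / 2 ^ g₀ k 2 * En + 2 ^ Y / 2 ^ g₀ k 2 * ((1 + u) * En) =
      (2 ^ Z + 2 ^ Y * (1 + u)) / 2 ^ g₀ k 2 * En := by ring
  rw [e2]
  refine mul_le_mul_of_nonneg_right (div_le_div_of_nonneg_right ?_ hg2.le) hEn0
  obtain ⟨W, hW⟩ : ∃ W, W = C₁ * (cl + X + Y + 1) + 29 * (cl + X + Y + 1) + dd := ⟨_, rfl⟩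
  have f1 : (2 : ℝ) ^ Z ≤ 2 ^ W := p2 (by omega)
  have f2 : (2 : ℝ) ^ Y * (1 + u) ≤ 2 ^ W := by
    calc (2 : ℝ) ^ Y * (1 + u) ≤ 2 ^ Y * (2 * u) :=
          mul_le_mul_of_nonneg_left (by linarith) (by positivity)
      _ = 2 ^ (Y + (8 * cl + 2 * X + 4) + 1) := by
          rw [hu, pow_succ, pow_add]
          ring
      _ ≤ _ := p2 (by omega)
  have f3 : (2 : ℝ) ^ (W + 1) = 2 ^ W * 2 := pow_succ _ _
  have f4 : (2 : ℝ) ^ (W + 1) ≤ 2 ^ ((C₁ + 30) * (cl + X + Y + 1) + dd) := by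
    refine p2 ?_
    have e3 : (C₁ + 30) * (cl + X + Y + 1) = C₁ * (cl + X + Y + 1) + 30 * (cl + X + Y + 1) := by
      ring
    omega
  linarith

end Pool.TNW
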