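import Pool.Agent.H66.D2.Join1

/-!
# D2, two rough functions, the functionals span: the pure join

`read_linf`, `read_polyf`: the readings of `H66/D2/Rdl`, `H4/D2/Rpl` for a finite family of relations
at the cost of one event. `core2b`: on one law (the pair with its copies) the germs of two functions
`U = (u 0, u 1, v 0, v 1)` are read. `own2b`: the own `Θ` is small. `end2b`: with a fifth copy whose
functional is transversal to the own one the germs are constant.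
-/

set_option autoImplicit false

namespace Pool.D2A

open Finset Real
open Pool.Agent.H49.Ent Pool.Agent.H32.Dense Pool.STK
open Pool.BFL (Pb)

section fam

variable {Ω τ υ ι : Type} [Fintype Ω] {k : ℕ}

open Classical in
/-- **A full variable kills the coefficients of a family of relations.** -/
theorem read_linf {p : Ω → ℝ} (hp : IsLaw p) (W : Ω → τ) (V : Ω → υ) {A : ℕ} (hA : 1 ≤ A)
    (s g : ℕ) (P : Ω → Fin k → ℤ) (α : υ → ι → Fin k → ℝ) (β : υ → ι → ℝ)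
    (Ev : Ω → Prop) {D e e' : ℝ} (hD : 0 ≤ D)
    (hP : ∀ ω, 0 < p ω → ∀ j, |P ω j| ≤ ((A * 2 ^ s : ℕ) : ℤ))
    (hfull : k * (s * Real.log 2) - e' ≤ CH p P W) (hV : CH p V W ≤ e)
    (hrel : ∀ ω, 0 < p ω → Ev ω → ∀ n, |∑ j, α (V ω) n j * P ω j + 2 ^ s * β (V ω) n| ≤ D) :
    Pb p (fun ω => Ev ω ∧ ∃ n j, 1 / 2 ^ g ≤ |α (V ω) n j|) *
        (((s : ℝ) - g) * Real.log 2 - Real.log (2 * (2 * D + k * A + 1) + 1)) ≤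
      e + e' + Real.log (k + 1) + k * Real.log (2 * A + 1) := by
  obtain ⟨α', hα'⟩ : ∃ α' : υ → Fin k → ℝ, α' = fun v =>
    if h : ∃ n j, 1 / 2 ^ g ≤ |α v n j| then α v h.choose else 0 := ⟨_, rfl⟩
  obtain ⟨β', hβ'⟩ : ∃ β' : υ → ℝ, β' = fun v =>
    if h : ∃ n j, 1 / 2 ^ g ≤ |α v n j| then β v h.choose else 0 := ⟨_, rfl⟩
  have h1 := read_lin hp W hA s g P (fun ω => α' (V ω)) (fun ω => β' (V ω)) Ev hD hP hfull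
    (e := e) ((CH_mono_left hp.nonneg fun ω ω' _ _ h => by
      have h' : V ω = V ω' := (Prod.ext_iff.mp h).1
      rw [h']).trans hV) (fun ω hω hE => by
      by_cases h : ∃ n j, 1 / 2 ^ g ≤ |α (V ω) n j|
      · rw [hα', hβ']
        simp only [dif_pos h]
        exact hrel ω hω hE _
      · rw [hα', hβ']
        simp only [dif_neg h, Pi.zero_apply, zero_mul, Finset.sum_const_zero, mul_zero, add_zero,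
          abs_zero]
        exact hD)
  have h2 : (fun ω => Ev ω ∧ ∃ n j, 1 / 2 ^ g ≤ |α (V ω) n j|) =
      fun ω => Ev ω ∧ ∃ j, 1 / 2 ^ g ≤ |α' (V ω) j| := by
    funext ω
    refine propext (and_congr_right fun _ => ⟨fun h => ?_, fun h => ?_⟩)
    · rw [hα']
      simp only [dif_pos h]
      exact h.choose_spec
    · by_contra hcon
      obtain ⟨j, hj⟩ := h
      rw [hα'] at hj
      simp only [dif_neg hcon, Pi.zero_apply, abs_zero] at hj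
      have : (0 : ℝ) < 1 / 2 ^ g := by positivity
      linarith
  rw [h2]
  exact h1

open Polynomial in
/-- **Reading a family of polynomials.** -/
theorem read_polyf {S T : Type} {p : Ω → ℝ} (hp : IsLaw p) (E : Ω → ℝ) (e : Ω → ℤ) (W : Ω → S)
    (Z : Ω → T) (H : Ω → Prop) (f : ι → S → T → ℝ[X]) {D k : ℕ} {R δ μ c i r : ℝ} (hR : 0 ≤ R)
    (hc : 0 < c) (hδ : 0 ≤ δ) (hμ : ((3 + 2 * R) * 2 ^ k) ^ D * δ < μ)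
    (hI : CH p e Z - i ≤ CH p e (fun ω => (W ω, Z ω)))
    (hE : ∀ G : Ω → Prop, c ≤ law p G True → r ≤ CH (cond p G True) e Z)
    (hcell : ∀ ω, 0 < p ω → H ω → |E ω| ≤ R ∧ |2 ^ k * E ω - e ω| ≤ 1)
    (hf : ∀ ω, 0 < p ω → H ω → ∀ j, (f j (W ω) (Z ω)).natDegree ≤ D ∧
      |(f j (W ω) (Z ω)).eval (E ω)| ≤ δ)
    (hn : (i + Real.log 2) / c + Real.log (3 * D : ℕ) < r) :
    Pb p (fun ω => H ω ∧ ∃ j n, μ ≤ |(f j (W ω) (Z ω)).coeff n|) ≤ c := by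
  classical
  have hμ0 : 0 < μ := lt_of_le_of_lt (by positivity) hμ
  obtain ⟨f', hf'⟩ : ∃ f' : S → T → ℝ[X], f' = fun w z =>
    if h : ∃ j n, μ ≤ |(f j w z).coeff n| then f h.choose w z else 0 := ⟨_, rfl⟩
  have h1 := Pool.D2P.read_poly' hp E e W Z H f' (D := D) (k := k) (R := R) (δ := δ) (μ := μ)
    (c := c) (i := i) (r := r) hR hc hμ hI hE hcell (fun ω hω hH => by
      by_cases h : ∃ j n, μ ≤ |(f j (W ω) (Z ω)).coeff n|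
      · rw [hf']
        simp only [dif_pos h]
        exact hf ω hω hH _
      · rw [hf']
        simp only [dif_neg h, Polynomial.natDegree_zero, Polynomial.eval_zero, abs_zero]
        exact ⟨Nat.zero_le _, hδ⟩) hn
  rw [law_Pb] at h1
  refine le_trans (Pb_sub hp.nonneg fun ω _ hG => ?_) h1.le
  refine ⟨hG.1, ?_⟩
  rw [hf']
  simp only [dif_pos hG.2]
  exact hG.2.choose_spec

end fam

/-- The place of the component `a` of the function `i`. -/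
def ix (i a : Fin 2) : Fin 4 := if i = 0 then (if a = 0 then 0 else 1) else (if a = 0 then 2 else 3)

theorem ix_surj (n : Fin 4) : ∃ i a, n = ix i a := by
  fin_cases n
  · exact ⟨0, 0, rfl⟩
  · exact ⟨0, 1, rfl⟩
  · exact ⟨1, 0, rfl⟩
  · exact ⟨1, 1, rfl⟩

/-- What is read. `E`, `A`, `T` own; `F`, `A5`, `T5` of the fifth copy. -/
structure Gd (g s : ℕ) (μ E F : ℝ) (A T A5 T5 : Fin 2 → ℝ) (M0 N0 : Fin 4 → ℝ)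
    (M1 N1 : Fin 4 → Fin 2 → ℝ) : Prop where
  ow : ∀ i j, |(N1 (ix i 0) j - M1 (ix i 0) j) + E * (N1 (ix i 1) j - M1 (ix i 1) j)| < 1 / 2 ^ g
  al : ∀ j, |T j + (A 0 * (M1 (ix 0 0) j + E * M1 (ix 0 1) j) +
    A 1 * (M1 (ix 1 0) j + E * M1 (ix 1 1) j))| < 1 / 2 ^ g
  be : |2 * T 1 + (A 0 * (N1 (ix 0 1) 0 + E * N1 (ix 0 1) 1) +
    A 1 * (N1 (ix 1 1) 0 + E * N1 (ix 1 1) 1))| < 1 / 2 ^ g
  a5 : ∀ j, |T5 j + (A5 0 * (M1 (ix 0 0) j + F * M1 (ix 0 1) j) +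
    A5 1 * (M1 (ix 1 0) j + F * M1 (ix 1 1) j))| < 1 / 2 ^ g
  d0 : ∀ n, |N0 n - M0 n| < μ * 2 ^ s
  d1 : ∀ n j, |N1 n j - M1 n j| < μ
  s0 : ∀ i, |N1 (ix i 0) 0| < μ
  s1 : ∀ i, |N1 (ix i 0) 1 + N1 (ix i 1) 0| < μ
  s2 : ∀ i, |N1 (ix i 1) 1| < μ

/-- The bound of the own `Θ`. -/
noncomputable def thI (g : ℕ) (R B μ : ℝ) : ℝ :=
  (1 + 2 * B) * (1 + R) / 2 ^ g + 2 * B * μ * (1 + R) ^ 2

section Gd

variable {g s : ℕ} {μ E F R B : ℝ} {A T A5 T5 : Fin 2 → ℝ} {M0 N0 : Fin 4 → ℝ}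
  {M1 N1 : Fin 4 → Fin 2 → ℝ}

theorem mul_bd {x y B C : ℝ} (hx : |x| ≤ B) (hy : |y| ≤ C) : |x * y| ≤ B * C := by
  rw [abs_mul]
  exact mul_le_mul hx hy (abs_nonneg _) ((abs_nonneg _).trans hx)

/-- `T 1 = A ζ`. -/
theorem Gd.z1 (D : Gd g s μ E F A T A5 T5 M0 N0 M1 N1) (hμ : 0 ≤ μ) (hB : 0 ≤ B)
    (hE : |E| ≤ R) (hA : ∀ i, |A i| ≤ B) :
    |T 1 - (A 0 * N1 (ix 0 1) 0 + A 1 * N1 (ix 1 1) 0)| ≤
      (1 + 2 * B) * (1 / 2 ^ g) + 2 * B * (μ * (1 + R)) := by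
  have h1 := D.al 1
  have h2 : ∀ i, |A i * ((N1 (ix i 0) 1 - M1 (ix i 0) 1) +
      E * (N1 (ix i 1) 1 - M1 (ix i 1) 1))| ≤ B * (1 / 2 ^ g) := fun i =>
    mul_bd (hA i) (D.ow i 1).le
  have h3 : ∀ i, |A i * ((N1 (ix i 0) 1 + N1 (ix i 1) 0) + E * N1 (ix i 1) 1)| ≤
      B * (μ * (1 + R)) := by
    intro i
    refine mul_bd (hA i) ((abs_add_le _ _).trans ?_)
    have h4 := mul_bd hE (D.s2 i).le
    have h5 := (D.s1 i).le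
    linarith
  have e1 : T 1 - (A 0 * N1 (ix 0 1) 0 + A 1 * N1 (ix 1 1) 0) =
      (T 1 + (A 0 * (M1 (ix 0 0) 1 + E * M1 (ix 0 1) 1) +
        A 1 * (M1 (ix 1 0) 1 + E * M1 (ix 1 1) 1))) +
      A 0 * ((N1 (ix 0 0) 1 - M1 (ix 0 0) 1) + E * (N1 (ix 0 1) 1 - M1 (ix 0 1) 1)) +
      A 1 * ((N1 (ix 1 0) 1 - M1 (ix 1 0) 1) + E * (N1 (ix 1 1) 1 - M1 (ix 1 1) 1)) -
      A 0 * ((N1 (ix 0 0) 1 + N1 (ix 0 1) 0) + E * N1 (ix 0 1) 1) -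
      A 1 * ((N1 (ix 1 0) 1 + N1 (ix 1 1) 0) + E * N1 (ix 1 1) 1) := by ring
  rw [e1]
  have a1 := abs_le.mp h1.le
  have a2 := abs_le.mp (h2 0)
  have a3 := abs_le.mp (h2 1)
  have a4 := abs_le.mp (h3 0)
  have a5 := abs_le.mp (h3 1)
  rw [abs_le]
  constructor <;> linarith [a1.1, a1.2, a2.1, a2.2, a3.1, a3.2, a4.1, a4.2, a5.1, a5.2]

/-- **The own `Θ` is small.** -/
theorem Gd.own (D : Gd g s μ E F A T A5 T5 M0 N0 M1 N1) (hμ : 0 ≤ μ) (hB : 0 ≤ B) (hR : 0 ≤ R)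
    (hE : |E| ≤ R) (hA : ∀ i, |A i| ≤ B) (j : Fin 2) : |T j| ≤ thI g R B μ := by
  obtain ⟨z, hz⟩ : ∃ z, z = A 0 * N1 (ix 0 1) 0 + A 1 * N1 (ix 1 1) 0 := ⟨_, rfl⟩
  have h1 := D.z1 hμ hB hE hA
  rw [← hz] at h1
  have hg : (0 : ℝ) < 1 / 2 ^ g := by positivity
  obtain ⟨G, hG⟩ : ∃ G : ℝ, G = 1 / 2 ^ g := ⟨_, rfl⟩
  have hBμ : 0 ≤ B * μ := mul_nonneg hB hμ
  -- the relation `β`
  have h2 : |2 * T 1 + z| ≤ G + 2 * (B * (R * μ)) := by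
    have h3 := D.be
    have h4 : ∀ i, |A i * (E * N1 (ix i 1) 1)| ≤ B * (R * μ) := fun i =>
      mul_bd (hA i) (mul_bd hE (D.s2 i).le)
    have e1 : 2 * T 1 + z = (2 * T 1 + (A 0 * (N1 (ix 0 1) 0 + E * N1 (ix 0 1) 1) +
        A 1 * (N1 (ix 1 1) 0 + E * N1 (ix 1 1) 1))) - A 0 * (E * N1 (ix 0 1) 1) -
        A 1 * (E * N1 (ix 1 1) 1) := by
      rw [hz]
      ring
    rw [e1]
    have a1 := abs_le.mp h3.le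
    have a2 := abs_le.mp (h4 0)
    have a3 := abs_le.mp (h4 1)
    rw [← hG] at a1
    rw [abs_le]
    constructor <;> linarith [a1.1, a1.2, a2.1, a2.2, a3.1, a3.2]
  rw [← hG] at h1 hg
  have hGB : 0 ≤ G * B := mul_nonneg hg.le hB
  have hGR : 0 ≤ G * R := mul_nonneg hg.le hR
  have hGBR : 0 ≤ G * B * R := mul_nonneg hGB hR
  have hBμR : 0 ≤ B * μ * R := mul_nonneg hBμ hR
  have hBμRR : 0 ≤ B * μ * R * R := mul_nonneg hBμR hR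
  have eth : thI g R B μ = (1 + 2 * B) * (1 + R) * G + 2 * B * μ * (1 + R) ^ 2 := by
    unfold thI
    rw [hG]
    ring
  rw [eth]
  have b1 := abs_le.mp h1
  have b2 := abs_le.mp h2
  have hT1 : |T 1| ≤ (1 + 2 * B) * (1 + R) * G + 2 * B * μ * (1 + R) ^ 2 := by
    rw [abs_le]
    constructor <;> nlinarith [b1.1, b1.2, b2.1, b2.2]
  have hz1 : |z| ≤ G * (1 + 4 / 3 * B) + B * μ * (4 / 3 + 2 * R) := by
    rw [abs_le]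
    constructor <;> nlinarith [b1.1, b1.2, b2.1, b2.2]
  have hT0 : |T 0| ≤ (1 + 2 * B) * (1 + R) * G + 2 * B * μ * (1 + R) ^ 2 := by
    have h3 := D.al 0
    have h4 : ∀ i, |A i * ((N1 (ix i 0) 0 - M1 (ix i 0) 0) +
        E * (N1 (ix i 1) 0 - M1 (ix i 1) 0))| ≤ B * (1 / 2 ^ g) := fun i =>
      mul_bd (hA i) (D.ow i 0).le
    have h5 : ∀ i, |A i * N1 (ix i 0) 0| ≤ B * μ := fun i => mul_bd (hA i) (D.s0 i).le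
    have h6 : |E * z| ≤ R * (G * (1 + 4 / 3 * B) + B * μ * (4 / 3 + 2 * R)) := mul_bd hE hz1
    have e1 : T 0 = (T 0 + (A 0 * (M1 (ix 0 0) 0 + E * M1 (ix 0 1) 0) +
        A 1 * (M1 (ix 1 0) 0 + E * M1 (ix 1 1) 0))) +
      A 0 * ((N1 (ix 0 0) 0 - M1 (ix 0 0) 0) + E * (N1 (ix 0 1) 0 - M1 (ix 0 1) 0)) +
      A 1 * ((N1 (ix 1 0) 0 - M1 (ix 1 0) 0) + E * (N1 (ix 1 1) 0 - M1 (ix 1 1) 0)) -
      A 0 * N1 (ix 0 0) 0 - A 1 * N1 (ix 1 0) 0 - E * z := by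
      rw [hz]
      ring
    rw [e1]
    have a1 := abs_le.mp h3.le
    have a2 := abs_le.mp (h4 0)
    have a3 := abs_le.mp (h4 1)
    have a4 := abs_le.mp (h5 0)
    have a5 := abs_le.mp (h5 1)
    have a6 := abs_le.mp h6
    rw [← hG] at a1 a2 a3
    rw [abs_le]
    constructor <;> nlinarith [a1.1, a1.2, a2.1, a2.2, a3.1, a3.2, a4.1, a4.2, a5.1, a5.2, a6.1,
      a6.2]
  fin_cases j
  · exact hT0
  · exact hT1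

/-- The bound of the difference of the germs. -/
noncomputable def thE (Aa s g : ℕ) (R B K μ ν th : ℝ) : ℝ :=
  2 ^ s * (μ * (1 + 2 * Aa) + Aa * (1 + R) *
    (2 * B * (th + (1 + 2 * B) / 2 ^ g + 4 * B * μ * (1 + R)) / ν + μ)) + 2 * K

/-- The free numbers of the germs are small. -/
theorem Gd.free {ν th : ℝ} (D : Gd g s μ E F A T A5 T5 M0 N0 M1 N1) (hμ : 0 ≤ μ) (hB : 0 ≤ B)
    (hR : 0 ≤ R) (hν : 0 < ν) (hE : |E| ≤ R) (hF : |F| ≤ R) (hA : ∀ i, |A i| ≤ B)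
    (hA5 : ∀ i, |A5 i| ≤ B) (hdet : ν ≤ |A 0 * A5 1 - A 1 * A5 0|) (hT : |T 1| ≤ th)
    (hT5 : |T5 1| ≤ th) (i : Fin 2) :
    |N1 (ix i 1) 0| ≤ 2 * B * (th + (1 + 2 * B) / 2 ^ g + 4 * B * μ * (1 + R)) / ν := by
  have h1 := D.z1 hμ hB hE hA
  have hg : (0 : ℝ) < 1 / 2 ^ g := by positivity
  obtain ⟨G, hG⟩ : ∃ G : ℝ, G = 1 / 2 ^ g := ⟨_, rfl⟩
  have hBμR : 0 ≤ B * (μ * (1 + R)) := by positivity
  have hGB : 0 ≤ G * B := by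
    rw [hG]
    positivity
  -- the fifth copy
  have h2 : |T5 1 - (A5 0 * N1 (ix 0 1) 0 + A5 1 * N1 (ix 1 1) 0)| ≤
      G + 4 * (B * (μ * (1 + R))) := by
    have h3 := D.a5 1
    have h4 : ∀ i, |A5 i * ((N1 (ix i 0) 1 - M1 (ix i 0) 1) +
        F * (N1 (ix i 1) 1 - M1 (ix i 1) 1))| ≤ B * (μ * (1 + R)) := by
      intro i
      refine mul_bd (hA5 i) ((abs_add_le _ _).trans ?_)
      have h4 := mul_bd hF (D.d1 (ix i 1) 1).le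
      have h5 := (D.d1 (ix i 0) 1).le
      linarith
    have h5 : ∀ i, |A5 i * ((N1 (ix i 0) 1 + N1 (ix i 1) 0) + F * N1 (ix i 1) 1)| ≤
        B * (μ * (1 + R)) := by
      intro i
      refine mul_bd (hA5 i) ((abs_add_le _ _).trans ?_)
      have h4 := mul_bd hF (D.s2 i).le
      have h5 := (D.s1 i).le
      linarith
    have e1 : T5 1 - (A5 0 * N1 (ix 0 1) 0 + A5 1 * N1 (ix 1 1) 0) =
        (T5 1 + (A5 0 * (M1 (ix 0 0) 1 + F * M1 (ix 0 1) 1) +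
          A5 1 * (M1 (ix 1 0) 1 + F * M1 (ix 1 1) 1))) +
        A5 0 * ((N1 (ix 0 0) 1 - M1 (ix 0 0) 1) + F * (N1 (ix 0 1) 1 - M1 (ix 0 1) 1)) +
        A5 1 * ((N1 (ix 1 0) 1 - M1 (ix 1 0) 1) + F * (N1 (ix 1 1) 1 - M1 (ix 1 1) 1)) -
        A5 0 * ((N1 (ix 0 0) 1 + N1 (ix 0 1) 0) + F * N1 (ix 0 1) 1) -
        A5 1 * ((N1 (ix 1 0) 1 + N1 (ix 1 1) 0) + F * N1 (ix 1 1) 1) := by ring
    rw [e1]
    have a1 := abs_le.mp h3.le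
    have a2 := abs_le.mp (h4 0)
    have a3 := abs_le.mp (h4 1)
    have a4 := abs_le.mp (h5 0)
    have a5 := abs_le.mp (h5 1)
    rw [← hG] at a1
    rw [abs_le]
    constructor <;> linarith [a1.1, a1.2, a2.1, a2.2, a3.1, a3.2, a4.1, a4.2, a5.1, a5.2]
  rw [← hG] at h1
  obtain ⟨σ, hσ⟩ : ∃ σ, σ = th + (1 + 2 * B) / 2 ^ g + 4 * B * μ * (1 + R) := ⟨_, rfl⟩
  rw [← hσ]
  have eσ : σ = th + (1 + 2 * B) * G + 4 * (B * (μ * (1 + R))) := by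
    rw [hσ, hG]
    ring
  have c1 : |A 0 * N1 (ix 0 1) 0 + A 1 * N1 (ix 1 1) 0| ≤ σ := by
    have a1 := abs_le.mp h1
    have a2 := abs_le.mp hT
    rw [abs_le, eσ]
    constructor <;> linarith [a1.1, a1.2, a2.1, a2.2]
  have c2 : |A5 0 * N1 (ix 0 1) 0 + A5 1 * N1 (ix 1 1) 0| ≤ σ := by
    have a1 := abs_le.mp h2
    have a2 := abs_le.mp hT5
    rw [abs_le, eσ]
    constructor <;> linarith [a1.1, a1.2, a2.1, a2.2]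
  obtain ⟨x, hx⟩ : ∃ x, x = N1 (ix 0 1) 0 := ⟨_, rfl⟩
  obtain ⟨y, hy⟩ : ∃ y, y = N1 (ix 1 1) 0 := ⟨_, rfl⟩
  rw [← hx, ← hy] at c1 c2
  have hdx : |(A 0 * A5 1 - A 1 * A5 0) * x| ≤ 2 * B * σ := by
    have e1 : (A 0 * A5 1 - A 1 * A5 0) * x = A5 1 * (A 0 * x + A 1 * y) -
        A 1 * (A5 0 * x + A5 1 * y) := by ring
    rw [e1]
    have a1 := mul_bd (hA5 1) c1
    have a2 := mul_bd (hA 1) c2
    have a3 := abs_sub (A5 1 * (A 0 * x + A 1 * y)) (A 1 * (A5 0 * x + A5 1 * y))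
    linarith
  have hdy : |(A 0 * A5 1 - A 1 * A5 0) * y| ≤ 2 * B * σ := by
    have e1 : (A 0 * A5 1 - A 1 * A5 0) * y = A 0 * (A5 0 * x + A5 1 * y) -
        A5 0 * (A 0 * x + A 1 * y) := by ring
    rw [e1]
    have a1 := mul_bd (hA5 0) c1
    have a2 := mul_bd (hA 0) c2
    have a3 := abs_sub (A 0 * (A5 0 * x + A5 1 * y)) (A5 0 * (A 0 * x + A 1 * y))
    linarith
  have hfin : ∀ w : ℝ, |(A 0 * A5 1 - A 1 * A5 0) * w| ≤ 2 * B * σ → |w| ≤ 2 * B * σ / ν := by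
    intro w hw
    rw [le_div_iff₀ hν]
    rw [abs_mul] at hw
    have := mul_le_mul_of_nonneg_right hdet (abs_nonneg w)
    linarith
  fin_cases i
  · show |N1 (ix 0 1) 0| ≤ _
    rw [← hx]
    exact hfin x hdx
  · show |N1 (ix 1 1) 0| ≤ _
    rw [← hy]
    exact hfin y hdy

/-- **The germs are constant.** -/
theorem Gd.fin {ν th K : ℝ} {Aa : ℕ} {U U' : Fin 4 → ℝ} {p : Fin 2 → ℝ} {t : ℝ}
    (D : Gd g s μ E F A T A5 T5 M0 N0 M1 N1) (hμ : 0 ≤ μ) (hB : 0 ≤ B)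
    (hR : 0 ≤ R) (hν : 0 < ν) (hE : |E| ≤ R) (hF : |F| ≤ R) (hA : ∀ i, |A i| ≤ B)
    (hA5 : ∀ i, |A5 i| ≤ B) (hdet : ν ≤ |A 0 * A5 1 - A 1 * A5 0|) (hT : |T 1| ≤ th)
    (hT5 : |T5 1| ≤ th) (hp : ∀ j, |p j| ≤ Aa * 2 ^ s) (ht : |t| ≤ Aa * 2 ^ s)
    (hU : ∀ n, |(U' n - U n) - ((N0 n - M0 n) + ((N1 n 0 - M1 n 0) * p 0 +
      (N1 n 1 - M1 n 1) * p 1) + t * (N1 n 0 + N1 n 1 * E))| ≤ 2 * K) (n : Fin 4) :
    |U' n - U n| ≤ thE Aa s g R B K μ ν th := by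
  obtain ⟨f, hf⟩ : ∃ f, f = 2 * B * (th + (1 + 2 * B) / 2 ^ g + 4 * B * μ * (1 + R)) / ν :=
    ⟨_, rfl⟩
  have hfr : ∀ i, |N1 (ix i 1) 0| ≤ f := fun i => by
    rw [hf]
    exact D.free hμ hB hR hν hE hF hA hA5 hdet hT hT5 i
  have hf0 : 0 ≤ f := (abs_nonneg _).trans (hfr 0)
  have hAa : (0 : ℝ) ≤ Aa := Nat.cast_nonneg Aa
  have hs0 : (0 : ℝ) < 2 ^ s := by positivity
  have hfR : 0 ≤ f * R := mul_nonneg hf0 hR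
  have hμR : 0 ≤ μ * R := mul_nonneg hμ hR
  have hN : |N1 n 0 + N1 n 1 * E| ≤ (1 + R) * (f + μ) := by
    obtain ⟨i, a, rfl⟩ := ix_surj n
    have h1 := hfr i
    have h2 := (D.s0 i).le
    have h3 := (D.s1 i).le
    have h4 := (D.s2 i).le
    fin_cases a
    · show |N1 (ix i 0) 0 + N1 (ix i 0) 1 * E| ≤ _
      have e1 : N1 (ix i 0) 0 + N1 (ix i 0) 1 * E = N1 (ix i 0) 0 +
          (N1 (ix i 0) 1 + N1 (ix i 1) 0) * E - N1 (ix i 1) 0 * E := by ring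
      rw [e1]
      have b1 := mul_bd h3 hE
      have b2 := mul_bd h1 hE
      have b3 := abs_sub (N1 (ix i 0) 0 + (N1 (ix i 0) 1 + N1 (ix i 1) 0) * E) (N1 (ix i 1) 0 * E)
      have b4 := abs_add_le (N1 (ix i 0) 0) ((N1 (ix i 0) 1 + N1 (ix i 1) 0) * E)
      linarith
    · show |N1 (ix i 1) 0 + N1 (ix i 1) 1 * E| ≤ _
      have b1 := mul_bd h4 hE
      have b4 := abs_add_le (N1 (ix i 1) 0) (N1 (ix i 1) 1 * E)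
      linarith
  have h1 := hU n
  have h2 := (D.d0 n).le
  have h3 := mul_bd (D.d1 n 0).le (hp 0)
  have h4 := mul_bd (D.d1 n 1).le (hp 1)
  have h5 := mul_bd ht hN
  unfold thE
  rw [← hf]
  have e2 : 2 ^ s * (μ * (1 + 2 * (Aa : ℝ)) + Aa * (1 + R) * (f + μ)) + 2 * K =
      μ * 2 ^ s + μ * (Aa * 2 ^ s) + μ * (Aa * 2 ^ s) + Aa * 2 ^ s * ((1 + R) * (f + μ)) +
        2 * K := by ring
  rw [e2]
  have a1 := abs_le.mp h1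
  have a2 := abs_le.mp h2
  have a3 := abs_le.mp h3
  have a4 := abs_le.mp h4
  have a5 := abs_le.mp h5
  rw [abs_le]
  constructor <;> linarith [a1.1, a1.2, a2.1, a2.2, a3.1, a3.2, a4.1, a4.2, a5.1, a5.2]

end Gd

/-! ### The join -/

/-- The coefficients of the relation of a functional. -/
def cA (T A : Fin 2 → ℝ) (M1 : Fin 4 → Fin 2 → ℝ) (E : ℝ) (j : Fin 3) : ℝ :=
  if j = 0 then T 0 + (A 0 * (M1 (ix 0 0) 0 + E * M1 (ix 0 1) 0) +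
    A 1 * (M1 (ix 1 0) 0 + E * M1 (ix 1 1) 0))
  else if j = 1 then T 1 + (A 0 * (M1 (ix 0 0) 1 + E * M1 (ix 0 1) 1) +
    A 1 * (M1 (ix 1 0) 1 + E * M1 (ix 1 1) 1))
  else 0

/-- The coefficients of the relation of two times. -/
def cB (T A : Fin 2 → ℝ) (M1 N1 : Fin 4 → Fin 2 → ℝ) (E : ℝ) (j : Fin 3) : ℝ :=
  if j = 0 then A 0 * (N1 (ix 0 1) 0 - M1 (ix 0 1) 0) + A 1 * (N1 (ix 1 1) 0 - M1 (ix 1 1) 0)
  else if j = 1 then A 0 * (N1 (ix 0 1) 1 - M1 (ix 0 1) 1) +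
    A 1 * (N1 (ix 1 1) 1 - M1 (ix 1 1) 1)
  else 2 * T 1 + (A 0 * (N1 (ix 0 1) 0 + E * N1 (ix 0 1) 1) +
    A 1 * (N1 (ix 1 1) 0 + E * N1 (ix 1 1) 1))

/-- The family of the coefficients. -/
def cf (E F : ℝ) (A T A5 T5 : Fin 2 → ℝ) (M1 N1 : Fin 4 → Fin 2 → ℝ) : Fin 2 ⊕ Fin 3 → Fin 3 → ℝ
  | Sum.inl i => ow (fun a => M1 (ix i a)) (fun a => N1 (ix i a)) E
  | Sum.inr n => if n = 0 then cA T A M1 E else if n = 1 then cB T A M1 N1 E else cA T5 A5 M1 F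

/-- The family of the constant terms. -/
noncomputable def ct (s : ℕ) (b b5 E F : ℝ) (A A5 : Fin 2 → ℝ) (M0 N0 : Fin 4 → ℝ) :
    Fin 2 ⊕ Fin 3 → ℝ
  | Sum.inl i => ((N0 (ix i 0) - M0 (ix i 0)) + E * (N0 (ix i 1) - M0 (ix i 1))) / 2 ^ s
  | Sum.inr n => if n = 0 then
      (-b + (A 0 * (M0 (ix 0 0) + E * M0 (ix 0 1)) + A 1 * (M0 (ix 1 0) + E * M0 (ix 1 1)))) / 2 ^ s
    else if n = 1 then
      (A 0 * (N0 (ix 0 1) - M0 (ix 0 1)) + A 1 * (N0 (ix 1 1) - M0 (ix 1 1))) / 2 ^ s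
    else
      (-b5 + (A5 0 * (M0 (ix 0 0) + F * M0 (ix 0 1)) +
        A5 1 * (M0 (ix 1 0) + F * M0 (ix 1 1)))) / 2 ^ s

open Polynomial in
/-- The family of the polynomials in the direction. -/
noncomputable def fE (s : ℕ) (M0 N0 : Fin 4 → ℝ) (M1 N1 : Fin 4 → Fin 2 → ℝ) :
    Fin 2 × Fin 4 → ℝ[X] := fun x =>
  if x.2 = 0 then qd (N1 (ix x.1 0) 0 - M1 (ix x.1 0) 0) (N1 (ix x.1 1) 0 - M1 (ix x.1 1) 0) 0
  else if x.2 = 1 then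
    qd (N1 (ix x.1 0) 1 - M1 (ix x.1 0) 1) (N1 (ix x.1 1) 1 - M1 (ix x.1 1) 1) 0
  else if x.2 = 2 then
    qd (N1 (ix x.1 0) 0) (N1 (ix x.1 0) 1 + N1 (ix x.1 1) 0) (N1 (ix x.1 1) 1)
  else qd ((N0 (ix x.1 0) - M0 (ix x.1 0)) / 2 ^ s) ((N0 (ix x.1 1) - M0 (ix x.1 1)) / 2 ^ s) 0

theorem fE_deg (s : ℕ) (M0 N0 : Fin 4 → ℝ) (M1 N1 : Fin 4 → Fin 2 → ℝ) (x : Fin 2 × Fin 4) :
    (fE s M0 N0 M1 N1 x).natDegree ≤ 2 := by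
  unfold fE
  split_ifs <;> exact qd_deg _ _ _

section rel

variable {s : ℕ} {K R B E F b b5 : ℝ} {A T A5 T5 : Fin 2 → ℝ} {M0 N0 U U' : Fin 4 → ℝ}
  {M1 N1 : Fin 4 → Fin 2 → ℝ} {P : Fin 2 → ℤ} {t : ℤ}

/-- The difference of the germs. -/
theorem rel_dif (g1 : ∀ n, |U n - M0 n - ∑ j, M1 n j * P j| ≤ K)
    (g2 : ∀ n, |U' n - N0 n - ∑ j, N1 n j * (P j + t * XE E j)| ≤ K) (n : Fin 4) :
    |(U' n - U n) - ((N0 n - M0 n) + ((N1 n 0 - M1 n 0) * P 0 +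
      (N1 n 1 - M1 n 1) * P 1) + t * (N1 n 0 + N1 n 1 * E))| ≤ 2 * K := by
  have h1 := g1 n
  have h2 := g2 n
  rw [Fin.sum_univ_two] at h1 h2
  have x0 : XE E 0 = 1 := by simp [XE]
  have x1 : XE E 1 = E := by simp [XE]
  rw [x0, x1] at h2
  rw [abs_le] at h1 h2 ⊢
  constructor <;> linarith [h1.1, h1.2, h2.1, h2.2]

/-- The relation of a functional. -/
theorem rel_A (hK : 0 ≤ K) (hB : 0 ≤ B) (hE : |E| ≤ R) (hA : ∀ i, |A i| ≤ B)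
    (g1 : ∀ n, |U n - M0 n - ∑ j, M1 n j * P j| ≤ K)
    (h : |b - ∑ j, T j * P j - ∑ i, A i * ∑ a, U (ix i a) * XE E a| ≤ K) :
    |∑ j, cA T A M1 E j * v3 P t j + (-b + (A 0 * (M0 (ix 0 0) + E * M0 (ix 0 1)) +
      A 1 * (M0 (ix 1 0) + E * M0 (ix 1 1))))| ≤ K * (1 + 2 * B * (1 + R)) := by
  rw [Fin.sum_univ_two, Fin.sum_univ_two, Fin.sum_univ_two, Fin.sum_univ_two] at h
  have x0 : XE E 0 = 1 := by simp [XE]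
  have x1 : XE E 1 = E := by simp [XE]
  rw [x0, x1] at h
  have c0 : cA T A M1 E 0 = T 0 + (A 0 * (M1 (ix 0 0) 0 + E * M1 (ix 0 1) 0) +
    A 1 * (M1 (ix 1 0) 0 + E * M1 (ix 1 1) 0)) := by simp [cA]
  have c1 : cA T A M1 E 1 = T 1 + (A 0 * (M1 (ix 0 0) 1 + E * M1 (ix 0 1) 1) +
    A 1 * (M1 (ix 1 0) 1 + E * M1 (ix 1 1) 1)) := by simp [cA]
  have c2 : cA T A M1 E 2 = 0 := by simp [cA]
  rw [sum_v3, c0, c1, c2]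
  obtain ⟨d, hd⟩ : ∃ d : Fin 4 → ℝ, d = fun n => U n - M0 n - (M1 n 0 * P 0 + M1 n 1 * P 1) :=
    ⟨_, rfl⟩
  have hdK : ∀ n, |d n| ≤ K := fun n => by
    have h1 := g1 n
    rw [Fin.sum_univ_two] at h1
    rw [hd]
    exact h1
  have h3 : ∀ i, |A i * (d (ix i 0) + E * d (ix i 1))| ≤ B * (K * (1 + R)) := by
    intro i
    refine mul_bd (hA i) ((abs_add_le _ _).trans ?_)
    have h4 := mul_bd hE (hdK (ix i 1))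
    have h5 := hdK (ix i 0)
    linarith
  have e1 : (T 0 + (A 0 * (M1 (ix 0 0) 0 + E * M1 (ix 0 1) 0) +
      A 1 * (M1 (ix 1 0) 0 + E * M1 (ix 1 1) 0))) * (P 0 : ℝ) +
      (T 1 + (A 0 * (M1 (ix 0 0) 1 + E * M1 (ix 0 1) 1) +
        A 1 * (M1 (ix 1 0) 1 + E * M1 (ix 1 1) 1))) * (P 1 : ℝ) + 0 * (t : ℝ) +
      (-b + (A 0 * (M0 (ix 0 0) + E * M0 (ix 0 1)) + A 1 * (M0 (ix 1 0) + E * M0 (ix 1 1)))) =
      -(b - (T 0 * (P 0 : ℝ) + T 1 * (P 1 : ℝ)) -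
        (A 0 * (U (ix 0 0) * 1 + U (ix 0 1) * E) + A 1 * (U (ix 1 0) * 1 + U (ix 1 1) * E))) -
      A 0 * (d (ix 0 0) + E * d (ix 0 1)) - A 1 * (d (ix 1 0) + E * d (ix 1 1)) := by
    rw [hd]
    ring
  rw [e1]
  have a1 := abs_le.mp h
  have a2 := abs_le.mp (h3 0)
  have a3 := abs_le.mp (h3 1)
  rw [abs_le]
  constructor <;> linarith [a1.1, a1.2, a2.1, a2.2, a3.1, a3.2]

/-- The relation of two times. -/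
theorem rel_B (hK : 0 ≤ K) (hB : 0 ≤ B) (hA : ∀ i, |A i| ≤ B)
    (hdif : ∀ n, |(U' n - U n) - ((N0 n - M0 n) + ((N1 n 0 - M1 n 0) * P 0 +
      (N1 n 1 - M1 n 1) * P 1) + t * (N1 n 0 + N1 n 1 * E))| ≤ 2 * K)
    (h : |∑ i, A i * (U' (ix i 1) - U (ix i 1)) + 2 * t * T 1| ≤ K) :
    |∑ j, cB T A M1 N1 E j * v3 P t j + (A 0 * (N0 (ix 0 1) - M0 (ix 0 1)) +
      A 1 * (N0 (ix 1 1) - M0 (ix 1 1)))| ≤ K * (1 + 4 * B) := by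
  rw [Fin.sum_univ_two] at h
  have c0 : cB T A M1 N1 E 0 = A 0 * (N1 (ix 0 1) 0 - M1 (ix 0 1) 0) +
    A 1 * (N1 (ix 1 1) 0 - M1 (ix 1 1) 0) := by simp [cB]
  have c1 : cB T A M1 N1 E 1 = A 0 * (N1 (ix 0 1) 1 - M1 (ix 0 1) 1) +
    A 1 * (N1 (ix 1 1) 1 - M1 (ix 1 1) 1) := by simp [cB]
  have c2 : cB T A M1 N1 E 2 = 2 * T 1 + (A 0 * (N1 (ix 0 1) 0 + E * N1 (ix 0 1) 1) +
    A 1 * (N1 (ix 1 1) 0 + E * N1 (ix 1 1) 1)) := by simp [cB]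
  rw [sum_v3, c0, c1, c2]
  obtain ⟨d, hd⟩ : ∃ d : Fin 4 → ℝ, d = fun n => (U' n - U n) - ((N0 n - M0 n) +
    ((N1 n 0 - M1 n 0) * P 0 + (N1 n 1 - M1 n 1) * P 1) + t * (N1 n 0 + N1 n 1 * E)) := ⟨_, rfl⟩
  have hdK : ∀ n, |d n| ≤ 2 * K := fun n => by
    rw [hd]
    exact hdif n
  have h3 : ∀ i, |A i * d (ix i 1)| ≤ B * (2 * K) := fun i => mul_bd (hA i) (hdK _)
  have e1 : (A 0 * (N1 (ix 0 1) 0 - M1 (ix 0 1) 0) +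
      A 1 * (N1 (ix 1 1) 0 - M1 (ix 1 1) 0)) * (P 0 : ℝ) +
      (A 0 * (N1 (ix 0 1) 1 - M1 (ix 0 1) 1) +
      A 1 * (N1 (ix 1 1) 1 - M1 (ix 1 1) 1)) * (P 1 : ℝ) +
      (2 * T 1 + (A 0 * (N1 (ix 0 1) 0 + E * N1 (ix 0 1) 1) +
      A 1 * (N1 (ix 1 1) 0 + E * N1 (ix 1 1) 1))) * (t : ℝ) +
      (A 0 * (N0 (ix 0 1) - M0 (ix 0 1)) + A 1 * (N0 (ix 1 1) - M0 (ix 1 1))) =
      (A 0 * (U' (ix 0 1) - U (ix 0 1)) + A 1 * (U' (ix 1 1) - U (ix 1 1)) + 2 * t * T 1) -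
      A 0 * d (ix 0 1) - A 1 * d (ix 1 1) := by
    rw [hd]
    ring
  rw [e1]
  have a1 := abs_le.mp h
  have a2 := abs_le.mp (h3 0)
  have a3 := abs_le.mp (h3 1)
  rw [abs_le]
  constructor <;> linarith [a1.1, a1.2, a2.1, a2.2, a3.1, a3.2]

/-- The own relation. -/
theorem rel_O (hK : 0 ≤ K) (hR : 0 ≤ R) (hE : |E| ≤ R) (i : Fin 2)
    (hdif : ∀ n, |(U' n - U n) - ((N0 n - M0 n) + ((N1 n 0 - M1 n 0) * P 0 +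
      (N1 n 1 - M1 n 1) * P 1) + t * (N1 n 0 + N1 n 1 * E))| ≤ 2 * K)
    (h : |∑ a, (U' (ix i a) - U (ix i a)) * XE E a| ≤ K) :
    |∑ j, ow (fun a => M1 (ix i a)) (fun a => N1 (ix i a)) E j * v3 P t j +
      ((N0 (ix i 0) - M0 (ix i 0)) + E * (N0 (ix i 1) - M0 (ix i 1)))| ≤ K * (3 + 2 * R) := by
  rw [Fin.sum_univ_two] at h
  have x0 : XE E 0 = 1 := by simp [XE]
  have x1 : XE E 1 = E := by simp [XE]
  rw [x0, x1] at h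
  rw [sum_v3, ow0, ow1, ow2]
  obtain ⟨d, hd⟩ : ∃ d : Fin 4 → ℝ, d = fun n => (U' n - U n) - ((N0 n - M0 n) +
    ((N1 n 0 - M1 n 0) * P 0 + (N1 n 1 - M1 n 1) * P 1) + t * (N1 n 0 + N1 n 1 * E)) := ⟨_, rfl⟩
  have hdK : ∀ n, |d n| ≤ 2 * K := fun n => by
    rw [hd]
    exact hdif n
  have h3 := mul_bd (hdK (ix i 1)) hE
  have h4 := hdK (ix i 0)
  have e1 : ((N1 (ix i 0) 0 - M1 (ix i 0) 0) + E * (N1 (ix i 1) 0 - M1 (ix i 1) 0)) * (P 0 : ℝ) +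
      ((N1 (ix i 0) 1 - M1 (ix i 0) 1) + E * (N1 (ix i 1) 1 - M1 (ix i 1) 1)) * (P 1 : ℝ) +
      (N1 (ix i 0) 0 + (N1 (ix i 0) 1 + N1 (ix i 1) 0) * E + N1 (ix i 1) 1 * E ^ 2) * (t : ℝ) +
      ((N0 (ix i 0) - M0 (ix i 0)) + E * (N0 (ix i 1) - M0 (ix i 1))) =
      ((U' (ix i 0) - U (ix i 0)) * 1 + (U' (ix i 1) - U (ix i 1)) * E) - d (ix i 0) -
        d (ix i 1) * E := by
    rw [hd]
    ring
  rw [e1]
  have a1 := abs_le.mp h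
  have a2 := abs_le.mp h3
  have a3 := abs_le.mp h4
  rw [abs_le]
  constructor <;> linarith [a1.1, a1.2, a2.1, a2.2, a3.1, a3.2]

end rel

variable {Ω ζ κ ε : Type} [Fintype Ω]

open Polynomial in
/-- **Two functions: what is read.** -/
theorem core2b {q : Ω → ℝ} (hq : IsLaw q) (zc : Ω → ζ) (Wc : Ω → κ) (e0 : Ω → ε) (ek : Ω → ℤ)
    (E0 : ε → ℝ) (A0 T0 : ζ → ε → Fin 2 → ℝ) (b0 : Ω → ℤ) (F5 : κ → ζ → ℝ)
    (A5 T5 : κ → ζ → Fin 2 → ℝ) (b5 : κ → ζ → ℝ)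
    (M0 N0 : κ → ζ → Fin 4 → ℝ) (M1 N1 : κ → ζ → Fin 4 → Fin 2 → ℝ)
    (P : Ω → Fin 2 → ℤ) (U U' : Ω → Fin 4 → ℤ) (τ : Ω → ℤ) (G : Ω → Prop)
    {A s g k : ℕ} {R B K μ c e1 eH i ρ : ℝ}
    (hA : 1 ≤ A) (hR : 0 ≤ R) (hB : 0 ≤ B) (hK : 0 ≤ K) (hc : 0 < c)
    (hP : ∀ ω, 0 < q ω → ∀ j, |v3 (P ω) (τ ω) j| ≤ ((A * 2 ^ s : ℕ) : ℤ))
    (hEb : ∀ ω, 0 < q ω → G ω → |E0 (e0 ω)| ≤ R ∧ |2 ^ k * E0 (e0 ω) - ek ω| ≤ 1)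
    (hF5 : ∀ ω, 0 < q ω → G ω → |F5 (Wc ω) (zc ω)| ≤ R)
    (hAb : ∀ ω, 0 < q ω → G ω → ∀ i, |A0 (zc ω) (e0 ω) i| ≤ B)
    (hA5 : ∀ ω, 0 < q ω → G ω → ∀ i, |A5 (Wc ω) (zc ω) i| ≤ B)
    (g1 : ∀ ω, 0 < q ω → G ω → ∀ n, |(U ω n : ℝ) - M0 (Wc ω) (zc ω) n -
      ∑ j, M1 (Wc ω) (zc ω) n j * P ω j| ≤ K)
    (g2 : ∀ ω, 0 < q ω → G ω → ∀ n, |(U' ω n : ℝ) - N0 (Wc ω) (zc ω) n -
      ∑ j, N1 (Wc ω) (zc ω) n j * (P ω j + τ ω * XE (E0 (e0 ω)) j)| ≤ K)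
    (g3 : ∀ ω, 0 < q ω → G ω → ∀ i, |∑ a, ((U' ω (ix i a) : ℝ) - U ω (ix i a)) *
      XE (E0 (e0 ω)) a| ≤ K)
    (g4 : ∀ ω, 0 < q ω → G ω → |(b0 ω : ℝ) - ∑ j, T0 (zc ω) (e0 ω) j * P ω j -
      ∑ i, A0 (zc ω) (e0 ω) i * ∑ a, (U ω (ix i a) : ℝ) * XE (E0 (e0 ω)) a| ≤ K)
    (g5 : ∀ ω, 0 < q ω → G ω → |∑ i, A0 (zc ω) (e0 ω) i * ((U' ω (ix i 1) : ℝ) - U ω (ix i 1)) +
      2 * τ ω * T0 (zc ω) (e0 ω) 1| ≤ K)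
    (g6 : ∀ ω, 0 < q ω → G ω → |b5 (Wc ω) (zc ω) - ∑ j, T5 (Wc ω) (zc ω) j * P ω j -
      ∑ i, A5 (Wc ω) (zc ω) i * ∑ a, (U ω (ix i a) : ℝ) * XE (F5 (Wc ω) (zc ω)) a| ≤ K)
    (hfull : 3 * (s * Real.log 2) - e1 ≤
      CH q (fun ω => v3 (P ω) (τ ω)) (fun ω => (e0 ω, (Wc ω, zc ω))))
    (hb0 : CH q b0 (fun ω => (e0 ω, (Wc ω, zc ω))) ≤ eH)
    (hI : CH q ek zc - i ≤ CH q ek (fun ω => (Wc ω, zc ω)))
    (hE : ∀ G' : Ω → Prop, c ≤ law q G' True → ρ ≤ CH (cond q G' True) ek zc)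
    (hn : (i + Real.log 2) / c + Real.log (3 * 2 : ℕ) < ρ)
    (hμ : ((3 + 2 * R) * 2 ^ k) ^ 2 * (3 * A / 2 ^ g + K * (3 + 2 * R) * (1 + 2 * B) / 2 ^ s) < μ)
    (hpos : 0 < ((s : ℝ) - g) * Real.log 2 -
      Real.log (2 * (2 * (K * (3 + 2 * R) * (1 + 2 * B)) + 3 * A + 1) + 1))
    (hN : e1 + eH + Real.log 4 + 3 * Real.log (2 * A + 1) ≤
      c * (((s : ℝ) - g) * Real.log 2 -
        Real.log (2 * (2 * (K * (3 + 2 * R) * (1 + 2 * B)) + 3 * A + 1) + 1))) :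
    Pb q (fun ω => G ω ∧ ¬ Gd g s μ (E0 (e0 ω)) (F5 (Wc ω) (zc ω)) (A0 (zc ω) (e0 ω))
      (T0 (zc ω) (e0 ω)) (A5 (Wc ω) (zc ω)) (T5 (Wc ω) (zc ω)) (M0 (Wc ω) (zc ω))
      (N0 (Wc ω) (zc ω)) (M1 (Wc ω) (zc ω)) (N1 (Wc ω) (zc ω))) ≤ 2 * c := by
  have h0 := hq.nonneg
  have hs0 : (0 : ℝ) < 2 ^ s := by positivity
  have hg0 : (0 : ℝ) < 1 / 2 ^ g := by positivity
  have hA1 : (1 : ℝ) ≤ A := by exact_mod_cast hA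
  obtain ⟨D, hD⟩ : ∃ D : ℝ, D = K * (3 + 2 * R) * (1 + 2 * B) := ⟨_, rfl⟩
  rw [← hD] at hμ hpos hN
  have hKR : 0 ≤ K * R := mul_nonneg hK hR
  have hKB : 0 ≤ K * B := mul_nonneg hK hB
  have hKBR : 0 ≤ K * B * R := mul_nonneg hKB hR
  have hD0 : 0 ≤ D := by rw [hD]; positivity
  have hD1 : K * (3 + 2 * R) ≤ D := by
    have e : D = K * (3 + 2 * R) + 6 * (K * B) + 4 * (K * B * R) := by rw [hD]; ring
    linarith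
  have hD2 : K * (1 + 2 * B * (1 + R)) ≤ D := by
    have e : D = K * (1 + 2 * B * (1 + R)) + 2 * K + 2 * (K * R) + 4 * (K * B) +
      2 * (K * B * R) := by rw [hD]; ring
    linarith
  have hD3 : K * (1 + 4 * B) ≤ D := by
    have e : D = K * (1 + 4 * B) + 2 * K + 2 * (K * R) + 2 * (K * B) +
      4 * (K * B * R) := by rw [hD]; ring
    linarith
  obtain ⟨X, hX⟩ : ∃ X : ℝ, X = ((s : ℝ) - g) * Real.log 2 -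
    Real.log (2 * (2 * D + 3 * A + 1) + 1) := ⟨_, rfl⟩
  rw [← hX] at hpos hN
  obtain ⟨W, hW⟩ : ∃ W : Ω → ε × (κ × ζ), W = fun ω => (e0 ω, (Wc ω, zc ω)) := ⟨_, rfl⟩
  rw [← hW] at hfull hb0
  obtain ⟨V, hV⟩ : ∃ V : Ω → ℤ × (ε × (κ × ζ)), V = fun ω => (b0 ω, W ω) := ⟨_, rfl⟩
  obtain ⟨α, hα⟩ : ∃ α : ℤ × (ε × (κ × ζ)) → (Fin 2 ⊕ Fin 3) → Fin 3 → ℝ, α = fun v =>
    cf (E0 v.2.1) (F5 v.2.2.1 v.2.2.2) (A0 v.2.2.2 v.2.1) (T0 v.2.2.2 v.2.1) (A5 v.2.2.1 v.2.2.2)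
      (T5 v.2.2.1 v.2.2.2) (M1 v.2.2.1 v.2.2.2) (N1 v.2.2.1 v.2.2.2) := ⟨_, rfl⟩
  obtain ⟨β, hβ⟩ : ∃ β : ℤ × (ε × (κ × ζ)) → (Fin 2 ⊕ Fin 3) → ℝ, β = fun v =>
    ct s (v.1 : ℝ) (b5 v.2.2.1 v.2.2.2) (E0 v.2.1) (F5 v.2.2.1 v.2.2.2) (A0 v.2.2.2 v.2.1)
      (A5 v.2.2.1 v.2.2.2) (M0 v.2.2.1 v.2.2.2) (N0 v.2.2.1 v.2.2.2) := ⟨_, rfl⟩
  have hαV : ∀ ω, α (V ω) = cf (E0 (e0 ω)) (F5 (Wc ω) (zc ω)) (A0 (zc ω) (e0 ω))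
      (T0 (zc ω) (e0 ω)) (A5 (Wc ω) (zc ω)) (T5 (Wc ω) (zc ω)) (M1 (Wc ω) (zc ω))
      (N1 (Wc ω) (zc ω)) := by
    intro ω
    rw [hα, hV, hW]
  have hβV : ∀ ω, β (V ω) = ct s (b0 ω : ℝ) (b5 (Wc ω) (zc ω)) (E0 (e0 ω)) (F5 (Wc ω) (zc ω))
      (A0 (zc ω) (e0 ω)) (A5 (Wc ω) (zc ω)) (M0 (Wc ω) (zc ω)) (N0 (Wc ω) (zc ω)) := by
    intro ω
    rw [hβ, hV, hW]
  have e2 : ∀ x : ℝ, 2 ^ s * (x / 2 ^ s) = x := fun x => by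
    field_simp
  -- the relations
  have hrel : ∀ ω, 0 < q ω → G ω → ∀ n,
      |∑ j, α (V ω) n j * v3 (P ω) (τ ω) j + 2 ^ s * β (V ω) n| ≤ D := by
    intro ω hω hG n
    have hE1 := (hEb ω hω hG).1
    have hdif := rel_dif (g1 ω hω hG) (g2 ω hω hG)
    rw [hαV, hβV]
    rcases n with i | n
    · show |∑ j, ow (fun a => M1 (Wc ω) (zc ω) (ix i a)) (fun a => N1 (Wc ω) (zc ω) (ix i a))
        (E0 (e0 ω)) j * v3 (P ω) (τ ω) j + 2 ^ s * (((N0 (Wc ω) (zc ω) (ix i 0) -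
          M0 (Wc ω) (zc ω) (ix i 0)) + E0 (e0 ω) * (N0 (Wc ω) (zc ω) (ix i 1) -
          M0 (Wc ω) (zc ω) (ix i 1))) / 2 ^ s)| ≤ D
      rw [e2]
      exact (rel_O hK hR hE1 i hdif (g3 ω hω hG i)).trans hD1
    · fin_cases n
      · show |∑ j, cA (T0 (zc ω) (e0 ω)) (A0 (zc ω) (e0 ω)) (M1 (Wc ω) (zc ω)) (E0 (e0 ω)) j *
          v3 (P ω) (τ ω) j + 2 ^ s * ((-(b0 ω : ℝ) + (A0 (zc ω) (e0 ω) 0 *
            (M0 (Wc ω) (zc ω) (ix 0 0) + E0 (e0 ω) * M0 (Wc ω) (zc ω) (ix 0 1)) +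
            A0 (zc ω) (e0 ω) 1 * (M0 (Wc ω) (zc ω) (ix 1 0) + E0 (e0 ω) *
              M0 (Wc ω) (zc ω) (ix 1 1)))) / 2 ^ s)| ≤ D
        rw [e2]
        exact (rel_A hK hB hE1 (hAb ω hω hG) (g1 ω hω hG) (g4 ω hω hG)).trans hD2
      · show |∑ j, cB (T0 (zc ω) (e0 ω)) (A0 (zc ω) (e0 ω)) (M1 (Wc ω) (zc ω))
          (N1 (Wc ω) (zc ω)) (E0 (e0 ω)) j * v3 (P ω) (τ ω) j + 2 ^ s *
            ((A0 (zc ω) (e0 ω) 0 * (N0 (Wc ω) (zc ω) (ix 0 1) - M0 (Wc ω) (zc ω) (ix 0 1)) +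
            A0 (zc ω) (e0 ω) 1 * (N0 (Wc ω) (zc ω) (ix 1 1) - M0 (Wc ω) (zc ω) (ix 1 1))) /
              2 ^ s)| ≤ D
        rw [e2]
        exact (rel_B hK hB (hAb ω hω hG) hdif (g5 ω hω hG)).trans hD3
      · show |∑ j, cA (T5 (Wc ω) (zc ω)) (A5 (Wc ω) (zc ω)) (M1 (Wc ω) (zc ω))
          (F5 (Wc ω) (zc ω)) j * v3 (P ω) (τ ω) j + 2 ^ s * ((-(b5 (Wc ω) (zc ω)) +
            (A5 (Wc ω) (zc ω) 0 * (M0 (Wc ω) (zc ω) (ix 0 0) + F5 (Wc ω) (zc ω) *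
              M0 (Wc ω) (zc ω) (ix 0 1)) + A5 (Wc ω) (zc ω) 1 * (M0 (Wc ω) (zc ω) (ix 1 0) +
              F5 (Wc ω) (zc ω) * M0 (Wc ω) (zc ω) (ix 1 1)))) / 2 ^ s)| ≤ D
        rw [e2]
        exact (rel_A hK hB (hF5 ω hω hG) (hA5 ω hω hG) (g1 ω hω hG) (g6 ω hω hG)).trans hD2
  have hVW : CH q V W ≤ eH := by
    refine (CH_mono_left h0 ?_).trans hb0
    intro ω ω' _ _ h
    have h1 : b0 ω = b0 ω' := (Prod.ext_iff.mp h).1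
    have h2 : W ω = W ω' := (Prod.ext_iff.mp h).2
    rw [hV]
    simp only [h1, h2]
  have hfull' : ((3 : ℕ) : ℝ) * (s * Real.log 2) - e1 ≤ CH q (fun ω => v3 (P ω) (τ ω)) W := by
    push_cast
    exact hfull
  have q1 := read_linf hq W V hA s g (fun ω => v3 (P ω) (τ ω)) α β G hD0 hP hfull' hVW hrel
  push_cast at q1
  rw [← hX] at q1
  have e4 : (3 : ℝ) + 1 = 4 := by norm_num
  rw [e4] at q1
  have B1 : Pb q (fun ω => G ω ∧ ∃ n j, 1 / 2 ^ g ≤ |α (V ω) n j|) ≤ c :=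
    le_of_read hpos q1 (by linarith)
  -- reading the direction
  obtain ⟨δ, hδ⟩ : ∃ δ : ℝ, δ = 3 * A / 2 ^ g + D / 2 ^ s := ⟨_, rfl⟩
  rw [← hδ] at hμ
  have hδ0 : 0 ≤ δ := by rw [hδ]; positivity
  have hgδ : 1 / 2 ^ g ≤ δ := by
    rw [hδ]
    have h1 : (1 : ℝ) / 2 ^ g ≤ 3 * A / 2 ^ g := by
      apply div_le_div_of_nonneg_right _ (by positivity)
      linarith
    have h2 : 0 ≤ D / 2 ^ s := by positivity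
    linarith
  obtain ⟨Hh, hHh⟩ : ∃ Hh : Ω → Prop, Hh = fun ω => G ω ∧ ∀ n j, |α (V ω) n j| < 1 / 2 ^ g :=
    ⟨_, rfl⟩
  have hbnd : ∀ ω, 0 < q ω → |(P ω 0 : ℝ)| ≤ A * 2 ^ s ∧ |(P ω 1 : ℝ)| ≤ A * 2 ^ s ∧
      |(τ ω : ℝ)| ≤ A * 2 ^ s := by
    intro ω hω
    have h1 : |P ω 0| ≤ ((A * 2 ^ s : ℕ) : ℤ) := by
      have := hP ω hω 0
      simpa [v3] using this
    have h2 : |P ω 1| ≤ ((A * 2 ^ s : ℕ) : ℤ) := by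
      have := hP ω hω 1
      simpa [v3] using this
    have h3 : |τ ω| ≤ ((A * 2 ^ s : ℕ) : ℤ) := by
      have := hP ω hω 2
      simpa [v3] using this
    refine ⟨?_, ?_, ?_⟩
    · exact_mod_cast h1
    · exact_mod_cast h2
    · exact_mod_cast h3
  have hβs : ∀ ω, 0 < q ω → Hh ω → ∀ n, |β (V ω) n| ≤ δ := by
    intro ω hω hH n
    rw [hHh] at hH
    obtain ⟨hG, hj⟩ := hH
    have h1 := hrel ω hω hG n
    rw [sum_v3] at h1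
    obtain ⟨p0, p1, p2⟩ := hbnd ω hω
    have m0 := mul_bd (hj n 0).le p0
    have m1 := mul_bd (hj n 1).le p1
    have m2 := mul_bd (hj n 2).le p2
    have h2 : |2 ^ s * β (V ω) n| ≤ D + 3 * (1 / 2 ^ g * (A * 2 ^ s)) := by
      rw [abs_le] at h1 m0 m1 m2 ⊢
      constructor <;> linarith [h1.1, h1.2, m0.1, m0.2, m1.1, m1.2, m2.1, m2.2]
    rw [abs_mul, abs_of_pos hs0] at h2
    have h3 : 2 ^ s * |β (V ω) n| ≤ 2 ^ s * δ := by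
      refine h2.trans (le_of_eq ?_)
      rw [hδ]
      field_simp
      ring
    exact le_of_mul_le_mul_left h3 hs0
  have hfE : ∀ ω, 0 < q ω → Hh ω → ∀ x : Fin 2 × Fin 4,
      (fE s (M0 (Wc ω) (zc ω)) (N0 (Wc ω) (zc ω)) (M1 (Wc ω) (zc ω)) (N1 (Wc ω) (zc ω))
        x).natDegree ≤ 2 ∧
      |(fE s (M0 (Wc ω) (zc ω)) (N0 (Wc ω) (zc ω)) (M1 (Wc ω) (zc ω)) (N1 (Wc ω) (zc ω))
        x).eval (E0 (e0 ω))| ≤ δ := by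
    intro ω hω hH x
    refine ⟨fE_deg _ _ _ _ _ _, ?_⟩
    have hsm := hH
    rw [hHh] at hsm
    obtain ⟨hG, hj⟩ := hsm
    have ho := hj (Sum.inl x.1)
    rw [hαV] at ho
    obtain ⟨i, n⟩ := x
    have o0 : |(N1 (Wc ω) (zc ω) (ix i 0) 0 - M1 (Wc ω) (zc ω) (ix i 0) 0) + E0 (e0 ω) *
        (N1 (Wc ω) (zc ω) (ix i 1) 0 - M1 (Wc ω) (zc ω) (ix i 1) 0)| < 1 / 2 ^ g := by
      have h1 := ho 0
      unfold cf at h1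
      simp only [ow0] at h1
      exact h1
    have o1 : |(N1 (Wc ω) (zc ω) (ix i 0) 1 - M1 (Wc ω) (zc ω) (ix i 0) 1) + E0 (e0 ω) *
        (N1 (Wc ω) (zc ω) (ix i 1) 1 - M1 (Wc ω) (zc ω) (ix i 1) 1)| < 1 / 2 ^ g := by
      have h1 := ho 1
      unfold cf at h1
      simp only [ow1] at h1
      exact h1
    have o2 : |N1 (Wc ω) (zc ω) (ix i 0) 0 + (N1 (Wc ω) (zc ω) (ix i 0) 1 +
        N1 (Wc ω) (zc ω) (ix i 1) 0) * E0 (e0 ω) + N1 (Wc ω) (zc ω) (ix i 1) 1 *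
          E0 (e0 ω) ^ 2| < 1 / 2 ^ g := by
      have h1 := ho 2
      unfold cf at h1
      simp only [ow2] at h1
      exact h1
    have o3 : |((N0 (Wc ω) (zc ω) (ix i 0) - M0 (Wc ω) (zc ω) (ix i 0)) + E0 (e0 ω) *
        (N0 (Wc ω) (zc ω) (ix i 1) - M0 (Wc ω) (zc ω) (ix i 1))) / 2 ^ s| ≤ δ := by
      have h1 := hβs ω hω hH (Sum.inl i)
      rw [hβV] at h1
      unfold ct at h1
      exact h1
    fin_cases n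
    · show |(qd (N1 (Wc ω) (zc ω) (ix i 0) 0 - M1 (Wc ω) (zc ω) (ix i 0) 0)
        (N1 (Wc ω) (zc ω) (ix i 1) 0 - M1 (Wc ω) (zc ω) (ix i 1) 0) 0).eval (E0 (e0 ω))| ≤ δ
      rw [qd_eval]
      refine le_trans (le_of_eq ?_) (o0.le.trans hgδ)
      congr 1
      ring
    · show |(qd (N1 (Wc ω) (zc ω) (ix i 0) 1 - M1 (Wc ω) (zc ω) (ix i 0) 1)
        (N1 (Wc ω) (zc ω) (ix i 1) 1 - M1 (Wc ω) (zc ω) (ix i 1) 1) 0).eval (E0 (e0 ω))| ≤ δ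
      rw [qd_eval]
      refine le_trans (le_of_eq ?_) (o1.le.trans hgδ)
      congr 1
      ring
    · show |(qd (N1 (Wc ω) (zc ω) (ix i 0) 0) (N1 (Wc ω) (zc ω) (ix i 0) 1 +
        N1 (Wc ω) (zc ω) (ix i 1) 0) (N1 (Wc ω) (zc ω) (ix i 1) 1)).eval (E0 (e0 ω))| ≤ δ
      rw [qd_eval]
      exact o2.le.trans hgδ
    · show |(qd ((N0 (Wc ω) (zc ω) (ix i 0) - M0 (Wc ω) (zc ω) (ix i 0)) / 2 ^ s)
        ((N0 (Wc ω) (zc ω) (ix i 1) - M0 (Wc ω) (zc ω) (ix i 1)) / 2 ^ s) 0).eval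
          (E0 (e0 ω))| ≤ δ
      rw [qd_eval]
      refine le_trans (le_of_eq ?_) o3
      congr 1
      ring
  have B2 := read_polyf hq (fun ω => E0 (e0 ω)) ek Wc zc Hh
    (fun x w z => fE s (M0 w z) (N0 w z) (M1 w z) (N1 w z) x) (D := 2) (k := k) (R := R) (δ := δ)
    (μ := μ) (c := c) (i := i) (r := ρ) hR hc hδ0 hμ hI hE
    (fun ω hω hH => hEb ω hω (by rw [hHh] at hH; exact hH.1)) hfE hn
  -- the union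
  have hU : ∀ ω, 0 < q ω → (G ω ∧ ¬ Gd g s μ (E0 (e0 ω)) (F5 (Wc ω) (zc ω)) (A0 (zc ω) (e0 ω))
      (T0 (zc ω) (e0 ω)) (A5 (Wc ω) (zc ω)) (T5 (Wc ω) (zc ω)) (M0 (Wc ω) (zc ω))
      (N0 (Wc ω) (zc ω)) (M1 (Wc ω) (zc ω)) (N1 (Wc ω) (zc ω))) →
      (G ω ∧ ∃ n j, 1 / 2 ^ g ≤ |α (V ω) n j|) ∨
      (Hh ω ∧ ∃ x n, μ ≤ |(fE s (M0 (Wc ω) (zc ω)) (N0 (Wc ω) (zc ω)) (M1 (Wc ω) (zc ω))
        (N1 (Wc ω) (zc ω)) x).coeff n|) := by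
    rintro ω hω ⟨hG, hng⟩
    by_contra hcon
    rw [not_or] at hcon
    obtain ⟨n1, n2⟩ := hcon
    apply hng
    have k1 : ∀ n j, |α (V ω) n j| < 1 / 2 ^ g := fun n j => by
      by_contra h
      exact n1 ⟨hG, n, j, not_lt.mp h⟩
    have hH : Hh ω := by
      rw [hHh]
      exact ⟨hG, k1⟩
    have k2 : ∀ x n, |(fE s (M0 (Wc ω) (zc ω)) (N0 (Wc ω) (zc ω)) (M1 (Wc ω) (zc ω))
        (N1 (Wc ω) (zc ω)) x).coeff n| < μ := fun x n => by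
      by_contra h
      exact n2 ⟨hH, x, n, not_lt.mp h⟩
    have k3 : ∀ x y u : ℝ, (∀ n, |(qd x y u).coeff n| < μ) → |x| < μ ∧ |y| < μ ∧ |u| < μ := by
      intro x y u h
      obtain ⟨c0, c1, c2⟩ := qd_coeff x y u
      refine ⟨?_, ?_, ?_⟩
      · have := h 0
        rwa [c0] at this
      · have := h 1
        rwa [c1] at this
      · have := h 2
        rwa [c2] at this
    have f0 : ∀ i, |N1 (Wc ω) (zc ω) (ix i 0) 0 - M1 (Wc ω) (zc ω) (ix i 0) 0| < μ ∧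
        |N1 (Wc ω) (zc ω) (ix i 1) 0 - M1 (Wc ω) (zc ω) (ix i 1) 0| < μ ∧ |(0 : ℝ)| < μ :=
      fun i => k3 _ _ _ (k2 (i, 0))
    have f1 : ∀ i, |N1 (Wc ω) (zc ω) (ix i 0) 1 - M1 (Wc ω) (zc ω) (ix i 0) 1| < μ ∧
        |N1 (Wc ω) (zc ω) (ix i 1) 1 - M1 (Wc ω) (zc ω) (ix i 1) 1| < μ ∧ |(0 : ℝ)| < μ :=
      fun i => k3 _ _ _ (k2 (i, 1))
    have f2 : ∀ i, |N1 (Wc ω) (zc ω) (ix i 0) 0| < μ ∧
        |N1 (Wc ω) (zc ω) (ix i 0) 1 + N1 (Wc ω) (zc ω) (ix i 1) 0| < μ ∧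
        |N1 (Wc ω) (zc ω) (ix i 1) 1| < μ := fun i => k3 _ _ _ (k2 (i, 2))
    have f3 : ∀ i, |(N0 (Wc ω) (zc ω) (ix i 0) - M0 (Wc ω) (zc ω) (ix i 0)) / 2 ^ s| < μ ∧
        |(N0 (Wc ω) (zc ω) (ix i 1) - M0 (Wc ω) (zc ω) (ix i 1)) / 2 ^ s| < μ ∧ |(0 : ℝ)| < μ :=
      fun i => k3 _ _ _ (k2 (i, 3))
    have k4 : ∀ x : ℝ, |x / 2 ^ s| < μ → |x| < μ * 2 ^ s := by
      intro x hx
      rwa [abs_div, abs_of_pos hs0, div_lt_iff₀ hs0] at hx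
    simp only [hαV] at k1
    refine ⟨fun i j => ?_, fun j => ?_, ?_, fun j => ?_, fun n => ?_, fun n j => ?_,
      fun i => (f2 i).1, fun i => (f2 i).2.1, fun i => (f2 i).2.2⟩
    · fin_cases j
      · have h1 := k1 (Sum.inl i) 0
        unfold cf at h1
        simp only [ow0] at h1
        exact h1
      · have h1 := k1 (Sum.inl i) 1
        unfold cf at h1
        simp only [ow1] at h1
        exact h1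
    · fin_cases j
      · exact k1 (Sum.inr 0) 0
      · exact k1 (Sum.inr 0) 1
    · exact k1 (Sum.inr 1) 2
    · fin_cases j
      · exact k1 (Sum.inr 2) 0
      · exact k1 (Sum.inr 2) 1
    · obtain ⟨i, a, rfl⟩ := ix_surj n
      fin_cases a
      · exact k4 _ (f3 i).1
      · exact k4 _ (f3 i).2.1
    · obtain ⟨i, a, rfl⟩ := ix_surj n
      fin_cases a <;> fin_cases j
      · exact (f0 i).1
      · exact (f1 i).1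
      · exact (f0 i).2.1
      · exact (f1 i).2.1
  have l1 := Pb_sub h0 hU
  have l2 := Pb_or h0 (fun ω => G ω ∧ ∃ n j, 1 / 2 ^ g ≤ |α (V ω) n j|)
    (fun ω => Hh ω ∧ ∃ x n, μ ≤ |(fE s (M0 (Wc ω) (zc ω)) (N0 (Wc ω) (zc ω)) (M1 (Wc ω) (zc ω))
        (N1 (Wc ω) (zc ω)) x).coeff n|)
  linarith

/-- **Two functions: the own `Θ` is small.** -/
theorem own2b {q : Ω → ℝ} (hq : IsLaw q) (zc : Ω → ζ) (Wc : Ω → κ) (e0 : Ω → ε) (ek : Ω → ℤ)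
    (E0 : ε → ℝ) (A0 T0 : ζ → ε → Fin 2 → ℝ) (b0 : Ω → ℤ)
    (M0 N0 : κ → ζ → Fin 4 → ℝ) (M1 N1 : κ → ζ → Fin 4 → Fin 2 → ℝ)
    (P : Ω → Fin 2 → ℤ) (U U' : Ω → Fin 4 → ℤ) (τ : Ω → ℤ) (G : Ω → Prop)
    {A s g k : ℕ} {R B K μ c e1 eH i ρ : ℝ}
    (hA : 1 ≤ A) (hR : 0 ≤ R) (hB : 0 ≤ B) (hK : 0 ≤ K) (hc : 0 < c)
    (hP : ∀ ω, 0 < q ω → ∀ j, |v3 (P ω) (τ ω) j| ≤ ((A * 2 ^ s : ℕ) : ℤ))
    (hEb : ∀ ω, 0 < q ω → G ω → |E0 (e0 ω)| ≤ R ∧ |2 ^ k * E0 (e0 ω) - ek ω| ≤ 1)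
    (hAb : ∀ ω, 0 < q ω → G ω → ∀ i, |A0 (zc ω) (e0 ω) i| ≤ B)
    (g1 : ∀ ω, 0 < q ω → G ω → ∀ n, |(U ω n : ℝ) - M0 (Wc ω) (zc ω) n -
      ∑ j, M1 (Wc ω) (zc ω) n j * P ω j| ≤ K)
    (g2 : ∀ ω, 0 < q ω → G ω → ∀ n, |(U' ω n : ℝ) - N0 (Wc ω) (zc ω) n -
      ∑ j, N1 (Wc ω) (zc ω) n j * (P ω j + τ ω * XE (E0 (e0 ω)) j)| ≤ K)
    (g3 : ∀ ω, 0 < q ω → G ω → ∀ i, |∑ a, ((U' ω (ix i a) : ℝ) - U ω (ix i a)) *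
      XE (E0 (e0 ω)) a| ≤ K)
    (g4 : ∀ ω, 0 < q ω → G ω → |(b0 ω : ℝ) - ∑ j, T0 (zc ω) (e0 ω) j * P ω j -
      ∑ i, A0 (zc ω) (e0 ω) i * ∑ a, (U ω (ix i a) : ℝ) * XE (E0 (e0 ω)) a| ≤ K)
    (g5 : ∀ ω, 0 < q ω → G ω → |∑ i, A0 (zc ω) (e0 ω) i * ((U' ω (ix i 1) : ℝ) - U ω (ix i 1)) +
      2 * τ ω * T0 (zc ω) (e0 ω) 1| ≤ K)
    (hfull : 3 * (s * Real.log 2) - e1 ≤
      CH q (fun ω => v3 (P ω) (τ ω)) (fun ω => (e0 ω, (Wc ω, zc ω))))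
    (hb0 : CH q b0 (fun ω => (e0 ω, (Wc ω, zc ω))) ≤ eH)
    (hI : CH q ek zc - i ≤ CH q ek (fun ω => (Wc ω, zc ω)))
    (hE : ∀ G' : Ω → Prop, c ≤ law q G' True → ρ ≤ CH (cond q G' True) ek zc)
    (hn : (i + Real.log 2) / c + Real.log (3 * 2 : ℕ) < ρ)
    (hμ : ((3 + 2 * R) * 2 ^ k) ^ 2 * (3 * A / 2 ^ g + K * (3 + 2 * R) * (1 + 2 * B) / 2 ^ s) < μ)
    (hpos : 0 < ((s : ℝ) - g) * Real.log 2 -
      Real.log (2 * (2 * (K * (3 + 2 * R) * (1 + 2 * B)) + 3 * A + 1) + 1))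
    (hN : e1 + eH + Real.log 4 + 3 * Real.log (2 * A + 1) ≤
      c * (((s : ℝ) - g) * Real.log 2 -
        Real.log (2 * (2 * (K * (3 + 2 * R) * (1 + 2 * B)) + 3 * A + 1) + 1))) :
    Pb q (fun ω => G ω ∧ ∃ j, thI g R B μ < |T0 (zc ω) (e0 ω) j|) ≤ 2 * c := by
  have hμ0 : 0 ≤ μ := le_trans (by positivity) hμ.le
  have h1 := core2b hq zc Wc e0 ek E0 A0 T0 b0 (fun _ _ => 0) (fun _ _ _ => 0) (fun _ _ _ => 0)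
    (fun _ _ => 0) M0 N0 M1 N1 P U U' τ G hA hR hB hK hc hP hEb (fun _ _ _ => by
      rw [abs_zero]
      exact hR) hAb (fun _ _ _ _ => by
      rw [abs_zero]
      exact hB) g1 g2 g3 g4 g5 (fun _ _ _ => by
      simp only [zero_mul, Finset.sum_const_zero, sub_zero, abs_zero]
      exact hK) hfull hb0 hI hE hn hμ hpos hN
  refine le_trans (Pb_sub hq.nonneg fun ω hω hG => ⟨hG.1, fun hgd => ?_⟩) h1
  obtain ⟨hG1, j, hj⟩ := hG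
  exact absurd (hgd.own hμ0 hB hR (hEb ω hω hG1).1 (hAb ω hω hG1) j) (not_le.mpr hj)

/-- **Two functions: the germs are constant**, with a fifth copy. -/
theorem end2b {q : Ω → ℝ} (hq : IsLaw q) (zc : Ω → ζ) (Wc : Ω → κ) (e0 : Ω → ε) (ek : Ω → ℤ)
    (E0 : ε → ℝ) (A0 T0 : ζ → ε → Fin 2 → ℝ) (b0 : Ω → ℤ) (F5 : κ → ζ → ℝ)
    (A5 T5 : κ → ζ → Fin 2 → ℝ) (b5 : κ → ζ → ℝ)
    (M0 N0 : κ → ζ → Fin 4 → ℝ) (M1 N1 : κ → ζ → Fin 4 → Fin 2 → ℝ)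
    (P : Ω → Fin 2 → ℤ) (U U' : Ω → Fin 4 → ℤ) (τ : Ω → ℤ) (G : Ω → Prop)
    {A s g k : ℕ} {R B K μ ν th c e1 eH i ρ : ℝ}
    (hA : 1 ≤ A) (hR : 0 ≤ R) (hB : 0 ≤ B) (hK : 0 ≤ K) (hc : 0 < c)
    (hP : ∀ ω, 0 < q ω → ∀ j, |v3 (P ω) (τ ω) j| ≤ ((A * 2 ^ s : ℕ) : ℤ))
    (hEb : ∀ ω, 0 < q ω → G ω → |E0 (e0 ω)| ≤ R ∧ |2 ^ k * E0 (e0 ω) - ek ω| ≤ 1)
    (hF5 : ∀ ω, 0 < q ω → G ω → |F5 (Wc ω) (zc ω)| ≤ R)
    (hAb : ∀ ω, 0 < q ω → G ω → ∀ i, |A0 (zc ω) (e0 ω) i| ≤ B)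
    (hA5 : ∀ ω, 0 < q ω → G ω → ∀ i, |A5 (Wc ω) (zc ω) i| ≤ B)
    (g1 : ∀ ω, 0 < q ω → G ω → ∀ n, |(U ω n : ℝ) - M0 (Wc ω) (zc ω) n -
      ∑ j, M1 (Wc ω) (zc ω) n j * P ω j| ≤ K)
    (g2 : ∀ ω, 0 < q ω → G ω → ∀ n, |(U' ω n : ℝ) - N0 (Wc ω) (zc ω) n -
      ∑ j, N1 (Wc ω) (zc ω) n j * (P ω j + τ ω * XE (E0 (e0 ω)) j)| ≤ K)
    (g3 : ∀ ω, 0 < q ω → G ω → ∀ i, |∑ a, ((U' ω (ix i a) : ℝ) - U ω (ix i a)) *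
      XE (E0 (e0 ω)) a| ≤ K)
    (g4 : ∀ ω, 0 < q ω → G ω → |(b0 ω : ℝ) - ∑ j, T0 (zc ω) (e0 ω) j * P ω j -
      ∑ i, A0 (zc ω) (e0 ω) i * ∑ a, (U ω (ix i a) : ℝ) * XE (E0 (e0 ω)) a| ≤ K)
    (g5 : ∀ ω, 0 < q ω → G ω → |∑ i, A0 (zc ω) (e0 ω) i * ((U' ω (ix i 1) : ℝ) - U ω (ix i 1)) +
      2 * τ ω * T0 (zc ω) (e0 ω) 1| ≤ K)
    (g6 : ∀ ω, 0 < q ω → G ω → |b5 (Wc ω) (zc ω) - ∑ j, T5 (Wc ω) (zc ω) j * P ω j -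
      ∑ i, A5 (Wc ω) (zc ω) i * ∑ a, (U ω (ix i a) : ℝ) * XE (F5 (Wc ω) (zc ω)) a| ≤ K)
    (hν : 0 < ν)
    (hdet : ∀ ω, 0 < q ω → G ω → ν ≤ |A0 (zc ω) (e0 ω) 0 * A5 (Wc ω) (zc ω) 1 -
      A0 (zc ω) (e0 ω) 1 * A5 (Wc ω) (zc ω) 0|)
    (hT0 : ∀ ω, 0 < q ω → G ω → |T0 (zc ω) (e0 ω) 1| ≤ th)
    (hT5 : ∀ ω, 0 < q ω → G ω → |T5 (Wc ω) (zc ω) 1| ≤ th)
    (hfull : 3 * (s * Real.log 2) - e1 ≤
      CH q (fun ω => v3 (P ω) (τ ω)) (fun ω => (e0 ω, (Wc ω, zc ω))))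
    (hb0 : CH q b0 (fun ω => (e0 ω, (Wc ω, zc ω))) ≤ eH)
    (hI : CH q ek zc - i ≤ CH q ek (fun ω => (Wc ω, zc ω)))
    (hE : ∀ G' : Ω → Prop, c ≤ law q G' True → ρ ≤ CH (cond q G' True) ek zc)
    (hn : (i + Real.log 2) / c + Real.log (3 * 2 : ℕ) < ρ)
    (hμ : ((3 + 2 * R) * 2 ^ k) ^ 2 * (3 * A / 2 ^ g + K * (3 + 2 * R) * (1 + 2 * B) / 2 ^ s) < μ)
    (hpos : 0 < ((s : ℝ) - g) * Real.log 2 -
      Real.log (2 * (2 * (K * (3 + 2 * R) * (1 + 2 * B)) + 3 * A + 1) + 1))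
    (hN : e1 + eH + Real.log 4 + 3 * Real.log (2 * A + 1) ≤
      c * (((s : ℝ) - g) * Real.log 2 -
        Real.log (2 * (2 * (K * (3 + 2 * R) * (1 + 2 * B)) + 3 * A + 1) + 1))) :
    Pb q (fun ω => G ω ∧ ∃ n, thE A s g R B K μ ν th < |(U' ω n : ℝ) - U ω n|) ≤ 2 * c := by
  have hμ0 : 0 ≤ μ := le_trans (by positivity) hμ.le
  have h1 := core2b hq zc Wc e0 ek E0 A0 T0 b0 F5 A5 T5 b5 M0 N0 M1 N1 P U U' τ G hA hR hB hK hc hP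
    hEb hF5 hAb hA5 g1 g2 g3 g4 g5 g6 hfull hb0 hI hE hn hμ hpos hN
  refine le_trans (Pb_sub hq.nonneg fun ω hω hG => ⟨hG.1, fun hgd => ?_⟩) h1
  obtain ⟨hG1, n, hj⟩ := hG
  have hp : ∀ j, |((P ω j : ℤ) : ℝ)| ≤ A * 2 ^ s := by
    intro j
    have h2 : |P ω j| ≤ ((A * 2 ^ s : ℕ) : ℤ) := by
      fin_cases j
      · have := hP ω hω 0
        simpa [v3] using this
      · have := hP ω hω 1
        simpa [v3] using this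
    exact_mod_cast h2
  have ht : |((τ ω : ℤ) : ℝ)| ≤ A * 2 ^ s := by
    have h3 : |τ ω| ≤ ((A * 2 ^ s : ℕ) : ℤ) := by
      have := hP ω hω 2
      simpa [v3] using this
    exact_mod_cast h3
  exact absurd (hgd.fin (U := fun n => (U ω n : ℝ)) (U' := fun n => (U' ω n : ℝ))
    (p := fun j => (P ω j : ℝ)) (t := (τ ω : ℝ)) hμ0 hB hR hν (hEb ω hω hG1).1
    (hF5 ω hω hG1) (hAb ω hω hG1) (hA5 ω hω hG1) (hdet ω hω hG1) (hT0 ω hω hG1) (hT5 ω hω hG1) hp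
    ht (rel_dif (g1 ω hω hG1) (g2 ω hω hG1)) n) (not_le.mpr hj)

end Pool.D2A
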