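import Pool.Agent.H42.D2.Nhn

/-!
# The velocities are in no closed hyperplane, given the time and the corner: the frame alone

`nh_frn`: `NoHyp` for the velocities and the record `kzF` of the ball, for every event which is a
fixed part of the class, for all closed polynomials `A1`, `A2`. The record may contain the closed charts `G'` of a deeper window `w`: the
corner is few values given these charts and the time.
-/

set_option autoImplicit false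

namespace Pool.NHN

open Finset Real MvPolynomial
open Pool.Agent.H49.Ent Pool.Agent.H32.Dense Pool.STK Pool.KA Pool.KSAT Pool.K2S Pool.PB
open Pool.S6C Pool.GEN Pool.D2R Pool.D2Z Pool.D2F Pool.D2G30 Pool.ISO Pool.CHT Pool.CHX Pool.V1E
open Pool.D2Con Pool.NHZ
open Pool.PB.Trl (rt rt_mem t_rt)
open Pool.LBT (ThrOf)

section one

variable {m J : ℕ} {F : Fam m J} {c : ℕ → Fin m} {r D MB q₀ Q x u e : ℕ}
  {s : ℕ → ℕ} {qe : Fin r → ℕ} {o : ℕ → ℕ} {g g₀ : ℕ → ℕ → ℕ} {B : F.Ω → Prop}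
  {G : ℕ → PtT F → ℕ → MvPolynomial (Option (Fin m)) ℝ}
  {H : ℕ → LnT F → ℕ → MvPolynomial (Option (Fin m)) ℝ}

/-- **The corner is few values given the charts of the deep ball and the time.** -/
theorem crn_near (W : FrN F c r D MB q₀ Q x u e s qe o g g₀ B G H)
    {w : ℕ} {G' : PtT F → ℕ → MvPolynomial (Option (Fin m)) ℝ} {g' : ℕ → ℕ}
    (hpos : ∀ ω, B ω → ∀ l < r, |F.x ω (c l) - eval (bt F ω) (G' (ptr F J ω) l)| ≤ 1 / 2 ^ g' l)
    (hn3 : ∀ l < r, s l + Q + 2 ≤ g' l)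
    (hbal : ∀ ω, B ω → ∀ l < r, ∀ b, NBx c (G' (ptr F J ω)) g' w (F.t ω) l b →
      |eval b (Gno (c l) J J (fun y => G 0 y l) (ptr F J ω)) - eval b (G' (ptr F J ω) l)| ≤
        1 / 2 ^ (s l + Q + 2))
    {ω ω' : F.Ω} (hω : B ω) (hω' : B ω') (hT : F.T ω = F.T ω')
    (h3 : ∀ l < r, G' (ptr F J ω) l = G' (ptr F J ω') l)
    (h0 : ∀ l < r, G 0 (ptr F J ω) l = G 0 (ptr F J ω') l) (i : Fin r) :
    |((crF F c s r (o 1) Q (G 0) ω i - crF F c s r (o 1) Q (G 0) ω' i : ℤ) : ℝ)| ≤ 2 := by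
  have ht : F.t ω = F.t ω' := by
    unfold Fam.t
    rw [hT]
  have hir : i.val < r := i.isLt
  -- the boxes
  have hb : ∀ ν : F.Ω, B ν → F.t ω = F.t ν → (∀ l < r, G' (ptr F J ω) l = G' (ptr F J ν) l) →
      |eval (bt F ν) (Gno (c i) J J (fun y => G 0 y i) (ptr F J ω)) -
        eval (bt F ν) (G' (ptr F J ω) i)| ≤ 1 / 2 ^ (s i + Q + 2) ∧
      |bt F ν (some (c i)) - eval (bt F ν) (G' (ptr F J ω) i)| ≤ 1 / 2 ^ (s i + Q + 2) := by
    intro ν hν htν hGν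
    have hbox : NBx c (G' (ptr F J ω)) g' w (F.t ω) i (bt F ν) := by
      refine ⟨?_, fun l hl => ?_⟩
      · show |F.t ν - F.t ω| ≤ _
        rw [htν, sub_self, abs_zero]
        positivity
      · rw [hGν l (hl.trans hir)]
        exact hpos ν hν l (hl.trans hir)
    refine ⟨hbal ω hω i hir (bt F ν) hbox, ?_⟩
    have h3 := hpos ν hν i hir
    rw [← hGν i hir] at h3
    exact h3.trans (one_div_le_one_div_of_le (by positivity)
      (pow_le_pow_right₀ (by norm_num) (hn3 i hir)))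
  obtain ⟨a1, a2⟩ := hb ω hω rfl fun _ _ => rfl
  obtain ⟨b1, b2⟩ := hb ω' hω' ht h3
  -- the chart of the first window
  have e1 : ∀ b : Option (Fin m) → ℝ, eval b (Gno (c i) J J (fun y => G 0 y i) (ptr F J ω)) =
      eval b (G 0 (ptr F J ω) i) + (((ptr F J ω).1 (c i) : ℝ) / 2 ^ J -
        eval (bho J J (ptr F J ω)) (G 0 (ptr F J ω) i)) := fun b => by
    unfold Gno
    rw [map_add, eval_C]
  rw [e1] at a1 b1
  obtain ⟨K, hK⟩ : ∃ K : ℝ, K = ((ptr F J ω).1 (c i) : ℝ) / 2 ^ J -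
    eval (bho J J (ptr F J ω)) (G 0 (ptr F J ω) i) := ⟨_, rfl⟩
  rw [← hK] at a1 b1
  obtain ⟨Y, hY⟩ : ∃ Y : ℝ, Y = 1 / 2 ^ (s i + Q + 2) := ⟨_, rfl⟩
  rw [← hY] at a1 a2 b1 b2
  have key : |(bt F ω (some (c i)) - eval (bt F ω) (G 0 (ptr F J ω) i)) -
      (bt F ω' (some (c i)) - eval (bt F ω') (G 0 (ptr F J ω) i))| ≤ 4 * Y := by
    rw [abs_le] at a1 a2 b1 b2 ⊢
    constructor <;> linarith only [a1.1, a1.2, a2.1, a2.2, b1.1, b1.2, b2.1, b2.2]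
  -- the corners
  rw [W.crn, W.crn]
  show |((⌊2 ^ Q * yp c s r (trn r (G 0 (ptr F J ω))) (bt F ω) (some i)⌋ -
    ⌊2 ^ Q * yp c s r (trn r (G 0 (ptr F J ω'))) (bt F ω') (some i)⌋ : ℤ) : ℝ)| ≤ _
  have e2 : yp c s r (trn r (G 0 (ptr F J ω))) (bt F ω) (some i) =
      2 ^ s i * (bt F ω (some (c i)) - eval (bt F ω) (G 0 (ptr F J ω) i)) := by
    show 2 ^ s i * (bt F ω (some (c i)) - eval (bt F ω) (trn r (G 0 (ptr F J ω)) i)) = _
    rw [trn_eq hir]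
  have e3 : yp c s r (trn r (G 0 (ptr F J ω'))) (bt F ω') (some i) =
      2 ^ s i * (bt F ω' (some (c i)) - eval (bt F ω') (G 0 (ptr F J ω) i)) := by
    show 2 ^ s i * (bt F ω' (some (c i)) - eval (bt F ω') (trn r (G 0 (ptr F J ω')) i)) = _
    rw [trn_eq hir, ← h0 i hir]
  rw [e2, e3]
  obtain ⟨α, hα⟩ : ∃ α : ℝ, α = bt F ω (some (c i)) - eval (bt F ω) (G 0 (ptr F J ω) i) :=
    ⟨_, rfl⟩
  obtain ⟨β, hβ⟩ : ∃ β : ℝ, β = bt F ω' (some (c i)) - eval (bt F ω') (G 0 (ptr F J ω) i) :=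
    ⟨_, rfl⟩
  rw [← hα, ← hβ] at key ⊢
  have f1 := Int.floor_le ((2 : ℝ) ^ Q * (2 ^ s i * α))
  have f2 := Int.lt_floor_add_one ((2 : ℝ) ^ Q * (2 ^ s i * α))
  have f3 := Int.floor_le ((2 : ℝ) ^ Q * (2 ^ s i * β))
  have f4 := Int.lt_floor_add_one ((2 : ℝ) ^ Q * (2 ^ s i * β))
  have h5 : |(2 : ℝ) ^ Q * (2 ^ s i * α) - 2 ^ Q * (2 ^ s i * β)| ≤ 1 := by
    have e4 : (2 : ℝ) ^ Q * (2 ^ s i * α) - 2 ^ Q * (2 ^ s i * β) =
        2 ^ (s i + Q) * (α - β) := by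
      rw [pow_add]
      ring
    rw [e4, abs_mul, abs_of_pos (by positivity : (0 : ℝ) < 2 ^ (s i + Q))]
    refine (mul_le_mul_of_nonneg_left key (by positivity)).trans (le_of_eq ?_)
    rw [hY, pow_add _ _ 2]
    field_simp
    norm_num
  push_cast
  rw [abs_le] at h5 ⊢
  constructor <;> linarith only [h5.1, h5.2, f1, f2, f3, f4]

/-- The charts and the time of a ball. -/
noncomputable def zcB (F : Fam m J) {V V' : Type} (v : F.Ω → V) (v' : F.Ω → V') (r w : ℕ)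
    (G : ℕ → PtT F → ℕ → MvPolynomial (Option (Fin m)) ℝ)
    (A₁ A₂ : PtT F → MvPolynomial (Option (Fin m)) ℝ)
    (G' : PtT F → ℕ → MvPolynomial (Option (Fin m)) ℝ) (ω : F.Ω) :
    (V' × MvPolynomial (Option (Fin m)) ℝ) ×
      ((V × ((ℕ → MvPolynomial (Option (Fin m)) ℝ) × MvPolynomial (Option (Fin m)) ℝ)) ×
        ((ℕ → MvPolynomial (Option (Fin m)) ℝ) × ℕ)) :=
  ((v' ω, A₂ (ptr F J ω)),
    ((v ω, (trn r (G 0 (ptr F J ω)), A₁ (ptr F J ω))), (trn r (G' (ptr F J ω)), F.T1 w ω)))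

/-- **Time and corner are few bits given the charts of the deep ball.** -/
theorem TC_few (W : FrN F c r D MB q₀ Q x u e s qe o g g₀ B G H)
    {w : ℕ} {G' : PtT F → ℕ → MvPolynomial (Option (Fin m)) ℝ} {g' : ℕ → ℕ}
    (hpos : ∀ ω, B ω → ∀ l < r, |F.x ω (c l) - eval (bt F ω) (G' (ptr F J ω) l)| ≤ 1 / 2 ^ g' l)
    (hn3 : ∀ l < r, s l + Q + 2 ≤ g' l)
    (hbal : ∀ ω, B ω → ∀ l < r, ∀ b, NBx c (G' (ptr F J ω)) g' w (F.t ω) l b →
      |eval b (Gno (c l) J J (fun y => G 0 y l) (ptr F J ω)) - eval b (G' (ptr F J ω) l)| ≤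
        1 / 2 ^ (s l + Q + 2))
    {q : F.Ω → ℝ} (hq : IsLaw q) (hqB : ∀ ω, 0 < q ω → B ω) {V V' : Type} (v : F.Ω → V)
    (v' : F.Ω → V') (A₁ A₂ : PtT F → MvPolynomial (Option (Fin m)) ℝ) (hw : w ≤ J) :
    CH q (fun ω => (F.T ω, crF F c s r (o 1) Q (G 0) ω)) (zcB F v v' r w G A₁ A₂ G') ≤
      ((J : ℝ) - w) * Real.log 2 + r * Real.log 5 := by
  have h0 := hq.nonneg
  have e1 : CH q (fun ω => (F.T ω, crF F c s r (o 1) Q (G 0) ω)) (zcB F v v' r w G A₁ A₂ G') ≤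
      CH q (fun ω => (crF F c s r (o 1) Q (G 0) ω, F.T ω)) (zcB F v v' r w G A₁ A₂ G') := by
    refine CH_mono_left h0 fun ω ω' _ _ hh => ?_
    simp only [Prod.mk.injEq] at hh ⊢
    exact ⟨hh.1.2, hh.1.1⟩
  refine e1.trans ?_
  rw [CH_chain h0]
  refine add_le_add ?_ ?_
  · refine (CH_mono_cond h0 fun ω ω' _ _ hh => ?_).trans (T_few hq hw)
    unfold zcB at hh
    simp only [Prod.mk.injEq] at hh
    exact hh.2.2.2
  · have h3 := CH_le_vec h0 hq.sum_one (crF F c s r (o 1) Q (G 0))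
      (fun ω => (F.T ω, zcB F v v' r w G A₁ A₂ G' ω)) (fun _ => 2)
      (fun ω ω' hω hω' hh i => by
        unfold zcB at hh
        simp only [Prod.mk.injEq] at hh
        obtain ⟨k1, ⟨k2, k3⟩, ⟨k4, k5, k6⟩, k7, k8⟩ := hh
        refine crn_near W hpos hn3 hbal (hqB ω hω) (hqB ω' hω') k1 (fun l hl => ?_)
          (fun l hl => ?_) i
        · have := congrFun k7 l
          rwa [trn_eq hl, trn_eq hl] at this
        · have := congrFun k5 l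
          rwa [trn_eq hl, trn_eq hl] at this)
    refine h3.trans (mul_le_mul_of_nonneg_left (le_of_eq ?_) (Nat.cast_nonneg r))
    rw [Ex_const hq.sum_one]
    norm_num

theorem det_zcB_p {q : F.Ω → ℝ} {V V' : Type} {v : F.Ω → V} {v' : F.Ω → V'} (w : ℕ)
    (A₁ A₂ : PtT F → MvPolynomial (Option (Fin m)) ℝ)
    (G' : PtT F → ℕ → MvPolynomial (Option (Fin m)) ℝ)
    (hv : Det q (fun ω => ptr F J ω) v) (hv' : Det q (fun ω => ptr F J ω) v') :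
    Det q (fun ω => ptr F J ω) (zcB F v v' r w G A₁ A₂ G') := by
  intro ω ω' hω hω' hh
  beta_reduce at hh
  have h1 := hv ω ω' hω hω' hh
  have h2 := hv' ω ω' hω hω' hh
  have h3 : F.T1 w ω = F.T1 w ω' := by
    unfold Fam.T1
    rw [(bt_near hh).1]
  unfold zcB
  rw [h1, h2, h3, hh]

theorem det_zcB_s (W : FrN F c r D MB q₀ Q x u e s qe o g g₀ B G H)
    {w : ℕ} {G' : PtT F → ℕ → MvPolynomial (Option (Fin m)) ℝ}
    {H' : LnT F → ℕ → MvPolynomial (Option (Fin m)) ℝ} (hw : o 2 ≤ w) (hwJ : w ≤ J)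
    {A₁ A₂ : PtT F → MvPolynomial (Option (Fin m)) ℝ}
    {R₁ R₂ : LnT F → MvPolynomial (Option (Fin m)) ℝ}
    (hA₁ : ∀ ω, B ω → A₁ (ptr F J ω) = R₁ (slam F (o 2) ω))
    (hA₂ : ∀ ω, B ω → A₂ (ptr F J ω) = R₂ (slam F (o 2) ω))
    (hcl3 : ∀ ω, B ω → ∀ l < r, G' (ptr F J ω) l = H' (slam F w ω) l)
    {q : F.Ω → ℝ} (hqB : ∀ ω, 0 < q ω → B ω) {V V' : Type} {v : F.Ω → V} {v' : F.Ω → V'}
    (hv : Det q (slam F w) v) (hv' : Det q (slam F w) v') :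
    Det q (slam F w) (zcB F v v' r w G A₁ A₂ G') := by
  intro ω ω' hω hω' hh
  have h1 := hv ω ω' hω hω' hh
  have h2 := hv' ω ω' hω hω' hh
  have h3 : F.T1 w ω = F.T1 w ω' := (Prod.ext_iff.1 (Prod.ext_iff.1 hh).2).2
  have hco : ∀ {k : ℕ}, k ≤ w → slam F k ω = slam F k ω' := fun {k} hk => by
    rw [slam_coarse F hk hwJ ω, slam_coarse F hk hwJ ω', hh]
  have h21 := hco hw
  have h01 := hco (k := o 0) (by have := W.o1; have := W.o2; omega)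
  have h4 : A₂ (ptr F J ω) = A₂ (ptr F J ω') := by
    rw [hA₂ ω (hqB ω hω), hA₂ ω' (hqB ω' hω'), h21]
  have h5 : trn r (G 0 (ptr F J ω)) = trn r (G 0 (ptr F J ω')) := by
    funext l
    unfold trn
    split_ifs with hl
    · rw [W.cl0 ω (hqB ω hω) l hl, W.cl0 ω' (hqB ω' hω') l hl, h01]
    · rfl
  have h7 : trn r (G' (ptr F J ω)) = trn r (G' (ptr F J ω')) := by
    funext l
    unfold trn
    split_ifs with hl
    · rw [hcl3 ω (hqB ω hω) l hl, hcl3 ω' (hqB ω' hω') l hl, hh]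
    · rfl
  have h6 : A₁ (ptr F J ω) = A₁ (ptr F J ω') := by
    rw [hA₁ ω (hqB ω hω), hA₁ ω' (hqB ω' hω'), h21]
  unfold zcB
  rw [h1, h2, h3, h4, h5, h6, h7]

end one

/-- **The velocities are in no hyperplane which is a function of the record of the ball, of the
time and of the corner.** -/
theorem nh_frn (D r : ℕ) (hr : 1 ≤ r) : ∃ C : ℕ, ∀ {m : ℕ} {θ : ℝ} {S : PCl m}
    {P : List (Fin m) × Fin m → ℝ → ℝ → ℝ} (_ : ThrOf (chsys m θ) S P) (c : ℕ → Fin m) (a : ℚ)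
    (e h κ c₀ : ℝ), 0 ≤ a → a ≤ 1 → e < θ * a → 0 < h → (∀ l < r, bet P c l a a + h ≤ 1) →
    0 < κ → 0 < c₀ →
    ∃ ψ : ℝ, 0 < ψ ∧ Bas S (fun J F A => ∀ {MB q₀ Q x u e₀ : ℕ} {s : ℕ → ℕ}
      {qe : Fin r → ℕ} {o : ℕ → ℕ} {g g₀ : ℕ → ℕ → ℕ} {B : F.Ω → Prop}
      {G : ℕ → PtT F → ℕ → MvPolynomial (Option (Fin m)) ℝ}
      {H : ℕ → LnT F → ℕ → MvPolynomial (Option (Fin m)) ℝ},
      FrN F c r D MB q₀ Q x u e₀ s qe o g g₀ B G H → Sub B A →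
      κ * Pe F.p A ≤ Pe F.p B →
      ∀ {A₁ A₂ : PtT F → MvPolynomial (Option (Fin m)) ℝ}
      {R₁ R₂ : LnT F → MvPolynomial (Option (Fin m)) ℝ},
      (∀ ω, B ω → A₁ (ptr F J ω) = R₁ (slam F (o 2) ω)) →
      (∀ ω, B ω → A₂ (ptr F J ω) = R₂ (slam F (o 2) ω)) →
      ∀ {w : ℕ} {G' : PtT F → ℕ → MvPolynomial (Option (Fin m)) ℝ}
      {H' : LnT F → ℕ → MvPolynomial (Option (Fin m)) ℝ} {g' : ℕ → ℕ},
      o 2 ≤ w → w ≤ ⌊(a : ℝ) * J⌋₊ →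
      (∀ ω, B ω → ∀ l < r, G' (ptr F J ω) l = H' (slam F w ω) l) →
      (∀ ω, B ω → ∀ l < r, |F.x ω (c l) - eval (bt F ω) (G' (ptr F J ω) l)| ≤ 1 / 2 ^ g' l) →
      (∀ l < r, s l + Q + 2 ≤ g' l) →
      (∀ ω, B ω → ∀ l < r, ∀ b, NBx c (G' (ptr F J ω)) g' w (F.t ω) l b →
        |eval b (Gno (c l) J J (fun y => G 0 y l) (ptr F J ω)) - eval b (G' (ptr F J ω) l)| ≤
          1 / 2 ^ (s l + Q + 2)) →
      ∀ {Gn N₀ : ℕ}, N₀ = C * (u + x + Gn + 1) → N₀ ≤ MB →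
      e₀ + N₀ ≤ ⌊e * J⌋₊ → (∀ l < r, e₀ + s l + Q + N₀ ≤ J) →
      (∀ l < r, ⌊(bet P c l a a + h) * J⌋₊ + w ≤ s l + Q + Gn + ⌊(a : ℝ) * J⌋₊) →
      ∀ {V V' : Type} {v : F.Ω → V} {v' : F.Ω → V'},
      Det (Pool.Agent.H49.Ent.cond F.p B True) (fun ω => ptr F J ω) v →
      Det (Pool.Agent.H49.Ent.cond F.p B True) (fun ω => ptr F J ω) v' →
      Det (Pool.Agent.H49.Ent.cond F.p B True) (slam F w) v →
      Det (Pool.Agent.H49.Ent.cond F.p B True) (slam F w) v' →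
      (J : ℝ) * Real.log 2 - ψ * J ≤ CH (Pool.Agent.H49.Ent.cond F.p B True) F.T
        (fun ω => (F.l ω, F.Z ω)) →
      ∀ Λ : ℝ, (N₀ : ℝ) ≤ Λ →
      NoHyp (Pool.Agent.H49.Ent.cond F.p B True) (fun ω => Xe r qe (eL c s r (o 1) qe
        (frH F r q₀ (H 0) (slam F (o 1) ω)) (slam F (o 1) ω)))
        (kzF F c s r (o 1) Q v v' (G 0) A₁ A₂) (2 ^ (-Λ)) c₀) := by
  classical
  obtain ⟨C, hhf⟩ := hyp_frm D r
  refine ⟨C, ?_⟩
  intro m θ S P hP c a e h κ c₀ ha0 ha he hh h1 hκ hc₀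
  obtain ⟨δ₁, hδ₁, τ₁, hτ₁, J₁, hv₁⟩ := hhf hP c a e h ha0 ha he hh h1
  obtain ⟨τ₂, hτ₂, J₂, hv₂⟩ := Pool.VIS24.pos_thr hP c 0 a a e h ha0 le_rfl ha he hh
    (h1 0 (by omega))
  obtain ⟨R, hR⟩ : ∃ R : ℝ, R = r * Real.log 5 := ⟨_, rfl⟩
  have hR0 : 0 ≤ R := by
    rw [hR]
    exact mul_nonneg (Nat.cast_nonneg r) (Real.log_nonneg (by norm_num))
  obtain ⟨ψ, hψ⟩ : ∃ ψ : ℝ, ψ = δ₁ * c₀ / 4 := ⟨_, rfl⟩
  have hψ0 : 0 < ψ := by
    rw [hψ]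
    positivity
  obtain ⟨Y, hY⟩ : ∃ Y : ℝ, Y = r / κ * (2 / c₀) * Real.exp (2 * (R + 1) / c₀) := ⟨_, rfl⟩
  obtain ⟨J₃, hJ₃⟩ := exists_nat_ge (2 * Y / δ₁)
  refine ⟨ψ, hψ0, min τ₁ τ₂, lt_min hτ₁ hτ₂, max J₁ (max J₂ J₃), ?_⟩
  intro J hJ F A hA MB q₀ Q x u e₀ s qe o g g₀ B G H W hBA hAB A₁ A₂ R₁ R₂ hA₁ hA₂ w G' H'
    g' hw2 hwa hcl3 hpos hn3 hbal Gn N₀ hN₀ hNM heN hJN hbN V V' v v' hvp hvp' hvs hvs' hT Λ hΛ
  have hJ1 : J₁ ≤ J := (le_max_left _ _).trans hJ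
  have hJ2 : J₂ ≤ J := ((le_max_left _ _).trans (le_max_right _ _)).trans hJ
  have hJ3 : J₃ ≤ J := ((le_max_right _ _).trans (le_max_right _ _)).trans hJ
  have hJ0 : (0 : ℝ) ≤ J := Nat.cast_nonneg J
  have hwJ : w ≤ J := hwa.trans (Nat.floor_le_of_le (by
    have h3 : (a : ℝ) ≤ 1 := by exact_mod_cast ha
    nlinarith))
  have hA0 := hv₂ J hJ2 F A (S.mono (min_le_right _ _) hA)
  have hB0 : 0 < Pe F.p B := (mul_pos hκ hA0).trans_le hAB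
  obtain ⟨q, hq⟩ : ∃ q, q = Pool.Agent.H49.Ent.cond F.p B True := ⟨_, rfl⟩
  have hql : IsLaw q := by
    rw [hq]
    exact isLaw_cond F.isLaw hB0
  have hqB : ∀ ω, 0 < q ω → B ω := fun ω hω => by
    rw [hq] at hω
    exact of_eq_true ((cond_pos_iff F.isLaw.nonneg B True ω).1 hω).2
  rw [← hq] at hvp hvp' hvs hvs' hT ⊢
  have hden : ∀ ω, q ω * Pe F.p A ≤ 1 / κ * F.p ω := by
    intro ω
    rw [hq]
    refine cond_dens (r := F.p) (q := F.p) B (A := Pe F.p A) (M := Pe F.p A)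
      (c := κ * Pe F.p A) hA0.le (fun ω => F.isLaw.nonneg ω) (fun ω => by rw [mul_comm])
      (mul_pos hκ hA0) hAB ω |>.trans (le_of_eq ?_)
    congr 1
    field_simp
  -- no hyperplane given the charts of the balls
  have hzs := det_zcB_s W hw2 hwJ hA₁ hA₂ hcl3 hqB hvs hvs'
  have n1 := hv₁ J hJ1 F A (S.mono (min_le_left _ _) hA) W hN₀ hw2 hwa hNM heN hJN hbN hql
    (by positivity : (0 : ℝ) ≤ 1 / κ) (fun ω hω => ⟨hBA ω (hqB ω hω), hqB ω hω⟩)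
    hden (Z := zcB F v v' r w G A₁ A₂ G') (det_zcB_p w A₁ A₂ G' hvp hvp') hzs
  -- time and corner
  have hX : Det q (slam F w) (fun ω => Xe r qe (eL c s r (o 1) qe
      (frH F r q₀ (H 0) (slam F (o 1) ω)) (slam F (o 1) ω))) := by
    intro ω ω' hω hω' hs
    have h13 : o 1 ≤ w := by have := W.o2; omega
    beta_reduce
    rw [slam_coarse F h13 hwJ ω, slam_coarse F h13 hwJ ω', hs]
  have hI1 := TC_few W hpos hn3 hbal hql hqB v v' A₁ A₂ hwJ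
  have hI2 := Pool.LA91.t_full hql hwJ hT
  have hI3 : CH q (twF F w) (slam F w) ≤
      CH q (fun ω => (F.T ω, crF F c s r (o 1) Q (G 0) ω)) (slam F w) := by
    refine CH_mono_left hql.nonneg fun ω ω' _ _ hs => ?_
    simp only [Prod.mk.injEq] at hs
    unfold twF
    rw [hs.1.1]
  have hI : CH q (fun ω => (F.T ω, crF F c s r (o 1) Q (G 0) ω)) (zcB F v v' r w G A₁ A₂ G') ≤
      CH q (fun ω => (F.T ω, crF F c s r (o 1) Q (G 0) ω)) (slam F w) + (ψ * J + R) := by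
    have e1 : Real.log ((2 ^ (J - w) : ℕ) : ℝ) = ((J : ℝ) - w) * Real.log 2 := by
      push_cast
      rw [Real.log_pow, Nat.cast_sub hwJ]
    rw [e1] at hI2
    rw [← hR] at hI1
    linarith
  have hπ : (r : ℝ) * (1 / κ * Real.exp (-(δ₁ * J))) <
      c₀ / 2 * Real.exp (-(2 * ((ψ * J + R) + 1) / c₀)) := by
    have e1 : 2 * ((ψ * J + R) + 1) / c₀ = δ₁ * J / 2 + 2 * (R + 1) / c₀ := by
      rw [hψ]
      field_simp
      ring
    have e2 : (r : ℝ) * (1 / κ * Real.exp (-(δ₁ * J))) =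
        c₀ / 2 * (Y * Real.exp (-(δ₁ * J / 2 + 2 * (R + 1) / c₀) - δ₁ * J / 2)) := by
      rw [hY]
      have e3 : Real.exp (2 * (R + 1) / c₀) *
          Real.exp (-(δ₁ * J / 2 + 2 * (R + 1) / c₀) - δ₁ * J / 2) = Real.exp (-(δ₁ * J)) := by
        rw [← Real.exp_add]
        congr 1
        ring
      rw [← e3]
      field_simp
    rw [e1, e2]
    refine mul_lt_mul_of_pos_left ?_ (by positivity)
    rw [Real.exp_sub, ← mul_div_assoc, div_lt_iff₀ (Real.exp_pos _), mul_comm]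
    refine mul_lt_mul_of_pos_left ?_ (Real.exp_pos _)
    have h3 : Y ≤ δ₁ * J / 2 := by
      rw [div_le_iff₀ hδ₁] at hJ₃
      have h4 : (J₃ : ℝ) ≤ J := by exact_mod_cast hJ3
      nlinarith
    have := Real.add_one_le_exp (δ₁ * J / 2)
    linarith
  have n2 := n1.time hql (Nat.succ_pos r) (fun ω => (F.T ω, crF F c s r (o 1) Q (G 0) ω))
    (slam F w) hX hzs hc₀ (by positivity : 0 ≤ ψ * J + R) hI hπ
  refine NoHyp.mono_eta hql.nonneg (n2.coarse hql.nonneg fun ω ω' _ _ hh => ?_) ?_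
  · unfold zcB at hh
    simp only [Prod.mk.injEq] at hh
    obtain ⟨⟨⟨k1, k2⟩, ⟨k3, k4, k5⟩, k6, k6'⟩, k7, k8⟩ := hh
    unfold kzF kaF kwF
    rw [k1, k2, k3, k4, k5, k7, k8]
  · rw [one_div, ← Real.rpow_natCast, ← Real.rpow_neg (by norm_num)]
    exact Real.rpow_le_rpow_of_exponent_le (by norm_num) (by linarith)

end Pool.NHN
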