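import Pool.Agent.H42.D2.Nho
import Pool.Agent.H73.D2.Tml

/-!
# The hypothesis `NhN`: the velocities are in no hyperplane, target `N - P(p, u)`

`WN.frn`: the frame of `WN`. `nhN_cls`: in a class with thresholds and full time, for the windows `WN`
with a deeper chain window `o d`.
-/

set_option autoImplicit false

namespace Pool.NHN

open Finset Real MvPolynomial
open Pool.Agent.H49.Ent Pool.Agent.H32.Dense Pool.STK Pool.KA Pool.KSAT Pool.K2S Pool.PB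
open Pool.S6C Pool.GEN Pool.D2R Pool.D2Z Pool.D2F Pool.D2G30 Pool.ISO Pool.CHT Pool.CHX Pool.V1E
open Pool.D2Con Pool.RCD Pool.NHZ
open Pool.LBT (ThrOf)

/-- The numbers of `nhN_cls`. `d`: the index of the deeper window. -/
structure NhNN {m : ℕ} (r d : ℕ) (P : List (Fin m) × Fin m → ℝ → ℝ → ℝ) (c : ℕ → Fin m)
    (θ C Eb η₀ ζ χ δ C' : ℝ) (o : ℕ → ℝ) (lv : ℕ → ℕ → ℝ) (aq : ℚ) (e h gn : ℝ) : Prop where
  C1 : 1 ≤ C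
  η0 : 0 ≤ η₀
  ζ0 : 0 ≤ ζ
  χ0 : ζ < χ
  E0 : 0 ≤ Eb
  gn0 : 0 ≤ gn
  o2 : 0 ≤ o 2
  o20 : o 2 ≤ o 0
  o03 : o 0 < o 3
  δ0 : 0 < δ
  δ1 : δ ≤ 1
  l0 : ∀ l < r, 0 ≤ lv 0 l
  oda : o d ≤ aq
  a1 : (aq : ℝ) ≤ 1
  ea : e < θ * aq
  h0 : 0 < h
  b1 : ∀ l < r, bet P c l aq aq + h ≤ 1
  gain : ∀ l < r, bet P c l aq aq + h + o d < lv 0 l + (o 3 - o 0) + gn + aq
  lv2 : ∀ l < r, lv 0 l - o 0 - (lv 2 l - o 2) ≤ ζ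
  lv2' : ∀ l < r, lv 2 l - o 2 - (lv 0 l - o 0) ≤ ζ
  lvd : ∀ l < r, lv 0 l - o 0 - (lv d l - o d) ≤ ζ
  o2d : o 2 + η₀ ≤ o d
  o3d : ζ + (C + 1) * η₀ < o d - o 3
  sm : C' * (χ + gn) < δ * (o 3 - o 0)
  e2 : Eb + 2 * η₀ + C' * (χ + gn) < e
  top : ∀ l < r, Eb + 2 * η₀ + lv 0 l + (o 3 - o 0) + C' * (χ + gn) < 1

/-- **The hypothesis `NhN`**. -/
theorem nhN_cls (Dw r : ℕ) (hr : 1 ≤ r) : ∃ C' : ℝ, 1 ≤ C' ∧ ∀ {m D Dr N N₂ d : ℕ} {S : PCl m}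
    {R : ℕ → Prop} {P : List (Fin m) × Fin m → ℝ → ℝ → ℝ} {θ : ℝ} {c : ℕ → Fin m}
    {C a Eb ε₀ η₀ ζ χ mb : ℝ} {Pt : ℝ → ℝ → ℝ} {o : ℕ → ℝ} {lv be : ℕ → ℕ → ℝ} {κ : ℝ}
    {qf : ℕ → Fin r → ℕ} {δ : ℝ} {aq : ℚ} {e h gn : ℝ}, d ≤ N₂ → ThrOf (chsys m θ) S P →
    (∀ ψ : ℝ, 0 < ψ → Bas S (fun J F A => 0 < Pe F.p A ∧ (J : ℝ) * Real.log 2 - ψ * J ≤
      CH (Pool.Agent.H49.Ent.cond F.p A True) F.T (fun ω => (F.l ω, F.Z ω)))) →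
    NhNN r d P c θ C Eb η₀ ζ χ δ C' o lv aq e h gn →
    NhN S c r D Dw Dr N N₂ R C a Eb ε₀ η₀ χ mb Pt o lv be κ qf δ := by
  obtain ⟨C₁, hnh⟩ := nh_frn Dw r hr
  refine ⟨2 * C₁ + 32, by
    have : (0 : ℝ) ≤ C₁ := Nat.cast_nonneg _
    linarith, ?_⟩
  intro m D Dr N N₂ d S R P θ c C a Eb ε₀ η₀ ζ χ mb Pt o lv be κ qf δ aq e h gn hd hP htm Nn
  have No3d := Nn.o3d
  have Nsm := Nn.sm
  have Ne2 := Nn.e2
  have Ntop := Nn.top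
  have hC := Nn.C1
  have hη := Nn.η0
  have hζ := Nn.ζ0
  have hχ := Nn.χ0
  have hχ0 : 0 < χ := by linarith
  have hgn := Nn.gn0
  have hC₁ : (0 : ℝ) ≤ C₁ := Nat.cast_nonneg _
  have ho2 := Nn.o2
  have ho20 := Nn.o20
  have ho03 := Nn.o03
  obtain ⟨k, hk⟩ : ∃ k : ℝ, k = 22 * C₁ + 60 := ⟨_, rfl⟩
  have hodq := Nn.oda
  have ho3d : o 3 < o d := by
    have h3 : 0 ≤ (C + 1) * η₀ := mul_nonneg (by linarith) hη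
    linarith
  have haq0 : (0 : ℝ) ≤ aq := by linarith
  obtain ⟨ψ, hψ, hcl⟩ := hnh hP c aq e h 1 δ (by exact_mod_cast haq0) (by exact_mod_cast Nn.a1)
    Nn.ea Nn.h0 Nn.b1
    one_pos Nn.δ0
  obtain ⟨J₁, hJ₁⟩ := lin_lt No3d k
  obtain ⟨J₂, hJ₂⟩ := lin_lt Nsm k
  obtain ⟨J₃, hJ₃⟩ := lin_lt Ne2 k
  obtain ⟨J₄, hJ₄⟩ := lin_fam (n := r) (A := fun l => Eb + 2 * η₀ + lv 0 l + (o 3 - o 0) +
    (2 * C₁ + 32) * (χ + gn)) (B := fun _ => 1) (fun l hl => Ntop l hl) k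
  obtain ⟨J₅, hJ₅⟩ := lin_fam (n := r) (A := fun l => bet P c l aq aq + h + o d)
    (B := fun l => lv 0 l + (o 3 - o 0) + gn + aq) Nn.gain k
  obtain ⟨J₆, hJ₆⟩ := lin_lt (show (0 : ℝ) < o 3 - o 0 by linarith) k
  obtain ⟨J₇, hJ₇⟩ := lin_lt hχ k
  refine Bas.mono (max (max (max J₁ J₂) (max J₃ J₄)) (max (max J₅ J₆) J₇)) (hcl.and (htm ψ hψ)) ?_
  rintro J hJ F A ⟨hcl, hA, hT⟩ b z gc gT g₀ G H T TH Gt Ht CL Cp W V V' v v' hv hv'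
  have hN₂ := W.n3
  have hWB := W.wg.wb
  have hz0d := W.wg.zz 2 (by omega) d hd Nn.o2d
  have j1 := hJ₁ J (by omega)
  have j2 := hJ₂ J (by omega)
  have j3 := hJ₃ J (by omega)
  have j4 := hJ₄ J (by omega)
  have j5 := hJ₅ J (by omega)
  have j6 := hJ₆ J (by omega)
  have j7 := hJ₇ J (by omega)
  clear hJ₁ hJ₂ hJ₃ hJ₄ hJ₅ hJ₆ hJ₇
  have hJ0 : (0 : ℝ) ≤ J := Nat.cast_nonneg J
  have mulJ : ∀ {x y : ℝ}, x ≤ y → x * J ≤ y * J := fun h => mul_le_mul_of_nonneg_right h hJ0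
  have hqA : ∀ ω, 0 < Pool.Agent.H49.Ent.cond F.p A True ω → A ω := fun ω hω =>
    of_eq_true ((cond_pos_iff F.isLaw.nonneg A True ω).1 hω).2
  have hE := Nn.E0
  have Wd := W.nw
  have l01 : ⌊o 2 * J⌋₊ ≤ ⌊o 0 * J⌋₊ := Nat.floor_le_floor (mulJ ho20)
  have f0 := flo (mul_nonneg ho2 hJ0)
  have f1 := flo (mul_nonneg (ho2.trans ho20) hJ0)
  have f2 := flo (mul_nonneg ((ho2.trans ho20).trans ho03.le) hJ0)
  have f4 := flo (mul_nonneg (((ho2.trans ho20).trans ho03.le).trans ho3d.le) hJ0)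
  have fa := flo (mul_nonneg haq0 hJ0)
  have fg := flo (mul_nonneg hgn hJ0)
  have fx := flo (mul_nonneg hχ0.le hJ0)
  have fc := flo (mul_nonneg (by linarith : (0 : ℝ) ≤ C) (mul_nonneg hη hJ0))
  have l12 : ⌊o 0 * J⌋₊ ≤ ⌊o 3 * J⌋₊ := Nat.floor_le_floor (mulJ ho03.le)
  have l24 : ⌊o 3 * J⌋₊ ≤ ⌊o d * J⌋₊ := Nat.floor_le_floor (mulJ ho3d.le)
  have l4a : ⌊o d * J⌋₊ ≤ ⌊(aq : ℝ) * J⌋₊ := Nat.floor_le_floor (mulJ Nn.oda)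
  have laJ : ⌊(aq : ℝ) * J⌋₊ ≤ J := Nat.floor_le_of_le (by
    have h3 := mulJ Nn.a1
    linarith)
  have fe := flo (mul_nonneg (by linarith : (0 : ℝ) ≤ Eb + 2 * η₀) hJ0)
  have hg4 := fun l (hl : l < r) => (hWB.g_num (k := d) (l := l) hd (by omega)).2.2.1
  have hg0 := fun l (hl : l < r) => (hWB.g_num (k := 2) (l := l) (by omega) (by omega)).1
  have hg0' := fun l (hl : l < r) => (hWB.g_num (k := 2) (l := l) (by omega) (by omega)).2.1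
  have c3 := (hWB.ev 3 (by omega)).cls
  have c4 := (hWB.ev d hd).cls
  have p4 := (hWB.ev d hd).ball.pos
  have b4 := hWB.bal 2 (by omega) d hd d hd (l01.trans (l12.trans l24)) hz0d
  obtain ⟨Q, hQ⟩ : ∃ Q : ℕ, Q = ⌊o 3 * J⌋₊ - ⌊o 0 * J⌋₊ := ⟨_, rfl⟩
  obtain ⟨q₀, hq₀⟩ : ∃ q₀ : ℕ, q₀ = ⌊o 0 * J⌋₊ - ⌊o 2 * J⌋₊ := ⟨_, rfl⟩
  obtain ⟨x, hx⟩ : ∃ x : ℕ, x = ⌊χ * J⌋₊ := ⟨_, rfl⟩
  obtain ⟨e₀, he⟩ : ∃ e₀ : ℕ, e₀ = ⌊(Eb + 2 * η₀) * J⌋₊ := ⟨_, rfl⟩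
  obtain ⟨s, hs⟩ : ∃ s : ℕ → ℕ, s = sN (lv 0) J r := ⟨_, rfl⟩
  obtain ⟨uB, huB⟩ : ∃ uB : ℕ, uB = ⌊C * (η₀ * J)⌋₊ := ⟨_, rfl⟩
  obtain ⟨q₁, hq₁, hzq₁⟩ := Wd.z02
  have hrad := (hWB.ev 2 (by omega)).rad q₁ hq₁
  rw [← hs] at Wd ⊢
  rw [← hQ, ← hq₀] at Wd ⊢
  rw [← hx, ← he] at Wd
  rw [← he] at fe
  rw [← hx] at fx
  rw [← huB] at fc b4
  have hsl : ∀ l < r, (s l : ℝ) ≤ lv 0 l * J ∧ lv 0 l * J - 1 ≤ s l := fun l hl => by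
    rw [hs, sN_lt hl]
    exact flo (mul_nonneg (Nn.l0 l hl) hJ0)
  have hQr : (Q : ℝ) = ⌊o 3 * J⌋₊ - ⌊o 0 * J⌋₊ := by rw [hQ, Nat.cast_sub l12]
  have hQl : (o 3 - o 0) * J - 1 ≤ Q := by rw [hQr]; linarith [f1.2, f2.2, f1.1, f2.1]
  have hQu : (Q : ℝ) ≤ (o 3 - o 0) * J + 1 := by rw [hQr]; linarith [f1.2, f2.2, f1.1, f2.1]
  obtain ⟨Gn, hGn⟩ : ∃ Gn : ℕ, Gn = ⌊gn * J⌋₊ := ⟨_, rfl⟩
  rw [← hGn] at fg
  obtain ⟨N₀, hN₀⟩ : ∃ N₀ : ℕ, N₀ = C₁ * (x + x + Gn + 1) := ⟨_, rfl⟩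
  have hXJ : 0 ≤ χ * J := mul_nonneg hχ0.le hJ0
  have hgJ : 0 ≤ gn * J := mul_nonneg hgn hJ0
  have hN₀r : (N₀ : ℝ) ≤ (2 * C₁ + 32) * (χ + gn) * J + 22 * C₁ := by
    rw [hN₀]
    push_cast
    have h4 : (x : ℝ) + x + Gn + 1 ≤ 2 * (χ * J) + 22 + gn * J := by linarith [fg.1, fx.1]
    have h5 := mul_le_mul_of_nonneg_left h4 hC₁
    have h6 : 0 ≤ (C₁ : ℝ) * (gn * J) := mul_nonneg hC₁ hgJ
    have e1 : (2 * (C₁ : ℝ) + 32) * (χ + gn) * J + 22 * C₁ =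
        C₁ * (2 * (χ * J) + 22 + gn * J) + 32 * (χ * J) + C₁ * (gn * J) + 32 * (gn * J) := by
      ring
    rw [e1]
    linarith
  have hN₀Q : (N₀ : ℝ) ≤ δ * Q := by
    have h4 := mul_le_mul_of_nonneg_left hQl Nn.δ0.le
    rw [hk] at j2
    linarith [Nn.δ1]
  have hN₀Q' : N₀ ≤ Q := by
    have h4 : (N₀ : ℝ) ≤ Q := hN₀Q.trans (by
      have := mul_le_mul_of_nonneg_right Nn.δ1 (Nat.cast_nonneg Q : (0 : ℝ) ≤ Q)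
      linarith)
    exact_mod_cast h4
  have hdet : ∀ {Y : Type} {y : F.Ω → Y} {w : ℝ}, w ≤ o d → Cl2 (ptr F J) (vg w J F) A y →
      Det (Pool.Agent.H49.Ent.cond F.p A True) (fun ω => ptr F J ω) y ∧
      Det (Pool.Agent.H49.Ent.cond F.p A True) (slam F ⌊o d * J⌋₊) y := by
    intro Y y w hw hy
    obtain ⟨⟨φ, hφ⟩, χ', hχ'⟩ := hy
    refine ⟨fun ω ω' hω hω' hh => ?_, fun ω ω' hω hω' hh => ?_⟩
    · rw [hφ ω (hqA ω hω), hφ ω' (hqA ω' hω')]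
      exact congrArg φ hh
    · rw [hχ' ω (hqA ω hω), hχ' ω' (hqA ω' hω')]
      have h4 : ⌊w * J⌋₊ ≤ ⌊o d * J⌋₊ := Nat.floor_le_floor (mulJ hw)
      have h5 : ⌊o d * J⌋₊ ≤ J := l4a.trans laJ
      show χ' (slam F ⌊w * J⌋₊ ω) = χ' (slam F ⌊w * J⌋₊ ω')
      rw [slam_coarse F h4 h5 ω, slam_coarse F h4 h5 ω', hh]
  obtain ⟨dv1, dv2⟩ := hdet (ho03.le.trans ho3d.le) hv
  obtain ⟨dw1, dw2⟩ := hdet ho3d.le hv'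
  have hn4 : ∀ l < r, s l + Q + 2 + uB ≤ g₀ d l := by
    intro l hl
    have h4 : ((s l + Q + 2 + uB : ℕ) : ℝ) ≤ g₀ d l := by
      push_cast
      refine le_trans ?_ (hg4 l hl)
      have h5 := (hsl l hl).1
      have h6 := mulJ (Nn.lvd l hl)
      have h7 := fc.1
      rw [hk] at j1
      linarith
    exact_mod_cast h4
  have hn0 : ∀ l < r, s l + Q + 2 + uB ≤ ⌊b 2 l * J⌋₊ + (⌊o d * J⌋₊ - ⌊o 2 * J⌋₊) := by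
    intro l hl
    have h4 : ((s l + Q + 2 + uB : ℕ) : ℝ) ≤
        ((⌊b 2 l * J⌋₊ + (⌊o d * J⌋₊ - ⌊o 2 * J⌋₊) : ℕ) : ℝ) := by
      rw [Nat.cast_add (⌊b 2 l * J⌋₊), Nat.cast_sub (l01.trans (l12.trans l24))]
      push_cast
      have h5 := (hsl l hl).1
      have h6 := mulJ (Nn.lv2 l hl)
      have h7 := fc.1
      have h8 := hg0 l hl
      rw [hk] at j1
      linarith [f0.1, f4.2]
    exact_mod_cast h4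
  have hn2d : ∀ l < r, ⌊b 2 l * J⌋₊ + (⌊o 3 * J⌋₊ - ⌊o 2 * J⌋₊) ≤ s l + Q + x := by
    intro l hl
    have h4 : ((⌊b 2 l * J⌋₊ + (⌊o 3 * J⌋₊ - ⌊o 2 * J⌋₊) : ℕ) : ℝ) ≤
        ((s l + Q + x : ℕ) : ℝ) := by
      rw [Nat.cast_add (⌊b 2 l * J⌋₊), Nat.cast_sub (l01.trans l12)]
      push_cast
      have h5 := (hsl l hl).2
      have h6 := mulJ (Nn.lv2' l hl)
      have h7 := fx.2
      have h8 := hg0' l hl
      rw [hk] at j7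
      linarith [f0.2, f2.1]
    exact_mod_cast h4
  have hoq : ⌊o 2 * J⌋₊ + z 2 q₁ = ⌊o 3 * J⌋₊ := by
    have h3 : z 2 q₁ = ⌊o 3 * J⌋₊ - ⌊o 2 * J⌋₊ := hzq₁
    rw [h3]
    omega
  have hzq : z 2 q₁ = ⌊o 3 * J⌋₊ - ⌊o 2 * J⌋₊ := hzq₁
  have hee : ⌊(Eb + η₀ + η₀) * J⌋₊ = e₀ := by
    rw [he]
    congr 2
    ring
  have FN : FrN F c r Dw ⌊mb * J⌋₊ q₀ Q x x e₀ s (qf J) (fun k => ⌊o (fr4 k) * J⌋₊)
      (fun k l => ⌊b (fr4 k) l * J⌋₊) (fun k => g₀ (fr4 k)) A (fun k => G (fr4 k))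
      (fun k => H (fr4 k)) :=
    { hc := Wd.hc.mono (Set.Iio_subset_Iio (by omega))
      o1 := Wd.o1
      o2 := Wd.o2
      o3 := Wd.o3
      oJ := Wd.oJ
      dG := Wd.dG
      pG := Wd.pG
      dH := Wd.dH
      cl0 := Wd.cl0
      own0 := Wd.own0
      n0 := Wd.n0
      n2b := Wd.n2b
      n2c := Wd.n2c
      n2d := hn2d
      q0M := Wd.q0M
      qeM := Wd.qeM
      rad0 := by
        have h3 := hrad.mono le_rfl (fun _ => W.DD) le_rfl (le_of_eq hee)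
        have h4 : ⌊o 2 * J⌋₊ + z 2 q₁ = (fun k => ⌊o (fr4 k) * J⌋₊) 2 := hoq
        rw [h4, hzq] at h3
        exact ⟨h3.degG, h3.degH, h3.depG, h3.depH, fun ω hω l hl => h3.pos ω hω l (by omega),
          fun ω hω l hl => h3.agr ω hω l (by omega), fun ω hω l hl => h3.lip ω hω l (by omega)⟩ }
  -- the closed charts of the target
  have hnW : ∀ {P P' : ℕ → MvPolynomial (Option (Fin m)) ℝ} {K K' : MvPolynomial (Option (Fin m)) ℝ},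
      P r = P' r → P (r + 1) = P' (r + 1) → K = K' → nW c r P K = nW c r P' K' := by
    intro P P' K K' h1 h2 h3
    unfold nW nfw
    rw [h1, h2, h3]
  have h3J : ⌊o 3 * J⌋₊ ≤ J := l24.trans (l4a.trans laJ)
  have hco : ∀ ω, co (⌊o 3 * J⌋₊ - ⌊o 0 * J⌋₊) (slam F ⌊o 3 * J⌋₊ ω) = slam F ⌊o 0 * J⌋₊ ω :=
    fun ω => co_slam F l12 h3J ω
  have hCp : ∀ ω, A ω → Cp (ptr F J ω) = CL (slam F ⌊o 0 * J⌋₊ ω) := Wd.clC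
  have hG0 : ∀ ω, A ω → ∀ l ≤ r + 1, G 0 (ptr F J ω) l = H 0 (slam F ⌊o 0 * J⌋₊ ω) l := Wd.cl1
  have hA₁ : ∀ ω, A ω → (fun y => nW c r (G 0 y) (Cp y)) (ptr F J ω) =
      (fun s => nW c r (H 0 (co (⌊o 3 * J⌋₊ - ⌊o 0 * J⌋₊) s))
        (CL (co (⌊o 3 * J⌋₊ - ⌊o 0 * J⌋₊) s))) (slam F ⌊o 3 * J⌋₊ ω) := by
    intro ω hω
    beta_reduce
    rw [hco]
    exact hnW (hG0 ω hω r (by omega)) (hG0 ω hω (r + 1) le_rfl) (hCp ω hω)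
  have hA₂ : ∀ ω, A ω → (fun y => nW c r (G 3 y) (Cp y)) (ptr F J ω) =
      (fun s => nW c r (H 3 s) (CL (co (⌊o 3 * J⌋₊ - ⌊o 0 * J⌋₊) s))) (slam F ⌊o 3 * J⌋₊ ω) := by
    intro ω hω
    beta_reduce
    rw [hco]
    exact hnW (c3 ω hω r (by omega)) (c3 ω hω (r + 1) (by omega)) (hCp ω hω)
  refine hcl FN (fun _ hω => hω) (by rw [one_mul]) (A₁ := fun y => nW c r (G 0 y) (Cp y))
    (A₂ := fun y => nW c r (G 3 y) (Cp y))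
    (R₁ := fun s => nW c r (H 0 (co (⌊o 3 * J⌋₊ - ⌊o 0 * J⌋₊) s))
      (CL (co (⌊o 3 * J⌋₊ - ⌊o 0 * J⌋₊) s)))
    (R₂ := fun s => nW c r (H 3 s) (CL (co (⌊o 3 * J⌋₊ - ⌊o 0 * J⌋₊) s))) hA₁ hA₂
    (w := ⌊o d * J⌋₊) (G' := G d) (H' := H d) (g' := g₀ d) l24 l4a
    (fun ω hω l hl => c4 ω hω l (by omega)) (fun ω hω l hl => p4 ω hω l (by omega))
    (fun l hl => (by omega : s l + Q + 2 ≤ s l + Q + 2 + uB).trans (hn4 l hl))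
    (fun ω hω l hl b' hb' => ?_) hN₀ (hN₀Q'.trans Wd.QM) ?_ (fun l hl => ?_)
    (fun l hl => ?_) dv1 dw1 dv2 dw2 hT _ hN₀Q
  · refine (b4 ω hω l (by omega) b' hb').trans ?_
    rw [div_le_div_iff₀ (by positivity) (by positivity), one_mul, ← pow_add]
    refine pow_le_pow_right₀ (by norm_num) ?_
    rw [show uB + (s l + Q + 2) = s l + Q + 2 + uB by omega]
    exact le_min (hn0 l hl) (hn4 l hl)
  · refine Nat.le_floor ?_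
    push_cast
    rw [hk] at j3
    have h4 := fe.1
    have e1 : (Eb + 2 * η₀ + (2 * (C₁ : ℝ) + 32) * (χ + gn)) * J = (Eb + 2 * η₀) * J +
      (2 * (C₁ : ℝ) + 32) * (χ + gn) * J := by ring
    rw [e1] at j3
    linarith
  · have h4 : ((e₀ + s l + Q + N₀ : ℕ) : ℝ) ≤ J := by
      push_cast
      have h5 := j4 l hl
      rw [hk] at h5
      have e1 : (Eb + 2 * η₀ + lv 0 l + (o 3 - o 0) + (2 * (C₁ : ℝ) + 32) * (χ + gn)) * J =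
        (Eb + 2 * η₀) * J + lv 0 l * J + (o 3 - o 0) * J +
        (2 * (C₁ : ℝ) + 32) * (χ + gn) * J := by ring
      rw [e1] at h5
      linarith [(hsl l hl).1, fe.1]
    exact_mod_cast h4
  · show ⌊(bet P c l aq aq + h) * J⌋₊ + ⌊o d * J⌋₊ ≤ s l + Q + Gn + ⌊(aq : ℝ) * J⌋₊
    have h5 := j5 l hl
    have h6 := (hsl l hl).2
    rw [hk] at h5 j6
    have h7 : (0 : ℝ) ≤ s l := Nat.cast_nonneg _
    rcases le_total 0 (bet P c l aq aq + h) with h8 | h8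
    · have h4 : ((⌊(bet P c l aq aq + h) * J⌋₊ + ⌊o d * J⌋₊ : ℕ) : ℝ) ≤
          ((s l + Q + Gn + ⌊(aq : ℝ) * J⌋₊ : ℕ) : ℝ) := by
        push_cast
        have h9 := (flo (mul_nonneg h8 hJ0)).1
        linarith [f4.1, fa.2, fg.2]
      exact_mod_cast h4
    · have h9 : ⌊(bet P c l aq aq + h) * J⌋₊ = 0 :=
        Nat.floor_of_nonpos (mul_nonpos_of_nonpos_of_nonneg h8 hJ0)
      rw [h9]
      omega

end Pool.NHN
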