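import Pool.Agent.H42.D2.Nhz
import Pool.Agent.H92.D2.Him

/-!
# The hypothesis `NhW` of `him_cls`

`nhW_cls`: in a class with thresholds and full time, the velocities are in no hyperplane of the record
of the ball, for the windows `WW` and the window `o 4` (`W4`, balls only) a little deeper than `o 2`.
-/

set_option autoImplicit false

namespace Pool.NHZ

open Finset Real MvPolynomial
open Pool.Agent.H49.Ent Pool.Agent.H32.Dense Pool.STK Pool.KA Pool.KSAT Pool.K2S Pool.PB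
open Pool.S6C Pool.GEN Pool.D2R Pool.D2Z Pool.D2F Pool.D2G30 Pool.ISO Pool.CHT Pool.CHX Pool.V1E
open Pool.D2Con Pool.RCD
open Pool.LBT (ThrOf)

/-- The numbers of `nhW_cls`. -/
structure NhN {m : ℕ} (r : ℕ) (P : List (Fin m) × Fin m → ℝ → ℝ → ℝ) (c : ℕ → Fin m)
    (θ C CB Eb η₀ ζ δ C' : ℝ) (o : ℕ → ℝ) (lv : ℕ → ℕ → ℝ) (aq : ℚ) (e h gn : ℝ) : Prop where
  C1 : 1 ≤ C
  η0 : 0 ≤ η₀
  ζ0 : 0 ≤ ζ
  E0 : 0 ≤ Eb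
  gn0 : 0 ≤ gn
  o1 : 0 ≤ o 1
  o12 : o 1 < o 2
  δ0 : 0 < δ
  δ1 : δ ≤ 1
  l0 : ∀ l < r, 0 ≤ lv 1 l
  o4a : o 4 ≤ aq
  a1 : aq ≤ 1
  ea : e < θ * aq
  h0 : 0 < h
  b1 : ∀ l < r, bet P c l aq aq + h ≤ 1
  gain : ∀ l < r, bet P c l aq aq + h + o 4 < lv 1 l + (o 2 - o 1) + gn + aq
  lv0 : ∀ l < r, lv 1 l - o 1 - (lv 0 l - o 0) ≤ ζ
  lv4 : ∀ l < r, lv 1 l - o 1 - (lv 4 l - o 4) ≤ ζ
  o24 : ζ + (CB + 1) * η₀ < o 4 - o 2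
  sm : C' * (C * (ζ + η₀) + gn) < δ * (o 2 - o 1)
  e2 : Eb + 2 * η₀ + C' * (C * (ζ + η₀) + gn) < e
  top : ∀ l < r, Eb + 2 * η₀ + lv 1 l + (o 2 - o 1) + C' * (C * (ζ + η₀) + gn) < 1

/-- **The hypothesis `NhW`** of `him_cls`. -/
theorem nhW_cls (D r : ℕ) (hr : 1 ≤ r) : ∃ C' : ℝ, 1 ≤ C' ∧ ∀ {m Dr : ℕ} {S : PCl m}
    {P : List (Fin m) × Fin m → ℝ → ℝ → ℝ} {θ : ℝ} {c : ℕ → Fin m} {C CB a Eb ε₀ η₀ ζ mb : ℝ}
    {Pt : ℝ → ℝ → ℝ} {o : ℕ → ℝ} {lv be : ℕ → ℕ → ℝ} {κ : ℝ} {qf : ℕ → Fin r → ℕ} {δ : ℝ}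
    {aq : ℚ} {e h gn : ℝ}, ThrOf (chsys m θ) S P →
    (∀ ψ : ℝ, 0 < ψ → Bas S (fun J F A => 0 < Pe F.p A ∧ (J : ℝ) * Real.log 2 - ψ * J ≤
      CH (Pool.Agent.H49.Ent.cond F.p A True) F.T (fun ω => (F.l ω, F.Z ω)))) →
    NhN r P c θ C CB Eb η₀ ζ δ C' o lv aq e h gn →
    NhW S c r D Dr C a Eb ε₀ η₀ ζ mb Pt o lv be κ qf (W4 c r D Dr CB a Eb η₀ o lv κ) δ := by
  obtain ⟨C₁, hnh⟩ := nh_cls D r hr
  refine ⟨8 * C₁ + 32, by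
    have : (0 : ℝ) ≤ C₁ := Nat.cast_nonneg _
    linarith, ?_⟩
  intro m Dr S P θ c C CB a Eb ε₀ η₀ ζ mb Pt o lv be κ qf δ aq e h gn hP htm N
  obtain ⟨X, hX⟩ : ∃ X : ℝ, X = C * (ζ + η₀) := ⟨_, rfl⟩
  have No24 := N.o24
  have Nsm := N.sm
  have Ne2 := N.e2
  have Ntop := N.top
  rw [← hX] at Nsm Ne2
  simp only [← hX] at Ntop
  have hC := N.C1
  have hη := N.η0
  have hζ := N.ζ0
  have hgn := N.gn0
  have hC₁ : (0 : ℝ) ≤ C₁ := Nat.cast_nonneg _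
  have hX0 : 0 ≤ X := by rw [hX]; positivity
  have ho1 := N.o1
  have ho12 := N.o12
  obtain ⟨k, hk⟩ : ∃ k : ℝ, k = 22 * C₁ + 60 := ⟨_, rfl⟩
  have ho1q := N.o4a
  -- either the constant of the balls is negative, and there is nothing to do, or `o 2 < o 4`
  by_cases hCB : CB < 1
  · refine Bas.mono 0 (htm 1 one_pos) ?_
    intro J _ F A _ b z gc gT g₀ G H T TH Gt Ht W hW4
    exact absurd hW4.1.C1 (not_le.2 hCB)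
  rw [not_lt] at hCB
  have ho24 : o 2 < o 4 := by
    have h3 : 0 ≤ (CB + 1) * η₀ := mul_nonneg (by linarith) hη
    linarith
  have haq0 : (0 : ℝ) ≤ aq := by linarith
  obtain ⟨ψ, hψ, hcl⟩ := hnh hP c aq e h 1 δ (by exact_mod_cast haq0) N.a1 N.ea N.h0 N.b1
    one_pos N.δ0
  obtain ⟨J₁, hJ₁⟩ := lin_lt No24 k
  obtain ⟨J₂, hJ₂⟩ := lin_lt Nsm k
  obtain ⟨J₃, hJ₃⟩ := lin_lt Ne2 k
  obtain ⟨J₄, hJ₄⟩ := lin_fam (n := r) (A := fun l => Eb + 2 * η₀ + lv 1 l + (o 2 - o 1) +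
    (8 * C₁ + 32) * (X + gn)) (B := fun _ => 1) (fun l hl => Ntop l hl) k
  obtain ⟨J₅, hJ₅⟩ := lin_fam (n := r) (A := fun l => bet P c l aq aq + h + o 4)
    (B := fun l => lv 1 l + (o 2 - o 1) + gn + aq) N.gain k
  obtain ⟨J₆, hJ₆⟩ := lin_lt (show (0 : ℝ) < o 2 - o 1 by linarith) k
  refine Bas.mono (max (max (max J₁ J₂) (max J₃ J₄)) (max J₅ J₆)) (hcl.and (htm ψ hψ)) ?_
  rintro J hJ F A ⟨hcl, hA, hT⟩ b z gc gT g₀ G H T TH Gt Ht W hW4 V V' v v' hv hv'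
  obtain ⟨hWB, hz04⟩ := hW4
  have j1 := hJ₁ J (by omega)
  have j2 := hJ₂ J (by omega)
  have j3 := hJ₃ J (by omega)
  have j4 := hJ₄ J (by omega)
  have j5 := hJ₅ J (by omega)
  have j6 := hJ₆ J (by omega)
  clear hJ₁ hJ₂ hJ₃ hJ₄ hJ₅ hJ₆
  have hJ0 : (0 : ℝ) ≤ J := Nat.cast_nonneg J
  have mulJ : ∀ {x y : ℝ}, x ≤ y → x * J ≤ y * J := fun h => mul_le_mul_of_nonneg_right h hJ0
  have hqA : ∀ ω, 0 < Pool.Agent.H49.Ent.cond F.p A True ω → A ω := fun ω hω =>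
    of_eq_true ((cond_pos_iff F.isLaw.nonneg A True ω).1 hω).2
  have hE := N.E0
  have ho0 := (hWB.ho 0 (by norm_num)).1
  have Wd := W.wd
  have l01 : ⌊o 0 * J⌋₊ ≤ ⌊o 1 * J⌋₊ := by
    have h3 := Wd.o1
    have h4 : ⌊o 1 * J⌋₊ = ⌊o 0 * J⌋₊ + (⌊o 1 * J⌋₊ - ⌊o 0 * J⌋₊) := h3
    omega
  have f0 := flo (mul_nonneg ho0 hJ0)
  have f1 := flo (mul_nonneg ho1 hJ0)
  have f2 := flo (mul_nonneg (ho1.trans ho12.le) hJ0)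
  have f4 := flo (mul_nonneg ((ho1.trans ho12.le).trans ho24.le) hJ0)
  have fa := flo (mul_nonneg haq0 hJ0)
  have fg := flo (mul_nonneg hgn hJ0)
  have fc := flo (mul_nonneg (by linarith : (0 : ℝ) ≤ CB) (mul_nonneg hη hJ0))
  have l12 : ⌊o 1 * J⌋₊ ≤ ⌊o 2 * J⌋₊ := Nat.floor_le_floor (mulJ ho12.le)
  have l24 : ⌊o 2 * J⌋₊ ≤ ⌊o 4 * J⌋₊ := Nat.floor_le_floor (mulJ ho24.le)
  have l4a : ⌊o 4 * J⌋₊ ≤ ⌊(aq : ℝ) * J⌋₊ := Nat.floor_le_floor (mulJ N.o4a)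
  have laJ : ⌊(aq : ℝ) * J⌋₊ ≤ J := Nat.floor_le_of_le (by
    have h3 := mulJ (show (aq : ℝ) ≤ 1 by exact_mod_cast N.a1)
    linarith)
  have fe := flo (mul_nonneg (by linarith : (0 : ℝ) ≤ Eb + 2 * η₀) hJ0)
  have hg4 := fun l (hl : l < r) => (hWB.g_num (k := 4) (l := l) le_rfl hl.le).2.2.1
  have hg0 := fun l (hl : l < r) => (hWB.g_num (k := 0) (l := l) (by norm_num) hl.le).1
  have c2 := (W.win.evs 2 (by norm_num)).cls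
  have c4 := (hWB.ev 4 le_rfl).cls
  have p4 := (hWB.ev 4 le_rfl).ball.pos
  have b4 := hWB.bal 0 (by norm_num) 4 le_rfl 3 le_rfl (l01.trans (l12.trans l24)) hz04
  obtain ⟨Q, hQ⟩ : ∃ Q : ℕ, Q = ⌊o 2 * J⌋₊ - ⌊o 1 * J⌋₊ := ⟨_, rfl⟩
  obtain ⟨q₀, hq₀⟩ : ∃ q₀ : ℕ, q₀ = ⌊o 1 * J⌋₊ - ⌊o 0 * J⌋₊ := ⟨_, rfl⟩
  obtain ⟨x, hx⟩ : ∃ x : ℕ, x = ⌊(2 * (ζ + 3 * (C * η₀)) + η₀) * J⌋₊ + 20 := ⟨_, rfl⟩
  obtain ⟨u, hu⟩ : ∃ u : ℕ, u = ⌊C * (η₀ * J)⌋₊ + 1 := ⟨_, rfl⟩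
  obtain ⟨e₀, he⟩ : ∃ e₀ : ℕ, e₀ = ⌊(Eb + 2 * η₀) * J⌋₊ := ⟨_, rfl⟩
  obtain ⟨s, hs⟩ : ∃ s : ℕ → ℕ, s = fun l => ⌊lv 1 l * J⌋₊ := ⟨_, rfl⟩
  obtain ⟨uB, huB⟩ : ∃ uB : ℕ, uB = ⌊CB * (η₀ * J)⌋₊ := ⟨_, rfl⟩
  rw [← hs] at Wd ⊢
  rw [← hQ, ← hq₀] at Wd ⊢
  rw [← hx, ← hu, ← he] at Wd
  rw [← he] at fe
  rw [← huB] at fc b4
  have hsl : ∀ l < r, (s l : ℝ) ≤ lv 1 l * J ∧ lv 1 l * J - 1 ≤ s l := fun l hl => by
    rw [hs]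
    exact flo (mul_nonneg (N.l0 l hl) hJ0)
  have hQr : (Q : ℝ) = ⌊o 2 * J⌋₊ - ⌊o 1 * J⌋₊ := by rw [hQ, Nat.cast_sub l12]
  have hQl : (o 2 - o 1) * J - 1 ≤ Q := by rw [hQr]; linarith [f1.2, f2.2, f1.1, f2.1]
  have hQu : (Q : ℝ) ≤ (o 2 - o 1) * J + 1 := by rw [hQr]; linarith [f1.2, f2.2, f1.1, f2.1]
  have huu : (u : ℝ) + x + 1 ≤ 8 * X * J + 22 := by
    rw [hx, hu]
    push_cast
    have h4 := (flo (mul_nonneg (by positivity : (0 : ℝ) ≤ 2 * (ζ + 3 * (C * η₀)) + η₀) hJ0)).1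
    have h8 := (flo (mul_nonneg (by linarith : (0 : ℝ) ≤ C) (mul_nonneg hη hJ0))).1
    have h5 : C * η₀ + (2 * (ζ + 3 * (C * η₀)) + η₀) ≤ 8 * X := by
      have h6 : X = C * ζ + C * η₀ := by rw [hX]; ring
      have h7 : ζ ≤ C * ζ := le_mul_of_one_le_left hζ hC
      have h8 : η₀ ≤ C * η₀ := le_mul_of_one_le_left hη hC
      have h9 : 0 ≤ C * η₀ := by positivity
      linarith
    have h9 := mulJ h5
    linarith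
  obtain ⟨Gn, hGn⟩ : ∃ Gn : ℕ, Gn = ⌊gn * J⌋₊ := ⟨_, rfl⟩
  rw [← hGn] at fg
  obtain ⟨N₀, hN₀⟩ : ∃ N₀ : ℕ, N₀ = C₁ * (u + x + Gn + 1) := ⟨_, rfl⟩
  have hXJ : 0 ≤ X * J := mul_nonneg hX0 hJ0
  have hgJ : 0 ≤ gn * J := mul_nonneg hgn hJ0
  have hN₀r : (N₀ : ℝ) ≤ (8 * C₁ + 32) * (X + gn) * J + 22 * C₁ := by
    rw [hN₀]
    push_cast
    have h4 : (u : ℝ) + x + Gn + 1 ≤ 8 * X * J + 22 + gn * J := by linarith [fg.1]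
    have h5 := mul_le_mul_of_nonneg_left h4 hC₁
    have h6 : 0 ≤ (C₁ : ℝ) * (gn * J) := mul_nonneg hC₁ hgJ
    have e1 : (8 * (C₁ : ℝ) + 32) * (X + gn) * J + 22 * C₁ = C₁ * (8 * X * J + 22 + gn * J) +
        32 * (X * J) + 7 * (C₁ * (gn * J)) + 32 * (gn * J) := by ring
    rw [e1]
    linarith
  have hN₀Q : (N₀ : ℝ) ≤ δ * Q := by
    have h4 := mul_le_mul_of_nonneg_left hQl N.δ0.le
    rw [hk] at j2
    linarith [N.δ1]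
  have hN₀Q' : N₀ ≤ Q := by
    have h4 : (N₀ : ℝ) ≤ Q := hN₀Q.trans (by
      have := mul_le_mul_of_nonneg_right N.δ1 (Nat.cast_nonneg Q : (0 : ℝ) ≤ Q)
      linarith)
    exact_mod_cast h4
  have hdet : ∀ {Y : Type} {y : F.Ω → Y} {w : ℝ}, w ≤ o 4 → Cl2 (ptr F J) (vg w J F) A y →
      Det (Pool.Agent.H49.Ent.cond F.p A True) (fun ω => ptr F J ω) y ∧
      Det (Pool.Agent.H49.Ent.cond F.p A True) (slam F ⌊o 4 * J⌋₊) y := by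
    intro Y y w hw hy
    obtain ⟨⟨φ, hφ⟩, χ, hχ⟩ := hy
    refine ⟨fun ω ω' hω hω' hh => ?_, fun ω ω' hω hω' hh => ?_⟩
    · rw [hφ ω (hqA ω hω), hφ ω' (hqA ω' hω')]
      exact congrArg φ hh
    · rw [hχ ω (hqA ω hω), hχ ω' (hqA ω' hω')]
      have h4 : ⌊w * J⌋₊ ≤ ⌊o 4 * J⌋₊ := Nat.floor_le_floor (mulJ hw)
      have h5 : ⌊o 4 * J⌋₊ ≤ J := l4a.trans laJ
      show χ (slam F ⌊w * J⌋₊ ω) = χ (slam F ⌊w * J⌋₊ ω')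
      rw [slam_coarse F h4 h5 ω, slam_coarse F h4 h5 ω', hh]
  obtain ⟨dv1, dv2⟩ := hdet (ho12.le.trans ho24.le) hv
  obtain ⟨dw1, dw2⟩ := hdet ho24.le hv'
  have hn4 : ∀ l < r, s l + Q + 2 + uB ≤ g₀ 4 l := by
    intro l hl
    have h4 : ((s l + Q + 2 + uB : ℕ) : ℝ) ≤ g₀ 4 l := by
      push_cast
      refine le_trans ?_ (hg4 l hl)
      have h5 := (hsl l hl).1
      have h6 := mulJ (N.lv4 l hl)
      have h7 := fc.1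
      rw [hk] at j1
      linarith
    exact_mod_cast h4
  have hn0 : ∀ l < r, s l + Q + 2 + uB ≤ ⌊b 0 l * J⌋₊ + (⌊o 4 * J⌋₊ - ⌊o 0 * J⌋₊) := by
    intro l hl
    have h4 : ((s l + Q + 2 + uB : ℕ) : ℝ) ≤
        ((⌊b 0 l * J⌋₊ + (⌊o 4 * J⌋₊ - ⌊o 0 * J⌋₊) : ℕ) : ℝ) := by
      rw [Nat.cast_add (⌊b 0 l * J⌋₊), Nat.cast_sub (l01.trans (l12.trans l24))]
      push_cast
      have h5 := (hsl l hl).1
      have h6 := mulJ (N.lv0 l hl)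
      have h7 := fc.1
      have h8 := hg0 l hl
      rw [hk] at j1
      linarith [f0.1, f4.2]
    exact_mod_cast h4
  refine hcl Wd (fun _ hω => hω) (by rw [one_mul]) (fun ω hω l hl => c2 ω hω l (by omega))
    (w := ⌊o 4 * J⌋₊) (G' := G 4) (H' := H 4) (g' := g₀ 4) l24 l4a
    (fun ω hω l hl => c4 ω hω l (by omega)) (fun ω hω l hl => p4 ω hω l (by omega))
    (fun l hl => (by omega : s l + Q + 2 ≤ s l + Q + 2 + uB).trans (hn4 l hl))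
    (fun ω hω l hl b' hb' => ?_) hN₀ (hN₀Q'.trans Wd.QM) ?_ (fun l hl => ?_)
    (fun l hl => ?_) dv1 dw1 dv2 dw2 hT _ hN₀Q
  · refine (b4 ω hω l hl.le b' hb').trans ?_
    rw [div_le_div_iff₀ (by positivity) (by positivity), one_mul, ← pow_add]
    refine pow_le_pow_right₀ (by norm_num) ?_
    rw [show uB + (s l + Q + 2) = s l + Q + 2 + uB by omega]
    exact le_min (hn0 l hl) (hn4 l hl)
  · refine Nat.le_floor ?_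
    push_cast
    rw [hk] at j3
    have h4 := fe.1
    have e1 : (Eb + 2 * η₀ + (8 * (C₁ : ℝ) + 32) * (X + gn)) * J = (Eb + 2 * η₀) * J +
      (8 * (C₁ : ℝ) + 32) * (X + gn) * J := by ring
    rw [e1] at j3
    linarith
  · have h4 : ((e₀ + s l + Q + N₀ : ℕ) : ℝ) ≤ J := by
      push_cast
      have h5 := j4 l hl
      rw [hk] at h5
      have e1 : (Eb + 2 * η₀ + lv 1 l + (o 2 - o 1) + (8 * (C₁ : ℝ) + 32) * (X + gn)) * J =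
        (Eb + 2 * η₀) * J + lv 1 l * J + (o 2 - o 1) * J +
        (8 * (C₁ : ℝ) + 32) * (X + gn) * J := by ring
      rw [e1] at h5
      linarith [(hsl l hl).1, fe.1]
    exact_mod_cast h4
  · show ⌊(bet P c l aq aq + h) * J⌋₊ + ⌊o 4 * J⌋₊ ≤ s l + Q + Gn + ⌊(aq : ℝ) * J⌋₊
    have h5 := j5 l hl
    have h6 := (hsl l hl).2
    rw [hk] at h5 j6
    have h7 : (0 : ℝ) ≤ s l := Nat.cast_nonneg _
    rcases le_total 0 (bet P c l aq aq + h) with h8 | h8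
    · have h4 : ((⌊(bet P c l aq aq + h) * J⌋₊ + ⌊o 4 * J⌋₊ : ℕ) : ℝ) ≤
          ((s l + Q + Gn + ⌊(aq : ℝ) * J⌋₊ : ℕ) : ℝ) := by
        push_cast
        have h9 := (flo (mul_nonneg h8 hJ0)).1
        linarith [f4.1, fa.2, fg.2]
      exact_mod_cast h4
    · have h9 : ⌊(bet P c l aq aq + h) * J⌋₊ = 0 :=
        Nat.floor_of_nonpos (mul_nonpos_of_nonpos_of_nonneg h8 hJ0)
      rw [h9]
      omega

end Pool.NHZ
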