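import Pool.Agent.H92.D2.Cel
import Pool.Agent.H42.D2.Nhw

/-!
# The hypothesis `NHW` of `lCellA_ones` holds
-/

set_option autoImplicit false

namespace Pool.NHZ

open Pool.Agent.H49.Ent Pool.Agent.H32.Dense Pool.STK Pool.KA Pool.KSAT Pool.K2S Pool.PB

/-- **`NHW`**, the hypothesis of `Pool.PKG.celQG_one` and of `lCellA_ones`. -/
theorem nHW : Pool.PKG.NHW := fun D r hr => by
  obtain ⟨C', h1, h⟩ := nhW_cls D r hr
  refine ⟨C', h1, ?_⟩
  intro m Dr S P θ c C CB a Eb ε₀ η₀ ζ mb Pt o lv be κ qf δ aq e h' gn hP htm N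
  exact h hP htm
    { C1 := N.C1
      η0 := N.η0
      ζ0 := N.ζ0
      E0 := N.E0
      gn0 := N.gn0
      o1 := N.o1
      o12 := N.o12
      δ0 := N.δ0
      δ1 := N.δ1
      l0 := N.lv1
      o4a := N.oa
      a1 := by exact_mod_cast N.a1
      ea := N.eθ
      h0 := N.h0
      b1 := N.be1
      gain := N.gain
      lv0 := N.lv0
      lv4 := N.lv4
      o24 := N.o24
      sm := N.sm
      e2 := N.e2
      top := N.top }

end Pool.NHZ
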