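import Pool.Agent.H42.D2.Hyi
import Pool.Agent.H91.D2.Tlc1

/-!
# The velocities are in no closed hyperplane, given the time and the corner

`nh_cls`: `NoHyp` for the velocities and the record `kzF` of the ball, for every event which is a
fixed part of the class. The record may contain the closed charts `G'` of a deeper window `w`: the
corner is few values given these charts and the time.
-/

set_option autoImplicit false

namespace Pool.NHZ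

open Finset Real MvPolynomial
open Pool.Agent.H49.Ent Pool.Agent.H32.Dense Pool.STK Pool.KA Pool.KSAT Pool.K2S Pool.PB
open Pool.S6C Pool.GEN Pool.D2R Pool.D2Z Pool.D2F Pool.D2G30 Pool.ISO Pool.CHT Pool.CHX Pool.V1E
open Pool.D2Con
open Pool.PB.Trl (rt rt_mem t_rt)
open Pool.LBT (ThrOf)

section one

variable {m J : ℕ} {F : Fam m J} {c : ℕ → Fin m} {r D n M ar MB q₀ Q x u p e : ℕ}
  {s : ℕ → ℕ} {qe : Fin r → ℕ} {o : ℕ → ℕ} {z g gc gT g₀ : ℕ → ℕ → ℕ} {B : F.Ω → Prop}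
  {G T : ℕ → PtT F → ℕ → MvPolynomial (Option (Fin m)) ℝ}
  {H TH : ℕ → LnT F → ℕ → MvPolynomial (Option (Fin m)) ℝ}
  {Ht : LnT F → MvPolynomial (Option (Fin m)) ℝ}

/-- **The corner is few values given the charts of the deep ball and the time.** -/
theorem crn_near (W : Wdat F c r D n M ar MB q₀ Q x u p e s qe o z g gc gT g₀ B G T H TH Ht)
    {w : ℕ} {G' : PtT F → ℕ → MvPolynomial (Option (Fin m)) ℝ} {g' : ℕ → ℕ}
    (hpos : ∀ ω, B ω → ∀ l < r, |F.x ω (c l) - eval (bt F ω) (G' (ptr F J ω) l)| ≤ 1 / 2 ^ g' l)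
    (hn3 : ∀ l < r, s l + Q + 2 ≤ g' l)
    (hbal : ∀ ω, B ω → ∀ l < r, ∀ b, NBx c (G' (ptr F J ω)) g' w (F.t ω) l b →
      |eval b (Gno (c l) J J (fun y => G 0 y l) (ptr F J ω)) - eval b (G' (ptr F J ω) l)| ≤
        1 / 2 ^ (s l + Q + 2))
    {ω ω' : F.Ω} (hω : B ω) (hω' : B ω') (hT : F.T ω = F.T ω')
    (h3 : ∀ l < r, G' (ptr F J ω) l = G' (ptr F J ω') l)
    (h0 : ∀ l < r, G 0 (ptr F J ω) l = G 0 (ptr F J ω') l) (i : Fin r) :
    |((crF F c s r (o 1) Q (G 0) ω i - crF F c s r (o 1) Q (G 0) ω' i : ℤ) : ℝ)| ≤ 2 := by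
  have ht : F.t ω = F.t ω' := by
    unfold Fam.t
    rw [hT]
  have hir : i.val < r := i.isLt
  -- the boxes
  have hb : ∀ ν : F.Ω, B ν → F.t ω = F.t ν → (∀ l < r, G' (ptr F J ω) l = G' (ptr F J ν) l) →
      |eval (bt F ν) (Gno (c i) J J (fun y => G 0 y i) (ptr F J ω)) -
        eval (bt F ν) (G' (ptr F J ω) i)| ≤ 1 / 2 ^ (s i + Q + 2) ∧
      |bt F ν (some (c i)) - eval (bt F ν) (G' (ptr F J ω) i)| ≤ 1 / 2 ^ (s i + Q + 2) := by
    intro ν hν htν hGν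
    have hbox : NBx c (G' (ptr F J ω)) g' w (F.t ω) i (bt F ν) := by
      refine ⟨?_, fun l hl => ?_⟩
      · show |F.t ν - F.t ω| ≤ _
        rw [htν, sub_self, abs_zero]
        positivity
      · rw [hGν l (hl.trans hir)]
        exact hpos ν hν l (hl.trans hir)
    refine ⟨hbal ω hω i hir (bt F ν) hbox, ?_⟩
    have h3 := hpos ν hν i hir
    rw [← hGν i hir] at h3
    exact h3.trans (one_div_le_one_div_of_le (by positivity)
      (pow_le_pow_right₀ (by norm_num) (hn3 i hir)))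
  obtain ⟨a1, a2⟩ := hb ω hω rfl fun _ _ => rfl
  obtain ⟨b1, b2⟩ := hb ω' hω' ht h3
  -- the chart of the first window
  have e1 : ∀ b : Option (Fin m) → ℝ, eval b (Gno (c i) J J (fun y => G 0 y i) (ptr F J ω)) =
      eval b (G 0 (ptr F J ω) i) + (((ptr F J ω).1 (c i) : ℝ) / 2 ^ J -
        eval (bho J J (ptr F J ω)) (G 0 (ptr F J ω) i)) := fun b => by
    unfold Gno
    rw [map_add, eval_C]
  rw [e1] at a1 b1
  obtain ⟨K, hK⟩ : ∃ K : ℝ, K = ((ptr F J ω).1 (c i) : ℝ) / 2 ^ J -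
    eval (bho J J (ptr F J ω)) (G 0 (ptr F J ω) i) := ⟨_, rfl⟩
  rw [← hK] at a1 b1
  obtain ⟨Y, hY⟩ : ∃ Y : ℝ, Y = 1 / 2 ^ (s i + Q + 2) := ⟨_, rfl⟩
  rw [← hY] at a1 a2 b1 b2
  have key : |(bt F ω (some (c i)) - eval (bt F ω) (G 0 (ptr F J ω) i)) -
      (bt F ω' (some (c i)) - eval (bt F ω') (G 0 (ptr F J ω) i))| ≤ 4 * Y := by
    rw [abs_le] at a1 a2 b1 b2 ⊢
    constructor <;> linarith only [a1.1, a1.2, a2.1, a2.2, b1.1, b1.2, b2.1, b2.2]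
  -- the corners
  rw [W.crn, W.crn]
  show |((⌊2 ^ Q * yp c s r (trn r (G 0 (ptr F J ω))) (bt F ω) (some i)⌋ -
    ⌊2 ^ Q * yp c s r (trn r (G 0 (ptr F J ω'))) (bt F ω') (some i)⌋ : ℤ) : ℝ)| ≤ _
  have e2 : yp c s r (trn r (G 0 (ptr F J ω))) (bt F ω) (some i) =
      2 ^ s i * (bt F ω (some (c i)) - eval (bt F ω) (G 0 (ptr F J ω) i)) := by
    show 2 ^ s i * (bt F ω (some (c i)) - eval (bt F ω) (trn r (G 0 (ptr F J ω)) i)) = _
    rw [trn_eq hir]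
  have e3 : yp c s r (trn r (G 0 (ptr F J ω'))) (bt F ω') (some i) =
      2 ^ s i * (bt F ω' (some (c i)) - eval (bt F ω') (G 0 (ptr F J ω) i)) := by
    show 2 ^ s i * (bt F ω' (some (c i)) - eval (bt F ω') (trn r (G 0 (ptr F J ω')) i)) = _
    rw [trn_eq hir, ← h0 i hir]
  rw [e2, e3]
  obtain ⟨α, hα⟩ : ∃ α : ℝ, α = bt F ω (some (c i)) - eval (bt F ω) (G 0 (ptr F J ω) i) :=
    ⟨_, rfl⟩
  obtain ⟨β, hβ⟩ : ∃ β : ℝ, β = bt F ω' (some (c i)) - eval (bt F ω') (G 0 (ptr F J ω) i) :=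
    ⟨_, rfl⟩
  rw [← hα, ← hβ] at key ⊢
  have f1 := Int.floor_le ((2 : ℝ) ^ Q * (2 ^ s i * α))
  have f2 := Int.lt_floor_add_one ((2 : ℝ) ^ Q * (2 ^ s i * α))
  have f3 := Int.floor_le ((2 : ℝ) ^ Q * (2 ^ s i * β))
  have f4 := Int.lt_floor_add_one ((2 : ℝ) ^ Q * (2 ^ s i * β))
  have h5 : |(2 : ℝ) ^ Q * (2 ^ s i * α) - 2 ^ Q * (2 ^ s i * β)| ≤ 1 := by
    have e4 : (2 : ℝ) ^ Q * (2 ^ s i * α) - 2 ^ Q * (2 ^ s i * β) =
        2 ^ (s i + Q) * (α - β) := by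
      rw [pow_add]
      ring
    rw [e4, abs_mul, abs_of_pos (by positivity : (0 : ℝ) < 2 ^ (s i + Q))]
    refine (mul_le_mul_of_nonneg_left key (by positivity)).trans (le_of_eq ?_)
    rw [hY, pow_add _ _ 2]
    field_simp
    norm_num
  push_cast
  rw [abs_le] at h5 ⊢
  constructor <;> linarith only [h5.1, h5.2, f1, f2, f3, f4]

/-- The charts and the time of a ball. -/
noncomputable def zcB (F : Fam m J) {V V' : Type} (v : F.Ω → V) (v' : F.Ω → V') (r w : ℕ)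
    (G : ℕ → PtT F → ℕ → MvPolynomial (Option (Fin m)) ℝ)
    (G' : PtT F → ℕ → MvPolynomial (Option (Fin m)) ℝ) (ω : F.Ω) :
    (V' × (ℕ → MvPolynomial (Option (Fin m)) ℝ)) ×
      ((V × ((ℕ → MvPolynomial (Option (Fin m)) ℝ) × MvPolynomial (Option (Fin m)) ℝ)) ×
        ((ℕ → MvPolynomial (Option (Fin m)) ℝ) × ℕ)) :=
  ((v' ω, trn (r + 1) (G 2 (ptr F J ω))),
    ((v ω, (trn r (G 0 (ptr F J ω)), G 1 (ptr F J ω) r)), (trn r (G' (ptr F J ω)), F.T1 w ω)))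

/-- The time in the ball. -/
theorem T_few {q : F.Ω → ℝ} (hq : IsLaw q) {w : ℕ} (hw : w ≤ J) :
    CH q F.T (F.T1 w) ≤ ((J : ℝ) - w) * Real.log 2 := by
  have h1 := CH_le_card hq.nonneg hq.sum_one F.T (F.T1 w)
    (fun k => Finset.Ico (k * 2 ^ (J - w)) ((k + 1) * 2 ^ (J - w))) (fun ω _ => by
      rw [Finset.mem_Ico]
      unfold Fam.T1
      have h2 := Nat.div_add_mod (F.T ω) (2 ^ (J - w))
      have h3 := Nat.mod_lt (F.T ω) (by positivity : 0 < 2 ^ (J - w))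
      constructor
      · rw [mul_comm]
        omega
      · rw [add_mul, one_mul, mul_comm]
        omega)
  refine h1.trans (le_of_eq ?_)
  have e1 : (fun ω : F.Ω => Real.log (((Finset.Ico (F.T1 w ω * 2 ^ (J - w))
      ((F.T1 w ω + 1) * 2 ^ (J - w))).card : ℕ) : ℝ)) = fun _ => ((J : ℝ) - w) * Real.log 2 := by
    funext ω
    rw [Nat.card_Ico, add_mul, one_mul, Nat.add_sub_cancel_left]
    push_cast
    rw [Real.log_pow, Nat.cast_sub hw]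
  rw [e1]
  exact Ex_const hq.sum_one _

/-- **Time and corner are few bits given the charts of the deep ball.** -/
theorem TC_few (W : Wdat F c r D n M ar MB q₀ Q x u p e s qe o z g gc gT g₀ B G T H TH Ht)
    {w : ℕ} {G' : PtT F → ℕ → MvPolynomial (Option (Fin m)) ℝ} {g' : ℕ → ℕ}
    (hpos : ∀ ω, B ω → ∀ l < r, |F.x ω (c l) - eval (bt F ω) (G' (ptr F J ω) l)| ≤ 1 / 2 ^ g' l)
    (hn3 : ∀ l < r, s l + Q + 2 ≤ g' l)
    (hbal : ∀ ω, B ω → ∀ l < r, ∀ b, NBx c (G' (ptr F J ω)) g' w (F.t ω) l b →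
      |eval b (Gno (c l) J J (fun y => G 0 y l) (ptr F J ω)) - eval b (G' (ptr F J ω) l)| ≤
        1 / 2 ^ (s l + Q + 2))
    {q : F.Ω → ℝ} (hq : IsLaw q) (hqB : ∀ ω, 0 < q ω → B ω) {V V' : Type} (v : F.Ω → V)
    (v' : F.Ω → V') (hw : w ≤ J) :
    CH q (fun ω => (F.T ω, crF F c s r (o 1) Q (G 0) ω)) (zcB F v v' r w G G') ≤
      ((J : ℝ) - w) * Real.log 2 + r * Real.log 5 := by
  have h0 := hq.nonneg
  have e1 : CH q (fun ω => (F.T ω, crF F c s r (o 1) Q (G 0) ω)) (zcB F v v' r w G G') ≤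
      CH q (fun ω => (crF F c s r (o 1) Q (G 0) ω, F.T ω)) (zcB F v v' r w G G') := by
    refine CH_mono_left h0 fun ω ω' _ _ hh => ?_
    simp only [Prod.mk.injEq] at hh ⊢
    exact ⟨hh.1.2, hh.1.1⟩
  refine e1.trans ?_
  rw [CH_chain h0]
  refine add_le_add ?_ ?_
  · refine (CH_mono_cond h0 fun ω ω' _ _ hh => ?_).trans (T_few hq hw)
    unfold zcB at hh
    simp only [Prod.mk.injEq] at hh
    exact hh.2.2.2
  · have h3 := CH_le_vec h0 hq.sum_one (crF F c s r (o 1) Q (G 0))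
      (fun ω => (F.T ω, zcB F v v' r w G G' ω)) (fun _ => 2)
      (fun ω ω' hω hω' hh i => by
        unfold zcB at hh
        simp only [Prod.mk.injEq] at hh
        obtain ⟨k1, ⟨k2, k3⟩, ⟨k4, k5, k6⟩, k7, k8⟩ := hh
        refine crn_near W hpos hn3 hbal (hqB ω hω) (hqB ω' hω') k1 (fun l hl => ?_)
          (fun l hl => ?_) i
        · have := congrFun k7 l
          rwa [trn_eq hl, trn_eq hl] at this
        · have := congrFun k5 l
          rwa [trn_eq hl, trn_eq hl] at this)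
    refine h3.trans (mul_le_mul_of_nonneg_left (le_of_eq ?_) (Nat.cast_nonneg r))
    rw [Ex_const hq.sum_one]
    norm_num

theorem det_zcB_p {q : F.Ω → ℝ} {V V' : Type} {v : F.Ω → V} {v' : F.Ω → V'} (w : ℕ)
    (G' : PtT F → ℕ → MvPolynomial (Option (Fin m)) ℝ)
    (hv : Det q (fun ω => ptr F J ω) v) (hv' : Det q (fun ω => ptr F J ω) v') :
    Det q (fun ω => ptr F J ω) (zcB F v v' r w G G') := by
  intro ω ω' hω hω' hh
  beta_reduce at hh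
  have h1 := hv ω ω' hω hω' hh
  have h2 := hv' ω ω' hω hω' hh
  have h3 : F.T1 w ω = F.T1 w ω' := by
    unfold Fam.T1
    rw [(bt_near hh).1]
  unfold zcB
  rw [h1, h2, h3, hh]

theorem det_zcB_s (W : Wdat F c r D n M ar MB q₀ Q x u p e s qe o z g gc gT g₀ B G T H TH Ht)
    {w : ℕ} {G' : PtT F → ℕ → MvPolynomial (Option (Fin m)) ℝ}
    {H' : LnT F → ℕ → MvPolynomial (Option (Fin m)) ℝ} (hw : o 2 ≤ w) (hwJ : w ≤ J)
    (hcl : ∀ ω, B ω → ∀ l < r, G 2 (ptr F J ω) l = H 2 (slam F (o 2) ω) l)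
    (hcl3 : ∀ ω, B ω → ∀ l < r, G' (ptr F J ω) l = H' (slam F w ω) l)
    {q : F.Ω → ℝ} (hqB : ∀ ω, 0 < q ω → B ω) {V V' : Type} {v : F.Ω → V} {v' : F.Ω → V'}
    (hv : Det q (slam F w) v) (hv' : Det q (slam F w) v') :
    Det q (slam F w) (zcB F v v' r w G G') := by
  intro ω ω' hω hω' hh
  have h1 := hv ω ω' hω hω' hh
  have h2 := hv' ω ω' hω hω' hh
  have h3 : F.T1 w ω = F.T1 w ω' := (Prod.ext_iff.1 (Prod.ext_iff.1 hh).2).2
  have hco : ∀ {k : ℕ}, k ≤ w → slam F k ω = slam F k ω' := fun {k} hk => by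
    rw [slam_coarse F hk hwJ ω, slam_coarse F hk hwJ ω', hh]
  have h21 := hco hw
  have h01 := hco (k := o 0) (by have := W.o1; have := W.o2; omega)
  have h11 := hco (k := o 1) (by have := W.o2; omega)
  have h4 : trn (r + 1) (G 2 (ptr F J ω)) = trn (r + 1) (G 2 (ptr F J ω')) := by
    funext l
    unfold trn
    split_ifs with hl
    · rcases Nat.lt_succ_iff_lt_or_eq.1 hl with h5 | h5
      · rw [hcl ω (hqB ω hω) l h5, hcl ω' (hqB ω' hω') l h5, h21]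
      · rw [h5, W.cl2 ω (hqB ω hω), W.cl2 ω' (hqB ω' hω'), h21]
    · rfl
  have h5 : trn r (G 0 (ptr F J ω)) = trn r (G 0 (ptr F J ω')) := by
    funext l
    unfold trn
    split_ifs with hl
    · rw [W.cl0 ω (hqB ω hω) l hl, W.cl0 ω' (hqB ω' hω') l hl, h01]
    · rfl
  have h7 : trn r (G' (ptr F J ω)) = trn r (G' (ptr F J ω')) := by
    funext l
    unfold trn
    split_ifs with hl
    · rw [hcl3 ω (hqB ω hω) l hl, hcl3 ω' (hqB ω' hω') l hl, hh]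
    · rfl
  have h6 : G 1 (ptr F J ω) r = G 1 (ptr F J ω') r := by
    rw [W.cl1 ω (hqB ω hω), W.cl1 ω' (hqB ω' hω'), h11]
  unfold zcB
  rw [h1, h2, h3, h4, h5, h6, h7]

end one

/-- **The velocities are in no hyperplane which is a function of the record of the ball, of the
time and of the corner.** -/
theorem nh_cls (D r : ℕ) (hr : 1 ≤ r) : ∃ C : ℕ, ∀ {m : ℕ} {θ : ℝ} {S : PCl m}
    {P : List (Fin m) × Fin m → ℝ → ℝ → ℝ} (_ : ThrOf (chsys m θ) S P) (c : ℕ → Fin m) (a : ℚ)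
    (e h κ c₀ : ℝ), 0 ≤ a → a ≤ 1 → e < θ * a → 0 < h → (∀ l < r, bet P c l a a + h ≤ 1) →
    0 < κ → 0 < c₀ →
    ∃ ψ : ℝ, 0 < ψ ∧ Bas S (fun J F A => ∀ {n M ar MB q₀ Q x u p e₀ : ℕ} {s : ℕ → ℕ}
      {qe : Fin r → ℕ} {o : ℕ → ℕ} {z g gc gT g₀ : ℕ → ℕ → ℕ} {B : F.Ω → Prop}
      {G T : ℕ → PtT F → ℕ → MvPolynomial (Option (Fin m)) ℝ}
      {H TH : ℕ → LnT F → ℕ → MvPolynomial (Option (Fin m)) ℝ}
      {Ht : LnT F → MvPolynomial (Option (Fin m)) ℝ},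
      Wdat F c r D n M ar MB q₀ Q x u p e₀ s qe o z g gc gT g₀ B G T H TH Ht → Sub B A →
      κ * Pe F.p A ≤ Pe F.p B →
      (∀ ω, B ω → ∀ l < r, G 2 (ptr F J ω) l = H 2 (slam F (o 2) ω) l) →
      ∀ {w : ℕ} {G' : PtT F → ℕ → MvPolynomial (Option (Fin m)) ℝ}
      {H' : LnT F → ℕ → MvPolynomial (Option (Fin m)) ℝ} {g' : ℕ → ℕ},
      o 2 ≤ w → w ≤ ⌊(a : ℝ) * J⌋₊ →
      (∀ ω, B ω → ∀ l < r, G' (ptr F J ω) l = H' (slam F w ω) l) →
      (∀ ω, B ω → ∀ l < r, |F.x ω (c l) - eval (bt F ω) (G' (ptr F J ω) l)| ≤ 1 / 2 ^ g' l) →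
      (∀ l < r, s l + Q + 2 ≤ g' l) →
      (∀ ω, B ω → ∀ l < r, ∀ b, NBx c (G' (ptr F J ω)) g' w (F.t ω) l b →
        |eval b (Gno (c l) J J (fun y => G 0 y l) (ptr F J ω)) - eval b (G' (ptr F J ω) l)| ≤
          1 / 2 ^ (s l + Q + 2)) →
      ∀ {Gn N₀ : ℕ}, N₀ = C * (u + x + Gn + 1) → N₀ ≤ MB →
      e₀ + N₀ ≤ ⌊e * J⌋₊ → (∀ l < r, e₀ + s l + Q + N₀ ≤ J) →
      (∀ l < r, ⌊(bet P c l a a + h) * J⌋₊ + w ≤ s l + Q + Gn + ⌊(a : ℝ) * J⌋₊) →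
      ∀ {V V' : Type} {v : F.Ω → V} {v' : F.Ω → V'},
      Det (Pool.Agent.H49.Ent.cond F.p B True) (fun ω => ptr F J ω) v →
      Det (Pool.Agent.H49.Ent.cond F.p B True) (fun ω => ptr F J ω) v' →
      Det (Pool.Agent.H49.Ent.cond F.p B True) (slam F w) v →
      Det (Pool.Agent.H49.Ent.cond F.p B True) (slam F w) v' →
      (J : ℝ) * Real.log 2 - ψ * J ≤ CH (Pool.Agent.H49.Ent.cond F.p B True) F.T
        (fun ω => (F.l ω, F.Z ω)) →
      ∀ Λ : ℝ, (N₀ : ℝ) ≤ Λ →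
      NoHyp (Pool.Agent.H49.Ent.cond F.p B True) (fun ω => Xe r qe (eL c s r (o 1) qe
        (frH F r q₀ (H 0) (slam F (o 1) ω)) (slam F (o 1) ω)))
        (kzF F c s r (o 1) Q v v' (G 0) (fun y => G 1 y r) (fun y => G 2 y r)) (2 ^ (-Λ)) c₀) := by
  classical
  obtain ⟨C, hhf⟩ := hyp_frm D r
  refine ⟨C, ?_⟩
  intro m θ S P hP c a e h κ c₀ ha0 ha he hh h1 hκ hc₀
  obtain ⟨δ₁, hδ₁, τ₁, hτ₁, J₁, hv₁⟩ := hhf hP c a e h ha0 ha he hh h1
  obtain ⟨τ₂, hτ₂, J₂, hv₂⟩ := Pool.VIS24.pos_thr hP c 0 a a e h ha0 le_rfl ha he hh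
    (h1 0 (by omega))
  obtain ⟨R, hR⟩ : ∃ R : ℝ, R = r * Real.log 5 := ⟨_, rfl⟩
  have hR0 : 0 ≤ R := by
    rw [hR]
    exact mul_nonneg (Nat.cast_nonneg r) (Real.log_nonneg (by norm_num))
  obtain ⟨ψ, hψ⟩ : ∃ ψ : ℝ, ψ = δ₁ * c₀ / 4 := ⟨_, rfl⟩
  have hψ0 : 0 < ψ := by
    rw [hψ]
    positivity
  obtain ⟨Y, hY⟩ : ∃ Y : ℝ, Y = r / κ * (2 / c₀) * Real.exp (2 * (R + 1) / c₀) := ⟨_, rfl⟩
  obtain ⟨J₃, hJ₃⟩ := exists_nat_ge (2 * Y / δ₁)
  refine ⟨ψ, hψ0, min τ₁ τ₂, lt_min hτ₁ hτ₂, max J₁ (max J₂ J₃), ?_⟩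
  intro J hJ F A hA n M ar MB q₀ Q x u p e₀ s qe o z g gc gT g₀ B G T H TH Ht W hBA hAB hcl w G' H'
    g' hw2 hwa hcl3 hpos hn3 hbal Gn N₀ hN₀ hNM heN hJN hbN V V' v v' hvp hvp' hvs hvs' hT Λ hΛ
  have hJ1 : J₁ ≤ J := (le_max_left _ _).trans hJ
  have hJ2 : J₂ ≤ J := ((le_max_left _ _).trans (le_max_right _ _)).trans hJ
  have hJ3 : J₃ ≤ J := ((le_max_right _ _).trans (le_max_right _ _)).trans hJ
  have hJ0 : (0 : ℝ) ≤ J := Nat.cast_nonneg J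
  have hwJ : w ≤ J := hwa.trans (Nat.floor_le_of_le (by
    have h3 : (a : ℝ) ≤ 1 := by exact_mod_cast ha
    nlinarith))
  have hA0 := hv₂ J hJ2 F A (S.mono (min_le_right _ _) hA)
  have hB0 : 0 < Pe F.p B := (mul_pos hκ hA0).trans_le hAB
  obtain ⟨q, hq⟩ : ∃ q, q = Pool.Agent.H49.Ent.cond F.p B True := ⟨_, rfl⟩
  have hql : IsLaw q := by
    rw [hq]
    exact isLaw_cond F.isLaw hB0
  have hqB : ∀ ω, 0 < q ω → B ω := fun ω hω => by
    rw [hq] at hω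
    exact of_eq_true ((cond_pos_iff F.isLaw.nonneg B True ω).1 hω).2
  rw [← hq] at hvp hvp' hvs hvs' hT ⊢
  have hden : ∀ ω, q ω * Pe F.p A ≤ 1 / κ * F.p ω := by
    intro ω
    rw [hq]
    refine cond_dens (r := F.p) (q := F.p) B (A := Pe F.p A) (M := Pe F.p A)
      (c := κ * Pe F.p A) hA0.le (fun ω => F.isLaw.nonneg ω) (fun ω => by rw [mul_comm])
      (mul_pos hκ hA0) hAB ω |>.trans (le_of_eq ?_)
    congr 1
    field_simp
  -- no hyperplane given the charts of the balls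
  have hzs := det_zcB_s W hw2 hwJ hcl hcl3 hqB hvs hvs'
  have n1 := hv₁ J hJ1 F A (S.mono (min_le_left _ _) hA) W hN₀ hw2 hwa hNM heN hJN hbN hql
    (by positivity : (0 : ℝ) ≤ 1 / κ) (fun ω hω => ⟨hBA ω (hqB ω hω), hqB ω hω⟩)
    hden (Z := zcB F v v' r w G G') (det_zcB_p w G' hvp hvp') hzs
  -- time and corner
  have hX : Det q (slam F w) (fun ω => Xe r qe (eL c s r (o 1) qe
      (frH F r q₀ (H 0) (slam F (o 1) ω)) (slam F (o 1) ω))) := by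
    intro ω ω' hω hω' hs
    have h13 : o 1 ≤ w := by have := W.o2; omega
    beta_reduce
    rw [slam_coarse F h13 hwJ ω, slam_coarse F h13 hwJ ω', hs]
  have hI1 := TC_few W hpos hn3 hbal hql hqB v v' hwJ
  have hI2 := Pool.LA91.t_full hql hwJ hT
  have hI3 : CH q (twF F w) (slam F w) ≤
      CH q (fun ω => (F.T ω, crF F c s r (o 1) Q (G 0) ω)) (slam F w) := by
    refine CH_mono_left hql.nonneg fun ω ω' _ _ hs => ?_
    simp only [Prod.mk.injEq] at hs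
    unfold twF
    rw [hs.1.1]
  have hI : CH q (fun ω => (F.T ω, crF F c s r (o 1) Q (G 0) ω)) (zcB F v v' r w G G') ≤
      CH q (fun ω => (F.T ω, crF F c s r (o 1) Q (G 0) ω)) (slam F w) + (ψ * J + R) := by
    have e1 : Real.log ((2 ^ (J - w) : ℕ) : ℝ) = ((J : ℝ) - w) * Real.log 2 := by
      push_cast
      rw [Real.log_pow, Nat.cast_sub hwJ]
    rw [e1] at hI2
    rw [← hR] at hI1
    linarith
  have hπ : (r : ℝ) * (1 / κ * Real.exp (-(δ₁ * J))) <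
      c₀ / 2 * Real.exp (-(2 * ((ψ * J + R) + 1) / c₀)) := by
    have e1 : 2 * ((ψ * J + R) + 1) / c₀ = δ₁ * J / 2 + 2 * (R + 1) / c₀ := by
      rw [hψ]
      field_simp
      ring
    have e2 : (r : ℝ) * (1 / κ * Real.exp (-(δ₁ * J))) =
        c₀ / 2 * (Y * Real.exp (-(δ₁ * J / 2 + 2 * (R + 1) / c₀) - δ₁ * J / 2)) := by
      rw [hY]
      have e3 : Real.exp (2 * (R + 1) / c₀) *
          Real.exp (-(δ₁ * J / 2 + 2 * (R + 1) / c₀) - δ₁ * J / 2) = Real.exp (-(δ₁ * J)) := by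
        rw [← Real.exp_add]
        congr 1
        ring
      rw [← e3]
      field_simp
    rw [e1, e2]
    refine mul_lt_mul_of_pos_left ?_ (by positivity)
    rw [Real.exp_sub, ← mul_div_assoc, div_lt_iff₀ (Real.exp_pos _), mul_comm]
    refine mul_lt_mul_of_pos_left ?_ (Real.exp_pos _)
    have h3 : Y ≤ δ₁ * J / 2 := by
      rw [div_le_iff₀ hδ₁] at hJ₃
      have h4 : (J₃ : ℝ) ≤ J := by exact_mod_cast hJ3
      nlinarith
    have := Real.add_one_le_exp (δ₁ * J / 2)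
    linarith
  have n2 := n1.time hql (Nat.succ_pos r) (fun ω => (F.T ω, crF F c s r (o 1) Q (G 0) ω))
    (slam F w) hX hzs hc₀ (by positivity : 0 ≤ ψ * J + R) hI hπ
  refine NoHyp.mono_eta hql.nonneg (n2.coarse hql.nonneg fun ω ω' _ _ hh => ?_) ?_
  · unfold zcB at hh
    simp only [Prod.mk.injEq] at hh
    obtain ⟨⟨⟨k1, k2⟩, ⟨k3, k4, k5⟩, k6, k6'⟩, k7, k8⟩ := hh
    have k9 := congrFun k2 r
    rw [trn_eq (Nat.lt_succ_self r), trn_eq (Nat.lt_succ_self r)] at k9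
    unfold kzF kaF kwF
    beta_reduce
    rw [k1, k3, k4, k5, k7, k8, k9]
  · rw [one_div, ← Real.rpow_natCast, ← Real.rpow_neg (by norm_num)]
    exact Real.rpow_le_rpow_of_exponent_le (by norm_num) (by linarith)

end Pool.NHZ
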