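import Pool.Agent.H42.D2.Cov2

/-!
# D2: reducible conics

If the determinant of a symmetric form of space (with an entry of size one) is small, its zeros are near
the union of two planes: `red_two`.
-/

set_option autoImplicit false

namespace Pool.D2Con

open Pool.D2A

/-- The scalar form of a ternary quadratic form. -/
def tq (a b c d e f x y z : ℝ) : ℝ :=
  a * x ^ 2 + 2 * b * x * y + c * y ^ 2 + 2 * d * x * z + 2 * e * y * z + f * z ^ 2

/-- Its determinant. -/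
def td (a b c d e f : ℝ) : ℝ := a * (c * f - e ^ 2) - b * (b * f - e * d) + d * (b * e - c * d)

/-- The two factors. -/
theorem red_b {a b c d e f R ν μ δ : ℝ} (hR : 1 ≤ R) (ha : |a| ≤ R) (hb : |b| ≤ R) (hc : |c| ≤ R)
    (hν : 0 < ν) (hν1 : ν ≤ 1) (hμ : |td a b c d e f| ≤ μ) (hD : ν < |a * c - b ^ 2|) :
    ∃ n m : Fin 3 → ℝ, (∃ i, ν * Real.sqrt ν ≤ |n i|) ∧ (∃ i, ν * Real.sqrt ν ≤ |m i|) ∧
      ∀ x y z : ℝ, |x| ≤ R → |y| ≤ R → |z| ≤ R → |tq a b c d e f x y z| ≤ δ →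
        |n 0 * x + n 1 * y + n 2 * z| ^ 2 ≤ 12 * R ^ 5 * (δ + μ) / ν ∨
        |m 0 * x + m 1 * y + m 2 * z| ^ 2 ≤ 12 * R ^ 5 * (δ + μ) / ν := by
  have hR0 : 0 ≤ R := by linarith only [hR]
  have hμ0 : 0 ≤ μ := (abs_nonneg _).trans hμ
  obtain ⟨D, hDd⟩ : ∃ D, D = a * c - b ^ 2 := ⟨_, rfl⟩
  obtain ⟨wi, hwi⟩ : ∃ w, w = b * e - c * d := ⟨_, rfl⟩
  obtain ⟨wj, hwj⟩ : ∃ w, w = b * d - a * e := ⟨_, rfl⟩
  rw [← hDd] at hD
  have bD : |D| ≤ 2 * R ^ 2 := by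
    rw [hDd]
    refine (abs_sub _ _).trans ?_
    rw [abs_mul, abs_pow]
    have a1 := mul_le_mul ha hc (abs_nonneg _) hR0
    have a2 := pow_le_pow_left₀ (abs_nonneg _) hb 2
    linarith only [a1, a2, pow_two R]
  have hD0 : 0 < |D| := hν.trans hD
  -- the binary form at the projected point
  have hq : ∀ x y z : ℝ, a * (D * x - wi * z) ^ 2 + 2 * b * (D * x - wi * z) * (D * y - wj * z) +
      c * (D * y - wj * z) ^ 2 = D ^ 2 * tq a b c d e f x y z - D * td a b c d e f * z ^ 2 := by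
    intro x y z
    rw [hDd, hwi, hwj]
    unfold tq td
    ring
  have hqb : ∀ x y z : ℝ, |z| ≤ R → |tq a b c d e f x y z| ≤ δ →
      |a * (D * x - wi * z) ^ 2 + 2 * b * (D * x - wi * z) * (D * y - wj * z) +
      c * (D * y - wj * z) ^ 2| ≤ 4 * R ^ 4 * (δ + μ) := by
    intro x y z hz ht
    rw [hq]
    refine (abs_sub _ _).trans ?_
    rw [abs_mul, abs_mul, abs_mul, abs_pow, abs_pow]
    have a1 : |D| ^ 2 * |tq a b c d e f x y z| ≤ (2 * R ^ 2) ^ 2 * δ :=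
      mul_le_mul (pow_le_pow_left₀ (abs_nonneg _) bD 2) ht (abs_nonneg _) (by positivity)
    have a2 : |D| * |td a b c d e f| * |z| ^ 2 ≤ 2 * R ^ 2 * μ * R ^ 2 :=
      mul_le_mul (mul_le_mul bD hμ (abs_nonneg _) (by positivity))
        (pow_le_pow_left₀ (abs_nonneg _) hz 2) (by positivity) (by positivity)
    have a3 : 0 ≤ R ^ 4 * μ := by positivity
    have e1 : (2 * R ^ 2) ^ 2 * δ = 4 * (R ^ 4 * δ) := by ring
    have e2 : 2 * R ^ 2 * μ * R ^ 2 = 2 * (R ^ 4 * μ) := by ring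
    have e3 : 4 * R ^ 4 * (δ + μ) = 4 * (R ^ 4 * δ) + 4 * (R ^ 4 * μ) := by ring
    rw [e3]
    rw [e1] at a1
    rw [e2] at a2
    linarith only [a1, a2, a3]
  have hsν : Real.sqrt ν ≤ 1 := Real.sqrt_le_one.mpr hν1
  have hνs : ν * Real.sqrt ν ≤ ν := by
    have := mul_le_mul_of_nonneg_left hsν hν.le
    linarith only [this]
  rcases lt_or_ge D 0 with hneg | hpos
  · -- hyperbolic
    have hDa : |D| = -D := abs_of_neg hneg
    rw [hDa] at hD hD0 bD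
    obtain ⟨s, hs1, hs2, hs3⟩ : ∃ s : ℝ, |s| = 1 ∧ s * |b| = b ∧ s * s = 1 := by
      rcases le_or_gt 0 b with h | h
      · exact ⟨1, abs_one, by rw [one_mul, abs_of_nonneg h], one_mul 1⟩
      · exact ⟨-1, by rw [abs_neg, abs_one], by rw [abs_of_neg h]; ring, by ring⟩
    obtain ⟨r, hr⟩ : ∃ r, r = Real.sqrt (-D) := ⟨_, rfl⟩
    have hrr : r ^ 2 = -D := by
      rw [hr]
      exact Real.sq_sqrt hD0.le
    have hr0 : 0 ≤ r := by
      rw [hr]
      exact Real.sqrt_nonneg _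
    have hrν : Real.sqrt ν ≤ r := by
      rw [hr]
      exact Real.sqrt_le_sqrt hD.le
    have hrR : r ≤ 2 * R := by
      refine le_of_sq_le_sq ?_ (by positivity)
      rw [hrr]
      have : (2 * R) ^ 2 = 4 * R ^ 2 := by ring
      rw [this]
      have h3 : 0 ≤ R ^ 2 := by positivity
      linarith only [bD, h3]
    obtain ⟨g, hg⟩ : ∃ g, g = |b| + r := ⟨_, rfl⟩
    have hgr : r ≤ g := by
      rw [hg]
      linarith only [abs_nonneg b]
    have hgR : g ≤ 3 * R := by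
      rw [hg]
      linarith only [hb, hrR]
    have hg0 : 0 ≤ g := hr0.trans hgr
    have hgeq : a * c + g ^ 2 = 2 * |b| * g := by
      have h3 : a * c = D + b ^ 2 := by rw [hDd]; ring
      have h4 : b ^ 2 = |b| ^ 2 := (sq_abs b).symm
      rw [h3, h4, hg]
      linear_combination hrr
    have hfac : ∀ u v : ℝ, g * (a * u ^ 2 + 2 * b * u * v + c * v ^ 2) =
        (a * u + s * g * v) * (g * u + s * c * v) := by
      intro u v
      have h5 : (a * u + s * g * v) * (g * u + s * c * v) = g * (a * u ^ 2) +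
          s * (a * c + g ^ 2) * u * v + s * s * g * (c * v ^ 2) := by ring
      rw [h5, hgeq, hs3]
      linear_combination (-2 * g * u * v) * hs2
    have hlow : ν * Real.sqrt ν ≤ |s * g * D| := by
      rw [abs_mul, abs_mul, hs1, one_mul, hDa, abs_of_nonneg hg0, mul_comm]
      exact mul_le_mul (hrν.trans hgr) hD.le hν.le hg0
    have hlow' : ν * Real.sqrt ν ≤ |g * D| := by
      rw [abs_mul, hDa, abs_of_nonneg hg0, mul_comm]
      exact mul_le_mul (hrν.trans hgr) hD.le hν.le hg0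
    refine ⟨![a * D, s * g * D, -(a * wi) - s * g * wj], ![g * D, s * c * D,
      -(g * wi) - s * c * wj], ⟨1, hlow⟩, ⟨0, hlow'⟩, fun x y z _ _ hz ht => ?_⟩
    have h6 := hqb x y z hz ht
    obtain ⟨u, hu⟩ : ∃ u, u = D * x - wi * z := ⟨_, rfl⟩
    obtain ⟨v, hv⟩ : ∃ v, v = D * y - wj * z := ⟨_, rfl⟩
    rw [← hu, ← hv] at h6
    have e1 : (![a * D, s * g * D, -(a * wi) - s * g * wj] : Fin 3 → ℝ) 0 * x +
        (![a * D, s * g * D, -(a * wi) - s * g * wj] : Fin 3 → ℝ) 1 * y +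
        (![a * D, s * g * D, -(a * wi) - s * g * wj] : Fin 3 → ℝ) 2 * z =
        a * u + s * g * v := by
      change a * D * x + s * g * D * y + (-(a * wi) - s * g * wj) * z = _
      rw [hu, hv]
      ring
    have e2 : (![g * D, s * c * D, -(g * wi) - s * c * wj] : Fin 3 → ℝ) 0 * x +
        (![g * D, s * c * D, -(g * wi) - s * c * wj] : Fin 3 → ℝ) 1 * y +
        (![g * D, s * c * D, -(g * wi) - s * c * wj] : Fin 3 → ℝ) 2 * z =
        g * u + s * c * v := by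
      change g * D * x + s * c * D * y + (-(g * wi) - s * c * wj) * z = _
      rw [hu, hv]
      ring
    rw [e1, e2]
    have h7 : |a * u + s * g * v| * |g * u + s * c * v| ≤ 12 * R ^ 5 * (δ + μ) / ν := by
      rw [← abs_mul, ← hfac, abs_mul, abs_of_nonneg hg0, le_div_iff₀ hν]
      have h8 := mul_le_mul hgR h6 (abs_nonneg _) (by positivity)
      have h9 : g * |a * u ^ 2 + 2 * b * u * v + c * v ^ 2| * ν ≤
          g * |a * u ^ 2 + 2 * b * u * v + c * v ^ 2| * 1 :=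
        mul_le_mul_of_nonneg_left hν1 (by positivity)
      have e3 : 12 * R ^ 5 * (δ + μ) = 3 * R * (4 * R ^ 4 * (δ + μ)) := by ring
      rw [e3]
      linarith only [h8, h9]
    rcases le_total |a * u + s * g * v| |g * u + s * c * v| with h10 | h10
    · left
      rw [pow_two]
      exact (mul_le_mul_of_nonneg_left h10 (abs_nonneg _)).trans h7
    · right
      rw [pow_two]
      exact (mul_le_mul_of_nonneg_right h10 (abs_nonneg _)).trans h7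
  · -- definite
    have hDa : |D| = D := abs_of_nonneg hpos
    rw [hDa] at hD hD0 bD
    refine ⟨![0, D, -wj], ![0, D, -wj], ⟨1, ?_⟩, ⟨1, ?_⟩, fun x y z _ _ hz ht => ?_⟩
    · change _ ≤ |D|
      rw [hDa]
      exact hνs.trans hD.le
    · change _ ≤ |D|
      rw [hDa]
      exact hνs.trans hD.le
    · left
      have h6 := hqb x y z hz ht
      obtain ⟨u, hu⟩ : ∃ u, u = D * x - wi * z := ⟨_, rfl⟩
      obtain ⟨v, hv⟩ : ∃ v, v = D * y - wj * z := ⟨_, rfl⟩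
      rw [← hu, ← hv] at h6
      have e1 : (![0, D, -wj] : Fin 3 → ℝ) 0 * x + (![0, D, -wj] : Fin 3 → ℝ) 1 * y +
          (![0, D, -wj] : Fin 3 → ℝ) 2 * z = v := by
        change 0 * x + D * y + -wj * z = _
        rw [hv]
        ring
      rw [e1, sq_abs, le_div_iff₀ hν]
      have e2 : a * (a * u ^ 2 + 2 * b * u * v + c * v ^ 2) = (a * u + b * v) ^ 2 + D * v ^ 2 := by
        rw [hDd]
        ring
      have h7 : D * v ^ 2 ≤ R * (4 * R ^ 4 * (δ + μ)) := by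
        have h8 : D * v ^ 2 ≤ |a * (a * u ^ 2 + 2 * b * u * v + c * v ^ 2)| := by
          rw [e2]
          refine le_trans ?_ (le_abs_self _)
          linarith only [sq_nonneg (a * u + b * v)]
        rw [abs_mul] at h8
        exact h8.trans (mul_le_mul ha h6 (abs_nonneg _) hR0)
      have h9 : v ^ 2 * ν ≤ D * v ^ 2 := by
        rw [mul_comm]
        exact mul_le_mul_of_nonneg_right hD.le (sq_nonneg _)
      have h10 : 0 ≤ R * (4 * R ^ 4 * (δ + μ)) := by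
        have : 0 ≤ D * v ^ 2 := by positivity
        exact this.trans h7
      have e3 : 12 * R ^ 5 * (δ + μ) = 3 * (R * (4 * R ^ 4 * (δ + μ))) := by ring
      rw [e3]
      linarith only [h7, h9, h10]

/-- The rank one case: the row of a large diagonal entry. -/
theorem red_a {a b c d e f R ν μ δ x y z : ℝ} (hR : 1 ≤ R) (ha1 : |a| ≤ R)
    (h1 : |a * c - b ^ 2| ≤ ν) (h2 : |a * f - d ^ 2| ≤ ν)
    (hμ : |td a b c d e f| ≤ μ) (hμν : R * μ ≤ ν ^ 2) (hν : 0 ≤ ν)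
    (hy : |y| ≤ R) (hz : |z| ≤ R) (ht : |tq a b c d e f x y z| ≤ δ) :
    |a * x + b * y + d * z| ^ 2 ≤ R * δ + 6 * R ^ 2 * ν := by
  have hR0 : 0 ≤ R := by linarith only [hR]
  have hoff : |b * d - a * e| ≤ 2 * ν := by
    have e1 : (b * d - a * e) ^ 2 = (a * c - b ^ 2) * (a * f - d ^ 2) - a * td a b c d e f := by
      unfold td
      ring
    have h4 : (b * d - a * e) ^ 2 ≤ (2 * ν) ^ 2 := by
      rw [e1]
      have h5 : (a * c - b ^ 2) * (a * f - d ^ 2) ≤ ν * ν := by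
        refine (le_abs_self _).trans ?_
        rw [abs_mul]
        exact mul_le_mul h1 h2 (abs_nonneg _) hν
      have h6 : -(a * td a b c d e f) ≤ R * μ := by
        refine (neg_le_abs _).trans ?_
        rw [abs_mul]
        exact mul_le_mul ha1 hμ (abs_nonneg _) hR0
      have e2 : (2 * ν) ^ 2 = 4 * ν ^ 2 := by ring
      have e3 : ν * ν = ν ^ 2 := by ring
      rw [e2]
      rw [e3] at h5
      linarith only [h5, h6, hμν, sq_nonneg ν]
    exact abs_le_of_sq_le_sq h4 (by positivity)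
  have e4 : (a * x + b * y + d * z) ^ 2 = a * tq a b c d e f x y z - (a * c - b ^ 2) * y ^ 2 -
      (a * f - d ^ 2) * z ^ 2 + 2 * (b * d - a * e) * (y * z) := by
    unfold tq
    ring
  rw [sq_abs, e4]
  have k1 : a * tq a b c d e f x y z ≤ R * δ := by
    refine (le_abs_self _).trans ?_
    rw [abs_mul]
    exact mul_le_mul ha1 ht (abs_nonneg _) hR0
  have sy : |y ^ 2| ≤ R ^ 2 := by
    rw [abs_pow]
    exact pow_le_pow_left₀ (abs_nonneg _) hy 2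
  have sz : |z ^ 2| ≤ R ^ 2 := by
    rw [abs_pow]
    exact pow_le_pow_left₀ (abs_nonneg _) hz 2
  have k2 : -((a * c - b ^ 2) * y ^ 2) ≤ ν * R ^ 2 := by
    refine (neg_le_abs _).trans ?_
    rw [abs_mul]
    exact mul_le_mul h1 sy (abs_nonneg _) hν
  have k3 : -((a * f - d ^ 2) * z ^ 2) ≤ ν * R ^ 2 := by
    refine (neg_le_abs _).trans ?_
    rw [abs_mul]
    exact mul_le_mul h2 sz (abs_nonneg _) hν
  have k4 : 2 * (b * d - a * e) * (y * z) ≤ 2 * (2 * ν) * (R * R) := by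
    refine (le_abs_self _).trans ?_
    rw [abs_mul, abs_mul, abs_mul, abs_two]
    exact mul_le_mul (mul_le_mul_of_nonneg_left hoff (by norm_num))
      (mul_le_mul hy hz (abs_nonneg _) hR0) (by positivity) (by positivity)
  have e5 : 2 * (2 * ν) * (R * R) = 4 * (ν * R ^ 2) := by ring
  have e6 : 6 * R ^ 2 * ν = 6 * (ν * R ^ 2) := by ring
  rw [e5] at k4
  rw [e6]
  linarith only [k1, k2, k3, k4]

/-- A large entry gives a large diagonal entry. -/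
theorem diag_big {a b c ν : ℝ} (h : |a * c - b ^ 2| ≤ ν) (hν : ν ≤ 1 / 2) (hb : 1 ≤ |b|) :
    1 / 2 ≤ |a| ∨ 1 / 2 ≤ |c| := by
  by_contra hcon
  push Not at hcon
  have h1 : 1 ≤ b ^ 2 := by
    rw [← sq_abs]
    exact one_le_pow₀ hb
  have h2 : |a * c| ≤ 1 / 2 * (1 / 2) := by
    rw [abs_mul]
    exact mul_le_mul hcon.1.le hcon.2.le (abs_nonneg _) (by norm_num)
  have h3 := (abs_le.mp h).1
  have h4 := le_abs_self (a * c)
  linarith only [h1, h2, h3, h4, hν]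

/-- **A reducible conic**: if the determinant of a symmetric form with an entry of size one is small,
then its zeros are near the union of two planes. -/
theorem red_two {Q : Fin 3 → Fin 3 → ℝ} (hs : ∀ i j, Q i j = Q j i) {R ν μ δ : ℝ} (hR : 1 ≤ R)
    (hQ : ∀ i j, |Q i j| ≤ R) (h1 : ∃ i j, 1 ≤ |Q i j|) (hν : 0 < ν) (hν1 : ν ≤ 1 / 2)
    (hμ : |dt Q| ≤ μ) (hμν : R * μ ≤ ν ^ 2) :
    ∃ n m : Fin 3 → ℝ, (∃ i, 1 / 2 ≤ |n i|) ∧ (∃ i, 1 / 2 ≤ |m i|) ∧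
      ∀ X : Fin 3 → ℝ, (∀ i, |X i| ≤ R) → |bf Q X X| ≤ δ →
        |lf n X| ^ 2 ≤ 3 * R ^ 5 * (δ + μ) / ν ^ 4 + 6 * R ^ 2 * ν ∨
        |lf m X| ^ 2 ≤ 3 * R ^ 5 * (δ + μ) / ν ^ 4 + 6 * R ^ 2 * ν := by
  have hR0 : 0 ≤ R := by linarith only [hR]
  have hμ0 : 0 ≤ μ := (abs_nonneg _).trans hμ
  have hν0 : ν ≤ 1 := by linarith only [hν1]
  have e10 := hs 1 0
  have e20 := hs 2 0
  have e21 := hs 2 1
  have hbf : ∀ X : Fin 3 → ℝ, bf Q X X =
      tq (Q 0 0) (Q 0 1) (Q 1 1) (Q 0 2) (Q 1 2) (Q 2 2) (X 0) (X 1) (X 2) := by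
    intro X
    rw [bf3, e10, e20, e21]
    unfold tq
    ring
  have hbf1 : ∀ X : Fin 3 → ℝ, bf Q X X =
      tq (Q 0 0) (Q 0 2) (Q 2 2) (Q 0 1) (Q 1 2) (Q 1 1) (X 0) (X 2) (X 1) := by
    intro X
    rw [bf3, e10, e20, e21]
    unfold tq
    ring
  have hbf2 : ∀ X : Fin 3 → ℝ, bf Q X X =
      tq (Q 1 1) (Q 1 2) (Q 2 2) (Q 0 1) (Q 0 2) (Q 0 0) (X 1) (X 2) (X 0) := by
    intro X
    rw [bf3, e10, e20, e21]
    unfold tq
    ring
  have hbf3 : ∀ X : Fin 3 → ℝ, bf Q X X =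
      tq (Q 1 1) (Q 0 1) (Q 0 0) (Q 1 2) (Q 0 2) (Q 2 2) (X 1) (X 0) (X 2) := by
    intro X
    rw [bf3, e10, e20, e21]
    unfold tq
    ring
  have hbf4 : ∀ X : Fin 3 → ℝ, bf Q X X =
      tq (Q 2 2) (Q 0 2) (Q 0 0) (Q 1 2) (Q 0 1) (Q 1 1) (X 2) (X 0) (X 1) := by
    intro X
    rw [bf3, e10, e20, e21]
    unfold tq
    ring
  have ht0 : td (Q 0 0) (Q 0 1) (Q 1 1) (Q 0 2) (Q 1 2) (Q 2 2) = dt Q := by
    unfold td dt br
    rw [e10, e20, e21]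
    ring
  have ht1 : td (Q 0 0) (Q 0 2) (Q 2 2) (Q 0 1) (Q 1 2) (Q 1 1) = dt Q := by
    unfold td dt br
    rw [e10, e20, e21]
    ring
  have ht2 : td (Q 1 1) (Q 1 2) (Q 2 2) (Q 0 1) (Q 0 2) (Q 0 0) = dt Q := by
    unfold td dt br
    rw [e10, e20, e21]
    ring
  have ht3 : td (Q 1 1) (Q 0 1) (Q 0 0) (Q 1 2) (Q 0 2) (Q 2 2) = dt Q := by
    unfold td dt br
    rw [e10, e20, e21]
    ring
  have ht4 : td (Q 2 2) (Q 0 2) (Q 0 0) (Q 1 2) (Q 0 1) (Q 1 1) = dt Q := by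
    unfold td dt br
    rw [e10, e20, e21]
    ring
  -- the bound of the hyperbolic case
  have hw : 0 < ν * Real.sqrt ν := mul_pos hν (Real.sqrt_pos.mpr hν)
  have hw2 : (ν * Real.sqrt ν) ^ 2 = ν ^ 3 := by
    rw [mul_pow, Real.sq_sqrt hν.le]
    ring
  have hB : ∀ n m : Fin 3 → ℝ, (∃ i, ν * Real.sqrt ν ≤ |n i|) → (∃ i, ν * Real.sqrt ν ≤ |m i|) →
      (∀ X : Fin 3 → ℝ, (∀ i, |X i| ≤ R) → |bf Q X X| ≤ δ →
        |lf n X| ^ 2 ≤ 12 * R ^ 5 * (δ + μ) / ν ∨ |lf m X| ^ 2 ≤ 12 * R ^ 5 * (δ + μ) / ν) →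
      ∃ n m : Fin 3 → ℝ, (∃ i, 1 / 2 ≤ |n i|) ∧ (∃ i, 1 / 2 ≤ |m i|) ∧
      ∀ X : Fin 3 → ℝ, (∀ i, |X i| ≤ R) → |bf Q X X| ≤ δ →
        |lf n X| ^ 2 ≤ 3 * R ^ 5 * (δ + μ) / ν ^ 4 + 6 * R ^ 2 * ν ∨
        |lf m X| ^ 2 ≤ 3 * R ^ 5 * (δ + μ) / ν ^ 4 + 6 * R ^ 2 * ν := by
    intro n m hn hm H
    obtain ⟨σ, hσ⟩ : ∃ σ, σ = 1 / (2 * (ν * Real.sqrt ν)) := ⟨_, rfl⟩
    have hσ0 : 0 < σ := by
      rw [hσ]
      positivity
    have hσ2 : σ ^ 2 = 1 / (4 * ν ^ 3) := by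
      rw [hσ, div_pow, mul_pow, hw2]
      ring
    have hsc : ∀ n : Fin 3 → ℝ, (∃ i, ν * Real.sqrt ν ≤ |n i|) → ∃ i, 1 / 2 ≤ |σ * n i| := by
      rintro n ⟨i, hi⟩
      refine ⟨i, ?_⟩
      rw [abs_mul, abs_of_pos hσ0]
      have h2 := mul_le_mul_of_nonneg_left hi hσ0.le
      have h3 : σ * (ν * Real.sqrt ν) = 1 / 2 := by
        rw [hσ]
        field_simp
      linarith only [h2, h3]
    have hlf : ∀ n X : Fin 3 → ℝ, |lf n X| ^ 2 ≤ 12 * R ^ 5 * (δ + μ) / ν →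
        |lf (fun i => σ * n i) X| ^ 2 ≤ 3 * R ^ 5 * (δ + μ) / ν ^ 4 + 6 * R ^ 2 * ν := by
      intro n X hX
      have e : lf (fun i => σ * n i) X = σ * lf n X := by
        unfold lf
        ring
      rw [e, abs_mul, mul_pow, sq_abs, hσ2]
      have h2 := mul_le_mul_of_nonneg_left hX (by positivity : (0 : ℝ) ≤ 1 / (4 * ν ^ 3))
      have h3 : 1 / (4 * ν ^ 3) * (12 * R ^ 5 * (δ + μ) / ν) = 3 * R ^ 5 * (δ + μ) / ν ^ 4 := by
        field_simp
        ring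
      have h4 : 0 ≤ 6 * R ^ 2 * ν := by positivity
      linarith only [h2, h3, h4]
    refine ⟨fun i => σ * n i, fun i => σ * m i, hsc n hn, hsc m hm, fun X hX hq => ?_⟩
    rcases H X hX hq with h | h
    · exact Or.inl (hlf n X h)
    · exact Or.inr (hlf m X h)
  have hA : ∀ δ' : ℝ, 0 ≤ δ' → R * δ' + 6 * R ^ 2 * ν ≤
      3 * R ^ 5 * (δ' + μ) / ν ^ 4 + 6 * R ^ 2 * ν := by
    intro δ' hδ'
    have hν4 : ν ^ 4 ≤ 1 := pow_le_one₀ hν.le hν0
    have h2 : δ' ≤ (δ' + μ) / ν ^ 4 := by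
      rw [le_div_iff₀ (by positivity)]
      have := mul_le_mul_of_nonneg_left hν4 hδ'
      linarith only [this, hμ0]
    have h3 : R ≤ R ^ 5 := by
      calc R = R ^ 1 := (pow_one R).symm
        _ ≤ R ^ 5 := pow_le_pow_right₀ hR (by norm_num)
    have h5 : R * δ' ≤ R ^ 5 * ((δ' + μ) / ν ^ 4) := mul_le_mul h3 h2 hδ' (by positivity)
    have h7 : 0 ≤ R ^ 5 * ((δ' + μ) / ν ^ 4) := by positivity
    have e : 3 * R ^ 5 * (δ' + μ) / ν ^ 4 = 3 * (R ^ 5 * ((δ' + μ) / ν ^ 4)) := by ring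
    rw [e]
    linarith only [h5, h7]
  by_cases c0 : ν < |Q 0 0 * Q 1 1 - Q 0 1 ^ 2|
  · obtain ⟨n, m, hn, hm, H⟩ := red_b (μ := μ) (δ := δ) hR (hQ 0 0) (hQ 0 1) (hQ 1 1) hν hν0
      (by rw [ht0]; exact hμ) c0
    refine hB n m hn hm fun X hX hq => ?_
    rw [hbf] at hq
    exact H (X 0) (X 1) (X 2) (hX 0) (hX 1) (hX 2) hq
  by_cases c1 : ν < |Q 0 0 * Q 2 2 - Q 0 2 ^ 2|
  · obtain ⟨n, m, ⟨i, hn⟩, ⟨j, hm⟩, H⟩ := red_b (μ := μ) (δ := δ) hR (hQ 0 0) (hQ 0 2) (hQ 2 2) hν hν0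
      (by rw [ht1]; exact hμ) c1
    refine hB ![n 0, n 2, n 1] ![m 0, m 2, m 1] ?_ ?_ fun X hX hq => ?_
    · fin_cases i
      · exact ⟨0, hn⟩
      · exact ⟨2, hn⟩
      · exact ⟨1, hn⟩
    · fin_cases j
      · exact ⟨0, hm⟩
      · exact ⟨2, hm⟩
      · exact ⟨1, hm⟩
    · rw [hbf1] at hq
      have e1 : lf ![n 0, n 2, n 1] X = n 0 * X 0 + n 1 * X 2 + n 2 * X 1 := by
        change n 0 * X 0 + n 2 * X 1 + n 1 * X 2 = _
        ring
      have e2 : lf ![m 0, m 2, m 1] X = m 0 * X 0 + m 1 * X 2 + m 2 * X 1 := by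
        change m 0 * X 0 + m 2 * X 1 + m 1 * X 2 = _
        ring
      rw [e1, e2]
      exact H (X 0) (X 2) (X 1) (hX 0) (hX 2) (hX 1) hq
  by_cases c2 : ν < |Q 1 1 * Q 2 2 - Q 1 2 ^ 2|
  · obtain ⟨n, m, ⟨i, hn⟩, ⟨j, hm⟩, H⟩ := red_b (μ := μ) (δ := δ) hR (hQ 1 1) (hQ 1 2) (hQ 2 2) hν hν0
      (by rw [ht2]; exact hμ) c2
    refine hB ![n 2, n 0, n 1] ![m 2, m 0, m 1] ?_ ?_ fun X hX hq => ?_
    · fin_cases i
      · exact ⟨1, hn⟩
      · exact ⟨2, hn⟩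
      · exact ⟨0, hn⟩
    · fin_cases j
      · exact ⟨1, hm⟩
      · exact ⟨2, hm⟩
      · exact ⟨0, hm⟩
    · rw [hbf2] at hq
      have e1 : lf ![n 2, n 0, n 1] X = n 0 * X 1 + n 1 * X 2 + n 2 * X 0 := by
        change n 2 * X 0 + n 0 * X 1 + n 1 * X 2 = _
        ring
      have e2 : lf ![m 2, m 0, m 1] X = m 0 * X 1 + m 1 * X 2 + m 2 * X 0 := by
        change m 2 * X 0 + m 0 * X 1 + m 1 * X 2 = _
        ring
      rw [e1, e2]
      exact H (X 1) (X 2) (X 0) (hX 1) (hX 2) (hX 0) hq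
  · rw [not_lt] at c0 c1 c2
    -- a large diagonal entry
    have hk : 1 / 2 ≤ |Q 0 0| ∨ 1 / 2 ≤ |Q 1 1| ∨ 1 / 2 ≤ |Q 2 2| := by
      obtain ⟨i, j, hij⟩ := h1
      have f1 : 1 ≤ |Q 0 1| → 1 / 2 ≤ |Q 0 0| ∨ 1 / 2 ≤ |Q 1 1| ∨ 1 / 2 ≤ |Q 2 2| := fun h => by
        rcases diag_big c0 hν1 h with h2 | h2
        · exact Or.inl h2
        · exact Or.inr (Or.inl h2)
      have f2 : 1 ≤ |Q 0 2| → 1 / 2 ≤ |Q 0 0| ∨ 1 / 2 ≤ |Q 1 1| ∨ 1 / 2 ≤ |Q 2 2| := fun h => by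
        rcases diag_big c1 hν1 h with h2 | h2
        · exact Or.inl h2
        · exact Or.inr (Or.inr h2)
      have f3 : 1 ≤ |Q 1 2| → 1 / 2 ≤ |Q 0 0| ∨ 1 / 2 ≤ |Q 1 1| ∨ 1 / 2 ≤ |Q 2 2| := fun h => by
        rcases diag_big c2 hν1 h with h2 | h2
        · exact Or.inr (Or.inl h2)
        · exact Or.inr (Or.inr h2)
      have f4 : ∀ {t : ℝ}, 1 ≤ |t| → 1 / 2 ≤ |t| := fun h => by linarith only [h]
      fin_cases i <;> fin_cases j
      · exact Or.inl (f4 hij)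
      · exact f1 hij
      · exact f2 hij
      · exact f1 (by rw [← e10]; exact hij)
      · exact Or.inr (Or.inl (f4 hij))
      · exact f3 hij
      · exact f2 (by rw [← e20]; exact hij)
      · exact f3 (by rw [← e21]; exact hij)
      · exact Or.inr (Or.inr (f4 hij))
    rcases hk with hk | hk | hk
    · refine ⟨Q 0, Q 0, ⟨0, hk⟩, ⟨0, hk⟩, fun X hX hq => Or.inl ?_⟩
      have hδ : 0 ≤ δ := (abs_nonneg _).trans hq
      rw [hbf] at hq
      exact (red_a hR (hQ 0 0) c0 c1 (by rw [ht0]; exact hμ) hμν hν.le (hX 1) (hX 2)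
        hq).trans (hA δ hδ)
    · refine ⟨Q 1, Q 1, ⟨1, hk⟩, ⟨1, hk⟩, fun X hX hq => Or.inl ?_⟩
      have hδ : 0 ≤ δ := (abs_nonneg _).trans hq
      rw [hbf3] at hq
      have h2 := (red_a hR (hQ 1 1) (by rw [mul_comm]; exact c0) c2
        (by rw [ht3]; exact hμ) hμν hν.le (hX 0) (hX 2) hq).trans (hA δ hδ)
      have e : lf (Q 1) X = Q 1 1 * X 1 + Q 0 1 * X 0 + Q 1 2 * X 2 := by
        unfold lf
        rw [e10]
        ring
      rw [e]
      exact h2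
    · refine ⟨Q 2, Q 2, ⟨2, hk⟩, ⟨2, hk⟩, fun X hX hq => Or.inl ?_⟩
      have hδ : 0 ≤ δ := (abs_nonneg _).trans hq
      rw [hbf4] at hq
      have h2 := (red_a hR (hQ 2 2) (by rw [mul_comm]; exact c1) (by rw [mul_comm]; exact c2)
        (by rw [ht4]; exact hμ) hμν hν.le (hX 0) (hX 1) hq).trans (hA δ hδ)
      have e : lf (Q 2) X = Q 2 2 * X 2 + Q 0 2 * X 0 + Q 1 2 * X 1 := by
        unfold lf
        rw [e20, e21]
        ring
      rw [e]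
      exact h2

end Pool.D2Con
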