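import Pool.Agent.H42.D2.NoPlk
import Pool.Agent.H42.D2.Red
import Pool.Agent.H90.D2.Sel

/-!
# D2: directions which are in no visible plane

`NoPk`: the direction `X` is in no plane which is a function of `z'`, with a margin. Consequences for the
law of a pair with copies: `det_cop` (the determinant of three copies of one side is large),
`NoPk.quad`, `quad_own`, `quad_cop` (a conic which is read from the copies of one side and contains
the direction is not reducible). `nopk_cls`: the class theorem `noplk` in this form.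
-/

set_option autoImplicit false

namespace Pool.D2Con

open Finset Real
open Pool.Agent.H49.Ent Pool.Agent.H32.Dense Pool.STK Pool.K2S Pool.D2A
open Pool.KM7 (P2 P2_isLaw P2_pos)
open Pool.JVE (pe_sum)
open Pool.D2T (NoCov)

/-- **No planks.** -/
def NoPk {Ω ζ' : Type} [Fintype Ω] (q : Ω → ℝ) (X : Ω → Fin 3 → ℝ) (z' : Ω → ζ') (η c : ℝ) :
    Prop :=
  ∀ n : ζ' → Fin 3 → ℝ, (∀ ω, 0 < q ω → (∀ j, |n (z' ω) j| ≤ 1) ∧ ∃ j, |n (z' ω) j| = 1) →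
    law q (fun ω => |lf (n (z' ω)) (X ω)| ≤ η) True ≤ c

section law

variable {Ω : Type} [Fintype Ω] {q : Ω → ℝ}

theorem law_mono' (hq : ∀ ω, 0 ≤ q ω) {A B : Ω → Prop} (h : ∀ ω, 0 < q ω → A ω → B ω) :
    law q A True ≤ law q B True := by
  classical
  have e1 : ∀ G : Ω → Prop, law q G True = ∑ ω, if G ω then q ω else 0 := fun G => pe_sum q G
  rw [e1, e1]
  refine Finset.sum_le_sum fun ω _ => ?_
  rcases (hq ω).eq_or_lt with h0 | h0
  · rw [← h0]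
    simp
  · by_cases h1 : A ω
    · rw [if_pos h1, if_pos (h ω h0 h1)]
    · rw [if_neg h1]
      split_ifs
      exacts [h0.le, le_rfl]

end law

/-- A normalised vector. -/
theorem nrm3 {ρ : ℝ} (hρ : 0 < ρ) (n : Fin 3 → ℝ) : ∃ n' : Fin 3 → ℝ, (∀ j, |n' j| ≤ 1) ∧
    (∃ j, |n' j| = 1) ∧ ((∃ j, ρ ≤ |n j|) → ∀ (X : Fin 3 → ℝ) (η : ℝ), 0 ≤ η →
      |lf n X| ≤ ρ * η → |lf n' X| ≤ η) := by
  by_cases h : ∃ j, ρ ≤ |n j|
  · obtain ⟨j₀, hj₀⟩ := h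
    obtain ⟨j, -, hj⟩ := Finset.exists_max_image (Finset.univ : Finset (Fin 3)) (fun j => |n j|)
      ⟨0, Finset.mem_univ 0⟩
    have hN : ρ ≤ |n j| := hj₀.trans (hj j₀ (Finset.mem_univ j₀))
    have hN0 : 0 < |n j| := hρ.trans_le hN
    refine ⟨fun l => n l / |n j|, fun l => ?_, ⟨j, ?_⟩, fun _ X η hη hX => ?_⟩
    · rw [abs_div, abs_abs, div_le_one hN0]
      exact hj l (Finset.mem_univ l)
    · rw [abs_div, abs_abs, div_self hN0.ne']
    · have e : lf (fun l => n l / |n j|) X = lf n X / |n j| := by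
        unfold lf
        ring
      rw [e, abs_div, abs_abs, div_le_iff₀ hN0]
      refine hX.trans ?_
      rw [mul_comm η]
      exact mul_le_mul_of_nonneg_right hN hη
  · refine ⟨fun _ => 1, fun _ => by norm_num, ⟨0, by norm_num⟩, fun h' => absurd h' h⟩

section NoPk

variable {Ω ζ' : Type} [Fintype Ω] {q : Ω → ℝ} {X : Ω → Fin 3 → ℝ} {z' : Ω → ζ'} {η c : ℝ}

/-- Vectors of size at least `ρ`. -/
theorem NoPk.scale (hq : ∀ ω, 0 ≤ q ω) (h : NoPk q X z' η c) (hη : 0 ≤ η) {ρ : ℝ} (hρ : 0 < ρ)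
    (n : ζ' → Fin 3 → ℝ) :
    law q (fun ω => (∃ j, ρ ≤ |n (z' ω) j|) ∧ |lf (n (z' ω)) (X ω)| ≤ ρ * η) True ≤ c := by
  choose n' h1 h2 h3 using fun t => nrm3 hρ (n t)
  refine le_trans (law_mono' hq fun ω _ hω => ?_) (h n' fun ω _ => ⟨h1 _, h2 _⟩)
  exact h3 _ hω.1 _ _ hη hω.2

/-- The form is normalised. -/
structure Qn (Q : Fin 3 → Fin 3 → ℝ) (R : ℝ) : Prop where
  symm : ∀ i j, Q i j = Q j i
  le : ∀ i j, |Q i j| ≤ R
  one : ∃ i j, 1 ≤ |Q i j|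

/-- The two planes of a form. -/
theorem two_pl {R ν μ δ η : ℝ} (hR : 1 ≤ R) (hν : 0 < ν) (hν1 : ν ≤ 1 / 2) (hμν : R * μ ≤ ν ^ 2)
    (hη : 0 ≤ η) (hn : 3 * R ^ 5 * (δ + μ) / ν ^ 4 + 6 * R ^ 2 * ν ≤ (1 / 2 * η) ^ 2)
    (Q : Fin 3 → Fin 3 → ℝ) :
    ∃ n m : Fin 3 → ℝ, ∀ X : Fin 3 → ℝ, Qn Q R → |dt Q| ≤ μ → (∀ i, |X i| ≤ R) →
      |bf Q X X| ≤ δ → ((∃ j, 1 / 2 ≤ |n j|) ∧ |lf n X| ≤ 1 / 2 * η) ∨
        ((∃ j, 1 / 2 ≤ |m j|) ∧ |lf m X| ≤ 1 / 2 * η) := by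
  by_cases h : Qn Q R ∧ |dt Q| ≤ μ
  · obtain ⟨n, m, h1, h2, h3⟩ := red_two (δ := δ) h.1.symm hR h.1.le h.1.one hν hν1 h.2 hμν
    refine ⟨n, m, fun X _ _ hX hq => ?_⟩
    rcases h3 X hX hq with h4 | h4
    · exact Or.inl ⟨h1, abs_le_of_sq_le_sq (by
        have := h4.trans hn
        rwa [sq_abs] at this) (by positivity)⟩
    · exact Or.inr ⟨h2, abs_le_of_sq_le_sq (by
        have := h4.trans hn
        rwa [sq_abs] at this) (by positivity)⟩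
  · exact ⟨0, 0, fun X h1 h2 => absurd ⟨h1, h2⟩ h⟩

/-- **A visible conic is not reducible.** -/
theorem NoPk.quad (hq : ∀ ω, 0 ≤ q ω) (h : NoPk q X z' η c) (hη : 0 ≤ η) {R ν μ δ : ℝ}
    (hR : 1 ≤ R) (hX : ∀ ω, 0 < q ω → ∀ i, |X ω i| ≤ R) (hν : 0 < ν) (hν1 : ν ≤ 1 / 2)
    (hμν : R * μ ≤ ν ^ 2) (hn : 3 * R ^ 5 * (δ + μ) / ν ^ 4 + 6 * R ^ 2 * ν ≤ (1 / 2 * η) ^ 2)
    (Q : ζ' → Fin 3 → Fin 3 → ℝ) :
    law q (fun ω => Qn (Q (z' ω)) R ∧ |dt (Q (z' ω))| ≤ μ ∧ |bf (Q (z' ω)) (X ω) (X ω)| ≤ δ)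
      True ≤ 2 * c := by
  choose n m h1 using fun t => two_pl (δ := δ) hR hν hν1 hμν hη hn (Q t)
  have h2 := law_or hq (fun ω => Qn (Q (z' ω)) R ∧ |dt (Q (z' ω))| ≤ μ ∧
      |bf (Q (z' ω)) (X ω) (X ω)| ≤ δ)
    (fun ω => (∃ j, 1 / 2 ≤ |n (z' ω) j|) ∧ |lf (n (z' ω)) (X ω)| ≤ 1 / 2 * η)
    (fun ω => (∃ j, 1 / 2 ≤ |m (z' ω) j|) ∧ |lf (m (z' ω)) (X ω)| ≤ 1 / 2 * η)
    fun ω hω hG => h1 _ _ hG.1 hG.2.1 (hX ω hω) hG.2.2
  have h3 := h.scale hq hη (by norm_num : (0 : ℝ) < 1 / 2) n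
  have h4 := h.scale hq hη (by norm_num : (0 : ℝ) < 1 / 2) m
  linarith

end NoPk

/-! ### The copies -/

section sel

variable {Ω ζ' : Type} [Fintype Ω]

open Classical in
/-- **The best value** for each record. -/
theorem sel_max {p : Ω → ℝ} (hp : IsLaw p) (z' : Ω → ζ') {A : Type} [Fintype A]
    (w : ζ' → A → ℝ) (hw : ∀ ω, 0 < p ω → (∀ g, 0 ≤ w (z' ω) g) ∧ ∑ g, w (z' ω) g = 1)
    (B : A → Ω → Prop) :
    ∃ f : ζ' → A, ∑ ω, p ω * ∑ g, w (z' ω) g * (if B g ω then 1 else 0) ≤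
      law p (fun ω => B (f (z' ω)) ω) True := by
  classical
  have h0 := hp.nonneg
  have e1 : ∀ G : Ω → Prop, law p G True = ∑ ω, if G ω then p ω else 0 := fun G => pe_sum p G
  obtain ⟨ω₀, hω₀⟩ : ∃ ω, 0 < p ω := by
    by_contra hcon
    push Not at hcon
    have : ∑ ω, p ω ≤ 0 := Finset.sum_nonpos fun ω _ => hcon ω
    rw [hp.sum_one] at this
    linarith
  have hA : Nonempty A := by
    by_contra hcon
    rw [not_nonempty_iff] at hcon
    have h1 := (hw ω₀ hω₀).2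
    rw [Finset.univ_eq_empty, Finset.sum_empty] at h1
    exact zero_ne_one h1
  obtain ⟨g₀⟩ := hA
  obtain ⟨Φ, hΦ⟩ : ∃ Φ : ζ' → A → ℝ, Φ = fun t g => ∑ ω ∈ Finset.univ.filter (fun ω => z' ω = t),
    (if B g ω then p ω else 0) := ⟨_, rfl⟩
  have hmax : ∀ t, ∃ g, ∀ g', Φ t g' ≤ Φ t g := fun t => by
    obtain ⟨g, -, hg⟩ := Finset.exists_max_image (Finset.univ : Finset A) (Φ t)
      ⟨g₀, Finset.mem_univ _⟩
    exact ⟨g, fun g' => hg g' (Finset.mem_univ g')⟩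
  choose f hf using hmax
  refine ⟨f, ?_⟩
  rw [e1]
  have hm : ∀ ω ∈ (Finset.univ : Finset Ω), z' ω ∈ Finset.univ.image z' := fun ω _ =>
    Finset.mem_image_of_mem _ (Finset.mem_univ ω)
  rw [← Finset.sum_fiberwise_of_maps_to hm, ← Finset.sum_fiberwise_of_maps_to hm]
  refine Finset.sum_le_sum fun t _ => ?_
  have h2 : ∑ ω ∈ Finset.univ.filter (fun ω => z' ω = t), (if B (f (z' ω)) ω then p ω else 0) =
      Φ t (f t) := by
    rw [hΦ]
    refine Finset.sum_congr rfl fun ω hω => ?_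
    rw [(Finset.mem_filter.mp hω).2]
  have h3 : ∑ ω ∈ Finset.univ.filter (fun ω => z' ω = t), p ω * ∑ g, w (z' ω) g *
      (if B g ω then 1 else 0) = ∑ g, w t g * Φ t g := by
    rw [hΦ]
    simp only [Finset.mul_sum]
    rw [Finset.sum_comm]
    refine Finset.sum_congr rfl fun g _ => Finset.sum_congr rfl fun ω hω => ?_
    rw [(Finset.mem_filter.mp hω).2]
    split_ifs <;> ring
  rw [h2, h3]
  by_cases hmass : ∃ ω, 0 < p ω ∧ z' ω = t
  · obtain ⟨ω, hω, rfl⟩ := hmass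
    obtain ⟨k1, k2⟩ := hw ω hω
    calc ∑ g, w (z' ω) g * Φ (z' ω) g ≤ ∑ g, w (z' ω) g * Φ (z' ω) (f (z' ω)) :=
          Finset.sum_le_sum fun g _ => mul_le_mul_of_nonneg_left (hf _ g) (k1 g)
      _ = Φ (z' ω) (f (z' ω)) := by rw [← Finset.sum_mul, k2, one_mul]
  · push Not at hmass
    have h4 : ∀ g, Φ t g = 0 := by
      intro g
      rw [hΦ]
      refine Finset.sum_eq_zero fun ω hω => ?_
      have h5 : p ω = 0 := by
        by_contra h6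
        exact hmass ω (lt_of_le_of_ne (h0 ω) (Ne.symm h6)) (Finset.mem_filter.mp hω).2
      rw [h5]
      split_ifs <;> rfl
    rw [h4, Finset.sum_eq_zero fun g _ => by rw [h4, mul_zero]]

variable {σ : Type} {N M : ℕ}

/-- The product law of the copies given the record. -/
theorem w_law {p : Ω → ℝ} (hp : IsLaw p) (z' : Ω → ζ') (M : ℕ) (ω : Ω) (hω : 0 < p ω) :
    (∀ g : Fin M → Ω, 0 ≤ ∏ k, cond p z' (z' ω) (g k)) ∧
      ∑ g : Fin M → Ω, ∏ k, cond p z' (z' ω) (g k) = 1 := by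
  classical
  refine ⟨fun g => Finset.prod_nonneg fun k _ => cond_nonneg hp.nonneg z' _ _, ?_⟩
  have h1 : ∏ _k : Fin M, ∑ ω', cond p z' (z' ω) ω' = 1 := Finset.prod_eq_one fun k _ =>
    sum_cond p z' (law_pos hp.nonneg z' hω).ne'
  rw [Finset.prod_univ_sum, Fintype.piFinset_univ] at h1
  exact h1

theorem sm_side {sd : Fin N → Bool} {b : Bool} {r : Fin N} (h : sd r = b) (v : Ω × Ω) :
    sm sd r v = bif b then v.1 else v.2 := by
  unfold sm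
  rw [h]

theorem P2_side {p : Ω → ℝ} (hp : IsLaw p) (S : Ω → σ) (b : Bool) :
    Marg (P2 p S) p (fun v => bif b then v.1 else v.2) := by
  cases b
  · exact P2_msnd hp S
  · exact P2_mfst hp S

open Classical in
/-- The copies of one side are independent of the own sample given its record. -/
theorem own_eq {p : Ω → ℝ} (hp : IsLaw p) (S : Ω → σ) (z' : Ω → ζ') (sd : Fin N → Bool) (b : Bool)
    (js : Fin M → Fin N) (hjs : Function.Injective js) (hsd : ∀ k, sd (js k) = b)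
    (B : (Fin M → Ω) → Ω → Prop) :
    law (PL p S z' sd) (fun w => B (fun k => cp sd (js k) w) (bif b then w.1.1 else w.1.2)) True =
      ∑ ω, p ω * ∑ g : Fin M → Ω, (∏ k, cond p z' (z' ω) (g k)) * (if B g ω then 1 else 0) := by
  classical
  have h1 := Pool.D2S.pe_PL hp S z' sd
    (fun v g => B (fun k => g (js k)) (bif b then v.1 else v.2))
  have h2 : law (PL p S z' sd) (fun w => B (fun k => cp sd (js k) w)
      (bif b then w.1.1 else w.1.2)) True = Pe (PL p S z' sd) (fun w =>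
        B (fun k => cp sd (js k) w) (bif b then w.1.1 else w.1.2)) := rfl
  rw [h2, h1]
  have h3 := (P2_side hp S b).ex (fun ω => ∑ g : Fin M → Ω, (∏ k, cond p z' (z' ω) (g k)) *
    (if B g ω then (1 : ℝ) else 0))
  unfold Ex at h3
  rw [← h3]
  refine Finset.sum_congr rfl fun v _ => ?_
  rcases ((P2_isLaw hp S).nonneg v).eq_or_lt with h0 | h0
  · rw [← h0, zero_mul, zero_mul]
  · congr 1
    obtain ⟨a1, a2, -⟩ := (P2_pos hp v).mp h0
    have hsm : ∀ r, 0 < p (sm sd r v) := by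
      intro r
      unfold sm
      cases sd r
      · exact a2
      · exact a1
    have h4 := Pool.D2S.sum_inj (fun r => cond p z' (z' (sm sd r v)))
      (fun r => sum_cond p z' (law_pos hp.nonneg z' (hsm r)).ne') js hjs
      (fun g => if B g (bif b then v.1 else v.2) then (1 : ℝ) else 0)
    rw [h4]
    refine Finset.sum_congr rfl fun g _ => ?_
    congr 1
    refine Finset.prod_congr rfl fun k _ => ?_
    rw [sm_side (hsd k)]

/-- **The own sample and copies of its side.** -/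
theorem own_max {p : Ω → ℝ} (hp : IsLaw p) (S : Ω → σ) (z' : Ω → ζ') (sd : Fin N → Bool) (b : Bool)
    (js : Fin M → Fin N) (hjs : Function.Injective js) (hsd : ∀ k, sd (js k) = b)
    (B : (Fin M → Ω) → Ω → Prop) :
    ∃ f : ζ' → Fin M → Ω,
      law (PL p S z' sd) (fun w => B (fun k => cp sd (js k) w) (bif b then w.1.1 else w.1.2)) True ≤
        law p (fun ω => B (f (z' ω)) ω) True := by
  obtain ⟨f, hf⟩ := sel_max hp z' (fun t g => ∏ k, cond p z' t (g k)) (w_law hp z' M) B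
  exact ⟨f, (own_eq hp S z' sd b js hjs hsd B).le.trans hf⟩

open Classical in
/-- The copies of one side are exchangeable with the own sample. -/
theorem cop_eq {p : Ω → ℝ} (hp : IsLaw p) (S : Ω → σ) (z' : Ω → ζ') (sd : Fin N → Bool) (b : Bool)
    (js : Fin M → Fin N) (r : Fin N) (hjs : Function.Injective (Fin.cons r js : Fin (M + 1) → Fin N))
    (hsd : ∀ k, sd (js k) = b) (hr : sd r = b) (B : (Fin M → Ω) → Ω → Prop) :
    law (PL p S z' sd) (fun w => B (fun k => cp sd (js k) w) (cp sd r w)) True =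
      ∑ ω, p ω * ∑ g : Fin M → Ω, (∏ k, cond p z' (z' ω) (g k)) * (if B g ω then 1 else 0) := by
  classical
  obtain ⟨Ψ, hΨ⟩ : ∃ Ψ : Ω → ℝ, Ψ = fun ω => ∑ g : Fin M → Ω, (∏ k, cond p z' (z' ω) (g k)) *
    (if B g ω then (1 : ℝ) else 0) := ⟨_, rfl⟩
  have h2 := own_eq (M := M + 1) hp S z' sd b (Fin.cons r js) hjs (fun k => by
    refine Fin.cases ?_ (fun k => ?_) k
    · rw [Fin.cons_zero]
      exact hr
    · rw [Fin.cons_succ]
      exact hsd k) (fun g _ => B (fun k => g k.succ) (g 0))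
  have e0 : (fun w : (Ω × Ω) × (Fin N → Ω × Ω) => (fun (g : Fin (M + 1) → Ω) (_ : Ω) =>
      B (fun k => g k.succ) (g 0)) (fun k => cp sd ((Fin.cons r js : Fin (M + 1) → Fin N) k) w)
        (bif b then w.1.1 else w.1.2)) =
      fun w => B (fun k => cp sd (js k) w) (cp sd r w) := by
    funext w
    simp only [Fin.cons_succ, Fin.cons_zero]
  rw [e0] at h2
  rw [h2]
  have h3 : ∀ ω, 0 < p ω → ∑ g : Fin (M + 1) → Ω, (∏ k, cond p z' (z' ω) (g k)) *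
      (if B (fun k => g k.succ) (g 0) then (1 : ℝ) else 0) =
      ∑ x, cond p z' (z' ω) x * Ψ x := by
    intro ω _
    rw [← (Fin.consEquiv (fun _ : Fin (M + 1) => Ω)).sum_comp, Fintype.sum_prod_type]
    refine Finset.sum_congr rfl fun x _ => ?_
    by_cases hx : z' x = z' ω
    · rw [hΨ, Finset.mul_sum]
      refine Finset.sum_congr rfl fun g _ => ?_
      rw [hx]
      have e2 : (Fin.consEquiv (fun _ : Fin (M + 1) => Ω)) (x, g) =
        (Fin.cons x g : Fin (M + 1) → Ω) := rfl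
      rw [e2, Fin.prod_univ_succ]
      simp only [Fin.cons_zero, Fin.cons_succ]
      ring
    · have e3 : cond p z' (z' ω) x = 0 := by
        unfold Pool.Agent.H49.Ent.cond
        rw [if_neg hx]
      rw [e3, zero_mul]
      refine Finset.sum_eq_zero fun g _ => ?_
      have e2 : (Fin.consEquiv (fun _ : Fin (M + 1) => Ω)) (x, g) =
        (Fin.cons x g : Fin (M + 1) → Ω) := rfl
      rw [e2, Fin.prod_univ_succ, Fin.cons_zero, e3, zero_mul, zero_mul]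
  have h4 : ∑ ω, p ω * ∑ g : Fin (M + 1) → Ω, (∏ k, cond p z' (z' ω) (g k)) *
      (if B (fun k => g k.succ) (g 0) then (1 : ℝ) else 0) =
      ∑ ω, p ω * ∑ x, cond p z' (z' ω) x * Ψ x := by
    refine Finset.sum_congr rfl fun ω _ => ?_
    rcases (hp.nonneg ω).eq_or_lt with h0 | h0
    · rw [← h0, zero_mul, zero_mul]
    · rw [h3 ω h0]
  rw [h4]
  simp only [Finset.mul_sum]
  rw [Finset.sum_comm]
  have h5 : ∀ x, ∑ ω, p ω * (cond p z' (z' ω) x * Ψ x) = p x * Ψ x := by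
    intro x
    rcases (hp.nonneg x).eq_or_lt with h0 | h0
    · rw [← h0, zero_mul]
      refine Finset.sum_eq_zero fun ω _ => ?_
      have h6 : cond p z' (z' ω) x = 0 := by
        unfold Pool.Agent.H49.Ent.cond
        rw [← h0, zero_div, ite_self]
      simp [h6]
    · have h6 : ∀ ω, p ω * (cond p z' (z' ω) x * Ψ x) =
          (if z' ω = z' x then p ω else 0) * (p x / law p z' (z' x) * Ψ x) := by
        intro ω
        unfold Pool.Agent.H49.Ent.cond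
        by_cases h7 : z' ω = z' x
        · rw [if_pos h7, if_pos h7.symm, h7]
        · rw [if_neg h7, if_neg (Ne.symm h7)]
          ring
      rw [Finset.sum_congr rfl fun ω _ => h6 ω, ← Finset.sum_mul]
      have h8 : ∑ ω, (if z' ω = z' x then p ω else 0) = law p z' (z' x) := rfl
      rw [h8]
      have h9 := (law_pos hp.nonneg z' h0).ne'
      field_simp
  rw [Finset.sum_congr rfl fun x _ => h5 x, hΨ]
  refine Finset.sum_congr rfl fun ω _ => ?_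
  rw [Finset.mul_sum]

/-- **A copy and other copies of its side.** -/
theorem cop_max {p : Ω → ℝ} (hp : IsLaw p) (S : Ω → σ) (z' : Ω → ζ') (sd : Fin N → Bool) (b : Bool)
    (js : Fin M → Fin N) (r : Fin N) (hjs : Function.Injective (Fin.cons r js : Fin (M + 1) → Fin N))
    (hsd : ∀ k, sd (js k) = b) (hr : sd r = b) (B : (Fin M → Ω) → Ω → Prop) :
    ∃ f : ζ' → Fin M → Ω,
      law (PL p S z' sd) (fun w => B (fun k => cp sd (js k) w) (cp sd r w)) True ≤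
        law p (fun ω => B (f (z' ω)) ω) True := by
  obtain ⟨f, hf⟩ := sel_max hp z' (fun t g => ∏ k, cond p z' t (g k)) (w_law hp z' M) B
  exact ⟨f, (cop_eq hp S z' sd b js r hjs hsd hr B).le.trans hf⟩

/-! ### Consequences -/

variable {q : Ω → ℝ} {X : Ω → Fin 3 → ℝ} {z' : Ω → ζ'} {η c : ℝ} {S : Ω → σ} {sd : Fin N → Bool}

theorem lf_crs (A B Z : Fin 3 → ℝ) :
    lf ![A 1 * B 2 - A 2 * B 1, A 2 * B 0 - A 0 * B 2, A 0 * B 1 - A 1 * B 0] Z = br A B Z := by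
  change (A 1 * B 2 - A 2 * B 1) * Z 0 + (A 2 * B 0 - A 0 * B 2) * Z 1 +
    (A 0 * B 1 - A 1 * B 0) * Z 2 = _
  unfold br
  ring

/-- **The determinant of three copies of one side is large**, if the first two are separated. -/
theorem det_cop (hq : IsLaw q) (h : NoPk q X z' η c) (hη : 0 ≤ η) (hX0 : ∀ ω, 0 < q ω → X ω 0 = 1)
    {κ : ℝ} (hκ : 0 < κ) (S : Ω → σ) (sd : Fin N → Bool) (b : Bool) (r₀ r₁ r₂ : Fin N)
    (h01 : r₀ ≠ r₁) (h02 : r₀ ≠ r₂) (h12 : r₁ ≠ r₂) (s0 : sd r₀ = b) (s1 : sd r₁ = b)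
    (s2 : sd r₂ = b) :
    law (PL q S z' sd) (fun w => κ ≤ |X (cp sd r₀ w) 1 - X (cp sd r₁ w) 1| ∧
      |br (X (cp sd r₀ w)) (X (cp sd r₁ w)) (X (cp sd r₂ w))| ≤ κ * η) True ≤ c := by
  classical
  obtain ⟨f, hf⟩ := cop_max (M := 2) hq S z' sd b ![r₀, r₁] r₂ (by
    intro i j hij
    fin_cases i <;> fin_cases j <;> first
      | rfl
      | exact absurd hij h01
      | exact absurd hij.symm h01
      | exact absurd hij h02
      | exact absurd hij.symm h02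
      | exact absurd hij h12
      | exact absurd hij.symm h12) (fun k => by
    fin_cases k
    · exact s0
    · exact s1) s2 (fun g ω => (X (g 0) 0 = 1 ∧ X (g 1) 0 = 1) ∧ κ ≤ |X (g 0) 1 - X (g 1) 1| ∧
      |br (X (g 0)) (X (g 1)) (X ω)| ≤ κ * η)
  have hPL := PL_isLaw hq S z' sd
  refine (law_mono' hPL.nonneg (fun w hw hG => ?_)).trans (hf.trans ?_)
  · have h1 := (PL_pos hq S z' sd hw).2.2.2
    exact ⟨⟨hX0 _ (h1 r₀).1, hX0 _ (h1 r₁).1⟩, hG⟩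
  · refine (law_mono' hq.nonneg (fun ω hω hG => ?_)).trans (h.scale hq.nonneg hη hκ
      (fun t => ![X (f t 0) 1 * X (f t 1) 2 - X (f t 0) 2 * X (f t 1) 1,
        X (f t 0) 2 * X (f t 1) 0 - X (f t 0) 0 * X (f t 1) 2,
        X (f t 0) 0 * X (f t 1) 1 - X (f t 0) 1 * X (f t 1) 0]))
    obtain ⟨⟨k1, k2⟩, k3, k4⟩ := hG
    refine ⟨⟨2, ?_⟩, ?_⟩
    · show κ ≤ |X (f (z' ω) 0) 0 * X (f (z' ω) 1) 1 - X (f (z' ω) 0) 1 * X (f (z' ω) 1) 0|
      rw [k1, k2, one_mul, mul_one, abs_sub_comm]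
      exact k3
    · rw [lf_crs]
      exact k4

/-- **A conic read from the copies of one side and containing the own direction is not
reducible.** -/
theorem quad_own (hq : IsLaw q) (h : NoPk q X z' η c) (hη : 0 ≤ η) {R ν μ δ : ℝ}
    (hR : 1 ≤ R) (hX : ∀ ω, 0 < q ω → ∀ i, |X ω i| ≤ R) (hν : 0 < ν) (hν1 : ν ≤ 1 / 2)
    (hμν : R * μ ≤ ν ^ 2) (hn : 3 * R ^ 5 * (δ + μ) / ν ^ 4 + 6 * R ^ 2 * ν ≤ (1 / 2 * η) ^ 2)
    (S : Ω → σ) (sd : Fin N → Bool) (b : Bool) (js : Fin M → Fin N) (hjs : Function.Injective js)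
    (hsd : ∀ k, sd (js k) = b) (Q : (Fin M → Ω) → ζ' → Fin 3 → Fin 3 → ℝ) :
    law (PL q S z' sd) (fun w =>
      (Qn (Q (fun k => cp sd (js k) w) (z' (bif b then w.1.1 else w.1.2))) R ∧
      |dt (Q (fun k => cp sd (js k) w) (z' (bif b then w.1.1 else w.1.2)))| ≤ μ) ∧
      |bf (Q (fun k => cp sd (js k) w) (z' (bif b then w.1.1 else w.1.2)))
        (X (bif b then w.1.1 else w.1.2)) (X (bif b then w.1.1 else w.1.2))| ≤ δ) True ≤ 2 * c := by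
  obtain ⟨f, hf⟩ := own_max hq S z' sd b js hjs hsd (fun g ω => (Qn (Q g (z' ω)) R ∧
    |dt (Q g (z' ω))| ≤ μ) ∧ |bf (Q g (z' ω)) (X ω) (X ω)| ≤ δ)
  refine hf.trans ?_
  have h1 := h.quad hq.nonneg hη hR hX hν hν1 hμν hn (fun t => Q (f t) t)
  refine (law_mono' hq.nonneg fun ω _ hG => ?_).trans h1
  exact ⟨hG.1.1, hG.1.2, hG.2⟩

end sel

/-! ### Classes -/

section cls

open Pool.KA Pool.KSAT Pool.PB Pool.S6C Pool.GEN Pool.CHT Pool.D2F
open Pool.LBT (ThrOf)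

variable {m : ℕ}

/-- The direction of two coordinates of `V0`. -/
noncomputable def X3 {J : ℕ} (F : Fam m J) (c : ℕ → Fin m) (g : ℕ → ℕ) (a iy i : ℕ)
    (ψ : PtT F → ℕ → Option (Fin m) → ℝ) (ω : F.Ω) : Fin 3 → ℝ :=
  ![1, Xn F c g a ψ ω (iy + 1), Xn F c g a ψ ω (i + 1)]

/-- **No planks, class theorem.** -/
theorem nopk_cls {θ : ℝ} {S : PCl m} {P : List (Fin m) × Fin m → ℝ → ℝ → ℝ}
    (hP : ThrOf (chsys m θ) S P) (c : ℕ → Fin m) (i iy : ℕ) (hyi : iy < i)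
    (hc : Set.InjOn c (Set.Iio (i + 1)))
    (a : ℚ) (e h : ℝ) (ha0 : 0 ≤ a) (ha : a ≤ 1) (he : e < θ * a) (hh : 0 < h)
    (h1 : bet P c i a a + h ≤ 1) (h2 : bet P c iy a a + h ≤ 1) :
    ∃ δ : ℝ, 0 < δ ∧ Bas S (fun J F A => ∀ (n a₀ e₀ e' k s V p py : ℕ) (g : ℕ → ℕ)
      (ψ : PtT F → ℕ → Option (Fin m) → ℝ) (ψH : LnT F → ℕ → Option (Fin m) → ℝ),
      NumL J (bet P c i a a + h) a e i n a₀ e₀ e' k s V p g →
      NumL J (bet P c iy a a + h) a e iy n a₀ e₀ e' k s V py g →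
      ∀ (q : F.Ω → ℝ) (M : ℝ), IsLaw q → 0 ≤ M → (∀ ω, 0 < q ω → A ω) →
      (∀ ω, q ω * Pe F.p A ≤ M * F.p ω) →
      FrOK F c n a₀ k e₀ g (fun ω => 0 < q ω) ψ ψH →
      ∀ (ζ ζ' ε : Type) (z : F.Ω → ζ) (f : PtT F → ζ') (eD : F.Ω → ε) (Ey Ez : ε → ℝ)
        (δ₀ ηF : ℝ), Det q (fun ω => f (ptr F J ω)) z → Det q (slam F a₀) z →
      Det q (slam F a₀) eD → 0 ≤ δ₀ →
      (∀ ω, 0 < q ω → |Ey (eD ω) - Xn F c g a₀ ψ ω (iy + 1)| ≤ δ₀) →
      (∀ ω, 0 < q ω → |Ez (eD ω) - Xn F c g a₀ ψ ω (i + 1)| ≤ δ₀) →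
      CH q eD z ≤ CH q eD (fun ω => f (ptr F J ω)) + ηF →
      ∀ (Y κ ν η₀ c₂ : ℝ) (K K₀ L : ℕ), 2 ^ k + δ₀ ≤ Y → 0 < κ → 1 / κ ≤ Y → 0 < ν → ν ≤ 1 →
      1 / ν ≤ 2 ^ e' → 0 ≤ η₀ → (η₀ + δ₀ + ν * Y) * (3 * Y ^ 2) < 1 →
      24 * Y ^ 4 * ((η₀ + 2 * δ₀) / ν) * 2 ^ (2 * (i + 1) + 2 * k + 6 + s) ≤ 1 →
      2 * (κ + δ₀) * 2 ^ (2 * (iy + 1) + 2 * k + 6 + s) ≤ 1 → 2 ^ k + κ + δ₀ ≤ 2 ^ e' →
      0 < c₂ → 16 * ((ηF + Real.log 2) / c₂) + 8 * Real.log 2 + 2 * Real.log 3 < Real.log K →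
      2 / ν + 5 ≤ L → K * L ≤ K₀ →
      NoCov q (fun ω => (⌊Ey (eD ω) / κ⌋, ⌊Ez (eD ω) / κ⌋)) (fun ω => f (ptr F J ω)) K₀ (c₂ / 8) →
      24 * (M * Real.exp (-(δ * J))) < c₂ →
      NoPk q (X3 F c g a₀ iy i ψ) (fun ω => f (ptr F J ω)) η₀ (2 * c₂)) := by
  obtain ⟨δ, hδ, τ, hτ, J₁, hv⟩ := noplk hP c i iy hyi hc a e h ha0 ha he hh h1 h2
  refine ⟨δ, hδ, τ, hτ, J₁, ?_⟩
  intro J hJ F A hA n a₀ e₀ e' k s V p py g ψ ψH N Ny q M hq hM hqA hqM hfr ζ ζ' ε z f eD Ey Ez δ₀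
    ηF hz' hSz hSe hδ₀ hEy hEz hF Y κ ν η₀ c₂ K K₀ L hkY hκ hκY hν hν1 hνe hη₀ ha1 hb1 hc1 hke hc₂ hn
    hLν hKL hNC hK nv hnv
  have h3 := hv J hJ F A hA n a₀ e₀ e' k s V p py g ψ ψH N Ny q M hq hM hqA hqM hfr ζ ζ' ε z f eD
    Ey Ez δ₀ ηF hz' hSz hSe hδ₀ hEy hEz hF Y κ ν η₀ c₂ K K₀ L hkY hκ hκY hν hν1 hνe hη₀ ha1 hb1 hc1
    hke hc₂ hn hLν hKL hNC hK nv hnv
  refine (law_mono' hq.nonneg fun ω _ hG => ?_).trans h3
  have e1 : lf (nv (f (ptr F J ω))) (X3 F c g a₀ iy i ψ ω) = nv (f (ptr F J ω)) 0 +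
      nv (f (ptr F J ω)) 1 * Xn F c g a₀ ψ ω (iy + 1) +
      nv (f (ptr F J ω)) 2 * Xn F c g a₀ ψ ω (i + 1) := by
    change nv (f (ptr F J ω)) 0 * 1 + nv (f (ptr F J ω)) 1 * Xn F c g a₀ ψ ω (iy + 1) +
      nv (f (ptr F J ω)) 2 * Xn F c g a₀ ψ ω (i + 1) = _
    rw [mul_one]
  rw [e1] at hG
  exact hG

end cls

end Pool.D2Con
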