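import Pool.Agent.H42.D2.Plk
import Pool.Agent.H90.D2.Lcl
import Pool.Agent.H4.D2.Evt

/-!
# D2: no planks, for classes

`lab_q`: the linear labels of a frame are not closed (the form used below). `nocov_x`: the natural
velocity of a coordinate has positive rate given the visible data. `noplk`: under (F), the natural
directions of two coordinates of `V0` do not lie in a visible plane.
-/

set_option autoImplicit false

namespace Pool.D2F

open Finset Real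
open Pool.Agent.H49.Ent Pool.Agent.H32.Dense Pool.STK Pool.KA Pool.KSAT Pool.K2S Pool.PB Pool.S6C
open Pool.GEN Pool.CHT Pool.CHX
open Pool.LBT (ThrOf)
open Pool.KM7 (P2 P2_isLaw P2_pos)
open Pool.D2T (NoCov)

variable {m J : ℕ}

theorem FrOK.sub {F : Fam m J} {c : ℕ → Fin m} {n a k e : ℕ} {g : ℕ → ℕ} {A B : F.Ω → Prop}
    {ψ : PtT F → ℕ → Option (Fin m) → ℝ} {ψH : LnT F → ℕ → Option (Fin m) → ℝ}
    (h : FrOK F c n a k e g A ψ ψH) (hB : ∀ ω, B ω → A ω) : FrOK F c n a k e g B ψ ψH :=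
  ⟨fun ω hω => h.cls ω (hB ω hω), h.dep, h.depH, fun ω hω => h.nat ω (hB ω hω),
    fun ω hω => h.lip ω (hB ω hω)⟩

/-- The natural velocity is a function of the line and of the window. -/
theorem Xn_slam {F : Fam m J} {c : ℕ → Fin m} {n a k e : ℕ} {g : ℕ → ℕ} {A : F.Ω → Prop}
    {ψ : PtT F → ℕ → Option (Fin m) → ℝ} {ψH : LnT F → ℕ → Option (Fin m) → ℝ}
    (h : FrOK F c n a k e g A ψ ψH) {ω ω' : F.Ω} (hω : A ω) (hω' : A ω')
    (hs : slam F a ω = slam F a ω') (j : ℕ) : Xn F c g a ψ ω j = Xn F c g a ψ ω' j := by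
  unfold Xn
  rw [h.cls ω hω, h.cls ω' hω', hs, (slam_eq hs).1]

/-- The numbers of a label of precision `p` for the coordinate `i` of a frame; `β` = threshold. -/
structure NumL (J : ℕ) (β : ℝ) (a : ℚ) (e : ℝ) (i n a₀ e₀ e' k s V p : ℕ) (g : ℕ → ℕ) : Prop where
  iin : i < n
  aJ : a₀ ≤ J
  aa : a₀ ≤ ⌊(a : ℝ) * J⌋₊
  ee : e₀ + e' + 2 * k + s + 2 * (i + 1) + 4 ≤ ⌊e * J⌋₊
  hV : s + e' + k + 3 * (i + 1) + 6 ≤ V
  gV : ∀ j ≤ i, e₀ + g j + V ≤ J
  gk : ∀ l < i, k + 1 ≤ g l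
  pg : p ≤ g i + s
  pJ : p ≤ J
  bet : ⌊β * J⌋₊ + a₀ ≤ p + ⌊(a : ℝ) * J⌋₊

/-- The vector `μ` with the entries `α` at `0` and `β` at `jy`. -/
def mu2 (jy : ℕ) (α β : ℝ) (j : ℕ) : ℝ := if j = 0 then α else if j = jy then β else 0

theorem ln_mu2 {i jy : ℕ} (hy : jy ≤ i) (hy0 : jy ≠ 0) (α β : ℝ) (η : ℕ → ℝ) :
    ln i (mu2 jy α β) η = α * η 0 + β * η jy := by
  classical
  unfold ln
  have h1 : ∀ j, mu2 jy α β j * η j = (if j = 0 then α * η 0 else 0) +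
      (if j = jy then β * η jy else 0) := by
    intro j
    unfold mu2
    by_cases h0 : j = 0
    · subst h0
      rw [if_pos rfl, if_pos rfl, if_neg (Ne.symm hy0), add_zero]
    · rw [if_neg h0, if_neg h0]
      by_cases h2 : j = jy
      · subst h2
        rw [if_pos rfl, if_pos rfl, zero_add]
      · rw [if_neg h2, if_neg h2]
        ring
  rw [Finset.sum_congr rfl fun j _ => h1 j, Finset.sum_add_distrib, Finset.sum_ite_eq',
    Finset.sum_ite_eq', if_pos (Finset.mem_range.2 (Nat.succ_pos i)),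
    if_pos (Finset.mem_range.2 (Nat.lt_succ_of_le hy))]

theorem mu2_le {jy : ℕ} {α β M : ℝ} (hα : |α| ≤ M) (hβ : |β| ≤ M) (j : ℕ) :
    |mu2 jy α β j| ≤ M := by
  unfold mu2
  split_ifs
  · exact hα
  · exact hβ
  · rw [abs_zero]
    exact (abs_nonneg _).trans hα

theorem mu2_sub {jy : ℕ} {α β α' β' ε : ℝ} (hα : |α' - α| ≤ ε) (hβ : |β' - β| ≤ ε) (j : ℕ) :
    |mu2 jy α' β' j - mu2 jy α β j| ≤ ε := by
  unfold mu2
  split_ifs
  · exact hα
  · exact hβ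
  · rw [sub_zero, abs_zero]
    exact (abs_nonneg _).trans hα

/-- **Linear labels are not closed**: two samples of one line and window. -/
theorem lab_q {θ : ℝ} {S : PCl m} {P : List (Fin m) × Fin m → ℝ → ℝ → ℝ}
    (hP : ThrOf (chsys m θ) S P) (c : ℕ → Fin m) (i : ℕ) (hc : Set.InjOn c (Set.Iio (i + 1)))
    (a : ℚ) (e h : ℝ) (ha0 : 0 ≤ a) (ha : a ≤ 1) (he : e < θ * a) (hh : 0 < h)
    (h1 : bet P c i a a + h ≤ 1) :
    ∃ δ : ℝ, 0 < δ ∧ Bas S (fun J F A => ∀ (n a₀ e₀ e' k s V p : ℕ) (g : ℕ → ℕ)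
      (ψ : PtT F → ℕ → Option (Fin m) → ℝ) (ψH : LnT F → ℕ → Option (Fin m) → ℝ),
      NumL J (bet P c i a a + h) a e i n a₀ e₀ e' k s V p g →
      ∀ (q : F.Ω → ℝ) (M : ℝ), IsLaw q → 0 ≤ M → (∀ ω, 0 < q ω → A ω) →
      (∀ ω, q ω * Pe F.p A ≤ M * F.p ω) →
      FrOK F c n a₀ k e₀ g (fun ω => 0 < q ω) ψ ψH →
      ∀ μ : PtT F → ℕ → ℝ, (∀ ω, 0 < q ω → ∀ j ≤ i, |μ (ptr F J ω) j| ≤ 2 ^ e') →
      ∀ ε : ℝ, 0 ≤ ε → ε * 2 ^ (2 * (i + 1) + 2 * k + 6 + s) ≤ 1 →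
      Pe (P2 q (slam F a₀)) (fun x => (∀ j ≤ i, |μ (ptr F J x.2) j - μ (ptr F J x.1) j| ≤ ε) ∧
        |Xn F c g a₀ ψ x.1 (i + 1) - ln i (μ (ptr F J x.2)) (Xn F c g a₀ ψ x.1)| ≤ ε) ≤
          M * Real.exp (-(δ * J))) := by
  classical
  obtain ⟨δ, hδ, τ, hτ, J₁, hv⟩ := lab_cls hP c i hc a e h ha0 ha he hh h1
  refine ⟨δ, hδ, τ, hτ, J₁, ?_⟩
  intro J hJ F A hA n a₀ e₀ e' k s V p g ψ ψH N q M hq hM hqA hqM hfr μ hμ ε hε hεs
  have h2 := hv J hJ F A hA n a₀ e₀ e' k s V p g ψ ψH μ (fun _ _ _ => 0) N.iin N.aJ N.aa N.ee N.hV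
    N.gV N.gk N.pg N.pJ N.bet (fun ω => 0 < q ω) hqA hfr hμ (fun ω _ j _ l _ => by
      rw [abs_zero]; positivity) q M hq hM (fun _ h => h) hqM
  refine le_trans ?_ h2
  have hP2 := P2_isLaw hq (slam F a₀)
  rw [Pool.JVE.pe_sum, Pool.JVE.pe_sum]
  refine Finset.sum_le_sum fun x _ => ?_
  rcases (hP2.nonneg x).eq_or_lt with h0 | h0
  · rw [← h0]
    simp
  · obtain ⟨x1, x2, x3⟩ := (P2_pos hq x).mp h0
    by_cases h4 : (∀ j ≤ i, |μ (ptr F J x.2) j - μ (ptr F J x.1) j| ≤ ε) ∧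
        |Xn F c g a₀ ψ x.1 (i + 1) - ln i (μ (ptr F J x.2)) (Xn F c g a₀ ψ x.1)| ≤ ε
    · rw [if_pos h4, if_pos]
      refine cl_of (ε := ε) hε (tu_le N.aJ x3) (fun j hj => Xn_le hfr x1 (hj.trans N.iin.le))
        (fun _ _ _ _ => rfl) (fun j hj => ?_) h4.2 (fun _ _ _ _ => by simpa using hε) ?_ hεs
      · simp only [zero_mul, Finset.sum_const_zero, mul_zero, sub_zero]
        exact h4.1 j hj
      · unfold bl
        simp only [zero_mul, Finset.sum_const_zero, abs_zero]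
        exact hε
    · rw [if_neg h4]
      split_ifs
      exacts [h0.le, le_rfl]

/-- The conditional law on an event: density and support. -/
theorem cond_dens {Ω : Type} [Fintype Ω] {q r : Ω → ℝ} (G : Ω → Prop) {A M c : ℝ}
    (hM : 0 ≤ M) (hr : ∀ ω, 0 ≤ r ω) (hqM : ∀ ω, q ω * A ≤ M * r ω) (hc : 0 < c)
    (hG : c ≤ law q G True) (ω : Ω) : cond q G True ω * A ≤ M / c * r ω := by
  classical
  have hG0 : 0 < law q G True := hc.trans_le hG
  unfold Pool.Agent.H49.Ent.cond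
  by_cases h : G ω = True
  · rw [if_pos h, div_mul_eq_mul_div, div_le_iff₀ hG0]
    have h1 := hqM ω
    have h2 : M * r ω ≤ M / c * r ω * law q G True := by
      have h3 : M * r ω = M / c * r ω * c := by
        field_simp
      rw [h3]
      exact mul_le_mul_of_nonneg_left hG (mul_nonneg (div_nonneg hM hc.le) (hr ω))
    linarith
  · rw [if_neg h, zero_mul]
    exact mul_nonneg (div_nonneg hM hc.le) (hr ω)

theorem cond_law {Ω : Type} [Fintype Ω] {q : Ω → ℝ} (hq : IsLaw q) (G : Ω → Prop) {c : ℝ}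
    (hc : 0 < c) (hG : c ≤ law q G True) :
    IsLaw (cond q G True) ∧ ∀ ω, 0 < cond q G True ω → 0 < q ω ∧ G ω := by
  have hG0 : 0 < law q G True := hc.trans_le hG
  refine ⟨⟨cond_nonneg hq.nonneg G True, sum_cond q G hG0.ne'⟩, fun ω hω => ?_⟩
  have h := (cond_pos_iff hq.nonneg G True ω).mp hω
  exact ⟨h.1, of_eq_true h.2⟩

/-- Covers of a conditional law. -/
theorem nocov_cond {Ω V T : Type} [Fintype Ω] {q : Ω → ℝ} (hq : IsLaw q) (E : Ω → V) (Z : Ω → T)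
    {K : ℕ} {c₀ c : ℝ} (h0 : 0 ≤ c₀) (h : NoCov q E Z K c₀) (hc : 0 < c) (G : Ω → Prop)
    (hG : c ≤ law q G True) : NoCov (cond q G True) E Z K (c₀ / c) := by
  classical
  have hG0 : 0 < law q G True := hc.trans_le hG
  intro S hS
  have h1 := h S hS
  have h2 : law (cond q G True) (fun w => E w ∈ S (Z w)) True ≤
      law q (fun w => E w ∈ S (Z w)) True / law q G True := by
    unfold law
    rw [Finset.sum_div]
    refine Finset.sum_le_sum fun w _ => ?_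
    have h3 : cond q G True w ≤ q w / law q G True := by
      unfold Pool.Agent.H49.Ent.cond
      split_ifs
      · exact le_rfl
      · exact div_nonneg (hq.nonneg w) hG0.le
    split_ifs
    · exact h3
    · exact (zero_div _).ge
  refine h2.trans ?_
  rw [div_le_div_iff₀ hG0 hc]
  calc law q (fun w => E w ∈ S (Z w)) True * c ≤ c₀ * c := mul_le_mul_of_nonneg_right h1 hc.le
    _ ≤ c₀ * law q G True := mul_le_mul_of_nonneg_left hG h0


theorem ln_mu1 (i : ℕ) (α : ℝ) (η : ℕ → ℝ) :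
    ln i (fun j => if j = 0 then α else 0) η = α * η 0 := by
  classical
  unfold ln
  rw [Finset.sum_eq_single 0]
  · simp only [if_true]
  · intro j _ hj
    simp only [if_neg hj, zero_mul]
  · intro h
    exact absurd (Finset.mem_range.2 (Nat.succ_pos i)) h

/-- An event which holds on the support. -/
theorem law_one {Ω : Type} [Fintype Ω] {q : Ω → ℝ} (hq : IsLaw q) {G : Ω → Prop}
    (h : ∀ ω, 0 < q ω → G ω) : law q G True = 1 := by
  classical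
  rw [← hq.sum_one]
  unfold law
  refine Finset.sum_congr rfl fun ω _ => ?_
  rcases (hq.nonneg ω).eq_or_lt with h0 | h0
  · rw [← h0]
    simp
  · rw [if_pos (eq_true (h ω h0))]

/-- A cover by `K` values. -/
theorem law_cells {Ω V T : Type} [Fintype Ω] {q : Ω → ℝ} (hq : IsLaw q) (E : Ω → V) (Z : Ω → T)
    (Sf : T → Finset V) {K : ℕ} (hS : ∀ t, (Sf t).card ≤ K) {c : ℝ} (hc : 0 ≤ c)
    (h : c < law q (fun ω => E ω ∈ Sf (Z ω)) True) :
    0 < K ∧ ∃ r : T → V, c / K ≤ law q (fun ω => E ω = r (Z ω)) True := by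
  classical
  have hne : Nonempty V := by
    by_contra hcon
    rw [not_nonempty_iff] at hcon
    have h1 : law q (fun ω => E ω ∈ Sf (Z ω)) True = 0 := by
      unfold law
      exact Finset.sum_eq_zero fun ω _ => (hcon.false (E ω)).elim
    linarith
  obtain ⟨v₀⟩ := hne
  have hr : ∀ t, ∃ r : ℕ → V, ∀ x ∈ Sf t, ∃ j < K, r j = x := by
    intro t
    refine ⟨fun j => (Sf t).toList.getD j v₀, fun x hx => ?_⟩
    rw [← Finset.mem_toList] at hx
    obtain ⟨j, hj, hjx⟩ := List.getElem_of_mem hx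
    refine ⟨j, lt_of_lt_of_le hj (by rw [Finset.length_toList]; exact hS t), ?_⟩
    show (Sf t).toList.getD j v₀ = x
    rw [List.getD_eq_getElem _ _ hj, hjx]
  choose r hr using hr
  have h2 : law q (fun ω => E ω ∈ Sf (Z ω)) True ≤
      ∑ j ∈ range K, law q (fun ω => E ω = r (Z ω) j) True := by
    have e1 : ∀ G : Ω → Prop, law q G True = ∑ ω, if G ω then q ω else 0 := fun G =>
      Pool.JVE.pe_sum q G
    rw [e1, Finset.sum_congr rfl fun j _ => e1 _, Finset.sum_comm]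
    refine Finset.sum_le_sum fun ω _ => ?_
    have hq0 := hq.nonneg ω
    have hnn : ∀ j ∈ range K, 0 ≤ (if E ω = r (Z ω) j then q ω else 0) := by
      intro j _
      split_ifs
      exacts [hq0, le_rfl]
    by_cases hm : E ω ∈ Sf (Z ω)
    · obtain ⟨j, hj, hjx⟩ := hr _ _ hm
      rw [if_pos hm]
      refine le_trans ?_ (Finset.single_le_sum hnn (Finset.mem_range.2 hj))
      rw [if_pos hjx.symm]
    · rw [if_neg hm]
      exact Finset.sum_nonneg hnn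
  have hK : 0 < K := by
    rcases Nat.eq_zero_or_pos K with h0 | h0
    · subst h0
      rw [Finset.range_zero, Finset.sum_empty] at h2
      linarith
    · exact h0
  refine ⟨hK, ?_⟩
  by_contra hcon
  push Not at hcon
  have h3 : ∑ j ∈ range K, law q (fun ω => E ω = r (Z ω) j) True ≤ ∑ j ∈ range K, c / K :=
    Finset.sum_le_sum fun j _ => (hcon fun t => r t j).le
  rw [Finset.sum_const, Finset.card_range, nsmul_eq_mul] at h3
  have hK0 : (0 : ℝ) < K := by exact_mod_cast hK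
  rw [mul_div_cancel₀ _ hK0.ne'] at h3
  linarith

/-- **The natural velocity has positive rate** given the visible data. -/
theorem nocov_x {θ : ℝ} {S : PCl m} {P : List (Fin m) × Fin m → ℝ → ℝ → ℝ}
    (hP : ThrOf (chsys m θ) S P) (c : ℕ → Fin m) (i : ℕ) (hc : Set.InjOn c (Set.Iio (i + 1)))
    (a : ℚ) (e h : ℝ) (ha0 : 0 ≤ a) (ha : a ≤ 1) (he : e < θ * a) (hh : 0 < h)
    (h1 : bet P c i a a + h ≤ 1) :
    ∃ δ : ℝ, 0 < δ ∧ Bas S (fun J F A => ∀ (n a₀ e₀ e' k s V p : ℕ) (g : ℕ → ℕ)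
      (ψ : PtT F → ℕ → Option (Fin m) → ℝ) (ψH : LnT F → ℕ → Option (Fin m) → ℝ),
      NumL J (bet P c i a a + h) a e i n a₀ e₀ e' k s V p g →
      ∀ (q : F.Ω → ℝ) (M : ℝ), IsLaw q → 0 ≤ M → (∀ ω, 0 < q ω → A ω) →
      (∀ ω, q ω * Pe F.p A ≤ M * F.p ω) →
      FrOK F c n a₀ k e₀ g (fun ω => 0 < q ω) ψ ψH →
      ∀ (ζ' : Type) (f : PtT F → ζ') (v : F.Ω → ℝ) (κ δ₀ c₀ : ℝ) (K : ℕ), 0 < κ → 0 ≤ δ₀ →
      (∀ ω, 0 < q ω → |v ω - Xn F c g a₀ ψ ω (i + 1)| ≤ δ₀) → 2 ^ k + κ + δ₀ ≤ 2 ^ e' →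
      2 * (κ + δ₀) * 2 ^ (2 * (i + 1) + 2 * k + 6 + s) ≤ 1 → 0 < c₀ →
      K * M * Real.exp (-(δ * J)) < c₀ →
      NoCov q (fun ω => ⌊v ω / κ⌋) (fun ω => f (ptr F J ω)) K c₀) := by
  classical
  obtain ⟨δ, hδ, τ, hτ, J₁, hv⟩ := lab_q hP c i hc a e h ha0 ha he hh h1
  refine ⟨δ, hδ, τ, hτ, J₁, ?_⟩
  intro J hJ F A hA n a₀ e₀ e' k s V p g ψ ψH N q M hq hM hqA hqM hfr ζ' f v κ δ₀ c₀ K hκ hδ₀ hvX hke
    hks hc₀ hK Sf hS
  by_contra hcon
  rw [not_le] at hcon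
  obtain ⟨hK0, r, hr⟩ := law_cells hq (fun ω => ⌊v ω / κ⌋) (fun ω => f (ptr F J ω)) Sf hS hc₀.le
    hcon
  have hKR : (0 : ℝ) < K := by exact_mod_cast hK0
  have hcK : 0 < c₀ / K := div_pos hc₀ hKR
  obtain ⟨G, hG⟩ : ∃ G : F.Ω → Prop, G = fun ω => ⌊v ω / κ⌋ = r (f (ptr F J ω)) := ⟨_, rfl⟩
  rw [← hG] at hr
  obtain ⟨hq', hsup⟩ := cond_law hq G hcK hr
  obtain ⟨q', hq'e⟩ : ∃ q' : F.Ω → ℝ, q' = cond q G True := ⟨_, rfl⟩
  rw [← hq'e] at hq' hsup
  have hdens : ∀ ω, q' ω * Pe F.p A ≤ M / (c₀ / K) * F.p ω := fun ω => by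
    rw [hq'e]
    exact cond_dens G hM F.isLaw.nonneg hqM hcK hr ω
  have hfr' : FrOK F c n a₀ k e₀ g (fun ω => 0 < q' ω) ψ ψH := hfr.sub fun ω hω => (hsup ω hω).1
  obtain ⟨μ, hμ⟩ : ∃ μ : PtT F → ℕ → ℝ, μ = fun y j => if j = 0 then κ * r (f y) else 0 := ⟨_, rfl⟩
  have hX : ∀ ω, 0 < q' ω → |Xn F c g a₀ ψ ω (i + 1) - κ * r (f (ptr F J ω))| ≤ κ + δ₀ := by
    intro ω hω
    obtain ⟨x1, x2⟩ := hsup ω hω
    rw [hG] at x2
    have x3 := hvX ω x1
    rw [← x2]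
    have h4 : κ * (⌊v ω / κ⌋ : ℝ) ≤ v ω := by
      have := Int.floor_le (v ω / κ)
      have h5 := mul_le_mul_of_nonneg_left this hκ.le
      rwa [mul_div_cancel₀ _ hκ.ne'] at h5
    have h5 : v ω ≤ κ * (⌊v ω / κ⌋ : ℝ) + κ := by
      have := (Int.lt_floor_add_one (v ω / κ)).le
      have h5 := mul_le_mul_of_nonneg_left this hκ.le
      rw [mul_div_cancel₀ _ hκ.ne'] at h5
      linarith
    rw [abs_le] at x3 ⊢
    constructor
    · linarith only [x3.1, x3.2, h4, h5]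
    · linarith only [x3.1, x3.2, h4, h5]
  have hXk : ∀ ω, 0 < q' ω → |Xn F c g a₀ ψ ω (i + 1)| ≤ 2 ^ k := fun ω hω =>
    Xn_le hfr' hω N.iin
  have hμb : ∀ ω, 0 < q' ω → ∀ j ≤ i, |μ (ptr F J ω) j| ≤ 2 ^ e' := by
    intro ω hω j _
    have h4 := hX ω hω
    have h5 := hXk ω hω
    rw [hμ]
    by_cases hj : j = 0
    · show |if j = 0 then κ * r (f (ptr F J ω)) else 0| ≤ _
      rw [if_pos hj]
      rw [abs_le] at h4 h5 ⊢
      constructor <;> linarith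
    · show |if j = 0 then κ * r (f (ptr F J ω)) else 0| ≤ _
      rw [if_neg hj, abs_zero]
      positivity
  have h2 := hv J hJ F A hA n a₀ e₀ e' k s V p g ψ ψH N q' (M / (c₀ / K)) hq'
    (div_nonneg hM hcK.le) (fun ω hω => hqA ω (hsup ω hω).1) hdens hfr' μ hμb (2 * (κ + δ₀))
    (by linarith) hks
  have h3 : Pe (P2 q' (slam F a₀)) (fun x => (∀ j ≤ i, |μ (ptr F J x.2) j - μ (ptr F J x.1) j| ≤
      2 * (κ + δ₀)) ∧ |Xn F c g a₀ ψ x.1 (i + 1) - ln i (μ (ptr F J x.2)) (Xn F c g a₀ ψ x.1)| ≤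
      2 * (κ + δ₀)) = 1 := by
    refine law_one (P2_isLaw hq' (slam F a₀)) fun x hx => ?_
    obtain ⟨x1, x2, x3⟩ := (P2_pos hq' x).mp hx
    have e1 := Xn_slam hfr' x1 x2 x3 (i + 1)
    have h4 := hX _ x1
    have h5 := hX _ x2
    rw [← e1] at h5
    constructor
    · intro j _
      rw [hμ]
      show |(if j = 0 then κ * r (f (ptr F J x.2)) else 0) -
        (if j = 0 then κ * r (f (ptr F J x.1)) else 0)| ≤ _
      by_cases hj : j = 0
      · rw [if_pos hj, if_pos hj]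
        rw [abs_le] at h4 h5 ⊢
        constructor <;> linarith
      · rw [if_neg hj, if_neg hj, sub_zero, abs_zero]
        linarith
    · rw [hμ]
      rw [ln_mu1, Xn_zero, mul_one]
      exact h5.trans (by linarith)
  rw [h3] at h2
  have h4 : M / (c₀ / K) * Real.exp (-(δ * J)) = K * M * Real.exp (-(δ * J)) / c₀ := by
    field_simp
  rw [h4, le_div_iff₀ hc₀, one_mul] at h2
  linarith

theorem flr_dist {x y B : ℝ} (h : |x - y| ≤ B) : |((⌊x⌋ - ⌊y⌋ : ℤ) : ℝ)| ≤ B + 1 := by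
  have a1 := Int.floor_le x
  have a2 := Int.lt_floor_add_one x
  have a3 := Int.floor_le y
  have a4 := Int.lt_floor_add_one y
  push_cast
  rw [abs_le] at h ⊢
  constructor <;> linarith [h.1, h.2]

/-- **No planks.** Under (F), the natural velocities of the coordinates `c iy`, `c i` do not lie in
a visible plane, with a margin, if the pair of the two velocities has positive rate. -/
theorem noplk {θ : ℝ} {S : PCl m} {P : List (Fin m) × Fin m → ℝ → ℝ → ℝ}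
    (hP : ThrOf (chsys m θ) S P) (c : ℕ → Fin m) (i iy : ℕ) (hyi : iy < i)
    (hc : Set.InjOn c (Set.Iio (i + 1)))
    (a : ℚ) (e h : ℝ) (ha0 : 0 ≤ a) (ha : a ≤ 1) (he : e < θ * a) (hh : 0 < h)
    (h1 : bet P c i a a + h ≤ 1) (h2 : bet P c iy a a + h ≤ 1) :
    ∃ δ : ℝ, 0 < δ ∧ Bas S (fun J F A => ∀ (n a₀ e₀ e' k s V p py : ℕ) (g : ℕ → ℕ)
      (ψ : PtT F → ℕ → Option (Fin m) → ℝ) (ψH : LnT F → ℕ → Option (Fin m) → ℝ),
      NumL J (bet P c i a a + h) a e i n a₀ e₀ e' k s V p g →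
      NumL J (bet P c iy a a + h) a e iy n a₀ e₀ e' k s V py g →
      ∀ (q : F.Ω → ℝ) (M : ℝ), IsLaw q → 0 ≤ M → (∀ ω, 0 < q ω → A ω) →
      (∀ ω, q ω * Pe F.p A ≤ M * F.p ω) →
      FrOK F c n a₀ k e₀ g (fun ω => 0 < q ω) ψ ψH →
      ∀ (ζ ζ' ε : Type) (z : F.Ω → ζ) (f : PtT F → ζ') (eD : F.Ω → ε) (Ey Ez : ε → ℝ)
        (δ₀ ηF : ℝ), Det q (fun ω => f (ptr F J ω)) z → Det q (slam F a₀) z →
      Det q (slam F a₀) eD → 0 ≤ δ₀ →
      (∀ ω, 0 < q ω → |Ey (eD ω) - Xn F c g a₀ ψ ω (iy + 1)| ≤ δ₀) →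
      (∀ ω, 0 < q ω → |Ez (eD ω) - Xn F c g a₀ ψ ω (i + 1)| ≤ δ₀) →
      CH q eD z ≤ CH q eD (fun ω => f (ptr F J ω)) + ηF →
      ∀ (Y κ ν η₀ c₂ : ℝ) (K K₀ L : ℕ), 2 ^ k + δ₀ ≤ Y → 0 < κ → 1 / κ ≤ Y → 0 < ν → ν ≤ 1 →
      1 / ν ≤ 2 ^ e' → 0 ≤ η₀ → (η₀ + δ₀ + ν * Y) * (3 * Y ^ 2) < 1 →
      24 * Y ^ 4 * ((η₀ + 2 * δ₀) / ν) * 2 ^ (2 * (i + 1) + 2 * k + 6 + s) ≤ 1 →
      2 * (κ + δ₀) * 2 ^ (2 * (iy + 1) + 2 * k + 6 + s) ≤ 1 → 2 ^ k + κ + δ₀ ≤ 2 ^ e' →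
      0 < c₂ → 16 * ((ηF + Real.log 2) / c₂) + 8 * Real.log 2 + 2 * Real.log 3 < Real.log K →
      2 / ν + 5 ≤ L → K * L ≤ K₀ →
      NoCov q (fun ω => (⌊Ey (eD ω) / κ⌋, ⌊Ez (eD ω) / κ⌋)) (fun ω => f (ptr F J ω)) K₀ (c₂ / 8) →
      24 * (M * Real.exp (-(δ * J))) < c₂ →
      ∀ nv : ζ' → Fin 3 → ℝ, (∀ ω, 0 < q ω → (∀ j, |nv (f (ptr F J ω)) j| ≤ 1) ∧
        ∃ j, |nv (f (ptr F J ω)) j| = 1) →
      law q (fun ω => |nv (f (ptr F J ω)) 0 + nv (f (ptr F J ω)) 1 * Xn F c g a₀ ψ ω (iy + 1) +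
        nv (f (ptr F J ω)) 2 * Xn F c g a₀ ψ ω (i + 1)| ≤ η₀) True ≤ 2 * c₂) := by
  classical
  have hcy : Set.InjOn c (Set.Iio (iy + 1)) := hc.mono (Set.Iio_subset_Iio (by omega))
  obtain ⟨δ₁, hδ₁, τ₁, hτ₁, J₁, hv₁⟩ := lab_q hP c i hc a e h ha0 ha he hh h1
  obtain ⟨δ₂, hδ₂, τ₂, hτ₂, J₂, hv₂⟩ := nocov_x hP c iy hcy a e h ha0 ha he hh h2
  refine ⟨min δ₁ δ₂, lt_min hδ₁ hδ₂, min τ₁ τ₂, lt_min hτ₁ hτ₂, max J₁ J₂, ?_⟩
  intro J hJ' F A hA n a₀ e₀ e' k s V p py g ψ ψH N Ny q M hq hM hqA hqM hfr ζ ζ' ε z f eD Ey Ez δ₀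
    ηF hz' hSz hSe hδ₀ hEy hEz hF Y κ ν η₀ c₂ K K₀ L hkY hκ hκY hν hν1 hνe hη₀ ha1 hb1 hc1 hke hc₂ hn
    hLν hKL hNC hK nv hnv
  have hJ : J ≥ J₁ ∧ J ≥ J₂ := ⟨(le_max_left _ _).trans hJ', (le_max_right _ _).trans hJ'⟩
  have hJ0 : (0 : ℝ) ≤ J := Nat.cast_nonneg J
  -- the numbers
  have hk1 : (1 : ℝ) ≤ 2 ^ k := one_le_pow₀ (by norm_num)
  have hY1 : 1 ≤ Y := by linarith
  have hY0 : 0 < Y := by linarith
  have hl2 : 0 < Real.log 2 := Real.log_pos (by norm_num)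
  have hl3 : 0 < Real.log 3 := Real.log_pos (by norm_num)
  have hηF : 0 ≤ ηF := by
    have h3 : CH q eD (fun ω => f (ptr F J ω)) ≤ CH q eD z := CH_mono_cond hq.nonneg hz'
    linarith
  have hF0 : 0 ≤ 16 * ((ηF + Real.log 2) / c₂) := by positivity
  have hKpos : (0 : ℝ) < K := by
    rcases Nat.eq_zero_or_pos K with h0 | h0
    · subst h0
      rw [Nat.cast_zero, Real.log_zero] at hn
      linarith
    · exact_mod_cast h0
  have hK9 : (9 : ℝ) < K := by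
    have h3 : Real.log 9 < Real.log K := by
      rw [show (9 : ℝ) = 3 ^ 2 by norm_num, Real.log_pow]
      push_cast
      linarith
    exact (Real.log_lt_log_iff (by norm_num) hKpos).mp h3
  have hKN : 9 < K := by exact_mod_cast hK9
  have hexp : ∀ δ' ≥ min δ₁ δ₂, Real.exp (-(δ' * J)) ≤ Real.exp (-(min δ₁ δ₂ * J)) := by
    intro δ' h3
    refine Real.exp_le_exp.mpr ?_
    have := mul_le_mul_of_nonneg_right h3 hJ0
    linarith
  -- the rate of the first direction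
  have hNC3 : NoCov q (fun ω => ⌊Ey (eD ω) / κ⌋) (fun ω => f (ptr F J ω)) 3 (c₂ / 8) := by
    refine hv₂ J hJ.2 F A (S.mono (min_le_right _ _) hA) n a₀ e₀ e' k s V py g ψ ψH Ny q M hq hM hqA
      hqM hfr ζ' f (fun ω => Ey (eD ω)) κ δ₀ (c₂ / 8) 3 hκ hδ₀ hEy hke hc1 (by linarith) ?_
    have h3 := mul_le_mul_of_nonneg_left (hexp δ₂ (min_le_right _ _)) hM
    push_cast
    linarith
  have hXy : ∀ ω, 0 < q ω → |Xn F c g a₀ ψ ω (iy + 1)| ≤ 2 ^ k := fun ω hω =>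
    Xn_le hfr hω Ny.iin
  have hXz : ∀ ω, 0 < q ω → |Xn F c g a₀ ψ ω (i + 1)| ≤ 2 ^ k := fun ω hω =>
    Xn_le hfr hω N.iin
  have hREy : ∀ ω, 0 < q ω → |Ey (eD ω)| ≤ Y := by
    intro ω hω
    have h3 := hEy ω hω
    have h4 := hXy ω hω
    have h5 : |Ey (eD ω)| ≤ |Ey (eD ω) - Xn F c g a₀ ψ ω (iy + 1)| +
        |Xn F c g a₀ ψ ω (iy + 1)| := by
      have := abs_add_le (Ey (eD ω) - Xn F c g a₀ ψ ω (iy + 1)) (Xn F c g a₀ ψ ω (iy + 1))
      rwa [sub_add_cancel] at this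
    linarith
  -- the two events
  obtain ⟨G, hG⟩ : ∃ G : F.Ω → Prop, G = fun ω => |nv (f (ptr F J ω)) 0 +
    nv (f (ptr F J ω)) 1 * Xn F c g a₀ ψ ω (iy + 1) +
    nv (f (ptr F J ω)) 2 * Xn F c g a₀ ψ ω (i + 1)| ≤ η₀ := ⟨_, rfl⟩
  obtain ⟨G1, hG1⟩ : ∃ G1 : F.Ω → Prop, G1 = fun ω => G ω ∧ |nv (f (ptr F J ω)) 2| < ν := ⟨_, rfl⟩
  obtain ⟨G2, hG2⟩ : ∃ G2 : F.Ω → Prop, G2 = fun ω => G ω ∧ ν ≤ |nv (f (ptr F J ω)) 2| := ⟨_, rfl⟩
  -- the first event
  have l1 : law q G1 True ≤ c₂ / 8 := by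
    obtain ⟨η, hη⟩ : ∃ η, η = η₀ + δ₀ + ν * Y := ⟨_, rfl⟩
    have hη0 : 0 ≤ η := by
      rw [hη]
      positivity
    rw [← hη] at ha1
    have ha2 : 2 * η / κ < 1 := by
      have h3 : 2 * η / κ = 2 * η * (1 / κ) := by ring
      rw [h3]
      have h4 : 2 * η * (1 / κ) ≤ 2 * η * Y := mul_le_mul_of_nonneg_left hκY (by linarith)
      nlinarith only [h4, ha1, hη0, hY1, mul_nonneg hη0 hY0.le,
        mul_le_mul_of_nonneg_left hY1 (mul_nonneg hη0 hY0.le)]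
    have ha3 : η + 2 * η / κ * Y < 1 := by
      have h3 : 2 * η / κ * Y = 2 * η * Y * (1 / κ) := by ring
      rw [h3]
      have h4 : 2 * η * Y * (1 / κ) ≤ 2 * η * Y * Y :=
        mul_le_mul_of_nonneg_left hκY (by positivity)
      have h5 : η ≤ η * Y ^ 2 := le_mul_of_one_le_right hη0 (one_le_pow₀ hY1)
      linarith only [h4, h5, ha1]
    have hcell : ∀ t : ζ', ∃ Fc : Finset ℤ, Fc.card ≤ 3 ∧
        ((|nv t 0| = 1 ∨ |nv t 1| = 1) → ∀ x : ℝ, |x| ≤ Y → |nv t 0 + nv t 1 * x| ≤ η →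
          ⌊x / κ⌋ ∈ Fc) := by
      intro t
      by_cases ht : |nv t 0| = 1 ∨ |nv t 1| = 1
      · obtain ⟨Fc, h3, h4⟩ := Pool.D2Con.aff_cells (a := nv t 0) (b := nv t 1) (R := Y) (η := η) hκ
          (by
            rcases ht with h5 | h5
            · right
              rw [h5]
              exact ha3
            · left
              rw [h5]
              exact ha2)
        exact ⟨Fc, h3, fun _ => h4⟩
      · exact ⟨∅, by simp, fun h' => absurd h' ht⟩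
    choose Fc hFc using hcell
    have h3 := hNC3 Fc (fun t => (hFc t).1)
    refine le_trans ?_ h3
    have e1 : ∀ G : F.Ω → Prop, law q G True = ∑ ω, if G ω then q ω else 0 := fun G =>
      Pool.JVE.pe_sum q G
    rw [e1, e1]
    refine Finset.sum_le_sum fun ω _ => ?_
    rcases (hq.nonneg ω).eq_or_lt with h0 | h0
    · rw [← h0]
      simp
    · by_cases h4 : G1 ω
      · rw [if_pos h4, if_pos]
        rw [hG1, hG] at h4
        obtain ⟨h5, h6⟩ := h4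
        obtain ⟨h7, j, h8⟩ := hnv ω h0
        refine (hFc _).2 ?_ _ (hREy ω h0) ?_
        · fin_cases j
          · exact Or.inl h8
          · exact Or.inr h8
          · exfalso
            have h8' : |nv (f (ptr F J ω)) 2| = 1 := h8
            rw [h8'] at h6
            linarith
        · have e2 : nv (f (ptr F J ω)) 0 + nv (f (ptr F J ω)) 1 * Ey (eD ω) =
            (nv (f (ptr F J ω)) 0 + nv (f (ptr F J ω)) 1 * Xn F c g a₀ ψ ω (iy + 1) +
              nv (f (ptr F J ω)) 2 * Xn F c g a₀ ψ ω (i + 1)) +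
            nv (f (ptr F J ω)) 1 * (Ey (eD ω) - Xn F c g a₀ ψ ω (iy + 1)) -
            nv (f (ptr F J ω)) 2 * Xn F c g a₀ ψ ω (i + 1) := by ring
          rw [e2]
          refine (abs_sub _ _).trans ?_
          rw [hη]
          refine add_le_add ((abs_add_le _ _).trans (add_le_add h5 ?_)) ?_
          · rw [abs_mul]
            have h9 := mul_le_mul (h7 1) (hEy ω h0) (abs_nonneg _) zero_le_one
            rwa [one_mul] at h9
          · rw [abs_mul]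
            exact mul_le_mul h6.le ((hXz ω h0).trans (by linarith)) (abs_nonneg _) hν.le
      · rw [if_neg h4]
        split_ifs
        exacts [h0.le, le_rfl]
  -- the second event
  have l2 : law q G2 True < c₂ := by
    by_contra hcon
    rw [not_lt] at hcon
    obtain ⟨hq', hsup⟩ := cond_law hq G2 hc₂ hcon
    have hmi := Pool.D2P.mi_ev hq eD (fun ω => f (ptr F J ω)) z G2 (e := ηF) hc₂ (by
      have h3 : CH q eD (fun ω => f (ptr F J ω)) ≤
          CH q eD (fun ω => (f (ptr F J ω), z ω)) := by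
        refine CH_mono_cond hq.nonneg fun w w' hw hw' hh => ?_
        have hh' : f (ptr F J w) = f (ptr F J w') := hh
        exact Prod.ext hh' (hz' w w' hw hw' hh)
      linarith) hcon
    have hdens : ∀ ω, cond q G2 True ω * Pe F.p A ≤ M / c₂ * F.p ω := fun ω =>
      cond_dens G2 hM F.isLaw.nonneg hqM hc₂ hcon ω
    have hNC₀ := nocov_cond hq _ _ (by linarith) hNC hc₂ G2 hcon
    have hc8 : c₂ / 8 / c₂ = 1 / 8 := by field_simp
    rw [hc8] at hNC₀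
    obtain ⟨q', hq'e⟩ : ∃ q' : F.Ω → ℝ, q' = cond q G2 True := ⟨_, rfl⟩
    rw [← hq'e] at hq' hsup hmi hdens hNC₀
    have hfr' : FrOK F c n a₀ k e₀ g (fun ω => 0 < q' ω) ψ ψH := hfr.sub fun ω hω => (hsup ω hω).1
    have hdet : ∀ {T U : Type} (X : F.Ω → T) (Z : F.Ω → U), Det q X Z → Det q' X Z :=
      fun X Z hd ω ω' hω hω' hh => hd ω ω' (hsup ω hω).1 (hsup ω' hω').1 hh
    obtain ⟨η, hη⟩ : ∃ η, η = (η₀ + 2 * δ₀) / ν := ⟨_, rfl⟩
    have hη0 : 0 ≤ η := by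
      rw [hη]
      positivity
    obtain ⟨η₁, hη₁⟩ : ∃ η₁, η₁ = 2 * η + (η + 2 * η / κ * Y) + 2 * η / κ * Y := ⟨_, rfl⟩
    obtain ⟨ξ, hξ⟩ : ∃ ξ, ξ = 24 * Y ^ 4 * η := ⟨_, rfl⟩
    rw [← hη] at hb1
    rw [← hξ] at hb1
    have hξ0 : 0 ≤ ξ := by
      rw [hξ]
      positivity
    -- the plank
    have hplk : ∀ ω, 0 < q' ω → |Ez (eD ω) - -(nv (f (ptr F J ω)) 0 / nv (f (ptr F J ω)) 2) -
        -(nv (f (ptr F J ω)) 1 / nv (f (ptr F J ω)) 2) * Ey (eD ω)| ≤ η ∧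
        |nv (f (ptr F J ω)) 0 / nv (f (ptr F J ω)) 2| ≤ 1 / ν ∧
        |nv (f (ptr F J ω)) 1 / nv (f (ptr F J ω)) 2| ≤ 1 / ν ∧
        |Xn F c g a₀ ψ ω (i + 1) + nv (f (ptr F J ω)) 0 / nv (f (ptr F J ω)) 2 +
          nv (f (ptr F J ω)) 1 / nv (f (ptr F J ω)) 2 * Xn F c g a₀ ψ ω (iy + 1)| ≤ η := by
      intro ω hω
      obtain ⟨x1, x2⟩ := hsup ω hω
      rw [hG2, hG] at x2
      obtain ⟨x3, x4⟩ := x2
      obtain ⟨x5, -⟩ := hnv ω x1
      have x6 := x5 0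
      have x7 := x5 1
      have x8 := hEy ω x1
      have x9 := hEz ω x1
      obtain ⟨n0, hn0⟩ : ∃ n0, n0 = nv (f (ptr F J ω)) 0 := ⟨_, rfl⟩
      obtain ⟨n1, hn1⟩ : ∃ n1, n1 = nv (f (ptr F J ω)) 1 := ⟨_, rfl⟩
      obtain ⟨n2, hn2⟩ : ∃ n2, n2 = nv (f (ptr F J ω)) 2 := ⟨_, rfl⟩
      rw [← hn0, ← hn1, ← hn2] at x3 ⊢
      rw [← hn2] at x4
      rw [← hn0] at x6
      rw [← hn1] at x7
      have hn2p : 0 < |n2| := hν.trans_le x4
      have hn2' : n2 ≠ 0 := abs_pos.mp hn2p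
      have b0 : |n0 / n2| ≤ 1 / ν := by
        rw [abs_div]
        exact div_le_div₀ zero_le_one x6 hν x4
      have b1 : |n1 / n2| ≤ 1 / ν := by
        rw [abs_div]
        exact div_le_div₀ zero_le_one x7 hν x4
      have e3 : Xn F c g a₀ ψ ω (i + 1) + n0 / n2 + n1 / n2 * Xn F c g a₀ ψ ω (iy + 1) =
          (n0 + n1 * Xn F c g a₀ ψ ω (iy + 1) + n2 * Xn F c g a₀ ψ ω (i + 1)) / n2 := by
        field_simp
        ring
      have b2 : |Xn F c g a₀ ψ ω (i + 1) + n0 / n2 + n1 / n2 * Xn F c g a₀ ψ ω (iy + 1)| ≤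
          η₀ / ν := by
        rw [e3, abs_div]
        exact div_le_div₀ hη₀ x3 hν x4
      have hν1' : 1 ≤ 1 / ν := by
        rw [le_div_iff₀ hν, one_mul]
        exact hν1
      have e5 : η = η₀ / ν + δ₀ * (1 / ν) + δ₀ * (1 / ν) := by
        rw [hη]
        ring
      have hδν : δ₀ ≤ δ₀ * (1 / ν) := le_mul_of_one_le_right hδ₀ hν1'
      refine ⟨?_, b0, b1, b2.trans (by linarith only [e5, hδν, hδ₀])⟩
      have e4 : Ez (eD ω) - -(n0 / n2) - -(n1 / n2) * Ey (eD ω) =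
          (Xn F c g a₀ ψ ω (i + 1) + n0 / n2 + n1 / n2 * Xn F c g a₀ ψ ω (iy + 1)) +
          (Ez (eD ω) - Xn F c g a₀ ψ ω (i + 1)) +
          n1 / n2 * (Ey (eD ω) - Xn F c g a₀ ψ ω (iy + 1)) := by ring
      rw [e4]
      have b3 : |n1 / n2 * (Ey (eD ω) - Xn F c g a₀ ψ ω (iy + 1))| ≤ 1 / ν * δ₀ := by
        rw [abs_mul]
        exact mul_le_mul b1 x8 (abs_nonneg _) (by positivity)
      refine (abs_add_le _ _).trans ((add_le_add ((abs_add_le _ _).trans (add_le_add b2 x9))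
        b3).trans ?_)
      linarith only [e5, hδν]
    -- the rate of the first direction on the plank
    have hηκ : η ≤ κ := by
      have h3 : η * 1 ≤ 24 * Y ^ 4 * η * κ := by
        have h4 : 1 ≤ Y * κ := by
          rw [div_le_iff₀ hκ] at hκY
          exact hκY
        have h5 : (1 : ℝ) ≤ Y ^ 3 := one_le_pow₀ hY1
        have h6 : 1 * 1 ≤ Y ^ 3 * (Y * κ) := mul_le_mul h5 h4 zero_le_one (by positivity)
        have h7 : 24 * Y ^ 4 * η * κ = 24 * (η * (Y ^ 3 * (Y * κ))) := by ring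
        rw [h7]
        have h8 := mul_le_mul_of_nonneg_left h6 hη0
        linarith only [h8, hη0]
      have h9 : ξ ≤ 1 := by
        have h10 : (1 : ℝ) ≤ 2 ^ (2 * (i + 1) + 2 * k + 6 + s) := one_le_pow₀ (by norm_num)
        have h11 := mul_le_mul_of_nonneg_left h10 hξ0
        linarith only [h11, hb1]
      rw [hξ] at h9
      have h12 := mul_le_mul_of_nonneg_right h9 hκ.le
      linarith only [h3, h12]
    have hNC' : NoCov q' (fun ω => ⌊Ey (eD ω) / κ⌋) (fun ω => f (ptr F J ω)) K (1 / 8) := by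
      intro Sf hSf
      obtain ⟨hh', hhd⟩ : ∃ hh' : ℕ, hh' = ⌊1 / ν + 2⌋₊ := ⟨_, rfl⟩
      have hhle : (hh' : ℝ) ≤ 1 / ν + 2 := by
        rw [hhd]
        exact Nat.floor_le (by positivity)
      obtain ⟨cj, hcj⟩ : ∃ cj : ζ' → ℤ → ℤ, cj = fun t (j : ℤ) =>
        ⌊(-(nv t 0 / nv t 2) + -(nv t 1 / nv t 2) * (κ * (j : ℝ))) / κ⌋ := ⟨_, rfl⟩
      obtain ⟨Ft, hFt⟩ : ∃ Ft : ζ' → Finset (ℤ × ℤ), Ft = fun t => (Sf t).biUnion (fun j =>
          (Finset.Icc (cj t j - hh') (cj t j + hh')).image (fun l => (j, l))) := ⟨_, rfl⟩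
      have hcard : ∀ t, (Ft t).card ≤ K₀ := by
        intro t
        rw [hFt]
        have h3 : ∀ j ∈ Sf t, ((Finset.Icc (cj t j - hh') (cj t j + hh')).image
            (fun l => (j, l))).card ≤ L := by
          intro j _
          refine Finset.card_image_le.trans ?_
          rw [Int.card_Icc]
          have h4 : (cj t j + hh' + 1 - (cj t j - hh')).toNat = 2 * hh' + 1 := by omega
          rw [h4]
          have h5 : ((2 * hh' + 1 : ℕ) : ℝ) ≤ L := by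
            push_cast
            have h6 : 2 / ν = 2 * (1 / ν) := by ring
            linarith only [hhle, hLν, h6]
          exact_mod_cast h5
        refine (Finset.card_biUnion_le_card_mul _ _ L h3).trans ?_
        exact (Nat.mul_le_mul_right L (hSf t)).trans hKL
      refine le_trans ?_ (hNC₀ Ft hcard)
      have e1 : ∀ G : F.Ω → Prop, law q' G True = ∑ ω, if G ω then q' ω else 0 := fun G =>
        Pool.JVE.pe_sum q' G
      rw [e1, e1]
      refine Finset.sum_le_sum fun ω _ => ?_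
      rcases (hq'.nonneg ω).eq_or_lt with h0 | h0
      · rw [← h0]
        simp
      · by_cases h4 : ⌊Ey (eD ω) / κ⌋ ∈ Sf (f (ptr F J ω))
        · rw [if_pos h4, if_pos]
          obtain ⟨p1, -, p3, -⟩ := hplk ω h0
          rw [hFt]
          refine Finset.mem_biUnion.2 ⟨_, h4, Finset.mem_image.2 ⟨⌊Ez (eD ω) / κ⌋, ?_, rfl⟩⟩
          obtain ⟨y, hy⟩ : ∃ y, y = Ey (eD ω) := ⟨_, rfl⟩
          obtain ⟨x, hx⟩ : ∃ x, x = Ez (eD ω) := ⟨_, rfl⟩
          obtain ⟨al, hal⟩ : ∃ al, al = -(nv (f (ptr F J ω)) 0 / nv (f (ptr F J ω)) 2) := ⟨_, rfl⟩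
          obtain ⟨be, hbe⟩ : ∃ be, be = -(nv (f (ptr F J ω)) 1 / nv (f (ptr F J ω)) 2) := ⟨_, rfl⟩
          have hbe1 : |be| ≤ 1 / ν := by
            rw [hbe, abs_neg]
            exact p3
          rw [← hy, ← hx, ← hal, ← hbe] at p1
          rw [hcj]
          show ⌊Ez (eD ω) / κ⌋ ∈ Finset.Icc
            (⌊(-(nv (f (ptr F J ω)) 0 / nv (f (ptr F J ω)) 2) +
              -(nv (f (ptr F J ω)) 1 / nv (f (ptr F J ω)) 2) *
                (κ * (⌊Ey (eD ω) / κ⌋ : ℤ))) / κ⌋ - hh')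
            (⌊(-(nv (f (ptr F J ω)) 0 / nv (f (ptr F J ω)) 2) +
              -(nv (f (ptr F J ω)) 1 / nv (f (ptr F J ω)) 2) *
                (κ * (⌊Ey (eD ω) / κ⌋ : ℤ))) / κ⌋ + hh')
          rw [← hy, ← hx, ← hal, ← hbe]
          have f1 : κ * (⌊y / κ⌋ : ℝ) ≤ y := by
            have h5 := mul_le_mul_of_nonneg_left (Int.floor_le (y / κ)) hκ.le
            rwa [mul_div_cancel₀ _ hκ.ne'] at h5
          have f2 : y ≤ κ * (⌊y / κ⌋ : ℝ) + κ := by
            have h5 := mul_le_mul_of_nonneg_left (Int.lt_floor_add_one (y / κ)).le hκ.le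
            rw [mul_div_cancel₀ _ hκ.ne'] at h5
            linarith only [h5]
          have f3 : |x - (al + be * (κ * (⌊y / κ⌋ : ℝ)))| ≤ κ * (1 / ν + 1) := by
            have e2 : x - (al + be * (κ * (⌊y / κ⌋ : ℝ))) = (x - al - be * y) +
              be * (y - κ * (⌊y / κ⌋ : ℝ)) := by ring
            rw [e2]
            refine (abs_add_le _ _).trans ?_
            have h5 : |be * (y - κ * (⌊y / κ⌋ : ℝ))| ≤ 1 / ν * κ := by
              rw [abs_mul]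
              refine mul_le_mul hbe1 ?_ (abs_nonneg _) (by positivity)
              rw [abs_le]
              constructor <;> linarith only [f1, f2, hκ]
            linarith only [h5, p1, hηκ]
          have f4 : |x / κ - (al + be * (κ * (⌊y / κ⌋ : ℝ))) / κ| ≤ 1 / ν + 1 := by
            rw [← sub_div, abs_div, abs_of_pos hκ, div_le_iff₀ hκ]
            linarith only [f3]
          have f5 := flr_dist f4
          have f6 : |(⌊x / κ⌋ - ⌊(al + be * (κ * (⌊y / κ⌋ : ℝ))) / κ⌋ : ℤ)| ≤ (hh' : ℤ) := by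
            have h5 : (((|(⌊x / κ⌋ - ⌊(al + be * (κ * (⌊y / κ⌋ : ℝ))) / κ⌋ : ℤ)| : ℤ) : ℝ)) ≤
                1 / ν + 2 := by
              rw [Int.cast_abs]
              linarith only [f5]
            have h6 : (|(⌊x / κ⌋ - ⌊(al + be * (κ * (⌊y / κ⌋ : ℝ))) / κ⌋ : ℤ)|).toNat ≤ hh' := by
              rw [hhd]
              refine Nat.le_floor ?_
              have h7 : (((|(⌊x / κ⌋ - ⌊(al + be * (κ * (⌊y / κ⌋ : ℝ))) / κ⌋ : ℤ)|).toNat : ℕ) :
                ℝ) = ((|(⌊x / κ⌋ - ⌊(al + be * (κ * (⌊y / κ⌋ : ℝ))) / κ⌋ : ℤ)| : ℤ) : ℝ) := by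
                have := Int.toNat_of_nonneg (abs_nonneg
                  (⌊x / κ⌋ - ⌊(al + be * (κ * (⌊y / κ⌋ : ℝ))) / κ⌋ : ℤ))
                exact_mod_cast congrArg (fun n : ℤ => (n : ℝ)) this
              rw [h7]
              exact h5
            omega
          rw [abs_le] at f6
          rw [Finset.mem_Icc]
          constructor <;> omega
        · rw [if_neg h4]
          split_ifs
          exacts [h0.le, le_rfl]
    -- the two samples
    have hp1 := Pool.D2Con.plk_one (S := slam F a₀) (z := z) (z' := fun ω => f (ptr F J ω)) hq'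
      (hdet _ _ hz') (hdet _ _ hSz) eD Ey Ez (fun ω ω' hω hω' hh => hdet _ _ hSe ω ω' hω hω' hh)
      (ηF := (ηF + Real.log 2) / c₂) (by
        have h3 : CH q' eD (fun ω => (f (ptr F J ω), z ω)) ≤ CH q' eD (fun ω => f (ptr F J ω)) :=
          CH_mono_cond hq'.nonneg fun w w' _ _ hh => (Prod.ext_iff.mp hh).1
        linarith)
      (fun t => -(nv t 0 / nv t 2)) (fun t => -(nv t 1 / nv t 2)) (R := Y) (κ := κ) (η := η) hκ
      (fun ω hω => hREy ω (hsup ω hω).1) (fun ω hω => (hplk ω hω).1) (K := K) (by omega)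
      (c := 1 / 8) (c₁ := 1 / 4) (by norm_num) hNC' (by norm_num) (η₁ := η₁) hη₁ (by
        have e6 : (2 * ((ηF + Real.log 2) / c₂) + Real.log 2) / (1 / 4) =
            8 * ((ηF + Real.log 2) / c₂) + 4 * Real.log 2 := by ring
        rw [e6]
        have e7 : (1 - (1 : ℝ) / 8 / (1 / 4)) = 1 / 2 := by norm_num
        rw [e7]
        linarith)
    have hκη : 2 * η / κ ≤ 2 * η * Y := by
      have h3 : 2 * η / κ = 2 * η * (1 / κ) := by ring
      rw [h3]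
      exact mul_le_mul_of_nonneg_left hκY (by linarith)
    have hη₁' : η₁ ≤ 7 * Y ^ 2 * η := by
      have h3 : 2 * η / κ * Y ≤ 2 * η * Y * Y := mul_le_mul_of_nonneg_right hκη hY0.le
      have h4 : η ≤ η * Y ^ 2 := le_mul_of_one_le_right hη0 (one_le_pow₀ hY1)
      rw [hη₁]
      linarith only [h3, h4]
    have hη₁0 : 0 ≤ η₁ := by
      rw [hη₁]
      positivity
    have hκη₁ : 2 * η₁ / κ ≤ 14 * Y ^ 3 * η := by
      have h3 : 2 * η₁ / κ = 2 * η₁ * (1 / κ) := by ring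
      rw [h3]
      calc 2 * η₁ * (1 / κ) ≤ 2 * η₁ * Y := mul_le_mul_of_nonneg_left hκY (by linarith)
        _ ≤ 2 * (7 * Y ^ 2 * η) * Y := mul_le_mul_of_nonneg_right (by linarith) hY0.le
        _ = _ := by ring
    have hY34 : Y ^ 3 * η ≤ Y ^ 4 * η :=
      mul_le_mul_of_nonneg_right (pow_le_pow_right₀ hY1 (by norm_num)) hη0
    have hY24 : Y ^ 2 * η ≤ Y ^ 4 * η :=
      mul_le_mul_of_nonneg_right (pow_le_pow_right₀ hY1 (by norm_num)) hη0
    have hY14 : Y * η ≤ Y ^ 4 * η := by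
      have := pow_le_pow_right₀ hY1 (show 1 ≤ 4 by norm_num)
      rw [pow_one] at this
      exact mul_le_mul_of_nonneg_right this hη0
    have hY04 : η ≤ Y ^ 4 * η := by
      have := one_le_pow₀ hY1 (n := 4)
      calc η = 1 * η := (one_mul η).symm
        _ ≤ _ := mul_le_mul_of_nonneg_right this hη0
    have hB1 : 2 * η₁ / κ + 2 * η / κ ≤ ξ := by
      rw [hξ]
      linarith only [hκη₁, hκη, hY34, hY14, mul_nonneg (pow_nonneg hY0.le 4) hη0]
    have hA1 : (η₁ + 2 * η₁ / κ * Y) + (η + 2 * η / κ * Y) ≤ ξ := by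
      have h3 : 2 * η₁ / κ * Y ≤ 14 * Y ^ 3 * η * Y := mul_le_mul_of_nonneg_right hκη₁ hY0.le
      have h4 : 2 * η / κ * Y ≤ 2 * η * Y * Y := mul_le_mul_of_nonneg_right hκη hY0.le
      have h5 : 14 * Y ^ 3 * η * Y = 14 * (Y ^ 4 * η) := by ring
      have h6 : 2 * η * Y * Y = 2 * (Y ^ 2 * η) := by ring
      rw [h5] at h3
      rw [h6] at h4
      have h7 : 7 * Y ^ 2 * η = 7 * (Y ^ 2 * η) := by ring
      rw [h7] at hη₁'
      have h8 : ξ = 24 * (Y ^ 4 * η) := by rw [hξ]; ring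
      linarith only [h3, h4, hη₁', h8, hY24, hY04]
    -- the labels
    obtain ⟨μ, hμ⟩ : ∃ μ : PtT F → ℕ → ℝ, μ = fun y => mu2 (iy + 1) (-(nv (f y) 0 / nv (f y) 2))
      (-(nv (f y) 1 / nv (f y) 2)) := ⟨_, rfl⟩
    have hlab := hv₁ J hJ.1 F A (S.mono (min_le_left _ _) hA) n a₀ e₀ e' k s V p g ψ ψH N q' (M / c₂)
      hq' (div_nonneg hM hc₂.le) (fun ω hω => hqA ω (hsup ω hω).1) hdens hfr' μ (by
        intro ω hω j _
        obtain ⟨-, b1, b2, -⟩ := hplk ω hω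
        rw [hμ]
        refine mu2_le ?_ ?_ j
        · rw [abs_neg]
          exact b1.trans hνe
        · rw [abs_neg]
          exact b2.trans hνe) ξ hξ0 hb1
    have hP2 := P2_isLaw hq' (slam F a₀)
    have hone : law (P2 q' (slam F a₀)) (fun _ => True) True = 1 := law_one hP2 fun _ _ => trivial
    have hor := Pool.D2Con.law_or (q := P2 q' (slam F a₀)) hP2.nonneg (fun _ => True)
      (fun v => 2 * η₁ / κ + 2 * η / κ <
          |-(nv (f (ptr F J v.2)) 1 / nv (f (ptr F J v.2)) 2) -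
            -(nv (f (ptr F J v.1)) 1 / nv (f (ptr F J v.1)) 2)| ∨
        (η₁ + 2 * η₁ / κ * Y) + (η + 2 * η / κ * Y) <
          |-(nv (f (ptr F J v.2)) 0 / nv (f (ptr F J v.2)) 2) -
            -(nv (f (ptr F J v.1)) 0 / nv (f (ptr F J v.1)) 2)|)
      (fun x => (∀ j ≤ i, |μ (ptr F J x.2) j - μ (ptr F J x.1) j| ≤ ξ) ∧
        |Xn F c g a₀ ψ x.1 (i + 1) - ln i (μ (ptr F J x.2)) (Xn F c g a₀ ψ x.1)| ≤ ξ) (by
      intro x hx _
      obtain ⟨x1, x2, x3⟩ := (P2_pos hq' x).mp hx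
      by_cases g1 : 2 * η₁ / κ + 2 * η / κ <
          |-(nv (f (ptr F J x.2)) 1 / nv (f (ptr F J x.2)) 2) -
            -(nv (f (ptr F J x.1)) 1 / nv (f (ptr F J x.1)) 2)| ∨
        (η₁ + 2 * η₁ / κ * Y) + (η + 2 * η / κ * Y) <
          |-(nv (f (ptr F J x.2)) 0 / nv (f (ptr F J x.2)) 2) -
            -(nv (f (ptr F J x.1)) 0 / nv (f (ptr F J x.1)) 2)|
      · exact Or.inl g1
      · right
        rw [not_or, not_lt, not_lt] at g1
        constructor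
        · intro j _
          rw [hμ]
          exact mu2_sub (g1.2.trans hA1) (g1.1.trans hB1) j
        · obtain ⟨-, -, -, b3⟩ := hplk _ x2
          rw [← Xn_slam hfr' x1 x2 x3, ← Xn_slam hfr' x1 x2 x3] at b3
          rw [hμ]
          rw [ln_mu2 (by omega) (by omega), Xn_zero, mul_one]
          have e8 : Xn F c g a₀ ψ x.1 (i + 1) -
              (-(nv (f (ptr F J x.2)) 0 / nv (f (ptr F J x.2)) 2) +
                -(nv (f (ptr F J x.2)) 1 / nv (f (ptr F J x.2)) 2) *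
                  Xn F c g a₀ ψ x.1 (iy + 1)) =
              Xn F c g a₀ ψ x.1 (i + 1) + nv (f (ptr F J x.2)) 0 / nv (f (ptr F J x.2)) 2 +
                nv (f (ptr F J x.2)) 1 / nv (f (ptr F J x.2)) 2 *
                  Xn F c g a₀ ψ x.1 (iy + 1) := by ring
          rw [e8]
          refine b3.trans ?_
          rw [hξ]
          linarith only [hY04, mul_nonneg (pow_nonneg hY0.le 4) hη0])
    rw [hone] at hor
    have hlab' : law (P2 q' (slam F a₀)) (fun x => (∀ j ≤ i, |μ (ptr F J x.2) j -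
        μ (ptr F J x.1) j| ≤ ξ) ∧ |Xn F c g a₀ ψ x.1 (i + 1) -
          ln i (μ (ptr F J x.2)) (Xn F c g a₀ ψ x.1)| ≤ ξ) True ≤
        M / c₂ * Real.exp (-(δ₁ * J)) := hlab
    have hsmall : M / c₂ * Real.exp (-(δ₁ * J)) < 1 / 8 := by
      have h3 := mul_le_mul_of_nonneg_left (hexp δ₁ (min_le_left _ _)) hM
      have h5 : M / c₂ * Real.exp (-(δ₁ * J)) = M * Real.exp (-(δ₁ * J)) / c₂ := by ring
      rw [h5, div_lt_iff₀ hc₂]
      linarith
    linarith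
  -- the sum
  have l3 : law q G True ≤ law q G1 True + law q G2 True := by
    refine Pool.D2Con.law_or hq.nonneg G G1 G2 fun ω _ hω => ?_
    rw [hG1, hG2]
    rcases lt_or_ge (|nv (f (ptr F J ω)) 2|) ν with h3 | h3
    · exact Or.inl ⟨hω, h3⟩
    · exact Or.inr ⟨hω, h3⟩
  rw [← hG]
  linarith

end Pool.D2F
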