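import Pool.Agent.H60.ALT.Alq
import Pool.Agent.H71.AJX.Jwx

/-!
# The own height over a label which is a closed function of the chain at a later window

`ChJ`: two windows with a nested chain. `VaD`: the own height over a label of the window `v` is a
closed polynomial of the chain at the window `w`, up to the precision `pa`. `val_np`: then it is few
bits given the near heights of the chain over labels of the window `v`.
-/

set_option autoImplicit false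

namespace Pool.NPZ

open Finset Real MvPolynomial
open Pool.Agent.H49.Ent Pool.Agent.H32.Dense Pool.STK Pool.KA Pool.KSAT Pool.K2S Pool.PB Pool.GEN
open Pool.S6C Pool.RCD Pool.LA91 Pool.OWN68 Pool.CHT Pool.AJW
open Pool.GRD (LbP)
open Pool.UNJ (ceI Tub)
open Pool.ALT (DpI)
open Pool.AJX (LbX)

/-- **Two windows** with a nested chain: `q` digits behind the natural ones. -/
structure ChJ {m : ℕ} (S : PCl m) (c : ℕ → Fin m) (r₀ r : ℕ) (v w lam q ρ g₀ : ℝ)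
    (E p s n lv rd : ℕ → ℝ) : Prop where
  hr : r₀ ≤ r
  r1 : 1 ≤ r
  v0 : 0 ≤ v
  vw : v ≤ w
  ρ0 : 0 < ρ
  g0 : 0 < g₀
  q0 : 0 < q
  l1 : v + lam < 1
  E0 : ∀ i, r₀ ≤ i → i < r → 0 ≤ E i ∧ E i ≤ 1
  chn : ∃ (u₁ : ℝ) (rw : ℕ → ℝ), Chn S c r₀ r w w u₁ s rw
  rd0 : ∀ i, r₀ ≤ i → i < r → 0 ≤ rd i ∧ rd i + g₀ ≤ 1
  n1 : ∀ i, r₀ ≤ i → i < r → n i + E i + g₀ ≤ 1
  lv0 : ∀ i, r₀ ≤ i → i < r → 0 < lv i
  dig : ∀ i, r₀ ≤ i → i < r → s i + lv i + ρ ≤ n i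
  nst : ∀ i, r₀ ≤ i → i < r → ∀ l, r₀ ≤ l → l < i → s i + lv i + ρ ≤ min (p i) (s i) + lv l
  bas : ∀ i, r₀ ≤ i → i < r → s i + lv i + ρ ≤ min (p i) (s i) + (v + lam - w)
  top : ∀ l, r₀ ≤ l → l < r → q + ρ ≤ lv l
  topb : q + ρ ≤ v + lam - w

variable {m : ℕ} {S : PCl m} {C₀ : ℝ}

theorem ChJ.of_jetx {c : ℕ → Fin m} {r₀ r : ℕ} {v w lam q ρ g₀ : ℝ} {E p s n lv rd : ℕ → ℝ} {K : ℕ}
    (H : Pool.AJX.JetX S c r₀ r v w lam q ρ g₀ E p s n lv rd K) (hr : 1 ≤ r) :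
    ChJ S c r₀ r v w lam q ρ g₀ E p s n lv rd where
  hr := H.hr
  r1 := hr
  v0 := H.v0
  vw := H.vw
  ρ0 := H.ρ0
  g0 := H.g0
  q0 := H.q0
  l1 := H.l1
  E0 := fun i a b => H.E0 i a b.le
  chn := H.chn
  rd0 := fun i a b => H.rd0 i a b.le
  n1 := H.n1
  lv0 := H.lv0
  dig := H.dig
  nst := H.nst
  bas := H.bas
  top := fun _ a b => H.lvq a b
  topb := H.mid

theorem ChJ.sub {S' : PCl m} (hs : ∀ (τ : ℝ) (J : ℕ) (F : Fam m J) (A : F.Ω → Prop),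
    S'.St τ J F A → S.St τ J F A) {c : ℕ → Fin m} {r₀ r : ℕ} {v w lam q ρ g₀ : ℝ}
    {E p s n lv rd : ℕ → ℝ} (H : ChJ S c r₀ r v w lam q ρ g₀ E p s n lv rd) :
    ChJ S' c r₀ r v w lam q ρ g₀ E p s n lv rd := by
  obtain ⟨u₁, rw, h⟩ := H.chn
  exact { H with chn := ⟨u₁, rw, h.sub hs⟩ }

/-- The own height over the label `G` of the window `v` is a closed polynomial of the chain at the
window `w`, up to the precision `pa`. -/
def VaD {J : ℕ} (F : Fam m J) (c : ℕ → Fin m) (r : ℕ) (κ : Fin m) (K : ℕ) (v w pa : ℝ)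
    (A : F.Ω → Prop) {V : Type} (z' : LnT F → V) (G : V → MvPolynomial (Option (Fin m)) ℝ) : Prop :=
  ∃ (Va : Type) (za : PtT F → Va) (za' : LnT F → Va) (Da : Va → MvPolynomial (Option (Fin m)) ℝ),
    (∀ y, (Da y).totalDegree ≤ K) ∧ (∀ y, DpI ((range r).image c) (Da y)) ∧
    (∀ ω, A ω → za (ptr F J ω) = za' (slam F ⌊w * J⌋₊ ω)) ∧
    ∀ ω, A ω → |ojet F κ 0 (G (z' (slam F ⌊v * J⌋₊ ω))) ω -
      eval (bt F ω) (Da (za' (slam F ⌊w * J⌋₊ ω)))| ≤ 1 / 2 ^ ⌊pa * J⌋₊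

theorem VaD.sub {J : ℕ} {F : Fam m J} {c : ℕ → Fin m} {r : ℕ} {κ : Fin m} {K : ℕ} {v w pa : ℝ}
    {A B : F.Ω → Prop} {V : Type} {z' : LnT F → V} {G : V → MvPolynomial (Option (Fin m)) ℝ}
    (h : VaD F c r κ K v w pa A z' G) (hB : Sub B A) : VaD F c r κ K v w pa B z' G := by
  obtain ⟨Va, za, za', Da, h1, h2, h3, h4⟩ := h
  exact ⟨Va, za, za', Da, h1, h2, fun ω hω => h3 ω (hB ω hω), fun ω hω => h4 ω (hB ω hω)⟩

/-- **The own height over the label is few bits** given the near heights of the chain. -/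
theorem val_np (htm : TmC S C₀) {c : ℕ → Fin m} {r₀ r : ℕ} {v w lam q ρ g₀ : ℝ}
    {E p s n lv rd : ℕ → ℝ} (H : ChJ S c r₀ r v w lam q ρ g₀ E p s n lv rd)
    {α γ : ∀ J : ℕ, Fam m J → Type} {f : ∀ (J : ℕ) (F : Fam m J), F.Ω → α J F}
    {y : ∀ (J : ℕ) (F : Fam m J), F.Ω → γ J F}
    (hf : ∀ (J : ℕ) (F : Fam m J), ∃ φ : α J F → PtT F, ∀ ω, ptr F J ω = φ (f J F ω))
    (hy : Kn0 ((range r₀).image c) (v + lam) y) (κ : Fin m) (K K' : ℕ) {e pN pa N : ℝ}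
    (he : 0 < e) (he8 : e ≤ ρ / 8) (hpN : 0 < pN) (hpa : pN ≤ pa) (hNa : N ≤ pa) (hN : N ≤ pN + q)
    {h : ℝ} (hh : 0 < h) :
    Bas S (fun J F A => ∀ (V : Type) (z : PtT F → V) (z' : LnT F → V)
      (G : V → MvPolynomial (Option (Fin m)) ℝ) (g : V → ℕ → MvPolynomial (Option (Fin m)) ℝ),
      LbX F c r₀ r K e E v rd p A z z' g →
      (∀ ω, A ω → |ojet F κ 0 (G (z' (slam F ⌊v * J⌋₊ ω))) ω| ≤ 1 / 2 ^ ⌊pN * J⌋₊) →
      VaD F c r κ K' v w pa A z' G →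
      ∃ (V₁ : Type) (z₁ : F.Ω → V₁), Cl2 (f J F) (vg w J F) A z₁ ∧
        CH (Pool.Agent.H49.Ent.cond F.p A True)
          (fun ω => ⌊(2 : ℝ) ^ (N * J) * ojet F κ 0 (G (z' (slam F ⌊v * J⌋₊ ω))) ω⌋)
          (fun ω => (hts F c r₀ r z' ⌊v * J⌋₊ g n ω, (z₁ ω, y J F ω))) ≤ h * J) := by
  classical
  obtain ⟨u₁, rw, hch⟩ := H.chn
  have hρ := H.ρ0
  have hvw := H.vw
  have hr := H.r1
  have hwp : w < v + lam := by linarith [H.topb, H.q0]
  have hk : c 0 ∈ (range r).image c := mem_image_of_mem c (mem_range.2 (by omega))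
  obtain ⟨P, hP⟩ : ∃ P : ℝ, P = pN + ρ / 16 := ⟨_, rfl⟩
  obtain ⟨M₁, J₁, hc1⟩ := cnt_jets m K (e := e + 1) (w := v) (by linarith) n (fun i => max (rd i) 0) r
    (fun i _ => le_max_right _ _)
  obtain ⟨M, hM⟩ : ∃ M : ℕ, M = ⌈|N| + |pN| + 3⌉₊ + 2 := ⟨_, rfl⟩
  have a3 := hgt_F1 (y := y) htm hch (k := c 0) (lv := lv) (p₀ := v + lam) (σ₀ := ρ)
    (wv := fun _ _ => v) (pv := fun l _ => p l) (Nv := fun l _ => n l) (w₁ := w) (w₂ := w)
    (p₁ := P) (p₂ := P) (N₁ := N) (N₂ := N)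
    (fun _ _ _ _ _ => hvw) le_rfl le_rfl hwp H.l1.le hρ H.lv0 H.dig H.bas H.nst le_rfl
    (by rw [min_self]; linarith [H.topb]) (fun l a b => by
      rw [min_self]
      linarith [H.top l a b]) hf hy (h := h / 2) (by linarith)
  obtain ⟨K₁, hK₁⟩ : ∃ K₁ : ℕ, K₁ = K + K' + M₁ + M + 1 := ⟨_, rfl⟩
  obtain ⟨J₂, hJ₂⟩ := exists_nat_ge (3 / (ρ / 16))
  obtain ⟨J₃, hJ₃⟩ := exists_nat_ge (Real.log 13 / (h / 2))
  obtain ⟨J₄, hJ₄⟩ := exists_nat_ge (3 / pN)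
  refine Bas.mono (max (max J₁ J₄) (max J₂ (max J₃ 1))) ((a3 K₁).and (Pool.GRW.tmc_bas htm one_pos)) ?_
  rintro J hJ F A ⟨HT, hA, -⟩ V z z' G g hlb hpos ⟨Va, za, za', Da, d1, d2, d3, d4⟩
  have hJ1 : J₁ ≤ J := by omega
  have hJ01 : (1 : ℝ) ≤ J := by exact_mod_cast (by omega : 1 ≤ J)
  have hJ0 : (0 : ℝ) ≤ J := Nat.cast_nonneg J
  have f2 : 3 ≤ ρ / 16 * J := by
    have e1 : (J₂ : ℝ) ≤ J := by exact_mod_cast (by omega : J₂ ≤ J)
    have e2 := hJ₂.trans e1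
    rw [div_le_iff₀ (by positivity)] at e2
    linarith
  have f3 : Real.log 13 ≤ h / 2 * J := by
    have e1 : (J₃ : ℝ) ≤ J := by exact_mod_cast (by omega : J₃ ≤ J)
    have e2 := hJ₃.trans e1
    rw [div_le_iff₀ (by positivity)] at e2
    linarith
  have f4 : 3 ≤ pN * J := by
    have e1 : (J₄ : ℝ) ≤ J := by exact_mod_cast (by omega : J₄ ≤ J)
    have e2 := hJ₄.trans e1
    rw [div_le_iff₀ (by positivity)] at e2
    linarith
  obtain ⟨q', hq'⟩ : ∃ q' : F.Ω → ℝ, q' = Pool.Agent.H49.Ent.cond F.p A True := ⟨_, rfl⟩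
  have hq'l : IsLaw q' := by
    rw [hq']
    exact isLaw_cond F.isLaw hA
  have h0 := hq'l.nonneg
  have p0 : ∀ x : ℝ, (0 : ℝ) < 2 ^ x := fun x => Real.rpow_pos_of_pos (by norm_num) _
  obtain ⟨o, ho⟩ : ∃ o : F.Ω → ℝ, o = fun ω => ojet F κ 0 (G (z' (slam F ⌊v * J⌋₊ ω))) ω := ⟨_, rfl⟩
  obtain ⟨d, hd⟩ : ∃ d : F.Ω → ℝ, d = fun ω => eval (bt F ω) (Da (za' (slam F ⌊w * J⌋₊ ω))) := ⟨_, rfl⟩
  have hod : ∀ ω, A ω → |o ω - d ω| ≤ 1 / 2 ^ ⌊pa * J⌋₊ := fun ω hω => by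
    rw [ho, hd]
    exact d4 ω hω
  have hoN : ∀ ω, A ω → |o ω| ≤ 1 / 2 ^ ⌊pN * J⌋₊ := fun ω hω => by
    rw [ho]
    exact hpos ω hω
  -- the size of the polynomial
  have hmono : (1 : ℝ) / 2 ^ ⌊pa * J⌋₊ ≤ 1 / 2 ^ ⌊pN * J⌋₊ :=
    inv_mono (Nat.floor_le_floor (mul_le_mul_of_nonneg_right hpa hJ0))
  have hdN : ∀ ω, A ω → |d ω| ≤ 2 * (1 / 2 ^ ⌊pN * J⌋₊) := fun ω hω => by
    have h1 := abs_sub_abs_le_abs_sub (d ω) (o ω)
    have h2 := hod ω hω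
    rw [abs_sub_comm] at h2
    linarith [hoN ω hω]
  have hfl : ⌊(P - ρ / 8) * J⌋₊ + 1 ≤ ⌊pN * J⌋₊ := by
    have e1 : (P - ρ / 8) * J = pN * J - ρ / 16 * J := by rw [hP]; ring
    have h4 : (P - ρ / 8) * J + 1 ≤ pN * J := by rw [e1]; linarith
    rcases le_or_gt 0 ((P - ρ / 8) * J) with h5 | h5
    · rw [← Nat.floor_add_one h5]
      exact Nat.floor_le_floor h4
    · rw [Nat.floor_of_nonpos h5.le]
      exact Nat.le_floor (by push_cast; linarith)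
  have hdP : ∀ ω, A ω → |d ω| ≤ 1 / 2 ^ ⌊(P - ρ / 8) * J⌋₊ := fun ω hω => by
    refine (hdN ω hω).trans ?_
    have h2 : (1 : ℝ) / 2 ^ ⌊pN * J⌋₊ ≤ 1 / 2 ^ (⌊(P - ρ / 8) * J⌋₊ + 1) := inv_mono hfl
    have h3 : (1 : ℝ) / 2 ^ (⌊(P - ρ / 8) * J⌋₊ + 1) = 1 / 2 ^ ⌊(P - ρ / 8) * J⌋₊ / 2 := by
      rw [pow_succ]
      field_simp
    rw [h3] at h2
    linarith
  -- the labels of the coordinate `c 0`
  have hX : ∀ (y : Va) (ω : F.Ω), ojet F (c 0) 0 (X (some (c 0)) - Da y) ω = eval (bt F ω) (Da y) := by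
    intro y ω
    show jet 0 (X (some (c 0)) - (X (some (c 0)) - Da y)) (bt F ω) (bd F ω) = _
    rw [jet_zero, sub_sub_cancel]
  have hX0 : ∀ ω : F.Ω, ojet F (c 0) 0 (X (some (c 0))) ω = 0 := by
    intro ω
    show jet 0 (X (some (c 0)) - X (some (c 0))) (bt F ω) (bd F ω) = _
    rw [jet_zero, sub_self, map_zero]
  have hDX : DpI ((range r).image c) (X (some (c 0)) : MvPolynomial (Option (Fin m)) ℝ) := by
    intro b b' _ hb
    rw [eval_X, eval_X]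
    exact hb _ hk
  have hXd : (X (some (c 0)) : MvPolynomial (Option (Fin m)) ℝ).totalDegree ≤ 1 :=
    (totalDegree_X _).le
  have hNd : ∀ ω, A ω → |(2 : ℝ) ^ (N * J) * d ω| ≤ 4 * 2 ^ ((|N| + |pN|) * J) := fun ω hω => by
    rw [abs_mul, abs_of_pos (p0 _)]
    calc (2 : ℝ) ^ (N * J) * |d ω| ≤ 2 ^ (N * J) * (2 * (2 * 2 ^ (-(pN * J)))) :=
          mul_le_mul_of_nonneg_left ((hdN ω hω).trans
            (mul_le_mul_of_nonneg_left (ip2_le _) (by norm_num))) (p0 _).le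
      _ = 4 * 2 ^ (N * J + -(pN * J)) := by
          rw [Real.rpow_add (by norm_num)]
          ring
      _ ≤ 4 * 2 ^ ((|N| + |pN|) * J) := by
          refine mul_le_mul_of_nonneg_left ?_ (by norm_num)
          refine Real.rpow_le_rpow_of_exponent_le (by norm_num) ?_
          have k1 := mul_le_mul_of_nonneg_right (le_abs_self N) hJ0
          have k2 := mul_le_mul_of_nonneg_right (neg_abs_le pN) hJ0
          linarith
  have hcnt : (cnt F.p (fun ω => ⌊(2 : ℝ) ^ (N * J) *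
      ojet F (c 0) 0 (X (some (c 0)) - Da (za' (slam F ⌊w * J⌋₊ ω))) ω⌋) A : ℝ) ≤
      Real.exp (M * J) := by
    have h1 : (1 : ℝ) ≤ 2 ^ ((|N| + |pN|) * J) :=
      Real.one_le_rpow (by norm_num) (by positivity)
    have h2 := cnt_le_of_abs (p := F.p) (A := A) (u := fun ω => ⌊(2 : ℝ) ^ (N * J) *
      ojet F (c 0) 0 (X (some (c 0)) - Da (za' (slam F ⌊w * J⌋₊ ω))) ω⌋)
      (B := 4 * 2 ^ ((|N| + |pN|) * J) + 1) (by positivity) (fun ω hω => by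
        rw [hX]
        have h3 := hNd ω hω
        rw [hd] at h3
        dsimp only at h3
        obtain ⟨dd, hdd⟩ : ∃ dd : ℝ, dd = (2 : ℝ) ^ (N * J) *
          eval (bt F ω) (Da (za' (slam F ⌊w * J⌋₊ ω))) := ⟨_, rfl⟩
        rw [← hdd] at h3 ⊢
        have c1 := Int.floor_le dd
        have c2 := Int.lt_floor_add_one dd
        rw [abs_le] at h3 ⊢
        constructor <;> linarith [h3.1, h3.2])
    refine h2.trans ?_
    calc 2 * (4 * (2 : ℝ) ^ ((|N| + |pN|) * J) + 1) + 1 ≤ 11 * 2 ^ ((|N| + |pN|) * J) := by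
          linarith
      _ ≤ Real.exp (3 * J) * 2 ^ ((|N| + |pN|) * J) := by
          refine mul_le_mul_of_nonneg_right ?_ (p0 _).le
          have e1 : (11 : ℝ) ≤ Real.exp 3 := by
            have e2 : Real.exp 3 = Real.exp 1 ^ 3 := by
              rw [← Real.exp_nat_mul]
              norm_num
            have e3 := Real.exp_one_gt_d9
            rw [e2]
            nlinarith [mul_self_nonneg (Real.exp 1), e3]
          refine e1.trans (Real.exp_le_exp.2 ?_)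
          linarith
      _ ≤ Real.exp (M * J) := by
          rw [← exp_p2, ← Real.exp_add]
          refine Real.exp_le_exp.2 ?_
          have e1 : |N| + |pN| + 3 ≤ (M : ℝ) := by
            rw [hM]
            push_cast
            linarith [Nat.le_ceil (|N| + |pN| + 3)]
          have e2 : (|N| + |pN|) * J * Real.log 2 ≤ (|N| + |pN|) * J * 1 :=
            mul_le_mul_of_nonneg_left (by have := Real.log_two_lt_d9; linarith) (by positivity)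
          have e3 := mul_le_mul_of_nonneg_right e1 hJ0
          linarith
  -- the heights of the chain
  have hQ : (qJets m c r₀ r 0 (fun _ _ => v) (fun l _ => p l) (fun l _ => n l)).P K₁ (ρ / 8) J F A
      (fun ω i' j' => if j' = 0 then hts F c r₀ r z' ⌊v * J⌋₊ g n ω i' else 0) := by
    refine (qJets m c r₀ r 0 _ _ _).mono (show max K M₁ ≤ K₁ by omega) he8
      (Pool.AJX.qJets_htx le_rfl hlb fun l hl0 hl => ?_)
    exact hc1 l hl J hJ1 F _ _ _ A V z z' (fun v => g v l) (by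
      rw [max_eq_left (H.rd0 l hl0 hl).1]
      exact hlb.wk hl0 hl (H.E0 l hl0 hl).2)
  obtain ⟨V₁, z₁, hz₁, h1⟩ := HT (fun ω => ((fun i' j' => if j' = 0 then
      hts F c r₀ r z' ⌊v * J⌋₊ g n ω i' else 0), (0 : ℤ)))
    (fun ω => ⌊(2 : ℝ) ^ (N * J) * ojet F (c 0) 0 (X (some (c 0)) -
      Da (za' (slam F ⌊w * J⌋₊ ω))) ω⌋)
    ⟨hQ, by
      refine ⟨?_, Unit, fun _ => (), fun _ => (), fun _ => X (some (c 0)), ⟨fun _ => hXd.trans
        (by omega), fun _ => hDX, fun _ _ => rfl, fun ω _ => ?_⟩, fun ω _ => ?_⟩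
      · have h2 := cnt_le_of_abs (p := F.p) (A := A) (u := fun _ : F.Ω => (0 : ℤ)) (B := 0) le_rfl
          (fun ω _ => by simp)
        refine h2.trans ?_
        rw [mul_zero, zero_add]
        exact Real.one_le_exp (by positivity)
      · rw [eval_X]
        show |F.x ω (c 0) - F.x ω (c 0)| ≤ _
        rw [sub_self, abs_zero]
        positivity
      · rw [hX0, mul_zero, Int.floor_zero]⟩
    ⟨hcnt.trans (Real.exp_le_exp.2 (mul_le_mul_of_nonneg_right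
        (by exact_mod_cast (by omega : M ≤ K₁)) hJ0)), Va, za, za', fun y => X (some (c 0)) - Da y,
      ⟨fun y => (totalDegree_sub _ _).trans (max_le (hXd.trans (by omega)) ((d1 y).trans
        (by omega))), fun y => hDX.sub (d2 y), d3, fun ω hω => by
        rw [map_sub, eval_X]
        have h2 := hdP ω hω
        rw [hd] at h2
        show |F.x ω (c 0) - (F.x ω (c 0) - eval (bt F ω) (Da (za' (slam F ⌊w * J⌋₊ ω))))| ≤ _
        rw [sub_sub_cancel]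
        exact h2⟩, fun ω _ => rfl⟩
  refine ⟨V₁, z₁, hz₁, ?_⟩
  rw [← hq'] at h1 ⊢
  obtain ⟨Xd, hXdd⟩ : ∃ Xd : F.Ω → ℤ, Xd = fun ω => ⌊(2 : ℝ) ^ (N * J) * d ω⌋ := ⟨_, rfl⟩
  obtain ⟨Xo, hXo⟩ : ∃ Xo : F.Ω → ℤ, Xo = fun ω => ⌊(2 : ℝ) ^ (N * J) * o ω⌋ := ⟨_, rfl⟩
  have hXo' : (fun ω => ⌊(2 : ℝ) ^ (N * J) * ojet F κ 0 (G (z' (slam F ⌊v * J⌋₊ ω))) ω⌋) = Xo := by
    rw [hXo, ho]
  have hXd' : (fun ω => ⌊(2 : ℝ) ^ (N * J) * ojet F (c 0) 0 (X (some (c 0)) -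
      Da (za' (slam F ⌊w * J⌋₊ ω))) ω⌋) = Xd := by
    rw [hXdd, hd]
    funext ω
    rw [hX]
  rw [hXd'] at h1
  rw [hXo']
  obtain ⟨Y, hY⟩ : ∃ Y : F.Ω → (ℕ → ℤ) × (V₁ × γ J F), Y = fun ω =>
    (hts F c r₀ r z' ⌊v * J⌋₊ g n ω, (z₁ ω, y J F ω)) := ⟨_, rfl⟩
  rw [← hY]
  have s1 := CH_le_add h0 Xo Xd Y
  have s2 : CH q' Xd Y ≤ h / 2 * J := by
    refine le_trans (CH_mono_cond h0 fun ω ω' _ _ e => ?_) h1
    rw [hY] at e
    simp only [Prod.mk.injEq] at e ⊢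
    refine ⟨⟨funext fun i' => funext fun j' => ?_, trivial⟩, e.2.1, e.2.2⟩
    rw [e.1]
  have s3 : CH q' Xo (fun ω => (Xd ω, Y ω)) ≤ Real.log 13 := by
    have e5 : (13 : ℝ) = 2 * ((5 + 1 : ℕ) : ℝ) + 1 := by norm_num
    rw [e5]
    refine CH_pair hq'l _ _ fun ω ω' hω hω' e => ?_
    rw [hXo]
    refine floor_sub_le ?_
    have hAω : A ω := by rw [hq'] at hω; exact of_cond_pos hω
    have hAω' : A ω' := by rw [hq'] at hω'; exact of_cond_pos hω'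
    have e1 := (Prod.ext_iff.mp e).1
    rw [hXdd] at e1
    have g1 := fl_one_mul (p0 _) e1
    have g2 : ∀ ω, A ω → |(2 : ℝ) ^ (N * J) * (o ω - d ω)| ≤ 2 := fun ω hω => by
      rw [abs_mul, abs_of_pos (p0 _)]
      calc (2 : ℝ) ^ (N * J) * |o ω - d ω| ≤ 2 ^ (N * J) * (2 * 2 ^ (-(pa * J))) :=
            mul_le_mul_of_nonneg_left ((hod ω hω).trans (ip2_le _)) (p0 _).le
        _ = 2 * 2 ^ (N * J + -(pa * J)) := by
            rw [Real.rpow_add (by norm_num)]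
            ring
        _ ≤ 2 * 1 := by
            refine mul_le_mul_of_nonneg_left ?_ (by norm_num)
            refine Real.rpow_le_one_of_one_le_of_nonpos (by norm_num) ?_
            have := mul_le_mul_of_nonneg_right hNa hJ0
            linarith
        _ = 2 := mul_one 2
    have g3 := g2 ω hAω
    have g4 := g2 ω' hAω'
    rw [abs_le] at g1 g3 g4 ⊢
    push_cast
    constructor <;> nlinarith [g1.1, g1.2, g3.1, g3.2, g4.1, g4.2]
  linarith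

end Pool.NPZ
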