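import Pool.Agent.H42.D2.Npb

/-!
# All jets of the own path given the far digits of the chain

`path_np`: the own path of a coordinate `κ` over labels of the window `v`, for which the own height
is a closed polynomial of the chain at a later window, is few bits given the ball and the context of
the chain (its own paths at the window `v` to finitely many digits behind the natural ones), if the
rows of the own height given the exact point of the chain are not full.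
-/

set_option autoImplicit false

namespace Pool.NPZ

open Finset Real MvPolynomial
open Pool.Agent.H49.Ent Pool.Agent.H32.Dense Pool.STK Pool.KA Pool.KSAT Pool.K2S Pool.PB Pool.GEN
open Pool.S6C Pool.RCD Pool.LA91 Pool.OWN68 Pool.CHT Pool.AJW
open Pool.GRD (LbP)
open Pool.UNJ (ceI Tub)
open Pool.ALT (DpI f1_jetq)
open Pool.AJX (LbX FwX)

/-- **All jets of the own path**, given the near digits of the chain. -/
theorem path_np (K : ℕ) {h : ℝ} (hh : 0 < h) (hh1 : h ≤ 1) {ε : ℝ} (hε : 0 < ε) :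
    ∃ δ : ℝ, 0 < δ ∧ ∀ {m : ℕ} {S : PCl m} {C₀ : ℝ} (_ : TmC S C₀) {c : ℕ → Fin m} {r₀ r : ℕ}
    {v w lam q₁ ρ g₀ : ℝ} {E pc s n lv rd : ℕ → ℝ}
    (_ : ChJ S c r₀ r v w lam q₁ ρ g₀ E pc s n lv rd) {κ : Fin m} {I : Finset (Fin m)}
    {Kc K' : ℕ} {e P pN pa q d rG eG a : ℝ} (_ : 0 < e) (_ : e ≤ ρ / 8) (_ : e ≤ g₀ / 2)
    (_ : 0 < pN) (_ : pN < P) (_ : P - pN ≤ e) (_ : P - pN ≤ δ * q / 8) (_ : P + q ≤ pa)
    (_ : P + q ≤ pN + q₁) (_ : 0 < q) (_ : v + q ≤ 1) (_ : w ≤ a) (_ : a ≤ 1) (_ : 0 ≤ rG)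
    (_ : 0 < eG) (_ : d + (r + 1) * ρ < δ * q / 2) {Θ : Fm4 m}
    (_ : NpC Θ c r₀ r κ Kc K' v w pN pa e E rd pc)
    (_ : ∀ (J : ℕ) (F : Fam m J) (A : F.Ω → Prop) (V : Type) (z : PtT F → V) (z' : LnT F → V)
      (G : V → MvPolynomial (Option (Fin m)) ℝ) (g : V → ℕ → MvPolynomial (Option (Fin m)) ℝ),
      Θ J F A V z z' G g →
      LbOK F I κ K ⌊eG * J⌋₊ J ⌊v * J⌋₊ ⌊(rG + eG) * J⌋₊ ⌊pN * J⌋₊ A z z' G)
    (_ : ∀ (J : ℕ) (F : Fam m J) (A B : F.Ω → Prop) (V : Type) (z : PtT F → V) (z' : LnT F → V)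
      (G : V → MvPolynomial (Option (Fin m)) ℝ) (g : V → ℕ → MvPolynomial (Option (Fin m)) ℝ),
      Sub B A → Θ J F A V z z' G g → Θ J F B V z z' G g)
    (_ : ∀ sa sb : ℝ, P ≤ sa → sa ≤ sb → sb ≤ P + q →
      Bas S (fun J F A => ∀ (V : Type) (z : PtT F → V) (z' : LnT F → V)
      (G : V → MvPolynomial (Option (Fin m)) ℝ) (g : V → ℕ → MvPolynomial (Option (Fin m)) ℝ),
      Θ J F A V z z' G g →
      CH (Pool.Agent.H49.Ent.cond F.p A True)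
        (fun ω => ⌊(2 : ℝ) ^ (sb * J) * ojet F κ 0 (G (z' (slam F ⌊v * J⌋₊ ω))) ω⌋)
        (fun ω => (⌊(2 : ℝ) ^ (sa * J) * ojet F κ 0 (G (z' (slam F ⌊v * J⌋₊ ω))) ω⌋,
          (ceI ((range r).image c) (fun _ => J) (F.x ω),
            (z' (slam F ⌊v * J⌋₊ ω), F.W ω)))) ≤
        ((1 - h) * (sb - sa) * Real.log 2 + d) * J))
    {U₀ : Type} {Qu : Qt m U₀} {α γ : ∀ J : ℕ, Fam m J → Type}
    {f : ∀ (J : ℕ) (F : Fam m J), F.Ω → α J F} {y : ∀ (J : ℕ) (F : Fam m J), F.Ω → γ J F}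
    (_ : ∀ (J : ℕ) (F : Fam m J), ∃ φ : α J F → PtT F, ∀ ω, ptr F J ω = φ (f J F ω))
    (_ : Kn0 ((range r₀).image c) (v + lam) y)
    (_ : FwX S f (vg a) y Qu c r₀ r Kc E v rd pc (ctx c r₀ r Kc v lam n) e (δ * q / 4)),
    ∀ K₀ : ℕ, Bas S (fun J F A => ∀ (V : Type) (z : PtT F → V) (z' : LnT F → V)
      (G : V → MvPolynomial (Option (Fin m)) ℝ) (g : V → ℕ → MvPolynomial (Option (Fin m)) ℝ),
      Θ J F A V z z' G g → ∀ u₀ : F.Ω → U₀, Qu.P K₀ (P - pN) J F A u₀ →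
      ∃ (V₁ : Type) (z₁ : F.Ω → V₁), Cl2 (f J F) (vg a J F) A z₁ ∧
        CH (Pool.Agent.H49.Ent.cond F.p A True)
          (fun ω => ((z' (vg v J F ω), (vg v J F ω).2), (ctx c r₀ r Kc v lam n J F V z' g ω,
            fun j : Fin (K + 3) => ⌊jr F ⌊v * J⌋₊ (2 ^ ((P + q) * J)) κ z' G j (vg v J F ω)⌋)))
          (fun ω => (u₀ ω, (z₁ ω, y J F ω))) ≤ ε * q * J) := by
  classical
  obtain ⟨δ, hδ, N₀, hN₀, Hp⟩ := Pool.AJX.path_rb K hh hh1 hε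
  refine ⟨δ, hδ, ?_⟩
  intro m S C₀ htm c r₀ r v w lam q₁ ρ g₀ E pc s n lv rd H κ I Kc K' e P pN pa q d rG eG a he he8
    heg hpN hpNP hPe hPδ hPa hPq hq hvq hwa ha hrG heG hd Θ hΘ hΘl hΘs hrow U₀ Qu α γ f y hf hy hctx
  have hN0 : (0 : ℝ) < N₀ := by exact_mod_cast hN₀
  have hρ := H.ρ0
  have hv0 := H.v0
  have hvw := H.vw
  have hva : v ≤ a := hvw.trans hwa
  have hv1 : v < 1 := by linarith
  have hδq : 0 < δ * q := by positivity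
  have hWa : ∀ J : ℕ, ⌊v * J⌋₊ ≤ J := floor_le (hva.trans ha)
  have hyT : ∀ (J : ℕ) (F : Fam m J), ∃ φ : γ J F → ℕ, ∀ ω, F.T ω = φ (y J F ω) := by
    intro J F
    obtain ⟨φ, hφ⟩ := hy J F
    exact ⟨fun x => (φ x).1, fun ω => (congrArg Prod.fst (hφ ω)).symm⟩
  have hlK : 0 ≤ Real.log (4 * ((Kc : ℝ) + 3) + 3) := Real.log_nonneg (by
    have : (0 : ℝ) ≤ Kc := Nat.cast_nonneg Kc
    linarith)
  have hctx' : ∀ K₀ : ℕ, Bas S (fun J F A => ∀ (V : Type) (z : PtT F → V) (z' : LnT F → V)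
      (G : V → MvPolynomial (Option (Fin m)) ℝ) (g : V → ℕ → MvPolynomial (Option (Fin m)) ℝ),
      Θ J F A V z z' G g → ∀ u₀ : F.Ω → U₀, Qu.P K₀ (P - pN) J F A u₀ →
      ∃ (V₁ : Type) (z₁ : F.Ω → V₁), Cl2 (f J F) (vg a J F) A z₁ ∧
        CH (Pool.Agent.H49.Ent.cond F.p A True) (ctx c r₀ r Kc v lam n J F V z' g)
          (fun ω => (u₀ ω, (z₁ ω, y J F ω))) ≤ δ * q / 4 * J) := by
    intro K₀
    refine Bas.mono 0 (hctx K₀) ?_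
    intro J _ F A h1 V z z' G g hTh u₀ hu₀
    exact h1 V z z' g (hΘ J F A V z z' G g hTh).1 u₀ (Qu.mono le_rfl hPe hu₀)
  have key := Hp htm (I := I) (κ := κ) (w := v) (a := a) (p := P) (q := q) (r := rG) hv0 hva ha hq
    hvq hrG (Qu := Qu) hf hyT (e := P - pN) (e' := eG) (by linarith) heG
    (fun J F A V C z z' G cc => ∃ g : V → ℕ → MvPolynomial (Option (Fin m)) ℝ,
      Θ J F A V z z' G g ∧
      ∃ (φ : C → (Fin m → ℤ × ℤ) × (ℕ → ℕ → ℤ)) (ψ : (Fin m → ℤ × ℤ) × (ℕ → ℕ → ℤ) → C),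
        (∀ x, ctxN F c r₀ r ⌊v * J⌋₊ ⌊(v + lam) * J⌋₊ Kc z' g n x = φ (cc x)) ∧
        ∀ x, cc x = ψ (ctxN F c r₀ r ⌊v * J⌋₊ ⌊(v + lam) * J⌋₊ Kc z' g n x))
    (by
      rintro J F A V C z z' G cc ⟨g, hTh, -⟩
      have h1 := hΘl J F A V z z' G g hTh
      rw [sub_sub_cancel]
      exact h1)
    (by
      rintro J F A B V C z z' G cc hBA ⟨g, hTh, hcc⟩
      exact ⟨g, hΘs J F A B V z z' G g hBA hTh, hcc⟩) ?_ ?_ ?_
      (fun j _ _ => f1_jetq htm hv0 hv1 (by linarith) Qu f (vg a) y hδq hPδ)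
  · intro K₀
    refine Bas.mono 0 (key K₀) ?_
    intro J _ F A h1 V z z' G g hTh u₀ hu₀
    exact h1 V _ z z' G (fun x => ctxN F c r₀ r ⌊v * J⌋₊ ⌊(v + lam) * J⌋₊ Kc z' g n x)
      ⟨g, hTh, fun x => x, fun x => x, fun _ => rfl, fun _ => rfl⟩ u₀ hu₀
  · -- the context
    intro K₁
    refine Bas.mono 0 ((hctx' K₁).and (Pool.GRW.tmc_bas htm one_pos)) ?_
    rintro J - F A ⟨h1, hA, -⟩ V C z z' G cc ⟨g, hTh, φ, ψ, hφ, hψ⟩ u₀ hu₀
    obtain ⟨V₁, z₁, hz₁, h2⟩ := h1 V z z' G g hTh u₀ hu₀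
    refine ⟨V₁, z₁, hz₁, le_trans (CH_mono_left (isLaw_cond F.isLaw hA).nonneg
      fun ω ω' _ _ e => ?_) (h2.trans ?_)⟩
    · show cc (vg v J F ω) = cc (vg v J F ω')
      rw [hψ, hψ]
      exact congrArg ψ (Prod.ext_iff.mp e).1
    · have : 0 ≤ δ * q * J := by positivity
      linarith
  · -- the rows
    intro i hi x hx0 hxq
    have hi' : (i : ℝ) ≤ N₀ := by exact_mod_cast hi
    have e0 : 0 ≤ q * i / N₀ := by positivity
    obtain ⟨qi, hqi⟩ : ∃ qi : ℝ, qi = q - q * i / N₀ := ⟨_, rfl⟩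
    rw [← hqi] at hxq ⊢
    have hqiq : qi ≤ q := by rw [hqi]; linarith
    have hR := row_np htm H (κ := κ) (K := Kc) (K' := K') (N := P + qi) (sa := P + x) he he8 heg hpN
      (by linarith : pN ≤ pa) (by linarith) (by linarith) (by linarith) hΘ
      (hrow (P + x) (P + qi) (by linarith) (by linarith) (by linarith)) (δ := δ * q / 2 - d)
      (by linarith)
    obtain ⟨J₂, hJ₂⟩ := exists_nat_ge ((m * Real.log 7 + r * Real.log (4 * (Kc + 3) + 3)) /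
      (δ * q / 2))
    refine Bas.mono J₂ (hR.and (Pool.GRW.tmc_bas htm one_pos)) ?_
    rintro J hJ F A ⟨h1, hA, -⟩ V C z z' G cc ⟨g, hTh, φ, ψ, hφ, hψ⟩
    have hJ2 : (J₂ : ℝ) ≤ J := by exact_mod_cast hJ
    have hJ0 : (0 : ℝ) ≤ J := Nat.cast_nonneg J
    have f1 : m * Real.log 7 + r * Real.log (4 * (Kc + 3) + 3) ≤ δ * q / 2 * J := by
      have := hJ₂.trans hJ2
      rw [div_le_iff₀ (by positivity)] at this
      linarith
    have h2 := h1 V z z' G g hTh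
    obtain ⟨hlb, -⟩ := hΘ J F A V z z' G g hTh
    obtain ⟨q', hq'⟩ : ∃ q' : F.Ω → ℝ, q' = Pool.Agent.H49.Ent.cond F.p A True := ⟨_, rfl⟩
    have hq'l : IsLaw q' := by
      rw [hq']
      exact isLaw_cond F.isLaw hA
    have h0 := hq'l.nonneg
    rw [← hq'] at h2 ⊢
    obtain ⟨Hn, hHn⟩ : ∃ Hn : F.Ω → ℤ, Hn = fun ω => ⌊(2 : ℝ) ^ ((P + qi) * J) *
      ojet F κ 0 (G (z' (slam F ⌊v * J⌋₊ ω))) ω⌋ := ⟨_, rfl⟩
    obtain ⟨Rx, hRx⟩ : ∃ Rx : F.Ω → ℤ, Rx = fun ω => ⌊(2 : ℝ) ^ ((P + x) * J) *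
      ojet F κ 0 (G (z' (slam F ⌊v * J⌋₊ ω))) ω⌋ := ⟨_, rfl⟩
    obtain ⟨Y, hY⟩ : ∃ Y : F.Ω → ℤ × (V × (C × (ℕ × F.ζ))), Y = fun ω =>
      (Rx ω, (z' (slam F ⌊v * J⌋₊ ω), (cc (slam F ⌊v * J⌋₊ ω), F.W ω))) := ⟨_, rfl⟩
    obtain ⟨ht, hht⟩ : ∃ ht : F.Ω → ℕ → ℤ, ht = fun ω => hts F c r₀ r z' ⌊v * J⌋₊ g n ω :=
      ⟨_, rfl⟩
    obtain ⟨B, hB⟩ : ∃ B : F.Ω → Fin m → ℤ, B = bI ((range r₀).image c) (v + lam) J F := ⟨_, rfl⟩
    have s1 := CH_le_add h0 Hn (fun ω => (ht ω, B ω)) Y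
    have s2 := CH_subadd h0 ht B Y
    have s3 : CH q' ht Y ≤ r * Real.log (4 * (Kc + 3) + 3) := by
      rw [hht]
      refine hts_few (hWa J) (fun l a b v => (hlb l a b).deg v) hq'l Y
        (fun ω => φ (cc (slam F ⌊v * J⌋₊ ω))) (Un := ⌊(v + lam) * J⌋₊)
        (fun ω => (hφ _).symm) fun ω ω' e => ?_
      rw [hY] at e
      simp only [Prod.mk.injEq] at e
      obtain ⟨-, -, e3, e4⟩ := e
      exact ⟨(Prod.ext_iff.mp e4).1, congrArg φ e3⟩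
    have s4 : CH q' B Y ≤ m * Real.log 7 := by
      rw [hB]
      refine le_trans (CH_mono_cond h0 fun ω ω' _ _ e => ?_)
        (cV0_pos hq'l ((range r₀).image c) (hWa J) ⌊(v + lam) * J⌋₊)
      rw [hY] at e
      simp only [Prod.mk.injEq] at e ⊢
      obtain ⟨-, -, e3, e4⟩ := e
      have e5 := hφ (slam F ⌊v * J⌋₊ ω)
      have e6 := hφ (slam F ⌊v * J⌋₊ ω')
      rw [e3, ← e6] at e5
      exact ⟨congrArg Prod.fst e5, e4⟩
    have s5 : CH q' Hn (fun ω => ((ht ω, B ω), Y ω)) ≤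
        ((1 - h) * (qi - x) * Real.log 2 + δ * q / 2) * J := by
      refine le_trans (CH_mono_cond h0 fun ω ω' _ _ e => ?_) (hHn ▸ h2.trans (le_of_eq ?_))
      · rw [hY] at e
        simp only [Prod.mk.injEq] at e ⊢
        obtain ⟨⟨e1, e2⟩, e3, e4, e5, e6⟩ := e
        rw [hRx] at e3
        rw [hht] at e1
        rw [hB] at e2
        exact ⟨e3, e4, e1, e2, e6⟩
      · ring
    have s6 : CH q' Hn Y ≤ ((1 - h) * (qi - x) * Real.log 2 + δ * q) * J := by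
      have e7 : ((1 - h) * (qi - x) * Real.log 2 + δ * q) * J =
        ((1 - h) * (qi - x) * Real.log 2 + δ * q / 2) * J + δ * q / 2 * J := by ring
      rw [e7]
      linarith
    rw [hHn, hY, hRx] at s6
    exact s6
  · -- the value
    intro K₁
    have hV := val_np htm H hf hy κ Kc K' (N := P + q) he he8 hpN (by linarith : pN ≤ pa) hPa hPq
      (show 0 < δ * q / 4 by linarith)
    obtain ⟨J₂, hJ₂⟩ := exists_nat_ge ((r * Real.log (4 * (Kc + 3) + 3)) / (δ * q / 4))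
    refine Bas.mono J₂ (((hctx' K₁).and hV).and (Pool.GRW.tmc_bas htm one_pos)) ?_
    rintro J hJ F A ⟨⟨h1, h2⟩, hA, -⟩ V C z z' G cc ⟨g, hTh, φ, ψ, hφ, hψ⟩ u₀ hu₀
    have hJ2 : (J₂ : ℝ) ≤ J := by exact_mod_cast hJ
    have hJ0 : (0 : ℝ) ≤ J := Nat.cast_nonneg J
    have f1 : r * Real.log (4 * (Kc + 3) + 3) ≤ δ * q / 4 * J := by
      have := hJ₂.trans hJ2
      rw [div_le_iff₀ (by positivity)] at this
      linarith
    obtain ⟨hlb, hG, hVa, hcls⟩ := hΘ J F A V z z' G g hTh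
    obtain ⟨V₁, z₁, hz₁, h1⟩ := h1 V z z' G g hTh u₀ hu₀
    obtain ⟨V₂, z₂, hz₂, h2⟩ := h2 V z z' G g hlb hG hVa
    obtain ⟨φw, hφw⟩ := vg_mono hwa ha J F
    have hz₂' : Cl2 (f J F) (vg a J F) A z₂ := by
      obtain ⟨h3, ψ₂, h4⟩ := hz₂
      exact ⟨h3, fun x => ψ₂ (φw x), fun ω hω => (h4 ω hω).trans (congrArg ψ₂ (hφw ω))⟩
    refine ⟨V₁ × V₂, fun ω => (z₁ ω, z₂ ω), hz₁.join hz₂', ?_⟩
    obtain ⟨q', hq'⟩ : ∃ q' : F.Ω → ℝ, q' = Pool.Agent.H49.Ent.cond F.p A True := ⟨_, rfl⟩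
    have hq'l : IsLaw q' := by
      rw [hq']
      exact isLaw_cond F.isLaw hA
    have h0 := hq'l.nonneg
    rw [← hq'] at h1 h2 ⊢
    obtain ⟨Xn, hXn⟩ : ∃ Xn : F.Ω → ℤ, Xn = fun ω => ⌊(2 : ℝ) ^ ((P + q) * J) *
      ojet F κ 0 (G (z' (slam F ⌊v * J⌋₊ ω))) ω⌋ := ⟨_, rfl⟩
    obtain ⟨Cx, hCx⟩ : ∃ Cx : F.Ω → (Fin m → ℤ × ℤ) × (ℕ → ℕ → ℤ),
      Cx = ctx c r₀ r Kc v lam n J F V z' g := ⟨_, rfl⟩
    obtain ⟨ht, hht⟩ : ∃ ht : F.Ω → ℕ → ℤ, ht = fun ω => hts F c r₀ r z' ⌊v * J⌋₊ g n ω :=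
      ⟨_, rfl⟩
    obtain ⟨Y, hY⟩ : ∃ Y : F.Ω → U₀ × ((V₁ × V₂) × γ J F), Y = fun ω =>
      (u₀ ω, ((z₁ ω, z₂ ω), y J F ω)) := ⟨_, rfl⟩
    rw [← hXn, ← hY]
    rw [← hXn] at h2
    rw [← hCx] at h1
    have s1 := CH_le_add h0 Xn ht Y
    have s2 := CH_le_add h0 ht Cx Y
    have s3 : CH q' Cx Y ≤ δ * q / 4 * J := by
      refine le_trans (CH_mono_cond h0 fun ω ω' _ _ e => ?_) h1
      rw [hY] at e
      simp only [Prod.mk.injEq] at e ⊢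
      exact ⟨e.1, e.2.1.1, e.2.2⟩
    have s4 : CH q' ht (fun ω => (Cx ω, Y ω)) ≤ r * Real.log (4 * (Kc + 3) + 3) := by
      rw [hht]
      refine hts_few (hWa J) (fun l a b v => (hlb l a b).deg v) hq'l _ Cx
        (Un := ⌊(v + lam) * J⌋₊) (fun ω => by rw [hCx]; rfl) fun ω ω' e => ?_
      simp only [Prod.mk.injEq] at e
      obtain ⟨e1, e2⟩ := e
      rw [hY] at e2
      simp only [Prod.mk.injEq] at e2
      obtain ⟨φT, hφT⟩ := hyT J F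
      exact ⟨by rw [hφT, hφT, e2.2.2], e1⟩
    have s5 : CH q' Xn (fun ω => (ht ω, Y ω)) ≤ δ * q / 4 * J := by
      refine le_trans (CH_mono_cond h0 fun ω ω' _ _ e => ?_) h2
      simp only [Prod.mk.injEq] at e ⊢
      obtain ⟨e1, e2⟩ := e
      rw [hY] at e2
      rw [hht] at e1
      simp only [Prod.mk.injEq] at e2
      exact ⟨e1, e2.2.1.2, e2.2.2⟩
    have : 0 ≤ δ * q * J := by positivity
    linarith

end Pool.NPZ
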