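import Pool.Agent.H18.PN.Prt
import Pool.Agent.H73.D2.Tmj
import Pool.Agent.H60.ALT.Nwc

/-!
# The box hypothesis of the target `N - P` on a part of each event

`VfN.of_xi`: the velocity statement from a part of each event with the windows. `bx_part`: the chart of
`N - P` with `u` on its chart is small on the box of the frame, if `P` is a closed label of `N` at an
earlier window.
-/

set_option autoImplicit false

namespace Pool.V1E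

open Finset Real MvPolynomial
open Pool.KA Pool.KSAT Pool.PB Pool.GEN Pool.D2R Pool.D2G30 Pool.ISO Pool.CHT Pool.CHX
open Pool.PB.Trl (rt rt_mem t_rt)
open Pool.Agent.H49.Ent Pool.Agent.H32.Dense Pool.STK Pool.K2S Pool.LA91 Pool.OWN68
open Pool.UNJ (ceI)
open Pool.S6C Pool.RCD Pool.D2Con Pool.END18 Pool.VLF71
open Pool.ALT (DpI wz wz_slam floorw)

variable {m : ℕ}

/-- **`VfN` from a part of each event with the windows.** -/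
theorem VfN.of_xi {S : PCl m} {c : ℕ → Fin m} {r D Dw Dr N N₂ : ℕ} {R : ℕ → Prop}
    {C a Eb ε₀ η₀ χ mb kk : ℝ} {Pt : ℝ → ℝ → ℝ} {o : ℕ → ℝ} {lv be : ℕ → ℕ → ℝ} {κ : ℝ}
    {qf : ℕ → Fin r → ℕ} {δ K K₂ : ℝ} {Ξ Ξ' : XiN m} (hK : 0 < K) (hκ : 0 ≤ κ)
    (hpart : Bas S (fun J F B => ∀ (b : ℕ → ℕ → ℝ) (z : ℕ → ℕ → ℕ) (gc gT g₀ : ℕ → ℕ → ℕ)
      (G : ℕ → PtT F → ℕ → MvPolynomial (Option (Fin m)) ℝ)
      (H : ℕ → LnT F → ℕ → MvPolynomial (Option (Fin m)) ℝ)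
      (T : ℕ → PtT F → ℕ → MvPolynomial (Option (Fin m)) ℝ)
      (TH : ℕ → LnT F → ℕ → MvPolynomial (Option (Fin m)) ℝ)
      (Gt : ℕ → PtT F → MvPolynomial (Option (Fin m)) ℝ)
      (Ht : ℕ → LnT F → MvPolynomial (Option (Fin m)) ℝ)
      (CL : LnT F → MvPolynomial (Option (Fin m)) ℝ)
      (Cp : PtT F → MvPolynomial (Option (Fin m)) ℝ),
      WN c r D Dw Dr N N₂ R C a Eb ε₀ η₀ χ mb Pt o lv be F b κ z (qf J) B gc gT g₀ G H T TH Gt Ht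
        CL Cp → Ξ J F B g₀ G H Ht CL Cp →
      ∃ B₂ : F.Ω → Prop, Sub B₂ B ∧ Pe F.p B ≤ K * Pe F.p B₂ ∧ Ξ' J F B₂ g₀ G H Ht CL Cp))
    (h : VfN S c r D Dw Dr N N₂ R C a Eb ε₀ η₀ χ mb kk Pt o lv be (κ * K) qf δ K₂ Ξ') :
    VfN S c r D Dw Dr N N₂ R C a Eb ε₀ η₀ χ mb kk Pt o lv be κ qf δ (K * K₂) Ξ := by
  obtain ⟨k₂, hk₂, h⟩ := h
  refine ⟨k₂, hk₂, Bas.mono 0 (hpart.and (Pool.GRW.bas_part h hK)) ?_⟩
  rintro J - F B ⟨h0, h1⟩ b z gc gT g₀ G H T TH Gt Ht CL Cp W hX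
  obtain ⟨B', hB', hPB', hX'⟩ := h0 b z gc gT g₀ G H T TH Gt Ht CL Cp W hX
  have hP' : 1 / K * Pe F.p B ≤ Pe F.p B' := by
    rw [one_div_mul_eq_div, div_le_iff₀ hK, mul_comm]
    exact hPB'
  obtain ⟨B₂, hB₂, hPB₂, h2⟩ := h1 B' hB' hPB' b z gc gT g₀ G H T TH Gt Ht CL Cp
    (W.res hB' hP' (by positivity) (by rw [mul_one_div, mul_div_cancel_right₀ _ hK.ne'])) hX'
  refine ⟨B₂, fun ω hω => hB' ω (hB₂ ω hω), ?_, h2⟩
  rw [mul_assoc]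
  exact hPB'.trans (mul_le_mul_of_nonneg_left hPB₂ hK.le)

/-- **The chart of `N - P` with `u` on its chart is small on the box of the frame**, on a part. -/
theorem bx_part {S : PCl m} (hpos : ∀ (τ : ℝ) (J : ℕ) (F : Fam m J) (A : F.Ω → Prop),
      S.St τ J F A → 0 < Pe F.p A) {c : ℕ → Fin m} {r D Dw Dr N N₂ : ℕ} {R : ℕ → Prop}
    {C a Eb ε₀ η₀ χ mb : ℝ} {Pt : ℝ → ℝ → ℝ} {o : ℕ → ℝ} {lv be : ℕ → ℕ → ℝ} {κ : ℝ}
    (hκ : κ ≤ 1) {qf : ℕ → Fin r → ℕ} {Kd : ℕ} {w pN m₁ : ℝ} (hw : w ≤ o 0) (ho1 : o 0 ≤ 1)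
    (hη : 0 ≤ η₀) (hχ : 0 ≤ χ) (hDr : (max D Kd + 1) * (max D Kd + 1) ≤ Dr) (hpN0 : 0 ≤ pN)
    (h1 : m₁ + η₀ < pN) (h2 : m₁ + 2 * η₀ + χ < lv 0 (r + 1)) (hl0 : 0 ≤ lv 0 r) {Ξ : XiN m}
    (hΞ : ∀ (J : ℕ) (F : Fam m J) (B : F.Ω → Prop) (g₀ : ℕ → ℕ → ℕ)
      (G : ℕ → PtT F → ℕ → MvPolynomial (Option (Fin m)) ℝ)
      (H : ℕ → LnT F → ℕ → MvPolynomial (Option (Fin m)) ℝ)
      (Ht : ℕ → LnT F → MvPolynomial (Option (Fin m)) ℝ)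
      (CL : LnT F → MvPolynomial (Option (Fin m)) ℝ)
      (Cp : PtT F → MvPolynomial (Option (Fin m)) ℝ), Ξ J F B g₀ G H Ht CL Cp →
      ∃ (V : Type) (z : PtT F → V) (z' : LnT F → V) (Gp : V → MvPolynomial (Option (Fin m)) ℝ),
        (∀ y, (Gp y).totalDegree ≤ Kd) ∧ (∀ y, DpI ((range (r + 1)).image c) (Gp y)) ∧
        (∀ ω, B ω → z (ptr F J ω) = z' (slam F ⌊w * J⌋₊ ω)) ∧
        (∀ ω, B ω → |ojet F (c (r + 1)) 0 (Gp (z' (slam F ⌊w * J⌋₊ ω))) ω| ≤ 1 / 2 ^ ⌊pN * J⌋₊) ∧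
        ∀ ω, B ω → Cp (ptr F J ω) = Gp (z' (slam F ⌊w * J⌋₊ ω))) :
    Bas S (fun J F B => ∀ (b : ℕ → ℕ → ℝ) (z : ℕ → ℕ → ℕ) (gc gT g₀ : ℕ → ℕ → ℕ)
      (G : ℕ → PtT F → ℕ → MvPolynomial (Option (Fin m)) ℝ)
      (H : ℕ → LnT F → ℕ → MvPolynomial (Option (Fin m)) ℝ)
      (T : ℕ → PtT F → ℕ → MvPolynomial (Option (Fin m)) ℝ)
      (TH : ℕ → LnT F → ℕ → MvPolynomial (Option (Fin m)) ℝ)
      (Gt : ℕ → PtT F → MvPolynomial (Option (Fin m)) ℝ)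
      (Ht : ℕ → LnT F → MvPolynomial (Option (Fin m)) ℝ)
      (CL : LnT F → MvPolynomial (Option (Fin m)) ℝ)
      (Cp : PtT F → MvPolynomial (Option (Fin m)) ℝ),
      WN c r D Dw Dr N N₂ R C a Eb ε₀ η₀ χ mb Pt o lv be F b κ z (qf J) B gc gT g₀ G H T TH Gt Ht
        CL Cp → Ξ J F B g₀ G H Ht CL Cp →
      ∃ B₂ : F.Ω → Prop, Sub B₂ B ∧ Pe F.p B ≤ 2 * Pe F.p B₂ ∧
        ∀ ω, B₂ ω → ∀ b', NBx c (G 0 (ptr F J ω)) (g₀ 0) ⌊o 0 * J⌋₊ (F.t ω) r b' →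
          |eval b' (nW c r (G 0 (ptr F J ω)) (Cp (ptr F J ω)))| ≤ (2 : ℝ) ^ (-(m₁ * J))) := by
  classical
  obtain ⟨γ, hγ⟩ : ∃ γ : ℝ, γ = min (pN - (m₁ + η₀)) (lv 0 (r + 1) - (m₁ + 2 * η₀ + χ)) := ⟨_, rfl⟩
  have hγ0 : 0 < γ := by
    rw [hγ]
    exact lt_min (by linarith) (by linarith)
  have hγ1 : γ ≤ pN - (m₁ + η₀) := by rw [hγ]; exact min_le_left _ _
  have hγ2 : γ ≤ lv 0 (r + 1) - (m₁ + 2 * η₀ + χ) := by rw [hγ]; exact min_le_right _ _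
  obtain ⟨J₁, hJ₁⟩ := exists_nat_ge (6 / γ)
  refine Bas.mono J₁ (pos_bas hpos) ?_
  rintro J hJ F B hB b z gc gT g₀ G H T TH Gt Ht CL Cp W hX
  have hJ0 : (0 : ℝ) ≤ J := Nat.cast_nonneg J
  have mulJ : ∀ {x y : ℝ}, x ≤ y → x * J ≤ y * J := fun h => mul_le_mul_of_nonneg_right h hJ0
  have f1 : 6 ≤ γ * J := by
    have e1 : (J₁ : ℝ) ≤ J := by exact_mod_cast hJ
    have e2 := hJ₁.trans e1
    rw [div_le_iff₀ hγ0] at e2
    linarith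
  obtain ⟨V, zp, z', Gp, a1, a2, a3, a4, a5⟩ := hΞ J F B g₀ G H Ht CL Cp hX
  obtain ⟨w1, w2⟩ := floorw hw ho1 J
  have hev := W.wg.wb.ev 0 (by omega)
  have hch := hev.ball
  have hcl := hev.cls
  have hrl := hev.relb
  have hnw := W.nw
  have hc1 : Set.InjOn c (Set.Iio (r + 1)) := hnw.toNvP.hc1
  have fg := fun l (hl : l ≤ r + 1) => W.wg.wb.sds 0 (by omega) l hl
  -- the numbers
  obtain ⟨Mb, hMb⟩ : ∃ Mb : ℝ, Mb = 2 ^ (-((m₁ + η₀) * J)) := ⟨_, rfl⟩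
  have hMb0 : 0 < Mb := by
    rw [hMb]
    exact Real.rpow_pos_of_pos (by norm_num) _
  have p2 : ∀ {x : ℝ} {n : ℕ}, x ≤ n → (1 : ℝ) / 2 ^ n ≤ 2 ^ (-x) := fun {x n} h => by
    rw [one_div, ← Real.rpow_natCast, ← Real.rpow_neg (by norm_num)]
    exact Real.rpow_le_rpow_of_exponent_le (by norm_num) (by linarith)
  have q4 : ∀ {x : ℝ}, (m₁ + η₀) * J + 2 ≤ x → (2 : ℝ) ^ (-x) ≤ Mb / 4 := fun {x} h => by
    have e1 : (4 : ℝ) = 2 ^ (2 : ℝ) := by norm_num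
    rw [hMb, e1, ← Real.rpow_sub (by norm_num)]
    exact Real.rpow_le_rpow_of_exponent_le (by norm_num) (by linarith)
  have e1 : (1 : ℝ) / 2 ^ ⌊pN * J⌋₊ ≤ Mb / 4 := by
    have h3 := Nat.lt_floor_add_one (pN * J)
    have h4 := mulJ hγ1
    refine (p2 (x := (m₁ + η₀) * J + 2) ?_).trans (q4 le_rfl)
    linarith
  have e2 : (1 : ℝ) / 2 ^ g₀ 0 (r + 1) ≤ Mb / 4 := by
    have h3 := (fg (r + 1) le_rfl).1
    have h4 := mulJ hγ2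
    have h5 : 0 ≤ χ * J := mul_nonneg hχ hJ0
    have h6 : 0 ≤ η₀ * J := mul_nonneg hη hJ0
    refine (p2 (x := (m₁ + η₀) * J + 2) ?_).trans (q4 le_rfl)
    linarith
  have e3 : (2 : ℝ) ^ (⌊lv 0 r * J⌋₊ + ⌊χ * J⌋₊) / 2 ^ (sN (lv 0) J r r) * (1 / 2 ^ g₀ 0 r) ≤
      Mb / 4 := by
    have h3 := (fg r (by omega)).1
    have h4 := mulJ hγ2
    have h7 := Nat.floor_le (mul_nonneg hl0 hJ0)
    have h8 := Nat.floor_le (mul_nonneg hχ hJ0)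
    have h9 := Nat.lt_floor_add_one (lv 0 (r + 1) * J)
    have h6 : 0 ≤ η₀ * J := mul_nonneg hη hJ0
    rw [div_mul_div_comm, mul_one, ← pow_add, sN_r]
    refine le_trans (le_of_eq ?_) (q4 (x := ((⌊lv 0 (r + 1) * J⌋₊ + g₀ 0 r : ℕ) : ℝ) -
      ((⌊lv 0 r * J⌋₊ + ⌊χ * J⌋₊ : ℕ) : ℝ)) ?_)
    · rw [neg_sub, Real.rpow_sub (by norm_num), Real.rpow_natCast, Real.rpow_natCast]
    · push_cast
      linarith
  -- the own points
  have hown : ∀ ω, B ω → |eval (bt F ω) (nW c r (G 0 (ptr F J ω)) (Cp (ptr F J ω)))| ≤ Mb := by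
    intro ω hω
    have hbx : NBx c (G 0 (ptr F J ω)) (g₀ 0) ⌊o 0 * J⌋₊ (F.t ω) r (bt F ω) := by
      refine ⟨?_, fun l hl => hch.pos ω hω l (by omega)⟩
      show |F.t ω - F.t ω| ≤ _
      rw [sub_self, abs_zero]
      positivity
    rw [eval_nW]
    have k1 := mv_up (k := c r) (R := nfw r (G 0 (ptr F J ω)) (Cp (ptr F J ω))) (b := bt F ω)
      (v := eval (bt F ω) (G 0 (ptr F J ω) r)) (v' := F.x ω (c r))
      (M := 2 ^ (⌊lv 0 r * J⌋₊ + ⌊χ * J⌋₊) / 2 ^ (sN (lv 0) J r r)) (fun y hy => by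
        rw [pd_nfw]
        refine hnw.hC1 ω hω _ (box_up hc1 (fun l => hch.depG _ l) hbx (uicc_le hy ?_ ?_))
        · rw [sub_self, abs_zero]
          positivity
        · exact hch.pos ω hω r (by omega))
    have k2 : eval (up (c r) (bt F ω) (F.x ω (c r))) (nfw r (G 0 (ptr F J ω)) (Cp (ptr F J ω))) =
        eval (bt F ω) (nfw r (G 0 (ptr F J ω)) (Cp (ptr F J ω))) := by
      rw [up_eq (bt_some' ω (c r))]
    rw [k2] at k1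
    have k9 : eval (bt F ω) (nfw r (G 0 (ptr F J ω)) (Cp (ptr F J ω))) =
        eval (bt F ω) (G 0 (ptr F J ω) (r + 1)) - eval (bt F ω) (Cp (ptr F J ω)) := eval_nfw _
    have k3 : |eval (bt F ω) (G 0 (ptr F J ω) r) - F.x ω (c r)| ≤ 1 / 2 ^ g₀ 0 r := by
      rw [abs_sub_comm]
      exact hch.pos ω hω r (by omega)
    have k4 := hch.pos ω hω (r + 1) (by omega)
    have k5 := a4 ω hω
    have k6 : ojet F (c (r + 1)) 0 (Gp (z' (slam F ⌊w * J⌋₊ ω))) ω =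
        F.x ω (c (r + 1)) - eval (bt F ω) (Cp (ptr F J ω)) := by
      show jet 0 (X (some (c (r + 1))) - Gp (z' (slam F ⌊w * J⌋₊ ω))) (bt F ω) (bd F ω) = _
      rw [jet_zero, map_sub, eval_X, ← a5 ω hω]
      rfl
    rw [k6] at k5
    have k7 : (2 : ℝ) ^ (⌊lv 0 r * J⌋₊ + ⌊χ * J⌋₊) / 2 ^ (sN (lv 0) J r r) *
        |eval (bt F ω) (G 0 (ptr F J ω) r) - F.x ω (c r)| ≤ Mb / 4 :=
      (mul_le_mul_of_nonneg_left k3 (by positivity)).trans e3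
    have k8 := k1.trans k7
    rw [abs_le] at k4 k5 k8 ⊢
    constructor <;> linarith [k4.1, k4.2, k5.1, k5.2, k8.1, k8.2]
  -- the box
  have hGpC : ∀ v, DepC c (r + 1) (Gp v) := fun v b b' h4 h5 => a2 v b b' h4 fun i hi => by
    obtain ⟨l, hl, rfl⟩ := mem_image.1 hi
    exact h5 l (mem_range.1 hl)
  have hdg : ∀ (P : ℕ → MvPolynomial (Option (Fin m)) ℝ) (Q : MvPolynomial (Option (Fin m)) ℝ),
      (∀ l, (P l).totalDegree ≤ D) → Q.totalDegree ≤ Kd → (nW c r P Q).totalDegree ≤ Dr :=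
    fun P Q h3 h4 => (deg_nW (D := max D Kd) (fun l => (h3 l).trans (le_max_left _ _))
      (h4.trans (le_max_right _ _))).trans hDr
  have hdp : ∀ (P : ℕ → MvPolynomial (Option (Fin m)) ℝ) (Q : MvPolynomial (Option (Fin m)) ℝ),
      (∀ l, DepC c l (P l)) → DepC c (r + 1) Q → DepC c (r + 1) (nW c r P Q) :=
    fun P Q h3 h4 => (dep_nW hc1 h3 h4).mono (Nat.le_succ r)
  have heq : ∀ ω, B ω → Cp (ptr F J ω) = Gp (zp (ptr F J ω)) := fun ω hω => by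
    rw [a5 ω hω, a3 ω hω]
  obtain ⟨B₂, d1, d2, d3⟩ := hrl B (fun ω h => h) (by
      have := Pe_nonneg F.isLaw B
      nlinarith)
    (fun y => nW c r (G 0 y) (Gp (zp y)))
    (fun s => nW c r (H 0 s) (Gp (wz z' ⌊w * J⌋₊ ⌊o 0 * J⌋₊ s))) Mb
    (fun y => hdg _ _ (fun l => hch.degG y l) (a1 _))
    (fun s => hdg _ _ (fun l => hch.degH s l) (a1 _))
    (fun y => hdp _ _ (fun l => hch.depG y l) (hGpC _))
    (fun s => hdp _ _ (fun l => hch.depH s l) (hGpC _)) hMb0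
    (fun ω hω => by
      beta_reduce
      rw [← heq ω hω]
      exact hown ω hω)
    (fun ω hω bb _ => by
      beta_reduce
      have g1 : G 0 (ptr F J ω) (r + 1) = H 0 (slam F ⌊o 0 * J⌋₊ ω) (r + 1) :=
        hcl ω hω (r + 1) (by omega)
      have g2 : G 0 (ptr F J ω) r = H 0 (slam F ⌊o 0 * J⌋₊ ω) r := hcl ω hω r (by omega)
      have g3 : nW c r (G 0 (ptr F J ω)) (Gp (zp (ptr F J ω))) =
          nW c r (H 0 (slam F ⌊o 0 * J⌋₊ ω)) (Gp (wz z' ⌊w * J⌋₊ ⌊o 0 * J⌋₊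
            (slam F ⌊o 0 * J⌋₊ ω))) := by
        rw [wz_slam z' w1 w2, a3 ω hω]
        unfold nW nfw
        rw [g1, g2]
      rw [g3, sub_self, abs_zero]
      exact hMb0.le)
  refine ⟨B₂, d1, by linarith, fun ω hω bb hb => ?_⟩
  have hup : NBx c (G 0 (ptr F J ω)) (g₀ 0) ⌊o 0 * J⌋₊ (F.t ω) (r + 1)
      (up (c r) bb (eval bb (G 0 (ptr F J ω) r))) := box_up hc1 (fun l => hch.depG _ l) hb (by
    rw [sub_self, abs_zero]
    positivity)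
  have k1 := d3 ω hω _ hup
  beta_reduce at k1
  have k2 : eval (up (c r) bb (eval bb (G 0 (ptr F J ω) r)))
      (nW c r (G 0 (ptr F J ω)) (Gp (zp (ptr F J ω)))) =
      eval bb (nW c r (G 0 (ptr F J ω)) (Gp (zp (ptr F J ω)))) :=
    (dep_nW hc1 (fun l => hch.depG _ l) (hGpC _)) _ _ (up_none _ _ _) fun l hl => up_ne (fun h3 => by
      have := hc1 (Set.mem_Iio.2 (show l < r + 1 by omega)) (Set.mem_Iio.2 (Nat.lt_succ_self r)) h3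
      omega) _ _
  rw [k2, ← heq ω (d1 ω hω)] at k1
  refine k1.trans ?_
  rw [hMb, ← Real.rpow_natCast, ← Real.rpow_add (by norm_num)]
  refine Real.rpow_le_rpow_of_exponent_le (by norm_num) ?_
  have := Nat.floor_le (mul_nonneg hη hJ0)
  linarith

end Pool.V1E
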