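import Pool.Agent.H80.NYU.Ev
import Pool.Agent.H73.D2.Tnt

/-!
# A row label of `N`, closed at an earlier window, against the chart of the deep window

`tn_dd`: on one event, the row label `Ht` of the coordinate `c r`, closed on the window `tN`, against
the recentred chart `H` of the window `aN`, in the natural directions of that window. `nvp_nup`: the
natural directions of the frame, with the velocity of `u` on the tube of the deep window.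
-/

set_option autoImplicit false

namespace Pool.D2R

open Finset Real MvPolynomial
open Pool.Agent.H49.Ent Pool.Agent.H32.Dense Pool.STK Pool.KA Pool.KSAT Pool.K2S Pool.PB Pool.S6C
open Pool.GEN Pool.CHT Pool.CHX Pool.ISO

/-- **A row label closed at an earlier window, against the chart of a deeper window**, on one
event. -/
theorem tn_dd (D r : ℕ) (hD : 1 ≤ D) : ∃ C : ℕ, 1 ≤ C ∧ ∀ {m J : ℕ} {F : Fam m J} {c : ℕ → Fin m}
    {tN aN v p h u x d e e₁ : ℕ} {g₀ g₁ gT' : ℕ → ℕ} {κ : ℝ} {B₀ : F.Ω → Prop}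
    {G' : PtT F → ℕ → MvPolynomial (Option (Fin m)) ℝ}
    {H' : LnT F → ℕ → MvPolynomial (Option (Fin m)) ℝ}
    {T' : PtT F → ℕ → MvPolynomial (Option (Fin m)) ℝ}
    {TH' : LnT F → ℕ → MvPolynomial (Option (Fin m)) ℝ}
    {Ht : LnT F → MvPolynomial (Option (Fin m)) ℝ}
    {G : PtT F → ℕ → MvPolynomial (Option (Fin m)) ℝ}
    {H : LnT F → ℕ → MvPolynomial (Option (Fin m)) ℝ},
    Set.InjOn c (Set.Iio (r + 1)) → aN ≤ J → 0 ≤ κ →
    κ * (8 * 16 ^ r) ≤ 1 → ChOK F c (r + 1) (fun _ => D) aN aN e₁ g₁ B₀ G' H' →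
    RelvF F c r aN aN g₁ D h κ B₀ G' → ROut1 F c r tN aN v g₁ gT' p (2 ^ u) B₀ G' H' T' TH' Ht →
    (∀ l < r, gT' l ≤ g₁ l + v + x ∧ ∀ s, TH' s l = Hno (c l) (fun s => H' s l) s) →
    ChOK F c (r + 1) (fun _ => D) aN aN e g₀ B₀ G H → Clsd F (r + 1) aN B₀ G H →
    (∀ ω, B₀ ω → ∀ V : Option (Fin m) → ℝ,
      |dd (Hno (c r) (fun s => H s r) (slam F aN ω) - G (ptr F J ω) r) (bt F ω) V| ≤
        2 ^ u / 2 ^ g₀ r * nrm c (G (ptr F J ω)) g₀ aN r (bt F ω) V) →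
    (∀ l < r, g₁ l ≤ g₀ l + x) → (∀ l ≤ r, g₀ l ≤ g₁ l + x) →
    g₀ r + v ≤ p + x → (∀ l < r, d ≤ g₀ l) →
    ∃ B : F.Ω → Prop, Sub B B₀ ∧ Pe F.p B₀ ≤ 4 * 16 ^ r * Pe F.p B ∧ ∀ ω, B ω →
      ∀ V : Option (Fin m) → ℝ, V none = 0 →
      nrm c (G (ptr F J ω)) g₀ aN r (bt F ω) V ≤ 2 ^ d →
      |dd (Ht (slam F tN ω)) (bt F ω) V -
        dd (Hno (c r) (fun s => H s r) (slam F aN ω)) (bt F ω) V| ≤
        2 ^ (C * (h + x + u + 1)) * (2 ^ d / 2 ^ g₀ r) := by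
  obtain ⟨C₂, hC₂, htub⟩ := tub_u D r hD
  refine ⟨C₂ + 2, by omega, ?_⟩
  intro m J F c tN aN v p h u x d e e₁ g₀ g₁ gT' κ B₀ G' H' T' TH' Ht G H hc haJ hκ0 hκ hb hR hro hth
    hT hcl hdif h10 h01 hp hd
  obtain ⟨B, b1, b2, b3⟩ := htub (F := F) (c := c) (tN := tN) (aN := aN) (v := v) (p := p)
    (h := h) (u := u) (x := x) (d := d + x) (w₁ := aN) (w₂ := aN) (g₀ := g₁)
    (gT := g₀) (gf := g₀) (gT' := gT') (s := fun l => g₀ l - d) (κ := κ) (B₀ := B₀) hc haJ le_rfl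
    le_rfl hκ0 hκ hb hR hro hth hT hT
    (fun l hl => ⟨by have := hd l hl; have := h10 l hl; show g₁ l ≤ g₀ l - d + (d + x); omega,
      h10 l hl⟩) h01 hp
  refine ⟨B, b1, b2, fun ω hω V hV0 hV => ?_⟩
  have hω0 := b1 ω hω
  have hn := nrm_nonneg c (G (ptr F J ω)) g₀ aN r (bt F ω) V
  have h1 := b3 ω hω V hV0 (fun l hl => by
    have h2 : 2 ^ g₀ l * |V (some (c l)) - dd (G (ptr F J ω) l) (bt F ω) V| ≤ 2 ^ d := by
      refine le_trans ?_ hV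
      rw [nrm_sp _ _ _ hV0]
      exact Finset.single_le_sum (f := fun l => (2 : ℝ) ^ g₀ l *
        |V (some (c l)) - dd (G (ptr F J ω) l) (bt F ω) V|) (fun l _ => by positivity)
        (Finset.mem_range.2 hl)
    have h3 : (2 : ℝ) ^ g₀ l = 2 ^ (g₀ l - d) * 2 ^ d := by
      rw [← pow_add]
      congr 1
      have := hd l hl
      omega
    rw [le_div_iff₀ (by positivity)]
    rw [h3] at h2
    have h4 : 2 ^ (g₀ l - d) * |V (some (c l)) - dd (G (ptr F J ω) l) (bt F ω) V| * 2 ^ d ≤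
        1 * 2 ^ d := by linarith
    have h5 := le_of_mul_le_mul_right h4 (by positivity)
    linarith)
  have h2 := hdif ω hω0 V
  rw [dd_sub, hcl ω hω0 r (Nat.lt_succ_self r)] at h2
  have e1 : dd (Ht (slam F tN ω)) (bt F ω) V -
      dd (Hno (c r) (fun s => H s r) (slam F aN ω)) (bt F ω) V =
      (dd (Ht (slam F tN ω)) (bt F ω) V - dd (H (slam F aN ω) r) (bt F ω) V) -
      (dd (Hno (c r) (fun s => H s r) (slam F aN ω)) (bt F ω) V -
        dd (H (slam F aN ω) r) (bt F ω) V) := by ring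
  rw [e1]
  refine (abs_sub _ _).trans ((add_le_add h1 h2).trans ?_)
  have h3 : 2 ^ u / 2 ^ g₀ r * nrm c (G (ptr F J ω)) g₀ aN r (bt F ω) V ≤
      2 ^ u * (2 ^ d / 2 ^ g₀ r) := by
    calc 2 ^ u / 2 ^ g₀ r * nrm c (G (ptr F J ω)) g₀ aN r (bt F ω) V ≤
          2 ^ u / 2 ^ g₀ r * 2 ^ d := mul_le_mul_of_nonneg_left hV (by positivity)
      _ = _ := by ring
  have h4 : (2 : ℝ) ^ (C₂ * (h + x + u + 1)) * (2 ^ (d + x) / 2 ^ g₀ r) =
      2 ^ (C₂ * (h + x + u + 1) + x) * (2 ^ d / 2 ^ g₀ r) := by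
    rw [pow_add 2 d x, pow_add _ _ x]
    ring
  rw [h4]
  have h5 : (2 : ℝ) ^ (C₂ * (h + x + u + 1) + x) + 2 ^ u ≤ 2 ^ ((C₂ + 2) * (h + x + u + 1)) := by
    have e2 : (C₂ + 2) * (h + x + u + 1) = C₂ * (h + x + u + 1) + x + (h + x + u + 1) +
      (h + u + 1) := by ring
    have a1 : (2 : ℝ) ^ (C₂ * (h + x + u + 1) + x) ≤
        2 ^ (C₂ * (h + x + u + 1) + x + (h + x + u + 1) + (h + u)) :=
      pow_le_pow_right₀ (by norm_num) (by omega)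
    have a2 : (2 : ℝ) ^ u ≤ 2 ^ (C₂ * (h + x + u + 1) + x + (h + x + u + 1) + (h + u)) :=
      pow_le_pow_right₀ (by norm_num) (by omega)
    rw [e2, ← add_assoc _ (h + u) 1, pow_succ]
    linarith
  have h6 : (0 : ℝ) ≤ 2 ^ d / 2 ^ g₀ r := by positivity
  calc _ ≤ 2 ^ (C₂ * (h + x + u + 1) + x) * (2 ^ d / 2 ^ g₀ r) + 2 ^ u * (2 ^ d / 2 ^ g₀ r) :=
        add_le_add le_rfl h3
    _ = (2 ^ (C₂ * (h + x + u + 1) + x) + 2 ^ u) * (2 ^ d / 2 ^ g₀ r) := by ring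
    _ ≤ _ := mul_le_mul_of_nonneg_right h5 h6

end Pool.D2R

namespace Pool.V1E

open Finset Real MvPolynomial
open Pool.KA Pool.KSAT Pool.PB Pool.GEN Pool.D2R Pool.D2G30 Pool.ISO Pool.CHT Pool.CHX

/-- **The natural directions of the frame**, with the velocity of `u` on the tube of the deep
window, in the deep window. -/
theorem nvp_nup (D r : ℕ) : ∃ C : ℕ, ∀ {m J : ℕ} {F : Fam m J} {c : ℕ → Fin m}
    {n M ar MB q₀ Q x p e su : ℕ} {s : ℕ → ℕ} {qe : Fin r → ℕ} {o : ℕ → ℕ}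
    {z g gc gT g₀ : ℕ → ℕ → ℕ} {B : F.Ω → Prop}
    {G T : ℕ → PtT F → ℕ → MvPolynomial (Option (Fin m)) ℝ}
    {H TH : ℕ → LnT F → ℕ → MvPolynomial (Option (Fin m)) ℝ}
    {Ht : LnT F → MvPolynomial (Option (Fin m)) ℝ},
    NvP F c r D n M ar MB q₀ Q x p e su s qe o z g gc gT g₀ B G T H TH Ht → ∀ ω, B ω →
    ∀ V : Option (Fin m) → ℝ, V none = 0 →
    (∀ j < r, |V (some (c j)) - dd (G 0 (ptr F J ω) j) (bt F ω) V| ≤ 1 / 2 ^ s j) →
    ∀ v : ℝ, v = dd (TH 3 (slam F (o 3) ω) r) (bt F ω) V →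
    nrm c (G 3 (ptr F J ω)) (g₀ 3) (o 3) (r + 1) (bt F ω) (up (c r) V v) ≤
      2 ^ (C * (x + 1) + (o 3 - o 1)) := by
  obtain ⟨C₁, hnn⟩ := nvp_nrm D r
  refine ⟨C₁ + 1, ?_⟩
  intro m J F c n M ar MB q₀ Q x p e su s qe o z g gc gT g₀ B G T H TH Ht W ω hω V hV0 hV v hve
  obtain ⟨-, n3, -, nu⟩ := hnn W ω hω V hV0 hV
  rw [← hve] at nu
  obtain ⟨U, hU⟩ : ∃ U, U = up (c r) V v := ⟨_, rfl⟩
  rw [← hU]
  have hUn : U none = V none := by rw [hU, up_none]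
  have hUl : ∀ l < r, U (some (c l)) = V (some (c l)) := fun l hl => by
    rw [hU]
    exact up_ne (fun he => by
      have := W.hc1 (Set.mem_Iio.2 (show l < r + 1 by omega))
        (Set.mem_Iio.2 (Nat.lt_succ_self r)) he
      omega) _ _
  have hUr : U (some (c r)) = v := by rw [hU, up_self]
  have hdU : ∀ {R : MvPolynomial (Option (Fin m)) ℝ}, DepC c r R →
      dd R (bt F ω) U = dd R (bt F ω) V := fun hR => dd_congr hR _ hUn hUl
  have hN3 : nrm c (G 3 (ptr F J ω)) (g₀ 3) (o 3) (r + 1) (bt F ω) U =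
      nrm c (G 3 (ptr F J ω)) (g₀ 3) (o 3) r (bt F ω) V +
        2 ^ g₀ 3 r * |v - dd (G 3 (ptr F J ω) r) (bt F ω) V| := by
    rw [← nrm_congr (fun l => W.pG 3 _ l) hUn hUl]
    unfold nrm
    rw [Finset.sum_range_succ, add_assoc, hUr, hdU (W.pG 3 _ r)]
  rw [hN3]
  rw [le_div_iff₀ (by positivity)] at nu
  have e1 : (2 : ℝ) ^ ((C₁ + 1) * (x + 1) + (o 3 - o 1)) =
      2 ^ (C₁ * (x + 1)) * 2 ^ (x + 1) * 2 ^ (o 3 - o 1) := by
    rw [← pow_add, ← pow_add]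
    congr 1
    ring
  have h1 : (2 : ℝ) * (2 ^ (C₁ * (x + 1)) * 2 ^ (o 3 - o 1)) ≤
      2 ^ (x + 1) * (2 ^ (C₁ * (x + 1)) * 2 ^ (o 3 - o 1)) := by
    refine mul_le_mul_of_nonneg_right ?_ (by positivity)
    rw [pow_succ]
    have : (1 : ℝ) ≤ 2 ^ x := one_le_pow₀ (by norm_num)
    linarith
  rw [e1]
  linarith

end Pool.V1E
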