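import Pool.Agent.H42.D2.Cg2

/-!
# Curvature of plain labels, and displacements in the boxes

`nrm_seg`, `nru_pt`: in a chain with natural curvature the natural norms along the own line are
equivalent, and the displacement of a point of the box from the own line is small. `cur_new`: the
curvature of a plain label. `curB_snoc`: the chain with the new label. `curB_of`: the curvature from
near charts. `lip_gpn`: the Lipschitz exponents of a natural gradient.
-/

set_option autoImplicit false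

namespace Pool.D2S

open Finset Real MvPolynomial
open Pool.Agent.H49.Ent Pool.Agent.H32.Dense Pool.STK Pool.KA Pool.KSAT Pool.K2S Pool.PB Pool.S6C
open Pool.GEN Pool.CHT Pool.CHX Pool.ISO Pool.D2F Pool.D2R Pool.D2Z
open Pool.PB.Trl (rt rt_mem t_rt)

variable {m J : ℕ}

/-- **Short segments**: they stay in the box, and the norms are equivalent. -/
theorem nrm_seg {c : ℕ → Fin m} {ψ : ℕ → MvPolynomial (Option (Fin m)) ℝ} {g : ℕ → ℕ}
    {a i : ℕ} {K r ρ : ℝ} {x δ : Option (Fin m) → ℝ} (hK : 0 ≤ K)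
    (hcur : CurB c ψ g a i (x none) K) (hr : 0 ≤ r) (hδ : nrm c ψ g a i x δ ≤ ρ)
    (h1 : r + 2 * ρ ≤ 1) (hKρ : K * 4 ^ i * ρ ≤ 1)
    (hx : ∀ l < i, |x (some (c l)) - eval x (ψ l)| ≤ r / 2 ^ g l) :
    (∀ u ∈ Set.Icc (0 : ℝ) 1, ∀ l < i, |x (some (c l)) + u * δ (some (c l)) -
      eval (fun o => x o + u * δ o) (ψ l)| ≤ (r + 2 * ρ) / 2 ^ g l) ∧
    (∀ u ∈ Set.Icc (0 : ℝ) 1, ∀ V, nrm c ψ g a i (fun o => x o + u * δ o) V ≤
      2 ^ i * nrm c ψ g a i x V) := by
  have hρ0 : 0 ≤ ρ := (nrm_nonneg _ _ _ _ _ _ _).trans hδ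
  obtain ⟨Y, hY⟩ : ∃ Y : ℝ → Option (Fin m) → ℝ, Y = fun u o => x o + u * δ o := ⟨_, rfl⟩
  have hYu : ∀ u, (fun o => x o + u * δ o) = Y u := fun u => by rw [hY]
  have hYs : ∀ u k, Y u (some k) = x (some k) + u * δ (some k) := fun u k => by rw [hY]
  have hmon : ∀ l ≤ i, nrm c ψ g a l x δ ≤ ρ := by
    intro l hl
    refine le_trans ?_ hδ
    unfold nrm
    refine add_le_add le_rfl (Finset.sum_le_sum_of_subset_of_nonneg
      (Finset.range_mono hl) fun j _ _ => by positivity)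
  have main : ∀ l ≤ i,
      (∀ u ∈ Set.Icc (0 : ℝ) 1, ∀ j < l, |Y u (some (c j)) - eval (Y u) (ψ j)| ≤
        (r + 2 * ρ) / 2 ^ g j) ∧
      (∀ u ∈ Set.Icc (0 : ℝ) 1, ∀ V, nrm c ψ g a l (Y u) V ≤ 2 ^ l * nrm c ψ g a l x V) := by
    intro l
    induction l with
    | zero =>
      intro _
      refine ⟨fun u _ j hj => absurd hj (Nat.not_lt_zero _), fun u _ V => ?_⟩
      unfold nrm
      rw [Finset.sum_range_zero, Finset.sum_range_zero, pow_zero, one_mul]
    | succ l ih =>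
      intro hl
      obtain ⟨i1, i2⟩ := ih (by omega)
      have hcl : l < i := by omega
      have hδl := hmon l (by omega)
      have hδ0 := nrm_nonneg c ψ g a l x δ
      obtain ⟨κ, hκ⟩ : ∃ κ : ℝ, κ = 1 / 2 ^ g l := ⟨_, rfl⟩
      have hκ0 : 0 < κ := by rw [hκ]; positivity
      have hbox : ∀ u ∈ Set.Icc (0 : ℝ) 1, NBx c ψ g a (x none) l (Y u) := by
        intro u hu
        refine ⟨?_, fun j hj => (i1 u hu j hj).trans (div_le_div_of_nonneg_right h1
          (by positivity))⟩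
        have e1 : Y u none - x none = u * δ none := by rw [hY]; ring
        rw [e1, abs_mul, abs_of_nonneg hu.1, le_div_iff₀ (by positivity)]
        have h2 : 2 ^ a * |δ none| ≤ ρ := by
          refine le_trans ?_ (hmon 0 (Nat.zero_le _))
          unfold nrm
          rw [Finset.sum_range_zero, add_zero]
        have h3 := abs_nonneg (δ none)
        calc u * |δ none| * 2 ^ a = u * (2 ^ a * |δ none|) := by ring
          _ ≤ 1 * (2 ^ a * |δ none|) := mul_le_mul_of_nonneg_right hu.2 (by positivity)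
          _ ≤ 1 := by linarith
      have h44 : (2 : ℝ) ^ l * 2 ^ l ≤ 4 ^ i := by
        rw [← mul_pow]
        norm_num
        exact pow_le_pow_right₀ (by norm_num) (by omega)
      have hKl : K * (2 ^ l * 2 ^ l) * ρ ≤ 1 := by
        refine le_trans ?_ hKρ
        exact mul_le_mul_of_nonneg_right (mul_le_mul_of_nonneg_left h44 hK) hρ0
      have hc1 : ∀ u ∈ Set.Icc (0 : ℝ) 1, ∀ V, |hs (ψ l) (Y u) δ V| ≤
          κ * nrm c ψ g a l x V := by
        intro u hu V
        have hV0 := nrm_nonneg c ψ g a l x V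
        refine (hcur l hcl (Y u) (hbox u hu) δ V).trans ?_
        have h2 : nrm c ψ g a l (Y u) δ ≤ 2 ^ l * ρ :=
          (i2 u hu δ).trans (mul_le_mul_of_nonneg_left hδl (by positivity))
        rw [div_eq_mul_one_div, ← hκ]
        calc K * κ * nrm c ψ g a l (Y u) δ * nrm c ψ g a l (Y u) V ≤
              K * κ * (2 ^ l * ρ) * (2 ^ l * nrm c ψ g a l x V) :=
              mul_le_mul (mul_le_mul_of_nonneg_left h2 (by positivity)) (i2 u hu V)
                (nrm_nonneg _ _ _ _ _ _ _) (by positivity)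
          _ = κ * nrm c ψ g a l x V * (K * (2 ^ l * 2 ^ l) * ρ) := by ring
          _ ≤ κ * nrm c ψ g a l x V * 1 := mul_le_mul_of_nonneg_left hKl (by positivity)
          _ = _ := mul_one _
      have hc3 := ev_seg2 (ψ l) x δ (M := κ * ρ) (fun u hu => by
        rw [hYu]
        exact (hc1 u hu δ).trans (mul_le_mul_of_nonneg_left hδl hκ0.le))
      have hc4 : ∀ u ∈ Set.Icc (0 : ℝ) 1, ∀ V, |dd (ψ l) (Y u) V - dd (ψ l) x V| ≤
          κ * nrm c ψ g a l x V := by
        intro u hu V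
        have h2 := dd_seg (ψ l) x δ V (M := κ * nrm c ψ g a l x V) (fun u hu => by
          rw [hYu]
          exact hc1 u hu V) u hu
        rwa [hYu] at h2
      refine ⟨fun u hu j hj => ?_, fun u hu V => ?_⟩
      · rcases Nat.lt_succ_iff_lt_or_eq.mp hj with hjl | hjl
        · exact i1 u hu j hjl
        · subst hjl
          have h2 := hc3 u hu
          rw [hYu] at h2
          have h3 : |δ (some (c j)) - dd (ψ j) x δ| ≤ κ * ρ := by
            have h4 := hmon (j + 1) hl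
            rw [nrm_succ] at h4
            have h5 : 2 ^ g j * |δ (some (c j)) - dd (ψ j) x δ| ≤ ρ := by linarith
            rw [hκ, one_div, ← div_eq_inv_mul, le_div_iff₀ (by positivity), mul_comm]
            exact h5
          have h4 : |x (some (c j)) - eval x (ψ j)| ≤ κ * r := by
            refine (hx j hcl).trans (le_of_eq ?_)
            rw [hκ]
            ring
          have e2 : Y u (some (c j)) - eval (Y u) (ψ j) = (x (some (c j)) - eval x (ψ j)) +
              u * (δ (some (c j)) - dd (ψ j) x δ) -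
              (eval (Y u) (ψ j) - eval x (ψ j) - u * dd (ψ j) x δ) := by
            rw [hYs]
            ring
          have h5 : |u * (δ (some (c j)) - dd (ψ j) x δ)| ≤ κ * ρ := by
            rw [abs_mul, abs_of_nonneg hu.1]
            exact (mul_le_of_le_one_left (abs_nonneg _) hu.2).trans h3
          rw [e2]
          refine (abs_sub _ _).trans ((add_le_add ((abs_add_le _ _).trans (add_le_add h4 h5))
            h2).trans (le_of_eq ?_))
          rw [hκ]
          ring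
      · rw [nrm_succ, nrm_succ]
        have h2 := hc4 u hu V
        have h3 := i2 u hu V
        have hV0 := nrm_nonneg c ψ g a l x V
        have h4 : 2 ^ g l * |V (some (c l)) - dd (ψ l) (Y u) V| ≤
            2 ^ g l * |V (some (c l)) - dd (ψ l) x V| + nrm c ψ g a l x V := by
          have e1 : V (some (c l)) - dd (ψ l) (Y u) V = (V (some (c l)) - dd (ψ l) x V) -
              (dd (ψ l) (Y u) V - dd (ψ l) x V) := by ring
          rw [e1]
          have h5 : (2 : ℝ) ^ g l * (κ * nrm c ψ g a l x V) = nrm c ψ g a l x V := by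
            rw [hκ]
            field_simp
          calc 2 ^ g l * |(V (some (c l)) - dd (ψ l) x V) -
                (dd (ψ l) (Y u) V - dd (ψ l) x V)| ≤ 2 ^ g l *
                (|V (some (c l)) - dd (ψ l) x V| + κ * nrm c ψ g a l x V) := by
                refine mul_le_mul_of_nonneg_left ((abs_sub _ _).trans ?_) (by positivity)
                linarith
            _ = _ := by rw [mul_add, h5]
        have h5 : (0 : ℝ) ≤ 2 ^ g l * |V (some (c l)) - dd (ψ l) x V| := by positivity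
        have h6 : (1 : ℝ) ≤ 2 ^ l := one_le_pow₀ (by norm_num)
        have h7 : nrm c ψ g a l x V ≤ 2 ^ l * nrm c ψ g a l x V :=
          le_mul_of_one_le_left hV0 h6
        have h8 : 2 ^ g l * |V (some (c l)) - dd (ψ l) x V| ≤
            2 * 2 ^ l * (2 ^ g l * |V (some (c l)) - dd (ψ l) x V|) :=
          le_mul_of_one_le_left h5 (by linarith)
        rw [pow_succ]
        linarith
  obtain ⟨m1, m2⟩ := main i le_rfl
  refine ⟨fun u hu l hl => ?_, fun u hu V => by rw [hYu]; exact m2 u hu V⟩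
  rw [hYu, ← hYs]
  exact m1 u hu l hl

/-- The norms are monotone in the radius. -/
theorem nrm_rad {c : ℕ → Fin m} {ψ : ℕ → MvPolynomial (Option (Fin m)) ℝ} {g g' : ℕ → ℕ}
    {a a' n i : ℕ} {x V : Option (Fin m) → ℝ} (ha : a + n ≤ a') (hg : ∀ l < i, g l + n ≤ g' l) :
    nrm c ψ g a i x V ≤ 1 / 2 ^ n * nrm c ψ g' a' i x V := by
  unfold nrm
  rw [mul_add, Finset.mul_sum]
  have key : ∀ b b' : ℕ, ∀ X : ℝ, 0 ≤ X → b + n ≤ b' →
      (2 : ℝ) ^ b * X ≤ 1 / 2 ^ n * (2 ^ b' * X) := by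
    intro b b' X hX hb
    rw [← mul_assoc]
    refine mul_le_mul_of_nonneg_right ?_ hX
    rw [one_div, ← div_eq_inv_mul, le_div_iff₀ (by positivity), ← pow_add]
    exact pow_le_pow_right₀ (by norm_num) hb
  refine add_le_add (key _ _ _ (abs_nonneg _) ha) (Finset.sum_le_sum fun l hl => ?_)
  exact key _ _ _ (abs_nonneg _) (hg l (Finset.mem_range.1 hl))

theorem CurB.mono {c : ℕ → Fin m} {ψ : ℕ → MvPolynomial (Option (Fin m)) ℝ} {g g' : ℕ → ℕ}
    {a a' n i : ℕ} {t t' K K' : ℝ} (h : CurB c ψ g a i t K) (hK : 0 ≤ K)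
    (ht : |t' - t| + 1 / 2 ^ a' ≤ 1 / 2 ^ a) (hg : ∀ l < i, g l + n ≤ g' l)
    (hg' : ∀ l < i, g' l ≤ g l + 2 * n) (ha : a + n ≤ a') (hKK : K ≤ K') :
    CurB c ψ g' a' i t' K' := by
  intro l hl y hy V V'
  have hy' : NBx c ψ g a t l y := by
    refine ⟨?_, fun j hj => (hy.2 j hj).trans (inv_mono (by
      have := hg j (by omega)
      omega))⟩
    have e1 : y none - t = (y none - t') + (t' - t) := by ring
    rw [e1]
    refine (abs_add_le _ _).trans ?_
    have := hy.1
    linarith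
  have h1 := nrm_rad (c := c) (ψ := ψ) (g := g) (g' := g') (i := l) (x := y) (V := V) ha
    fun j hj => hg j (by omega)
  have h2 := nrm_rad (c := c) (ψ := ψ) (g := g) (g' := g') (i := l) (x := y) (V := V') ha
    fun j hj => hg j (by omega)
  have n1 := nrm_nonneg c ψ g' a' l y V
  have n2 := nrm_nonneg c ψ g' a' l y V'
  have n3 := nrm_nonneg c ψ g a l y V'
  refine (h l hl y hy' V V').trans ?_
  calc K / 2 ^ g l * nrm c ψ g a l y V * nrm c ψ g a l y V' ≤
        K / 2 ^ g l * (1 / 2 ^ n * nrm c ψ g' a' l y V) *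
          (1 / 2 ^ n * nrm c ψ g' a' l y V') :=
        mul_le_mul (mul_le_mul_of_nonneg_left h1 (by positivity)) h2 n3 (by positivity)
    _ = K / (2 ^ g l * 2 ^ n * 2 ^ n) * (nrm c ψ g' a' l y V * nrm c ψ g' a' l y V') := by
      field_simp
    _ ≤ K' / 2 ^ g' l * (nrm c ψ g' a' l y V * nrm c ψ g' a' l y V') := by
      refine mul_le_mul_of_nonneg_right ?_ (mul_nonneg n1 n2)
      refine div_le_div₀ (hK.trans hKK) hKK (by positivity) ?_
      rw [← pow_add, ← pow_add]
      exact pow_le_pow_right₀ (by norm_num) (by have := hg' l hl; omega)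
    _ = _ := by ring

/-- **The displacement of a point of the box from the own line**, in the norms along the line. -/
theorem nru_pt {c : ℕ → Fin m} {ψ : ℕ → MvPolynomial (Option (Fin m)) ℝ} {g : ℕ → ℕ}
    {a i n : ℕ} {K L : ℝ} {x b W : Option (Fin m) → ℝ} (hK : 0 ≤ K)
    (hcur : CurB c ψ g a i (x none) K) (hn : 2 ≤ n)
    (hn1 : K * 4 ^ i * (4 * i + 4) ^ 2 ≤ 2 ^ n) (hn2 : K * 4 ^ i * L ≤ 2 ^ n)
    (hn3 : 1 + 2 * L ≤ 2 ^ n)
    (hx : ∀ l < i, |x (some (c l)) - eval x (ψ l)| ≤ 1 / 2 ^ (g l + n))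
    (hb0 : |b none - x none| ≤ 1 / 2 ^ (a + n))
    (hb : ∀ l < i, |b (some (c l)) - eval b (ψ l)| ≤ 1 / 2 ^ (g l + n))
    (hW : nrm c ψ g a i x W ≤ L * 2 ^ a) {s : ℝ} (hs : |s| ≤ 1 / 2 ^ (a + n)) :
    nrm c ψ g a i (fun o => x o + s * W o) (fun o => b o - x o - (b none - x none) * W o) ≤
      2 ^ i * ((4 * i + 4 + L) / 2 ^ n) := by
  have h1 := nrm_off hK hcur hn hn1 hx hb0 hb hW
  have e2n : ∀ z : ℕ, (1 : ℝ) / 2 ^ (z + n) = 1 / 2 ^ n / 2 ^ z := fun z => by
    rw [pow_add]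
    field_simp
  have hδ : nrm c ψ g a i x (s • W) ≤ L / 2 ^ n := by
    rw [nrm_smul]
    have h2 := nrm_nonneg c ψ g a i x W
    refine (mul_le_mul hs hW h2 (by positivity)).trans (le_of_eq ?_)
    rw [pow_add]
    field_simp
  have h2 := (nrm_seg (r := 1 / 2 ^ n) (ρ := L / 2 ^ n) hK hcur (by positivity) hδ (by
      have e1 : (1 : ℝ) / 2 ^ n + 2 * (L / 2 ^ n) = (1 + 2 * L) / 2 ^ n := by ring
      rw [e1, div_le_one (by positivity)]
      exact hn3) (by
      rw [mul_div_assoc', div_le_one (by positivity)]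
      exact hn2) (fun l hl => (hx l hl).trans (le_of_eq (e2n _)))).2 1 ⟨zero_le_one, le_rfl⟩
    (fun o => b o - x o - (b none - x none) * W o)
  have e3 : (fun o => x o + 1 * (s • W) o) = fun o => x o + s * W o := by
    funext o
    rw [Pi.smul_apply, smul_eq_mul, one_mul]
  rw [e3] at h2
  exact h2.trans (mul_le_mul_of_nonneg_left h1 (by positivity))

/-! ### The second derivative of a plain label -/

theorem hs_padd (P Q : MvPolynomial (Option (Fin m)) ℝ) (x W V : Option (Fin m) → ℝ) :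
    hs (P + Q) x W V = hs P x W V + hs Q x W V := by
  unfold hs
  rw [← Finset.sum_add_distrib]
  refine Finset.sum_congr rfl fun o _ => ?_
  rw [map_add, dd_padd]
  ring

theorem hs_sum {ι : Type} (S : Finset ι) (P : ι → MvPolynomial (Option (Fin m)) ℝ)
    (x W V : Option (Fin m) → ℝ) : hs (∑ j ∈ S, P j) x W V = ∑ j ∈ S, hs (P j) x W V := by
  classical
  induction S using Finset.induction_on with
  | empty =>
    rw [Finset.sum_empty, Finset.sum_empty]
    unfold hs dd
    simp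
  | insert a S ha ih => rw [Finset.sum_insert ha, Finset.sum_insert ha, hs_padd, ih]

theorem hs_mul (P Q : MvPolynomial (Option (Fin m)) ℝ) (x W V : Option (Fin m) → ℝ) :
    hs (P * Q) x W V = eval x P * hs Q x W V + eval x Q * hs P x W V +
      (dd P x W * dd Q x V + dd P x V * dd Q x W) := by
  have h1 : ∀ o, dd (pderiv o (P * Q)) x W * V o = eval x P * (dd (pderiv o Q) x W * V o) +
      eval x Q * (dd (pderiv o P) x W * V o) + (dd P x W * (eval x (pderiv o Q) * V o) +
      dd Q x W * (eval x (pderiv o P) * V o)) := by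
    intro o
    rw [pderiv_mul, dd_padd, dd_mul, dd_mul]
    ring
  unfold hs
  rw [Finset.sum_congr rfl fun o _ => h1 o, Finset.sum_add_distrib, Finset.sum_add_distrib,
    Finset.sum_add_distrib, ← Finset.mul_sum, ← Finset.mul_sum, ← Finset.mul_sum,
    ← Finset.mul_sum]
  have h2 : ∑ o, eval x (pderiv o Q) * V o = dd Q x V := rfl
  have h3 : ∑ o, eval x (pderiv o P) * V o = dd P x V := rfl
  rw [h2, h3]
  ring

theorem pd_rtq {ζ : Type} (w : ℕ) (s : ((Fin m → ℝ) × (Fin m → ℝ)) × ζ × ℕ)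
    (o : Option (Fin m)) : pderiv o (rtq w s) = C (if o = none then (2 : ℝ) ^ w else 0) := by
  classical
  unfold rtq
  rw [map_sub, pderiv_C, sub_zero, pderiv_C_mul]
  cases o with
  | none => rw [pderiv_X_self, mul_one, if_pos rfl]
  | some k =>
    rw [pderiv_X_of_ne (by simp : (none : Option (Fin m)) ≠ some k), mul_zero,
      if_neg (by simp), C_0]

theorem pd_aev {ζ : Type} (w : ℕ) (s : ((Fin m → ℝ) × (Fin m → ℝ)) × ζ × ℕ)
    (q : Polynomial ℝ) (o : Option (Fin m)) : pderiv o (Polynomial.aeval (rtq w s) q) =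
      Polynomial.aeval (rtq w s) (Polynomial.derivative q) *
        C (if o = none then (2 : ℝ) ^ w else 0) := by
  rw [Derivation.map_aeval, smul_eq_mul, pd_rtq]

theorem dd_aev {ζ : Type} (w : ℕ) (s : ((Fin m → ℝ) × (Fin m → ℝ)) × ζ × ℕ)
    (q : Polynomial ℝ) (x V : Option (Fin m) → ℝ) : dd (Polynomial.aeval (rtq w s) q) x V =
      (Polynomial.derivative q).eval (2 ^ w * x none - (s.2.2 : ℝ)) * (2 ^ w * V none) := by
  unfold dd
  rw [Fintype.sum_option]
  have h1 : ∀ k : Fin m, eval x (pderiv (some k) (Polynomial.aeval (rtq w s) q)) *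
      V (some k) = 0 := by
    intro k
    rw [pd_aev, if_neg (by simp), map_mul, eval_C, mul_zero, zero_mul]
  rw [Finset.sum_eq_zero fun k _ => h1 k, add_zero, pd_aev, if_pos rfl, map_mul, eval_C,
    eval_aev, eval_rtq]
  ring

theorem hs_aev {ζ : Type} (w : ℕ) (s : ((Fin m → ℝ) × (Fin m → ℝ)) × ζ × ℕ)
    (q : Polynomial ℝ) (x W V : Option (Fin m) → ℝ) :
    hs (Polynomial.aeval (rtq w s) q) x W V =
      (Polynomial.derivative (Polynomial.derivative q)).eval
        (2 ^ w * x none - (s.2.2 : ℝ)) * ((2 ^ w * W none) * (2 ^ w * V none)) := by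
  unfold hs
  rw [Fintype.sum_option]
  have hC : ∀ (a : ℝ) (U : Option (Fin m) → ℝ), dd (C a : MvPolynomial (Option (Fin m)) ℝ) x U =
      0 := by
    intro a U
    unfold dd
    simp
  have h1 : ∀ k : Fin m, dd (pderiv (some k) (Polynomial.aeval (rtq w s) q)) x W *
      V (some k) = 0 := by
    intro k
    rw [pd_aev, if_neg (by simp), C_0, mul_zero, ← C_0, hC, zero_mul]
  rw [Finset.sum_eq_zero fun k _ => h1 k, add_zero, pd_aev, if_pos rfl, dd_mul, hC, mul_zero,
    zero_add, eval_C, dd_aev]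
  ring

theorem dd_lnP {ζ : Type} (c : ℕ → Fin m) (s : ((Fin m → ℝ) × (Fin m → ℝ)) × ζ × ℕ)
    (l : ℕ) (x V : Option (Fin m) → ℝ) : dd (lnP c s l) x V = s.1.2 (c l) * V none := by
  classical
  unfold dd lnP
  rw [Fintype.sum_option]
  have h1 : ∀ k : Fin m, eval x (pderiv (some k) (C (s.1.1 (c l)) + C (s.1.2 (c l)) * X none)) *
      V (some k) = 0 := by
    intro k
    rw [map_add, pderiv_C, zero_add, pderiv_C_mul,
      pderiv_X_of_ne (by simp : (none : Option (Fin m)) ≠ some k), mul_zero, map_zero, zero_mul]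
  rw [Finset.sum_eq_zero fun k _ => h1 k, add_zero, map_add, pderiv_C, zero_add, pderiv_C_mul,
    pderiv_X_self, mul_one, eval_C]

theorem hs_lnP {ζ : Type} (c : ℕ → Fin m) (s : ((Fin m → ℝ) × (Fin m → ℝ)) × ζ × ℕ)
    (l : ℕ) (x W V : Option (Fin m) → ℝ) : hs (lnP c s l) x W V = 0 := by
  classical
  unfold hs
  refine Finset.sum_eq_zero fun o _ => ?_
  have h1 : ∃ a : ℝ, pderiv o (lnP c s l) = C a := by
    unfold lnP
    rw [map_add, pderiv_C, zero_add, pderiv_C_mul]
    cases o with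
    | none => exact ⟨s.1.2 (c l), by rw [pderiv_X_self, mul_one]⟩
    | some k =>
      refine ⟨0, ?_⟩
      rw [pderiv_X_of_ne (by simp : (none : Option (Fin m)) ≠ some k), mul_zero, C_0]
  obtain ⟨a, ha⟩ := h1
  rw [ha]
  have h2 : dd (C a : MvPolynomial (Option (Fin m)) ℝ) x W = 0 := by
    unfold dd
    simp
  rw [h2, zero_mul]

theorem hs_X (j : Fin m) (x W V : Option (Fin m) → ℝ) :
    hs (X (some j) : MvPolynomial (Option (Fin m)) ℝ) x W V = 0 := by
  classical
  unfold hs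
  refine Finset.sum_eq_zero fun o _ => ?_
  have h2 : dd (pderiv o (X (some j)) : MvPolynomial (Option (Fin m)) ℝ) x W = 0 := by
    by_cases h : o = some j
    · rw [h, pderiv_X_self]
      unfold dd
      simp
    · rw [pderiv_X_of_ne (Ne.symm h)]
      unfold dd
      simp
  rw [h2, zero_mul]

/-- **The second derivative of a plain label.** -/
theorem hs_plain {ζ : Type} (c : ℕ → Fin m) (w i : ℕ)
    (lam : ((Fin m → ℝ) × (Fin m → ℝ)) × ζ × ℕ → ℕ → Polynomial ℝ)
    (s : ((Fin m → ℝ) × (Fin m → ℝ)) × ζ × ℕ) (y W V : Option (Fin m) → ℝ) {τ : ℝ}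
    (hτ : τ = 2 ^ w * y none - (s.2.2 : ℝ)) :
    hs (nuH c w i (lnP c) lam s) y W V =
      2 ^ w * W none * (∑ l ∈ range i, (Polynomial.derivative (lam s l)).eval τ *
        (V (some (c l)) - s.1.2 (c l) * V none)) +
      2 ^ w * V none * (∑ l ∈ range i, (Polynomial.derivative (lam s l)).eval τ *
        (W (some (c l)) - s.1.2 (c l) * W none)) +
      (2 ^ w * W none) * (2 ^ w * V none) * ∑ l ∈ range i,
        (Polynomial.derivative (Polynomial.derivative (lam s l))).eval τ *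
        (y (some (c l)) - (s.1.1 (c l) + s.1.2 (c l) * y none)) := by
  have h0 : ∀ (P Q : MvPolynomial (Option (Fin m)) ℝ), hs (P - Q) y W V =
      hs P y W V - hs Q y W V := fun P Q => hs_sub P Q y W V
  unfold nuH
  rw [hs_padd, hs_sum, hs_lnP, zero_add, Finset.mul_sum, Finset.mul_sum, Finset.mul_sum,
    ← Finset.sum_add_distrib, ← Finset.sum_add_distrib]
  refine Finset.sum_congr rfl fun l _ => ?_
  rw [hs_mul, h0, hs_X, hs_lnP, sub_zero, mul_zero, zero_add, hs_aev, dd_aev, dd_aev, dd_sub,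
    dd_sub, dd_X, dd_X, dd_lnP, dd_lnP, map_sub, eval_X, eval_lnP, ← hτ]
  ring

/-- The derivative at the end of an interval. -/
theorem der_end (D : ℕ) : ∃ C : ℝ, 1 ≤ C ∧ ∀ (q : Polynomial ℝ) (x ρ S : ℝ), q.natDegree ≤ D →
    0 < ρ → (∀ u, x ≤ u → u ≤ x + ρ → |q.eval u| ≤ S) →
    |(Polynomial.derivative q).eval x| ≤ C * S / ρ := by
  obtain ⟨C, hC, h⟩ := Pool.Agent.H40.FR.unit_coef D
  refine ⟨C, hC, ?_⟩
  intro q x ρ S hq hρ hS
  obtain ⟨r, hr⟩ : ∃ r : Polynomial ℝ,
      r = q.comp (Polynomial.C x + Polynomial.C ρ * Polynomial.X) := ⟨_, rfl⟩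
  have hlin : (Polynomial.C x + Polynomial.C ρ * Polynomial.X : Polynomial ℝ).natDegree ≤ 1 := by
    refine (Polynomial.natDegree_add_le _ _).trans (max_le ?_ ?_)
    · rw [Polynomial.natDegree_C]
      exact Nat.zero_le _
    · exact (Polynomial.natDegree_C_mul_le _ _).trans Polynomial.natDegree_X_le
  have h1 : r.natDegree ≤ D := by
    rw [hr]
    refine Polynomial.natDegree_comp_le.trans ?_
    calc q.natDegree * (Polynomial.C x + Polynomial.C ρ * Polynomial.X : Polynomial ℝ).natDegree ≤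
          D * 1 := Nat.mul_le_mul hq hlin
      _ = D := Nat.mul_one D
  have h2 := h r S h1 (fun t ht => by
    rw [hr, Polynomial.eval_comp]
    refine hS _ ?_ ?_
    · simp only [Polynomial.eval_add, Polynomial.eval_mul, Polynomial.eval_C, Polynomial.eval_X]
      have := mul_nonneg hρ.le ht.1
      linarith
    · simp only [Polynomial.eval_add, Polynomial.eval_mul, Polynomial.eval_C, Polynomial.eval_X]
      have := mul_le_mul_of_nonneg_left ht.2 hρ.le
      linarith) 1
  have h3 : r.coeff 1 = ρ * (Polynomial.derivative q).eval x := by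
    have h4 : (Polynomial.derivative r).coeff 0 = r.coeff 1 := by
      rw [Polynomial.coeff_derivative]
      simp
    rw [← h4, Polynomial.coeff_zero_eq_eval_zero, hr, Polynomial.derivative_comp,
      Polynomial.eval_mul, Polynomial.eval_comp]
    simp
  rw [h3, abs_mul, abs_of_pos hρ] at h2
  rw [le_div_iff₀ hρ, mul_comm]
  exact h2

/-- **The curvature of a plain label**: it is natural on the boxes if the derivative of the gradient
is natural along the own line. -/
theorem cur_new (D₁ i : ℕ) : ∃ C : ℝ, 1 ≤ C ∧ ∀ {m J : ℕ} {F : Fam m J} {c : ℕ → Fin m}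
    {w a n n₂ : ℕ} {g : ℕ → ℕ} {K L E : ℝ} {ψ : ℕ → MvPolynomial (Option (Fin m)) ℝ}
    {lam : LnT F → ℕ → Polynomial ℝ} {ω : F.Ω}, w ≤ J → w ≤ a → 0 ≤ K → 0 ≤ L → 0 ≤ E →
    (∀ l, (lam (slam F w ω) l).natDegree ≤ D₁) → CurB c ψ g a i (F.t ω) K → 2 ≤ n₂ →
    K * 4 ^ i * (4 * i + 4) ^ 2 ≤ 2 ^ n₂ → K * 4 ^ i * L ≤ 2 ^ n → (1 + 2 * L) * 2 ^ n₂ ≤ 2 ^ n →
    (∀ l < i, |F.x ω (c l) - eval (bt F ω) (ψ l)| ≤ 1 / 2 ^ (g l + n)) →
    nrm c ψ g a i (bt F ω) (bd F ω) ≤ L * 2 ^ a →
    (∀ V : Option (Fin m) → ℝ, V none = 0 → ∀ τ : ℝ, |τ| ≤ 2 →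
      |∑ l ∈ range i, (Polynomial.derivative (lam (slam F w ω) l)).eval τ * V (some (c l))| ≤
        E * nrm c ψ g a i (ptw F w ω τ) V) →
    ∀ y, NBx c ψ (fun l => g l + n + 1) (a + n + 1) (F.t ω) i y → ∀ V V',
      |hs (nuH c w i (lnP c) lam (slam F w ω)) y V V'| ≤
        C * (1 + L) * (E * 2 ^ w / 2 ^ a) * nrm c ψ g a i y V * nrm c ψ g a i y V' := by
  obtain ⟨Cd, hCd, hder⟩ := der_end D₁
  have hi0 : (0 : ℝ) ≤ i := Nat.cast_nonneg i
  obtain ⟨C, hC⟩ : ∃ C : ℝ, C = 8 * (2 ^ i * 2 ^ i) + 4 * Cd * (2 ^ i * (4 * i + 4)) := ⟨_, rfl⟩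
  have h2i : (1 : ℝ) ≤ 2 ^ i := one_le_pow₀ (by norm_num)
  refine ⟨C, ?_, ?_⟩
  · rw [hC]
    have h1 : (1 : ℝ) ≤ 2 ^ i * 2 ^ i := one_le_mul_of_one_le_of_one_le h2i h2i
    have h2 : 0 ≤ 4 * Cd * (2 ^ i * (4 * (i : ℝ) + 4)) := by positivity
    linarith
  intro m J F c w a n n₂ g K L E ψ lam ω hw hwa hK hL hE hlam hcur hn₂ hK1 hK2 hLn hx hW hd y hy
    V V'
  have hp2 : (0 : ℝ) < 2 ^ n₂ := by positivity
  have hLn' : 1 + 2 * L ≤ 2 ^ n := by
    have h1 : (1 : ℝ) ≤ 2 ^ n₂ := one_le_pow₀ (by norm_num)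
    have h2 : (1 + 2 * L) * 1 ≤ (1 + 2 * L) * 2 ^ n₂ :=
      mul_le_mul_of_nonneg_left h1 (by linarith)
    linarith
  have hnn : n₂ ≤ n := by
    have h1 : (2 : ℝ) ^ n₂ ≤ 2 ^ n := by
      have h2 : 1 * (2 : ℝ) ^ n₂ ≤ (1 + 2 * L) * 2 ^ n₂ :=
        mul_le_mul_of_nonneg_right (by linarith) hp2.le
      linarith
    exact (pow_le_pow_iff_right₀ (by norm_num : (1 : ℝ) < 2)).1 h1
  have hK1' : K * 4 ^ i * (4 * i + 4) ^ 2 ≤ 2 ^ n :=
    hK1.trans (pow_le_pow_right₀ (by norm_num) hnn)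
  have hxn : bt F ω none = F.t ω := rfl
  have hx' : ∀ l < i, |bt F ω (some (c l)) - eval (bt F ω) (ψ l)| ≤ 1 / 2 ^ (g l + n) := hx
  have hcx : CurB c ψ g a i (bt F ω none) K := hcur
  -- the time
  obtain ⟨τ, hτ⟩ : ∃ τ : ℝ, τ = 2 ^ w * y none - ((slam F w ω).2.2 : ℝ) := ⟨_, rfl⟩
  have hτx : τ - rt F w ω = 2 ^ w * (y none - F.t ω) := by
    rw [hτ, ← rt_eq F hw ω]
    ring
  have hy0 : |y none - F.t ω| ≤ 1 / 2 ^ (a + n + 1) := hy.1
  have hxr := rt_mem F w ω
  -- points of the line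
  have hpt : ∀ u : ℝ, τ ≤ u → u ≤ τ + 2 ^ w / 2 ^ (a + n + 1) →
      |(u - rt F w ω) / 2 ^ w| ≤ 1 / 2 ^ (a + n) ∧ |u| ≤ 2 := by
    intro u h1 h2
    have h3 : |u - rt F w ω| ≤ 2 ^ w / 2 ^ (a + n) := by
      have e1 : u - rt F w ω = (u - τ) + (τ - rt F w ω) := by ring
      rw [e1]
      refine (abs_add_le _ _).trans ?_
      have h4 : |u - τ| ≤ 2 ^ w / 2 ^ (a + n + 1) := by
        rw [abs_of_nonneg (by linarith)]
        linarith
      have h5 : |τ - rt F w ω| ≤ 2 ^ w / 2 ^ (a + n + 1) := by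
        rw [hτx, abs_mul, abs_of_pos (show (0 : ℝ) < 2 ^ w by positivity)]
        refine (mul_le_mul_of_nonneg_left hy0 (by positivity)).trans (le_of_eq (by ring))
      refine (add_le_add h4 h5).trans (le_of_eq ?_)
      rw [pow_succ]
      field_simp
      norm_num
    constructor
    · rw [abs_div, abs_of_pos (show (0 : ℝ) < 2 ^ w by positivity), div_le_iff₀ (by positivity)]
      exact h3.trans (le_of_eq (by ring))
    · have h4 : (2 : ℝ) ^ w / 2 ^ (a + n) ≤ 1 := by
        rw [div_le_one (by positivity)]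
        exact pow_le_pow_right₀ (by norm_num) (by omega)
      have e1 : u = (u - rt F w ω) + rt F w ω := by ring
      rw [e1]
      refine (abs_add_le _ _).trans ?_
      rw [abs_of_nonneg hxr.1]
      linarith [hxr.2]
  have hρ0 : (0 : ℝ) < 2 ^ w / 2 ^ (a + n + 1) := by positivity
  have hpw : ∀ u, ptw F w ω u = fun o => bt F ω o + (u - rt F w ω) / 2 ^ w * bd F ω o :=
    fun u => funext fun o => ptw_eq F hw ω u o
  -- the offset
  have hU0 := offL_none F ω y
  have hbx : ∀ l < i, |y (some (c l)) - eval y (ψ l)| ≤ 1 / 2 ^ (g l + n) := fun l hl =>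
    (hy.2 l hl).trans (inv_mono (Nat.le_succ _))
  have hU : ∀ u : ℝ, τ ≤ u → u ≤ τ + 2 ^ w / 2 ^ (a + n + 1) →
      nrm c ψ g a i (ptw F w ω u) (offL F ω y) ≤ 2 ^ i * ((4 * i + 4 + L) / 2 ^ n) := by
    intro u h1 h2
    rw [hpw]
    exact nru_pt hK hcx (by omega) hK1' hK2 hLn' hx'
      (hy0.trans (inv_mono (Nat.le_succ _))) hbx hW (hpt u h1 h2).1
  -- the norms at the point of the line and at `y`
  obtain ⟨z, hz⟩ : ∃ z, z = ptw F w ω τ := ⟨_, rfl⟩
  have hzn : z none = y none := by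
    rw [hz, hpw]
    show F.t ω + (τ - rt F w ω) / 2 ^ w * 1 = y none
    rw [hτx]
    field_simp
    ring
  have hτ2 := hpt τ le_rfl (by linarith)
  have hδ : nrm c ψ g a i (bt F ω) (((τ - rt F w ω) / 2 ^ w) • bd F ω) ≤ L / 2 ^ n := by
    rw [nrm_smul]
    have h2 := nrm_nonneg c ψ g a i (bt F ω) (bd F ω)
    refine (mul_le_mul hτ2.1 hW h2 (by positivity)).trans (le_of_eq ?_)
    rw [pow_add]
    field_simp
  have hseg := nrm_seg (r := 1 / 2 ^ n) (ρ := L / 2 ^ n) hK hcx (by positivity) hδ (by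
      have e1 : (1 : ℝ) / 2 ^ n + 2 * (L / 2 ^ n) = (1 + 2 * L) / 2 ^ n := by ring
      rw [e1, div_le_one (by positivity)]
      exact hLn') (by
      rw [mul_div_assoc', div_le_one (by positivity)]
      exact hK2) (fun l hl => (hx' l hl).trans (le_of_eq (by rw [pow_add]; field_simp)))
  have e3 : (fun o => bt F ω o + 1 * (((τ - rt F w ω) / 2 ^ w) • bd F ω) o) = z := by
    rw [hz, hpw]
    funext o
    rw [Pi.smul_apply, smul_eq_mul, one_mul]
  have hzb : ∀ l < i, |z (some (c l)) - eval z (ψ l)| ≤ 1 / 2 ^ (g l + n₂) := by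
    intro l hl
    have h1 := hseg.1 1 ⟨zero_le_one, le_rfl⟩ l hl
    rw [e3] at h1
    have e4 : bt F ω (some (c l)) + 1 * (((τ - rt F w ω) / 2 ^ w) • bd F ω) (some (c l)) =
        z (some (c l)) := congrFun e3 (some (c l))
    rw [e4] at h1
    refine h1.trans ?_
    rw [div_le_div_iff₀ (by positivity) (by positivity), one_mul, pow_add]
    have e5 : (1 : ℝ) / 2 ^ n + 2 * (L / 2 ^ n) = (1 + 2 * L) / 2 ^ n := by ring
    rw [e5]
    have h2 : (1 + 2 * L) / 2 ^ n * 2 ^ n₂ ≤ 1 := by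
      rw [div_mul_eq_mul_div, div_le_one (by positivity)]
      exact hLn
    calc (1 + 2 * L) / 2 ^ n * (2 ^ g l * 2 ^ n₂) = ((1 + 2 * L) / 2 ^ n * 2 ^ n₂) * 2 ^ g l := by
          ring
      _ ≤ 1 * 2 ^ g l := mul_le_mul_of_nonneg_right h2 (by positivity)
      _ = _ := one_mul _
  have hzW : nrm c ψ g a i z (bd F ω) ≤ 2 ^ i * (L * 2 ^ a) := by
    have h1 := hseg.2 1 ⟨zero_le_one, le_rfl⟩ (bd F ω)
    rw [e3] at h1
    exact h1.trans (mul_le_mul_of_nonneg_left hW (by positivity))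
  have hcy : CurB c ψ g (a + 1) i (y none) K := hcur.mono (n := 0) hK (by
      have h1 : |y none - F.t ω| ≤ 1 / 2 ^ (a + 1) := hy0.trans (inv_mono (by omega))
      have h2 : (1 : ℝ) / 2 ^ (a + 1) + 1 / 2 ^ (a + 1) = 1 / 2 ^ a := by
        rw [pow_succ]
        field_simp
        norm_num
      linarith) (fun l _ => le_rfl) (fun l _ => le_rfl) (Nat.le_succ a) le_rfl
  have hzy : ∀ V, nrm c ψ g a i z V ≤ 2 ^ i * 2 * nrm c ψ g a i y V := by
    intro V
    have h1 := (nrm_dsp (c := c) (ψ := ψ) (g := g) (a := a + 1) (i := i) (n := n₂) (K := K)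
      (x := y) (b := z) hK hcy hn₂ hK1 (fun l hl => (hbx l hl).trans (inv_mono (by omega)))
      (by rw [hzn, sub_self, abs_zero]; positivity) hzb).2.1 1 ⟨zero_le_one, le_rfl⟩ V
    have e4 : (fun o => y o + 1 * (z o - y o)) = z := by
      funext o
      ring
    rw [e4] at h1
    have h2 : nrm c ψ g a i z V ≤ nrm c ψ g (a + 1) i z V := by
      unfold nrm
      refine add_le_add (mul_le_mul_of_nonneg_right (pow_le_pow_right₀ (by norm_num)
        (Nat.le_succ a)) (abs_nonneg _)) le_rfl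
    have h3 : nrm c ψ g (a + 1) i y V ≤ 2 * nrm c ψ g a i y V := by
      unfold nrm
      rw [pow_succ, mul_add]
      refine add_le_add (le_of_eq (by ring)) ?_
      refine le_mul_of_one_le_left (Finset.sum_nonneg fun l _ => by positivity) (by norm_num)
    calc nrm c ψ g a i z V ≤ 2 ^ i * nrm c ψ g (a + 1) i y V := h2.trans h1
      _ ≤ 2 ^ i * (2 * nrm c ψ g a i y V) := mul_le_mul_of_nonneg_left h3 (by positivity)
      _ = _ := by ring
  -- the first order terms
  have hfst : ∀ V : Option (Fin m) → ℝ,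
      |∑ l ∈ range i, (Polynomial.derivative (lam (slam F w ω) l)).eval τ *
        (V (some (c l)) - (slam F w ω).1.2 (c l) * V none)| ≤
      E * ((1 + 2 ^ i * L) * (2 ^ i * 2 * nrm c ψ g a i y V)) := by
    intro V
    have h0 : (V + (-V none) • bd F ω) none = 0 := by
      rw [Pi.add_apply, Pi.smul_apply, smul_eq_mul]
      show V none + -V none * 1 = 0
      ring
    have h1 := hd (V + (-V none) • bd F ω) h0 τ hτ2.2
    have e4 : ∑ l ∈ range i, (Polynomial.derivative (lam (slam F w ω) l)).eval τ *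
        (V + (-V none) • bd F ω) (some (c l)) = ∑ l ∈ range i,
        (Polynomial.derivative (lam (slam F w ω) l)).eval τ *
          (V (some (c l)) - (slam F w ω).1.2 (c l) * V none) := by
      refine Finset.sum_congr rfl fun l _ => ?_
      rw [Pi.add_apply, Pi.smul_apply, smul_eq_mul]
      have e5 : bd F ω (some (c l)) = (slam F w ω).1.2 (c l) := rfl
      rw [e5]
      ring
    rw [e4] at h1
    refine h1.trans (mul_le_mul_of_nonneg_left ?_ hE)
    rw [← hz]
    refine (nrm_add _ _ _ _ _ _ _ _).trans ?_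
    rw [nrm_smul, abs_neg]
    have h2 : |V none| * nrm c ψ g a i z (bd F ω) ≤ 2 ^ i * L * nrm c ψ g a i z V := by
      have h3 : 2 ^ a * |V none| ≤ nrm c ψ g a i z V := by
        unfold nrm
        exact le_add_of_nonneg_right (Finset.sum_nonneg fun l _ => by positivity)
      calc |V none| * nrm c ψ g a i z (bd F ω) ≤ |V none| * (2 ^ i * (L * 2 ^ a)) :=
            mul_le_mul_of_nonneg_left hzW (abs_nonneg _)
        _ = 2 ^ i * L * (2 ^ a * |V none|) := by ring
        _ ≤ _ := mul_le_mul_of_nonneg_left h3 (by positivity)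
    have h3 := mul_le_mul_of_nonneg_left (hzy V) (show 0 ≤ 1 + 2 ^ i * L by positivity)
    calc nrm c ψ g a i z V + |V none| * nrm c ψ g a i z (bd F ω) ≤
          nrm c ψ g a i z V + 2 ^ i * L * nrm c ψ g a i z V := add_le_add le_rfl h2
      _ = (1 + 2 ^ i * L) * nrm c ψ g a i z V := by ring
      _ ≤ _ := h3
  -- the second order term
  have hsnd : |∑ l ∈ range i, (Polynomial.derivative (Polynomial.derivative
      (lam (slam F w ω) l))).eval τ * (y (some (c l)) - ((slam F w ω).1.1 (c l) +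
        (slam F w ω).1.2 (c l) * y none))| ≤
      Cd * (E * (2 ^ i * ((4 * i + 4 + L) / 2 ^ n))) / (2 ^ w / 2 ^ (a + n + 1)) := by
    obtain ⟨q, hq⟩ : ∃ q : Polynomial ℝ, q = ∑ l ∈ range i,
        Polynomial.derivative (lam (slam F w ω) l) * Polynomial.C (offL F ω y (some (c l))) :=
      ⟨_, rfl⟩
    have hqe : ∀ u, q.eval u = ∑ l ∈ range i,
        (Polynomial.derivative (lam (slam F w ω) l)).eval u * offL F ω y (some (c l)) := by
      intro u
      rw [hq, Polynomial.eval_finsetSum]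
      exact Finset.sum_congr rfl fun l _ => by rw [Polynomial.eval_mul, Polynomial.eval_C]
    have hqd : (Polynomial.derivative q).eval τ = ∑ l ∈ range i, (Polynomial.derivative
        (Polynomial.derivative (lam (slam F w ω) l))).eval τ * (y (some (c l)) -
        ((slam F w ω).1.1 (c l) + (slam F w ω).1.2 (c l) * y none)) := by
      rw [hq, Polynomial.derivative_sum, Polynomial.eval_finsetSum]
      refine Finset.sum_congr rfl fun l _ => ?_
      rw [Polynomial.derivative_mul, Polynomial.derivative_C, mul_zero, add_zero,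
        Polynomial.eval_mul, Polynomial.eval_C]
      congr 1
      have e5 : offL F ω y (some (c l)) = y (some (c l)) - F.x ω (c l) -
          (y none - F.t ω) * F.d ω (c l) := rfl
      have e6 := eval_lnP_own F c w ω l y
      rw [eval_lnP] at e6
      rw [e5, e6]
      ring
    rw [← hqd]
    refine hder q τ _ _ ?_ hρ0 fun u h1 h2 => ?_
    · rw [hq]
      refine Polynomial.natDegree_sum_le_of_forall_le _ _ fun l _ => ?_
      refine (Polynomial.natDegree_mul_C_le _ _).trans ?_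
      exact (Polynomial.natDegree_derivative_le _).trans ((Nat.sub_le _ _).trans (hlam l))
    · rw [hqe]
      exact (hd _ hU0 u (hpt u h1 h2).2).trans (mul_le_mul_of_nonneg_left (hU u h1 h2) hE)
  rw [hs_plain c w i lam (slam F w ω) y V V' hτ]
  obtain ⟨A, hA⟩ : ∃ A, A = nrm c ψ g a i y V := ⟨_, rfl⟩
  obtain ⟨B, hB⟩ : ∃ B, B = nrm c ψ g a i y V' := ⟨_, rfl⟩
  have hA0 : 0 ≤ A := by rw [hA]; exact nrm_nonneg _ _ _ _ _ _ _
  have hB0 : 0 ≤ B := by rw [hB]; exact nrm_nonneg _ _ _ _ _ _ _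
  have htA : 2 ^ a * |V none| ≤ A := by
    rw [hA]
    unfold nrm
    exact le_add_of_nonneg_right (Finset.sum_nonneg fun l _ => by positivity)
  have htB : 2 ^ a * |V' none| ≤ B := by
    rw [hB]
    unfold nrm
    exact le_add_of_nonneg_right (Finset.sum_nonneg fun l _ => by positivity)
  have hV := hfst V
  have hV' := hfst V'
  rw [← hA] at hV
  rw [← hB] at hV'
  obtain ⟨R, hR⟩ : ∃ R : ℝ, R = 2 ^ w / 2 ^ a := ⟨_, rfl⟩
  have hR0 : 0 < R := by rw [hR]; positivity
  have hwV : |2 ^ w * V none| ≤ R * A := by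
    rw [abs_mul, abs_of_pos (show (0 : ℝ) < 2 ^ w by positivity)]
    calc (2 : ℝ) ^ w * |V none| = R * (2 ^ a * |V none|) := by rw [hR]; field_simp
      _ ≤ _ := mul_le_mul_of_nonneg_left htA hR0.le
  have hwV' : |2 ^ w * V' none| ≤ R * B := by
    rw [abs_mul, abs_of_pos (show (0 : ℝ) < 2 ^ w by positivity)]
    calc (2 : ℝ) ^ w * |V' none| = R * (2 ^ a * |V' none|) := by rw [hR]; field_simp
      _ ≤ _ := mul_le_mul_of_nonneg_left htB hR0.le
  obtain ⟨M, hM⟩ : ∃ M : ℝ, M = (1 + 2 ^ i * L) * (2 ^ i * 2) := ⟨_, rfl⟩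
  have hM0 : 0 ≤ M := by rw [hM]; positivity
  have hV2 : |∑ l ∈ range i, (Polynomial.derivative (lam (slam F w ω) l)).eval τ *
      (V (some (c l)) - (slam F w ω).1.2 (c l) * V none)| ≤ E * M * A :=
    hV.trans (le_of_eq (by rw [hM]; ring))
  have hV2' : |∑ l ∈ range i, (Polynomial.derivative (lam (slam F w ω) l)).eval τ *
      (V' (some (c l)) - (slam F w ω).1.2 (c l) * V' none)| ≤ E * M * B :=
    hV'.trans (le_of_eq (by rw [hM]; ring))
  have h1 : |2 ^ w * V none * ∑ l ∈ range i, (Polynomial.derivative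
      (lam (slam F w ω) l)).eval τ * (V' (some (c l)) - (slam F w ω).1.2 (c l) * V' none)| ≤
      (R * A) * (E * M * B) := by
    rw [abs_mul]
    exact mul_le_mul hwV hV2' (abs_nonneg _) (by positivity)
  have h2 : |2 ^ w * V' none * ∑ l ∈ range i, (Polynomial.derivative
      (lam (slam F w ω) l)).eval τ * (V (some (c l)) - (slam F w ω).1.2 (c l) * V none)| ≤
      (R * B) * (E * M * A) := by
    rw [abs_mul]
    exact mul_le_mul hwV' hV2 (abs_nonneg _) (by positivity)
  have e7 : Cd * (E * (2 ^ i * ((4 * i + 4 + L) / 2 ^ n))) / (2 ^ w / 2 ^ (a + n + 1)) =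
      2 * Cd * (2 ^ i * (4 * i + 4 + L)) * E / R := by
    rw [hR, pow_succ, pow_add]
    field_simp
  rw [e7] at hsnd
  have h3 : |2 ^ w * V none * (2 ^ w * V' none) * ∑ l ∈ range i, (Polynomial.derivative
      (Polynomial.derivative (lam (slam F w ω) l))).eval τ * (y (some (c l)) -
        ((slam F w ω).1.1 (c l) + (slam F w ω).1.2 (c l) * y none))| ≤
      ((R * A) * (R * B)) * (2 * Cd * (2 ^ i * (4 * i + 4 + L)) * E / R) := by
    rw [abs_mul, abs_mul (2 ^ w * V none)]
    exact mul_le_mul (mul_le_mul hwV hwV' (abs_nonneg _) (by positivity)) hsnd (abs_nonneg _)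
      (by positivity)
  have e8 : ((R * A) * (R * B)) * (2 * Cd * (2 ^ i * (4 * i + 4 + L)) * E / R) =
      R * E * (2 * Cd * (2 ^ i * (4 * i + 4 + L))) * A * B := by
    field_simp
  rw [e8] at h3
  rw [← hA, ← hB]
  refine (abs_add_le _ _).trans ((add_le_add ((abs_add_le _ _).trans (add_le_add h1 h2))
    h3).trans ?_)
  have e9 : R * A * (E * M * B) + R * B * (E * M * A) +
      R * E * (2 * Cd * (2 ^ i * (4 * i + 4 + L))) * A * B =
      (2 * M + 2 * Cd * (2 ^ i * (4 * i + 4 + L))) * (E * R * A * B) := by ring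
  have e10 : C * (1 + L) * (E * 2 ^ w / 2 ^ a) * A * B = C * (1 + L) * (E * R * A * B) := by
    rw [hR]
    ring
  rw [e9, e10]
  refine mul_le_mul_of_nonneg_right ?_ (by positivity)
  rw [hC, hM]
  have k1 : (1 + 2 ^ i * L) * (2 ^ i * 2) ≤ 2 * (2 ^ i * 2 ^ i) * (1 + L) := by
    have k2 : (1 : ℝ) + 2 ^ i * L ≤ 2 ^ i * (1 + L) := by
      have := mul_nonneg (show (0 : ℝ) ≤ 2 ^ i by positivity) hL
      linarith
    calc (1 + 2 ^ i * L) * (2 ^ i * 2) ≤ (2 ^ i * (1 + L)) * (2 ^ i * 2) :=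
          mul_le_mul_of_nonneg_right k2 (by positivity)
      _ = _ := by ring
  have k3 : 2 * Cd * (2 ^ i * (4 * i + 4 + L)) ≤ 4 * Cd * (2 ^ i * (4 * i + 4)) * (1 + L) := by
    have k4 : 4 * (i : ℝ) + 4 + L ≤ (4 * i + 4) * (1 + L) := by
      have : 0 ≤ (4 * (i : ℝ) + 3) * L := by positivity
      linarith
    have k5 : (0 : ℝ) ≤ 2 * Cd * 2 ^ i := by positivity
    have k6 := mul_le_mul_of_nonneg_left k4 k5
    have k7 : (0 : ℝ) ≤ 2 * Cd * 2 ^ i * ((4 * i + 4) * (1 + L)) := by positivity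
    calc 2 * Cd * (2 ^ i * (4 * i + 4 + L)) = 2 * Cd * 2 ^ i * (4 * i + 4 + L) := by ring
      _ ≤ 2 * Cd * 2 ^ i * ((4 * i + 4) * (1 + L)) := k6
      _ ≤ 2 * (2 * Cd * 2 ^ i * ((4 * i + 4) * (1 + L))) := by linarith
      _ = _ := by ring
  have k8 : (0 : ℝ) ≤ (2 ^ i * 2 ^ i) * (1 + L) := by positivity
  have e11 : (8 * (2 ^ i * 2 ^ i) + 4 * Cd * (2 ^ i * (4 * (i : ℝ) + 4))) * (1 + L) =
      8 * ((2 ^ i * 2 ^ i) * (1 + L)) + 4 * Cd * (2 ^ i * (4 * i + 4)) * (1 + L) := by ring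
  rw [e11]
  linarith

/-! ### The step -/

theorem nrm_sup {c : ℕ → Fin m} {ψ ψ' : ℕ → MvPolynomial (Option (Fin m)) ℝ} {g g' : ℕ → ℕ}
    {a i : ℕ} {x V : Option (Fin m) → ℝ} (h : ∀ l < i, ψ l = ψ' l) (h' : ∀ l < i, g l = g' l) :
    nrm c ψ g a i x V = nrm c ψ' g' a i x V := by
  unfold nrm
  congr 1
  refine Finset.sum_congr rfl fun l hl => ?_
  rw [h l (Finset.mem_range.1 hl), h' l (Finset.mem_range.1 hl)]

/-- **The chain with a new chart.** -/
theorem curB_snoc {c : ℕ → Fin m} {ψ : ℕ → MvPolynomial (Option (Fin m)) ℝ}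
    {Q : MvPolynomial (Option (Fin m)) ℝ} {g : ℕ → ℕ} {a i n p : ℕ} {t K M K' : ℝ} (hK : 0 ≤ K)
    (hcur : CurB c ψ g a i t K)
    (hQ : ∀ y, NBx c ψ (fun l => g l + n) (a + n) t i y → ∀ V V', |hs Q y V V'| ≤
      M * nrm c ψ g a i y V * nrm c ψ g a i y V') (hM : 0 ≤ M) (hKK : K ≤ K')
    (hn : M * 2 ^ p ≤ K' * (2 ^ n * 2 ^ n)) :
    CurB c (fun j => if j < i then ψ j else Q) (fun j => if j < i then g j + n else p) (a + n)
      (i + 1) t K' := by
  have hbx : ∀ l ≤ i, ∀ y, NBx c (fun j => if j < i then ψ j else Q)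
      (fun j => if j < i then g j + n else p) (a + n) t l y →
      NBx c ψ (fun l => g l + n) (a + n) t l y := by
    intro l hl y hy
    refine ⟨hy.1, fun j hj => ?_⟩
    have h1 := hy.2 j hj
    have hji : j < i := by omega
    simp only [if_pos hji] at h1
    exact h1
  have hnm : ∀ l ≤ i, ∀ y V, nrm c (fun j => if j < i then ψ j else Q)
      (fun j => if j < i then g j + n else p) (a + n) l y V =
      nrm c ψ (fun l => g l + n) (a + n) l y V := fun l hl y V =>
    nrm_sup (fun j hj => if_pos (by omega)) fun j hj => if_pos (by omega)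
  intro l hl y hy V V'
  rw [hnm l (by omega), hnm l (by omega)]
  have hy' := hbx l (by omega) y hy
  rcases Nat.lt_succ_iff_lt_or_eq.mp hl with h | h
  · have h0 : 0 ≤ (1 : ℝ) / 2 ^ (a + n) := by positivity
    show |hs (if l < i then ψ l else Q) y V V'| ≤ K' / 2 ^ (if l < i then g l + n else p) * _ * _
    rw [if_pos h, if_pos h]
    have hy2 : NBx c ψ g a t l y := ⟨hy'.1.trans (inv_mono (Nat.le_add_right _ _)), fun j hj =>
      (hy'.2 j hj).trans (inv_mono (Nat.le_add_right _ _))⟩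
    have h1 := nrm_rad (c := c) (ψ := ψ) (g := g) (g' := fun l => g l + n) (a := a)
      (a' := a + n) (n := n) (i := l) (x := y) (V := V) le_rfl fun _ _ => le_rfl
    have h2 := nrm_rad (c := c) (ψ := ψ) (g := g) (g' := fun l => g l + n) (a := a)
      (a' := a + n) (n := n) (i := l) (x := y) (V := V') le_rfl fun _ _ => le_rfl
    have n1 := nrm_nonneg c ψ (fun l => g l + n) (a + n) l y V
    have n2 := nrm_nonneg c ψ (fun l => g l + n) (a + n) l y V'
    have n3 := nrm_nonneg c ψ g a l y V'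
    refine (hcur l h y hy2 V V').trans ?_
    calc K / 2 ^ g l * nrm c ψ g a l y V * nrm c ψ g a l y V' ≤
          K / 2 ^ g l * (1 / 2 ^ n * nrm c ψ (fun l => g l + n) (a + n) l y V) *
            (1 / 2 ^ n * nrm c ψ (fun l => g l + n) (a + n) l y V') :=
          mul_le_mul (mul_le_mul_of_nonneg_left h1 (by positivity)) h2 n3 (by positivity)
      _ = K / (2 ^ (g l + n) * 2 ^ n) * (nrm c ψ (fun l => g l + n) (a + n) l y V *
            nrm c ψ (fun l => g l + n) (a + n) l y V') := by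
        rw [pow_add]
        field_simp
      _ ≤ K' / 2 ^ (g l + n) * (nrm c ψ (fun l => g l + n) (a + n) l y V *
            nrm c ψ (fun l => g l + n) (a + n) l y V') := by
        refine mul_le_mul_of_nonneg_right ?_ (mul_nonneg n1 n2)
        refine div_le_div₀ (hK.trans hKK) hKK (by positivity) ?_
        exact le_mul_of_one_le_right (by positivity) (one_le_pow₀ (by norm_num))
      _ = _ := by ring
  · subst h
    show |hs (if l < l then ψ l else Q) y V V'| ≤ K' / 2 ^ (if l < l then g l + n else p) * _ * _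
    rw [if_neg (lt_irrefl l), if_neg (lt_irrefl l)]
    have h1 := nrm_rad (c := c) (ψ := ψ) (g := g) (g' := fun l => g l + n) (a := a)
      (a' := a + n) (n := n) (i := l) (x := y) (V := V) le_rfl fun _ _ => le_rfl
    have h2 := nrm_rad (c := c) (ψ := ψ) (g := g) (g' := fun l => g l + n) (a := a)
      (a' := a + n) (n := n) (i := l) (x := y) (V := V') le_rfl fun _ _ => le_rfl
    have n1 := nrm_nonneg c ψ (fun l => g l + n) (a + n) l y V
    have n2 := nrm_nonneg c ψ (fun l => g l + n) (a + n) l y V'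
    have n3 := nrm_nonneg c ψ g a l y V'
    refine (hQ y hy' V V').trans ?_
    calc M * nrm c ψ g a l y V * nrm c ψ g a l y V' ≤
          M * (1 / 2 ^ n * nrm c ψ (fun l => g l + n) (a + n) l y V) *
            (1 / 2 ^ n * nrm c ψ (fun l => g l + n) (a + n) l y V') :=
          mul_le_mul (mul_le_mul_of_nonneg_left h1 (by positivity)) h2 n3 (by positivity)
      _ = M / (2 ^ n * 2 ^ n) * (nrm c ψ (fun l => g l + n) (a + n) l y V *
            nrm c ψ (fun l => g l + n) (a + n) l y V') := by field_simp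
      _ ≤ K' / 2 ^ p * (nrm c ψ (fun l => g l + n) (a + n) l y V *
            nrm c ψ (fun l => g l + n) (a + n) l y V') := by
        refine mul_le_mul_of_nonneg_right ?_ (mul_nonneg n1 n2)
        rw [div_le_div_iff₀ (by positivity) (by positivity)]
        exact hn
      _ = _ := by ring

/-- **The second derivative of a small polynomial** over a chain with natural curvature. -/
theorem cur_near (D i : ℕ) : ∃ C : ℝ, 1 ≤ C ∧ ∀ {m : ℕ} {c : ℕ → Fin m}
    {ψ : ℕ → MvPolynomial (Option (Fin m)) ℝ} {Q : MvPolynomial (Option (Fin m)) ℝ}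
    {g : ℕ → ℕ} {a : ℕ} {t K M : ℝ}, Set.InjOn c (Set.Iio i) →
    (∀ l, (ψ l).totalDegree ≤ D) → (∀ l, DepC c l (ψ l)) → DepC c i Q → Q.totalDegree ≤ D →
    0 ≤ K → 0 ≤ M → (∀ b, NBx c ψ g a t i b → |eval b Q| ≤ M) →
    CurB c ψ g (a + 1) i t K → ∀ y, NBx c ψ g (a + 1) t i y →
    (∀ V, |dd Q y V| ≤ C * M * nrm c ψ g (a + 1) i y V) ∧
    ∀ V V', |hs Q y V V'| ≤
      C * M * (1 + K) * (nrm c ψ g (a + 1) i y V * nrm c ψ g (a + 1) i y V') := by
  obtain ⟨C, hC, hbox⟩ := box_all i D D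
  have hi0 : (0 : ℝ) ≤ i := Nat.cast_nonneg i
  refine ⟨C * (1 + i), by nlinarith, ?_⟩
  intro m c ψ Q g a t K M hc hψd hψp hQp hQd hK hM hQ hcur y hy
  obtain ⟨h1, h2⟩ := hbox (c := c) (ψ := ψ) (Q := Q) (g := g) (a := a + 1) (M := M) (x := y) hc
    hψd hψp hQp hQd hM (fun b hb => hQ b ⟨by
      have e1 : b none - t = (b none - y none) + (y none - t) := by ring
      rw [e1]
      refine (abs_add_le _ _).trans ((add_le_add hb.1 hy.1).trans (le_of_eq ?_))
      rw [pow_succ]
      field_simp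
      norm_num, hb.2⟩) (fun l hl => hy.2 l hl)
  have hCi : C ≤ C * (1 + i) := by nlinarith
  refine ⟨fun V => (h1 V).trans (mul_le_mul_of_nonneg_right (mul_le_mul_of_nonneg_right hCi hM)
    (nrm_nonneg _ _ _ _ _ _ _)), fun V V' => ?_⟩
  have h3 := h2 V V' 0
  have e1 : dd Q y 0 = 0 := by
    unfold dd
    simp
  rw [e1, add_zero] at h3
  obtain ⟨A, hA⟩ : ∃ A, A = nrm c ψ g (a + 1) i y V := ⟨_, rfl⟩
  obtain ⟨B, hB⟩ : ∃ B, B = nrm c ψ g (a + 1) i y V' := ⟨_, rfl⟩
  have hA0 : 0 ≤ A := by rw [hA]; exact nrm_nonneg _ _ _ _ _ _ _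
  have hB0 : 0 ≤ B := by rw [hB]; exact nrm_nonneg _ _ _ _ _ _ _
  have h4 : nrz c ψ g (a + 1) i y V V' 0 ≤ i * (K * (A * B)) := by
    unfold nrz
    rw [Pi.zero_apply, abs_zero, mul_zero, zero_add]
    have h5 : ∀ l ∈ range i, 2 ^ g l * |(0 : Option (Fin m) → ℝ) (some (c l)) -
        dd (ψ l) y 0 - hs (ψ l) y V V'| ≤ K * (A * B) := by
      intro l hl
      have hl' := Finset.mem_range.1 hl
      have e2 : dd (ψ l) y 0 = 0 := by
        unfold dd
        simp
      rw [Pi.zero_apply, e2, sub_zero, zero_sub, abs_neg]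
      have h6 := hcur l hl' y ⟨hy.1, fun j hj => hy.2 j (by omega)⟩ V V'
      have hmon : ∀ V, nrm c ψ g (a + 1) l y V ≤ nrm c ψ g (a + 1) i y V := by
        intro V
        unfold nrm
        refine add_le_add le_rfl (Finset.sum_le_sum_of_subset_of_nonneg
          (Finset.range_mono hl'.le) fun j _ _ => by positivity)
      have m1 := hmon V
      have m2 := hmon V'
      rw [← hA] at m1
      rw [← hB] at m2
      calc 2 ^ g l * |hs (ψ l) y V V'| ≤ 2 ^ g l * (K / 2 ^ g l * nrm c ψ g (a + 1) l y V *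
            nrm c ψ g (a + 1) l y V') := mul_le_mul_of_nonneg_left h6 (by positivity)
        _ = K * (nrm c ψ g (a + 1) l y V * nrm c ψ g (a + 1) l y V') := by field_simp
        _ ≤ K * (A * B) := mul_le_mul_of_nonneg_left (mul_le_mul m1 m2
          (nrm_nonneg _ _ _ _ _ _ _) hA0) hK
    refine (Finset.sum_le_sum h5).trans (le_of_eq ?_)
    rw [Finset.sum_const, Finset.card_range, nsmul_eq_mul]
  rw [← hA, ← hB] at h3 ⊢
  refine h3.trans ?_
  have hAB : 0 ≤ A * B := mul_nonneg hA0 hB0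
  calc C * M * (A * B + nrz c ψ g (a + 1) i y V V' 0) ≤
        C * M * (A * B + i * (K * (A * B))) :=
        mul_le_mul_of_nonneg_left (add_le_add le_rfl h4) (mul_nonneg (by linarith) hM)
    _ = C * M * (1 + i * K) * (A * B) := by ring
    _ ≤ C * (1 + i) * M * (1 + K) * (A * B) := by
      refine mul_le_mul_of_nonneg_right ?_ hAB
      have h5 : (1 : ℝ) + i * K ≤ (1 + i) * (1 + K) := by nlinarith
      have h6 : 0 ≤ C * M := mul_nonneg (by linarith) hM
      calc C * M * (1 + i * K) ≤ C * M * ((1 + i) * (1 + K)) :=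
            mul_le_mul_of_nonneg_left h5 h6
        _ = _ := by ring

/-- The norms of near charts. -/
theorem nrm_cmp {c : ℕ → Fin m} {ψ φ : ℕ → MvPolynomial (Option (Fin m)) ℝ} {γ g : ℕ → ℕ}
    {α a σ i : ℕ} {y V : Option (Fin m) → ℝ} {A : ℝ} (hA : 0 ≤ A) (haα : a + σ ≤ α)
    (hg : ∀ l < i, g l + σ ≤ γ l)
    (h : ∀ l < i, |dd (ψ l) y V - dd (φ l) y V| ≤ A / 2 ^ γ l * nrm c ψ γ α l y V) :
    nrm c φ g a i y V ≤ (1 + i * A) / 2 ^ σ * nrm c ψ γ α i y V := by
  obtain ⟨N, hN⟩ : ∃ N, N = nrm c ψ γ α i y V := ⟨_, rfl⟩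
  have hN0 : 0 ≤ N := by rw [hN]; exact nrm_nonneg _ _ _ _ _ _ _
  have hmon : ∀ l < i, nrm c ψ γ α l y V ≤ N := by
    intro l hl
    rw [hN]
    unfold nrm
    exact add_le_add le_rfl (Finset.sum_le_sum_of_subset_of_nonneg
      (Finset.range_mono hl.le) fun j _ _ => by positivity)
  have key : ∀ b b' : ℕ, ∀ X : ℝ, 0 ≤ X → b + σ ≤ b' →
      (2 : ℝ) ^ b * X ≤ 1 / 2 ^ σ * (2 ^ b' * X) := by
    intro b b' X hX hb
    rw [← mul_assoc]
    refine mul_le_mul_of_nonneg_right ?_ hX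
    rw [one_div, ← div_eq_inv_mul, le_div_iff₀ (by positivity), ← pow_add]
    exact pow_le_pow_right₀ (by norm_num) hb
  have h1 : ∀ l ∈ range i, 2 ^ g l * |V (some (c l)) - dd (φ l) y V| ≤
      1 / 2 ^ σ * (2 ^ γ l * |V (some (c l)) - dd (ψ l) y V|) + 1 / 2 ^ σ * (A * N) := by
    intro l hl
    have hl' := Finset.mem_range.1 hl
    have h2 : |V (some (c l)) - dd (φ l) y V| ≤ |V (some (c l)) - dd (ψ l) y V| +
        A / 2 ^ γ l * N := by
      have e1 : V (some (c l)) - dd (φ l) y V = (V (some (c l)) - dd (ψ l) y V) +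
          (dd (ψ l) y V - dd (φ l) y V) := by ring
      rw [e1]
      refine (abs_add_le _ _).trans (add_le_add le_rfl ((h l hl').trans ?_))
      exact mul_le_mul_of_nonneg_left (hmon l hl') (by positivity)
    have h3 := key (g l) (γ l) (|V (some (c l)) - dd (ψ l) y V| + A / 2 ^ γ l * N)
      (by positivity) (hg l hl')
    refine (mul_le_mul_of_nonneg_left h2 (by positivity)).trans (h3.trans (le_of_eq ?_))
    field_simp
  have h0 : 2 ^ a * |V none| ≤ 1 / 2 ^ σ * (2 ^ α * |V none|) := key _ _ _ (abs_nonneg _) haα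
  have h2 := Finset.sum_le_sum h1
  rw [Finset.sum_add_distrib, ← Finset.mul_sum, Finset.sum_const, Finset.card_range,
    nsmul_eq_mul] at h2
  rw [← hN]
  have e2 : (1 + i * A) / 2 ^ σ * N = 1 / 2 ^ σ * N + i * (1 / 2 ^ σ * (A * N)) := by ring
  rw [e2]
  have e3 : N = 2 ^ α * |V none| + ∑ l ∈ range i, 2 ^ γ l * |V (some (c l)) - dd (ψ l) y V| := by
    rw [hN]
    rfl
  have e4 : 1 / 2 ^ σ * N = 1 / 2 ^ σ * (2 ^ α * |V none|) + 1 / 2 ^ σ *
      ∑ l ∈ range i, 2 ^ γ l * |V (some (c l)) - dd (ψ l) y V| := by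
    rw [← mul_add, ← e3]
  rw [e4]
  unfold nrm
  linarith

/-- **The curvature of near charts.** -/
theorem curB_of (D i : ℕ) : ∃ C : ℝ, 1 ≤ C ∧ ∀ {m : ℕ} {c : ℕ → Fin m}
    {ψ φ : ℕ → MvPolynomial (Option (Fin m)) ℝ} {γ g : ℕ → ℕ} {α a σ κ : ℕ} {t K M : ℝ},
    Set.InjOn c (Set.Iio i) → (∀ l, (ψ l).totalDegree ≤ D) → (∀ l, DepC c l (ψ l)) →
    (∀ l, (φ l).totalDegree ≤ D) → (∀ l, DepC c l (φ l)) → 0 ≤ K → 1 ≤ M →
    a + σ ≤ α + 1 → a ≤ α + 1 → (∀ l < i, g l + σ ≤ γ l) → (∀ l < i, γ l ≤ g l + 2 * σ + κ) →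
    (∀ l < i, ∀ b, NBx c ψ γ α t l b → |eval b (ψ l) - eval b (φ l)| ≤ M / 2 ^ γ l) →
    (∀ l < i, ∀ y, NBx c ψ γ (α + 1) t l y → NBx c φ g a t l y) →
    CurB c φ g a i t K →
    CurB c ψ γ (α + 1) i t ((C * (M + 2 ^ κ * K * M ^ 2)) ^ (i + 1)) := by
  have hba := fun l : ℕ => cur_near D l
  choose Cb hCb hbl using hba
  obtain ⟨Y, hY⟩ : ∃ Y : ℝ, Y = 1 + ∑ l ∈ range (i + 1), Cb l := ⟨_, rfl⟩
  have hCbl : ∀ l ≤ i, Cb l ≤ Y := by
    intro l hl
    rw [hY]
    have := Finset.single_le_sum (f := Cb) (fun l _ => by linarith [hCb l])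
      (Finset.mem_range.2 (Nat.lt_succ_of_le hl))
    linarith
  have hY1 : 1 ≤ Y := by
    rw [hY]
    have : 0 ≤ ∑ l ∈ range (i + 1), Cb l := Finset.sum_nonneg fun l _ => by linarith [hCb l]
    linarith
  have hi0 : (0 : ℝ) ≤ i := Nat.cast_nonneg i
  refine ⟨2 * Y + (1 + i * Y) ^ 2, by nlinarith [sq_nonneg (1 + (i : ℝ) * Y)], ?_⟩
  intro m c ψ φ γ g α a σ κ t K M hc hψd hψp hφd hφp hK hM haα haα' hg1 hg2 hnear hbox hcur
  have hM0 : 0 ≤ M := by linarith
  obtain ⟨X, hX⟩ : ∃ X : ℝ, X = (2 * Y + (1 + i * Y) ^ 2) * (M + 2 ^ κ * K * M ^ 2) := ⟨_, rfl⟩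
  have hR0 : 0 ≤ (2 : ℝ) ^ κ * K * M ^ 2 := by positivity
  have hX1 : 1 ≤ X := by
    rw [hX]
    refine one_le_mul_of_one_le_of_one_le ?_ (by linarith)
    nlinarith [sq_nonneg (1 + (i : ℝ) * Y)]
  have hX2 : 2 * Y * M + 2 ^ κ * K * (1 + i * Y * M) ^ 2 ≤ X := by
    have h1 : (1 + i * Y * M) ^ 2 ≤ (1 + i * Y) ^ 2 * M ^ 2 := by
      rw [← mul_pow]
      refine pow_le_pow_left₀ (by positivity) ?_ 2
      have : (1 + i * Y) * M = M + i * Y * M := by ring
      linarith
    have h2 : 2 ^ κ * K * (1 + i * Y * M) ^ 2 ≤ (1 + i * Y) ^ 2 * (2 ^ κ * K * M ^ 2) := by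
      refine (mul_le_mul_of_nonneg_left h1 (by positivity)).trans (le_of_eq (by ring))
    rw [hX]
    have h3 : 0 ≤ 2 * Y * (2 ^ κ * K * M ^ 2) := by positivity
    have h4 : 0 ≤ (1 + (i : ℝ) * Y) ^ 2 * M := by positivity
    have e1 : (2 * Y + (1 + i * Y) ^ 2) * (M + 2 ^ κ * K * M ^ 2) = 2 * Y * M +
        2 * Y * (2 ^ κ * K * M ^ 2) + (1 + i * Y) ^ 2 * M +
        (1 + i * Y) ^ 2 * (2 ^ κ * K * M ^ 2) := by ring
    rw [e1]
    linarith
  rw [← hX]
  have main : ∀ l ≤ i, CurB c ψ γ (α + 1) l t (X ^ l) := by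
    intro l
    induction l with
    | zero => exact fun _ j hj => absurd hj (Nat.not_lt_zero j)
    | succ l ih =>
      intro hl
      have hcl := ih (by omega)
      have hXl : 1 ≤ X ^ l := one_le_pow₀ hX1
      intro j hj y hy V V'
      rcases Nat.lt_succ_iff_lt_or_eq.mp hj with h | h
      · refine (hcl j h y hy V V').trans ?_
        have n1 := nrm_nonneg c ψ γ (α + 1) j y V
        have n2 := nrm_nonneg c ψ γ (α + 1) j y V'
        refine mul_le_mul_of_nonneg_right (mul_le_mul_of_nonneg_right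
          (div_le_div_of_nonneg_right ?_ (by positivity)) n1) n2
        exact pow_le_pow_right₀ hX1 (Nat.le_succ l)
      · subst h
        obtain ⟨A, hA⟩ : ∃ A, A = nrm c ψ γ (α + 1) j y V := ⟨_, rfl⟩
        obtain ⟨B, hB⟩ : ∃ B, B = nrm c ψ γ (α + 1) j y V' := ⟨_, rfl⟩
        have hA0 : 0 ≤ A := by rw [hA]; exact nrm_nonneg _ _ _ _ _ _ _
        have hB0 : 0 ≤ B := by rw [hB]; exact nrm_nonneg _ _ _ _ _ _ _
        have hdif : ∀ j' ≤ j, (∀ V, |dd (ψ j' - φ j') y V| ≤
            Cb j' * (M / 2 ^ γ j') * nrm c ψ γ (α + 1) j' y V) ∧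
            ∀ V V', |hs (ψ j' - φ j') y V V'| ≤ Cb j' * (M / 2 ^ γ j') * (1 + X ^ j) *
              (nrm c ψ γ (α + 1) j' y V * nrm c ψ γ (α + 1) j' y V') := by
          intro j' hj'
          exact hbl j' (c := c) (ψ := ψ) (Q := ψ j' - φ j') (g := γ) (a := α) (t := t)
            (K := X ^ j) (M := M / 2 ^ γ j') (hc.mono fun z hz => by
              rw [Set.mem_Iio] at hz ⊢
              omega) hψd hψp (fun b b' h1 h2 => by
              rw [map_sub, map_sub, hψp j' b b' h1 h2, hφp j' b b' h1 h2])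
            ((totalDegree_sub _ _).trans (max_le (hψd j') (hφd j'))) (by positivity)
            (by positivity) (fun b hb => by
              rw [map_sub]
              exact hnear j' (by omega) b hb)
            (fun j'' hj'' => hcl j'' (by omega)) y ⟨hy.1, fun z hz => hy.2 z (by omega)⟩
        have hcmp : ∀ V, nrm c φ g a j y V ≤ (1 + i * Y * M) / 2 ^ σ *
            nrm c ψ γ (α + 1) j y V := by
          intro V
          have h1 := nrm_cmp (c := c) (ψ := ψ) (φ := φ) (γ := γ) (g := g) (α := α + 1) (a := a)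
            (σ := σ) (i := j) (y := y) (V := V) (A := Y * M) (by positivity) haα
            (fun l hl => hg1 l (by omega)) (fun l hl => by
              have h2 := (hdif l (by omega)).1 V
              rw [dd_sub] at h2
              refine h2.trans (mul_le_mul_of_nonneg_right ?_ (nrm_nonneg _ _ _ _ _ _ _))
              rw [mul_div_assoc]
              exact mul_le_mul_of_nonneg_right (hCbl l (by omega)) (by positivity))
          refine h1.trans (mul_le_mul_of_nonneg_right (div_le_div_of_nonneg_right ?_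
            (by positivity)) (nrm_nonneg _ _ _ _ _ _ _))
          have h3 : ((j : ℕ) : ℝ) ≤ i := by exact_mod_cast (by omega : j ≤ i)
          have h4 := mul_le_mul_of_nonneg_right h3 (show 0 ≤ Y * M by positivity)
          linarith
        have h1 := (hdif j le_rfl).2 V V'
        rw [hs_sub, ← hA, ← hB] at h1
        have h2 := hcur j (by omega) y (hbox j (by omega) y hy) V V'
        have c1 := hcmp V
        have c2 := hcmp V'
        rw [← hA] at c1
        rw [← hB] at c2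
        have h3 : |hs (φ j) y V V'| ≤ 2 ^ κ * K * (1 + i * Y * M) ^ 2 / 2 ^ γ j * (A * B) := by
          refine h2.trans ?_
          have n3 := nrm_nonneg c φ g a j y V'
          calc K / 2 ^ g j * nrm c φ g a j y V * nrm c φ g a j y V' ≤
                K / 2 ^ g j * ((1 + i * Y * M) / 2 ^ σ * A) * ((1 + i * Y * M) / 2 ^ σ * B) :=
                mul_le_mul (mul_le_mul_of_nonneg_left c1 (by positivity)) c2 n3 (by positivity)
            _ = K * (1 + i * Y * M) ^ 2 / 2 ^ (g j + 2 * σ) * (A * B) := by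
              rw [pow_add, pow_mul']
              field_simp
            _ ≤ _ := by
              refine mul_le_mul_of_nonneg_right ?_ (mul_nonneg hA0 hB0)
              rw [div_le_div_iff₀ (by positivity) (by positivity)]
              have h4 : (2 : ℝ) ^ γ j ≤ 2 ^ κ * 2 ^ (g j + 2 * σ) := by
                rw [← pow_add]
                exact pow_le_pow_right₀ (by norm_num) (by
                  have := hg2 j (by omega)
                  omega)
              calc K * (1 + i * Y * M) ^ 2 * 2 ^ γ j ≤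
                    K * (1 + i * Y * M) ^ 2 * (2 ^ κ * 2 ^ (g j + 2 * σ)) :=
                    mul_le_mul_of_nonneg_left h4 (by positivity)
                _ = _ := by ring
        have h4 : |hs (ψ j) y V V'| ≤ Y * (M / 2 ^ γ j) * (2 * X ^ j) * (A * B) +
            2 ^ κ * K * (1 + i * Y * M) ^ 2 / 2 ^ γ j * (A * B) := by
          have e1 : hs (ψ j) y V V' = (hs (ψ j) y V V' - hs (φ j) y V V') +
              hs (φ j) y V V' := by ring
          rw [e1]
          refine (abs_add_le _ _).trans (add_le_add (h1.trans ?_) h3)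
          refine mul_le_mul_of_nonneg_right ?_ (mul_nonneg hA0 hB0)
          refine mul_le_mul (mul_le_mul_of_nonneg_right (hCbl j (by omega)) (by positivity))
            (by linarith) (by positivity) (by positivity)
        rw [← hA, ← hB]
        refine h4.trans ?_
        have hAB := mul_nonneg hA0 hB0
        have e2 : Y * (M / 2 ^ γ j) * (2 * X ^ j) * (A * B) +
            2 ^ κ * K * (1 + i * Y * M) ^ 2 / 2 ^ γ j * (A * B) =
            (2 * Y * M * X ^ j + 2 ^ κ * K * (1 + i * Y * M) ^ 2) * (A * B / 2 ^ γ j) := by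
          field_simp
        have e3 : X ^ (j + 1) / 2 ^ γ j * A * B = X ^ (j + 1) * (A * B / 2 ^ γ j) := by
          field_simp
        rw [e2, e3]
        refine mul_le_mul_of_nonneg_right ?_ (by positivity)
        have h5 : 2 ^ κ * K * (1 + i * Y * M) ^ 2 ≤
            2 ^ κ * K * (1 + i * Y * M) ^ 2 * X ^ j :=
          le_mul_of_one_le_right (by positivity) hXl
        have h6 := mul_le_mul_of_nonneg_right hX2 (show 0 ≤ X ^ j by positivity)
        have e4 : X ^ (j + 1) = X * X ^ j := by ring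
        rw [e4]
        linarith
  intro j hj y hy V V'
  refine (main i le_rfl j hj y hy V V').trans ?_
  have n1 := nrm_nonneg c ψ γ (α + 1) j y V
  have n2 := nrm_nonneg c ψ γ (α + 1) j y V'
  refine mul_le_mul_of_nonneg_right (mul_le_mul_of_nonneg_right
    (div_le_div_of_nonneg_right ?_ (by positivity)) n1) n2
  exact pow_le_pow_right₀ hX1 (Nat.le_succ i)

/-- **The Lipschitz exponents of a natural gradient.** -/
theorem lip_gpn (i : ℕ) : ∃ C : ℕ, ∀ {m : ℕ} {c : ℕ → Fin m}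
    {ψ : ℕ → MvPolynomial (Option (Fin m)) ℝ} {P : MvPolynomial (Option (Fin m)) ℝ}
    {g : ℕ → ℕ} {a e N : ℕ} {x : Option (Fin m) → ℝ}, Set.InjOn c (Set.Iio i) →
    (∀ l, DepC c l (ψ l)) →
    (∀ k < i + 1, ∀ j < k, |eval x (pderiv (some (c j)) (ψ k))| ≤ 2 ^ (e + nlp g j k)) →
    (∀ V : Option (Fin m) → ℝ, V none = 0 →
      |dd P x V - dd (ψ i) x V| ≤ 2 ^ N / 2 ^ g i * nrm c ψ g a i x V) →
    ∀ l < i, |eval x (pderiv (some (c l)) P)| ≤ 2 ^ (C + N + e + nlp g l i) := by
  classical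
  refine ⟨i + 1, ?_⟩
  intro m c ψ P g a e N x hc hdep hlip hg l hl
  have hV0 : (Pi.single (some (c l)) (1 : ℝ) : Option (Fin m) → ℝ) none = 0 :=
    Pi.single_eq_of_ne (by simp) _
  have hdd : ∀ Q : MvPolynomial (Option (Fin m)) ℝ, dd Q x (Pi.single (some (c l)) 1) =
      eval x (pderiv (some (c l)) Q) := by
    intro Q
    unfold dd
    rw [Finset.sum_eq_single (some (c l))]
    · rw [Pi.single_eq_same, mul_one]
    · intro o _ ho
      rw [Pi.single_eq_of_ne ho, mul_zero]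
    · intro h
      exact absurd (Finset.mem_univ _) h
  have h1 := hg _ hV0
  rw [hdd, hdd] at h1
  have h2 : nrm c ψ g a i x (Pi.single (some (c l)) 1) ≤
      i * 2 ^ (e + (Finset.Icc l i).sup g) :=
    nrm_unit hc hdep hl fun k hk j hj => hlip k (by omega) j hj
  have h3 := hlip i (Nat.lt_succ_self i) l hl
  have hgi : g i ≤ (Finset.Icc l i).sup g :=
    Finset.le_sup (f := g) (Finset.mem_Icc.2 ⟨hl.le, le_rfl⟩)
  have e1 : (2 : ℝ) ^ N / 2 ^ g i * (i * 2 ^ (e + (Finset.Icc l i).sup g)) =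
      i * 2 ^ N * 2 ^ (e + nlp g l i) := by
    have e2 : e + (Finset.Icc l i).sup g = (e + nlp g l i) + g i := by
      unfold nlp
      omega
    rw [e2, pow_add _ (e + nlp g l i)]
    field_simp
  have h4 : |eval x (pderiv (some (c l)) P)| ≤ (i * 2 ^ N + 1) * 2 ^ (e + nlp g l i) := by
    have e2 : eval x (pderiv (some (c l)) P) = (eval x (pderiv (some (c l)) P) -
        eval x (pderiv (some (c l)) (ψ i))) + eval x (pderiv (some (c l)) (ψ i)) := by ring
    rw [e2]
    refine (abs_add_le _ _).trans ?_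
    rw [add_mul, one_mul]
    refine add_le_add (h1.trans ?_) h3
    rw [← e1]
    exact mul_le_mul_of_nonneg_left h2 (by positivity)
  refine h4.trans ?_
  have e3 : i + 1 + N + e + nlp g l i = (i + 1 + N) + (e + nlp g l i) := by ring
  rw [e3, pow_add _ (i + 1 + N)]
  refine mul_le_mul_of_nonneg_right ?_ (by positivity)
  have h5 : ((i : ℝ) + 1) ≤ 2 ^ (i + 1) := by
    have : ((i + 1 : ℕ) : ℝ) ≤ 2 ^ (i + 1) := by
      exact_mod_cast (Nat.lt_two_pow_self (n := i + 1)).le
    push_cast at this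
    exact this
  have h6 : (1 : ℝ) ≤ 2 ^ N := one_le_pow₀ (by norm_num)
  rw [pow_add]
  calc (i : ℝ) * 2 ^ N + 1 ≤ i * 2 ^ N + 1 * 2 ^ N := by linarith
    _ = (i + 1) * 2 ^ N := by ring
    _ ≤ _ := mul_le_mul_of_nonneg_right h5 (by positivity)

end Pool.D2S
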