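import Pool.Agent.H66.D2.Apa
import Pool.Agent.H42.D2.Jcb
import Pool.Agent.H23.D2.Tho

/-!
# The numbers of the critical cell with the static place `1` and the thin place `2`

The windows `0` (static charts), `1` (row label), `2` (label), `3` (ball), `4` and `5` (the line and the
ball of the closed gradient of the thin place).
-/

set_option autoImplicit false

namespace Pool.TNW

open Finset Real MvPolynomial Pool.TN

/-- **The numbers of the critical cell** `[one, sta, thin]`. -/
theorem num_stc {J A cl M : ℕ} {Sc : ℕ → Prop} {w e pp : ℕ → ℕ} {z g gc gT g₀ : ℕ → ℕ → ℕ}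
    {U y τ Ee K A' : ℝ} {v Sl Λ : ℕ → ℝ}
    (h : ApN 3 5 J A cl Sc w e pp g gc gT g₀ U y τ Ee K A' v Sl Λ)
    (hSc : ∀ l < 3, Sc l ↔ l = 1) {s b : ℝ} (s0 : Sl 0 = 1) (s1 : Sl 1 = 2) (s2 : Sl 2 = s)
    (s3 : Sl 3 = b) (hs : 1 < s) (hb : 2 < b) (v2 : v 2 = 0) (v3 : v 3 = 1)
    (hz : z 2 0 = w 3 - w 2)
    (hcr : (1 + s - b) * (v 5 - 1) ≤ 0)
    (F3 : (b - 1) - (b - 2) * v 1 + 1 ≤ A')
    (F41 : v 1 ≤ 0) (F43 : 2 ≤ A')
    (F51 : v 0 ≤ -A') (F52 : v 0 ≤ v 1)
    (F61 : (A' - v 1) + 2 * (b - 1) * (1 - v 1) + 2 ≤ 3 * K) (F62 : A' ≤ K)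
    (F63 : 2 * (s - 1) + 3 ≤ 3 * K) (F64 : -v 0 + 3 ≤ K)
    (T1 : v 1 ≤ v 4) (T2 : v 4 + 1 ≤ v 5) (T3 : v 5 + 1 ≤ A')
    (T4 : (b - 1) * v 5 - (b - 2) * v 1 + 1 ≤ A')
    (T5 : (s - 1) * (v 5 - v 4) + 1 ≤ v 4 - v 1) (T6 : s ≤ K + v 5)
    (hy : y ≤ 1 / 1000) {X X' Q Q' : ℕ} (hX1 : 20 * (y * U) ≤ X) (hXX : X ≤ X')
    (hX' : (X' : ℝ) ≤ U / 100) (hQ : (Q : ℝ) ≤ U / 100) (hQ' : (Q' : ℝ) ≤ U / 100)
    {a₁ e₁ b0 b1 at' wt' eb' bt' : ℕ} (ha₁ : w 3 ≤ a₁) (he₁ : Ee + 3 * K * U - 1 ≤ e₁)
    (hb0 : (b0 : ℝ) ≤ Λ 0 + U + 5 * (y * U)) (hb1 : (b1 : ℝ) ≤ Λ 1 + 2 * U + 5 * (y * U))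
    (hat : w 3 ≤ at') (hwt : w 2 ≤ wt') (heb : Ee + 3 * K * U - 1 ≤ eb')
    (hbt : (bt' : ℝ) + Q' + 5 * (y * U) ≤ Λ 3 + b * U)
    {X₂ Q₂ Q₃ at₂ wt₂ eb₂ bt₂ : ℕ} (hX2 : 20 * (y * U) ≤ X₂) (hQ2 : (Q₂ : ℝ) ≤ U / 100)
    (hQ3 : (Q₃ : ℝ) ≤ U / 100) (hat2 : w 5 ≤ at₂) (hwt2 : w 4 ≤ wt₂)
    (heb2 : Ee + 3 * K * U - 1 ≤ eb₂)
    (hbt2 : (bt₂ : ℝ) + Q₃ + (s - 1) * U + 5 * (y * U) ≤ Λ 2 + s * v 5 * U) :
    ∃ (g' : ℕ → ℕ) (p x d f : ℕ),
      NumW 3 5 M A cl J Sc w e pp z g gc gT g₀ 0 1 2 3 X' p x g' ∧
      (∀ y < 3, g₀ 3 y ≤ g' y + d) ∧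
      NumO J A X w e gT g₀ 0 2 3 f Q a₁ e₁ b0 b1 g' ∧
      NumF 3 J (w 2) (w 3) at' wt' eb' bt' (max (e 2) (e 3)) d Q' f p 1 (g₀ 3) g' (gT 2) ∧
      ∃ f₂ dd p₂ : ℕ, JNum 5 A cl X₂ f₂ dd w pp gc gT g₀ 0 1 4 5 p₂ 2 1 ∧
        f₂ + dd + Q₂ ≤ w 4 - w 1 ∧ w 5 + g₀ 5 2 + g₀ 3 3 ≤ w 3 + g' 2 + g₀ 5 3 + dd + X' ∧
        NumG 2 J (w 4) (w 5) at₂ wt₂ eb₂ bt₂ (e 5) dd Q₃ (g₀ 5) := by
  have hU := h.U0
  have hyU0 : 0 < y * U := mul_pos h.y0 hU
  have hyU := h.yU
  have hyUs : y * U ≤ U / 1000 := by
    have := mul_le_mul_of_nonneg_right hy hU.le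
    linarith only [this]
  have hXR : (X : ℝ) ≤ X' := by exact_mod_cast hXX
  have c1 := h.cl1
  have c2 := h.cl2
  have hsl := h.sl
  -- products
  have pr : ∀ {x : ℝ}, 0 ≤ x → 0 ≤ x * U := fun hx => mul_nonneg hx hU.le
  have U1 := mul_le_mul_of_nonneg_right hcr hU.le
  have U3 := mul_le_mul_of_nonneg_right F3 hU.le
  have U41 := mul_le_mul_of_nonneg_right F41 hU.le
  have U43 := mul_le_mul_of_nonneg_right F43 hU.le
  have U51 := mul_le_mul_of_nonneg_right F51 hU.le
  have U52 := mul_le_mul_of_nonneg_right F52 hU.le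
  have U61 := mul_le_mul_of_nonneg_right F61 hU.le
  have U62 := mul_le_mul_of_nonneg_right F62 hU.le
  have U63 := mul_le_mul_of_nonneg_right F63 hU.le
  have U64 := mul_le_mul_of_nonneg_right F64 hU.le
  have V1 := mul_le_mul_of_nonneg_right T1 hU.le
  have V2 := mul_le_mul_of_nonneg_right T2 hU.le
  have V3 := mul_le_mul_of_nonneg_right T3 hU.le
  have V4 := mul_le_mul_of_nonneg_right T4 hU.le
  have V5 := mul_le_mul_of_nonneg_right T5 hU.le
  have V6 := mul_le_mul_of_nonneg_right T6 hU.le
  -- the windows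
  have W0 := h.w1 0 (by norm_num)
  have W1 := h.w1 1 (by norm_num)
  have W2 := h.w1 2 (by norm_num)
  have W3 := h.w1 3 (by norm_num)
  have W4 := h.w1 4 (by norm_num)
  have W5 := h.w1 5 (by norm_num)
  rw [v2] at W2
  rw [v3] at W3
  have A1 := h.A1
  have A2 := h.A2
  have m02 : w 0 ≤ w 2 := h.wm 0 (by norm_num) 2 (by norm_num) (by
    rw [v2]; linarith only [F41, F52])
  have m12 : w 1 ≤ w 2 := h.wm 1 (by norm_num) 2 (by norm_num) (by rw [v2]; linarith only [F41])
  have m23 : w 2 ≤ w 3 := h.wm 2 (by norm_num) 3 (by norm_num) (by rw [v2, v3]; linarith only [])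
  have m04 : w 0 ≤ w 4 := h.wm 0 (by norm_num) 4 (by norm_num) (by linarith only [F52, T1])
  have m14 : w 1 ≤ w 4 := h.wm 1 (by norm_num) 4 (by norm_num) (by linarith only [T1])
  have m45 : w 4 ≤ w 5 := h.wm 4 (by norm_num) 5 (by norm_num) (by linarith only [T2])
  have hA : ∀ k ≤ 5, ((A - w k : ℕ) : ℝ) = A - w k := fun k hk => by
    rw [Nat.cast_sub (h.wA k hk)]
  have h23 : ((w 3 - w 2 : ℕ) : ℝ) = w 3 - w 2 := by rw [Nat.cast_sub m23]
  have h20 : ((w 2 - w 0 : ℕ) : ℝ) = w 2 - w 0 := by rw [Nat.cast_sub m02]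
  -- rough and static
  have hr : ∀ l < 3, l ≠ 1 → ¬ Sc l := fun l hl hne hsc => hne ((hSc l hl).1 hsc)
  have hst : Sc 1 := (hSc 1 (by norm_num)).2 rfl
  have gTr : ∀ k ≤ 5, ∀ l < 3, l ≠ 1 → gT k l = gc k l := fun k hk l hl hne =>
    h.gr k hk l hl (hr l hl hne)
  have gTs : ∀ k ≤ 5, Λ 1 + 2 * A' * U - 4 * (y * U) ≤ gT k 1 ∧
      (gT k 1 : ℝ) ≤ Λ 1 + 2 * A' * U + 4 * (y * U) := fun k hk => by
    have := h.gs k hk 1 (by norm_num) hst
    rw [s1] at this
    exact this
  -- levels of the ball `3` and of the label `2`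
  have G3 : ∀ l ≤ 3, Λ l + Sl l * U - 2 * (y * U) ≤ g₀ 3 l ∧
      (g₀ 3 l : ℝ) ≤ Λ l + Sl l * U + 2 * (y * U) := fun l hl => by
    have := h.ga 3 (by norm_num) l hl
    rw [v3, mul_one] at this
    exact this
  have G2 : ∀ l ≤ 3, Λ l - 2 * (y * U) ≤ g 2 l ∧ (g 2 l : ℝ) ≤ Λ l + 2 * (y * U) :=
    fun l hl => by
    have := h.gb 2 (by norm_num) l hl
    rw [v2, mul_zero, zero_mul, add_zero] at this
    exact this
  have C2 : ∀ l ≤ 3, Λ l + A' * U - 4 * (y * U) ≤ gc 2 l ∧
      (gc 2 l : ℝ) ≤ Λ l + A' * U + 4 * (y * U) := fun l hl => by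
    have := h.gd 2 (by norm_num) l hl
    rw [v2, mul_zero, zero_mul, add_zero, sub_zero] at this
    exact this
  have C3 : ∀ l ≤ 3, Λ l + Sl l * U + (A' - 1) * U - 4 * (y * U) ≤ gc 3 l ∧
      (gc 3 l : ℝ) ≤ Λ l + Sl l * U + (A' - 1) * U + 4 * (y * U) := fun l hl => by
    have := h.gd 3 (by norm_num) l hl
    rw [v3, mul_one] at this
    exact this
  -- positivity
  have lo0 : ∀ l ≤ 3, U ≤ Λ l + Sl l * v 0 * U := fun l hl => by
    have h1 := h.lo 0 (by norm_num) l hl
    linarith only [hX1, hX', hyU, hXR, U64, h1]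
  have lo2 : ∀ l ≤ 3, U ≤ Λ l := fun l hl => by
    have h1 := lo0 l hl
    have h2 : 0 ≤ Sl l * (-v 0) * U := by
      have := hsl l hl
      have : 0 ≤ -v 0 := by linarith only [F41, F52]
      positivity
    linarith only [h1, h2]
  have slU : ∀ l ≤ 3, U ≤ Sl l * U := fun l hl => by
    have := mul_le_mul_of_nonneg_right (hsl l hl) hU.le
    linarith only [this]
  have pos : ∀ k ≤ 5, ∀ l ≤ 3, U ≤ Λ l + Sl l * v k * U := fun k hk l hl => by
    have h1 := h.lo k hk l hl
    have h2 : v 0 ≤ v k := by
      have : k = 0 ∨ k = 1 ∨ k = 2 ∨ k = 3 ∨ k = 4 ∨ k = 5 := by omega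
      rcases this with rfl | rfl | rfl | rfl | rfl | rfl
      · exact le_rfl
      · exact F52
      · rw [v2]; linarith only [F41, F52]
      · rw [v3]; linarith only [F41, F52]
      · linarith only [F52, T1]
      · linarith only [F52, T1, T2]
    have h3 := mul_le_mul_of_nonneg_right h2 hU.le
    linarith only [hX1, hX', hyU, hXR, U64, h1, h3]
  have vA : ∀ k ≤ 5, v k ≤ A' - 1 := fun k hk => by
    have : k = 0 ∨ k = 1 ∨ k = 2 ∨ k = 3 ∨ k = 4 ∨ k = 5 := by omega
    rcases this with rfl | rfl | rfl | rfl | rfl | rfl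
    · linarith only [F43, F51]
    · linarith only [F41, F43]
    · rw [v2]; linarith only [F43]
    · rw [v3]; linarith only [F43]
    · linarith only [T2, T3]
    · linarith only [T3]
  have vAU : ∀ k ≤ 5, U ≤ (A' - v k) * U := fun k hk => by
    have := mul_le_mul_of_nonneg_right (vA k hk) hU.le
    linarith only [this]
  have gcp : ∀ k ≤ 5, ∀ l ≤ 3, U ≤ gc k l := fun k hk l hl => by
    have h1 := (h.gd k hk l hl).1
    have h2 := pos k hk l hl
    have h3 := vAU k hk
    linarith only [hX1, hX', hyU, hXR, h1, h2, h3]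
  have ppp : ∀ k ≤ 5, U ≤ pp k := fun k hk => by
    have h1 := h.pa k hk
    have h2 := pos k hk 3 le_rfl
    have h3 := vAU k hk
    linarith only [hX1, hX', hyU, hXR, h1, h2, h3]
  -- the letters
  obtain ⟨g', hg'⟩ : ∃ g' : ℕ → ℕ, g' = fun l => if l = 1 then g₀ 3 1 else
      gT 2 l - (A - w 3) := ⟨_, rfl⟩
  have g'1 : g' 1 = g₀ 3 1 := by rw [hg']; simp
  have hsub : ∀ l < 3, l ≠ 1 → A - w 3 ≤ gT 2 l := fun l hl hne => by
    rw [gTr 2 (by norm_num) l hl hne]
    refine nat_le_of_real ?_
    rw [hA 3 (by norm_num)]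
    have h1 := (C2 l hl.le).1
    have h2 := lo2 l hl.le
    linarith only [hX1, hX', hyU, hXR, W3, A2, h1, h2]
  have g'r : ∀ l < 3, l ≠ 1 → g' l + (A - w 3) = gT 2 l := fun l hl hne => by
    have h1 := hsub l hl hne
    rw [hg']
    simp only [hne, if_false]
    omega
  have g'R : ∀ l < 3, l ≠ 1 → Λ l + U - 5 * (y * U) ≤ g' l ∧
      (g' l : ℝ) ≤ Λ l + U + 5 * (y * U) := fun l hl hne => by
    have h1 : (g' l : ℝ) + ((A - w 3 : ℕ) : ℝ) = gT 2 l := by exact_mod_cast g'r l hl hne
    rw [hA 3 (by norm_num), gTr 2 (by norm_num) l hl hne] at h1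
    have h2 := C2 l hl.le
    constructor <;> linarith only [hyU, W3, A2, h1, h2, A1]
  obtain ⟨p, hp⟩ : ∃ p, p = g₀ 3 3 + (A - w 3) - 5 * cl := ⟨_, rfl⟩
  have hpc : 5 * cl ≤ g₀ 3 3 + (A - w 3) := by
    refine nat_le_of_real ?_
    push_cast
    rw [hA 3 (by norm_num)]
    have h1 := (G3 3 le_rfl).1
    have h2 := lo2 3 le_rfl
    have h3 := slU 3 le_rfl
    linarith only [hX1, hX', hyU, hXR, c1, U43, W3, A1, h1, h2, h3]
  have hpe : p + 5 * cl = g₀ 3 3 + (A - w 3) := by omega
  have hpR : (p : ℝ) + 5 * cl = g₀ 3 3 + (A - w 3) := by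
    have : ((p + 5 * cl : ℕ) : ℝ) = ((g₀ 3 3 + (A - w 3) : ℕ) : ℝ) := by rw [hpe]
    push_cast at this
    rw [hA 3 (by norm_num)] at this
    exact this
  have G33 := G3 3 le_rfl
  rw [s3] at G33
  obtain ⟨xr, hxr⟩ : ∃ xr : ℝ, xr = (b - 1) * (1 - v 1) * U + 10 * (y * U) := ⟨_, rfl⟩
  have hxr0 : 0 ≤ (b - 1) * (1 - v 1) * U := by
    have : 0 ≤ (b - 1) := by linarith only [hb]
    have : 0 ≤ 1 - v 1 := by linarith only [F41]
    positivity
  obtain ⟨x, hx⟩ : ∃ x : ℕ, x = ⌈xr⌉₊ := ⟨_, rfl⟩
  have hx1 : xr ≤ x := by rw [hx]; exact Nat.le_ceil _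
  have hx2 : (x : ℝ) ≤ xr + 1 := by
    rw [hx]
    exact (Nat.ceil_lt_add_one (by rw [hxr]; linarith only [hyU, hxr0])).le
  obtain ⟨d, hd⟩ : ∃ d : ℕ, d = ⌈(s - 1) * U + 10 * (y * U)⌉₊ := ⟨_, rfl⟩
  have hs1U : 0 ≤ (s - 1) * U := pr (by linarith only [hs])
  have hd1 : (s - 1) * U + 10 * (y * U) ≤ d := by rw [hd]; exact Nat.le_ceil _
  have hd2 : (d : ℝ) ≤ (s - 1) * U + 10 * (y * U) + 1 := by
    rw [hd]
    exact (Nat.ceil_lt_add_one (by linarith only [hyU, hs1U])).le
  obtain ⟨f, hf⟩ : ∃ f : ℕ, f = ⌊-v 0 * U⌋₊ := ⟨_, rfl⟩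
  have hf1 : (f : ℝ) ≤ -v 0 * U := by
    rw [hf]
    exact Nat.floor_le (pr (by linarith only [F41, F52]))
  have hf2 : -v 0 * U - 1 ≤ f := by
    rw [hf]
    have := Nat.lt_floor_add_one (-v 0 * U)
    linarith only [this]
  have heM : ((max (e 2) (e 3) : ℕ) : ℝ) ≤ Ee + y * U := by
    rcases max_choice (e 2) (e 3) with h1 | h1
    · rw [h1]
      exact h.ee 2 (by norm_num)
    · rw [h1]
      exact h.ee 3 (by norm_num)
  have ro := h.ro
  have e1' := h.ee 1 (by norm_num)
  have G30 := G3 0 (by norm_num)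
  have G31 := G3 1 (by norm_num)
  have G32 := G3 2 (by norm_num)
  rw [s0] at G30
  rw [s1] at G31
  rw [s2] at G32
  have g'0 := g'R 0 (by norm_num) (by norm_num)
  have g'2 := g'R 2 (by norm_num) (by norm_num)
  have hroomg : ∀ l ≤ 3, ∀ t : ℝ, t ≤ K → Λ l + Sl l * t * U + Ee + 3 * K * U ≤
      J + y * U := fun l hl t ht => by
    have h1 := ro l hl
    have h2 : 0 ≤ Sl l * (K - t) * U := by
      have := hsl l hl
      have : 0 ≤ K - t := by linarith only [ht]
      positivity
    linarith only [h1, h2]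
  -- the second ball
  obtain ⟨dd, hdd⟩ : ∃ dd : ℕ, dd = ⌈(s - 1) * U⌉₊ := ⟨_, rfl⟩
  have hdd1 : (s - 1) * U ≤ dd := by rw [hdd]; exact Nat.le_ceil _
  have hdd2 : (dd : ℝ) ≤ (s - 1) * U + 1 := by
    rw [hdd]
    exact (Nat.ceil_lt_add_one hs1U).le
  obtain ⟨ff, hff⟩ : ∃ ff : ℕ, ff = ⌈(s - 1) * (v 5 - v 4) * U + 8 * (y * U)⌉₊ := ⟨_, rfl⟩
  have hffp : (s - 1) * U ≤ (s - 1) * (v 5 - v 4) * U := by
    have h1 : (s - 1) * U * 1 ≤ (s - 1) * U * (v 5 - v 4) :=
      mul_le_mul_of_nonneg_left (by linarith only [T2]) hs1U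
    linarith only [h1]
  have hff1 : (s - 1) * (v 5 - v 4) * U + 8 * (y * U) ≤ ff := by rw [hff]; exact Nat.le_ceil _
  have hff2 : (ff : ℝ) ≤ (s - 1) * (v 5 - v 4) * U + 8 * (y * U) + 1 := by
    rw [hff]
    exact (Nat.ceil_lt_add_one (by linarith only [hyU, hs1U, hffp])).le
  have hdf : dd ≤ ff := nat_le_of_real (by linarith only [hyU, hdd2, hffp, hff1])
  obtain ⟨f₂, hf₂⟩ : ∃ f₂, f₂ = ff - dd := ⟨_, rfl⟩
  have hf2e : f₂ + dd = ff := by omega
  have G5 : ∀ l ≤ 3, Λ l + Sl l * v 5 * U - 2 * (y * U) ≤ g₀ 5 l ∧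
      (g₀ 5 l : ℝ) ≤ Λ l + Sl l * v 5 * U + 2 * (y * U) := fun l hl => h.ga 5 (by norm_num) l hl
  have G50 := G5 0 (by norm_num)
  have G51 := G5 1 (by norm_num)
  have G52 := G5 2 (by norm_num)
  have G53 := G5 3 le_rfl
  rw [s0] at G50
  rw [s1] at G51
  rw [s2] at G52
  rw [s3] at G53
  obtain ⟨p₂, hp₂⟩ : ∃ p₂, p₂ = g₀ 5 3 + (A - w 5) - 5 * cl := ⟨_, rfl⟩
  have hpc2 : 5 * cl ≤ g₀ 5 3 + (A - w 5) := by
    refine nat_le_of_real ?_
    push_cast
    rw [hA 5 (by norm_num)]
    have h2 := pos 5 le_rfl 3 le_rfl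
    have h3 := vAU 5 le_rfl
    rw [s3] at h2
    linarith only [hX1, hX', hyU, hXR, c1, V3, W5, A1]
  have hpe2 : p₂ + 5 * cl = g₀ 5 3 + (A - w 5) := by omega
  have hpR2 : (p₂ : ℝ) + 5 * cl = g₀ 5 3 + (A - w 5) := by
    have : ((p₂ + 5 * cl : ℕ) : ℝ) = ((g₀ 5 3 + (A - w 5) : ℕ) : ℝ) := by rw [hpe2]
    push_cast at this
    rw [hA 5 (by norm_num)] at this
    exact this
  have h54 : ((w 5 - w 4 : ℕ) : ℝ) = w 5 - w 4 := by rw [Nat.cast_sub m45]
  have h41 : ((w 4 - w 1 : ℕ) : ℝ) = w 4 - w 1 := by rw [Nat.cast_sub m14]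
  refine ⟨g', p, x, d, f, ?_, ?_, ?_, ?_, f₂, dd, p₂, ?_, ?_, ?_, ?_⟩
  · exact
      { h0 := by norm_num
        h1 := by norm_num
        h2 := by norm_num
        h3 := by norm_num
        w0 := m02
        w1 := m12
        w2 := m23
        jz := ⟨0, Nat.zero_le _, hz⟩
        one := fun l hl hsl x hx => by
          have h1 := (hSc l hl).1 hsl
          exact hr x (by omega) (by omega)
        pos := fun k hk => ⟨fun l hl => nat_le_of_real (by
          push_cast
          by_cases hl1 : l = 1
          · subst hl1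
            have h1 := (gTs k hk).1
            have h2 := lo2 1 (by norm_num)
            linarith only [hX1, hX', hyU, hXR, c1, U43, h1, h2]
          · rw [gTr k hk l hl hl1]
            have h1 := gcp k hk l hl.le
            linarith only [hX1, hX', hyU, hXR, c1, h1]), fun l hl => nat_le_of_real (by
          push_cast
          have h1 := gcp k hk l hl
          linarith only [hX1, hX', hyU, hXR, c1, h1]), nat_le_of_real (by
          have h1 := ppp k hk
          linarith only [hX1, hX', hyU, hXR, c1, h1])⟩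
        mo0 := fun l hl => nat_le_of_real (by
          push_cast
          by_cases hl1 : l = 1
          · subst hl1
            have h1 := (gTs 0 (by norm_num)).2
            have h2 := (gTs 2 (by norm_num)).1
            linarith only [hX1, hyU, hXR, h1, h2]
          · rw [gTr 0 (by norm_num) l hl hl1, gTr 2 (by norm_num) l hl hl1]
            have h1 := (h.gd 0 (by norm_num) l hl.le).2
            have h2 := (C2 l hl.le).1
            have h3 : 0 ≤ (Sl l - 1) * (-v 0) * U := by
              have := hsl l hl.le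
              have : 0 ≤ Sl l - 1 := by linarith only [this]
              have : 0 ≤ -v 0 := by linarith only [F41, F52]
              positivity
            linarith only [hX1, hyU, hXR, h1, h2, h3])
        mo1 := fun l hl => nat_le_of_real (by
          push_cast
          by_cases hl1 : l = 1
          · subst hl1
            have h1 := (gTs 1 (by norm_num)).2
            have h2 := (gTs 2 (by norm_num)).1
            linarith only [hX1, hyU, hXR, h1, h2]
          · rw [gTr 1 (by norm_num) l hl hl1, gTr 2 (by norm_num) l hl hl1]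
            have h1 := (h.gd 1 (by norm_num) l hl.le).2
            have h2 := (C2 l hl.le).1
            have h3 : 0 ≤ (Sl l - 1) * (-v 1) * U := by
              have := hsl l hl.le
              have : 0 ≤ Sl l - 1 := by linarith only [this]
              have : 0 ≤ -v 1 := by linarith only [F41]
              positivity
            linarith only [hX1, hyU, hXR, h1, h2, h3])
        st2 := fun l hl hsc => nat_le_of_real (by
          rw [(hSc l hl).1 hsc]
          push_cast
          have h1 := (gTs 2 (by norm_num)).2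
          have h2 := (gTs 0 (by norm_num)).1
          linarith only [hX1, hyU, hXR, h1, h2])
        st3 := fun l hl hsc => nat_le_of_real (by
          rw [(hSc l hl).1 hsc]
          push_cast
          have h1 := (gTs 3 (by norm_num)).2
          have h2 := (gTs 0 (by norm_num)).1
          linarith only [hX1, hyU, hXR, h1, h2])
        stK := fun l hl hsc => nat_le_of_real (by
          rw [(hSc l hl).1 hsc]
          push_cast
          rw [hA 3 (by norm_num)]
          have h2 := (gTs 0 (by norm_num)).1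
          linarith only [hX1, hX', hyU, hXR, U43, W3, A2, G31, h2])
        gr := fun k hk l hl hsc => nat_le_of_real (by
          rw [(hSc l hl).1 hsc]
          push_cast
          have h1 := (h.gd k hk 1 (by norm_num)).2
          rw [s1] at h1
          have h2 := (gTs k hk).1
          have h3 := vAU k hk
          linarith only [hX1, hX', hyU, hXR, h1, h2, h3])
        sp := fun l hl hsc => by
          rw [(hSc l hl).1 hsc]
          exact g'1
        rT := fun l hl hsc => (g'r l hl (fun h1 => hsc ((hSc l hl).2 h1))).symm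
        up := fun l hl => nat_le_of_real (by
          push_cast
          rw [h23]
          have h1 := (G2 l hl).2
          have h2 := (G3 l hl).1
          have h3 := slU l hl
          linarith only [hX1, hyU, hXR, W2, W3, h1, h2, h3])
        hh := fun l hl hsc x hx hxc => nat_le_of_real (by
          have h1 : l ≠ 1 := fun h1 => hsc ((hSc l hl).2 h1)
          have h2 : x ≠ 1 := fun h1 => hxc ((hSc x (by omega)).2 h1)
          have h3 : x = 0 := by omega
          rw [h3]
          push_cast
          linarith only [hX1, hyU, hXR, G30, g'0])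
        vp := nat_le_of_real (by
          push_cast
          rw [hA 3 (by norm_num)]
          linarith only [hX1, hyU, hXR, c1, hpR])
        pq := nat_le_of_real (by
          push_cast
          have h1 := h.pa 1 (by norm_num)
          rw [s3] at h1
          linarith only [hX1, hX', hyU, hXR, c2, U3, W3, A2, hpR, G33, h1])
        pc := by
          have h1 := h.ng 3 (by norm_num) 3 le_rfl
          omega
        px := nat_le_of_real (by
          push_cast
          have h1 := (h.gd 1 (by norm_num) 3 le_rfl).1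
          rw [s3] at h1
          linarith only [hyU, c2, W3, A2, hpR, G33, hxr, hx1, h1])
        r0 := nat_le_of_real (by
          push_cast
          have h1 := hroomg 0 (by norm_num) 0 (by linarith only [F41, F52, F64])
          have h2 := lo2 0 (by norm_num)
          have h3 : (0 : ℝ) ≤ e 1 := Nat.cast_nonneg _
          linarith only [hX1, hX', hyU, hXR, c1, U3, U43, U51, U52, U64, hxr, hx2, heM, h1, h2])
        r1 := fun l hl => nat_le_of_real (by
          push_cast
          by_cases hl1 : l = 1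
          · subst hl1
            have h1 := (gTs 1 (by norm_num)).2
            have h2 := hroomg 1 (by norm_num) A' F62
            rw [s1] at h2
            linarith only [hX1, hX', hyU, hXR, c1, U3, U43, U51, U52, U64, hxr, hx2, e1', h1, h2]
          · rw [gTr 1 (by norm_num) l hl hl1]
            have h1 := (h.gd 1 (by norm_num) l hl.le).2
            have h2 := hroomg l hl.le (v 1) (by linarith only [F41, F52, F64])
            linarith only [hX1, hX', hyU, hXR, c1, U3, U51, U52, U61, U64, hxr, hx2, e1', h1, h2])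
        r2 := fun l hl => nat_le_of_real (by
          push_cast
          have h1 := (h.gd 1 (by norm_num) l hl.le).2
          have h2 := hroomg l hl.le (v 1) (by linarith only [F41, F52, F64])
          linarith only [hX1, hX', hyU, hXR, c1, U3, U51, U52, U61, U64, hxr, hx2, e1', h1, h2])
        r3 := nat_le_of_real (by
          push_cast
          have h1 := (h.gd 1 (by norm_num) 3 le_rfl).2
          have h2 := hroomg 3 le_rfl (v 1) (by linarith only [F41, F52, F64])
          linarith only [hX1, hX', hyU, hXR, c1, U61, hxr, hx2, e1', h1, h2]) }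
  · intro l hl
    have : l = 0 ∨ l = 1 ∨ l = 2 := by omega
    rcases this with rfl | rfl | rfl
    · refine nat_le_of_real ?_
      push_cast
      linarith only [hyU, hs1U, hd1, G30, g'0]
    · rw [g'1]
      omega
    · refine nat_le_of_real ?_
      push_cast
      linarith only [hyU, hd1, G32, g'2]
  · exact
      { st := nat_le_of_real (by
          push_cast
          rw [hA 0 (by norm_num)]
          have h1 := (h.ga 0 (by norm_num) 1 (by norm_num)).2
          rw [s1] at h1
          have h2 := (gTs 0 (by norm_num)).1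
          have h3 := vAU 0 (by norm_num)
          linarith only [hX1, hX', hyU, hXR, U43, U51, W0, A2, h1, h2])
        K1 := ha₁
        l0 := nat_le_of_real (by
          push_cast
          rw [hA 3 (by norm_num)]
          have h2 := (gTs 0 (by norm_num)).1
          linarith only [hX1, hX', hQ, hyU, hXR, U43, W3, A2, G31, h2])
        l3 := nat_le_of_real (by
          push_cast
          rw [hA 3 (by norm_num)]
          have h2 := (gTs 3 (by norm_num)).1
          linarith only [hX1, hX', hQ, hyU, hXR, U43, W3, A2, G31, h2])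
        g0 := nat_le_of_real (by
          have h1 := lo2 0 (by norm_num)
          linarith only [hX1, hX', hQ, hyU, hXR, G30, h1])
        rm := fun l hl => nat_le_of_real (by
          push_cast
          have h1 := (G3 l (by omega)).2
          have h2 := hroomg l (by omega) 1 (by linarith only [F41, F52, F64])
          have h3 := h.ee 3 (by norm_num)
          linarith only [hX1, hX', hQ, hyU, hXR, U43, U51, U64, h1, h2, h3])
        ef := nat_le_of_real (by
          push_cast
          have h3 := h.ee 3 (by norm_num)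
          linarith only [hX1, hX', hQ, he₁, hyU, hXR, U43, U51, U64, h3])
        f0 := nat_le_of_real (by
          have h1 : (w 3 : ℝ) ≤ a₁ := by exact_mod_cast ha₁
          push_cast
          linarith only [hX1, hb0, hyU, G30, h1])
        f1 := nat_le_of_real (by
          have h1 : (w 3 : ℝ) ≤ a₁ := by exact_mod_cast ha₁
          push_cast
          linarith only [hX1, hb1, hyU, G31, h1])
        g1 := nat_le_of_real (by
          push_cast
          linarith only [hX1, hyU, G30, g'0])
        va := nat_le_of_real (by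
          push_cast
          rw [h20]
          have h1 := (h.ga 0 (by norm_num) 0 (by norm_num)).2
          have h2 := (h.ga 0 (by norm_num) 1 (by norm_num)).1
          rw [s0] at h1
          rw [s1] at h2
          linarith only [hX1, hyU, W0, W2, W3, hf1, G30, G31, h1, h2]) }
  · have k1 : (w 3 : ℝ) ≤ at' := by exact_mod_cast hat
    exact
      { K1 := hat
        t1 := hwt
        f1 := nat_le_of_real (by linarith only [hX1, hX', hQ', hyU, hXR, U43, U51, hf2])
        f2 := nat_le_of_real (by
          push_cast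
          have h1 := (gTs 2 (by norm_num)).2
          linarith only [hX1, hX', hyU, hXR, c1, U51, W3, A1, hpR, hf2, G31, h1])
        n1 := nat_le_of_real (by
          push_cast at heM ⊢
          linarith only [hX1, hX', hQ', heb, hyU, hXR, U63, hd2, heM])
        n2 := fun l hl => nat_le_of_real (by
          have h2 := hroomg l hl.le 1 (by linarith only [F41, F52, F64])
          by_cases hl1 : l = 1
          · subst hl1
            rw [g'1]
            push_cast at heM ⊢
            rw [s1] at h2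
            linarith only [hX1, hX', hQ', hyU, hXR, U63, hd2, G31, h2, heM]
          · have h1 := (g'R l hl hl1).2
            have h3 := slU l hl.le
            push_cast at heM ⊢
            linarith only [hX1, hX', hQ', hyU, hXR, U63, hd2, h2, h1, h3, heM])
        n3 := nat_le_of_real (by
          have h2 := hroomg 3 le_rfl 1 (by linarith only [F41, F52, F64])
          rw [s3] at h2
          push_cast at heM ⊢
          linarith only [hX1, hX', hQ', hyU, hXR, U63, G33, hd2, h2, heM])
        n4 := fun l hl => nat_le_of_real (by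
          have h3 := lo2 l hl.le
          by_cases hl1 : l = 1
          · subst hl1
            rw [g'1]
            linarith only [hX1, hX', hQ', hyU, hXR, G31, h3]
          · have h1 := (g'R l hl hl1).1
            linarith only [hX1, hX', hQ', hyU, hXR, h3, h1])
        n5 := nat_le_of_real (by
          have h3 := lo2 3 le_rfl
          have : 0 ≤ b * U := pr (by linarith only [hb])
          linarith only [hX1, hX', hQ', hyU, hXR, G33, h3, this])
        n6 := nat_le_of_real (by
          push_cast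
          linarith only [hbt, hyU, G33, k1]) }
  · exact
      { iN := by norm_num
        i1N := by norm_num
        tN := by norm_num
        kN := by norm_num
        it := m04
        i1t := m14
        tk := m45
        cT := fun l hl => by
          have q : ∀ k ≤ 5, cl ≤ gT k l := fun k hk => nat_le_of_real (by
            by_cases hl1 : l = 1
            · subst hl1
              have h1 := (gTs k hk).1
              have h2 := lo2 1 (by norm_num)
              linarith only [hX1, hX', hyU, hXR, c1, U43, h1, h2]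
            · rw [gTr k hk l hl hl1]
              have h1 := gcp k hk l hl.le
              linarith only [hX1, hX', hyU, hXR, c1, h1])
          exact ⟨q 0 (by norm_num), q 4 (by norm_num), q 5 (by norm_num), nat_le_of_real (by
            have h1 := gcp 5 le_rfl l hl.le
            linarith only [hX1, hX', hyU, hXR, c1, h1])⟩
        pk := nat_le_of_real (by
          have h1 := ppp 5 le_rfl
          linarith only [hX1, hX', hyU, hXR, c1, h1])
        ck := nat_le_of_real (by
          have h1 := gcp 5 le_rfl 3 le_rfl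
          linarith only [hX1, hX', hyU, hXR, c1, h1])
        m1 := nat_le_of_real (by
          push_cast
          have h1 := (gTs 5 le_rfl).2
          have h2 := (gTs 0 (by norm_num)).1
          linarith only [hX2, hyU, h1, h2])
        lb := nat_le_of_real (by
          push_cast
          rw [hA 5 (by norm_num)]
          have h2 := (gTs 5 le_rfl).1
          linarith only [hX1, hX', hX2, hyU, hXR, V3, W5, A2, G51, h2])
        P1 := nat_le_of_real (by
          push_cast
          have h1 := h.pa 1 (by norm_num)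
          rw [s3] at h1
          linarith only [hX1, hX', hyU, hXR, c2, V4, W5, A2, G53, hpR2, h1])
        P2 := by
          have h1 := h.ng 5 le_rfl 3 le_rfl
          omega
        vp := nat_le_of_real (by
          push_cast
          rw [hA 5 (by norm_num)]
          linarith only [hX2, hyU, c1, hpR2])
        mj := nat_le_of_real (by
          push_cast
          rw [h54]
          have h1 := (h.ga 4 (by norm_num) 2 (by norm_num)).2
          rw [s2] at h1
          linarith only [hX2, hyU, W4, W5, hs1U, hffp, G52, h1])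
        fz := by
          rw [hf2e]
          exact nat_le_of_real (by
            push_cast
            rw [h54]
            have h1 := (h.ga 4 (by norm_num) 2 (by norm_num)).1
            rw [s2] at h1
            linarith only [hX2, hyU, W4, W5, hff1, G52, h1]) }
  · rw [hf2e]
    exact nat_le_of_real (by
      push_cast
      rw [h41]
      linarith only [hX1, hX', hQ2, hyU, hXR, V5, W1, W4, hff2])
  · exact nat_le_of_real (by
      push_cast
      linarith only [hX1, hyU, hXR, U1, W3, W5, G33, g'2, hdd1, G52, G53])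
  · have k1 : (w 5 : ℝ) ≤ at₂ := by exact_mod_cast hat2
    have e5 := h.ee 5 le_rfl
    exact
      { K1 := hat2
        t1 := hwt2
        n1 := nat_le_of_real (by
          push_cast
          linarith only [hX1, hX', hQ3, heb2, hyU, hXR, U43, U51, U64, e5])
        n2 := fun l hl => nat_le_of_real (by
          have h1 := (G5 l (by omega)).2
          have h2 := hroomg l (by omega) (v 5) (by linarith only [F51, F64, T3])
          push_cast
          linarith only [hX1, hX', hQ3, hyU, hXR, U43, U51, U64, e5, h1, h2])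
        n4 := fun l hl => nat_le_of_real (by
          have h1 := (G5 l (by omega)).1
          have h3 := pos 5 le_rfl l (by omega)
          linarith only [hX1, hX', hQ3, hyU, hXR, h1, h3])
        n5 := nat_le_of_real (by
          have h3 := h.lo 5 le_rfl 2 (by norm_num)
          rw [s2] at h3
          push_cast
          linarith only [hX1, hX', hQ3, hyU, hXR, U52, U64, V2, V5, hdd2, hffp, G52, h3])
        n6 := nat_le_of_real (by
          push_cast
          linarith only [hbt2, hyU, hdd2, G52, k1]) }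

end Pool.TNW
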