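import Pool.Agent.H42.D2.Npc

/-!
# The rows over the near heights of a chain, the value as a hypothesis

`ChV`: two windows with a nested chain; the digits of the heights are only a little behind the natural
ones of the later window. `ValP`: the own height over the labels of a family is few bits given these
heights. `row_npv`: the rows of the own height given the exact point of the chain are rows given the
heights of the chain.
-/

set_option autoImplicit false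

namespace Pool.NPZ

open Finset Real MvPolynomial
open Pool.Agent.H49.Ent Pool.Agent.H32.Dense Pool.STK Pool.KA Pool.KSAT Pool.K2S Pool.PB Pool.GEN
open Pool.S6C Pool.RCD Pool.LA91 Pool.OWN68 Pool.CHT Pool.AJW
open Pool.GRD (LbP)
open Pool.UNJ (ceI Tub)
open Pool.ALT (DpI)
open Pool.AJX (LbX)

/-- **Two windows** with a nested chain, the digits `n`; the digits of the last place are only the natural
ones of the window `w`. -/
structure ChV {m : ℕ} (S : PCl m) (c : ℕ → Fin m) (r₀ r : ℕ) (v w lam ρ g₀ : ℝ)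
    (E p s n lv rd : ℕ → ℝ) : Prop where
  hr : r₀ ≤ r
  r1 : 1 ≤ r
  v0 : 0 ≤ v
  vw : v ≤ w
  ρ0 : 0 < ρ
  g0 : 0 < g₀
  wl : w < v + lam
  l1 : v + lam < 1
  E0 : ∀ i, r₀ ≤ i → i < r → 0 ≤ E i ∧ E i ≤ 1
  chn : ∃ (u₁ : ℝ) (rw : ℕ → ℝ), Chn S c r₀ r w w u₁ s rw
  rd0 : ∀ i, r₀ ≤ i → i < r → 0 ≤ rd i ∧ rd i + g₀ ≤ 1
  n1 : ∀ i, r₀ ≤ i → i < r → n i + E i + g₀ ≤ 1
  lv0 : ∀ i, r₀ ≤ i → i < r → 0 < lv i
  nn : ∀ i, r₀ ≤ i → i < r → s i - ρ ≤ n i
  dig : ∀ i, r₀ ≤ i → i + 1 < r → s i + lv i + ρ ≤ n i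
  nst : ∀ i, r₀ ≤ i → i < r → ∀ l, r₀ ≤ l → l < i → s i + lv i + ρ ≤ min (p i) (s i) + lv l
  bas : ∀ i, r₀ ≤ i → i < r → s i + lv i + ρ ≤ min (p i) (s i) + (v + lam - w)

variable {m : ℕ} {S : PCl m} {C₀ : ℝ}

theorem ChJ.toV {c : ℕ → Fin m} {r₀ r : ℕ} {v w lam q ρ g₀ : ℝ} {E p s n lv rd : ℕ → ℝ}
    (H : ChJ S c r₀ r v w lam q ρ g₀ E p s n lv rd) :
    ChV S c r₀ r v w lam ρ g₀ E p s n lv rd where
  hr := H.hr
  r1 := H.r1
  v0 := H.v0
  vw := H.vw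
  ρ0 := H.ρ0
  g0 := H.g0
  wl := by linarith [H.topb, H.q0, H.ρ0]
  l1 := H.l1
  E0 := H.E0
  chn := H.chn
  rd0 := H.rd0
  n1 := H.n1
  lv0 := H.lv0
  nn := fun i a b => by linarith [H.dig i a b, H.lv0 i a b, H.ρ0]
  dig := fun i a b => H.dig i a (by omega)
  nst := H.nst
  bas := H.bas

theorem ChV.sub {S' : PCl m} (hs : ∀ (τ : ℝ) (J : ℕ) (F : Fam m J) (A : F.Ω → Prop),
    S'.St τ J F A → S.St τ J F A) {c : ℕ → Fin m} {r₀ r : ℕ} {v w lam ρ g₀ : ℝ}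
    {E p s n lv rd : ℕ → ℝ} (H : ChV S c r₀ r v w lam ρ g₀ E p s n lv rd) :
    ChV S' c r₀ r v w lam ρ g₀ E p s n lv rd := by
  obtain ⟨u₁, rw, h⟩ := H.chn
  exact { H with chn := ⟨u₁, rw, h.sub hs⟩ }

/-- **The own heights of the chain** to their natural digits. -/
theorem hts_npv (htm : TmC S C₀) {c : ℕ → Fin m} {r₀ r : ℕ} {v w lam ρ g₀ : ℝ}
    {E p s n lv rd : ℕ → ℝ} (H : ChV S c r₀ r v w lam ρ g₀ E p s n lv rd) {δ₂ : ℝ}
    (hδ₂ : 0 < δ₂) {i : ℕ} (hi0 : r₀ ≤ i) (hi : i < r) :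
    F1 S (fun J F => ptr F J) (vg w) (fun J (F : Fam m J) ω =>
        (bI ((range r₀).image c) (v + lam) J F ω, F.W ω))
      (qJets m c r₀ i 0 (fun _ _ => v) (fun l _ => p l) (fun l _ => n l))
      (qJet m ((range i).image c) (c i) 0 v (p i) (s i - ρ)) (ρ / 8) δ₂ := by
  obtain ⟨u₁, rw, hch⟩ := H.chn
  have hρ := H.ρ0
  have hw0 : 0 ≤ w := H.v0.trans H.vw
  have hw1 : w < 1 := hch.u0
  have hwp : w < v + lam := H.wl
  have hy0 : Kn0 ((range r₀).image c) (v + lam) (fun J (F : Fam m J) ω =>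
      (bI ((range r₀).image c) (v + lam) J F ω, F.W ω)) :=
    kn0_bI ((range r₀).image c) (v + lam)
  have hcht : Chn S c r₀ i w w u₁ s rw := hch.take hi0 hi.le
  have a1 : F1 S (fun J F => ptr F J) (vg w) (fun J (F : Fam m J) ω =>
      (bI ((range r₀).image c) (v + lam) J F ω, F.W ω))
      (qJets m c r₀ i 0 (fun _ _ => v) (fun l _ => p l) (fun l _ => n l))
      (qJet m ((range i).image c) (c i) 0 w (s i) (s i - ρ)) (ρ / 8) (δ₂ / 2) :=
    F1.of0 htm ((few0_room htm hw0 hw1 hρ (by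
      rw [Nat.cast_zero, zero_mul, add_zero]
      linarith) _ _ _ (by linarith)).mono (by linarith) le_rfl)
  have a2 : F1 S (fun J F => ptr F J) (vg w) (fun J (F : Fam m J) ω =>
      (bI ((range r₀).image c) (v + lam) J F ω, F.W ω))
      ((qJets m c r₀ i 0 (fun _ _ => v) (fun l _ => p l) (fun l _ => n l)).prod
        (qJet m ((range i).image c) (c i) 0 w (s i) (s i - ρ)))
      (qJet m ((range i).image c) (c i) 0 v (p i) (s i - ρ)) (ρ / 8) (δ₂ / 2) := by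
    refine hgt_F1 htm hcht (lv := lv) (p₀ := v + lam) (σ₀ := ρ)
      (wv := fun _ _ => v) (pv := fun l _ => p l) (Nv := fun l _ => n l)
      (fun _ _ _ _ _ => H.vw) le_rfl H.vw hwp H.l1.le hρ (fun l a b => H.lv0 l a (by omega))
      (fun l a b => H.dig l a (by omega)) (fun l a b => H.bas l a (by omega))
      (fun l a b l' a' b' => H.nst l a (by omega) l' a' b') le_rfl ?_ ?_
      (fun J F => ⟨fun x => x, fun _ => rfl⟩) hy0 (by linarith)
    · have h2 := H.bas i hi0 hi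
      have h3 := H.lv0 i hi0 hi
      rw [min_comm] at h2
      linarith
    · intro l hl0 hl
      have h2 := H.nst i hi0 hi l hl0 hl
      have h3 := H.lv0 i hi0 hi
      rw [min_comm] at h2
      linarith
  have hex : Exs S (qJet m ((range i).image c) (c i) 0 w (s i) (s i - ρ)) := by
    have h2 := hch.att i hi0 hi
    intro e he
    obtain ⟨K', hK'⟩ := exs_jet (j := 0) (N := s i - ρ) (le_max_right (rw i) 0)
      (att_radius h2 (le_max_left (rw i) 0)) e he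
    exact ⟨K', hK'⟩
  have a3 := F1.cut htm hex (by linarith) a1 a2
  have e5 : δ₂ / 2 + δ₂ / 2 = δ₂ := by ring
  rwa [e5] at a3

/-- **The labels of the family** are labels of the chain, closed. -/
def NpL (Θ : Fm4 m) (c : ℕ → Fin m) (r₀ r : ℕ) (K : ℕ) (v e : ℝ) (E rd p : ℕ → ℝ) : Prop :=
  ∀ (J : ℕ) (F : Fam m J) (A : F.Ω → Prop) (V : Type) (z : PtT F → V) (z' : LnT F → V)
    (G : V → MvPolynomial (Option (Fin m)) ℝ) (g : V → ℕ → MvPolynomial (Option (Fin m)) ℝ),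
    Θ J F A V z z' G g → LbX F c r₀ r K e E v rd p A z z' g ∧
      ∀ ω, A ω → z (ptr F J ω) = z' (slam F ⌊v * J⌋₊ ω)

/-- **The value**: the own height over the labels of the family, to `N` digits, is few bits given the
heights of the chain. -/
def ValP (S : PCl m) (Θ : Fm4 m) (c : ℕ → Fin m) (r₀ r : ℕ) (κ : Fin m) (v w N : ℝ) (n : ℕ → ℝ)
    {α γ : ∀ J : ℕ, Fam m J → Type} (f : ∀ (J : ℕ) (F : Fam m J), F.Ω → α J F)
    (y : ∀ (J : ℕ) (F : Fam m J), F.Ω → γ J F) : Prop :=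
  ∀ h : ℝ, 0 < h → Bas S (fun J F A => ∀ (V : Type) (z : PtT F → V) (z' : LnT F → V)
    (G : V → MvPolynomial (Option (Fin m)) ℝ) (g : V → ℕ → MvPolynomial (Option (Fin m)) ℝ),
    Θ J F A V z z' G g →
    ∃ (V₁ : Type) (z₁ : F.Ω → V₁), Cl2 (f J F) (vg w J F) A z₁ ∧
      CH (Pool.Agent.H49.Ent.cond F.p A True)
        (fun ω => ⌊(2 : ℝ) ^ (N * J) * ojet F κ 0 (G (z' (slam F ⌊v * J⌋₊ ω))) ω⌋)
        (fun ω => (hts F c r₀ r z' ⌊v * J⌋₊ g n ω, (z₁ ω, y J F ω))) ≤ h * J)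

/-- **The rows over the near heights of the chain.** -/
theorem row_npv (htm : TmC S C₀) {c : ℕ → Fin m} {r₀ r : ℕ} {v w lam ρ g₀ : ℝ}
    {E p s n lv rd : ℕ → ℝ} (H : ChV S c r₀ r v w lam ρ g₀ E p s n lv rd)
    {κ : Fin m} {K : ℕ} {e N sa : ℝ} (he : 0 < e) (he8 : e ≤ ρ / 8) (heg : e ≤ g₀ / 2)
    (hsa : sa ≤ N) {Θ : Fm4 m} (hΘ : NpL Θ c r₀ r K v e E rd p)
    (hval : ValP S Θ c r₀ r κ v w N n (fun J F => ptr F J)
      (fun J (F : Fam m J) ω => (bI ((range r₀).image c) (v + lam) J F ω, F.W ω))) {d : ℝ}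
    (hrow : Bas S (fun J F A => ∀ (V : Type) (z : PtT F → V) (z' : LnT F → V)
      (G : V → MvPolynomial (Option (Fin m)) ℝ) (g : V → ℕ → MvPolynomial (Option (Fin m)) ℝ),
      Θ J F A V z z' G g →
      CH (Pool.Agent.H49.Ent.cond F.p A True)
        (fun ω => ⌊(2 : ℝ) ^ (N * J) * ojet F κ 0 (G (z' (slam F ⌊v * J⌋₊ ω))) ω⌋)
        (fun ω => (⌊(2 : ℝ) ^ (sa * J) * ojet F κ 0 (G (z' (slam F ⌊v * J⌋₊ ω))) ω⌋,
          (ceI ((range r).image c) (fun _ => J) (F.x ω),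
            (z' (slam F ⌊v * J⌋₊ ω), F.W ω)))) ≤ d * J)) {δ : ℝ} (hδ : (r + 1) * ρ < δ) :
    Bas S (fun J F A => ∀ (V : Type) (z : PtT F → V) (z' : LnT F → V)
      (G : V → MvPolynomial (Option (Fin m)) ℝ) (g : V → ℕ → MvPolynomial (Option (Fin m)) ℝ),
      Θ J F A V z z' G g →
      CH (Pool.Agent.H49.Ent.cond F.p A True)
        (fun ω => ⌊(2 : ℝ) ^ (N * J) * ojet F κ 0 (G (z' (slam F ⌊v * J⌋₊ ω))) ω⌋)
        (fun ω => (⌊(2 : ℝ) ^ (sa * J) * ojet F κ 0 (G (z' (slam F ⌊v * J⌋₊ ω))) ω⌋,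
          (z' (slam F ⌊v * J⌋₊ ω), (hts F c r₀ r z' ⌊v * J⌋₊ g n ω,
            (bI ((range r₀).image c) (v + lam) J F ω, F.W ω))))) ≤ (d + δ) * J) := by
  classical
  obtain ⟨u₁, rw, hch⟩ := H.chn
  have hr := H.hr
  have hρ := H.ρ0
  have hvw := H.vw
  have hwp : w < v + lam := H.wl
  have ho : w ≤ 1 := by linarith [H.l1]
  have hbase := hch.base _ hwp H.l1
  have hful := hch.ful
  have hr0 : (0 : ℝ) ≤ r := Nat.cast_nonneg r
  obtain ⟨Nl, hNl⟩ : ∃ Nl : ℕ → ℝ, Nl = fun i => s i - ρ := ⟨_, rfl⟩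
  have hNi : ∀ i, Nl i = s i - ρ := fun i => by rw [hNl]
  have hNn : ∀ i, r₀ ≤ i → i < r → Nl i ≤ n i := fun i a b => by
    rw [hNi]
    exact H.nn i a b
  have hNs : ∀ i, r₀ ≤ i → i < r → Nl i ≤ s i := fun i _ _ => by
    rw [hNi]
    linarith
  have hsum : (∑ i ∈ Finset.Ico r₀ r, (s i - Nl i)) ≤ r * ρ := by
    have h2 : ∀ i ∈ Finset.Ico r₀ r, s i - Nl i ≤ ρ := by
      intro i _
      rw [hNi]
      linarith
    refine (Finset.sum_le_sum h2).trans ?_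
    rw [Finset.sum_const, Nat.card_Ico, nsmul_eq_mul]
    refine mul_le_mul_of_nonneg_right ?_ hρ.le
    exact_mod_cast Nat.sub_le r r₀
  obtain ⟨δ₂, hδ₂⟩ : ∃ δ₂ : ℝ, δ₂ = (δ - (r + 1) * ρ) / (4 * (r + 1)) := ⟨_, rfl⟩
  have hδ₂0 : 0 < δ₂ := by
    rw [hδ₂]
    exact div_pos (by linarith) (by linarith)
  have hδ₂e : (r + 1) * δ₂ = (δ - (r + 1) * ρ) / 4 := by
    rw [hδ₂]
    field_simp
  obtain ⟨σ, hσ⟩ : ∃ σ : ℝ, σ = (δ - (r + 1) * ρ) / 4 := ⟨_, rfl⟩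
  have hσ0 : 0 < σ := by rw [hσ]; linarith
  obtain ⟨ρ₁, hρ₁⟩ : ∃ ρ₁ : ℝ, ρ₁ = σ / (r + 1) := ⟨_, rfl⟩
  have hρ0 : 0 < ρ₁ := by rw [hρ₁]; positivity
  have hρr : (r + 1) * ρ₁ = σ := by
    rw [hρ₁]
    field_simp
  have he1 : 0 < e + 1 := by linarith
  obtain ⟨M₁, J₁, hc1⟩ := cnt_jets m K (e := e + 1) (w := v) he1 n (fun i => max (rd i) 0) r
    (fun i _ => le_max_right _ _)
  obtain ⟨M₂, J₂, hc2⟩ := cnt_jets m K (e := e + 1) (w := v) he1 Nl (fun i => max (rd i) 0) r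
    (fun i _ => le_max_right _ _)
  have hlogm : 0 ≤ Real.log (m + 1) := Real.log_nonneg (by
    have : (0 : ℝ) ≤ m := Nat.cast_nonneg m
    linarith)
  have l5 : 0 ≤ Real.log 5 := Real.log_nonneg (by norm_num)
  have l7 : 0 ≤ Real.log 7 := Real.log_nonneg (by norm_num)
  have l9 : 0 ≤ Real.log 9 := Real.log_nonneg (by norm_num)
  have l11 : 0 ≤ Real.log 11 := Real.log_nonneg (by norm_num)
  have hl2 : 0 < Real.log 2 := Real.log_pos one_lt_two
  have hl1 : Real.log 2 ≤ 1 := by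
    have := Real.log_two_lt_d9
    linarith
  have hg₀ := H.g0
  have hgap : 0 < g₀ / 2 * Real.log 2 := by positivity
  obtain ⟨J₃, hJ₃⟩ := exists_nat_ge (Real.log (m + 1) / (g₀ / 2 * Real.log 2) +
    (Real.log 5 + Real.log 9 + Real.log 11 + r * (Real.log 11 + Real.log 7)) / σ)
  have hFa : Bas S (fun J F A => ∀ i, r₀ ≤ i → i < r → ∀ (u : F.Ω → ℕ → ℕ → ℤ) (u' : F.Ω → ℤ),
      (qJets m c r₀ i 0 (fun _ _ => v) (fun l _ => p l) (fun l _ => n l)).P
        (max (max K M₁) M₂) e J F A u →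
      (qJet m ((range i).image c) (c i) 0 v (p i) (Nl i)).P (max (max K M₁) M₂) e J F A u' →
      ∃ (V : Type) (z : F.Ω → V), Cl2 (ptr F J) (vg w J F) A z ∧
        CH (Pool.Agent.H49.Ent.cond F.p A True) u'
          (fun ω => (u ω, (z ω, (bI ((range r₀).image c) (v + lam) J F ω, F.W ω)))) ≤
            δ₂ * J) := by
    have key : ∀ R ≤ r, Bas S (fun J F A => ∀ i, r₀ ≤ i → i < R →
        ∀ (u : F.Ω → ℕ → ℕ → ℤ) (u' : F.Ω → ℤ),
        (qJets m c r₀ i 0 (fun _ _ => v) (fun l _ => p l) (fun l _ => n l)).P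
          (max (max K M₁) M₂) e J F A u →
        (qJet m ((range i).image c) (c i) 0 v (p i) (Nl i)).P (max (max K M₁) M₂) e J F A u' →
        ∃ (V : Type) (z : F.Ω → V), Cl2 (ptr F J) (vg w J F) A z ∧
          CH (Pool.Agent.H49.Ent.cond F.p A True) u'
            (fun ω => (u ω, (z ω, (bI ((range r₀).image c) (v + lam) J F ω, F.W ω)))) ≤
              δ₂ * J) := by
      intro R
      induction R with
      | zero =>
        intro _
        exact ⟨1, one_pos, 0, fun J _ F A _ i _ hi => absurd hi (Nat.not_lt_zero i)⟩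
      | succ R ih =>
        intro hR
        have h1 := ih (by omega)
        by_cases hR0 : r₀ ≤ R
        · refine Bas.mono 0 (h1.and (((hts_npv htm H hδ₂0 hR0 (by omega)).mono he8 le_rfl)
            (max (max K M₁) M₂))) ?_
          rintro J - F A ⟨h2, h3⟩ i hi0 hi
          rcases Nat.lt_or_ge i R with h4 | h4
          · exact h2 i hi0 h4
          · obtain rfl : i = R := by omega
            rw [hNi]
            exact h3
        · refine Bas.mono 0 h1 ?_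
          intro J _ F A h2 i hi0 hi
          exact absurd hi0 (by omega)
    exact key r le_rfl
  have hval := hval δ₂ hδ₂0
  refine Bas.mono (max (max J₁ J₂) J₃) (((hrow.and (hbase ρ₁ hρ0)).and
    (hful ρ₁ hρ0)).and ((hFa.and hval).and (Pool.GRW.tmc_bas htm one_pos))) ?_
  rintro J hJ F A ⟨⟨⟨hraw, hB⟩, hC⟩, ⟨hH, hV⟩, hA, -⟩ V z z' G g hTh
  obtain ⟨hlb, hcls⟩ := hΘ J F A V z z' G g hTh
  have hraw := hraw V z z' G g hTh
  obtain ⟨Vv, zv, hzv, hV⟩ := hV V z z' G g hTh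
  have hJ1 : J₁ ≤ J := (le_max_left _ _).trans ((le_max_left _ _).trans hJ)
  have hJ2 : J₂ ≤ J := (le_max_right _ _).trans ((le_max_left _ _).trans hJ)
  have hJ3 : (J₃ : ℝ) ≤ J := by exact_mod_cast (le_max_right _ _).trans hJ
  have hJ0 : (0 : ℝ) ≤ J := Nat.cast_nonneg J
  have t1 : 0 ≤ Real.log (m + 1) / (g₀ / 2 * Real.log 2) := by positivity
  have t2 : 0 ≤ (Real.log 5 + Real.log 9 + Real.log 11 + r * (Real.log 11 + Real.log 7)) /
    σ := by positivity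
  have f1 : Real.log (m + 1) ≤ g₀ / 2 * Real.log 2 * J := by
    have : Real.log (m + 1) / (g₀ / 2 * Real.log 2) ≤ J := by linarith
    rw [div_le_iff₀ hgap] at this
    linarith
  have f2 : Real.log 5 + Real.log 9 + Real.log 11 + r * (Real.log 11 + Real.log 7) ≤
      σ * J := by
    have : (Real.log 5 + Real.log 9 + Real.log 11 + r * (Real.log 11 + Real.log 7)) /
      σ ≤ J := by linarith
    rw [div_le_iff₀ hσ0] at this
    linarith
  have f1' : ∀ N D : ℝ, N + D + g₀ ≤ 1 →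
      Real.log (m + 1) ≤ (1 - N - (D + e)) * Real.log 2 * J := by
    intro N D hN
    refine f1.trans (mul_le_mul_of_nonneg_right ?_ hJ0)
    exact mul_le_mul_of_nonneg_right (by linarith) hl2.le
  obtain ⟨q', hq'⟩ : ∃ q' : F.Ω → ℝ, q' = Pool.Agent.H49.Ent.cond F.p A True := ⟨_, rfl⟩
  have hq'l : IsLaw q' := by
    rw [hq']
    exact isLaw_cond F.isLaw hA
  have h0 := hq'l.nonneg
  have hq'A : ∀ ω, 0 < q' ω → A ω := fun ω hω => by
    rw [hq'] at hω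
    exact of_cond_pos hω
  rw [← hq'] at hraw hV ⊢
  have hrJ : ∀ i, r₀ ≤ i → i < r → ⌊(rd i + e) * J⌋₊ ≤ J := by
    intro i hi0 hi
    refine Nat.floor_le_of_le ?_
    have h1 := (H.rd0 i hi0 hi).2
    have : (rd i + e) * J ≤ 1 * J := mul_le_mul_of_nonneg_right (by linarith) hJ0
    linarith
  have hmx : ∀ i, r₀ ≤ i → i < r → max (rd i) 0 = rd i := fun i hi0 hi =>
    max_eq_left (H.rd0 i hi0 hi).1
  have hUJ : ⌊(v + lam) * J⌋₊ ≤ J := floor_le H.l1.le J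
  -- the quantities
  have hQ : ∀ i, r₀ ≤ i → i < r →
      (qJets m c r₀ i 0 (fun _ _ => v) (fun l _ => p l) (fun l _ => n l)).P
        (max (max K M₁) M₂) e J F A
        (fun ω i' j' => if j' = 0 then hts F c r₀ i z' ⌊v * J⌋₊ g n ω i' else 0) := by
    intro i hi0 hi
    refine (qJets m c r₀ i 0 _ _ _).mono (le_max_left _ _) le_rfl
      (Pool.AJX.qJets_htx (R := r) hi.le hlb fun l hl0 hl => ?_)
    exact hc1 l (by omega) J hJ1 F _ _ _ A V z z' (fun v => g v l) (by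
      rw [hmx l hl0 (by omega)]
      exact hlb.wk hl0 (by omega) (H.E0 l hl0 (by omega)).2)
  have hQ' : ∀ i, r₀ ≤ i → i < r →
      (qJet m ((range i).image c) (c i) 0 v (p i) (Nl i)).P (max (max K M₁) M₂) e J F A
        (fun ω => ⌊(2 : ℝ) ^ (Nl i * J) * hgt F (c i) z' ⌊v * J⌋₊ (fun v => g v i) ω⌋) := by
    intro i hi0 hi
    refine ⟨?_, V, z, z', fun v => g v i, ?_, fun ω _ => rfl⟩
    · have h2 := hc2 i hi J hJ2 F _ _ _ A V z z' (fun v => g v i) (by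
        rw [hmx i hi0 hi]
        exact hlb.wk hi0 hi (H.E0 i hi0 hi).2)
      refine h2.trans (Real.exp_le_exp.2 (mul_le_mul_of_nonneg_right ?_ hJ0))
      exact_mod_cast le_max_right _ _
    · exact (LbP.of (hlb i hi0 hi)).mono (Finset.Subset.refl _)
        ((le_max_left _ _).trans (le_max_left _ _)) le_rfl
  have hza : ∀ i, ∃ (V₁ : Type) (z₁ : F.Ω → V₁), Cl2 (ptr F J) (vg w J F) A z₁ ∧
      (r₀ ≤ i → i < r → CH q' (fun ω => ⌊(2 : ℝ) ^ (Nl i * J) *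
          hgt F (c i) z' ⌊v * J⌋₊ (fun v => g v i) ω⌋)
        (fun ω => ((fun i' j' => if j' = 0 then hts F c r₀ i z' ⌊v * J⌋₊ g n ω i' else 0 :
          ℕ → ℕ → ℤ), (z₁ ω, (bI ((range r₀).image c) (v + lam) J F ω, F.W ω)))) ≤ δ₂ * J) := by
    intro i
    by_cases hi : r₀ ≤ i ∧ i < r
    · obtain ⟨V₁, z₁, hz₁, h1⟩ := hH i hi.1 hi.2 _ _ (hQ i hi.1 hi.2) (hQ' i hi.1 hi.2)
      rw [← hq'] at h1
      exact ⟨V₁, z₁, hz₁, fun _ _ => h1⟩
    · exact ⟨Unit, fun _ => (), ⟨⟨fun _ => (), fun _ _ => rfl⟩, fun _ => (), fun _ _ => rfl⟩,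
        fun a b => absurd ⟨a, b⟩ hi⟩
  choose V₁ z₁ hz₁ hH₁ using hza
  obtain ⟨⟨φa, hφa⟩, ψa, hψa⟩ := (Cl2.pi hz₁).join hzv
  obtain ⟨φg, hφg⟩ := vg_mono hvw ho J F
  -- the code at the ball
  have hza0 : ∀ ω, A ω → (((fun i => z₁ i ω), zv ω), z' (slam F ⌊v * J⌋₊ ω)) =
      ((fun s => (ψa s, z' (φg s))) (slam F ⌊w * J⌋₊ ω)) := by
    intro ω hω
    have e1 : vg w J F ω = slam F ⌊w * J⌋₊ ω := rfl
    have e2 := hφg ω
    rw [e1] at e2
    refine Prod.ext ?_ ?_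
    · show ((fun i => z₁ i ω), zv ω) = ψa (slam F ⌊w * J⌋₊ ω)
      rw [← e1]
      exact hψa ω hω
    · show z' (slam F ⌊v * J⌋₊ ω) = z' (φg (slam F ⌊w * J⌋₊ ω))
      rw [← e2]
      rfl
  have hcode : ∀ ω, A ω → (fun x => (φa x, z x)) (ptr F J ω) =
      (fun s => (ψa s, z' (φg s))) (slam F ⌊w * J⌋₊ ω) := by
    intro ω hω
    rw [← hza0 ω hω]
    refine Prod.ext ?_ ?_
    · exact (hφa ω hω).symm
    · exact hcls ω hω
  have hful₀ := hB _ (fun x => (φa x, z x)) (fun s => (ψa s, z' (φg s))) hcode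
  have hfulC := hC _ (fun x => (φa x, z x)) (fun s => (ψa s, z' (φg s))) hcode
  rw [← hq'] at hful₀ hfulC
  -- abbreviations
  obtain ⟨Z, hZ⟩ : ∃ Z : F.Ω → V, Z = fun ω => z' (slam F ⌊v * J⌋₊ ω) := ⟨_, rfl⟩
  obtain ⟨B, hBd⟩ : ∃ B : F.Ω → Fin m → ℤ, B = bI ((range r₀).image c) (v + lam) J F := ⟨_, rfl⟩
  obtain ⟨za, hzad⟩ : ∃ za : F.Ω → (∀ i, V₁ i) × Vv, za = fun ω => ((fun i => z₁ i ω), zv ω) :=
    ⟨_, rfl⟩
  have hcd : ∀ ω ω', 0 < q' ω → 0 < q' ω' → (fun s => (ψa s, z' (φg s))) (slam F ⌊w * J⌋₊ ω) =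
      (fun s => (ψa s, z' (φg s))) (slam F ⌊w * J⌋₊ ω') → (za ω, Z ω) = (za ω', Z ω') := by
    intro ω ω' hω hω' e
    rw [← hza0 ω (hq'A ω hω), ← hza0 ω' (hq'A ω' hω')] at e
    rw [hzad, hZ]
    exact e
  have hLJ : J * Real.log 2 ≤ J := by
    calc (J : ℝ) * Real.log 2 ≤ J * 1 := mul_le_mul_of_nonneg_left hl1 hJ0
      _ = J := mul_one _
  have hJ02 : 0 ≤ J * Real.log 2 := by positivity
  have core := nfc_core h0 hr (fun l ω => F.X J ω (c l))
    (fun ω => ⌊(2 : ℝ) ^ (N * J) * ojet F κ 0 (G (z' (slam F ⌊v * J⌋₊ ω))) ω⌋)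
    (fun ω => ⌊(2 : ℝ) ^ (sa * J) * ojet F κ 0 (G (z' (slam F ⌊v * J⌋₊ ω))) ω⌋)
    Z za (fun ω => hts F c r₀ r z' ⌊v * J⌋₊ g n ω) B F.W
    (E := d * J)
    (D₀ := ((range r₀).image c).card * (((J - ⌊(v + lam) * J⌋₊ : ℕ) : ℝ) * Real.log 2))
    (ρ' := ρ₁ * J) (dH := δ₂ * J) (l := Real.log 5)
    (a := fun i => (1 - n i) * (J * Real.log 2) + Real.log 11)
    (b := fun i => ((1 - s i) - ρ₁) * (J * Real.log 2))
    (d := fun i => δ₂ * J + ((n i - Nl i) * (J * Real.log 2) + Real.log 7))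
    ?_ ?_ ?_ ?_ ?_ ?_ ?_ ?_ ?_
  · have har := nfc_arith (a := r₀) (b := r) hJ02 hLJ hρ0.le hδ₂0.le l11 l7 (n := n) (s := s)
      (N := Nl) hNs
    have e1 : (fun ω => (⌊(2 : ℝ) ^ (sa * J) * ojet F κ 0 (G (z' (slam F ⌊v * J⌋₊ ω))) ω⌋, (Z ω,
          (hts F c r₀ r z' ⌊v * J⌋₊ g n ω, (B ω, F.W ω))))) =
        (fun ω => (⌊(2 : ℝ) ^ (sa * J) * ojet F κ 0 (G (z' (slam F ⌊v * J⌋₊ ω))) ω⌋,
          (z' (slam F ⌊v * J⌋₊ ω), (hts F c r₀ r z' ⌊v * J⌋₊ g n ω,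
            (bI ((range r₀).image c) (v + lam) J F ω, F.W ω))))) := by
      rw [hZ, hBd]
    rw [e1] at core
    refine core.trans ?_
    have e3 : (d + δ) * J = d * J + (4 * σ * J + (r + 1) * ρ * J) := by
      rw [hσ]
      ring
    have e4 : (r + 1) * ρ₁ * J = σ * J := by rw [hρr]
    have e5 : (r + 1) * δ₂ * J = σ * J := by rw [hδ₂e, hσ]
    have e6 := mul_le_mul_of_nonneg_right hsum hJ0
    have e7 : 0 ≤ ρ * J := by positivity
    have e8 : 0 ≤ σ * J := by positivity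
    rw [e3]
    linarith
  · -- the exact point
    refine le_trans (CH_mono_cond h0 fun ω ω' _ _ e => ?_) hraw
    simp only [Prod.mk.injEq] at e ⊢
    obtain ⟨e1, e2, e3, e4, e5, e6⟩ := e
    rw [hZ] at e3
    exact ⟨e2, ceI_tup le_rfl fun l hl => congrFun e1 ⟨l, hl⟩, e3, e6⟩
  · -- the base, from above
    refine le_trans (CH_mono_left h0 (X' := fun ω => ceI ((range r₀).image c) (fun _ => J)
      (F.x ω)) fun ω ω' _ _ e => ?_) (le_trans (CH_mono_cond h0 fun ω ω' _ _ e => ?_)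
      (ceI_cnt hq'l _ hUJ))
    · have e1 := (Prod.ext_iff.mp e).1
      exact funext fun l => tup_ceI e1 l.2
    · simp only [Prod.mk.injEq] at e
      obtain ⟨-, -, -, e4, -⟩ := e
      rw [hBd] at e4
      exact e4
  · -- the chain, from above
    intro i hi0 hi
    have h1 := own_cnt (e := E i + e) (hlb i hi0 hi) (hrJ i hi0 hi)
      (by linarith [(H.E0 i hi0 hi).1]) (q' := q') (N := n i)
      (by linarith [H.n1 i hi0 hi, (H.E0 i hi0 hi).1]) (f1' _ _ (H.n1 i hi0 hi)) hq'l hq'A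
    refine le_trans (CH_mono_cond h0 fun ω ω' _ _ e => ?_) (h1.trans (le_of_eq (by ring)))
    simp only [Prod.mk.injEq] at e ⊢
    obtain ⟨e1, e2, e3, e4, e5, e6⟩ := e
    rw [hZ] at e3
    have e7 := congrFun e4 i
    unfold hts at e7
    rw [if_pos ⟨hi0, hi⟩, if_pos ⟨hi0, hi⟩] at e7
    exact ⟨e7, ceI_tup le_rfl fun l hl => congrFun e1 ⟨l, hl⟩, e3, e6⟩
  · -- the base, from below
    refine hful₀.trans ((CH_mono_left h0 (X' := fun ω (l : Fin r₀) => F.X J ω (c l))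
      fun ω ω' _ _ e => ?_).trans (CH_mono_cond h0 fun ω ω' hω hω' e => ?_))
    · exact ceI_tup le_rfl fun l hl => congrFun (Prod.ext_iff.mp e).1 ⟨l, hl⟩
    · simp only [Prod.mk.injEq] at e ⊢
      obtain ⟨e1, e2, e3⟩ := e
      have e4 := hcd ω ω' hω hω' (Prod.ext e2.1 e2.2)
      rw [Prod.mk.injEq] at e4
      rw [hBd]
      exact ⟨e1, e4, e3⟩
  · -- the chain, from below
    intro i hi0 hi
    refine le_trans (le_of_eq ?_) ((hfulC i hi0 hi).trans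
      (CH_mono_cond h0 fun ω ω' hω hω' e => ?_))
    · ring
    · simp only [Prod.mk.injEq] at e ⊢
      obtain ⟨e1, e2, e3⟩ := e
      have e4 := hcd ω ω' hω hω' (Prod.ext e2.1 e2.2)
      rw [Prod.mk.injEq] at e4
      rw [hBd]
      exact ⟨e1, ceI_tup hUJ fun l hl => congrFun e1 ⟨l, by omega⟩, e4, e3⟩
  · intro ω i hi
    unfold hts
    rw [if_neg hi]
  · -- the heights
    intro i hi0 hi
    have h1 := hH₁ i hi0 hi
    have h2 := hgt_cnt hq'l (fun ω => hgt F (c i) z' ⌊v * J⌋₊ (fun v => g v i) ω) J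
      (hNn i hi0 hi) (fun ω => ((fun l : Fin i => hts F c r₀ r z' ⌊v * J⌋₊ g n ω l),
        (B ω, ((za ω, Z ω), F.W ω))))
    have h3 := CH_le_add h0
      (fun ω => ⌊(2 : ℝ) ^ (n i * J) * hgt F (c i) z' ⌊v * J⌋₊ (fun v => g v i) ω⌋)
      (fun ω => ⌊(2 : ℝ) ^ (Nl i * J) * hgt F (c i) z' ⌊v * J⌋₊ (fun v => g v i) ω⌋)
      (fun ω => ((fun l : Fin i => hts F c r₀ r z' ⌊v * J⌋₊ g n ω l),
        (B ω, ((za ω, Z ω), F.W ω))))
    have h4 : CH q'
        (fun ω => ⌊(2 : ℝ) ^ (Nl i * J) * hgt F (c i) z' ⌊v * J⌋₊ (fun v => g v i) ω⌋)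
        (fun ω => ((fun l : Fin i => hts F c r₀ r z' ⌊v * J⌋₊ g n ω l),
          (B ω, ((za ω, Z ω), F.W ω)))) ≤ δ₂ * J := by
      refine le_trans (CH_mono_cond h0 fun ω ω' _ _ e => ?_) h1
      simp only [Prod.mk.injEq] at e ⊢
      obtain ⟨e1, e2, ⟨e3, e4⟩, e5⟩ := e
      rw [hBd] at e2
      rw [hzad] at e3
      refine ⟨funext fun i' => funext fun j' => ?_, congrFun (Prod.ext_iff.mp e3).1 i, e2, e5⟩
      by_cases hj : j' = 0
      · rw [if_pos hj, if_pos hj]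
        unfold hts
        by_cases hi' : r₀ ≤ i' ∧ i' < i
        · have e6 := congrFun e1 ⟨i', hi'.2⟩
          unfold hts at e6
          rw [if_pos ⟨hi'.1, hi'.2.trans hi⟩, if_pos ⟨hi'.1, hi'.2.trans hi⟩] at e6
          rw [if_pos hi', if_pos hi']
          exact e6
        · rw [if_neg hi', if_neg hi']
      · rw [if_neg hj, if_neg hj]
    have h5 : (fun ω => hts F c r₀ r z' ⌊v * J⌋₊ g n ω i) =
        (fun ω => ⌊(2 : ℝ) ^ (n i * J) * hgt F (c i) z' ⌊v * J⌋₊ (fun v => g v i) ω⌋) := by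
      funext ω
      unfold hts
      rw [if_pos ⟨hi0, hi⟩]
    rw [h5]
    have h6 : (n i - Nl i) * J * Real.log 2 = (n i - Nl i) * (J * Real.log 2) := by ring
    rw [h6] at h2
    linarith only [h2, h3, h4]
  · -- the height of the coordinate
    refine le_trans (CH_mono_cond h0 fun ω ω' _ _ e => ?_) hV
    simp only [Prod.mk.injEq] at e ⊢
    obtain ⟨e1, e2, ⟨e3, e4⟩, e5⟩ := e
    rw [hBd] at e2
    rw [hzad] at e3
    refine ⟨funext fun i' => ?_, (Prod.ext_iff.mp e3).2, e2, e5⟩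
    by_cases hi' : i' < r
    · exact congrFun e1 ⟨i', hi'⟩
    · unfold hts
      rw [if_neg fun h => hi' h.2, if_neg fun h => hi' h.2]
  · have e5 : (5 : ℝ) = 2 * ((2 : ℕ) : ℝ) + 1 := by norm_num
    rw [e5]
    refine CH_pair hq'l _ _ fun ω ω' hω hω' e => ?_
    have g1 := fl_one_mul (Real.rpow_pos_of_pos (by norm_num) _) e
    refine floor_sub_le (D := 1) ?_
    rw [← mul_sub, abs_mul, abs_of_pos (Real.rpow_pos_of_pos (by norm_num) _)]
    rw [abs_mul, abs_of_pos (Real.rpow_pos_of_pos (by norm_num) _)] at g1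
    push_cast
    refine (mul_le_mul_of_nonneg_right ?_ (abs_nonneg _)).trans g1
    refine Real.rpow_le_rpow_of_exponent_le (by norm_num) ?_
    exact mul_le_mul_of_nonneg_right hsa hJ0

end Pool.NPZ
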