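import Pool.Agent.H42.D2.Nta
import Pool.Agent.H42.D2.Npd
import Pool.Agent.H37.RW2.Def

/-!
# The near path theorem, the value as a hypothesis

`ValP.le`: smaller digits. `path_npv`: the own path of a coordinate over labels of a family is few bits
given the ball and the context of the chain, if its value is few bits given the heights of the chain and
the rows given the exact point of the chain are not full. `NpV`: the hypotheses in one structure.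
`fw2_npv`: each jet of the own path. `valP_of`: the value from the near heights of the places before.
-/

set_option autoImplicit false

namespace Pool.NPZ

open Finset Real MvPolynomial
open Pool.Agent.H49.Ent Pool.Agent.H32.Dense Pool.STK Pool.KA Pool.KSAT Pool.K2S Pool.PB Pool.GEN
open Pool.S6C Pool.RCD Pool.LA91 Pool.OWN68 Pool.CHT Pool.AJW
open Pool.GRD (LbP)
open Pool.UNJ (ceI Tub)
open Pool.ALT (DpI f1_jetq)
open Pool.AJX (LbX FwX)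
open Pool.PN18 (Fm2 Fw2)

variable {m : ℕ} {S : PCl m} {C₀ : ℝ}

/-- Smaller digits. -/
theorem ValP.le {Θ : Fm4 m} {c : ℕ → Fin m} {r₀ r : ℕ} {κ : Fin m} {v w N N' : ℝ} {n : ℕ → ℝ}
    {α γ : ∀ J : ℕ, Fam m J → Type} {f : ∀ (J : ℕ) (F : Fam m J), F.Ω → α J F}
    {y : ∀ (J : ℕ) (F : Fam m J), F.Ω → γ J F} (H : ValP S Θ c r₀ r κ v w N n f y)
    (htm : TmC S C₀) (hN : N' ≤ N) : ValP S Θ c r₀ r κ v w N' n f y := by
  intro h hh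
  obtain ⟨J₁, hJ₁⟩ := exists_nat_ge (Real.log 5 / (h / 2))
  refine Bas.mono J₁ ((H (h / 2) (by linarith)).and (Pool.GRW.tmc_bas htm one_pos)) ?_
  rintro J hJ F A ⟨h1, hA, -⟩ V z z' G g hTh
  obtain ⟨V₁, z₁, hz₁, h2⟩ := h1 V z z' G g hTh
  refine ⟨V₁, z₁, hz₁, ?_⟩
  have hJ0 : (0 : ℝ) ≤ J := Nat.cast_nonneg J
  have hJ1 : (J₁ : ℝ) ≤ J := by exact_mod_cast hJ
  have f1 : Real.log 5 ≤ h / 2 * J := by
    have := hJ₁.trans hJ1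
    rw [div_le_iff₀ (by linarith)] at this
    linarith
  have hq := isLaw_cond F.isLaw hA
  have h0 := hq.nonneg
  have s1 := CH_le_add h0
    (fun ω => ⌊(2 : ℝ) ^ (N' * J) * ojet F κ 0 (G (z' (slam F ⌊v * J⌋₊ ω))) ω⌋)
    (fun ω => ⌊(2 : ℝ) ^ (N * J) * ojet F κ 0 (G (z' (slam F ⌊v * J⌋₊ ω))) ω⌋)
    (fun ω => (hts F c r₀ r z' ⌊v * J⌋₊ g n ω, (z₁ ω, y J F ω)))
  have s2 := Pool.RW37.fl_few hq (fun ω => ojet F κ 0 (G (z' (slam F ⌊v * J⌋₊ ω))) ω)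
    (a := N) (b := N') hJ0 (fun ω => (hts F c r₀ r z' ⌊v * J⌋₊ g n ω, (z₁ ω, y J F ω)))
  rw [max_eq_right (by linarith)] at s2
  linarith

/-- The quantity `Qu` with the fixed accuracy `eQ`. -/
def cstQ {m : ℕ} {U : Type} (Qu : Qt m U) (eQ : ℝ) : Qt m U where
  P K _ J F A u := Qu.P K eQ J F A u
  sub := fun hB h => Qu.sub hB h
  mono := fun hK _ h => Qu.mono hK le_rfl h

/-- **All jets of the own path**, given the near digits of the chain, the context as a hypothesis. -/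
theorem path_npw (K : ℕ) {h : ℝ} (hh : 0 < h) (hh1 : h ≤ 1) {ε : ℝ} (hε : 0 < ε) :
    ∃ δ : ℝ, 0 < δ ∧ ∀ {m : ℕ} {S : PCl m} {C₀ : ℝ} (_ : TmC S C₀) {c : ℕ → Fin m} {r₀ r : ℕ}
    {v w lam ρ g₀ : ℝ} {E pc s n lv rd : ℕ → ℝ}
    (_ : ChV S c r₀ r v w lam ρ g₀ E pc s n lv rd) {κ : Fin m} {I : Finset (Fin m)}
    {Kc : ℕ} {e P pN q d rG eG a : ℝ} (_ : 0 < e) (_ : e ≤ ρ / 8) (_ : e ≤ g₀ / 2)
    (_ : pN < P) (_ : P - pN ≤ δ * q / 8)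
    (_ : 0 < q) (_ : v + q ≤ 1) (_ : w ≤ a) (_ : a ≤ 1) (_ : 0 ≤ rG)
    (_ : 0 < eG) (_ : d + (r + 1) * ρ < δ * q / 2) {Θ : Fm4 m}
    (_ : NpL Θ c r₀ r Kc v e E rd pc)
    (_ : ValP S Θ c r₀ r κ v w (P + q) n (fun J F => ptr F J)
      (fun J (F : Fam m J) ω => (bI ((range r₀).image c) (v + lam) J F ω, F.W ω)))
    (_ : ∀ (J : ℕ) (F : Fam m J) (A : F.Ω → Prop) (V : Type) (z : PtT F → V) (z' : LnT F → V)
      (G : V → MvPolynomial (Option (Fin m)) ℝ) (g : V → ℕ → MvPolynomial (Option (Fin m)) ℝ),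
      Θ J F A V z z' G g →
      LbOK F I κ K ⌊eG * J⌋₊ J ⌊v * J⌋₊ ⌊(rG + eG) * J⌋₊ ⌊pN * J⌋₊ A z z' G)
    (_ : ∀ (J : ℕ) (F : Fam m J) (A B : F.Ω → Prop) (V : Type) (z : PtT F → V) (z' : LnT F → V)
      (G : V → MvPolynomial (Option (Fin m)) ℝ) (g : V → ℕ → MvPolynomial (Option (Fin m)) ℝ),
      Sub B A → Θ J F A V z z' G g → Θ J F B V z z' G g)
    (_ : ∀ sa sb : ℝ, P ≤ sa → sa ≤ sb → sb ≤ P + q →
      Bas S (fun J F A => ∀ (V : Type) (z : PtT F → V) (z' : LnT F → V)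
      (G : V → MvPolynomial (Option (Fin m)) ℝ) (g : V → ℕ → MvPolynomial (Option (Fin m)) ℝ),
      Θ J F A V z z' G g →
      CH (Pool.Agent.H49.Ent.cond F.p A True)
        (fun ω => ⌊(2 : ℝ) ^ (sb * J) * ojet F κ 0 (G (z' (slam F ⌊v * J⌋₊ ω))) ω⌋)
        (fun ω => (⌊(2 : ℝ) ^ (sa * J) * ojet F κ 0 (G (z' (slam F ⌊v * J⌋₊ ω))) ω⌋,
          (ceI ((range r).image c) (fun _ => J) (F.x ω),
            (z' (slam F ⌊v * J⌋₊ ω), F.W ω)))) ≤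
        ((1 - h) * (sb - sa) * Real.log 2 + d) * J))
    {U₀ : Type} {Qu : Qt m U₀} {α γ : ∀ J : ℕ, Fam m J → Type}
    {f : ∀ (J : ℕ) (F : Fam m J), F.Ω → α J F} {y : ∀ (J : ℕ) (F : Fam m J), F.Ω → γ J F}
    (_ : ∀ (J : ℕ) (F : Fam m J), ∃ φ : α J F → PtT F, ∀ ω, ptr F J ω = φ (f J F ω))
    (_ : Kn0 ((range r₀).image c) (v + lam) y)
    (_ : ValP S Θ c r₀ r κ v w (P + q) n f y)
    (eQ : ℝ)
    (_ : ∀ K₀ : ℕ, Bas S (fun J F A => ∀ (V : Type) (z : PtT F → V) (z' : LnT F → V)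
      (G : V → MvPolynomial (Option (Fin m)) ℝ) (g : V → ℕ → MvPolynomial (Option (Fin m)) ℝ),
      Θ J F A V z z' G g → ∀ u₀ : F.Ω → U₀, Qu.P K₀ eQ J F A u₀ →
      ∃ (V₁ : Type) (z₁ : F.Ω → V₁), Cl2 (f J F) (vg a J F) A z₁ ∧
        CH (Pool.Agent.H49.Ent.cond F.p A True) (ctx c r₀ r Kc v lam n J F V z' g)
          (fun ω => (u₀ ω, (z₁ ω, y J F ω))) ≤ δ * q / 4 * J)),
    ∀ K₀ : ℕ, Bas S (fun J F A => ∀ (V : Type) (z : PtT F → V) (z' : LnT F → V)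
      (G : V → MvPolynomial (Option (Fin m)) ℝ) (g : V → ℕ → MvPolynomial (Option (Fin m)) ℝ),
      Θ J F A V z z' G g → ∀ u₀ : F.Ω → U₀, Qu.P K₀ eQ J F A u₀ →
      ∃ (V₁ : Type) (z₁ : F.Ω → V₁), Cl2 (f J F) (vg a J F) A z₁ ∧
        CH (Pool.Agent.H49.Ent.cond F.p A True)
          (fun ω => ((z' (vg v J F ω), (vg v J F ω).2), (ctx c r₀ r Kc v lam n J F V z' g ω,
            fun j : Fin (K + 3) => ⌊jr F ⌊v * J⌋₊ (2 ^ ((P + q) * J)) κ z' G j (vg v J F ω)⌋)))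
          (fun ω => (u₀ ω, (z₁ ω, y J F ω))) ≤ ε * q * J) := by
  classical
  obtain ⟨δ, hδ, N₀, hN₀, Hp⟩ := Pool.AJX.path_rb K hh hh1 hε
  refine ⟨δ, hδ, ?_⟩
  intro m S C₀ htm c r₀ r v w lam ρ g₀ E pc s n lv rd H κ I Kc e P pN q d rG eG a he he8
    heg hpNP hPδ hq hvq hwa ha hrG heG hd Θ hΘ hvr hΘl hΘs hrow U₀ Qu α γ f y hf hy hvy eQ hctx'
  have hN0 : (0 : ℝ) < N₀ := by exact_mod_cast hN₀
  have hρ := H.ρ0
  have hv0 := H.v0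
  have hvw := H.vw
  have hva : v ≤ a := hvw.trans hwa
  have hv1 : v < 1 := by linarith
  have hδq : 0 < δ * q := by positivity
  have hWa : ∀ J : ℕ, ⌊v * J⌋₊ ≤ J := floor_le (hva.trans ha)
  have hyT : ∀ (J : ℕ) (F : Fam m J), ∃ φ : γ J F → ℕ, ∀ ω, F.T ω = φ (y J F ω) := by
    intro J F
    obtain ⟨φ, hφ⟩ := hy J F
    exact ⟨fun x => (φ x).1, fun ω => (congrArg Prod.fst (hφ ω)).symm⟩
  have hlK : 0 ≤ Real.log (4 * ((Kc : ℝ) + 3) + 3) := Real.log_nonneg (by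
    have : (0 : ℝ) ≤ Kc := Nat.cast_nonneg Kc
    linarith)
  have key := Hp htm (I := I) (κ := κ) (w := v) (a := a) (p := P) (q := q) (r := rG) hv0 hva ha hq
    hvq hrG (Qu := cstQ Qu eQ) hf hyT (e := P - pN) (e' := eG) (by linarith) heG
    (fun J F A V C z z' G cc => ∃ g : V → ℕ → MvPolynomial (Option (Fin m)) ℝ,
      Θ J F A V z z' G g ∧
      ∃ (φ : C → (Fin m → ℤ × ℤ) × (ℕ → ℕ → ℤ)) (ψ : (Fin m → ℤ × ℤ) × (ℕ → ℕ → ℤ) → C),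
        (∀ x, ctxN F c r₀ r ⌊v * J⌋₊ ⌊(v + lam) * J⌋₊ Kc z' g n x = φ (cc x)) ∧
        ∀ x, cc x = ψ (ctxN F c r₀ r ⌊v * J⌋₊ ⌊(v + lam) * J⌋₊ Kc z' g n x))
    (by
      rintro J F A V C z z' G cc ⟨g, hTh, -⟩
      have h1 := hΘl J F A V z z' G g hTh
      rw [sub_sub_cancel]
      exact h1)
    (by
      rintro J F A B V C z z' G cc hBA ⟨g, hTh, hcc⟩
      exact ⟨g, hΘs J F A B V z z' G g hBA hTh, hcc⟩) ?_ ?_ ?_
      (fun j _ _ => f1_jetq htm hv0 hv1 (by linarith) (cstQ Qu eQ) f (vg a) y hδq hPδ)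
  · intro K₀
    refine Bas.mono 0 (key K₀) ?_
    intro J _ F A h1 V z z' G g hTh u₀ hu₀
    exact h1 V _ z z' G (fun x => ctxN F c r₀ r ⌊v * J⌋₊ ⌊(v + lam) * J⌋₊ Kc z' g n x)
      ⟨g, hTh, fun x => x, fun x => x, fun _ => rfl, fun _ => rfl⟩ u₀ hu₀
  · -- the context
    intro K₁
    refine Bas.mono 0 ((hctx' K₁).and (Pool.GRW.tmc_bas htm one_pos)) ?_
    rintro J - F A ⟨h1, hA, -⟩ V C z z' G cc ⟨g, hTh, φ, ψ, hφ, hψ⟩ u₀ hu₀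
    obtain ⟨V₁, z₁, hz₁, h2⟩ := h1 V z z' G g hTh u₀ hu₀
    refine ⟨V₁, z₁, hz₁, le_trans (CH_mono_left (isLaw_cond F.isLaw hA).nonneg
      fun ω ω' _ _ e => ?_) (h2.trans ?_)⟩
    · show cc (vg v J F ω) = cc (vg v J F ω')
      rw [hψ, hψ]
      exact congrArg ψ (Prod.ext_iff.mp e).1
    · have : 0 ≤ δ * q * J := by positivity
      linarith
  · -- the rows
    intro i hi x hx0 hxq
    have hi' : (i : ℝ) ≤ N₀ := by exact_mod_cast hi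
    have e0 : 0 ≤ q * i / N₀ := by positivity
    obtain ⟨qi, hqi⟩ : ∃ qi : ℝ, qi = q - q * i / N₀ := ⟨_, rfl⟩
    rw [← hqi] at hxq ⊢
    have hqiq : qi ≤ q := by rw [hqi]; linarith
    have hR := row_npv htm H (κ := κ) (K := Kc) (N := P + qi) (sa := P + x) he he8 heg
      (by linarith) hΘ (hvr.le htm (by linarith))
      (hrow (P + x) (P + qi) (by linarith) (by linarith) (by linarith)) (δ := δ * q / 2 - d)
      (by linarith)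
    obtain ⟨J₂, hJ₂⟩ := exists_nat_ge ((m * Real.log 7 + r * Real.log (4 * (Kc + 3) + 3)) /
      (δ * q / 2))
    refine Bas.mono J₂ (hR.and (Pool.GRW.tmc_bas htm one_pos)) ?_
    rintro J hJ F A ⟨h1, hA, -⟩ V C z z' G cc ⟨g, hTh, φ, ψ, hφ, hψ⟩
    have hJ2 : (J₂ : ℝ) ≤ J := by exact_mod_cast hJ
    have hJ0 : (0 : ℝ) ≤ J := Nat.cast_nonneg J
    have f1 : m * Real.log 7 + r * Real.log (4 * (Kc + 3) + 3) ≤ δ * q / 2 * J := by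
      have := hJ₂.trans hJ2
      rw [div_le_iff₀ (by positivity)] at this
      linarith
    have h2 := h1 V z z' G g hTh
    obtain ⟨hlb, -⟩ := hΘ J F A V z z' G g hTh
    obtain ⟨q', hq'⟩ : ∃ q' : F.Ω → ℝ, q' = Pool.Agent.H49.Ent.cond F.p A True := ⟨_, rfl⟩
    have hq'l : IsLaw q' := by
      rw [hq']
      exact isLaw_cond F.isLaw hA
    have h0 := hq'l.nonneg
    rw [← hq'] at h2 ⊢
    obtain ⟨Hn, hHn⟩ : ∃ Hn : F.Ω → ℤ, Hn = fun ω => ⌊(2 : ℝ) ^ ((P + qi) * J) *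
      ojet F κ 0 (G (z' (slam F ⌊v * J⌋₊ ω))) ω⌋ := ⟨_, rfl⟩
    obtain ⟨Rx, hRx⟩ : ∃ Rx : F.Ω → ℤ, Rx = fun ω => ⌊(2 : ℝ) ^ ((P + x) * J) *
      ojet F κ 0 (G (z' (slam F ⌊v * J⌋₊ ω))) ω⌋ := ⟨_, rfl⟩
    obtain ⟨Y, hY⟩ : ∃ Y : F.Ω → ℤ × (V × (C × (ℕ × F.ζ))), Y = fun ω =>
      (Rx ω, (z' (slam F ⌊v * J⌋₊ ω), (cc (slam F ⌊v * J⌋₊ ω), F.W ω))) := ⟨_, rfl⟩
    obtain ⟨ht, hht⟩ : ∃ ht : F.Ω → ℕ → ℤ, ht = fun ω => hts F c r₀ r z' ⌊v * J⌋₊ g n ω :=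
      ⟨_, rfl⟩
    obtain ⟨B, hB⟩ : ∃ B : F.Ω → Fin m → ℤ, B = bI ((range r₀).image c) (v + lam) J F := ⟨_, rfl⟩
    have s1 := CH_le_add h0 Hn (fun ω => (ht ω, B ω)) Y
    have s2 := CH_subadd h0 ht B Y
    have s3 : CH q' ht Y ≤ r * Real.log (4 * (Kc + 3) + 3) := by
      rw [hht]
      refine hts_few (hWa J) (fun l a b v => (hlb l a b).deg v) hq'l Y
        (fun ω => φ (cc (slam F ⌊v * J⌋₊ ω))) (Un := ⌊(v + lam) * J⌋₊)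
        (fun ω => (hφ _).symm) fun ω ω' e => ?_
      rw [hY] at e
      simp only [Prod.mk.injEq] at e
      obtain ⟨-, -, e3, e4⟩ := e
      exact ⟨(Prod.ext_iff.mp e4).1, congrArg φ e3⟩
    have s4 : CH q' B Y ≤ m * Real.log 7 := by
      rw [hB]
      refine le_trans (CH_mono_cond h0 fun ω ω' _ _ e => ?_)
        (cV0_pos hq'l ((range r₀).image c) (hWa J) ⌊(v + lam) * J⌋₊)
      rw [hY] at e
      simp only [Prod.mk.injEq] at e ⊢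
      obtain ⟨-, -, e3, e4⟩ := e
      have e5 := hφ (slam F ⌊v * J⌋₊ ω)
      have e6 := hφ (slam F ⌊v * J⌋₊ ω')
      rw [e3, ← e6] at e5
      exact ⟨congrArg Prod.fst e5, e4⟩
    have s5 : CH q' Hn (fun ω => ((ht ω, B ω), Y ω)) ≤
        ((1 - h) * (qi - x) * Real.log 2 + δ * q / 2) * J := by
      refine le_trans (CH_mono_cond h0 fun ω ω' _ _ e => ?_) (hHn ▸ h2.trans (le_of_eq ?_))
      · rw [hY] at e
        simp only [Prod.mk.injEq] at e ⊢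
        obtain ⟨⟨e1, e2⟩, e3, e4, e5, e6⟩ := e
        rw [hRx] at e3
        rw [hht] at e1
        rw [hB] at e2
        exact ⟨e3, e4, e1, e2, e6⟩
      · ring
    have s6 : CH q' Hn Y ≤ ((1 - h) * (qi - x) * Real.log 2 + δ * q) * J := by
      have e7 : ((1 - h) * (qi - x) * Real.log 2 + δ * q) * J =
        ((1 - h) * (qi - x) * Real.log 2 + δ * q / 2) * J + δ * q / 2 * J := by ring
      rw [e7]
      linarith
    rw [hHn, hY, hRx] at s6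
    exact s6
  · -- the value
    intro K₁
    have hV := hvy (δ * q / 4) (by linarith)
    obtain ⟨J₂, hJ₂⟩ := exists_nat_ge ((r * Real.log (4 * (Kc + 3) + 3)) / (δ * q / 4))
    refine Bas.mono J₂ (((hctx' K₁).and hV).and (Pool.GRW.tmc_bas htm one_pos)) ?_
    rintro J hJ F A ⟨⟨h1, h2⟩, hA, -⟩ V C z z' G cc ⟨g, hTh, φ, ψ, hφ, hψ⟩ u₀ hu₀
    have hJ2 : (J₂ : ℝ) ≤ J := by exact_mod_cast hJ
    have hJ0 : (0 : ℝ) ≤ J := Nat.cast_nonneg J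
    have f1 : r * Real.log (4 * (Kc + 3) + 3) ≤ δ * q / 4 * J := by
      have := hJ₂.trans hJ2
      rw [div_le_iff₀ (by positivity)] at this
      linarith
    obtain ⟨hlb, hcls⟩ := hΘ J F A V z z' G g hTh
    obtain ⟨V₁, z₁, hz₁, h1⟩ := h1 V z z' G g hTh u₀ hu₀
    obtain ⟨V₂, z₂, hz₂, h2⟩ := h2 V z z' G g hTh
    obtain ⟨φw, hφw⟩ := vg_mono hwa ha J F
    have hz₂' : Cl2 (f J F) (vg a J F) A z₂ := by
      obtain ⟨h3, ψ₂, h4⟩ := hz₂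
      exact ⟨h3, fun x => ψ₂ (φw x), fun ω hω => (h4 ω hω).trans (congrArg ψ₂ (hφw ω))⟩
    refine ⟨V₁ × V₂, fun ω => (z₁ ω, z₂ ω), hz₁.join hz₂', ?_⟩
    obtain ⟨q', hq'⟩ : ∃ q' : F.Ω → ℝ, q' = Pool.Agent.H49.Ent.cond F.p A True := ⟨_, rfl⟩
    have hq'l : IsLaw q' := by
      rw [hq']
      exact isLaw_cond F.isLaw hA
    have h0 := hq'l.nonneg
    rw [← hq'] at h1 h2 ⊢
    obtain ⟨Xn, hXn⟩ : ∃ Xn : F.Ω → ℤ, Xn = fun ω => ⌊(2 : ℝ) ^ ((P + q) * J) *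
      ojet F κ 0 (G (z' (slam F ⌊v * J⌋₊ ω))) ω⌋ := ⟨_, rfl⟩
    obtain ⟨Cx, hCx⟩ : ∃ Cx : F.Ω → (Fin m → ℤ × ℤ) × (ℕ → ℕ → ℤ),
      Cx = ctx c r₀ r Kc v lam n J F V z' g := ⟨_, rfl⟩
    obtain ⟨ht, hht⟩ : ∃ ht : F.Ω → ℕ → ℤ, ht = fun ω => hts F c r₀ r z' ⌊v * J⌋₊ g n ω :=
      ⟨_, rfl⟩
    obtain ⟨Y, hY⟩ : ∃ Y : F.Ω → U₀ × ((V₁ × V₂) × γ J F), Y = fun ω =>
      (u₀ ω, ((z₁ ω, z₂ ω), y J F ω)) := ⟨_, rfl⟩
    rw [← hXn, ← hY]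
    rw [← hXn] at h2
    rw [← hCx] at h1
    have s1 := CH_le_add h0 Xn ht Y
    have s2 := CH_le_add h0 ht Cx Y
    have s3 : CH q' Cx Y ≤ δ * q / 4 * J := by
      refine le_trans (CH_mono_cond h0 fun ω ω' _ _ e => ?_) h1
      rw [hY] at e
      simp only [Prod.mk.injEq] at e ⊢
      exact ⟨e.1, e.2.1.1, e.2.2⟩
    have s4 : CH q' ht (fun ω => (Cx ω, Y ω)) ≤ r * Real.log (4 * (Kc + 3) + 3) := by
      rw [hht]
      refine hts_few (hWa J) (fun l a b v => (hlb l a b).deg v) hq'l _ Cx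
        (Un := ⌊(v + lam) * J⌋₊) (fun ω => by rw [hCx]; rfl) fun ω ω' e => ?_
      simp only [Prod.mk.injEq] at e
      obtain ⟨e1, e2⟩ := e
      rw [hY] at e2
      simp only [Prod.mk.injEq] at e2
      obtain ⟨φT, hφT⟩ := hyT J F
      exact ⟨by rw [hφT, hφT, e2.2.2], e1⟩
    have s5 : CH q' Xn (fun ω => (ht ω, Y ω)) ≤ δ * q / 4 * J := by
      refine le_trans (CH_mono_cond h0 fun ω ω' _ _ e => ?_) h2
      simp only [Prod.mk.injEq] at e ⊢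
      obtain ⟨e1, e2⟩ := e
      rw [hY] at e2
      rw [hht] at e1
      simp only [Prod.mk.injEq] at e2
      exact ⟨e1, e2.2.1.2, e2.2.2⟩
    have : 0 ≤ δ * q * J := by positivity
    linarith

/-- **All jets of the own path**, given the near digits of the chain. -/
theorem path_npv (K : ℕ) {h : ℝ} (hh : 0 < h) (hh1 : h ≤ 1) {ε : ℝ} (hε : 0 < ε) :
    ∃ δ : ℝ, 0 < δ ∧ ∀ {m : ℕ} {S : PCl m} {C₀ : ℝ} (_ : TmC S C₀) {c : ℕ → Fin m} {r₀ r : ℕ}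
    {v w lam ρ g₀ : ℝ} {E pc s n lv rd : ℕ → ℝ}
    (_ : ChV S c r₀ r v w lam ρ g₀ E pc s n lv rd) {κ : Fin m} {I : Finset (Fin m)}
    {Kc : ℕ} {e P pN q d rG eG a : ℝ} (_ : 0 < e) (_ : e ≤ ρ / 8) (_ : e ≤ g₀ / 2)
    (_ : pN < P) (_ : P - pN ≤ e) (_ : P - pN ≤ δ * q / 8)
    (_ : 0 < q) (_ : v + q ≤ 1) (_ : w ≤ a) (_ : a ≤ 1) (_ : 0 ≤ rG)
    (_ : 0 < eG) (_ : d + (r + 1) * ρ < δ * q / 2) {Θ : Fm4 m}
    (_ : NpL Θ c r₀ r Kc v e E rd pc)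
    (_ : ValP S Θ c r₀ r κ v w (P + q) n (fun J F => ptr F J)
      (fun J (F : Fam m J) ω => (bI ((range r₀).image c) (v + lam) J F ω, F.W ω)))
    (_ : ∀ (J : ℕ) (F : Fam m J) (A : F.Ω → Prop) (V : Type) (z : PtT F → V) (z' : LnT F → V)
      (G : V → MvPolynomial (Option (Fin m)) ℝ) (g : V → ℕ → MvPolynomial (Option (Fin m)) ℝ),
      Θ J F A V z z' G g →
      LbOK F I κ K ⌊eG * J⌋₊ J ⌊v * J⌋₊ ⌊(rG + eG) * J⌋₊ ⌊pN * J⌋₊ A z z' G)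
    (_ : ∀ (J : ℕ) (F : Fam m J) (A B : F.Ω → Prop) (V : Type) (z : PtT F → V) (z' : LnT F → V)
      (G : V → MvPolynomial (Option (Fin m)) ℝ) (g : V → ℕ → MvPolynomial (Option (Fin m)) ℝ),
      Sub B A → Θ J F A V z z' G g → Θ J F B V z z' G g)
    (_ : ∀ sa sb : ℝ, P ≤ sa → sa ≤ sb → sb ≤ P + q →
      Bas S (fun J F A => ∀ (V : Type) (z : PtT F → V) (z' : LnT F → V)
      (G : V → MvPolynomial (Option (Fin m)) ℝ) (g : V → ℕ → MvPolynomial (Option (Fin m)) ℝ),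
      Θ J F A V z z' G g →
      CH (Pool.Agent.H49.Ent.cond F.p A True)
        (fun ω => ⌊(2 : ℝ) ^ (sb * J) * ojet F κ 0 (G (z' (slam F ⌊v * J⌋₊ ω))) ω⌋)
        (fun ω => (⌊(2 : ℝ) ^ (sa * J) * ojet F κ 0 (G (z' (slam F ⌊v * J⌋₊ ω))) ω⌋,
          (ceI ((range r).image c) (fun _ => J) (F.x ω),
            (z' (slam F ⌊v * J⌋₊ ω), F.W ω)))) ≤
        ((1 - h) * (sb - sa) * Real.log 2 + d) * J))
    {U₀ : Type} {Qu : Qt m U₀} {α γ : ∀ J : ℕ, Fam m J → Type}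
    {f : ∀ (J : ℕ) (F : Fam m J), F.Ω → α J F} {y : ∀ (J : ℕ) (F : Fam m J), F.Ω → γ J F}
    (_ : ∀ (J : ℕ) (F : Fam m J), ∃ φ : α J F → PtT F, ∀ ω, ptr F J ω = φ (f J F ω))
    (_ : Kn0 ((range r₀).image c) (v + lam) y)
    (_ : ValP S Θ c r₀ r κ v w (P + q) n f y)
    (_ : FwX S f (vg a) y Qu c r₀ r Kc E v rd pc (ctx c r₀ r Kc v lam n) e (δ * q / 4)),
    ∀ K₀ : ℕ, Bas S (fun J F A => ∀ (V : Type) (z : PtT F → V) (z' : LnT F → V)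
      (G : V → MvPolynomial (Option (Fin m)) ℝ) (g : V → ℕ → MvPolynomial (Option (Fin m)) ℝ),
      Θ J F A V z z' G g → ∀ u₀ : F.Ω → U₀, Qu.P K₀ (P - pN) J F A u₀ →
      ∃ (V₁ : Type) (z₁ : F.Ω → V₁), Cl2 (f J F) (vg a J F) A z₁ ∧
        CH (Pool.Agent.H49.Ent.cond F.p A True)
          (fun ω => ((z' (vg v J F ω), (vg v J F ω).2), (ctx c r₀ r Kc v lam n J F V z' g ω,
            fun j : Fin (K + 3) => ⌊jr F ⌊v * J⌋₊ (2 ^ ((P + q) * J)) κ z' G j (vg v J F ω)⌋)))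
          (fun ω => (u₀ ω, (z₁ ω, y J F ω))) ≤ ε * q * J) := by
  obtain ⟨δ, hδ, Hp⟩ := path_npw K hh hh1 hε
  refine ⟨δ, hδ, ?_⟩
  intro m S C₀ htm c r₀ r v w lam ρ g₀ E pc s n lv rd H κ I Kc e P pN q d rG eG a he he8
    heg hpNP hPe hPδ hq hvq hwa ha hrG heG hd Θ hΘ hvr hΘl hΘs hrow U₀ Qu α γ f y hf hy hvy hctx
  refine Hp htm H he he8 heg hpNP hPδ hq hvq hwa ha hrG heG hd hΘ hvr hΘl hΘs hrow hf hy hvy
    (P - pN) fun K₀ => ?_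
  refine Bas.mono 0 (hctx K₀) ?_
  intro J _ F A h1 V z z' G g hTh u₀ hu₀
  exact h1 V z z' g (hΘ J F A V z z' G g hTh).1 u₀ (Qu.mono le_rfl hPe hu₀)

/-- **The hypotheses of the near path theorem** with a value: degree `K` of the labels of the path,
deficit `h`, error `δ q` of the rows. -/
structure NpV (K : ℕ) (h δ : ℝ) {m : ℕ} (S : PCl m) (c : ℕ → Fin m) (r₀ r : ℕ)
    (v w lam ρ g₀ : ℝ) (E pc s n lv rd : ℕ → ℝ) (κ : Fin m) (I : Finset (Fin m)) (Kc : ℕ)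
    (e P pN q d rG eG a : ℝ) (Θ : Fm4 m) : Prop where
  ch : ChV S c r₀ r v w lam ρ g₀ E pc s n lv rd
  e0 : 0 < e
  e8 : e ≤ ρ / 8
  eg : e ≤ g₀ / 2
  pNP : pN < P
  Pe : P - pN ≤ e
  Pδ : P - pN ≤ δ * q / 8
  q0 : 0 < q
  vq : v + q ≤ 1
  wa : w ≤ a
  a1 : a ≤ 1
  rG0 : 0 ≤ rG
  eG0 : 0 < eG
  dd : d + (r + 1) * ρ < δ * q / 2
  npl : NpL Θ c r₀ r Kc v e E rd pc
  val : ValP S Θ c r₀ r κ v w (P + q) n (fun J F => ptr F J)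
    (fun J (F : Fam m J) ω => (bI ((range r₀).image c) (v + lam) J F ω, F.W ω))
  lb : ∀ (J : ℕ) (F : Fam m J) (A : F.Ω → Prop) (V : Type) (z : PtT F → V) (z' : LnT F → V)
    (G : V → MvPolynomial (Option (Fin m)) ℝ) (g : V → ℕ → MvPolynomial (Option (Fin m)) ℝ),
    Θ J F A V z z' G g →
    LbOK F I κ K ⌊eG * J⌋₊ J ⌊v * J⌋₊ ⌊(rG + eG) * J⌋₊ ⌊pN * J⌋₊ A z z' G
  hs : ∀ (J : ℕ) (F : Fam m J) (A B : F.Ω → Prop) (V : Type) (z : PtT F → V) (z' : LnT F → V)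
    (G : V → MvPolynomial (Option (Fin m)) ℝ) (g : V → ℕ → MvPolynomial (Option (Fin m)) ℝ),
    Sub B A → Θ J F A V z z' G g → Θ J F B V z z' G g
  row : ∀ sa sb : ℝ, P ≤ sa → sa ≤ sb → sb ≤ P + q →
    Bas S (fun J F A => ∀ (V : Type) (z : PtT F → V) (z' : LnT F → V)
    (G : V → MvPolynomial (Option (Fin m)) ℝ) (g : V → ℕ → MvPolynomial (Option (Fin m)) ℝ),
    Θ J F A V z z' G g →
    CH (Pool.Agent.H49.Ent.cond F.p A True)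
      (fun ω => ⌊(2 : ℝ) ^ (sb * J) * ojet F κ 0 (G (z' (slam F ⌊v * J⌋₊ ω))) ω⌋)
      (fun ω => (⌊(2 : ℝ) ^ (sa * J) * ojet F κ 0 (G (z' (slam F ⌊v * J⌋₊ ω))) ω⌋,
        (ceI ((range r).image c) (fun _ => J) (F.x ω),
          (z' (slam F ⌊v * J⌋₊ ω), F.W ω)))) ≤
      ((1 - h) * (sb - sa) * Real.log 2 + d) * J)

/-- **The jets of the own path**, given the near digits of the chain. -/
theorem fw2_npv (K : ℕ) {h : ℝ} (hh : 0 < h) (hh1 : h ≤ 1) {ε : ℝ} (hε : 0 < ε) :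
    ∃ δ : ℝ, 0 < δ ∧ ∀ {m : ℕ} {S : PCl m} {C₀ : ℝ} (_ : TmC S C₀) {c : ℕ → Fin m} {r₀ r : ℕ}
    {v w lam ρ g₀ : ℝ} {E pc s n lv rd : ℕ → ℝ} {κ : Fin m} {I : Finset (Fin m)} {Kc : ℕ}
    {e P pN q d rG eG a : ℝ} {Θ : Fm4 m}
    (_ : NpV K h δ S c r₀ r v w lam ρ g₀ E pc s n lv rd κ I Kc e P pN q d rG eG a Θ)
    {U₀ : Type} {Qu : Qt m U₀} {α γ : ∀ J : ℕ, Fam m J → Type}
    {f : ∀ (J : ℕ) (F : Fam m J), F.Ω → α J F} {y : ∀ (J : ℕ) (F : Fam m J), F.Ω → γ J F}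
    (_ : ∀ (J : ℕ) (F : Fam m J), ∃ φ : α J F → PtT F, ∀ ω, ptr F J ω = φ (f J F ω))
    (_ : Kn0 ((range r₀).image c) (v + lam) y)
    (_ : ValP S Θ c r₀ r κ v w (P + q) n f y)
    (_ : FwX S f (vg a) y Qu c r₀ r Kc E v rd pc (ctx c r₀ r Kc v lam n) e (δ * q / 4))
    {Th : Fm2 m} (_ : ∀ (J : ℕ) (F : Fam m J) (A : F.Ω → Prop) (V C : Type) (z : PtT F → V)
      (z' : LnT F → V) (G₁ G₂ : V → MvPolynomial (Option (Fin m)) ℝ) (cc : LnT F → C),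
      Th J F A V C z z' G₁ G₂ cc →
      ∃ g : V → ℕ → MvPolynomial (Option (Fin m)) ℝ, Θ J F A V z z' G₂ g) (j : ℕ) {e' : ℝ}
    (_ : e' ≤ P - pN),
    Fw2 S f a y Qu Th (τ := fun _ _ _ _ => ℤ)
      (fun J F _ _ z' _ G₂ _ ω => ⌊(2 : ℝ) ^ ((P + q - j * v) * J) *
        ojet F κ j (G₂ (z' (slam F ⌊v * J⌋₊ ω))) ω⌋) e' (ε * q) := by
  classical
  obtain ⟨δ, hδ, Hp⟩ := path_npv K hh hh1 (half_pos hε)
  refine ⟨δ, hδ, ?_⟩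
  intro m S C₀ htm c r₀ r v w lam ρ g₀ E pc s n lv rd κ I Kc e P pN q d rG eG a Θ H U₀ Qu
    α γ f y hf hy hvy hctx Th hTh j e' he' K₀
  have hq := H.q0
  have hv0 := H.ch.v0
  have hv1 : v ≤ 1 := by linarith [H.vq]
  have hyT : ∀ (J : ℕ) (F : Fam m J), ∃ φ : γ J F → ℕ, ∀ ω, F.T ω = φ (y J F ω) := by
    intro J F
    obtain ⟨φ, hφ⟩ := hy J F
    exact ⟨fun x => (φ x).1, fun ω => (congrArg Prod.fst (hφ ω)).symm⟩
  obtain ⟨M, hM⟩ := jet_path (K + 2) j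
  obtain ⟨J₁, hJ₁⟩ := exists_nat_ge (Real.log (2 * M + 1) / (ε / 2 * q))
  refine Bas.mono J₁ ((Hp htm H.ch H.e0 H.e8 H.eg H.pNP H.Pe H.Pδ H.q0 H.vq H.wa H.a1 H.rG0 H.eG0
    H.dd H.npl H.val H.lb H.hs H.row hf hy hvy hctx K₀).and (Pool.GRW.tmc_bas htm one_pos)) ?_
  rintro J hJ F A ⟨h1, hA, -⟩ V C z z' G₁ G₂ cc hT u₀ hu₀
  obtain ⟨g, hg⟩ := hTh J F A V C z z' G₁ G₂ cc hT
  have hJ0 : (0 : ℝ) ≤ J := Nat.cast_nonneg J
  have f1 : Real.log (2 * M + 1) ≤ ε / 2 * q * J := by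
    have e1 : (J₁ : ℝ) ≤ J := by exact_mod_cast hJ
    have e2 := hJ₁.trans e1
    rw [div_le_iff₀ (by positivity)] at e2
    linarith
  obtain ⟨V₁, z₁, hz₁, h2⟩ := h1 V z z' G₂ g hg u₀ (Qu.mono le_rfl he' hu₀)
  refine ⟨V₁, z₁, hz₁, ?_⟩
  obtain ⟨q', hq'⟩ : ∃ q' : F.Ω → ℝ, q' = Pool.Agent.H49.Ent.cond F.p A True := ⟨_, rfl⟩
  have hq'l : IsLaw q' := by
    rw [hq']
    exact isLaw_cond F.isLaw hA
  have h0 := hq'l.nonneg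
  rw [← hq'] at h2 ⊢
  obtain ⟨X, hX⟩ : ∃ X : F.Ω → (V × (F.ζ × ℕ)) × (((Fin m → ℤ × ℤ) × (ℕ → ℕ → ℤ)) ×
      (Fin (K + 3) → ℤ)), X = fun ω => ((z' (vg v J F ω), (vg v J F ω).2),
        (ctx c r₀ r Kc v lam n J F V z' g ω,
        fun j : Fin (K + 3) => ⌊jr F ⌊v * J⌋₊ (2 ^ ((P + q) * J)) κ z' G₂ j (vg v J F ω)⌋)) :=
    ⟨_, rfl⟩
  rw [← hX] at h2
  obtain ⟨Y, hY⟩ : ∃ Y : F.Ω → U₀ × (V₁ × γ J F), Y = fun ω => (u₀ ω, (z₁ ω, y J F ω)) := ⟨_, rfl⟩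
  rw [← hY] at h2 ⊢
  have s1 := CH_le_add h0 (fun ω => ⌊(2 : ℝ) ^ ((P + q - j * v) * J) *
        ojet F κ j (G₂ (z' (slam F ⌊v * J⌋₊ ω))) ω⌋) X Y
  have s2 := hM hv0 (floor_le hv1 J) (s := P + q) (κ := κ) (z' := z') (G := G₂) (fun x => by
      have h3 := (H.lb J F A V z z' G₂ g hg).deg x
      refine (MvPolynomial.totalDegree_sub _ _).trans (max_le ?_ (h3.trans (by omega)))
      exact (totalDegree_X _).le.trans (by omega)) hq'l (fun ω => (X ω, Y ω)) (fun ω ω' _ _ e => by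
      obtain ⟨φT, hφT⟩ := hyT J F
      have e1 := (Prod.ext_iff.mp e).1
      have e2 := (Prod.ext_iff.mp e).2
      rw [hX] at e1
      rw [hY] at e2
      simp only [Prod.mk.injEq] at e1 e2
      refine ⟨by rw [hφT, hφT, e2.2.2], fun i hi => ?_⟩
      exact congrFun e1.2.2 ⟨i, by omega⟩)
  have e3 : ε * q * J = ε / 2 * q * J + ε / 2 * q * J := by ring
  linarith

/-- **The value** from the near heights of the places before `r`, for a chain with more places. -/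
theorem valP_of (htm : TmC S C₀) {c : ℕ → Fin m} {r₀ r R : ℕ} {v w lam q ρ g₀ : ℝ}
    {E p s n lv rd : ℕ → ℝ} (H : ChJ S c r₀ r v w lam q ρ g₀ E p s n lv rd) (hrR : r ≤ R)
    {α γ : ∀ J : ℕ, Fam m J → Type} {f : ∀ (J : ℕ) (F : Fam m J), F.Ω → α J F}
    {y : ∀ (J : ℕ) (F : Fam m J), F.Ω → γ J F}
    (hf : ∀ (J : ℕ) (F : Fam m J), ∃ φ : α J F → PtT F, ∀ ω, ptr F J ω = φ (f J F ω))
    (hy : Kn0 ((range r₀).image c) (v + lam) y) (κ : Fin m) (K K' : ℕ) {e pN pa N : ℝ}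
    (he : 0 < e) (he8 : e ≤ ρ / 8) (hpN : 0 < pN) (hpa : pN ≤ pa) (hNa : N ≤ pa) (hN : N ≤ pN + q)
    {Θ : Fm4 m} (hΘ : ∀ (J : ℕ) (F : Fam m J) (A : F.Ω → Prop) (V : Type) (z : PtT F → V)
      (z' : LnT F → V) (G : V → MvPolynomial (Option (Fin m)) ℝ)
      (g : V → ℕ → MvPolynomial (Option (Fin m)) ℝ), Θ J F A V z z' G g →
      LbX F c r₀ R K e E v rd p A z z' g ∧
      (∀ ω, A ω → |ojet F κ 0 (G (z' (slam F ⌊v * J⌋₊ ω))) ω| ≤ 1 / 2 ^ ⌊pN * J⌋₊) ∧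
      VaD F c r κ K' v w pa A z' G) :
    ValP S Θ c r₀ R κ v w N n f y := by
  intro h hh
  refine Bas.mono 0 ((val_np htm H hf hy κ K K' he he8 hpN hpa hNa hN hh).and
    (Pool.GRW.tmc_bas htm one_pos)) ?_
  rintro J - F A ⟨h1, hA, -⟩ V z z' G g hTh
  obtain ⟨hlb, hG, hVa⟩ := hΘ J F A V z z' G g hTh
  obtain ⟨V₁, z₁, hz₁, h2⟩ := h1 V z z' G g (fun l hl0 hl => hlb l hl0 (by omega)) hG hVa
  refine ⟨V₁, z₁, hz₁, le_trans (CH_mono_cond (isLaw_cond F.isLaw hA).nonneg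
    fun ω ω' _ _ e => ?_) h2⟩
  simp only [Prod.mk.injEq] at e ⊢
  obtain ⟨e1, e2, e3⟩ := e
  refine ⟨funext fun i => ?_, e2, e3⟩
  have e4 := congrFun e1 i
  unfold hts at e4 ⊢
  by_cases hi : r₀ ≤ i ∧ i < r
  · rw [if_pos ⟨hi.1, by omega⟩, if_pos ⟨hi.1, by omega⟩] at e4
    rw [if_pos hi, if_pos hi]
    exact e4
  · rw [if_neg hi, if_neg hi]

end Pool.NPZ
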