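import Pool.Agent.H42.D2.Ntb
import Pool.Agent.H42.D2.Nqa
import Pool.Agent.H92.D2.Ceg

/-!
# The rows and the chain of the near path theorem with a side path

`row_raw`: the rows of the own height over a label given the exact other places, from the rows of the
coordinate. `chv_of`: the chain with one more place, of which the digits are only the natural ones.
`RecG.chv`, `RecG.rowN`: at the windows of a record.
-/

set_option autoImplicit false

namespace Pool.NPZ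

open Finset Real MvPolynomial
open Pool.Agent.H49.Ent Pool.Agent.H32.Dense Pool.STK Pool.KA Pool.KSAT Pool.K2S Pool.PB Pool.GEN
open Pool.S6C Pool.RCD Pool.LA91 Pool.OWN68 Pool.CHT Pool.AJW
open Pool.GRD (LbP)
open Pool.UNJ (ceI Tub)
open Pool.AJX (LbX FwX)

/-- **The rows of the own height** given the exact point over `I`, from the rows of the coordinate. -/
theorem row_raw {m : ℕ} {S : PCl m} {C₀ : ℝ} (htm : TmC S C₀) {I : Finset (Fin m)} {κ : Fin m}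
    {w p q h δ₁ δ e rr x : ℝ} (K : ℕ) (he : 0 ≤ e) (hp : 0 ≤ p) (hpq : p + q + e < 1)
    (hr : rr ≤ 1) (hx0 : 0 ≤ x) (hxq : x ≤ q) (hraw : RawN S I κ p q h δ₁) (hδ : δ₁ < δ) :
    Bas S (fun J F A => ∀ (V : Type) (z : PtT F → V) (z' : LnT F → V)
      (G : V → MvPolynomial (Option (Fin m)) ℝ) (P' : ℕ),
      LbOK F I κ K ⌊e * J⌋₊ J ⌊w * J⌋₊ ⌊rr * J⌋₊ P' A z z' G →
      CH (Pool.Agent.H49.Ent.cond F.p A True)
        (fun ω => ⌊(2 : ℝ) ^ ((p + q) * J) * ojet F κ 0 (G (z' (slam F ⌊w * J⌋₊ ω))) ω⌋)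
        (fun ω => (⌊(2 : ℝ) ^ ((p + x) * J) * ojet F κ 0 (G (z' (slam F ⌊w * J⌋₊ ω))) ω⌋,
          (ceI I (fun _ => J) (F.x ω), (z' (slam F ⌊w * J⌋₊ ω), F.W ω)))) ≤
        ((1 - h) * (q - x) * Real.log 2 + δ) * J) := by
  classical
  have hlogm : 0 ≤ Real.log (m + 1) := Real.log_nonneg (by
    have : (0 : ℝ) ≤ m := Nat.cast_nonneg m
    linarith)
  have l9 : 0 ≤ Real.log 9 := Real.log_nonneg (by norm_num)
  have l11 : 0 ≤ Real.log 11 := Real.log_nonneg (by norm_num)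
  have hl2 : 0 < Real.log 2 := Real.log_pos one_lt_two
  have hgap : 0 < (1 - p - q - e) * Real.log 2 := mul_pos (by linarith) hl2
  obtain ⟨ρ, hρ⟩ : ∃ ρ : ℝ, ρ = δ - δ₁ := ⟨_, rfl⟩
  have hρ0 : 0 < ρ := by rw [hρ]; linarith
  obtain ⟨J₂, hJ₂⟩ := exists_nat_ge (Real.log (m + 1) / ((1 - p - q - e) * Real.log 2) +
    (Real.log 9 + Real.log 11) / ρ)
  refine Bas.mono J₂ ((hraw x hx0 hxq).and (Pool.GRW.tmc_bas htm one_pos)) ?_
  rintro J hJ F A ⟨hraw, hA, -⟩ V z z' G P' hlb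
  have hJ2 : (J₂ : ℝ) ≤ J := by exact_mod_cast hJ
  have hJ0 : (0 : ℝ) ≤ J := Nat.cast_nonneg J
  have t1 : 0 ≤ Real.log (m + 1) / ((1 - p - q - e) * Real.log 2) := by positivity
  have t2 : 0 ≤ (Real.log 9 + Real.log 11) / ρ := by positivity
  have f1 : Real.log (m + 1) ≤ (1 - p - q - e) * Real.log 2 * J := by
    have : Real.log (m + 1) / ((1 - p - q - e) * Real.log 2) ≤ J := by linarith
    rw [div_le_iff₀ hgap] at this
    linarith
  have f2 : Real.log 9 + Real.log 11 ≤ ρ * J := by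
    have : (Real.log 9 + Real.log 11) / ρ ≤ J := by linarith
    rw [div_le_iff₀ hρ0] at this
    linarith
  obtain ⟨q', hq'⟩ : ∃ q' : F.Ω → ℝ, q' = Pool.Agent.H49.Ent.cond F.p A True := ⟨_, rfl⟩
  have hq'l : IsLaw q' := by
    rw [hq']
    exact isLaw_cond F.isLaw hA
  have h0 := hq'l.nonneg
  have hq'A : ∀ ω, 0 < q' ω → A ω := fun ω hω => by
    rw [hq'] at hω
    exact of_cond_pos hω
  rw [← hq'] at hraw ⊢
  obtain ⟨W, hW⟩ : ∃ W : ℕ, W = ⌊w * J⌋₊ := ⟨_, rfl⟩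
  rw [← hW] at hlb ⊢
  have hrJ : ⌊rr * J⌋₊ ≤ J := by
    refine Nat.floor_le_of_le ?_
    have : rr * J ≤ 1 * J := mul_le_mul_of_nonneg_right hr hJ0
    linarith
  -- the height
  obtain ⟨o, ho⟩ : ∃ o : F.Ω → ℝ, o = fun ω => ojet F κ 0 (G (z' (slam F W ω))) ω := ⟨_, rfl⟩
  have hox : ∀ ω, o ω = F.x ω κ - eval (bt F ω) (G (z' (slam F W ω))) := fun ω => by
    rw [ho]
    show jet 0 (X (some κ) - G (z' (slam F W ω))) (bt F ω) (bd F ω) = _
    rw [jet_zero, map_sub, eval_X]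
    rfl
  obtain ⟨Vx, hVx⟩ : ∃ Vx : F.Ω → Fin m → ℤ, Vx = fun ω => ceI I (fun _ => J) (F.x ω) :=
    ⟨_, rfl⟩
  obtain ⟨Hn, hHn⟩ : ∃ Hn : F.Ω → ℤ, Hn = fun ω => ⌊(2 : ℝ) ^ ((p + q) * J) * o ω⌋ := ⟨_, rfl⟩
  obtain ⟨Rx, hRx⟩ : ∃ Rx : F.Ω → ℤ, Rx = fun ω => ⌊(2 : ℝ) ^ ((p + x) * J) * o ω⌋ := ⟨_, rfl⟩
  obtain ⟨Z, hZ⟩ : ∃ Z : F.Ω → V, Z = fun ω => z' (slam F W ω) := ⟨_, rfl⟩
  have herr : ∀ s : ℝ, s ≤ p + q →
      (2 : ℝ) ^ (s * J) * (2 * (2 ^ ⌊e * J⌋₊ * ((m + 1) * (1 / 2 ^ J)))) ≤ 2 := by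
    intro s hs
    have a1 : (2 : ℝ) ^ ⌊e * J⌋₊ ≤ 2 ^ (e * J) := p2_le (by positivity)
    have a2 : (1 : ℝ) / 2 ^ J = 2 ^ (-(J : ℝ)) := by
      rw [Real.rpow_neg (by norm_num), Real.rpow_natCast, one_div]
    have a3 : (m : ℝ) + 1 ≤ 2 ^ ((1 - p - q - e) * J) := by
      rw [← exp_p2, ← Real.log_le_iff_le_exp (by positivity)]
      linarith
    have a4 : (0 : ℝ) < 2 ^ (s * J) := Real.rpow_pos_of_pos (by norm_num) _
    have a5 : (0 : ℝ) < 2 ^ (e * J) := Real.rpow_pos_of_pos (by norm_num) _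
    have a6 : (0 : ℝ) < 2 ^ (-(J : ℝ)) := Real.rpow_pos_of_pos (by norm_num) _
    rw [a2]
    calc (2 : ℝ) ^ (s * J) * (2 * (2 ^ ⌊e * J⌋₊ * ((m + 1) * 2 ^ (-(J : ℝ)))))
        ≤ 2 ^ (s * J) * (2 * (2 ^ (e * J) * (2 ^ ((1 - p - q - e) * J) * 2 ^ (-(J : ℝ))))) := by
          refine mul_le_mul_of_nonneg_left (mul_le_mul_of_nonneg_left ?_ (by norm_num)) a4.le
          exact mul_le_mul a1 (mul_le_mul_of_nonneg_right a3 a6.le) (by positivity) a5.le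
      _ = 2 * (2 ^ (s * J) * 2 ^ (e * J) * 2 ^ ((1 - p - q - e) * J) * 2 ^ (-(J : ℝ))) := by
          ring
      _ = 2 * 2 ^ (s * J + e * J + (1 - p - q - e) * J + -(J : ℝ)) := by
          rw [Real.rpow_add (by norm_num), Real.rpow_add (by norm_num),
            Real.rpow_add (by norm_num)]
      _ ≤ 2 * 1 := by
          refine mul_le_mul_of_nonneg_left ?_ (by norm_num)
          refine Real.rpow_le_one_of_one_le_of_nonpos (by norm_num) ?_
          have : s * J + e * J + (1 - p - q - e) * J + -(J : ℝ) = (s - (p + q)) * J := by ring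
          rw [this]
          exact mul_nonpos_of_nonpos_of_nonneg (by linarith) hJ0
      _ = 2 := by norm_num
  have hval : ∀ ω ω', 0 < q' ω → 0 < q' ω' → Vx ω = Vx ω' → Z ω = Z ω' → F.W ω = F.W ω' →
      ∀ s ≤ p + q, |(2 : ℝ) ^ (s * J) * (o ω - o ω') -
        2 ^ (s * J) * (F.x ω κ - F.x ω' κ)| ≤ 2 := by
    intro ω ω' hω hω' e1 e2 e3 s hs
    rw [hVx] at e1
    rw [hZ] at e2
    have hT : F.T ω = F.T ω' := (Prod.ext_iff.mp e3).1
    have h1 := val_near hlb hrJ (hq'A ω hω) (hq'A ω' hω') e1 e2 hT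
    have e4 : (2 : ℝ) ^ (s * J) * (o ω - o ω') - 2 ^ (s * J) * (F.x ω κ - F.x ω' κ) =
        -(2 ^ (s * J) * (eval (bt F ω) (G (z' (slam F W ω))) -
          eval (bt F ω') (G (z' (slam F W ω'))))) := by
      rw [hox, hox]
      ring
    rw [e4, abs_neg, abs_mul, abs_of_pos (Real.rpow_pos_of_pos (by norm_num) _)]
    exact (mul_le_mul_of_nonneg_left h1 (Real.rpow_pos_of_pos (by norm_num) _).le).trans
      (herr s hs)
  have hfl1 : ∀ {t a b : ℝ}, 0 < t → ⌊t * a⌋ = ⌊t * b⌋ → |t * (a - b)| ≤ 1 :=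
    fun {t a b} ht e => by
      have := fl_scale ht.le (by rw [one_mul]) ht e
      rwa [← mul_sub] at this
  have hXd : ∀ (n : ℕ) {ω ω' : F.Ω}, F.X n ω κ = F.X n ω' κ →
      |(2 : ℝ) ^ n * (F.x ω κ - F.x ω' κ)| ≤ 1 := fun n {ω ω'} e =>
    hfl1 (by positivity) e
  -- the floors of the exponents
  have hfle : ∀ s : ℝ, 0 ≤ s → (2 : ℝ) ^ (s * J) ≤ 2 * 2 ^ ⌊s * J⌋₊ ∧
      (2 : ℝ) ^ ⌊s * J⌋₊ ≤ 2 ^ (s * J) := by
    intro s hs
    refine ⟨?_, p2_le (by positivity)⟩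
    have a1 := ip2_le (s * J)
    rw [Real.rpow_neg (by norm_num), div_le_iff₀ (by positivity)] at a1
    have a2 : (0 : ℝ) < 2 ^ (s * J) := Real.rpow_pos_of_pos (by norm_num) _
    have a3 : 2 * ((2 : ℝ) ^ (s * J))⁻¹ * 2 ^ ⌊s * J⌋₊ * 2 ^ (s * J) = 2 * 2 ^ ⌊s * J⌋₊ := by
      field_simp
    nlinarith
  have s1 : CH q' Hn (fun ω => (F.X ⌊(p + q) * J⌋₊ ω κ, (Rx ω, (Vx ω, (Z ω, F.W ω))))) ≤
      Real.log 11 := by
    have e5 : (11 : ℝ) = 2 * ((5 : ℕ) : ℝ) + 1 := by norm_num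
    rw [e5]
    refine CH_pair hq'l _ _ fun ω ω' hω hω' e => ?_
    simp only [Prod.mk.injEq] at e
    obtain ⟨e1, -, e2, e3, e4⟩ := e
    have g1 := hval ω ω' hω hω' e2 e3 e4 (p + q) le_rfl
    have g2 := hXd _ e1
    have g3 := (hfle (p + q) (by linarith)).1
    rw [hHn]
    refine floor_sub_le (D := 4) ?_
    rw [← mul_sub]
    have g4 : |(2 : ℝ) ^ ((p + q) * J) * (F.x ω κ - F.x ω' κ)| ≤ 2 := by
      rw [abs_mul, abs_of_pos (Real.rpow_pos_of_pos (by norm_num) _)]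
      rw [abs_mul, abs_of_pos (by positivity)] at g2
      calc (2 : ℝ) ^ ((p + q) * J) * |F.x ω κ - F.x ω' κ|
          ≤ 2 * 2 ^ ⌊(p + q) * J⌋₊ * |F.x ω κ - F.x ω' κ| :=
            mul_le_mul_of_nonneg_right g3 (abs_nonneg _)
        _ = 2 * (2 ^ ⌊(p + q) * J⌋₊ * |F.x ω κ - F.x ω' κ|) := by ring
        _ ≤ 2 := by linarith
    push_cast
    rw [abs_le] at g1 g4 ⊢
    constructor <;> linarith [g1.1, g1.2, g4.1, g4.2]
  have s2 : CH q' (fun ω => F.X ⌊(p + x) * J⌋₊ ω κ) (fun ω => (Rx ω, (Vx ω, (Z ω, F.W ω)))) ≤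
      Real.log 9 := by
    have e5 : (9 : ℝ) = 2 * ((4 : ℕ) : ℝ) + 1 := by norm_num
    rw [e5]
    refine CH_pair hq'l _ _ fun ω ω' hω hω' e => ?_
    simp only [Prod.mk.injEq] at e
    obtain ⟨e1, e2, e3, e4⟩ := e
    have g1 := hval ω ω' hω hω' e2 e3 e4 (p + x) (by linarith)
    rw [hRx] at e1
    have g2 := hfl1 (Real.rpow_pos_of_pos (by norm_num) _) e1
    have g3 := (hfle (p + x) (by linarith)).2
    refine floor_sub_le (a := 2 ^ ⌊(p + x) * J⌋₊ * F.x ω κ)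
      (b := 2 ^ ⌊(p + x) * J⌋₊ * F.x ω' κ) (D := 3) ?_
    rw [← mul_sub]
    have g4 : |(2 : ℝ) ^ ((p + x) * J) * (F.x ω κ - F.x ω' κ)| ≤ 3 := by
      rw [abs_le] at g1 g2 ⊢
      constructor <;> linarith [g1.1, g1.2, g2.1, g2.2]
    rw [abs_mul, abs_of_pos (by positivity)]
    rw [abs_mul, abs_of_pos (Real.rpow_pos_of_pos (by norm_num) _)] at g4
    push_cast
    exact (mul_le_mul_of_nonneg_right g3 (abs_nonneg _)).trans g4
  have s3 := CH_le_add h0 Hn (fun ω => F.X ⌊(p + q) * J⌋₊ ω κ)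
    (fun ω => (Rx ω, (Vx ω, (Z ω, F.W ω))))
  have s4 := CH_le_add h0 (fun ω => F.X ⌊(p + q) * J⌋₊ ω κ) (fun ω => F.X ⌊(p + x) * J⌋₊ ω κ)
    (fun ω => (Rx ω, (Vx ω, (Z ω, F.W ω))))
  have s5 : CH q' (fun ω => F.X ⌊(p + q) * J⌋₊ ω κ)
      (fun ω => (F.X ⌊(p + x) * J⌋₊ ω κ, (Rx ω, (Vx ω, (Z ω, F.W ω))))) ≤
      CH q' (fun ω => F.X ⌊(p + q) * J⌋₊ ω κ)
        (fun ω => (F.X ⌊(p + x) * J⌋₊ ω κ, (Vx ω, F.W ω))) :=
    CH_mono_cond h0 fun ω ω' _ _ e => by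
      simp only [Prod.mk.injEq] at e ⊢
      exact ⟨e.1, e.2.2.1, e.2.2.2.2⟩
  have hraw' : CH q' (fun ω => F.X ⌊(p + q) * J⌋₊ ω κ)
        (fun ω => (F.X ⌊(p + x) * J⌋₊ ω κ, (Vx ω, F.W ω))) ≤
      ((1 - h) * (q - x) * Real.log 2 + δ₁) * J := by
    rw [hVx]
    exact hraw
  have s6 : CH q' Hn (fun ω => (Rx ω, (Vx ω, (Z ω, F.W ω)))) ≤
      ((1 - h) * (q - x) * Real.log 2 + δ) * J := by
    have e1 : ((1 - h) * (q - x) * Real.log 2 + δ) * J =
        ((1 - h) * (q - x) * Real.log 2 + δ₁) * J + ρ * J := by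
      rw [hρ]
      ring
    linarith only [s1, s2, s3, s4, s5, hraw', e1, f2]
  rw [hHn, hRx, hVx, hZ, ho] at s6
  exact s6

/-- **The chain with one more place**, of which the digits are the natural ones of the window `w`. -/
theorem chv_of {m : ℕ} {S : PCl m} {c : ℕ → Fin m} {r : ℕ} {v w lam q ρ g₀ : ℝ}
    {E p s n lv rd : ℕ → ℝ} (H : ChJ S c 0 r v w lam q ρ g₀ E p s n lv rd)
    {nu lu : ℝ} (hE : 0 ≤ E r ∧ E r ≤ 1)
    (hch : ∃ (u₁ : ℝ) (rw : ℕ → ℝ), Chn S c 0 (r + 1) w w u₁ s rw)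
    (hrd : 0 ≤ rd r ∧ rd r + g₀ ≤ 1) (hn : nu + E r + g₀ ≤ 1) (hlu : 0 < lu)
    (hnn : s r - ρ ≤ nu)
    (hnst : ∀ l < r, s r + lu + ρ ≤ min (p r) (s r) + lv l)
    (hbas : s r + lu + ρ ≤ min (p r) (s r) + (v + lam - w)) :
    ChV S c 0 (r + 1) v w lam ρ g₀ E p s (Function.update n r nu) (Function.update lv r lu) rd := by
  have hV := H.toV
  have un : ∀ i, i < r → Function.update n r nu i = n i := fun i hi =>
    Function.update_of_ne (by omega) _ _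
  have ul : ∀ i, i < r → Function.update lv r lu i = lv i := fun i hi =>
    Function.update_of_ne (by omega) _ _
  refine
    { hr := Nat.zero_le _
      r1 := by omega
      v0 := hV.v0
      vw := hV.vw
      ρ0 := hV.ρ0
      g0 := hV.g0
      wl := hV.wl
      l1 := hV.l1
      E0 := fun i a hi => ?_
      chn := hch
      rd0 := fun i a hi => ?_
      n1 := fun i a hi => ?_
      lv0 := fun i a hi => ?_
      nn := fun i a hi => ?_
      dig := fun i a hi => ?_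
      nst := fun i a hi l b hl => ?_
      bas := fun i a hi => ?_ }
  · rcases Nat.lt_succ_iff_lt_or_eq.1 hi with h | rfl
    · exact hV.E0 i a h
    · exact hE
  · rcases Nat.lt_succ_iff_lt_or_eq.1 hi with h | rfl
    · exact hV.rd0 i a h
    · exact hrd
  · rcases Nat.lt_succ_iff_lt_or_eq.1 hi with h | rfl
    · rw [un i h]
      exact hV.n1 i a h
    · rw [Function.update_self]
      exact hn
  · rcases Nat.lt_succ_iff_lt_or_eq.1 hi with h | rfl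
    · rw [ul i h]
      exact hV.lv0 i a h
    · rw [Function.update_self]
      exact hlu
  · rcases Nat.lt_succ_iff_lt_or_eq.1 hi with h | rfl
    · rw [un i h]
      exact hV.nn i a h
    · rw [Function.update_self]
      exact hnn
  · have h : i < r := by omega
    rw [un i h, ul i h]
    exact H.dig i a h
  · have hlr : l < r := by omega
    rw [ul l hlr]
    rcases Nat.lt_succ_iff_lt_or_eq.1 hi with h | rfl
    · rw [ul i h]
      exact hV.nst i a h l b hl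
    · rw [Function.update_self]
      exact hnst l hl
  · rcases Nat.lt_succ_iff_lt_or_eq.1 hi with h | rfl
    · rw [ul i h]
      exact hV.bas i a h
    · rw [Function.update_self]
      exact hbas

end Pool.NPZ
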