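import Pool.Agent.H42.D2.Ntd

/-!
# The velocity over labels with a closed slope, one near dead place before the target

`VdK`, `vdK_ex`: the numbers. `vfN_D`: at the windows of a record, `N` at the place `r + 1`, `u` at the place `r`,
the places before `u` of slope one: the velocity of `N - P` is dead (`VfNU`), `P` a label of `N` over the
places `0, …, r` of a family of labels closed at `t - y₁ q`, natural to a small error there, with own
height a closed polynomial of the places before `u` at the window `t` (to a bit more than the natural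
digits of `t`), if the context of the places `0, …, r` at the window `t - y₁ q` is few bits given the
positions and velocities of the places before `u`.
-/

set_option autoImplicit false

namespace Pool.ALT

open Finset Real MvPolynomial
open Pool.Agent.H49.Ent Pool.Agent.H32.Dense Pool.STK Pool.KA Pool.KSAT Pool.K2S Pool.PB Pool.S6C
  Pool.GEN Pool.RCD Pool.LA91 Pool.OWN68 Pool.PKG
open Pool.CHT Pool.CHX Pool.ISO Pool.D2R Pool.D2G30 Pool.V1E Pool.CR99 Pool.GRW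
open Pool.UNJ (ceI)
open Pool.GRD (LbP)
open Pool.PN18 (Fm2 Fw2)
open Pool.AJX (LbX FwX)
open Pool.AJW (JfU jfV jfV_mem nX aX)
open Pool.NPZ (Fm4 NpC VaD ChJ ChV NpL NpV ValP fw2_npv valP_of row_raw)

/-- The jet of order zero. -/
theorem ojet_zx {m J : ℕ} (F : Fam m J) (k : Fin m) (G : MvPolynomial (Option (Fin m)) ℝ) (ω : F.Ω) :
    ojet F k 0 G ω = F.x ω k - eval (bt F ω) G := by
  show jet 0 (X (some k) - G) (bt F ω) (bd F ω) = _
  rw [jet_zero, map_sub, eval_X]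
  rfl

/-- Other digits outside the places. -/
theorem fwX_nf {m : ℕ} {S : PCl m} {α β γ : ∀ J : ℕ, Fam m J → Type}
    {f : ∀ (J : ℕ) (F : Fam m J), F.Ω → α J F} {g : ∀ (J : ℕ) (F : Fam m J), F.Ω → β J F}
    {y : ∀ (J : ℕ) (F : Fam m J), F.Ω → γ J F} {c c' : ℕ → Fin m} {r₁ r₂ j₀ : ℕ}
    {wf pf Nf Nf' : ℕ → ℕ → ℝ} {r₀ R K : ℕ} {E : ℕ → ℝ} {w : ℝ} {rd p : ℕ → ℝ}
    {τ : ∀ J : ℕ, Fam m J → Type → Type}
    {X : ∀ (J : ℕ) (F : Fam m J) (V : Type), (LnT F → V) →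
      (V → ℕ → MvPolynomial (Option (Fin m)) ℝ) → F.Ω → τ J F V} {e δ : ℝ}
    (hN : ∀ i, r₁ ≤ i → i < r₂ → ∀ j ≤ j₀, Nf i j = Nf' i j)
    (H : FwX S f g y (qJets m c r₁ r₂ j₀ wf pf Nf) c' r₀ R K E w rd p X e δ) :
    FwX S f g y (qJets m c r₁ r₂ j₀ wf pf Nf') c' r₀ R K E w rd p X e δ := by
  intro K₀
  refine Bas.mono 0 (H K₀) ?_
  intro J _ F A h1 V z z' gg hlb u₀ hu₀
  refine h1 V z z' gg hlb u₀ ⟨fun i a b j' hj' => ?_, hu₀.2⟩
  rw [hN i a b j' hj']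
  exact hu₀.1 i a b j' hj'

/-- The value for more places. -/
theorem valP_mono {m : ℕ} {S : PCl m} {Θ : Fm4 m} {c : ℕ → Fin m} {r₀ r R : ℕ} {κ : Fin m}
    {v w N : ℝ} {n n' : ℕ → ℝ} {α γ : ∀ J : ℕ, Fam m J → Type}
    {f : ∀ (J : ℕ) (F : Fam m J), F.Ω → α J F} {y : ∀ (J : ℕ) (F : Fam m J), F.Ω → γ J F}
    (hpos : ∀ (τ : ℝ) (J : ℕ) (F : Fam m J) (A : F.Ω → Prop), S.St τ J F A → 0 < Pe F.p A)
    (hrR : r ≤ R) (hn : ∀ i < r, n i = n' i) (H : ValP S Θ c r₀ r κ v w N n f y) :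
    ValP S Θ c r₀ R κ v w N n' f y := by
  intro h hh
  refine Bas.mono 0 ((H h hh).and (pos_bas hpos)) ?_
  rintro J - F A ⟨h1, hA⟩ V z z' G g hTh
  obtain ⟨V₁, z₁, hz₁, h2⟩ := h1 V z z' G g hTh
  refine ⟨V₁, z₁, hz₁, le_trans (CH_mono_cond (isLaw_cond F.isLaw hA).nonneg
    fun ω ω' _ _ e => ?_) h2⟩
  simp only [Prod.mk.injEq] at e ⊢
  obtain ⟨e1, e2, e3⟩ := e
  refine ⟨funext fun i => ?_, e2, e3⟩
  have e4 := congrFun e1 i
  unfold hts at e4 ⊢
  by_cases hi : r₀ ≤ i ∧ i < r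
  · rw [if_pos ⟨hi.1, by omega⟩, if_pos ⟨hi.1, by omega⟩] at e4
    rw [if_pos hi, if_pos hi, hn i hi.2]
    exact e4
  · rw [if_neg hi, if_neg hi]

/-- **The constants** of `vfN_D`: `s` the slope of the target, `α` the slope of the place `r`, the labels
are closed at the window `t - y₁ q`, `δN` the constant of the path. -/
structure VdK (r : ℕ) (s y₁ α δN C C' δ lam φ Xc X kf hh k₁ a ε : ℝ) : Prop where
  s1 : 1 < s
  y1 : s ≤ y₁
  α0 : 0 ≤ α
  l0 : 0 < lam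
  ls : lam = s * y₁ - (y₁ - s + 1) / 2
  φ0 : 0 < φ
  φ1 : φ ≤ 1
  φN : (r + 2) * φ ≤ δN * lam / 8
  φX : 32 * (r + 1) * φ ≤ Xc
  sX : 12 * y₁ ≤ Xc
  lX : lam + y₁ + 4 * φ ≤ Xc
  αX : (α + 1) * y₁ + 5 * φ ≤ Xc
  αk : α * y₁ + 3 * φ ≤ kf
  X30 : 0 ≤ 3 ^ r * Xc
  kX : 3 ^ r * Xc ≤ kf
  ks : s * y₁ + s + 1 ≤ kf
  C1 : 1 ≤ C
  C'1 : 1 ≤ C'
  δ0 : 0 < δ
  X0 : 0 < X
  X2 : X ≤ 1 / 2
  Xδ : C' * X ≤ δ / 4
  h0 : 0 < hh
  hφ : hh ≤ φ
  h4 : hh ≤ 1 / 4
  hC : 4 * (C * hh) ≤ X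
  hX : 4 * hh ≤ X
  kk : kf + 8 ≤ k₁
  ka : a + 1 ≤ k₁
  ε0 : 0 < ε
  εφ : 2 * ε ≤ φ
  εX : 4 * ε ≤ X

/-- **The numbers exist**: `φ` as small as one likes, `kf` large, `X`, then `hh`, then `ε` small. -/
theorem vdK_ex (r : ℕ) {s y₁ α δN C' δ lam φ₀ : ℝ} (hs : 1 < s) (hy : s ≤ y₁) (hα : 0 ≤ α)
    (hδN : 0 < δN) (hC' : 1 ≤ C') (hδ : 0 < δ) (hl : lam = s * y₁ - (y₁ - s + 1) / 2)
    (hφ₀ : 0 < φ₀) :
    ∃ φ Xc kf₀ X₁ : ℝ, 0 < φ ∧ φ ≤ φ₀ ∧ 0 < Xc ∧ 0 < X₁ ∧ ∀ kf X C : ℝ, kf₀ ≤ kf → 0 < X → X ≤ X₁ →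
    1 ≤ C → ∃ h₁ : ℝ, 0 < h₁ ∧ ∀ hh k₁ a : ℝ, 0 < hh → hh ≤ h₁ → kf + 8 ≤ k₁ → a + 1 ≤ k₁ →
    ∃ ε₀ : ℝ, 0 < ε₀ ∧ ∀ ε : ℝ, 0 < ε → ε ≤ ε₀ →
    VdK r s y₁ α δN C C' δ lam φ Xc X kf hh k₁ a ε := by
  have hy0 : 1 < y₁ := by linarith only [hs, hy]
  have hr0 : (0 : ℝ) ≤ r := Nat.cast_nonneg r
  have hsy : y₁ < s * y₁ := by nlinarith only [hs, hy0]
  have hlp : 0 < lam := by
    rw [hl]
    linarith only [hs, hy0, hsy]
  obtain ⟨φ, hφ⟩ : ∃ φ : ℝ, φ = min φ₀ (min 1 (δN * lam / (8 * (r + 2)))) := ⟨_, rfl⟩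
  have hφ0 : 0 < φ := by
    rw [hφ]
    positivity
  have hφN : (r + 2) * φ ≤ δN * lam / 8 := by
    have h1 : φ ≤ δN * lam / (8 * (r + 2)) := by
      rw [hφ]
      exact (min_le_right _ _).trans (min_le_right _ _)
    rw [le_div_iff₀ (by positivity)] at h1
    linarith only [h1]
  have hrφ : 0 ≤ (r : ℝ) * φ := mul_nonneg hr0 hφ0.le
  have hαy : 0 ≤ α * y₁ := mul_nonneg hα (by linarith only [hy0])
  obtain ⟨Xc, hXc⟩ : ∃ Xc : ℝ, Xc = 12 * y₁ + 32 * (r + 1) * φ + lam + α * y₁ := ⟨_, rfl⟩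
  have hXc0 : 0 < Xc := by
    rw [hXc]
    linarith only [hy0, hrφ, hφ0, hlp, hαy]
  have h3X : 0 ≤ 3 ^ r * Xc := by positivity
  have h3X1 : Xc ≤ 3 ^ r * Xc := le_mul_of_one_le_left hXc0.le (one_le_pow₀ (by norm_num))
  have hC'0 : 0 < C' := by linarith only [hC']
  refine ⟨φ, Xc, 3 ^ r * Xc + s * y₁ + s + 1, min (1 / 2) (δ / (4 * C')), hφ0, ?_, hXc0,
    by positivity, ?_⟩
  · rw [hφ]
    exact min_le_left _ _
  intro kf X C hkf hX hX1 hC
  have hX2 : X ≤ 1 / 2 := hX1.trans (min_le_left _ _)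
  have hXδ : C' * X ≤ δ / 4 := by
    have h1 : X ≤ δ / (4 * C') := hX1.trans (min_le_right _ _)
    rw [le_div_iff₀ (by positivity)] at h1
    linarith only [h1]
  refine ⟨min φ (min (1 / 4) (X / (4 * C))), by positivity, fun hh k₁ a hh0 hh1 hk₁ hak₁ => ?_⟩
  have hhC : 4 * (C * hh) ≤ X := by
    have h1 : hh ≤ X / (4 * C) := hh1.trans ((min_le_right _ _).trans (min_le_right _ _))
    rw [le_div_iff₀ (by positivity)] at h1
    linarith only [h1]
  have hhX : 4 * hh ≤ X := by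
    have h1 : hh ≤ C * hh := le_mul_of_one_le_left hh0.le hC
    linarith only [h1, hhC]
  refine ⟨min (φ / 2) (X / 4), by positivity, fun ε hε hεε => ?_⟩
  exact
    { s1 := hs
      y1 := hy
      α0 := hα
      l0 := hlp
      ls := hl
      φ0 := hφ0
      φ1 := by
        rw [hφ]
        exact (min_le_right _ _).trans (min_le_left _ _)
      φN := hφN
      φX := by
        rw [hXc]
        linarith only [hy0, hlp, hαy]
      sX := by
        rw [hXc]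
        linarith only [hrφ, hφ0, hlp, hαy]
      lX := by
        rw [hXc]
        linarith only [hrφ, hφ0, hlp, hy0, hαy]
      αX := by
        rw [hXc]
        linarith only [hrφ, hφ0, hlp, hy0, hαy]
      αk := by
        have h1 : Xc ≤ kf := by linarith only [hkf, h3X1, hsy, hs, hy0]
        have h2 : α * y₁ + 3 * φ ≤ Xc := by
          rw [hXc]
          linarith only [hrφ, hφ0, hlp, hy0, hαy]
        linarith only [h1, h2]
      X30 := h3X
      kX := by linarith only [hkf, hsy, hs, hy0]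
      ks := by linarith only [hkf, h3X]
      C1 := hC
      C'1 := hC'
      δ0 := hδ
      X0 := hX
      X2 := hX2
      Xδ := hXδ
      h0 := hh0
      hφ := hh1.trans (min_le_left _ _)
      h4 := hh1.trans ((min_le_right _ _).trans (min_le_left _ _))
      hC := hhC
      hX := hhX
      kk := hk₁
      ka := hak₁
      ε0 := hε
      εφ := by
        have h1 := hεε.trans (min_le_left _ _)
        linarith only [h1]
      εX := by
        have h1 := hεε.trans (min_le_right _ _)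
        linarith only [h1] }

/-- **The velocity over labels with a closed slope**, one near dead place before the target, at the
windows of a record. -/
theorem vfN_D (Kd Kv Dw r : ℕ) (hr : 1 ≤ r) {h : ℝ} (hh0 : 0 < h) (hh1 : h ≤ 1) {δ lam : ℝ}
    (hδ : 0 < δ) (hlam : 0 < lam) : ∃ δN C' : ℝ, 0 < δN ∧ 1 ≤ C' ∧
    ∀ {S : PCl (r + 2)} {al : ℝ} {g₀ : ℝ → ℝ}
    {P : List (Fin (r + 2)) × Fin (r + 2) → ℝ → ℝ → ℝ} {θ : ℝ}
    {P₂ : ℕ → List (Fin (r + 2)) × Fin (r + 2) → ℝ → ℝ → ℝ} {θ₂ Eb e₂ : ℕ → ℝ}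
    {c : ℕ → Fin (r + 2)} {Pt : ℝ → ℝ → ℝ} {rt : ℝ → ℝ} {K₀ g : ℝ} {L T : ℕ → ℝ → ℝ → ℝ}
    {Sl : ℕ → ℝ} {κ : ℕ → Kg} {G : Set ℝ} {S₀ N : ℕ} {A V : ℕ → ℝ} {S₂ Na : ℕ} {Va : ℕ → ℝ}
    {K' ε q t : ℝ}
    (_ : RecG S al g₀ P θ P₂ θ₂ Eb e₂ c Pt rt h K₀ g L T Sl κ G S₀ N A V S₂ Na Va K' ε q t)
    (_ : ∀ l < r, κ l = .one) {s y₁ α C φ Xc X kf hh k₁ a : ℝ}
    (_ : Sl (r + 1) = s) (_ : Sl r = α) (_ : VdK r s y₁ α δN C C' δ lam φ Xc X kf hh k₁ a ε)
    (_ : k₁ + C + 3 ^ r * Xc + kf + y₁ + lam + 3 ≤ K')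
    (_ : ChG S c (r + 1) (fun l x => L l x x) G) (_ : t ∈ G)
    (_ : ∀ k ≤ r, t + jfV r (-y₁) Xc k * q ∈ G) {E rd : ℕ → ℝ} {Kl : ℕ}
    (_ : ∀ i ≤ r, 0 ≤ E i ∧ L i (t + -y₁ * q) (t + -y₁ * q) + E i + 3 * K' * q ≤ 1 ∧
      0 ≤ rd i ∧ rd i + 3 * K' * q ≤ 1)
    {e pN eG rG pa : ℝ} {Nf : ℕ → ℕ → ℝ} (_ : 0 < e) (_ : e ≤ φ * q / 8)
    (_ : pN < L (r + 1) (t + -y₁ * q) (t + -y₁ * q))
    (_ : L (r + 1) (t + -y₁ * q) (t + -y₁ * q) - pN ≤ e)
    (_ : L (r + 1) (t + -y₁ * q) (t + -y₁ * q) - pN ≤ δN * (lam * q) / 8)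
    (_ : L (r + 1) (t + -y₁ * q) (t + -y₁ * q) + lam * q ≤ pa) (_ : 0 < eG) (_ : 0 ≤ rG)
    (_ : eG + (L (r + 1) (t + -y₁ * q) (t + -y₁ * q) + lam * q) < 1) (_ : rG + eG ≤ 1)
    {Θ₄ : Fm4 (r + 2)}
    (_ : NpL Θ₄ c 0 (r + 1) Kl (t + -y₁ * q) e E rd
      (fun i => L i (t + -y₁ * q) (t + -y₁ * q)))
    (_ : ∀ (J : ℕ) (F : Fam (r + 2) J) (A : F.Ω → Prop) (V : Type) (z : PtT F → V)
      (z' : LnT F → V) (G : V → MvPolynomial (Option (Fin (r + 2))) ℝ)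
      (g : V → ℕ → MvPolynomial (Option (Fin (r + 2))) ℝ), Θ₄ J F A V z z' G g →
      LbOK F ((range (r + 1)).image c) (c (r + 1)) Kd ⌊eG * J⌋₊ J ⌊(t + -y₁ * q) * J⌋₊
        ⌊(rG + eG) * J⌋₊ ⌊pN * J⌋₊ A z z' G)
    (_ : ∀ (J : ℕ) (F : Fam (r + 2) J) (A B : F.Ω → Prop) (V : Type) (z : PtT F → V)
      (z' : LnT F → V) (G : V → MvPolynomial (Option (Fin (r + 2))) ℝ)
      (g : V → ℕ → MvPolynomial (Option (Fin (r + 2))) ℝ),
      Sub B A → Θ₄ J F A V z z' G g → Θ₄ J F B V z z' G g)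
    (_ : ∀ (J : ℕ) (F : Fam (r + 2) J) (A : F.Ω → Prop) (V : Type) (z : PtT F → V)
      (z' : LnT F → V) (G : V → MvPolynomial (Option (Fin (r + 2))) ℝ)
      (g : V → ℕ → MvPolynomial (Option (Fin (r + 2))) ℝ), Θ₄ J F A V z z' G g →
      VaD F c r (c (r + 1)) Kv (t + -y₁ * q) t pa A z' G)
    (_ : Bas S (fun J F A => ∃ (V : Type) (z : PtT F → V) (z' : LnT F → V)
      (G : V → MvPolynomial (Option (Fin (r + 2))) ℝ)
      (g : V → ℕ → MvPolynomial (Option (Fin (r + 2))) ℝ), Θ₄ J F A V z z' G g))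
    (_ : ∀ l < r, ∀ j ≤ 1, Nf l j = L l t t + kf * q - (j : ℕ) * t)
    (_ : FwX S (fun J F => ptr F J) (vg t) (fun _ F => F.T)
      (qJets (r + 2) c 0 r 1 (fun _ _ => t) (fun l _ => L l t t - hh * q) Nf) c 0 (r + 1) Kl E
      (t + -y₁ * q) rd (fun i => L i (t + -y₁ * q) (t + -y₁ * q))
      (Pool.AJW.ctx c 0 (r + 1) Kl (t + -y₁ * q) ((kf + y₁) * q)
        (Function.update (nX r (fun l x => L l x x) (t + -y₁ * q) (Xc * q)) r (L r t t - φ * q)))
      e (δN * (lam * q) / 4))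
    {D Dr : ℕ} (_ : (max D Kd + 1) * (max D Kd + 1) ≤ Dr),
    (∀ (J : ℕ) (F : Fam (r + 2) J) (A B : F.Ω → Prop) (V C : Type) (z : PtT F → V)
      (z' : LnT F → V) (G₁ G₂ : V → MvPolynomial (Option (Fin (r + 2))) ℝ) (cc : LnT F → C),
      Sub B A → ThB Θ₄ J F A V C z z' G₁ G₂ cc → ThB Θ₄ J F B V C z z' G₁ G₂ cc) ∧
    Bas S (fun J F A => ∃ (V C : Type) (z : PtT F → V) (z' : LnT F → V)
      (G₁ G₂ : V → MvPolynomial (Option (Fin (r + 2))) ℝ) (cc : LnT F → C),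
      ThB Θ₄ J F A V C z z' G₁ G₂ cc) ∧
    ∀ {y : ℝ} {vw : ℕ → ℝ} {N₁ N₂ : ℕ} {Rg : ℕ → Prop} {be : ℕ → ℕ → ℝ} {E₁ ε₁ a₁ : ℝ}
      (κ' : ℝ) (qf : ℕ → Fin r → ℕ) (Pq : Fin r → ℝ), 0 < κ' → κ' ≤ 1 →
      (∀ i, (kf + 1) * q ≤ Pq i) → (∀ (J : ℕ) (i : Fin r), Pq i * J - 2 ≤ qf J i) →
      VfNU S c r D Dw Dr N₁ N₂ Rg C a₁ E₁ ε₁ (hh * q) (X * q) (s * q) (kf * q) (L (r + 1))
        (fun k => t + vG y k₁ vw k * q)
        (fun k l => lvN P c (r + 1) (L (r + 1)) l (t + vG y k₁ vw k * q)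
          (t + vG y k₁ vw k * q)) be κ' qf δ (2 * 1) (XiF (ThB Θ₄) (t + -y₁ * q)) := by
  classical
  obtain ⟨δN, hδN, Hfw⟩ := fw2_npv Kd hh0 hh1 (ε := δ / (4 * lam)) (by positivity)
  obtain ⟨C', hC', hvf⟩ := vfnU_of Dw r
  refine ⟨δN, C', hδN, hC', ?_⟩
  intro S al g₀ P θ P₂ θ₂ Eb e₂ c Pt rt K₀ g L T Sl κ G S₀ N A V S₂ Na Va K' ε q t R hκ s y₁ α C φ
    Xc X kf hh k₁ a hs hα Kn hK' hCG hGt hGw E rd Kl hE e pN eG rG pa Nf he0 heφ hpN1 hpN2' hpN3 hpa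
    heG hrG heG1 hrG1 Θ₄ hNpL hLb hΘs₄ hVa hΘe hNf hFx D Dr hDr
  have hq0 := R.q0
  have ht0 := R.t0
  have ht1 := R.t1
  have hs1 := Kn.s1
  have hy1 := Kn.y1
  have hy0 : 1 < y₁ := by linarith only [hs1, hy1]
  have hsy0 : 0 < s * y₁ := by positivity
  have hkf0 : 0 < kf := by linarith only [Kn.ks, hs1, hsy0]
  have hC0 : 0 < C := by linarith only [Kn.C1]
  have hk1 : 0 < k₁ := by linarith only [Kn.kk, hkf0]
  -- the multiples of the scale
  have hKq : k₁ * q + C * q + 3 ^ r * Xc * q + kf * q + y₁ * q + lam * q + 3 * q ≤ K' * q := by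
    have h1 := mul_le_mul_of_nonneg_right hK' hq0.le
    linarith only [h1]
  have hkq8 : kf * q + 8 * q ≤ k₁ * q := by
    have h1 := mul_le_mul_of_nonneg_right Kn.kk hq0.le
    linarith only [h1]
  have hCq : q ≤ C * q := by
    have h1 := mul_le_mul_of_nonneg_right Kn.C1 hq0.le
    linarith only [h1]
  have hXq3 : 0 ≤ 3 ^ r * Xc * q := mul_nonneg Kn.X30 hq0.le
  have hkfq : 0 < kf * q := mul_pos hkf0 hq0
  have hsq : q < y₁ * q := by
    have h1 := mul_lt_mul_of_pos_right hy0 hq0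
    linarith only [h1]
  have hs0q : q < s * q := by
    have h1 := mul_lt_mul_of_pos_right hs1 hq0
    linarith only [h1]
  have hlq : 0 < lam * q := mul_pos Kn.l0 hq0
  have ht : 0 < t := by linarith only [ht0, hKq, hkq8, hCq, hXq3, hkfq, hsq, hlq, hq0]
  have ht' : t < 1 := by linarith only [ht1, hKq, hkq8, hCq, hXq3, hkfq, hsq, hlq, hq0]
  have hφq0 : 0 < φ * q := mul_pos Kn.φ0 hq0
  have hφq : φ * q ≤ q := by
    have h1 := mul_le_mul_of_nonneg_right Kn.φ1 hq0.le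
    linarith only [h1]
  have hhq : 0 < hh * q := mul_pos Kn.h0 hq0
  have hh4q : hh * q ≤ q / 4 := by
    have h1 := mul_le_mul_of_nonneg_right Kn.h4 hq0.le
    linarith only [h1]
  have hhφq : hh * q ≤ φ * q := mul_le_mul_of_nonneg_right Kn.hφ hq0.le
  have hXq : 0 < X * q := mul_pos Kn.X0 hq0
  have hX2q : X * q ≤ q / 2 := by
    have h1 := mul_le_mul_of_nonneg_right Kn.X2 hq0.le
    linarith only [h1]
  have hhXq : 4 * (hh * q) ≤ X * q := by
    have h1 := mul_le_mul_of_nonneg_right Kn.hX hq0.le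
    linarith only [h1]
  have hhCq : 4 * (C * (hh * q)) ≤ X * q := by
    have h1 := mul_le_mul_of_nonneg_right Kn.hC hq0.le
    linarith only [h1]
  have hεq0 : 0 < ε * q := mul_pos Kn.ε0 hq0
  have hεq : 2 * (ε * q) ≤ φ * q := by
    have h1 := mul_le_mul_of_nonneg_right Kn.εφ hq0.le
    linarith only [h1]
  have hεXq : 4 * (ε * q) ≤ X * q := by
    have h1 := mul_le_mul_of_nonneg_right Kn.εX hq0.le
    linarith only [h1]
  have U : JfU r 0 (-y₁) Xc φ (kf + y₁) kf :=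
    { vv0 := by linarith only [hy0]
      φ0 := Kn.φ0
      XK := by
        have h1 := Kn.sX
        push_cast
        linarith only [h1]
      φX := Kn.φX
      kfX := Kn.kX
      lamk := by linarith only [] }
  -- the windows
  have hE' : ∀ i < r, 0 ≤ E i ∧ L i (t + -y₁ * q) (t + -y₁ * q) + E i + 3 * K' * q ≤ 1 ∧
      0 ≤ rd i ∧ rd i ≤ 1 - 3 * K' * q := fun i hi => by
    obtain ⟨h1, h2, h3, h4⟩ := hE i hi.le
    exact ⟨h1, h2, h3, by linarith only [h4]⟩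
  have hsK : y₁ + 3 ^ r * Xc ≤ K' := by
    linarith only [hK', hk1, hC0, hkf0, hy0, Kn.l0]
  have hlK : kf + y₁ ≤ K' := by
    linarith only [hK', hk1, hC0, hkf0, hy0, Kn.l0, Kn.X30]
  have HC := R.chj (K := 0) hκ hr (by omega) hCG U hGt hGw (by linarith only [hsK]) hlK Kn.εφ
    (g₁ := φ * q / 4) (by linarith only [hφq0]) (m₁ := 3 * K' * q) (by
      linarith only [hKq, hkq8, hCq, hXq3, hkfq, hsq, hlq, hφq, hq0]) (ρ := 1 - 3 * K' * q)
    (by linarith only [hKq, hkq8, hCq, hXq3, hkfq, hsq, hlq, hφq, hq0]) hE'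
    (qv := lam + φ) (by linarith only [Kn.φ0, Kn.l0]) (by linarith only [Kn.lX])
  -- the level at the window
  have hv0 : 0 ≤ t + -y₁ * q := by
    linarith only [ht0, hKq, hkq8, hCq, hXq3, hkfq, hsq, hlq, hq0]
  have hlow : ∀ i ≤ r + 1, t + -y₁ * q ≤ L i (t + -y₁ * q) (t + -y₁ * q) := fun i hi =>
    R.low_at (by omega) hv0 le_rfl (by linarith only [ht', hsq, hq0])
  have hLv := hlow (r + 1) le_rfl
  have hvq : q ≤ t + -y₁ * q := by
    linarith only [ht0, hKq, hkq8, hCq, hXq3, hkfq, hsq, hlq, hq0]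
  -- the chain with the place `r`
  have hαq : α * y₁ * q + 3 * (φ * q) ≤ kf * q := by
    have h1 := mul_le_mul_of_nonneg_right Kn.αk hq0.le
    linarith only [h1]
  have HV : ChV S c 0 (r + 1) (t + -y₁ * q) t ((kf + y₁) * q) (φ * q) (φ * q / 4) E
      (fun i => L i (t + -y₁ * q) (t + -y₁ * q)) (fun i => L i t t)
      (Function.update (nX r (fun l x => L l x x) (t + -y₁ * q) (Xc * q)) r (L r t t - φ * q))
      (Function.update (fun l => aX r (Xc * q) l - (t - (t + -y₁ * q)) - 2 * (φ * q)) r (φ * q))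
      rd := by
    refine R.chv (by omega) hCG hGt Kn.φ0 HC Kn.εφ (by linarith only [hy0])
      (by linarith only [hsK, Kn.X30, neg_neg y₁]) ?_ hα Kn.α0 (by
        rw [neg_neg]
        exact Kn.αX) (by
        rw [neg_neg]
        have h1 := Kn.αk
        linarith only [h1]) (hE r le_rfl).1 ?_ (hv0.trans (hlow r (by omega)))
      (hE r le_rfl).2.2.1 ?_
    · have h1 := Kn.sX
      linarith only [h1, hy0]
    · have h1 := (hE r le_rfl).2.1
      rw [neg_neg]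
      have h2 : (α * y₁ + φ) * q = α * y₁ * q + φ * q := by ring
      rw [h2]
      linarith only [h1, hαq, hKq, hkq8, hCq, hXq3, hkfq, hsq, hlq, hφq, hq0, hφq0]
    · have h1 := (hE r le_rfl).2.2.2
      linarith only [h1, hKq, hkq8, hCq, hXq3, hkfq, hsq, hlq, hφq, hq0, hφq0]
  obtain ⟨P₀, hP₀⟩ : ∃ P₀, P₀ = L (r + 1) (t + -y₁ * q) (t + -y₁ * q) := ⟨_, rfl⟩
  rw [← hP₀] at hpN1 hpN2' hpN3 hpa heG1 hLv
  have hpN2 : P₀ - pN ≤ φ * q / 8 := hpN2'.trans heφ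
  have hpN0 : 0 < pN := by linarith only [hpN2, hφq, hLv, hvq, hq0]
  -- the level at the window `t`
  have hKx : |t + -y₁ * q - t| ≤ K' * q := by
    rw [add_sub_cancel_left, abs_mul, abs_neg, abs_of_pos hq0, abs_of_pos (by linarith only [hy0])]
    linarith only [hKq, hkq8, hCq, hXq3, hkfq, hsq, hlq, hq0]
  have hdN := abs_le.1 (R.dL (r + 1) (by omega) _ hKx)
  rw [hs, ← hP₀] at hdN
  have e1 : s * (t + -y₁ * q - t) = -(s * y₁ * q) := by ring
  rw [e1] at hdN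
  obtain ⟨hdN1, hdN2⟩ := hdN
  have hlamq : lam * q + (y₁ * q - s * q + q) / 2 = s * y₁ * q := by
    have h1 : lam * q = (s * y₁ - (y₁ - s + 1) / 2) * q := by rw [← Kn.ls]
    rw [h1]
    ring
  have hy1q : s * q ≤ y₁ * q := mul_le_mul_of_nonneg_right hy1 hq0.le
  have hLt : ∀ l ≤ r + 1, 0 ≤ L l t t := fun l hl =>
    ht.le.trans (R.low_at (by omega) ht.le le_rfl ht'.le)
  -- the value
  have hval : ∀ {α' γ' : ∀ J : ℕ, Fam (r + 2) J → Type}
      {f : ∀ (J : ℕ) (F : Fam (r + 2) J), F.Ω → α' J F}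
      {y : ∀ (J : ℕ) (F : Fam (r + 2) J), F.Ω → γ' J F},
      (∀ (J : ℕ) (F : Fam (r + 2) J), ∃ φ : α' J F → PtT F, ∀ ω, ptr F J ω = φ (f J F ω)) →
      Kn0 ((range 0).image c) (t + -y₁ * q + (kf + y₁) * q) y →
      ValP S Θ₄ c 0 (r + 1) (c (r + 1)) (t + -y₁ * q) t (P₀ + lam * q)
        (Function.update (nX r (fun l x => L l x x) (t + -y₁ * q) (Xc * q)) r (L r t t - φ * q))
        f y := by
    intro α' γ' f y hf hy
    refine valP_mono R.pos le_rfl (fun i hi => ?_) (valP_mono (R := r + 1) R.pos (Nat.le_succ r)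
      (n' := Function.update (nX r (fun l x => L l x x) (t + -y₁ * q) (Xc * q)) r (L r t t - φ * q))
      (fun i hi => (Function.update_of_ne (by omega) _ _).symm)
      (valP_of R.tmc HC le_rfl hf hy (c (r + 1)) Kl Kv (e := e) (pN := pN) (pa := pa)
        he0 heφ hpN0 (by linarith only [hpN1, hpa, hlq])
        hpa (by
          have h2 : (lam + φ) * q = lam * q + φ * q := by ring
          rw [h2]
          linarith only [hpN2, hφq0]) ?_))
    · rfl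
    · intro J F A V z z' G g hTh
      have h1 := hLb J F A V z z' G g hTh
      refine ⟨fun l a b => (hNpL J F A V z z' G g hTh).1 l a (by omega), fun ω hω => ?_,
        hVa J F A V z z' G g hTh⟩
      have h2 := h1.pos ω hω
      rw [ojet_zx]
      exact h2
  -- the rows
  have hrow : ∀ sa sb : ℝ, P₀ ≤ sa → sa ≤ sb → sb ≤ P₀ + lam * q →
      Bas S (fun J F A => ∀ (V : Type) (z : PtT F → V) (z' : LnT F → V)
      (G : V → MvPolynomial (Option (Fin (r + 2))) ℝ)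
      (g : V → ℕ → MvPolynomial (Option (Fin (r + 2))) ℝ), Θ₄ J F A V z z' G g →
      CH (Pool.Agent.H49.Ent.cond F.p A True)
        (fun ω => ⌊(2 : ℝ) ^ (sb * J) * ojet F (c (r + 1)) 0
          (G (z' (slam F ⌊(t + -y₁ * q) * J⌋₊ ω))) ω⌋)
        (fun ω => (⌊(2 : ℝ) ^ (sa * J) * ojet F (c (r + 1)) 0
          (G (z' (slam F ⌊(t + -y₁ * q) * J⌋₊ ω))) ω⌋,
          (ceI ((range (r + 1)).image c) (fun _ => J) (F.x ω),
            (z' (slam F ⌊(t + -y₁ * q) * J⌋₊ ω), F.W ω)))) ≤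
        ((1 - h) * (sb - sa) * Real.log 2 + 2 * (φ * q)) * J) := by
    intro sa sb h1 h2 h3
    have hraw := R.raw (by omega) Kn.ε0 (x := L (r + 1) t t - sa) (y := sb - sa)
      (by linarith only [h2, h3, hdN1, hdN2, hlamq, hy1q, hεXq, hX2q, hq0])
      (by linarith only [h2])
      (by linarith only [h1, hdN1, hdN2, hlamq, hy1q, hεXq, hX2q, hq0, hKq, hkq8, hCq, hXq3, hkfq,
          hlq, hεq0, hs0q])
      (by linarith only [h1, h3, hKq, hkq8, hCq, hXq3, hkfq, hsq, hlq, hq0])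
      (by
        show L (r + 1) t t - sa ≤ L (r + 1) t t
        linarith only [h1, hLv, hv0])
    have hraw' : RawN S ((range (r + 1)).image c) (c (r + 1)) sa (sb - sa) h (2 * ε * q) := by
      have h4 := hraw
      rw [show r + 2 - 1 = r + 1 from rfl, sub_sub_cancel] at h4
      exact h4
    have h5 := row_raw R.tmc (w := t + -y₁ * q) (e := eG) (rr := rG + eG) (x := 0) (δ := 2 * (φ * q))
      Kd heG.le (by linarith only [h1, hLv, hv0]) (by linarith only [h3, heG1]) hrG1 le_rfl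
      (by linarith only [h2]) hraw' (by linarith only [hεq, hφq0])
    refine Bas.mono 0 h5 ?_
    intro J _ F A h6 V z z' G g hTh
    have h7 := h6 V z z' G ⌊pN * J⌋₊ (hLb J F A V z z' G g hTh)
    rw [add_sub_cancel, add_zero, sub_zero] at h7
    exact h7
  have NP : NpV Kd h δN S c 0 (r + 1) (t + -y₁ * q) t ((kf + y₁) * q) (φ * q) (φ * q / 4) E
      (fun i => L i (t + -y₁ * q) (t + -y₁ * q)) (fun i => L i t t)
      (Function.update (nX r (fun l x => L l x x) (t + -y₁ * q) (Xc * q)) r (L r t t - φ * q))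
      (Function.update (fun l => aX r (Xc * q) l - (t - (t + -y₁ * q)) - 2 * (φ * q)) r (φ * q))
      rd (c (r + 1)) ((range (r + 1)).image c) Kl e P₀ pN (lam * q) (2 * (φ * q)) rG eG t Θ₄ :=
    { ch := HV
      e0 := he0
      e8 := heφ
      eg := by linarith only [heφ]
      pNP := hpN1
      Pe := hpN2'
      Pδ := hpN3
      q0 := hlq
      vq := by linarith only [hLv, heG, heG1]
      wa := le_rfl
      a1 := ht'.le
      rG0 := hrG
      eG0 := heG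
      dd := by
        have h2 := mul_le_mul_of_nonneg_right Kn.φN hq0.le
        have h3 : 0 < δN * (lam * q) := mul_pos hδN hlq
        have h4 : 0 ≤ (r : ℝ) * (φ * q) := by positivity
        push_cast
        linarith only [h2, h3, h4]
      npl := hNpL
      val := hval (fun J F => ⟨id, fun ω => rfl⟩) (fun J F => by
        refine ⟨fun t => (t.2.1, t.1), fun ω => ?_⟩
        rfl)
      lb := hLb
      hs := hΘs₄
      row := hrow }
  have hpp := NP.pNP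
  -- the first jet
  have HX := fwX_nf (Nf' := fun l j => lvN P c (r + 1) (L (r + 1)) l t t + kf * q - (j : ℕ) * t)
    (fun l _ hl j hj => by
      rw [hNf l hl j hj, ← R.lv_at (by omega : r + 1 < r + 2) (by omega)]) hFx
  have HF := Hfw R.tmc NP (f := fun J F => ptr F J) (y := fun _ F => F.T)
    (fun J F => ⟨id, fun ω => rfl⟩) (fun J F => by
      refine ⟨fun t => (t, fun _ => 0), fun ω => ?_⟩
      simp only [Finset.range_zero, Finset.image_empty, Finset.notMem_empty, if_false])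
    (hval (fun J F => ⟨id, fun ω => rfl⟩) (fun J F => by
      refine ⟨fun t => (t, fun _ => 0), fun ω => ?_⟩
      simp only [Finset.range_zero, Finset.image_empty, Finset.notMem_empty, if_false])) HX
    (Th := ThB Θ₄) (fun J F A V C z z' G₁ G₂ cc h => h) 1 (e' := P₀ - pN) le_rfl
  obtain ⟨Θ, hΘ⟩ : ∃ Θ : Fm2 (r + 2), Θ = ThB Θ₄ := ⟨_, rfl⟩
  rw [← hΘ] at HF ⊢
  have hΘs : ∀ (J : ℕ) (F : Fam (r + 2) J) (A B : F.Ω → Prop) (V C : Type) (z : PtT F → V)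
      (z' : LnT F → V) (G₁ G₂ : V → MvPolynomial (Option (Fin (r + 2))) ℝ) (cc : LnT F → C),
      Sub B A → Θ J F A V C z z' G₁ G₂ cc → Θ J F B V C z z' G₁ G₂ cc := by
    intro J F A B V C z z' G₁ G₂ cc hB h
    rw [hΘ] at h ⊢
    obtain ⟨g, hg⟩ := h
    exact ⟨g, hΘs₄ J F A B V z z' G₂ g hB hg⟩
  refine ⟨hΘs, ?_, ?_⟩
  · refine Bas.mono 0 hΘe ?_
    rintro J - F A ⟨V, z, z', G₂, g, hg⟩
    rw [hΘ]
    exact ⟨V, Unit, z, z', G₂, G₂, fun _ => (), g, hg⟩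
  intro y vw N₁ N₂ Rg be E₁ ε₁ a₁ κ' qf Pq hκ' hκ1 hPq hqf
  have hlv : ∀ l ≤ r + 1, ∀ x : ℝ, lvN P c (r + 1) (L (r + 1)) l x x = L l x x :=
    fun l hl x => by rw [← R.lv_at (by omega : r + 1 < r + 2) hl]
  have v0 : vG y k₁ vw 0 = 0 := by norm_num [vG]
  have v2 : vG y k₁ vw 2 = -k₁ := by norm_num [vG]
  have v3 : vG y k₁ vw 3 = 1 := by norm_num [vG]
  have hs2q : q < s * y₁ * q := by
    have h1 : (1 : ℝ) < s * y₁ := by nlinarith only [hs1, hy0]
    have h2 := mul_lt_mul_of_pos_right h1 hq0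
    linarith only [h2]
  have hksq : s * y₁ * q + s * q + q ≤ kf * q := by
    have h1 := mul_le_mul_of_nonneg_right Kn.ks hq0.le
    linarith only [h1]
  have hΘx : ∀ (J : ℕ) (F : Fam (r + 2) J) (B : F.Ω → Prop)
      (Cp : PtT F → MvPolynomial (Option (Fin (r + 2))) ℝ),
      (∃ (V C : Type) (z : PtT F → V) (z' : LnT F → V)
        (G₁ G₂ : V → MvPolynomial (Option (Fin (r + 2))) ℝ) (cc : LnT F → C),
        Θ J F B V C z z' G₁ G₂ cc ∧
        ∀ ω, B ω → Cp (ptr F J ω) = G₂ (z' (slam F ⌊(t + -y₁ * q) * J⌋₊ ω))) →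
      ∃ (V : Type) (z : PtT F → V) (z' : LnT F → V)
        (Gp : V → MvPolynomial (Option (Fin (r + 2))) ℝ),
        (∀ y, (Gp y).totalDegree ≤ Kd) ∧
        (∀ y, DpI ((range (r + 1)).image c) (Gp y)) ∧
        (∀ ω, B ω → z (ptr F J ω) = z' (slam F ⌊(t + -y₁ * q) * J⌋₊ ω)) ∧
        (∀ ω, B ω → |ojet F (c (r + 1)) 0 (Gp (z' (slam F ⌊(t + -y₁ * q) * J⌋₊ ω))) ω| ≤
          1 / 2 ^ ⌊pN * J⌋₊) ∧
        ∀ ω, B ω → Cp (ptr F J ω) = Gp (z' (slam F ⌊(t + -y₁ * q) * J⌋₊ ω)) := by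
    rintro J F B Cp ⟨V, C, z, z', G₁, G₂, cc, h, hCp⟩
    rw [hΘ] at h
    obtain ⟨g, hg⟩ := h
    have h1 := hLb J F B V z z' G₂ g hg
    refine ⟨V, z, z', G₂, h1.deg, h1.dep, h1.cls, fun ω hω => ?_, hCp⟩
    rw [ojet_zx]
    exact h1.pos ω hω
  obtain ⟨m₁, hm₁⟩ : ∃ m₁, m₁ = pN - 2 * (hh * q) := ⟨_, rfl⟩
  have hm0 : 0 ≤ m₁ := by
    rw [hm₁]
    linarith only [hpN2, hφq, hLv, hvq, hh4q, hq0]
  have hbx := bxU_part (S := S) (c := c) (r := r) (D := D) (Dw := Dw) (Dr := Dr) (N := N₁)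
    (N₂ := N₂) (R := Rg) (C := C) (a := a₁) (Eb := E₁) (ε₀ := ε₁) (η₀ := hh * q) (χ := X * q)
    (mb := s * q) (Pt := L (r + 1)) (o := fun k => t + vG y k₁ vw k * q)
    (lv := fun k l => lvN P c (r + 1) (L (r + 1)) l (t + vG y k₁ vw k * q)
      (t + vG y k₁ vw k * q)) (be := be) (qf := qf) R.pos hκ1 (Kd := Kd)
    (w := t + -y₁ * q) (pN := pN) (m₁ := m₁) (by
      simp only [v0]
      linarith only [hsq, hq0]) (by
      simp only [v0]
      linarith only [ht']) hhq.le hXq.le hDr hpN0.le (by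
      rw [hm₁]
      linarith only [hhq]) (by
      simp only [v0, zero_mul, add_zero, hlv _ le_rfl]
      rw [hm₁]
      linarith only [hpp, hdN2, hs2q, hX2q, hεXq, hXq, hq0, hhq]) (by
      simp only [v0, zero_mul, add_zero]
      rw [hlv r (by omega)]
      exact hLt r (by omega)) (Ξ := XiF Θ (t + -y₁ * q))
    (fun J F B g₀ G H Ht CL Cp h => hΘx J F B Cp h)
  refine VfNU.of_xi (Ξ' := fun J F B g₀ G H Ht CL Cp => XiF Θ (t + -y₁ * q) J F B g₀ G H Ht CL Cp ∧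
    ∀ ω, B ω → ∀ b', NBx c (G 0 (ptr F J ω)) (g₀ 0) ⌊(t + vG y k₁ vw 0 * q) * J⌋₊ (F.t ω) r b' →
      |eval b' (nW c r (G 0 (ptr F J ω)) (Cp (ptr F J ω)))| ≤ (2 : ℝ) ^ (-(m₁ * J))) two_pos hκ'.le
    ?_ (hvf (w := t + -y₁ * q) (m₁ := m₁) (ζ := ε * q) (kf := kf * q) (pf := fun l => L l t t - hh * q)
      (N₁ := P₀ + lam * q - (1 : ℕ) * (t + -y₁ * q)) (e := P₀ - pN)
      (d := δ / (4 * lam) * (lam * q)) (Pq := Pq) (Ψ := Θ) R.pos ?_ ?_ ?_ ?_)
  · refine Bas.mono 0 hbx ?_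
    rintro J - F B hB b z gc gT g₀ G H T TH Gt Ht CL Cp W hX
    obtain ⟨B₂, d1, d2, d3⟩ := hB b z gc gT g₀ G H T TH Gt Ht CL Cp W hX
    refine ⟨B₂, d1, d2, ?_, d3⟩
    obtain ⟨V, C, z, z', G₁, G₂, cc, h1, h2⟩ := hX
    exact ⟨V, C, z, z', G₁, G₂, cc, hΘs J F B B₂ V C z z' G₁ G₂ cc d1 h1, fun ω hω => h2 ω (d1 ω hω)⟩
  · rintro J F B g₀ G H Ht CL Cp ⟨⟨V, C, z, z', G₁, G₂, cc, h1, h2⟩, -⟩
    exact ⟨V, C, z, z', G₁, G₂, cc, h1, h2⟩
  · refine Bas.mono 0 (pos_bas R.pos) ?_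
    rintro J - F B - b z gc gT g₀ G H T TH Gt Ht CL Cp W hX ω hω
    refine ⟨0, fun b' hb' => ?_⟩
    rw [add_zero]
    exact hX.2 ω hω b' hb'
  · simp only [v0, zero_mul, add_zero]
    exact HF
  · exact
      { η0 := hhq
        χ1 := by linarith only [hεXq, hhXq, hXq]
        χ2 := by linarith only [hhCq, hXq]
        ζ1 := fun l hl => by
          simp only [v0, v2, zero_mul, add_zero]
          rw [hlv l (by omega), hlv l (by omega)]
          have h1 := (abs_le.1 (R.dOne (by omega) (hκ l hl) (t + -k₁ * q) (by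
            rw [add_sub_cancel_left, abs_mul, abs_neg, abs_of_pos hq0, abs_of_pos hk1]
            linarith only [hKq, hkq8, hCq, hXq3, hkfq, hsq, hlq, hq0]))).1
          linarith only [h1]
        mb0 := by linarith only [hs0q, hq0]
        kk0 := hkfq.le
        kf0 := hkfq.le
        o01 := by
          simp only [v0, v2]
          linarith only [hkq8, hkfq, hh4q, hq0]
        o12 := by
          simp only [v0, v3]
          linarith only [hq0]
        l0 := fun l hl => by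
          simp only [v0, zero_mul, add_zero]
          rw [hlv l hl]
          exact hLt l hl
        pf0 := fun l hl => by
          simp only [v0, zero_mul, add_zero]
          rw [hlv l (by omega)]
          linarith only [hpp]
        kq := by
          simp only [v0, v3]
          linarith only [hh4q, hq0]
        kf1 := by
          simp only [v0, v2]
          linarith only [hkq8, hh4q, hq0]
        kf2 := fun i => by
          have := hPq i
          linarith only [this, hh4q, hq0]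
        qf1 := hqf
        N1 := by
          simp only [v0, v3, zero_mul, add_zero]
          rw [hlv _ le_rfl, Kn.ls]
          push_cast
          linarith only [hdN1, hεXq, hX2q, hq0, hy1q]
        m1 := by
          simp only [v0, v3, zero_mul, add_zero]
          rw [hlv _ le_rfl, hm₁]
          linarith only [hdN1, hpN2, hksq, hφq, hh4q, hεXq, hX2q, hq0]
        m10 := hm0
        oJ := by
          simp only [v0, zero_mul, add_zero]
          linarith only [hhCq, hX2q, ht1, hKq, hkq8, hCq, hXq3, hkfq, hsq, hlq, hq0]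
        δ0 := Kn.δ0
        sm := by
          simp only [v0, v3]
          have h1 := mul_le_mul_of_nonneg_right Kn.Xδ hq0.le
          have h2 : δ / (4 * lam) * (lam * q) = δ / 4 * q := by
            field_simp
          have h3 : 0 < δ * q := mul_pos hδ hq0
          rw [h2]
          linarith only [h1, h3] }

end Pool.ALT
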