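import Pool.Agent.H42.D2.SpanT

/-!
# Hyperplanes and pivots

`noHyp_piv`: the vector `X` with `X 0 = 1` is in no hyperplane which is a function of `z`, if no
coordinate of `X` is an affine function, with coefficients which are functions of `z`, of the
coordinates before it. `NoHyp.coarse`: a coarser record.
-/

set_option autoImplicit false

namespace Pool.D2Con

open Finset Real
open Pool.Agent.H49.Ent Pool.Agent.H32.Dense Pool.STK Pool.K2S Pool.D2A
open Pool.JVE (pe_sum)

/-- **Pivots.** -/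
theorem noHyp_piv {Ω ζ : Type} [Fintype Ω] {q : Ω → ℝ} (hq : IsLaw q) {r : ℕ}
    {X : Ω → Fin (r + 1) → ℝ} {z : Ω → ζ} {Y ν η ε π₀ : ℝ} (hX0 : ∀ ω, 0 < q ω → X ω 0 = 1)
    (hX : ∀ ω, 0 < q ω → ∀ j, |X ω j| ≤ Y) (hν : 0 < ν) (hν1 : ν ≤ 1) (hη : 0 ≤ η)
    (h1 : r * (ν * Y) + η < 1) (h2 : r * (ν * Y) + η / ν ^ r ≤ ε)
    (hpiv : ∀ (l : Fin r) (v : ζ → Fin (r + 1) → ℝ), law q (fun ω =>
      (∀ j, |v (z ω) j| ≤ 1 / ν ^ r) ∧
        |X ω l.succ - ∑ j, (if j < l.succ then v (z ω) j * X ω j else 0)| ≤ ε) True ≤ π₀) :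
    NoHyp q X z η (r * π₀) := by
  classical
  intro nv hnv
  have hνr : 0 < ν ^ r := pow_pos hν r
  obtain ⟨G, hG⟩ : ∃ G : Ω → Prop, G = fun ω => |∑ j, nv (z ω) j * X ω j| ≤ η := ⟨_, rfl⟩
  obtain ⟨Gl, hGl⟩ : ∃ Gl : Fin r → Ω → Prop, Gl = fun l ω => G ω ∧
    ν ^ (l.succ).val ≤ |nv (z ω) l.succ| ∧ ∀ l', l.succ < l' → |nv (z ω) l'| < ν ^ l'.val :=
    ⟨_, rfl⟩
  have hcov : ∀ ω, 0 < q ω → G ω → ∃ l, Gl l ω := by
    intro ω hω hGω
    have hY0 : 0 ≤ Y := (abs_nonneg _).trans (hX ω hω 0)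
    by_cases hex : ∃ l : Fin r, ν ^ (l.succ).val ≤ |nv (z ω) l.succ|
    · obtain ⟨l₀, hl₀⟩ := hex
      obtain ⟨l, hl1, hl2⟩ := Finset.exists_max_image (Finset.univ.filter (fun l : Fin r =>
        ν ^ (l.succ).val ≤ |nv (z ω) l.succ|)) (fun l => l) ⟨l₀, by
          rw [Finset.mem_filter]
          exact ⟨Finset.mem_univ _, hl₀⟩⟩
      rw [Finset.mem_filter] at hl1
      refine ⟨l, ?_⟩
      rw [hGl]
      refine ⟨hGω, hl1.2, fun l' hl' => ?_⟩
      by_contra hcon
      rw [not_lt] at hcon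
      revert hl' hcon
      refine Fin.cases ?_ (fun l' => ?_) l'
      · intro hl' _
        exact absurd hl' (Fin.not_lt_zero _)
      · intro hl' hcon
        have h3 := hl2 l' (by
          rw [Finset.mem_filter]
          exact ⟨Finset.mem_univ _, hcon⟩)
        exact absurd (Fin.succ_lt_succ_iff.mp hl') (not_lt.mpr h3)
    · exfalso
      push Not at hex
      have h3 : ∀ l : Fin r, |nv (z ω) l.succ| < ν := by
        intro l
        refine (hex l).trans_le ?_
        have : (l.succ).val = l.val + 1 := rfl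
        rw [this, pow_succ]
        have h4 : ν ^ l.val ≤ 1 := pow_le_one₀ hν.le hν1
        calc ν ^ l.val * ν ≤ 1 * ν := mul_le_mul_of_nonneg_right h4 hν.le
          _ = ν := one_mul ν
      obtain ⟨h5, j, h6⟩ := hnv ω hω
      have h7 : |nv (z ω) 0| = 1 := by
        revert h6
        refine Fin.cases ?_ (fun l => ?_) j
        · exact id
        · intro h6
          exfalso
          have h7 := h3 l
          rw [h6] at h7
          linarith only [h7, hν1]
      have h9 : |∑ l : Fin r, nv (z ω) l.succ * X ω l.succ| ≤ r * (ν * Y) := by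
        refine (Finset.abs_sum_le_sum_abs _ _).trans ?_
        have h13 : ∀ l ∈ (Finset.univ : Finset (Fin r)), |nv (z ω) l.succ * X ω l.succ| ≤
            ν * Y := by
          intro l _
          rw [abs_mul]
          exact mul_le_mul (h3 l).le (hX ω hω _) (abs_nonneg _) hν.le
        refine (Finset.sum_le_sum h13).trans ?_
        rw [Finset.sum_const, Finset.card_univ, Fintype.card_fin, nsmul_eq_mul]
      have e1 : nv (z ω) 0 = (∑ j, nv (z ω) j * X ω j) -
          ∑ l : Fin r, nv (z ω) l.succ * X ω l.succ := by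
        rw [Fin.sum_univ_succ, hX0 ω hω]
        ring
      have h17 := abs_sub (∑ j, nv (z ω) j * X ω j)
        (∑ l : Fin r, nv (z ω) l.succ * X ω l.succ)
      rw [← e1, h7] at h17
      rw [hG] at hGω
      have hGω' : |∑ j, nv (z ω) j * X ω j| ≤ η := hGω
      linarith only [h17, h9, hGω', h1]
  -- each event
  have hlaw : ∀ l, law q (Gl l) True ≤ π₀ := by
    intro l
    obtain ⟨va, hva⟩ : ∃ va : ζ → Fin (r + 1) → ℝ, va = fun t l' =>
      -(nv t l' / nv t l.succ) := ⟨_, rfl⟩
    refine (law_mono' hq.nonneg fun ω hω hGω => ?_).trans (hpiv l va)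
    rw [hGl, hG] at hGω
    obtain ⟨y3, y4, y5⟩ := hGω
    have y6 := (hnv ω hω).1
    obtain ⟨nn, hnn⟩ : ∃ nn, nn = nv (z ω) := ⟨_, rfl⟩
    obtain ⟨XX, hXX⟩ : ∃ XX : Fin (r + 1) → ℝ, XX = X ω := ⟨_, rfl⟩
    have hXXY : ∀ l, |XX l| ≤ Y := fun l => by
      rw [hXX]
      exact hX ω hω l
    have hY0 : 0 ≤ Y := (abs_nonneg _).trans (hXXY 0)
    rw [hva]
    beta_reduce at y3 y4 y5 y6 ⊢
    simp only [← hnn, ← hXX] at y3 y4 y5 y6 ⊢
    have hnl : ν ^ r ≤ |nn l.succ| := by
      refine le_trans ?_ y4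
      exact pow_le_pow_of_le_one hν.le hν1 (Nat.lt_succ_iff.mp l.succ.isLt)
    have hnl0 : 0 < |nn l.succ| := hνr.trans_le hnl
    have hnl' : nn l.succ ≠ 0 := abs_pos.mp hnl0
    refine ⟨fun l' => ?_, ?_⟩
    · rw [abs_neg, abs_div, div_le_div_iff₀ hnl0 hνr, one_mul]
      calc |nn l'| * ν ^ r ≤ 1 * |nn l.succ| := mul_le_mul (y6 l') hnl hνr.le zero_le_one
        _ = _ := one_mul _
    -- the identity
    have e2 : XX l.succ - ∑ l', (if l' < l.succ then -(nn l' / nn l.succ) * XX l' else 0) =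
        ((∑ l', nn l' * XX l') - ∑ l', (if l.succ < l' then nn l' * XX l' else 0)) /
          nn l.succ := by
      rw [eq_div_iff hnl', sub_mul, ← Finset.sum_sub_distrib, Finset.sum_mul]
      have e3 : ∀ l', nn l' * XX l' - (if l.succ < l' then nn l' * XX l' else 0) =
          (if l' = l.succ then XX l.succ * nn l.succ else 0) -
          (if l' < l.succ then -(nn l' / nn l.succ) * XX l' else 0) * nn l.succ := by
        intro l'
        rcases lt_trichotomy l' l.succ with h3 | h3 | h3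
        · rw [if_neg (not_lt.mpr h3.le), if_neg h3.ne, if_pos h3]
          field_simp
          ring
        · rw [h3, if_neg (lt_irrefl _), if_pos rfl, if_neg (lt_irrefl _)]
          ring
        · rw [if_pos h3, if_neg h3.ne', if_neg (not_lt.mpr h3.le)]
          ring
      rw [Finset.sum_congr rfl fun l' _ => e3 l', Finset.sum_sub_distrib,
        Finset.sum_ite_eq' Finset.univ l.succ, if_pos (Finset.mem_univ _)]
    rw [e2, abs_div, div_le_iff₀ hnl0]
    have h4 : |∑ l', (if l.succ < l' then nn l' * XX l' else 0)| ≤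
        r * (ν * |nn l.succ| * Y) := by
      rw [Fin.sum_univ_succ, if_neg (Fin.not_lt_zero _), zero_add]
      refine (Finset.abs_sum_le_sum_abs _ _).trans ?_
      have h13 : ∀ l' ∈ (Finset.univ : Finset (Fin r)),
          |if l.succ < l'.succ then nn l'.succ * XX l'.succ else 0| ≤ ν * |nn l.succ| * Y := by
        intro l' _
        split_ifs with h5
        · rw [abs_mul]
          refine mul_le_mul ?_ (hXXY _) (abs_nonneg _) (by positivity)
          refine (y5 _ h5).le.trans ?_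
          have h6 : ν ^ (l'.succ).val ≤ ν ^ ((l.succ).val + 1) :=
            pow_le_pow_of_le_one hν.le hν1 h5
          rw [pow_succ, mul_comm] at h6
          exact h6.trans (mul_le_mul_of_nonneg_left y4 hν.le)
        · rw [abs_zero]
          positivity
      refine (Finset.sum_le_sum h13).trans ?_
      rw [Finset.sum_const, Finset.card_univ, Fintype.card_fin, nsmul_eq_mul]
    refine (abs_sub _ _).trans ((add_le_add y3 h4).trans ?_)
    have h5 : η ≤ η / ν ^ r * |nn l.succ| := by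
      rw [div_mul_eq_mul_div, le_div_iff₀ hνr]
      exact mul_le_mul_of_nonneg_left hnl hη
    have h6 := mul_le_mul_of_nonneg_right h2 hnl0.le
    have e4 : (r * (ν * Y) + η / ν ^ r) * |nn l.succ| =
        r * (ν * |nn l.succ| * Y) + η / ν ^ r * |nn l.succ| := by ring
    rw [e4] at h6
    linarith only [h5, h6]
  -- the sum
  have hsum : law q G True ≤ ∑ l, law q (Gl l) True := by
    have e1 : ∀ G : Ω → Prop, law q G True = ∑ ω, if G ω then q ω else 0 := fun G => pe_sum q G
    rw [e1, Finset.sum_congr rfl fun l _ => e1 (Gl l), Finset.sum_comm]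
    refine Finset.sum_le_sum fun ω _ => ?_
    rcases (hq.nonneg ω).eq_or_lt with h0 | h0
    · rw [← h0]
      simp
    · by_cases hGω : G ω
      · obtain ⟨l, hl⟩ := hcov ω h0 hGω
        rw [if_pos hGω]
        refine le_trans ?_ (Finset.single_le_sum (f := fun l => if Gl l ω then q ω else 0)
          (fun l _ => by
            split_ifs
            exacts [h0.le, le_rfl]) (Finset.mem_univ l))
        rw [if_pos hl]
      · rw [if_neg hGω]
        exact Finset.sum_nonneg fun l _ => by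
          split_ifs
          exacts [h0.le, le_rfl]
  rw [← hG]
  refine hsum.trans ((Finset.sum_le_sum fun l _ => hlaw l).trans ?_)
  rw [Finset.sum_const, Finset.card_univ, Fintype.card_fin, nsmul_eq_mul]

/-- **A coarser record.** -/
theorem NoHyp.coarse {Ω ζ ζ' : Type} [Fintype Ω] {q : Ω → ℝ} {d : ℕ} {X : Ω → Fin d → ℝ}
    {z : Ω → ζ} {z' : Ω → ζ'} {η c : ℝ} (h : NoHyp q X z η c) (hq : ∀ ω, 0 ≤ q ω)
    (hz : Det q z z') : NoHyp q X z' η c := by
  classical
  intro n hn
  obtain ⟨n', hn'⟩ : ∃ n' : ζ → Fin d → ℝ, n' = fun s => if hs : ∃ ω, 0 < q ω ∧ z ω = s then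
    n (z' hs.choose) else fun _ => 1 := ⟨_, rfl⟩
  have h1 : ∀ ω, 0 < q ω → n' (z ω) = n (z' ω) := by
    intro ω hω
    have hs : ∃ ω', 0 < q ω' ∧ z ω' = z ω := ⟨ω, hω, rfl⟩
    rw [hn']
    beta_reduce
    rw [dif_pos hs]
    rw [hz _ _ hs.choose_spec.1 hω hs.choose_spec.2]
  refine (law_mono' hq fun ω hω hG => ?_).trans (h n' fun ω hω => ?_)
  · rw [h1 ω hω]
    exact hG
  · rw [h1 ω hω]
    exact hn ω hω

end Pool.D2Con
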