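import Pool.Agent.H73.D2.Trn

/-!
# D2: planks

The law of the pair with two copies of the second sample. If the directions `(Ey, Ez)` lie on a line
`Ez = al + be Ey` which is a function of the record `z'`, and `Ey` has positive rate, then the lines at
the two samples of one line and window agree: the plank is closed, hence a label with a gain.
-/

set_option autoImplicit false

namespace Pool.D2Con

open Finset Real
open Pool.Agent.H49.Ent Pool.Agent.H32.Dense Pool.STK Pool.D2A Pool.D2T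
open Pool.KM7 (P2 P2_isLaw P2_fst P2_snd P2_pos P2_CH)

/-- Two values of an affine function. -/
theorem aff_two {a b x y R κ η : ℝ} (hx : |x| ≤ R) (hκ : 0 < κ)
    (hxy : κ ≤ |x - y|) (h1 : |a + b * x| ≤ η) (h2 : |a + b * y| ≤ η) :
    |b| ≤ 2 * η / κ ∧ |a| ≤ η + 2 * η / κ * R := by
  have h3 : |b| * κ ≤ 2 * η := by
    calc |b| * κ ≤ |b| * |x - y| := mul_le_mul_of_nonneg_left hxy (abs_nonneg _)
      _ = |(a + b * x) - (a + b * y)| := by
          rw [← abs_mul]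
          congr 1
          ring
      _ ≤ |a + b * x| + |a + b * y| := abs_sub _ _
      _ ≤ 2 * η := by linarith
  have h4 : |b| ≤ 2 * η / κ := by rwa [le_div_iff₀ hκ]
  refine ⟨h4, ?_⟩
  have h5 : |a| ≤ |a + b * x| + |b * x| := by
    have : a = (a + b * x) - b * x := by ring
    conv_lhs => rw [this]
    exact abs_sub _ _
  rw [abs_mul] at h5
  have h6 : |b| * |x| ≤ 2 * η / κ * R :=
    mul_le_mul h4 hx (abs_nonneg _) ((abs_nonneg _).trans h4)
  linarith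

/-- The cells at which a large affine function is small. -/
theorem aff_cells {a b R κ η : ℝ} (hκ : 0 < κ) (hab : 2 * η / κ < |b| ∨ η + 2 * η / κ * R < |a|) :
    ∃ F : Finset ℤ, F.card ≤ 3 ∧ ∀ x : ℝ, |x| ≤ R → |a + b * x| ≤ η → ⌊x / κ⌋ ∈ F := by
  by_cases h : ∃ x : ℝ, |x| ≤ R ∧ |a + b * x| ≤ η
  · obtain ⟨x₀, hx₀, h₀⟩ := h
    refine ⟨Finset.Icc (⌊x₀ / κ⌋ - 1) (⌊x₀ / κ⌋ + 1), ?_, ?_⟩
    · rw [Int.card_Icc, show ⌊x₀ / κ⌋ + 1 + 1 - (⌊x₀ / κ⌋ - 1) = 3 by ring]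
      rfl
    · intro x hx hax
      have h1 : |x - x₀| < κ := by
        by_contra hcon
        rw [not_lt] at hcon
        obtain ⟨h2, h3⟩ := aff_two hx hκ hcon hax h₀
        rcases hab with h4 | h4
        · exact absurd h2 (not_le.mpr h4)
        · exact absurd h3 (not_le.mpr h4)
      rw [abs_lt] at h1
      have h2 : x / κ < x₀ / κ + 1 := by
        rw [← sub_lt_iff_lt_add', ← sub_div, div_lt_one hκ]
        linarith
      have h3 : x₀ / κ < x / κ + 1 := by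
        rw [← sub_lt_iff_lt_add', ← sub_div, div_lt_one hκ]
        linarith
      rw [Finset.mem_Icc]
      constructor
      · have h4 : ⌊x₀ / κ⌋ ≤ ⌊x / κ + 1⌋ := Int.floor_le_floor h3.le
        rw [Int.floor_add_one] at h4
        linarith
      · have h4 : ⌊x / κ⌋ ≤ ⌊x₀ / κ + 1⌋ := Int.floor_le_floor h2.le
        rw [Int.floor_add_one] at h4
        exact h4
  · push Not at h
    exact ⟨∅, by simp, fun x hx hax => absurd hax (not_le.mpr (h x hx))⟩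

/-- Union bound. -/
theorem law_or {W : Type} [Fintype W] {q : W → ℝ} (h0 : ∀ w, 0 ≤ q w) (G A B : W → Prop)
    (h : ∀ w, 0 < q w → G w → A w ∨ B w) :
    law q G True ≤ law q A True + law q B True := by
  classical
  have key : ∀ P : W → Prop, law q P True = ∑ w, if P w then q w else 0 := by
    intro P
    unfold law
    refine Finset.sum_congr rfl fun w _ => ?_
    by_cases hP : P w
    · rw [if_pos (eq_true hP), if_pos hP]
    · rw [if_neg (fun e => hP (by rw [e]; trivial)), if_neg hP]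
  rw [key, key, key, ← Finset.sum_add_distrib]
  refine Finset.sum_le_sum fun w _ => ?_
  have hw := h0 w
  rcases hw.eq_or_lt with hz | hz
  · rw [← hz]
    simp
  · by_cases hG : G w
    · rcases h w hz hG with hA | hB
      · rw [if_pos hG, if_pos hA]
        split_ifs <;> linarith
      · rw [if_pos hG, if_pos hB]
        split_ifs <;> linarith
    · rw [if_neg hG]
      split_ifs <;> linarith

variable {Ω σ ζ ζ' ε : Type} [Fintype Ω]

/-- **Planks are closed.** `Ey`, `Ez` are the two direction coordinates, read from the (finite)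
direction datum `e`, which is constant on `S`. -/
theorem plk_one {p : Ω → ℝ} (hp : IsLaw p) {S : Ω → σ} {z : Ω → ζ} {z' : Ω → ζ'}
    (hz' : Det p z' z) (hS : Det p S z) (e : Ω → ε) (Ey Ez : ε → ℝ)
    (hline : ∀ ω ω', 0 < p ω → 0 < p ω' → S ω = S ω' → e ω = e ω')
    {ηF : ℝ} (hF : CH p e z ≤ CH p e z' + ηF)
    (α β : ζ' → ℝ) {R κ η : ℝ} (hκ : 0 < κ) (hR : ∀ ω, 0 < p ω → |Ey (e ω)| ≤ R)
    (hplk : ∀ ω, 0 < p ω → |Ez (e ω) - α (z' ω) - β (z' ω) * Ey (e ω)| ≤ η)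
    {K : ℕ} (hK : 1 ≤ K) {c c₁ : ℝ} (hc : 0 ≤ c)
    (hE : NoCov p (fun ω => ⌊Ey (e ω) / κ⌋) z' K c) (hc₁ : 0 < c₁)
    {η₁ : ℝ} (hη₁ : η₁ = 2 * η + (η + 2 * η / κ * R) + 2 * η / κ * R)
    (hn : (2 * ηF + Real.log 2) / c₁ + Real.log 3 < (1 - c / c₁) * Real.log K) :
    law (P2 p S) (fun v => 2 * η₁ / κ + 2 * η / κ < |β (z' v.2) - β (z' v.1)| ∨
      (η₁ + 2 * η₁ / κ * R) + (η + 2 * η / κ * R) < |α (z' v.2) - α (z' v.1)|) True < 2 * c₁ := by
  classical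
  have hηF : 0 ≤ ηF := by
    have h1 : CH p e z' ≤ CH p e z := CH_mono_cond hp.nonneg hz'
    linarith
  obtain ⟨sd, hsd⟩ : ∃ sd : Fin 2 → Bool, sd = fun _ => false := ⟨_, rfl⟩
  have hsm : ∀ r (v : Ω × Ω), sm sd r v = v.2 := by
    intro r v
    unfold sm
    rw [hsd]
    rfl
  obtain ⟨Q, hQ⟩ : ∃ Q, Q = PL p S z' sd := ⟨_, rfl⟩
  have hq := PL_isLaw hp S z' sd
  -- functions of the copies
  obtain ⟨y, hy⟩ : ∃ y : (Fin 2 → ε × Unit) → Fin 2 → ℝ, y = fun W r => Ey (W r).1 := ⟨_, rfl⟩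
  obtain ⟨u, hu⟩ : ∃ u : (Fin 2 → ε × Unit) → Fin 2 → ℝ, u = fun W r => Ez (W r).1 := ⟨_, rfl⟩
  obtain ⟨b, hb⟩ : ∃ b : (Fin 2 → ε × Unit) → ℝ, b = fun W => (u W 0 - u W 1) / (y W 0 - y W 1) :=
    ⟨_, rfl⟩
  obtain ⟨a, ha⟩ : ∃ a : (Fin 2 → ε × Unit) → ℝ, a = fun W => u W 0 - b W * y W 0 := ⟨_, rfl⟩
  obtain ⟨Wc, hWc⟩ : ∃ Wc : (Ω × Ω) × (Fin 2 → Ω × Ω) → Fin 2 → ε × Unit,
    Wc = fun w r => (e (cp sd r w), ()) := ⟨_, rfl⟩
  have hcells : ∀ a' b' : ℝ, ∃ F : Finset ℤ,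
      (2 * η₁ / κ < |b'| ∨ η₁ + 2 * η₁ / κ * R < |a'|) → F.card ≤ 3 ∧
        ∀ x : ℝ, |x| ≤ R → |a' + b' * x| ≤ η₁ → ⌊x / κ⌋ ∈ F := by
    intro a' b'
    by_cases h : 2 * η₁ / κ < |b'| ∨ η₁ + 2 * η₁ / κ * R < |a'|
    · obtain ⟨F, hF1, hF2⟩ := aff_cells hκ h
      exact ⟨F, fun _ => ⟨hF1, hF2⟩⟩
    · exact ⟨∅, fun h' => absurd h' h⟩
  choose Fc hFc using hcells
  -- the relations on the support
  have hrel : ∀ w, 0 < PL p S z' sd w → κ ≤ |y (Wc w) 0 - y (Wc w) 1| →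
      |β (z' w.1.2) - b (Wc w)| ≤ 2 * η / κ ∧
      |α (z' w.1.2) - a (Wc w)| ≤ η + 2 * η / κ * R ∧
      |(a (Wc w) - α (z' w.1.1)) + (b (Wc w) - β (z' w.1.1)) * Ey (e w.1.1)| ≤ η₁ := by
    intro w hw hsep
    obtain ⟨p1, p2, p3, p4⟩ := PL_pos hp S z' sd hw
    have hyne : y (Wc w) 0 - y (Wc w) 1 ≠ 0 := by
      intro h
      rw [h, abs_zero] at hsep
      exact absurd hsep (not_le.mpr hκ)
    have hz : ∀ r, z' (cp sd r w) = z' w.1.2 := fun r => by
      rw [← (p4 r).2, hsm]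
    have hr : ∀ r, |u (Wc w) r - α (z' w.1.2) - β (z' w.1.2) * y (Wc w) r| ≤ η := by
      intro r
      have h1 := hplk _ (p4 r).1
      rw [hz r] at h1
      rw [hu, hy, hWc]
      exact h1
    have hRr : ∀ r, |y (Wc w) r| ≤ R := by
      intro r
      rw [hy, hWc]
      exact hR _ (p4 r).1
    have hbe : b (Wc w) * (y (Wc w) 0 - y (Wc w) 1) = u (Wc w) 0 - u (Wc w) 1 := by
      have : b (Wc w) = (u (Wc w) 0 - u (Wc w) 1) / (y (Wc w) 0 - y (Wc w) 1) := by rw [hb]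
      rw [this, div_mul_cancel₀ _ hyne]
    have hae : a (Wc w) = u (Wc w) 0 - b (Wc w) * y (Wc w) 0 := by rw [ha]
    have h0 : |(α (z' w.1.2) - a (Wc w)) + (β (z' w.1.2) - b (Wc w)) * y (Wc w) 0| ≤ η := by
      have e1 : (α (z' w.1.2) - a (Wc w)) + (β (z' w.1.2) - b (Wc w)) * y (Wc w) 0 =
          -(u (Wc w) 0 - α (z' w.1.2) - β (z' w.1.2) * y (Wc w) 0) := by
        rw [hae]
        ring
      rw [e1, abs_neg]
      exact hr 0
    have h1 : |(α (z' w.1.2) - a (Wc w)) + (β (z' w.1.2) - b (Wc w)) * y (Wc w) 1| ≤ η := by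
      have e1 : (α (z' w.1.2) - a (Wc w)) + (β (z' w.1.2) - b (Wc w)) * y (Wc w) 1 =
          -(u (Wc w) 1 - α (z' w.1.2) - β (z' w.1.2) * y (Wc w) 1) := by
        rw [hae]
        linear_combination hbe
      rw [e1, abs_neg]
      exact hr 1
    obtain ⟨g1, g2⟩ := aff_two (hRr 0) hκ hsep h0 h1
    refine ⟨g1, g2, ?_⟩
    have he : e w.1.1 = e w.1.2 := hline _ _ p1 p2 p3
    have k1 := hplk _ p1
    have k2 := hplk _ p2
    rw [← he] at k2
    have kx := hR _ p1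
    obtain ⟨x, hx⟩ : ∃ x, x = Ey (e w.1.1) := ⟨_, rfl⟩
    rw [← hx] at k1 k2 kx ⊢
    have e2 : (a (Wc w) - α (z' w.1.1)) + (b (Wc w) - β (z' w.1.1)) * x =
        (Ez (e w.1.1) - α (z' w.1.1) - β (z' w.1.1) * x) -
        (Ez (e w.1.1) - α (z' w.1.2) - β (z' w.1.2) * x) -
        (α (z' w.1.2) - a (Wc w)) - (β (z' w.1.2) - b (Wc w)) * x := by ring
    rw [e2]
    have m1 : |(β (z' w.1.2) - b (Wc w)) * x| ≤ 2 * η / κ * R := by
      rw [abs_mul]
      exact mul_le_mul g1 kx (abs_nonneg _) ((abs_nonneg _).trans g1)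
    have d1 := abs_sub ((Ez (e w.1.1) - α (z' w.1.1) - β (z' w.1.1) * x) -
      (Ez (e w.1.1) - α (z' w.1.2) - β (z' w.1.2) * x) -
      (α (z' w.1.2) - a (Wc w))) ((β (z' w.1.2) - b (Wc w)) * x)
    have d2 := abs_sub ((Ez (e w.1.1) - α (z' w.1.1) - β (z' w.1.1) * x) -
      (Ez (e w.1.1) - α (z' w.1.2) - β (z' w.1.2) * x)) (α (z' w.1.2) - a (Wc w))
    have d3 := abs_sub (Ez (e w.1.1) - α (z' w.1.1) - β (z' w.1.1) * x)
      (Ez (e w.1.1) - α (z' w.1.2) - β (z' w.1.2) * x)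
    rw [hη₁]
    linarith
  -- the two bad events
  obtain ⟨Gb, hGb⟩ : ∃ G : (Ω × Ω) × (Fin 2 → Ω × Ω) → Prop,
      G = fun w => κ ≤ |y (Wc w) 0 - y (Wc w) 1| ∧
        (2 * η₁ / κ < |b (Wc w) - β (z' w.1.1)| ∨
          η₁ + 2 * η₁ / κ * R < |a (Wc w) - α (z' w.1.1)|) := ⟨_, rfl⟩
  obtain ⟨Gn, hGn⟩ : ∃ G : (Ω × Ω) × (Fin 2 → Ω × Ω) → Prop,
      G = fun w => |y (Wc w) 0 - y (Wc w) 1| < κ := ⟨_, rfl⟩
  have l1 : law (PL p S z' sd) Gb True < c₁ := by
    refine read_pl hp hz' hS sd e (fun _ => ()) hF (ηH := 0) ?_ (fun ω => ⌊Ey (e ω) / κ⌋)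
      (K' := 3) hK hc hE hc₁ Gb (fun W x => Fc (a W - α x) (b W - β x)) ?_ ?_
    · rw [CH_eq_zero hp.nonneg fun _ _ _ _ _ => rfl]
    · intro w hw hg
      rw [hGb] at hg
      have hc1 := hFc (a (Wc w) - α (z' w.1.1)) (b (Wc w) - β (z' w.1.1)) hg.2
      have e1 : (fun r => (e (cp sd r w), ())) = Wc w := by rw [hWc]
      have h2 := hc1.2 (Ey (e w.1.1)) (hR _ (PL_pos hp S z' sd hw).1)
        (hrel w hw hg.1).2.2
      constructor
      · rw [e1]
        exact h2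
      · rw [e1]
        exact hc1.1
    · push_cast
      rw [add_zero]
      exact hn
  have l2 : law (PL p S z' sd) Gn True < c₁ := by
    refine cop_sep hp S z' sd 0 (fun ω => ⌊Ey (e ω) / κ⌋) (K' := 3) hK hc hE hc₁ Gn
      (fun x => Finset.Icc (⌊Ey (e (x.2 ⟨1, by decide⟩)) / κ⌋ - 1)
        (⌊Ey (e (x.2 ⟨1, by decide⟩)) / κ⌋ + 1)) ?_ ?_
    · intro w hw hg
      rw [hGn] at hg
      constructor
      · have h1 : |Ey (e (cp sd 0 w)) - Ey (e (cp sd 1 w))| < κ := by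
          rw [hy, hWc] at hg
          exact hg
        rw [abs_lt] at h1
        have h2 : Ey (e (cp sd 0 w)) / κ < Ey (e (cp sd 1 w)) / κ + 1 := by
          rw [← sub_lt_iff_lt_add', ← sub_div, div_lt_one hκ]
          linarith
        have h3 : Ey (e (cp sd 1 w)) / κ < Ey (e (cp sd 0 w)) / κ + 1 := by
          rw [← sub_lt_iff_lt_add', ← sub_div, div_lt_one hκ]
          linarith
        rw [Finset.mem_Icc]
        constructor
        · have h4 : ⌊Ey (e (cp sd 1 w)) / κ⌋ ≤ ⌊Ey (e (cp sd 0 w)) / κ + 1⌋ :=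
            Int.floor_le_floor h3.le
          rw [Int.floor_add_one] at h4
          show ⌊Ey (e (cp sd 1 w)) / κ⌋ - 1 ≤ _
          linarith
        · have h4 : ⌊Ey (e (cp sd 0 w)) / κ⌋ ≤ ⌊Ey (e (cp sd 1 w)) / κ + 1⌋ :=
            Int.floor_le_floor h2.le
          rw [Int.floor_add_one] at h4
          exact h4
      · rw [Int.card_Icc]
        have : ∀ m : ℤ, (m + 1 + 1 - (m - 1)).toNat = 3 := fun m => by
          rw [show m + 1 + 1 - (m - 1) = 3 by ring]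
          rfl
        exact (this _).le
    · have h5 : Real.log 2 / c₁ ≤ (2 * ηF + Real.log 2) / c₁ :=
        div_le_div_of_nonneg_right (by linarith) hc₁.le
      push_cast
      linarith
  -- transport
  rw [← (PL_base hp S z' sd).law (fun v => 2 * η₁ / κ + 2 * η / κ < |β (z' v.2) - β (z' v.1)| ∨
      (η₁ + 2 * η₁ / κ * R) + (η + 2 * η / κ * R) < |α (z' v.2) - α (z' v.1)|) True]
  have h6 := law_or (q := PL p S z' sd) hq.nonneg (fun w => 2 * η₁ / κ + 2 * η / κ <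
      |β (z' w.1.2) - β (z' w.1.1)| ∨ (η₁ + 2 * η₁ / κ * R) + (η + 2 * η / κ * R) <
      |α (z' w.1.2) - α (z' w.1.1)|) Gb Gn (fun w hpos hG => by
    by_cases hs : κ ≤ |y (Wc w) 0 - y (Wc w) 1|
    · left
      rw [hGb]
      refine ⟨hs, ?_⟩
      obtain ⟨g1, g2, -⟩ := hrel w hpos hs
      by_contra hcon
      push Not at hcon
      rcases hG with h7 | h7
      · have d1 := abs_add_le (β (z' w.1.2) - b (Wc w)) (b (Wc w) - β (z' w.1.1))
        rw [sub_add_sub_cancel] at d1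
        linarith [hcon.1]
      · have d1 := abs_add_le (α (z' w.1.2) - a (Wc w)) (a (Wc w) - α (z' w.1.1))
        rw [sub_add_sub_cancel] at d1
        linarith [hcon.2]
    · right
      rw [hGn]
      exact not_le.mp hs)
  linarith

end Pool.D2Con
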