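import Pool.Agent.H42.D2.Cov2

/-!
# D2, the conic: the algebra of the end

`con_om`: the germ of `theta~`, (alpha) and (beta) put the axis `om` of the skew part of `M_1` on
the polar of `X`: `(Q om) . X` is small. `con_fin`: if `Q om` is small then
`theta~'' - theta~ = tau rho Q X`.
-/

set_option autoImplicit false

namespace Pool.D2Con

open Pool.D2A

theorem lf_le {u X : Fin 3 → ℝ} {A B : ℝ} (hu : ∀ i, |u i| ≤ A) (hX : ∀ i, |X i| ≤ B) :
    |lf u X| ≤ 3 * (A * B) := by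
  have hA : 0 ≤ A := (abs_nonneg _).trans (hu 0)
  have h : ∀ i, |u i * X i| ≤ A * B := fun i => by
    rw [abs_mul]
    exact mul_le_mul (hu i) (hX i) (abs_nonneg _) hA
  have h1 := abs_add_le (u 0 * X 0 + u 1 * X 1) (u 2 * X 2)
  have h2 := abs_add_le (u 0 * X 0) (u 1 * X 1)
  unfold lf
  linarith only [h1, h2, h 0, h 1, h 2]

/-- The axis of the skew part. -/
noncomputable def axi (M : Fin 3 → Fin 3 → ℝ) : Fin 3 → ℝ :=
  ![(M 2 1 - M 1 2) / 2, (M 0 2 - M 2 0) / 2, (M 1 0 - M 0 1) / 2]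

/-- The cross product. -/
def crs (X Y : Fin 3 → ℝ) : Fin 3 → ℝ :=
  ![X 1 * Y 2 - X 2 * Y 1, X 2 * Y 0 - X 0 * Y 2, X 0 * Y 1 - X 1 * Y 0]

theorem lf_axi (M : Fin 3 → Fin 3 → ℝ) (X : Fin 3 → ℝ) (i : Fin 3) :
    lf (M i) X = lf (fun j => (M i j + M j i) / 2) X + crs (axi M) X i := by
  fin_cases i
  · change lf (M 0) X = lf (fun j => (M 0 j + M j 0) / 2) X +
      ((M 0 2 - M 2 0) / 2 * X 2 - (M 1 0 - M 0 1) / 2 * X 1)
    unfold lf
    ring
  · change lf (M 1) X = lf (fun j => (M 1 j + M j 1) / 2) X +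
      ((M 1 0 - M 0 1) / 2 * X 0 - (M 2 1 - M 1 2) / 2 * X 2)
    unfold lf
    ring
  · change lf (M 2) X = lf (fun j => (M 2 j + M j 2) / 2) X +
      ((M 2 1 - M 1 2) / 2 * X 1 - (M 0 2 - M 2 0) / 2 * X 0)
    unfold lf
    ring

theorem lf_axi' (M : Fin 3 → Fin 3 → ℝ) (X : Fin 3 → ℝ) (i : Fin 3) :
    lf (fun j => M j i) X = lf (fun j => (M i j + M j i) / 2) X - crs (axi M) X i := by
  fin_cases i
  · change lf (fun j => M j 0) X = lf (fun j => (M 0 j + M j 0) / 2) X -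
      ((M 0 2 - M 2 0) / 2 * X 2 - (M 1 0 - M 0 1) / 2 * X 1)
    unfold lf
    ring
  · change lf (fun j => M j 1) X = lf (fun j => (M 1 j + M j 1) / 2) X -
      ((M 1 0 - M 0 1) / 2 * X 0 - (M 2 1 - M 1 2) / 2 * X 2)
    unfold lf
    ring
  · change lf (fun j => M j 2) X = lf (fun j => (M 2 j + M j 2) / 2) X -
      ((M 2 1 - M 1 2) / 2 * X 1 - (M 0 2 - M 2 0) / 2 * X 0)
    unfold lf
    ring

/-- The axis of a bounded matrix. -/
theorem axi_le {M : Fin 3 → Fin 3 → ℝ} {R : ℝ} (hM : ∀ i j, |M i j| ≤ R) (i : Fin 3) :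
    |axi M i| ≤ R := by
  have key : ∀ {a b : ℝ}, |a| ≤ R → |b| ≤ R → |(a - b) / 2| ≤ R := by
    intro a b ha hb
    rw [abs_div, abs_two]
    have := abs_sub a b
    linarith only [this, ha, hb]
  fin_cases i
  · exact key (hM 2 1) (hM 1 2)
  · exact key (hM 0 2) (hM 2 0)
  · exact key (hM 1 0) (hM 0 1)

/-- **The germ**: the difference of the two values. -/
theorem germ_dif {M1 M1' : Fin 3 → Fin 3 → ℝ} {M0 M0' X p th th' : Fin 3 → ℝ} {τ R ε : ℝ}
    (hε : 0 ≤ ε) (hX : ∀ i, |X i| ≤ R) (hp : ∀ i, |p i| ≤ R) (hτ : |τ| ≤ R)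
    (g : ∀ i, |th i - (M0 i + lf (M1 i) p)| ≤ ε)
    (g' : ∀ i, |th' i - (M0' i + lf (M1' i) (fun j => p j + τ * X j))| ≤ ε)
    (h0 : ∀ i, |M0' i - M0 i| ≤ ε) (h1 : ∀ i j, |M1' i j - M1 i j| ≤ ε) (hR : 1 ≤ R)
    (i : Fin 3) : |th' i - th i - τ * lf (M1 i) X| ≤ 9 * R ^ 2 * ε := by
  have hR0 : 0 ≤ R := by linarith only [hR]
  have e : th' i - th i - τ * lf (M1 i) X =
      (th' i - (M0' i + lf (M1' i) (fun j => p j + τ * X j))) -
      (th i - (M0 i + lf (M1 i) p)) + (M0' i - M0 i) +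
      lf (fun j => M1' i j - M1 i j) (fun j => p j + τ * X j) := by
    unfold lf
    ring
  have hpt : ∀ j, |p j + τ * X j| ≤ R + R * R := by
    intro j
    refine (abs_add_le _ _).trans (add_le_add (hp j) ?_)
    rw [abs_mul]
    exact mul_le_mul hτ (hX j) (abs_nonneg _) hR0
  have h2 := lf_le (u := fun j => M1' i j - M1 i j) (X := fun j => p j + τ * X j)
    (fun j => h1 i j) hpt
  have hRR : 1 ≤ R ^ 2 := one_le_pow₀ hR
  have hRR' : R ≤ R ^ 2 := by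
    have : R * 1 ≤ R * R := mul_le_mul_of_nonneg_left hR hR0
    linarith only [this, pow_two R]
  rw [e]
  have d1 := abs_add_le ((th' i - (M0' i + lf (M1' i) (fun j => p j + τ * X j))) -
      (th i - (M0 i + lf (M1 i) p)) + (M0' i - M0 i))
      (lf (fun j => M1' i j - M1 i j) (fun j => p j + τ * X j))
  have d2 := abs_add_le ((th' i - (M0' i + lf (M1' i) (fun j => p j + τ * X j))) -
      (th i - (M0 i + lf (M1 i) p))) (M0' i - M0 i)
  have d3 := abs_sub (th' i - (M0' i + lf (M1' i) (fun j => p j + τ * X j)))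
      (th i - (M0 i + lf (M1 i) p))
  have e2 : 3 * (ε * (R + R * R)) ≤ 6 * (R ^ 2 * ε) := by
    have h3 : ε * (R + R * R) ≤ ε * (R ^ 2 + R ^ 2) :=
      mul_le_mul_of_nonneg_left (by linarith only [hRR', pow_two R]) hε
    linarith only [h3]
  have e3 : ε ≤ R ^ 2 * ε := by
    have := mul_le_mul_of_nonneg_right hRR hε
    linarith only [this]
  have e4 : 9 * R ^ 2 * ε = 9 * (R ^ 2 * ε) := by ring
  rw [e4]
  linarith only [d1, d2, d3, g i, g' i, h0 i, h2, e2, e3]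

/-- **The axis is on the polar.** -/
theorem con_om {Q M : Fin 3 → Fin 3 → ℝ} {X Th dth : Fin 3 → ℝ} {b τ gam ρ R ε : ℝ}
    (hR : 1 ≤ R) (hε : 0 ≤ ε) (hX0 : X 0 = 1) (hX : ∀ i, |X i| ≤ R)
    (hQs : ∀ i j, Q i j = Q j i) (hQ : ∀ i j, |Q i j| ≤ R)
    (hM : ∀ i j, |M i j| ≤ R) (hb : |b| ≤ R) (hτ : |τ| ≤ R)
    (hd : ∀ i, |dth i - τ * lf (M i) X| ≤ ε)
    (hs : ∀ i j, |(M i j + M j i) / 2 - ρ * Q i j| ≤ ε)
    (ha : ∀ i, |Th i + b * lf (fun j => M j i) X| ≤ ε)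
    (hbt : ∀ i, |b * dth i + 2 * τ * Th i - gam * lf (Q i) X| ≤ ε)
    (hq : |bf Q X X| ≤ ε) :
    |b| * |τ| * |lf (fun i => lf (Q i) (axi M)) X| ≤ 30 * R ^ 5 * ε := by
  have hR0 : 0 ≤ R := by linarith only [hR]
  obtain ⟨w, hw⟩ : ∃ w, w = axi M := ⟨_, rfl⟩
  obtain ⟨q, hqd⟩ : ∃ q : Fin 3 → ℝ, q = fun i => lf (Q i) X := ⟨_, rfl⟩
  obtain ⟨y, hy⟩ : ∃ y : Fin 3 → ℝ, y = crs w X := ⟨_, rfl⟩
  have bw : ∀ i, |w i| ≤ R := by rw [hw]; exact axi_le hM
  have bq : ∀ i, |q i| ≤ 3 * R ^ 2 := by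
    intro i
    rw [hqd]
    exact (lf_le (hQ i) hX).trans (le_of_eq (by ring))
  have p1 : (1 : ℝ) ≤ R ^ 2 := one_le_pow₀ hR
  have p2 : (1 : ℝ) ≤ R ^ 3 := one_le_pow₀ hR
  -- the relation `3 b tau om x X = (gam + b tau rho) Q X`
  have key : ∀ i, |3 * (b * τ) * y i - (gam + b * τ * ρ) * q i| ≤ 13 * R ^ 3 * ε := by
    intro i
    have e1 : lf (M i) X = lf (fun j => (M i j + M j i) / 2) X + y i := by
      rw [hy, hw]
      exact lf_axi M X i
    have e2 : lf (fun j => M j i) X = lf (fun j => (M i j + M j i) / 2) X - y i := by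
      rw [hy, hw]
      exact lf_axi' M X i
    obtain ⟨σ, hσ⟩ : ∃ σ, σ = lf (fun j => (M i j + M j i) / 2 - ρ * Q i j) X := ⟨_, rfl⟩
    have e3 : lf (fun j => (M i j + M j i) / 2) X = ρ * q i + σ := by
      rw [hσ, hqd]
      unfold lf
      ring
    have bσ : |σ| ≤ 3 * (ε * R) := by
      rw [hσ]
      exact lf_le (fun j => hs i j) hX
    have e : 3 * (b * τ) * y i - (gam + b * τ * ρ) * q i =
        (b * dth i + 2 * τ * Th i - gam * lf (Q i) X) - b * (dth i - τ * lf (M i) X) -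
        2 * τ * (Th i + b * lf (fun j => M j i) X) + b * τ * σ := by
      have e4 : q i = lf (Q i) X := by rw [hqd]
      rw [e1, e2, e3, e4]
      ring
    rw [e]
    have a1 : |b * (dth i - τ * lf (M i) X)| ≤ R * ε := by
      rw [abs_mul]
      exact mul_le_mul hb (hd i) (abs_nonneg _) hR0
    have a2 : |2 * τ * (Th i + b * lf (fun j => M j i) X)| ≤ 2 * R * ε := by
      rw [abs_mul, abs_mul, abs_two]
      exact mul_le_mul (mul_le_mul_of_nonneg_left hτ (by norm_num)) (ha i) (abs_nonneg _)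
        (by positivity)
    have a3 : |b * τ * σ| ≤ 3 * (R ^ 3 * ε) := by
      rw [abs_mul, abs_mul]
      refine (mul_le_mul (mul_le_mul hb hτ (abs_nonneg _) hR0) bσ (abs_nonneg _)
        (by positivity)).trans (le_of_eq (by ring))
    have d1 := abs_add_le ((b * dth i + 2 * τ * Th i - gam * lf (Q i) X) -
      b * (dth i - τ * lf (M i) X) - 2 * τ * (Th i + b * lf (fun j => M j i) X)) (b * τ * σ)
    have d2 := abs_sub ((b * dth i + 2 * τ * Th i - gam * lf (Q i) X) -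
      b * (dth i - τ * lf (M i) X)) (2 * τ * (Th i + b * lf (fun j => M j i) X))
    have d3 := abs_sub (b * dth i + 2 * τ * Th i - gam * lf (Q i) X)
      (b * (dth i - τ * lf (M i) X))
    have c1 : ε ≤ R ^ 3 * ε := by
      have := mul_le_mul_of_nonneg_right p2 hε
      linarith only [this]
    have c2 : R * ε ≤ R ^ 3 * ε := by
      refine mul_le_mul_of_nonneg_right ?_ hε
      have : R * 1 ≤ R * R ^ 2 := mul_le_mul_of_nonneg_left p1 hR0
      linarith only [this, show R * R ^ 2 = R ^ 3 by ring]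
    have c3 : 0 ≤ R ^ 3 * ε := by positivity
    have e5 : 13 * R ^ 3 * ε = 13 * (R ^ 3 * ε) := by ring
    have e6 : 2 * R * ε = 2 * (R * ε) := by ring
    rw [e5]
    rw [e6] at a2
    linarith only [d1, d2, d3, a1, a2, a3, hbt i, c1, c2, c3]
  -- cross product with `Q X`
  have hy0 : y = crs w X := hy
  have e7 : y 1 * q 2 - y 2 * q 1 = X 0 * lf w q - w 0 * lf q X := by
    rw [hy]
    change (w 2 * X 0 - w 0 * X 2) * q 2 - (w 0 * X 1 - w 1 * X 0) * q 1 = _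
    unfold lf
    ring
  have e8 : lf q X = bf Q X X := by
    rw [hqd, bf3]
    unfold lf
    ring
  have e9 : lf w q = lf (fun i => lf (Q i) w) X := by
    rw [hqd]
    unfold lf
    simp only []
    rw [hQs 1 0, hQs 2 0, hQs 2 1]
    ring
  rw [hX0, one_mul, e8, e9] at e7
  obtain ⟨L, hL⟩ : ∃ L, L = lf (fun i => lf (Q i) w) X := ⟨_, rfl⟩
  rw [← hL] at e7
  have k1 := key 1
  have k2 := key 2
  have e10 : 3 * (b * τ) * L = 3 * (b * τ) * (w 0 * bf Q X X) +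
      (3 * (b * τ) * y 1 - (gam + b * τ * ρ) * q 1) * q 2 -
      (3 * (b * τ) * y 2 - (gam + b * τ * ρ) * q 2) * q 1 := by
    have : L = w 0 * bf Q X X + (y 1 * q 2 - y 2 * q 1) := by rw [e7]; ring
    rw [this]
    ring
  have m1 : |3 * (b * τ) * (w 0 * bf Q X X)| ≤ 3 * (R ^ 3 * ε) := by
    rw [abs_mul, abs_mul, abs_mul, abs_mul]
    have h3 : |(3 : ℝ)| = 3 := abs_of_pos (by norm_num)
    rw [h3]
    have h4 : |b| * |τ| ≤ R * R := mul_le_mul hb hτ (abs_nonneg _) hR0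
    have h5 : |w 0| * |bf Q X X| ≤ R * ε := mul_le_mul (bw 0) hq (abs_nonneg _) hR0
    calc 3 * (|b| * |τ|) * (|w 0| * |bf Q X X|) ≤ 3 * (R * R) * (R * ε) :=
          mul_le_mul (mul_le_mul_of_nonneg_left h4 (by norm_num)) h5 (by positivity)
            (by positivity)
      _ = 3 * (R ^ 3 * ε) := by ring
  have m2 : |(3 * (b * τ) * y 1 - (gam + b * τ * ρ) * q 1) * q 2| ≤ 39 * (R ^ 5 * ε) := by
    rw [abs_mul]
    exact (mul_le_mul k1 (bq 2) (abs_nonneg _) (by positivity)).trans (le_of_eq (by ring))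
  have m3 : |(3 * (b * τ) * y 2 - (gam + b * τ * ρ) * q 2) * q 1| ≤ 39 * (R ^ 5 * ε) := by
    rw [abs_mul]
    exact (mul_le_mul k2 (bq 1) (abs_nonneg _) (by positivity)).trans (le_of_eq (by ring))
  have m4 : |3 * (b * τ) * L| ≤ 81 * (R ^ 5 * ε) := by
    rw [e10]
    have d1 := abs_sub (3 * (b * τ) * (w 0 * bf Q X X) +
      (3 * (b * τ) * y 1 - (gam + b * τ * ρ) * q 1) * q 2)
      ((3 * (b * τ) * y 2 - (gam + b * τ * ρ) * q 2) * q 1)
    have d2 := abs_add_le (3 * (b * τ) * (w 0 * bf Q X X))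
      ((3 * (b * τ) * y 1 - (gam + b * τ * ρ) * q 1) * q 2)
    have c1 : R ^ 3 * ε ≤ R ^ 5 * ε :=
      mul_le_mul_of_nonneg_right (pow_le_pow_right₀ hR (by norm_num)) hε
    linarith only [d1, d2, m1, m2, m3, c1]
  have m5 : 3 * (|b| * |τ| * |L|) ≤ 81 * (R ^ 5 * ε) := by
    refine le_trans (le_of_eq ?_) m4
    rw [abs_mul, abs_mul, abs_mul, abs_of_pos (by norm_num : (0 : ℝ) < 3)]
    ring
  rw [← hw, ← hL]
  have c2 : 0 ≤ R ^ 5 * ε := by positivity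
  have e11 : 30 * R ^ 5 * ε = 30 * (R ^ 5 * ε) := by ring
  rw [e11]
  linarith only [m5, c2]

/-- **The end**: if `Q om` is small, then `theta~'' - theta~ = tau rho Q X`. -/
theorem con_fin {Q M : Fin 3 → Fin 3 → ℝ} {X dth : Fin 3 → ℝ} {τ ρ R ε η μ : ℝ}
    (hR : 1 ≤ R) (hε : 0 ≤ ε) (hX : ∀ i, |X i| ≤ R) (hQ : ∀ i j, |Q i j| ≤ R)
    (hμ0 : 0 < μ) (hμ : μ ≤ |dt Q|) (hτ : |τ| ≤ R)
    (hd : ∀ i, |dth i - τ * lf (M i) X| ≤ ε)
    (hs : ∀ i j, |(M i j + M j i) / 2 - ρ * Q i j| ≤ ε)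
    (hw : ∀ i, |lf (Q i) (axi M)| ≤ η) (i : Fin 3) :
    |dth i - τ * ρ * lf (Q i) X| ≤ 4 * R ^ 2 * ε + 12 * R ^ 4 * η / μ := by
  have hR0 : 0 ≤ R := by linarith only [hR]
  have hη : 0 ≤ η := (abs_nonneg _).trans (hw 0)
  have p1 : (1 : ℝ) ≤ R ^ 2 := one_le_pow₀ hR
  have hw' : ∀ i, |axi M i| ≤ 6 * R ^ 2 * η / μ := by
    intro i
    have h1 := cramer3 (u := axi M) (X := Q 0) (Y := Q 1) (Z := Q 2) (R := R) (η := η)
      (hQ 0) (hQ 1) (hQ 2) (by
        have := hw 0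
        unfold lf at this ⊢
        rw [show axi M 0 * Q 0 0 + axi M 1 * Q 0 1 + axi M 2 * Q 0 2 =
          Q 0 0 * axi M 0 + Q 0 1 * axi M 1 + Q 0 2 * axi M 2 by ring]
        exact this) (by
        have := hw 1
        unfold lf at this ⊢
        rw [show axi M 0 * Q 1 0 + axi M 1 * Q 1 1 + axi M 2 * Q 1 2 =
          Q 1 0 * axi M 0 + Q 1 1 * axi M 1 + Q 1 2 * axi M 2 by ring]
        exact this) (by
        have := hw 2
        unfold lf at this ⊢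
        rw [show axi M 0 * Q 2 0 + axi M 1 * Q 2 1 + axi M 2 * Q 2 2 =
          Q 2 0 * axi M 0 + Q 2 1 * axi M 1 + Q 2 2 * axi M 2 by ring]
        exact this) i
    rw [le_div_iff₀ hμ0]
    exact (mul_le_mul_of_nonneg_left hμ (abs_nonneg _)).trans h1
  obtain ⟨W, hW⟩ : ∃ W, W = 6 * R ^ 2 * η / μ := ⟨_, rfl⟩
  rw [← hW] at hw'
  have hW0 : 0 ≤ W := by rw [hW]; positivity
  have hc : |crs (axi M) X i| ≤ 2 * (W * R) := by
    have key : ∀ {a b x y : ℝ}, |a| ≤ W → |x| ≤ R → |b| ≤ W → |y| ≤ R →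
        |a * x - b * y| ≤ 2 * (W * R) := by
      intro a b x y ha hx hb hy
      refine (abs_sub _ _).trans ?_
      rw [abs_mul, abs_mul]
      have a1 := mul_le_mul ha hx (abs_nonneg _) hW0
      have a2 := mul_le_mul hb hy (abs_nonneg _) hW0
      linarith only [a1, a2]
    fin_cases i
    · exact key (hw' 1) (hX 2) (hw' 2) (hX 1)
    · exact key (hw' 2) (hX 0) (hw' 0) (hX 2)
    · exact key (hw' 0) (hX 1) (hw' 1) (hX 0)
  obtain ⟨σ, hσ⟩ : ∃ σ, σ = lf (fun j => (M i j + M j i) / 2 - ρ * Q i j) X := ⟨_, rfl⟩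
  have bσ : |σ| ≤ 3 * (ε * R) := by
    rw [hσ]
    exact lf_le (fun j => hs i j) hX
  have e : dth i - τ * ρ * lf (Q i) X = (dth i - τ * lf (M i) X) + τ * σ +
      τ * crs (axi M) X i := by
    rw [lf_axi M X i, hσ]
    unfold lf
    ring
  rw [e]
  have a1 : |τ * σ| ≤ 3 * (R ^ 2 * ε) := by
    rw [abs_mul]
    exact (mul_le_mul hτ bσ (abs_nonneg _) hR0).trans (le_of_eq (by ring))
  have a2 : |τ * crs (axi M) X i| ≤ 12 * R ^ 4 * η / μ := by
    rw [abs_mul]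
    refine (mul_le_mul hτ hc (abs_nonneg _) hR0).trans (le_of_eq ?_)
    rw [hW]
    ring
  have d1 := abs_add_le (dth i - τ * lf (M i) X + τ * σ) (τ * crs (axi M) X i)
  have d2 := abs_add_le (dth i - τ * lf (M i) X) (τ * σ)
  have c1 : ε ≤ R ^ 2 * ε := by
    have := mul_le_mul_of_nonneg_right p1 hε
    linarith only [this]
  linarith only [d1, d2, a1, a2, hd i, c1]

end Pool.D2Con
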