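import Pool.Agent.H4.D2.Two
import Pool.Agent.H42.D2.Cov2

/-!
# Reading a variable of positive rate through a cover

`read_cov`: `E` has positive rate given `Z` on all large events and nearly the same entropy given
`(W, Z)`; if on the event `G` its value lies in a set of at most `K` values which is a function of
`(W, Z)`, then `G` is not large. `read_sep`: `G` puts the point in a set without `k + 1` separated
points. `read_con_lin`, `read_con_quad`: the conic.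
-/

set_option autoImplicit false

namespace Pool.D2Con

open Finset Real
open Pool.Agent.H49.Ent Pool.Agent.H32.Dense Pool.STK Pool.OWN68 Pool.D2A

section

variable {Ω : Type} [Fintype Ω] {S T U : Type}

/-- The information between `E` and `W` on an event. -/
theorem inf_ev {p : Ω → ℝ} (hp : IsLaw p) (E : Ω → S) (W : Ω → T) (Z : Ω → U) (G : Ω → Prop)
    {e : ℝ} (hI : CH p E Z ≤ CH p E (fun ω => (W ω, Z ω)) + e) :
    law p G True * (CH (cond p G True) E Z - CH (cond p G True) E (fun ω => (W ω, Z ω))) ≤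
      e + Real.log 2 := by
  classical
  have h0 := hp.nonneg
  have h1 : CH p E (fun ω => (Z ω, G ω)) ≤ CH p E Z :=
    CH_mono_cond h0 fun ω ω' _ _ hh => (Prod.ext_iff.mp hh).1
  have h2 := CH_le_add h0 E G (fun ω => (W ω, Z ω))
  have h3 : CH p G (fun ω => (W ω, Z ω)) ≤ Real.log 2 := by
    have h4 := CH_le_card h0 hp.sum_one G (fun ω => (W ω, Z ω)) (fun _ => (univ : Finset Prop))
      (fun _ _ => Finset.mem_univ _)
    refine h4.trans (le_of_eq ?_)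
    rw [Ex_const hp.sum_one, Finset.card_univ, Fintype.card_prop]
    norm_num
  have h5 : CH p E (fun ω => (G ω, (W ω, Z ω))) = CH p E (fun ω => ((W ω, Z ω), G ω)) := by
    refine CH_congr h0 ?_ ?_ ?_ ?_ <;>
    · intro ω ω' _ _ h
      simp only [Prod.mk.injEq] at h ⊢
      tauto
  rw [h5, CH_split h0 E (fun ω => (W ω, Z ω)) G] at h2
  rw [CH_split h0 E Z G] at h1
  have h6 : (∑ j ∈ univ.image G, law p G j * CH (cond p G j) E Z) -
      (∑ j ∈ univ.image G, law p G j * CH (cond p G j) E (fun ω => (W ω, Z ω))) ≤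
      e + Real.log 2 := by linarith
  rw [← Finset.sum_sub_distrib] at h6
  have h7 : ∀ j ∈ univ.image G, 0 ≤ law p G j * CH (cond p G j) E Z -
      law p G j * CH (cond p G j) E (fun ω => (W ω, Z ω)) := by
    intro j _
    rw [← mul_sub]
    refine mul_nonneg (law_nonneg h0 G j) ?_
    rw [sub_nonneg]
    exact CH_mono_cond (cond_nonneg h0 G j) fun ω ω' _ _ hh => (Prod.ext_iff.mp hh).2
  by_cases hm : True ∈ univ.image G
  · refine le_trans (le_of_eq ?_) ((Finset.single_le_sum (f := fun j =>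
      law p G j * CH (cond p G j) E Z - law p G j * CH (cond p G j) E (fun ω => (W ω, Z ω)))
      h7 hm).trans h6)
    ring
  · rw [law_eq_zero_of_notMem p G hm, zero_mul]
    exact (Finset.sum_nonneg h7).trans h6

/-- **Reading a variable of positive rate through a cover.** -/
theorem read_cov {p : Ω → ℝ} (hp : IsLaw p) (E : Ω → S) (W : Ω → T) (Z : Ω → U) (G : Ω → Prop)
    (C : T → U → Finset S) (K : ℕ) {c e r : ℝ} (hc : 0 < c)
    (hcard : ∀ w z, (C w z).card ≤ K) (hcov : ∀ ω, 0 < p ω → G ω → E ω ∈ C (W ω) (Z ω))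
    (hI : CH p E Z ≤ CH p E (fun ω => (W ω, Z ω)) + e)
    (hE : c ≤ law p G True → r ≤ CH (cond p G True) E Z)
    (hn : (e + Real.log 2) / c + Real.log K < r) : law p G True < c := by
  by_contra hcon
  rw [not_lt] at hcon
  have hG0 : 0 < law p G True := hc.trans_le hcon
  have hq : IsLaw (cond p G True) := ⟨cond_nonneg hp.nonneg G True, sum_cond p G hG0.ne'⟩
  have h1 := hE hcon
  have h2 := inf_ev hp E W Z G hI
  have h3 : CH (cond p G True) E (fun ω => (W ω, Z ω)) ≤ Real.log K := by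
    have h4 := CH_le_card hq.nonneg hq.sum_one E (fun ω => (W ω, Z ω)) (fun z => C z.1 z.2)
      (fun ω hω => by
        have h5 := (cond_pos_iff hp.nonneg G True ω).mp hω
        exact hcov ω h5.1 (by rw [h5.2]; trivial))
    refine h4.trans ?_
    refine (Ex_mono (g := fun _ => Real.log K) hq.nonneg fun ω hω => ?_).trans
      (le_of_eq (Ex_const hq.sum_one _))
    have h5 := (cond_pos_iff hp.nonneg G True ω).mp hω
    have h6 : 0 < (C (W ω) (Z ω)).card :=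
      Finset.card_pos.mpr ⟨E ω, hcov ω h5.1 (by rw [h5.2]; trivial)⟩
    exact Real.log_le_log (by exact_mod_cast h6) (by exact_mod_cast hcard _ _)
  have h4 : c * (r - Real.log K) ≤ e + Real.log 2 := by
    by_cases hr : 0 ≤ r - Real.log K
    · refine le_trans ?_ h2
      exact mul_le_mul hcon (by linarith) hr (hc.le.trans hcon)
    · rw [not_le] at hr
      have h5 : c * (r - Real.log K) ≤ 0 := mul_nonpos_of_nonneg_of_nonpos hc.le hr.le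
      have h6 : 0 ≤ law p G True * (CH (cond p G True) E Z -
          CH (cond p G True) E (fun ω => (W ω, Z ω))) := by
        refine mul_nonneg (law_nonneg hp.nonneg G True) ?_
        rw [sub_nonneg]
        exact CH_mono_cond hq.nonneg fun ω ω' _ _ hh => (Prod.ext_iff.mp hh).2
      linarith
  have h5 : r - Real.log K ≤ (e + Real.log 2) / c := by
    rw [le_div_iff₀ hc]
    linarith
  linarith

/-- A set without `k + 1` separated points is covered by `k` neighbourhoods. -/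
theorem cov_fin {α : Type} [DecidableEq α] (A : Set α) (near : α → α → Prop) (k : ℕ)
    (h : ¬ ∃ f : Fin (k + 1) → α, (∀ i, f i ∈ A) ∧ ∀ i j, i ≠ j → ¬ near (f i) (f j)) :
    ∃ F : Finset α, F.card ≤ k ∧ ∀ x ∈ A, ∃ y ∈ F, near x y ∨ near y x := by
  induction k with
  | zero =>
    refine ⟨∅, le_rfl, fun x hx => ?_⟩
    exfalso
    refine h ⟨fun _ => x, fun _ => hx, fun i j hij => ?_⟩
    exact absurd (Subsingleton.elim (α := Fin 1) i j) hij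
  | succ k ih =>
    by_cases h1 : ∃ f : Fin (k + 1) → α, (∀ i, f i ∈ A) ∧ ∀ i j, i ≠ j → ¬ near (f i) (f j)
    · obtain ⟨f, hf1, hf2⟩ := h1
      refine ⟨Finset.univ.image f, Finset.card_image_le.trans (by simp), fun x hx => ?_⟩
      by_contra hcon
      push Not at hcon
      refine h ⟨Fin.snoc f x, ?_, ?_⟩
      · intro i
        refine Fin.lastCases ?_ (fun i => ?_) i
        · rw [Fin.snoc_last]
          exact hx
        · rw [Fin.snoc_castSucc]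
          exact hf1 i
      · intro i j
        refine Fin.lastCases ?_ (fun i => ?_) i
        · refine Fin.lastCases ?_ (fun j => ?_) j
          · intro h2
            exact absurd rfl h2
          · intro _
            rw [Fin.snoc_last, Fin.snoc_castSucc]
            exact (hcon (f j) (Finset.mem_image_of_mem _ (Finset.mem_univ j))).1
        · refine Fin.lastCases ?_ (fun j => ?_) j
          · intro _
            rw [Fin.snoc_last, Fin.snoc_castSucc]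
            exact (hcon (f i) (Finset.mem_image_of_mem _ (Finset.mem_univ i))).2
          · intro h2
            rw [Fin.snoc_castSucc, Fin.snoc_castSucc]
            exact hf2 i j fun h3 => h2 (by rw [h3])
    · obtain ⟨F, hF1, hF2⟩ := ih h1
      exact ⟨F, hF1.trans (Nat.le_succ k), hF2⟩

/-- The cell of a direction. -/
noncomputable def cll (κ : ℝ) (X : Fin 3 → ℝ) : ℤ × ℤ := (⌊X 1 / κ⌋, ⌊X 2 / κ⌋)

theorem floor_near {κ x y : ℝ} (hκ : 0 < κ) (h : |x - y| < κ) :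
    ⌊x / κ⌋ ∈ Finset.Icc (⌊y / κ⌋ - 1) (⌊y / κ⌋ + 1) := by
  rw [abs_lt] at h
  have h1 : x / κ < y / κ + 1 := by
    rw [← sub_lt_iff_lt_add', ← sub_div, div_lt_one hκ]
    linarith
  have h2 : y / κ < x / κ + 1 := by
    rw [← sub_lt_iff_lt_add', ← sub_div, div_lt_one hκ]
    linarith
  rw [Finset.mem_Icc]
  constructor
  · have h3 : ⌊y / κ⌋ ≤ ⌊x / κ + 1⌋ := Int.floor_le_floor h2.le
    rw [Int.floor_add_one] at h3
    linarith
  · have h3 : ⌊x / κ⌋ ≤ ⌊y / κ + 1⌋ := Int.floor_le_floor h1.le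
    rw [Int.floor_add_one] at h3
    exact h3

/-- The cells of a set without `k + 1` separated points. -/
theorem cov_cll (A : Set (Fin 3 → ℝ)) (k : ℕ) {κ : ℝ} (hκ : 0 < κ)
    (h : ¬ ∃ f : Fin (k + 1) → Fin 3 → ℝ, (∀ i, f i ∈ A) ∧
      ∀ i j, i ≠ j → κ ^ 2 ≤ (f i 1 - f j 1) ^ 2 + (f i 2 - f j 2) ^ 2) :
    ∃ F : Finset (ℤ × ℤ), F.card ≤ 9 * k ∧ ∀ x ∈ A, cll κ x ∈ F := by
  classical
  obtain ⟨F, hF1, hF2⟩ := cov_fin A
    (fun x y => ¬ κ ^ 2 ≤ (x 1 - y 1) ^ 2 + (x 2 - y 2) ^ 2) k (by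
      intro hcon
      obtain ⟨f, hf1, hf2⟩ := hcon
      exact h ⟨f, hf1, fun i j hij => not_not.mp (hf2 i j hij)⟩)
  refine ⟨F.biUnion fun y => Finset.Icc (⌊y 1 / κ⌋ - 1) (⌊y 1 / κ⌋ + 1) ×ˢ
    Finset.Icc (⌊y 2 / κ⌋ - 1) (⌊y 2 / κ⌋ + 1), ?_, ?_⟩
  · refine (Finset.card_biUnion_le).trans ?_
    refine (Finset.sum_le_card_nsmul _ _ 9 fun y _ => ?_).trans ?_
    · rw [Finset.card_product, Int.card_Icc, Int.card_Icc]
      have e : ∀ a : ℤ, (a + 1 + 1 - (a - 1)).toNat = 3 := fun a => by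
        rw [show a + 1 + 1 - (a - 1) = 3 by ring]
        rfl
      rw [e, e]
    · rw [smul_eq_mul]
      linarith
  · intro x hx
    obtain ⟨y, hy, hxy⟩ := hF2 x hx
    rw [Finset.mem_biUnion]
    refine ⟨y, hy, ?_⟩
    have h1 : (x 1 - y 1) ^ 2 + (x 2 - y 2) ^ 2 < κ ^ 2 := by
      rcases hxy with h2 | h2
      · exact not_le.mp h2
      · refine lt_of_eq_of_lt (by ring) (not_le.mp h2)
    rw [Finset.mem_product]
    constructor
    · refine floor_near hκ ?_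
      refine abs_lt_of_sq_lt_sq ?_ hκ.le
      nlinarith [sq_nonneg (x 2 - y 2)]
    · refine floor_near hκ ?_
      refine abs_lt_of_sq_lt_sq ?_ hκ.le
      nlinarith [sq_nonneg (x 1 - y 1)]

/-- **Reading a direction of positive rate in a set without `k + 1` separated points.** -/
theorem read_sep {p : Ω → ℝ} (hp : IsLaw p) (X : Ω → Fin 3 → ℝ) (W : Ω → T) (Z : Ω → U)
    (G : Ω → Prop) (A : T → U → Set (Fin 3 → ℝ)) (k : ℕ) {κ c e r : ℝ} (hκ : 0 < κ)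
    (hc : 0 < c)
    (hA : ∀ w z, ¬ ∃ f : Fin (k + 1) → Fin 3 → ℝ, (∀ i, f i ∈ A w z) ∧
      ∀ i j, i ≠ j → κ ^ 2 ≤ (f i 1 - f j 1) ^ 2 + (f i 2 - f j 2) ^ 2)
    (hG : ∀ ω, 0 < p ω → G ω → X ω ∈ A (W ω) (Z ω))
    (hI : CH p (fun ω => cll κ (X ω)) Z ≤ CH p (fun ω => cll κ (X ω)) (fun ω => (W ω, Z ω)) + e)
    (hE : c ≤ law p G True → r ≤ CH (cond p G True) (fun ω => cll κ (X ω)) Z)
    (hn : (e + Real.log 2) / c + Real.log (9 * k) < r) : law p G True < c := by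
  choose F hF1 hF2 using fun w z => cov_cll (A w z) k hκ (hA w z)
  refine read_cov hp (fun ω => cll κ (X ω)) W Z G F (9 * k) hc hF1
    (fun ω hω hg => hF2 _ _ _ (hG ω hω hg)) hI hE ?_
  push_cast
  exact hn

/-- The hypotheses on the form. -/
structure Cn (Q : Fin 3 → Fin 3 → ℝ) (R μ : ℝ) : Prop where
  symm : ∀ i j, Q i j = Q j i
  le : ∀ i j, |Q i j| ≤ R
  det : μ ≤ |dt Q|

/-- **The cells of the directions of a conic at which a large linear form is small.** -/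
theorem cell_lin {Q : Fin 3 → Fin 3 → ℝ} {u : Fin 3 → ℝ} {R κ δ η ε μ : ℝ} (hR : 1 ≤ R)
    (hκ : 0 < κ) (hC : Cn Q R μ) (hu : ∃ i, ε < |u i|)
    (hn1 : 2 ^ 22 * R ^ 13 * δ < μ * κ ^ 8)
    (hn2 : 2 ^ 22 * R ^ 13 * (δ * ε + 6 * R ^ 2 * η) ≤ μ * κ ^ 8 * ε) :
    ∃ F : Finset (ℤ × ℤ), F.card ≤ 18 ∧ ∀ x : Fin 3 → ℝ, x 0 = 1 → (∀ i, |x i| ≤ R) →
      |bf Q x x| ≤ δ → |lf u x| ≤ η → cll κ x ∈ F := by
  obtain ⟨i, hi⟩ := hu
  obtain ⟨F, hF1, hF2⟩ := cov_cll {x | x 0 = 1 ∧ (∀ i, |x i| ≤ R) ∧ |bf Q x x| ≤ δ ∧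
    |lf u x| ≤ η} 2 hκ (by
      rintro ⟨f, hf1, hf2⟩
      have h1 := con_lin hC.symm hR (fun k => (hf1 k).1) (fun k => (hf1 k).2.1) hC.le hκ
        hC.det hf2 (fun k => (hf1 k).2.2.1) (fun k => (hf1 k).2.2.2) i
      have h2 : (|u i| - ε) * (μ * κ ^ 8 - 2 ^ 22 * R ^ 13 * δ) ≤ 0 := by
        have e1 : (|u i| - ε) * (μ * κ ^ 8 - 2 ^ 22 * R ^ 13 * δ) =
            (|u i| * (μ * κ ^ 8) - 2 ^ 22 * R ^ 13 * (δ * |u i| + 6 * R ^ 2 * η)) +
            (2 ^ 22 * R ^ 13 * (δ * ε + 6 * R ^ 2 * η) - μ * κ ^ 8 * ε) := by ring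
        rw [e1]
        linarith only [h1, hn2]
      have h3 : 0 < (|u i| - ε) * (μ * κ ^ 8 - 2 ^ 22 * R ^ 13 * δ) :=
        mul_pos (by linarith only [hi]) (by linarith only [hn1])
      linarith only [h2, h3])
  exact ⟨F, hF1, fun x h0 h1 h2 h3 => hF2 x ⟨h0, h1, h2, h3⟩⟩

/-- **The cells of the directions of a conic at which a form far from its multiples is small.** -/
theorem cell_quad {Q s : Fin 3 → Fin 3 → ℝ} {R κ δ la ε B μ : ℝ} (hR : 1 ≤ R) (hκ : 0 < κ)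
    (hla : 0 < la) (hμ : 0 < μ) (hC : Cn Q R μ) (hss : ∀ i j, s i j = s j i)
    (hsR : ∀ i j, |s i j| ≤ R)
    (hF : ¬ ∃ ρ : ℝ, |ρ| ≤ B ∧ ∀ i j, |s i j - ρ * Q i j| ≤ ε)
    (hn1 : 2 ^ 23 * R ^ 13 * la ≤ μ * κ ^ 8) (hn2 : 2 ^ 23 * R ^ 13 * δ ≤ μ * κ ^ 8)
    (hn3 : 648 * R ^ 6 * δ ≤ μ * la ^ 2) (hn4 : 2 ^ 31 * R ^ 25 * δ ≤ ε * (μ * la ^ 8))
    (hn5 : 2916 * R ^ 9 ≤ B * (μ * la ^ 2)) :
    ∃ F : Finset (ℤ × ℤ), F.card ≤ 36 ∧ ∀ x : Fin 3 → ℝ, x 0 = 1 → (∀ i, |x i| ≤ R) →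
      |bf Q x x| ≤ δ → |bf s x x| ≤ δ → cll κ x ∈ F := by
  obtain ⟨F, hF1, hF2⟩ := cov_cll {x | x 0 = 1 ∧ (∀ i, |x i| ≤ R) ∧ |bf Q x x| ≤ δ ∧
    |bf s x x| ≤ δ} 4 hκ (by
      rintro ⟨f, hf1, hf2⟩
      obtain ⟨ρ, hρ1, hρ2⟩ := con_quad hC.symm hss hR (fun k => (hf1 k).1)
        (fun k => (hf1 k).2.1) hC.le hsR hκ hla hμ hC.det hn1 hn2 hn3 hf2
        (fun k => (hf1 k).2.2.1) (fun k => (hf1 k).2.2.2)
      refine hF ⟨ρ, ?_, fun i j => (hρ2 i j).trans ?_⟩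
      · exact le_of_mul_le_mul_right (hρ1.trans hn5) (by positivity)
      · rw [div_le_iff₀ (by positivity)]
        exact hn4)
  exact ⟨F, hF1, fun x h0 h1 h2 h3 => hF2 x ⟨h0, h1, h2, h3⟩⟩

/-- **Reading a linear form on a conic.** -/
theorem read_con_lin {p : Ω → ℝ} (hp : IsLaw p) (X : Ω → Fin 3 → ℝ) (W : Ω → T) (Z : Ω → U)
    (Q : T → U → Fin 3 → Fin 3 → ℝ) (u : T → U → Fin 3 → ℝ) {R κ δ η ε μ c e r : ℝ}
    (hR : 1 ≤ R) (hκ : 0 < κ) (hc : 0 < c)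
    (hX0 : ∀ ω, 0 < p ω → X ω 0 = 1) (hX : ∀ ω, 0 < p ω → ∀ i, |X ω i| ≤ R)
    (hQ : ∀ ω, 0 < p ω → Cn (Q (W ω) (Z ω)) R μ)
    (hq : ∀ ω, 0 < p ω → |bf (Q (W ω) (Z ω)) (X ω) (X ω)| ≤ δ)
    (hn1 : 2 ^ 22 * R ^ 13 * δ < μ * κ ^ 8)
    (hn2 : 2 ^ 22 * R ^ 13 * (δ * ε + 6 * R ^ 2 * η) ≤ μ * κ ^ 8 * ε)
    (hI : CH p (fun ω => cll κ (X ω)) Z ≤ CH p (fun ω => cll κ (X ω)) (fun ω => (W ω, Z ω)) + e)
    (hE : c ≤ law p (fun ω => |lf (u (W ω) (Z ω)) (X ω)| ≤ η ∧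
        ∃ i, ε < |u (W ω) (Z ω) i|) True →
      r ≤ CH (cond p (fun ω => |lf (u (W ω) (Z ω)) (X ω)| ≤ η ∧
        ∃ i, ε < |u (W ω) (Z ω) i|) True) (fun ω => cll κ (X ω)) Z)
    (hn : (e + Real.log 2) / c + Real.log (9 * 2) < r) :
    law p (fun ω => |lf (u (W ω) (Z ω)) (X ω)| ≤ η ∧ ∃ i, ε < |u (W ω) (Z ω) i|) True < c := by
  refine read_sep hp X W Z _ (fun w z => {x | Cn (Q w z) R μ ∧ (∃ i, ε < |u w z i|) ∧ x 0 = 1 ∧
    (∀ i, |x i| ≤ R) ∧ |bf (Q w z) x x| ≤ δ ∧ |lf (u w z) x| ≤ η}) 2 hκ hc ?_ ?_ hI hE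
    (by exact_mod_cast hn)
  · rintro w z ⟨f, hf1, hf2⟩
    obtain ⟨hC, ⟨i, hi⟩, -⟩ := hf1 0
    have h1 := con_lin hC.symm hR (fun k => (hf1 k).2.2.1) (fun k => (hf1 k).2.2.2.1) hC.le hκ
      hC.det hf2 (fun k => (hf1 k).2.2.2.2.1) (fun k => (hf1 k).2.2.2.2.2) i
    have h2 : (|u w z i| - ε) * (μ * κ ^ 8 - 2 ^ 22 * R ^ 13 * δ) ≤ 0 := by
      have e1 : (|u w z i| - ε) * (μ * κ ^ 8 - 2 ^ 22 * R ^ 13 * δ) =
          (|u w z i| * (μ * κ ^ 8) - 2 ^ 22 * R ^ 13 * (δ * |u w z i| + 6 * R ^ 2 * η)) +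
          (2 ^ 22 * R ^ 13 * (δ * ε + 6 * R ^ 2 * η) - μ * κ ^ 8 * ε) := by ring
      rw [e1]
      linarith only [h1, hn2]
    have h3 : 0 < (|u w z i| - ε) * (μ * κ ^ 8 - 2 ^ 22 * R ^ 13 * δ) :=
      mul_pos (by linarith only [hi]) (by linarith only [hn1])
    linarith only [h2, h3]
  · intro ω hω hg
    exact ⟨hQ ω hω, hg.2, hX0 ω hω, hX ω hω, hq ω hω, hg.1⟩

/-- The form is far from the multiples of `Q`. -/
def Far (s Q : Fin 3 → Fin 3 → ℝ) (B ε : ℝ) : Prop :=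
  ¬ ∃ ρ : ℝ, |ρ| ≤ B ∧ ∀ i j, |s i j - ρ * Q i j| ≤ ε

/-- **Reading a quadratic form on a conic.** -/
theorem read_con_quad {p : Ω → ℝ} (hp : IsLaw p) (X : Ω → Fin 3 → ℝ) (W : Ω → T) (Z : Ω → U)
    (Q s : T → U → Fin 3 → Fin 3 → ℝ) {R κ δ la ε B μ c e r : ℝ}
    (hR : 1 ≤ R) (hκ : 0 < κ) (hla : 0 < la) (hμ : 0 < μ) (hc : 0 < c)
    (hX0 : ∀ ω, 0 < p ω → X ω 0 = 1) (hX : ∀ ω, 0 < p ω → ∀ i, |X ω i| ≤ R)
    (hQ : ∀ ω, 0 < p ω → Cn (Q (W ω) (Z ω)) R μ)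
    (hs : ∀ ω, 0 < p ω → ∀ i j, s (W ω) (Z ω) i j = s (W ω) (Z ω) j i)
    (hsR : ∀ ω, 0 < p ω → ∀ i j, |s (W ω) (Z ω) i j| ≤ R)
    (hq : ∀ ω, 0 < p ω → |bf (Q (W ω) (Z ω)) (X ω) (X ω)| ≤ δ)
    (hn1 : 2 ^ 23 * R ^ 13 * la ≤ μ * κ ^ 8) (hn2 : 2 ^ 23 * R ^ 13 * δ ≤ μ * κ ^ 8)
    (hn3 : 648 * R ^ 6 * δ ≤ μ * la ^ 2) (hn4 : 2 ^ 31 * R ^ 25 * δ ≤ ε * (μ * la ^ 8))
    (hn5 : 2916 * R ^ 9 ≤ B * (μ * la ^ 2))
    (hI : CH p (fun ω => cll κ (X ω)) Z ≤ CH p (fun ω => cll κ (X ω)) (fun ω => (W ω, Z ω)) + e)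
    (hE : c ≤ law p (fun ω => |bf (s (W ω) (Z ω)) (X ω) (X ω)| ≤ δ ∧
        Far (s (W ω) (Z ω)) (Q (W ω) (Z ω)) B ε) True →
      r ≤ CH (cond p (fun ω => |bf (s (W ω) (Z ω)) (X ω) (X ω)| ≤ δ ∧
        Far (s (W ω) (Z ω)) (Q (W ω) (Z ω)) B ε) True) (fun ω => cll κ (X ω)) Z)
    (hn : (e + Real.log 2) / c + Real.log (9 * 4) < r) :
    law p (fun ω => |bf (s (W ω) (Z ω)) (X ω) (X ω)| ≤ δ ∧
      Far (s (W ω) (Z ω)) (Q (W ω) (Z ω)) B ε) True < c := by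
  refine read_sep hp X W Z _ (fun w z => {x | Cn (Q w z) R μ ∧ Far (s w z) (Q w z) B ε ∧
    (∀ i j, s w z i j = s w z j i) ∧ (∀ i j, |s w z i j| ≤ R) ∧ x 0 = 1 ∧
    (∀ i, |x i| ≤ R) ∧ |bf (Q w z) x x| ≤ δ ∧ |bf (s w z) x x| ≤ δ}) 4 hκ hc ?_ ?_ hI hE
    (by exact_mod_cast hn)
  · rintro w z ⟨f, hf1, hf2⟩
    obtain ⟨hC, hF, hss, hsr, -⟩ := hf1 0
    obtain ⟨ρ, hρ1, hρ2⟩ := con_quad hC.symm hss hR (fun k => (hf1 k).2.2.2.2.1)
      (fun k => (hf1 k).2.2.2.2.2.1) hC.le hsr hκ hla hμ hC.det hn1 hn2 hn3 hf2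
      (fun k => (hf1 k).2.2.2.2.2.2.1) (fun k => (hf1 k).2.2.2.2.2.2.2)
    refine hF ⟨ρ, ?_, fun i j => (hρ2 i j).trans ?_⟩
    · exact le_of_mul_le_mul_right (hρ1.trans hn5) (by positivity)
    · rw [div_le_iff₀ (by positivity)]
      exact hn4
  · intro ω hω hg
    exact ⟨hQ ω hω, hg.2, hs ω hω, hsR ω hω, hX0 ω hω, hX ω hω, hq ω hω, hg.1⟩

end

end Pool.D2Con
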