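import Pool.Agent.H42.D2.Span

/-!
# D2: copies given the closed record and the time

`prd_ev`: an event of two records `E`, `T` which are nearly independent given `z` has positive mass
for the product of the conditional laws. `NoHyp.prod`: if the vector `X` is in no hyperplane which is
a function of `z`, and `T` is nearly full given the line, then `X` is in no hyperplane which is a
function of `(z, T)`. `hyp_clsT`, `span_clsT`: class theorems.
-/

set_option autoImplicit false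

namespace Pool.D2Con

open Finset Real
open Pool.Agent.H49.Ent Pool.Agent.H32.Dense Pool.STK Pool.K2S Pool.D2A
open Pool.KM7 (P2 P2_isLaw P2_pos)
open Pool.JVE (pe_sum)

section prd

variable {Ω ε τ ζ : Type} [Fintype Ω] {q : Ω → ℝ}

/-- The density of the product of the conditional laws. -/
noncomputable def rho (q : Ω → ℝ) (E : Ω → ε) (T : Ω → τ) (Z : Ω → ζ) (ω : Ω) : ℝ :=
  law q (fun ω => (E ω, Z ω)) (E ω, Z ω) * law q (fun ω => (T ω, Z ω)) (T ω, Z ω) /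
    (law q (fun ω => (E ω, T ω, Z ω)) (E ω, T ω, Z ω) * law q Z (Z ω))

theorem rho_nonneg (hq : ∀ ω, 0 ≤ q ω) (E : Ω → ε) (T : Ω → τ) (Z : Ω → ζ) (ω : Ω) :
    0 ≤ rho q E T Z ω :=
  div_nonneg (mul_nonneg (law_nonneg hq _ _) (law_nonneg hq _ _))
    (mul_nonneg (law_nonneg hq _ _) (law_nonneg hq _ _))

theorem rho_pos (hq : ∀ ω, 0 ≤ q ω) (E : Ω → ε) (T : Ω → τ) (Z : Ω → ζ) {ω : Ω} (hω : 0 < q ω) :
    0 < rho q E T Z ω :=
  div_pos (mul_pos (law_pos hq (fun ω => (E ω, Z ω)) hω) (law_pos hq (fun ω => (T ω, Z ω)) hω))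
    (mul_pos (law_pos hq (fun ω => (E ω, T ω, Z ω)) hω) (law_pos hq Z hω))

/-- The change of measure. -/
theorem sum_rho (hq : ∀ ω, 0 ≤ q ω) (E : Ω → ε) (T : Ω → τ) (Z : Ω → ζ) (K : ε → τ → ζ → ℝ)
    (hK : ∀ e t z, 0 ≤ K e t z) :
    ∑ ω, q ω * (rho q E T Z ω * K (E ω) (T ω) (Z ω)) ≤
      ∑ ω, q ω * ∑ ω', cond q Z (Z ω) ω' * K (E ω) (T ω') (Z ω) := by
  classical
  obtain ⟨d, hd⟩ : ∃ d : ε × τ × ζ → ℝ, d = law q (fun ω => (E ω, T ω, Z ω)) := ⟨_, rfl⟩
  obtain ⟨ker, hker⟩ : ∃ ker : Ω → Ω → Ω → ℝ, ker = fun ω ω1 ω2 =>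
    q ω1 * (cond q Z (Z ω1) ω2 * K (E ω1) (T ω2) (Z ω1)) *
      (if (E ω, T ω, Z ω) = (E ω1, T ω2, Z ω1) then q ω / d (E ω1, T ω2, Z ω1) else 0) := ⟨_, rfl⟩
  have h1 : ∀ ω, q ω * (rho q E T Z ω * K (E ω) (T ω) (Z ω)) ≤ ∑ ω1, ∑ ω2, ker ω ω1 ω2 := by
    intro ω
    rcases (hq ω).eq_or_lt with h0 | h0
    · rw [← h0, zero_mul]
      refine Finset.sum_nonneg fun ω1 _ => Finset.sum_nonneg fun ω2 _ => ?_
      rw [hker]
      refine mul_nonneg (mul_nonneg (hq _) (mul_nonneg (cond_nonneg hq Z _ _) (hK _ _ _))) ?_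
      split_ifs
      · exact div_nonneg (hq _) (by rw [hd]; exact law_nonneg hq _ _)
      · exact le_rfl
    · have hs : 0 < law q Z (Z ω) := law_pos hq Z h0
      have hdp : 0 < d (E ω, T ω, Z ω) := by
        rw [hd]
        exact law_pos hq (fun ω => (E ω, T ω, Z ω)) h0
      have e1 : ∀ ω1 ω2, ker ω ω1 ω2 =
          (if (E ω1, Z ω1) = (E ω, Z ω) then q ω1 else 0) *
            ((if (T ω2, Z ω2) = (T ω, Z ω) then q ω2 else 0) *
              (q ω * K (E ω) (T ω) (Z ω) / (d (E ω, T ω, Z ω) * law q Z (Z ω)))) := by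
        intro ω1 ω2
        rw [hker]
        simp only
        unfold Pool.Agent.H49.Ent.cond
        by_cases hc : (E ω, T ω, Z ω) = (E ω1, T ω2, Z ω1)
        · rw [if_pos hc]
          simp only [Prod.mk.injEq] at hc
          obtain ⟨c1, c2, c3⟩ := hc
          rw [← c1, ← c2, ← c3, if_pos rfl]
          by_cases hz : Z ω2 = Z ω
          · rw [if_pos hz, if_pos (by rw [hz])]
            field_simp
          · rw [if_neg hz, if_neg (fun h => hz (Prod.ext_iff.mp h).2)]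
            ring
        · rw [if_neg hc, mul_zero]
          by_cases h2 : (E ω1, Z ω1) = (E ω, Z ω)
          · by_cases h3 : (T ω2, Z ω2) = (T ω, Z ω)
            · exfalso
              apply hc
              simp only [Prod.mk.injEq] at h2 h3 ⊢
              exact ⟨h2.1.symm, h3.1.symm, h2.2.symm⟩
            · rw [if_neg h3]
              ring
          · rw [if_neg h2]
            ring
      have e2 : ∑ ω1, ∑ ω2, ker ω ω1 ω2 = law q (fun ω => (E ω, Z ω)) (E ω, Z ω) *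
          (law q (fun ω => (T ω, Z ω)) (T ω, Z ω) *
            (q ω * K (E ω) (T ω) (Z ω) / (d (E ω, T ω, Z ω) * law q Z (Z ω)))) := by
        simp only [e1]
        simp only [← Finset.mul_sum, ← Finset.sum_mul]
        have e5 : ∑ ω1, (if (E ω1, Z ω1) = (E ω, Z ω) then q ω1 else 0) =
            law q (fun ω => (E ω, Z ω)) (E ω, Z ω) := by
          unfold law
          exact Finset.sum_congr rfl fun ω _ => by split_ifs <;> rfl
        have e6 : ∑ ω2, (if (T ω2, Z ω2) = (T ω, Z ω) then q ω2 else 0) =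
            law q (fun ω => (T ω, Z ω)) (T ω, Z ω) := by
          unfold law
          exact Finset.sum_congr rfl fun ω _ => by split_ifs <;> rfl
        rw [e5, e6]
      rw [e2]
      unfold rho
      rw [← hd]
      refine le_of_eq ?_
      ring
  refine (Finset.sum_le_sum fun ω _ => h1 ω).trans ?_
  rw [Finset.sum_comm]
  refine Finset.sum_le_sum fun ω1 _ => ?_
  rw [Finset.sum_comm, Finset.mul_sum]
  refine Finset.sum_le_sum fun ω2 _ => ?_
  rw [hker]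
  simp only
  rw [← Finset.mul_sum]
  have h2 : ∑ ω, (if (E ω, T ω, Z ω) = (E ω1, T ω2, Z ω1) then
      q ω / d (E ω1, T ω2, Z ω1) else 0) ≤ 1 := by
    have e3 : ∀ ω, (if (E ω, T ω, Z ω) = (E ω1, T ω2, Z ω1) then
        q ω / d (E ω1, T ω2, Z ω1) else 0) = (if (E ω, T ω, Z ω) = (E ω1, T ω2, Z ω1) then
        q ω else 0) / d (E ω1, T ω2, Z ω1) := by
      intro ω
      split_ifs
      · rfl
      · rw [zero_div]
    rw [Finset.sum_congr rfl fun ω _ => e3 ω, ← Finset.sum_div]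
    have e4 : ∑ ω, (if (E ω, T ω, Z ω) = (E ω1, T ω2, Z ω1) then q ω else 0) =
        d (E ω1, T ω2, Z ω1) := by
      rw [hd]
      unfold law
      exact Finset.sum_congr rfl fun ω _ => by split_ifs <;> rfl
    rw [e4]
    exact div_self_le_one _
  have h3 : 0 ≤ q ω1 * (cond q Z (Z ω1) ω2 * K (E ω1) (T ω2) (Z ω1)) :=
    mul_nonneg (hq _) (mul_nonneg (cond_nonneg hq Z _ _) (hK _ _ _))
  have h4 := mul_le_mul_of_nonneg_left h2 h3
  rw [mul_one] at h4
  exact h4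

/-- The entropy. -/
theorem log_rho (hq : ∀ ω, 0 ≤ q ω) (E : Ω → ε) (T : Ω → τ) (Z : Ω → ζ) :
    ∑ ω, q ω * -Real.log (rho q E T Z ω) = CH q E Z - CH q E (fun ω => (T ω, Z ω)) := by
  rw [CH_eq_neg_sum hq, CH_eq_neg_sum hq]
  unfold Ex
  rw [← Finset.sum_sub_distrib]
  refine Finset.sum_congr rfl fun ω _ => ?_
  rcases (hq ω).eq_or_lt with h0 | h0
  · rw [← h0]
    ring
  · have h1 := (law_pos hq (fun ω => (E ω, Z ω)) h0).ne'
    have h2 := (law_pos hq (fun ω => (T ω, Z ω)) h0).ne'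
    have h3 := (law_pos hq (fun ω => (E ω, T ω, Z ω)) h0).ne'
    have h4 := (law_pos hq Z h0).ne'
    unfold rho
    beta_reduce
    rw [Real.log_div (mul_ne_zero h1 h2) (mul_ne_zero h3 h4), Real.log_mul h1 h2,
      Real.log_mul h3 h4, Real.log_div h1 h4, Real.log_div h3 h2]
    ring

/-- **Change of measure**: an event of nearly independent records. -/
theorem prd_mass (hq : IsLaw q) (E : Ω → ε) (T : Ω → τ) (Z : Ω → ζ) (G : ε → τ → ζ → Prop)
    {I₀ c : ℝ} (hc : 0 < c) (hI₀ : 0 ≤ I₀)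
    (hI : CH q E Z ≤ CH q E (fun ω => (T ω, Z ω)) + I₀)
    (hG : c ≤ law q (fun ω => G (E ω) (T ω) (Z ω)) True) :
    c / 2 * Real.exp (-(2 * (I₀ + 1) / c)) ≤
      Ex q (fun ω => law (cond q Z (Z ω)) (fun ω' => G (E ω) (T ω') (Z ω)) True) := by
  classical
  have h0 := hq.nonneg
  obtain ⟨κ, hκ⟩ : ∃ κ, κ = 2 * (I₀ + 1) / c := ⟨_, rfl⟩
  have hκ0 : 0 < κ := by
    rw [hκ]
    positivity
  -- the large logarithms
  obtain ⟨B, hB⟩ : ∃ B : Ω → Prop, B = fun ω => κ < -Real.log (rho q E T Z ω) := ⟨_, rfl⟩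
  have e1 : ∀ G : Ω → Prop, law q G True = ∑ ω, if G ω then q ω else 0 := fun G => pe_sum q G
  have h1 : law q B True ≤ c / 2 := by
    have h2 := log_rho h0 E T Z
    have h3 := sum_rho h0 E T Z (fun _ _ _ => 1) (fun _ _ _ => zero_le_one)
    have h4 : ∑ ω, q ω * ∑ ω', cond q Z (Z ω) ω' * 1 ≤ 1 := by
      refine le_trans (Finset.sum_le_sum fun ω _ => ?_) hq.sum_one.le
      rcases (h0 ω).eq_or_lt with h5 | h5
      · rw [← h5, zero_mul]
      · simp only [mul_one]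
        rw [sum_cond q Z (law_pos h0 Z h5).ne', mul_one]
    have h5 : ∀ ω, κ * (if B ω then q ω else 0) ≤ q ω * -Real.log (rho q E T Z ω) +
        q ω * (rho q E T Z ω * 1) := by
      intro ω
      rcases (h0 ω).eq_or_lt with h6 | h6
      · rw [← h6]
        simp
      · have h7 := rho_pos h0 E T Z h6
        by_cases h8 : B ω
        · rw [if_pos h8]
          rw [hB] at h8
          have h9 : κ * q ω ≤ q ω * -Real.log (rho q E T Z ω) := by
            rw [mul_comm]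
            exact mul_le_mul_of_nonneg_left h8.le h6.le
          have h10 : 0 ≤ q ω * (rho q E T Z ω * 1) := by positivity
          linarith only [h9, h10]
        · rw [if_neg h8, mul_zero]
          have h9 := Real.log_le_sub_one_of_pos h7
          have h10 := mul_le_mul_of_nonneg_left h9 h6.le
          linarith only [h10, h6.le]
    have h6 := Finset.sum_le_sum fun ω (_ : ω ∈ Finset.univ) => h5 ω
    rw [← Finset.mul_sum, Finset.sum_add_distrib, h2, ← e1] at h6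
    have h7 : κ * law q B True ≤ I₀ + 1 := by linarith only [h6, h3, h4, hI]
    have h8 : κ * (c / 2) = I₀ + 1 := by
      rw [hκ]
      field_simp
    rw [← h8] at h7
    exact le_of_mul_le_mul_left h7 hκ0
  -- the rest of the event
  have h2 : c / 2 ≤ law q (fun ω => G (E ω) (T ω) (Z ω) ∧ ¬ B ω) True := by
    have h3 := law_or h0 (fun ω => G (E ω) (T ω) (Z ω)) B
      (fun ω => G (E ω) (T ω) (Z ω) ∧ ¬ B ω) fun ω _ hω => by
        by_cases h4 : B ω
        · exact Or.inl h4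
        · exact Or.inr ⟨hω, h4⟩
    linarith only [h3, hG, h1]
  have h3 := sum_rho h0 E T Z (fun e t z => if G e t z then 1 else 0) (fun e t z => by
    split_ifs
    exacts [zero_le_one, le_rfl])
  have h4 : Real.exp (-κ) * law q (fun ω => G (E ω) (T ω) (Z ω) ∧ ¬ B ω) True ≤
      ∑ ω, q ω * (rho q E T Z ω * (if G (E ω) (T ω) (Z ω) then 1 else 0)) := by
    rw [e1, Finset.mul_sum]
    refine Finset.sum_le_sum fun ω _ => ?_
    rcases (h0 ω).eq_or_lt with h6 | h6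
    · rw [← h6]
      simp
    · have h7 := rho_pos h0 E T Z h6
      by_cases h8 : G (E ω) (T ω) (Z ω) ∧ ¬ B ω
      · rw [if_pos h8, if_pos h8.1, mul_one, mul_comm]
        refine mul_le_mul_of_nonneg_left ?_ h6.le
        have h9 : -Real.log (rho q E T Z ω) ≤ κ := by
          have h10 := h8.2
          rw [hB] at h10
          exact not_lt.mp h10
        rw [← Real.le_log_iff_exp_le h7]
        linarith only [h9]
      · rw [if_neg h8, mul_zero]
        refine mul_nonneg h6.le (mul_nonneg h7.le ?_)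
        split_ifs
        exacts [zero_le_one, le_rfl]
  have h5 : ∑ ω, q ω * ∑ ω', cond q Z (Z ω) ω' * (if G (E ω) (T ω') (Z ω) then (1 : ℝ) else 0) =
      Ex q (fun ω => law (cond q Z (Z ω)) (fun ω' => G (E ω) (T ω') (Z ω)) True) := by
    unfold Ex
    refine Finset.sum_congr rfl fun ω _ => ?_
    congr 1
    have e2 : law (cond q Z (Z ω)) (fun ω' => G (E ω) (T ω') (Z ω)) True =
      ∑ ω', if G (E ω) (T ω') (Z ω) then cond q Z (Z ω) ω' else 0 := pe_sum _ _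
    refine Eq.trans ?_ e2.symm
    refine Finset.sum_congr rfl fun ω' _ => ?_
    split_ifs
    · rw [mul_one]
    · rw [mul_zero]
  rw [← h5, ← hκ]
  refine le_trans ?_ (h4.trans h3)
  rw [mul_comm]
  exact mul_le_mul_of_nonneg_left h2 (Real.exp_pos _).le

/-- **The best second record.** -/
theorem prd_ev (hq : IsLaw q) (E : Ω → ε) (T : Ω → τ) (Z : Ω → ζ) (G : ε → τ → ζ → Prop)
    {I₀ c : ℝ} (hc : 0 < c) (hI₀ : 0 ≤ I₀)
    (hI : CH q E Z ≤ CH q E (fun ω => (T ω, Z ω)) + I₀)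
    (hG : c ≤ law q (fun ω => G (E ω) (T ω) (Z ω)) True) :
    ∃ t : ζ → Ω, c / 2 * Real.exp (-(2 * (I₀ + 1) / c)) ≤
      law q (fun ω => (0 < q (t (Z ω)) ∧ Z (t (Z ω)) = Z ω) ∧ G (E ω) (T (t (Z ω))) (Z ω)) True := by
  classical
  have h0 := hq.nonneg
  have h1 := prd_mass hq E T Z G hc hI₀ hI hG
  obtain ⟨t, ht⟩ := sel_max hq Z (fun s ω' => cond q Z s ω') (fun ω hω =>
    ⟨fun g => cond_nonneg h0 Z _ g, sum_cond q Z (law_pos h0 Z hω).ne'⟩)
    (fun ω' ω => (0 < q ω' ∧ Z ω' = Z ω) ∧ G (E ω) (T ω') (Z ω))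
  refine ⟨t, h1.trans (le_trans (le_of_eq ?_) ht)⟩
  unfold Ex
  refine Finset.sum_congr rfl fun ω _ => ?_
  congr 1
  have e2 : law (cond q Z (Z ω)) (fun ω' => G (E ω) (T ω') (Z ω)) True =
    ∑ ω', if G (E ω) (T ω') (Z ω) then cond q Z (Z ω) ω' else 0 := pe_sum _ _
  refine e2.trans ?_
  refine Finset.sum_congr rfl fun ω' _ => ?_
  by_cases h2 : 0 < q ω' ∧ Z ω' = Z ω
  · by_cases h3 : G (E ω) (T ω') (Z ω)
    · rw [if_pos h3, if_pos ⟨h2, h3⟩, mul_one]
    · rw [if_neg h3, if_neg (fun h => h3 h.2), mul_zero]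
  · have h3 : cond q Z (Z ω) ω' = 0 := by
      unfold Pool.Agent.H49.Ent.cond
      by_cases h4 : Z ω' = Z ω
      · rw [if_pos h4]
        have h5 : q ω' = 0 := by
          by_contra h6
          exact h2 ⟨lt_of_le_of_ne (h0 ω') (Ne.symm h6), h4⟩
        rw [h5, zero_div]
      · rw [if_neg h4]
    rw [h3, ite_self, zero_mul]

/-- **No hyperplane which is a function of the record and of a nearly independent time.** -/
theorem NoHyp.prod {d : ℕ} {X : Ω → Fin d → ℝ} {Z : Ω → ζ} {η π₀ : ℝ} (hq : IsLaw q)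
    (h : NoHyp q X Z η π₀) (hd : 0 < d) (T : Ω → τ) {I₀ c : ℝ} (hc : 0 < c) (hI₀ : 0 ≤ I₀)
    (hI : CH q X Z ≤ CH q X (fun ω => (T ω, Z ω)) + I₀)
    (hπ : π₀ < c / 2 * Real.exp (-(2 * (I₀ + 1) / c))) :
    NoHyp q X (fun ω => (Z ω, T ω)) η c := by
  classical
  intro n hn
  by_contra hcon
  rw [not_le] at hcon
  obtain ⟨t, ht⟩ := prd_ev hq X T Z (fun x s z => |∑ j, n (z, s) j * x j| ≤ η) hc hI₀ hI hcon.le
  obtain ⟨n', hn'⟩ : ∃ n' : ζ → Fin d → ℝ, n' = fun s => if 0 < q (t s) ∧ Z (t s) = s then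
    n (s, T (t s)) else fun _ => 1 := ⟨_, rfl⟩
  have h1 := h n' (fun ω hω => by
    rw [hn']
    simp only
    split_ifs with h2
    · have h3 := hn (t (Z ω)) h2.1
      simp only [h2.2] at h3
      exact h3
    · exact ⟨fun j => by rw [abs_one], ⟨⟨0, hd⟩, abs_one⟩⟩)
  have h2 : law q (fun ω => (0 < q (t (Z ω)) ∧ Z (t (Z ω)) = Z ω) ∧
      |∑ j, n (Z ω, T (t (Z ω))) j * X ω j| ≤ η) True ≤
        law q (fun ω => |∑ j, n' (Z ω) j * X ω j| ≤ η) True := by
    refine law_mono' hq.nonneg fun ω _ hω => ?_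
    rw [hn']
    simp only
    rw [if_pos hω.1]
    exact hω.2
  linarith only [h1, h2, ht, hπ]

/-- The same, if the time is nearly full given the line. -/
theorem NoHyp.time {σ : Type} {d : ℕ} {X : Ω → Fin d → ℝ} {Z : Ω → ζ} {η π₀ : ℝ} (hq : IsLaw q)
    (h : NoHyp q X Z η π₀) (hd : 0 < d) (T : Ω → τ) (S : Ω → σ) (hX : Det q S X) (hZ : Det q S Z)
    {I₀ c : ℝ} (hc : 0 < c) (hI₀ : 0 ≤ I₀) (hI : CH q T Z ≤ CH q T S + I₀)
    (hπ : π₀ < c / 2 * Real.exp (-(2 * (I₀ + 1) / c))) :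
    NoHyp q X (fun ω => (Z ω, T ω)) η c := by
  refine h.prod hq hd T hc hI₀ ?_ hπ
  have h1 := CH_bayes hq.nonneg X T Z
  have h2 : CH q T S ≤ CH q T (fun ω => (X ω, Z ω)) :=
    CH_mono_cond hq.nonneg fun ω ω' hω hω' hs => Prod.ext (hX ω ω' hω hω' hs) (hZ ω ω' hω hω' hs)
  linarith only [h1, h2, hI]

end prd

/-! ### Classes -/

section cls

open Pool.KA Pool.KSAT Pool.PB Pool.S6C Pool.GEN Pool.CHT Pool.D2F
open Pool.LBT (ThrOf)

variable {m : ℕ}

/-- **The natural velocities of `V0` are in no hyperplane which is a function of a closed record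
and of the time.** -/
theorem hyp_clsT {θ : ℝ} {S : PCl m} {P : List (Fin m) × Fin m → ℝ → ℝ → ℝ}
    (hP : ThrOf (chsys m θ) S P) (c : ℕ → Fin m) {r : ℕ} (ι : Fin r → ℕ) (hι : StrictMono ι)
    (hc : ∀ l, Set.InjOn c (Set.Iio (ι l + 1)))
    (a : ℚ) (e h : ℝ) (ha0 : 0 ≤ a) (ha : a ≤ 1) (he : e < θ * a) (hh : 0 < h)
    (h1 : ∀ l, bet P c (ι l) a a + h ≤ 1) :
    ∃ δ : ℝ, 0 < δ ∧ Bas S (fun J F A => ∀ (n a₀ e₀ e' k s V : ℕ) (p : Fin r → ℕ) (g : ℕ → ℕ)
      (ψ : PtT F → ℕ → Option (Fin m) → ℝ) (ψH : LnT F → ℕ → Option (Fin m) → ℝ),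
      (∀ l, NumL J (bet P c (ι l) a a + h) a e (ι l) n a₀ e₀ e' k s V (p l) g) →
      ∀ (q : F.Ω → ℝ) (M : ℝ), IsLaw q → 0 ≤ M → (∀ ω, 0 < q ω → A ω) →
      (∀ ω, q ω * Pe F.p A ≤ M * F.p ω) →
      FrOK F c n a₀ k e₀ g (fun ω => 0 < q ω) ψ ψH →
      ∀ (ζ : Type) (z : F.Ω → ζ) (w : F.Ω → Fin (r + 1) → ℝ), Det q (fun ω => ptr F J ω) z →
      Det q (slam F a₀) z → Det q (slam F a₀) w →
      ∀ (δ₀ ν η : ℝ), 0 ≤ δ₀ → (∀ ω, 0 < q ω → ∀ l, |w ω l - Xv F c g a₀ ι ψ ω l| ≤ δ₀) →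
      0 < ν → ν ≤ 1 → 0 ≤ η → 1 ≤ ν ^ r * 2 ^ e' →
      (r + 1) * (δ₀ + ν * 2 ^ k) + η < 1 →
      (∀ l, ((r + 1) * (δ₀ / ν ^ r + ν * 2 ^ k) + η / ν ^ r) *
        2 ^ (2 * (ι l + 1) + 2 * k + 6 + s) ≤ 1) →
      ∀ (τ : Type) (T : F.Ω → τ) (I₀ c₀ : ℝ), 0 < c₀ → 0 ≤ I₀ →
      CH q T z ≤ CH q T (slam F a₀) + I₀ →
      r * (M * Real.exp (-(δ * J))) < c₀ / 2 * Real.exp (-(2 * (I₀ + 1) / c₀)) →
      NoHyp q w (fun ω => (z ω, T ω)) η c₀) := by
  obtain ⟨δ, hδ, τ, hτ, J₁, hv⟩ := hyp_cls hP c ι hι hc a e h ha0 ha he hh h1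
  refine ⟨δ, hδ, τ, hτ, J₁, ?_⟩
  intro J hJ F A hA n a₀ e₀ e' k s V p g ψ ψH N q M hq hM hqA hqM hfr ζ z w hzp hzs hws δ₀ ν η hδ₀
    hw hν hν1 hη hνe ha1 hb1 τ' T I₀ c₀ hc₀ hI₀ hI hπ
  have h2 := hv J hJ F A hA n a₀ e₀ e' k s V p g ψ ψH N q M hq hM hqA hqM hfr ζ z w hzp hzs δ₀ ν η
    hδ₀ hw hν hν1 hη hνe ha1 hb1
  exact h2.time hq (Nat.succ_pos r) T (slam F a₀) hws hzs hc₀ hI₀ hI hπ

end cls

end Pool.D2Con
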