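import Pool.Agent.H42.D2.Nru

/-!
# One step of an affine tower

`StaG`: the data of a closed plain gradient (`StaD` without the displacement bound). `sta_step`: over
a thin chain with natural curvature, they give a label of the target, and the chain with the new
label has natural curvature again. `stn_no`: the class end.
-/

set_option autoImplicit false

namespace Pool.D2S

open Finset Real MvPolynomial
open Pool.Agent.H49.Ent Pool.Agent.H32.Dense Pool.STK Pool.KA Pool.KSAT Pool.K2S Pool.PB Pool.S6C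
open Pool.GEN Pool.CHT Pool.CHX Pool.ISO Pool.D2F Pool.D2R
open Pool.LBT (ThrOf)
open Pool.FLF (Fam.sub)
open Pool.PB.Trl (rt rt_mem t_rt)

variable {m J : ℕ}

/-- **The data of a closed plain gradient**; all errors in norms of a closed chain. -/
structure StaG (F : Fam m J) (c : ℕ → Fin m) (i D₁ w a : ℕ) (gN E : ℕ → ℕ)
    (ε₁ ε₂ ε₃ : ℝ) (B : F.Ω → Prop) (TH : LnT F → ℕ → MvPolynomial (Option (Fin m)) ℝ)
    (Gp : PtT F → MvPolynomial (Option (Fin m)) ℝ) (lam : LnT F → ℕ → Polynomial ℝ) : Prop where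
  pGp : ∀ y, DepC c i (Gp y)
  dlam : ∀ s l, (lam s l).natDegree ≤ D₁
  lip : ∀ ω, B ω → ∀ l < i, |eval (bt F ω) (pderiv (some (c l)) (Gp (ptr F J ω)))| ≤ 2 ^ E l
  vel : ∀ ω ν, B ω → B ν → ptr F J ω = ptr F J ν →
    |bd F ν (some (c i)) - dd (Gp (ptr F J ω)) (bt F ω) (bd F ν)| ≤ ε₂
  shf : ∀ ω ν, B ω → B ν → ptr F J ω = ptr F J ν → ∀ V : Option (Fin m) → ℝ, V none = 0 →
    |dd (Gp (ptr F J ω)) (bt F ν) V - dd (Gp (ptr F J ω)) (bt F ω) V| ≤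
      ε₁ * nrm c (TH (slam F w ω)) gN a i (bt F ω) V
  spa : ∀ ω, B ω → ∀ V : Option (Fin m) → ℝ, V none = 0 →
    |∑ l ∈ range i, (lam (slam F w ω) l).eval (rt F w ω) * V (some (c l)) -
      dd (Gp (ptr F J ω)) (bt F ω) V| ≤ ε₁ * nrm c (TH (slam F w ω)) gN a i (bt F ω) V
  der : ∀ ω, B ω → ∀ V : Option (Fin m) → ℝ, V none = 0 →
    |∑ l ∈ range i, (Polynomial.derivative (lam (slam F w ω) l)).eval (rt F w ω) *
      V (some (c l))| ≤ ε₃ * nrm c (TH (slam F w ω)) gN a i (bt F ω) V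

/-- Affine visible charts: no shift. -/
theorem StaG.mk' {F : Fam m J} {c : ℕ → Fin m} {i D₁ w a : ℕ} {gN E : ℕ → ℕ}
    {ε₁ ε₂ ε₃ : ℝ} {B : F.Ω → Prop} {TH : LnT F → ℕ → MvPolynomial (Option (Fin m)) ℝ}
    {chi : PtT F → Option (Fin m) → ℝ} {lam : LnT F → ℕ → Polynomial ℝ} (hε : 0 ≤ ε₁)
    (hchi : ∀ y, CvC c i (chi y)) (hlam : ∀ s l, (lam s l).natDegree ≤ D₁)
    (hlip : ∀ ω, B ω → ∀ l < i, |chi (ptr F J ω) (some (c l))| ≤ 2 ^ E l)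
    (hvel : ∀ ω ν, B ω → B ν → ptr F J ω = ptr F J ν →
      |bd F ν (some (c i)) - cv (chi (ptr F J ω)) (bd F ν)| ≤ ε₂)
    (hspa : ∀ ω, B ω → ∀ V : Option (Fin m) → ℝ, V none = 0 →
      |∑ l ∈ range i, (lam (slam F w ω) l).eval (rt F w ω) * V (some (c l)) -
        cv (chi (ptr F J ω)) V| ≤ ε₁ * nrm c (TH (slam F w ω)) gN a i (bt F ω) V)
    (hder : ∀ ω, B ω → ∀ V : Option (Fin m) → ℝ, V none = 0 →
      |∑ l ∈ range i, (Polynomial.derivative (lam (slam F w ω) l)).eval (rt F w ω) *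
        V (some (c l))| ≤ ε₃ * nrm c (TH (slam F w ω)) gN a i (bt F ω) V) :
    StaG F c i D₁ w a gN E ε₁ ε₂ ε₃ B TH (fun y => afp 0 0 (chi y)) lam where
  pGp := fun y => dep_afp _ _ (hchi y)
  dlam := hlam
  lip := fun ω hω l hl => by
    show |eval (bt F ω) (pderiv (some (c l)) (afp 0 0 (chi (ptr F J ω))))| ≤ _
    rw [pd_afp]
    exact hlip ω hω l hl
  vel := fun ω ν hω hν hpt => by
    show |bd F ν (some (c i)) - dd (afp 0 0 (chi (ptr F J ω))) (bt F ω) (bd F ν)| ≤ _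
    rw [dd_afp]
    exact hvel ω ν hω hν hpt
  shf := fun ω ν _ _ _ V _ => by
    show |dd (afp 0 0 (chi (ptr F J ω))) (bt F ν) V - dd (afp 0 0 (chi (ptr F J ω))) (bt F ω) V| ≤
      _
    rw [dd_afp, dd_afp, sub_self, abs_zero]
    exact mul_nonneg hε (nrm_nonneg _ _ _ _ _ _ _)
  spa := fun ω hω V hV => by
    show |_ - dd (afp 0 0 (chi (ptr F J ω))) (bt F ω) V| ≤ _
    rw [dd_afp]
    exact hspa ω hω V hV
  der := hder

theorem StaG.sub {F : Fam m J} {c : ℕ → Fin m} {i D₁ w a : ℕ} {gN E : ℕ → ℕ}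
    {ε₁ ε₂ ε₃ : ℝ} {B B' : F.Ω → Prop} {TH : LnT F → ℕ → MvPolynomial (Option (Fin m)) ℝ}
    {Gp : PtT F → MvPolynomial (Option (Fin m)) ℝ} {lam : LnT F → ℕ → Polynomial ℝ}
    (h : StaG F c i D₁ w a gN E ε₁ ε₂ ε₃ B TH Gp lam) (hB : Sub B' B) :
    StaG F c i D₁ w a gN E ε₁ ε₂ ε₃ B' TH Gp lam :=
  ⟨h.pGp, h.dlam, fun ω hω => h.lip ω (hB ω hω), fun ω ν hω hν => h.vel ω ν (hB ω hω) (hB ν hν),
    fun ω ν hω hν => h.shf ω ν (hB ω hω) (hB ν hν), fun ω hω => h.spa ω (hB ω hω),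
    fun ω hω => h.der ω (hB ω hω)⟩

/-- **The thin chain with natural curvature**: labels `T`, `TH` with sides `gT` on the boxes of
radius `K`; the curvature of the closed charts is natural with the sides `gC` and the radius `aC`,
and so is the own velocity. -/
structure ChC (F : Fam m J) (c : ℕ → Fin m) (i w K aC n : ℕ) (gT gC : ℕ → ℕ) (κ L : ℝ)
    (B : F.Ω → Prop) (TH : LnT F → ℕ → MvPolynomial (Option (Fin m)) ℝ) : Prop where
  rad : aC + n ≤ K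
  sid : ∀ l < i, gC l + n + 1 ≤ gT l
  cur : ∀ ω, B ω → CurB c (TH (slam F w ω)) gC aC i (F.t ω) κ
  vel : ∀ ω, B ω → nrm c (TH (slam F w ω)) gC aC i (bt F ω) (bd F ω) ≤ L * 2 ^ aC

theorem ChC.sub {F : Fam m J} {c : ℕ → Fin m} {i w K aC n : ℕ} {gT gC : ℕ → ℕ} {κ L : ℝ}
    {B B' : F.Ω → Prop} {TH : LnT F → ℕ → MvPolynomial (Option (Fin m)) ℝ}
    (h : ChC F c i w K aC n gT gC κ L B TH) (hB : Sub B' B) :
    ChC F c i w K aC n gT gC κ L B' TH :=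
  ⟨h.rad, h.sid, fun ω hω => h.cur ω (hB ω hω), fun ω hω => h.vel ω (hB ω hω)⟩

/-- The points of the thin box, in the boxes of the closed charts. -/
theorem ChC.box {F : Fam m J} {c : ℕ → Fin m} {i w K aC n e : ℕ} {Kv gT gC : ℕ → ℕ} {κ L : ℝ}
    {B : F.Ω → Prop} {T : PtT F → ℕ → MvPolynomial (Option (Fin m)) ℝ}
    {TH : LnT F → ℕ → MvPolynomial (Option (Fin m)) ℝ}
    (h : ChC F c i w K aC n gT gC κ L B TH) (hT : ChOK F c i Kv K w e gT B T TH) {ω : F.Ω}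
    (hω : B ω) {b : Option (Fin m) → ℝ} (hb : NBx c (T (ptr F J ω)) gT K (F.t ω) i b) :
    |b none - F.t ω| ≤ 1 / 2 ^ (aC + n) ∧
    ∀ l < i, |b (some (c l)) - eval b (TH (slam F w ω) l)| ≤ 1 / 2 ^ (gC l + n) := by
  refine ⟨hb.1.trans (inv_mono h.rad), fun l hl => ?_⟩
  have h1 := hb.2 l hl
  have h2 := hT.agr ω hω l hl b ⟨hb.1, fun j hj => hb.2 j (by omega)⟩
  have e1 : b (some (c l)) - eval b (TH (slam F w ω) l) =
      (b (some (c l)) - eval b (T (ptr F J ω) l)) +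
      (eval b (T (ptr F J ω) l) - eval b (TH (slam F w ω) l)) := by ring
  rw [e1]
  refine (abs_add_le _ _).trans ((add_le_add h1 h2).trans ?_)
  have h3 : (1 : ℝ) / 2 ^ gT l ≤ 1 / 2 ^ (gC l + n + 1) := inv_mono (h.sid l hl)
  have h4 : (1 : ℝ) / 2 ^ (gC l + n + 1) + 1 / 2 ^ (gC l + n + 1) = 1 / 2 ^ (gC l + n) := by
    rw [pow_succ]
    field_simp
    norm_num
  linarith

theorem ChC.own {F : Fam m J} {c : ℕ → Fin m} {i w K aC n e : ℕ} {Kv gT gC : ℕ → ℕ} {κ L : ℝ}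
    {B : F.Ω → Prop} {T : PtT F → ℕ → MvPolynomial (Option (Fin m)) ℝ}
    {TH : LnT F → ℕ → MvPolynomial (Option (Fin m)) ℝ}
    (h : ChC F c i w K aC n gT gC κ L B TH) (hT : ChOK F c i Kv K w e gT B T TH) {ω : F.Ω}
    (hω : B ω) : ∀ l < i, |F.x ω (c l) - eval (bt F ω) (TH (slam F w ω) l)| ≤
      1 / 2 ^ (gC l + n) :=
  (h.box hT hω (b := bt F ω) ⟨by
    show |F.t ω - F.t ω| ≤ _
    rw [sub_self, abs_zero]
    positivity, fun l hl => hT.pos ω hω l hl⟩).2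

/-- The displacement bound. -/
theorem StaG.to {F : Fam m J} {c : ℕ → Fin m} {i D₁ w K aC n e : ℕ} {Kv gT gC E : ℕ → ℕ}
    {κ L ε₁ ε₂ ε₃ : ℝ} {B : F.Ω → Prop} {T : PtT F → ℕ → MvPolynomial (Option (Fin m)) ℝ}
    {TH : LnT F → ℕ → MvPolynomial (Option (Fin m)) ℝ}
    {Gp : PtT F → MvPolynomial (Option (Fin m)) ℝ} {lam : LnT F → ℕ → Polynomial ℝ}
    (hw : w ≤ J) (hκ : 0 ≤ κ) (h2 : 2 ≤ n) (hn1 : κ * 4 ^ i * (4 * i + 4) ^ 2 ≤ 2 ^ n)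
    (hn2 : κ * 4 ^ i * L ≤ 2 ^ n) (hn3 : 1 + 2 * L ≤ 2 ^ n)
    (h : ChC F c i w K aC n gT gC κ L B TH) (hT : ChOK F c i Kv K w e gT B T TH)
    (hG : StaG F c i D₁ w aC gC E ε₁ ε₂ ε₃ B TH Gp lam) :
    StaD F c i D₁ w K gC gT E ε₁ ε₂ ε₃ (2 ^ i * ((4 * i + 4 + L) / 2 ^ n)) B T TH Gp lam := by
  have hsp : ∀ (s : LnT F) (x V : Option (Fin m) → ℝ), V none = 0 →
      nrm c (TH s) gC aC i x V = nrm c (TH s) gC K i x V := fun s x V hV => by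
    rw [nrm_sp _ _ _ hV, nrm_sp _ _ _ hV]
  refine ⟨hG.pGp, hG.dlam, hG.lip, hG.vel, fun ω ν hω hν hpt V hV => ?_, fun ω hω V hV => ?_,
    fun ω hω V hV => ?_, fun ω hω b hb τ hτ => ?_⟩
  · rw [← hsp _ _ _ hV]
    exact hG.shf ω ν hω hν hpt V hV
  · rw [← hsp _ _ _ hV]
    exact hG.spa ω hω V hV
  · rw [← hsp _ _ _ hV]
    exact hG.der ω hω V hV
  · rw [← hsp _ _ _ (offL_none F ω b)]
    obtain ⟨b1, b2⟩ := h.box hT hω hb
    have e1 : ptw F w ω τ = fun o => bt F ω o + (τ - rt F w ω) / 2 ^ w * bd F ω o :=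
      funext fun o => ptw_eq F hw ω τ o
    rw [e1]
    exact nru_pt hκ (h.cur ω hω) h2 hn1 hn2 hn3 (h.own hT hω) b1 b2 (h.vel ω hω) (by
      rw [abs_div, abs_of_pos (show (0 : ℝ) < 2 ^ w by positivity), div_le_iff₀ (by positivity)]
      refine hτ.trans ?_
      rw [div_mul_eq_mul_div, one_mul]
      exact div_le_div_of_nonneg_left (by positivity) (by positivity)
        (pow_le_pow_right₀ (by norm_num) h.rad))

/-- **One step of an affine tower.** -/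
theorem sta_step (m D₁ D i : ℕ) : ∃ C : ℕ, 1 ≤ C ∧ D ≤ C ∧ ∀ {J : ℕ} {F : Fam m J}
    {c : ℕ → Fin m} {w k K aC n e p κ L : ℕ} {Kv gT gC E : ℕ → ℕ} {ε₁ ε₂ ε₃ θ : ℝ}
    {B : F.Ω → Prop} {T : PtT F → ℕ → MvPolynomial (Option (Fin m)) ℝ}
    {TH : LnT F → ℕ → MvPolynomial (Option (Fin m)) ℝ}
    {Gp : PtT F → MvPolynomial (Option (Fin m)) ℝ} {lam : LnT F → ℕ → Polynomial ℝ}
    (hB : 0 < Pe F.p B), Set.InjOn c (Set.Iio i) → w ≤ J → w ≤ aC → 0 ≤ ε₁ → 0 ≤ ε₂ → 0 < ε₃ →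
    0 ≤ θ → (Fam.sub F B hB).Tm θ → C * (θ + 1) ≤ ((J : ℝ) - w) * Real.log 2 →
    Real.exp (C * (θ + 1)) ≤ 2 ^ k → (∀ l, Kv l ≤ D) → κ + L + C ≤ n →
    (∀ l < i, E l ≤ e + nlp (fun j => if j < i then gT j else p) l i) →
    (∀ l < i, E l + (p + 1) + C ≤ J) → p + 1 + C ≤ J →
    ε₂ / 2 ^ K + (2 * ε₁ + 2 ^ (k + C) * (ε₃ * 2 ^ w / 2 ^ K)) ≤ 1 / 2 ^ (p + 1) →
    ChOK F c i Kv K w e gT B T TH → ChC F c i w K aC n gT gC (2 ^ κ) (2 ^ L) B TH →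
    StaG F c i D₁ w aC gC E ε₁ ε₂ ε₃ B TH Gp lam →
    ∃ (B' : F.Ω → Prop) (Gt : PtT F → MvPolynomial (Option (Fin m)) ℝ), Sub B' B ∧
      Pe F.p B / 2 ≤ Pe F.p B' ∧
      Pool.NLB46.Lab F c i C K w e p gT T B' Gt (fun s => nuH c w i (lnP c) lam s) ∧
      (∀ ω, B' ω → ∀ y, NBx c (TH (slam F w ω)) (fun l => gC l + (n + 1)) (aC + (n + 1))
        (F.t ω) i y → ∀ V V', |hs (nuH c w i (lnP c) lam (slam F w ω)) y V V'| ≤
          2 ^ (k + L + C) * (ε₃ * 2 ^ w / 2 ^ aC) * nrm c (TH (slam F w ω)) gC aC i y V *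
            nrm c (TH (slam F w ω)) gC aC i y V') ∧
      ∀ ω, B' ω → dd (nuH c w i (lnP c) lam (slam F w ω)) (bt F ω) (bd F ω) =
        bd F ω (some (c i)) := by
  obtain ⟨C₁, hC₁, hlab⟩ := sta_lab' m D₁ D i
  obtain ⟨C₃, hC₃, hcur⟩ := cur_new D₁ i
  obtain ⟨C₄, hC₄⟩ := pow_unbounded_of_one_lt (2 * C₃) (one_lt_two (α := ℝ))
  obtain ⟨C₅, hC₅⟩ := pow_unbounded_of_one_lt (4 ^ i * (4 * (i : ℝ) + 4) ^ 2 + 2 ^ i * (4 * i + 5))
    (one_lt_two (α := ℝ))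
  obtain ⟨C, hC⟩ : ∃ C, C = C₁ + C₄ + 2 * C₅ + D + 10 := ⟨_, rfl⟩
  refine ⟨C, by omega, by omega, ?_⟩
  intro J F c w k K aC n e p κ L Kv gT gC E ε₁ ε₂ ε₃ θ B T TH Gp lam hB hc hw hwa hε₁ hε₂ hε₃ hθ
    hTm hJ hexp hKv hn hE hEJ hpJ herr hT hch hG
  have hi0 : (0 : ℝ) ≤ i := Nat.cast_nonneg i
  have hL1 : (1 : ℝ) ≤ 2 ^ L := one_le_pow₀ (by norm_num)
  have hκ1 : (1 : ℝ) ≤ 2 ^ κ := one_le_pow₀ (by norm_num)
  have hC5a : 4 ^ i * (4 * (i : ℝ) + 4) ^ 2 ≤ 2 ^ C₅ := by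
    have : (0 : ℝ) ≤ 2 ^ i * (4 * i + 5) := by positivity
    linarith
  have hC5b : 2 ^ i * (4 * (i : ℝ) + 5) ≤ 2 ^ C₅ := by
    have : (0 : ℝ) ≤ 4 ^ i * (4 * (i : ℝ) + 4) ^ 2 := by positivity
    linarith
  have h4i : (4 : ℝ) ^ i ≤ 4 ^ i * (4 * (i : ℝ) + 4) ^ 2 :=
    le_mul_of_one_le_right (by positivity) (one_le_pow₀ (by linarith))
  -- numbers
  have hn1 : (2 : ℝ) ^ κ * 4 ^ i * (4 * i + 4) ^ 2 ≤ 2 ^ (κ + C₅ + 2) := by
    calc (2 : ℝ) ^ κ * 4 ^ i * (4 * i + 4) ^ 2 = 2 ^ κ * (4 ^ i * (4 * i + 4) ^ 2) := by ring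
      _ ≤ 2 ^ κ * 2 ^ C₅ := mul_le_mul_of_nonneg_left hC5a (by positivity)
      _ = 2 ^ (κ + C₅) := by rw [pow_add]
      _ ≤ _ := pow_le_pow_right₀ (by norm_num) (by omega)
  have hn1' : (2 : ℝ) ^ κ * 4 ^ i * (4 * i + 4) ^ 2 ≤ 2 ^ n :=
    hn1.trans (pow_le_pow_right₀ (by norm_num) (by omega))
  have hn2 : (2 : ℝ) ^ κ * 4 ^ i * 2 ^ L ≤ 2 ^ n := by
    calc (2 : ℝ) ^ κ * 4 ^ i * 2 ^ L ≤ 2 ^ κ * 2 ^ C₅ * 2 ^ L := by
          refine mul_le_mul_of_nonneg_right (mul_le_mul_of_nonneg_left (h4i.trans hC5a)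
            (by positivity)) (by positivity)
      _ = 2 ^ (κ + C₅ + L) := by rw [pow_add, pow_add]
      _ ≤ _ := pow_le_pow_right₀ (by norm_num) (by omega)
  have hn3 : (1 + 2 * (2 : ℝ) ^ L) * 2 ^ (κ + C₅ + 2) ≤ 2 ^ n := by
    calc (1 + 2 * (2 : ℝ) ^ L) * 2 ^ (κ + C₅ + 2) ≤ (4 * 2 ^ L) * 2 ^ (κ + C₅ + 2) :=
          mul_le_mul_of_nonneg_right (by linarith) (by positivity)
      _ = 2 ^ (2 + L + (κ + C₅ + 2)) := by
        rw [pow_add _ (2 + L), pow_add _ 2]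
        norm_num
      _ ≤ _ := pow_le_pow_right₀ (by norm_num) (by omega)
  have hn3' : 1 + 2 * (2 : ℝ) ^ L ≤ 2 ^ n := by
    refine le_trans ?_ hn3
    exact le_mul_of_one_le_right (by positivity) (one_le_pow₀ (by norm_num))
  have hM1 : 2 ^ i * ((4 * (i : ℝ) + 4 + 2 ^ L) / 2 ^ n) ≤ 1 := by
    rw [mul_div_assoc', div_le_one (by positivity)]
    calc 2 ^ i * (4 * (i : ℝ) + 4 + 2 ^ L) ≤ 2 ^ i * ((4 * i + 5) * 2 ^ L) := by
          refine mul_le_mul_of_nonneg_left ?_ (by positivity)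
          have h1 : (4 * (i : ℝ) + 4) * 1 ≤ (4 * i + 4) * 2 ^ L :=
            mul_le_mul_of_nonneg_left hL1 (by positivity)
          linarith
      _ = (2 ^ i * (4 * i + 5)) * 2 ^ L := by ring
      _ ≤ 2 ^ C₅ * 2 ^ L := mul_le_mul_of_nonneg_right hC5b (by positivity)
      _ = 2 ^ (C₅ + L) := by rw [pow_add]
      _ ≤ _ := pow_le_pow_right₀ (by norm_num) (by omega)
  have hD := hG.to hw (by positivity) (show 2 ≤ n by omega) hn1' hn2 hn3' hch hT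
  have hCC1 : ((C₁ : ℕ) : ℝ) ≤ C := by exact_mod_cast (by omega : C₁ ≤ C)
  have hθ1 : 0 ≤ θ + 1 := by linarith
  have hTd : ∀ s l, (TH s l).totalDegree ≤ D := fun s l => (hT.degH s l).trans (hKv l)
  obtain ⟨B₁, Gt, l1, l2, l3, l4, l5, l6, l7, l8⟩ := hlab (q := p + 1) hB hc hw
    (hwa.trans ((Nat.le_add_right _ _).trans hch.rad)) hε₁ hε₂ hε₃ hθ hTm
    ((mul_le_mul_of_nonneg_right hCC1 hθ1).trans hJ)
    ((Real.exp_le_exp.2 (mul_le_mul_of_nonneg_right hCC1 hθ1)).trans hexp) hTd hT.depH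
    (fun l hl => by
      have := hEJ l hl
      omega) (by omega) hD
  have hq2 : (1 : ℝ) / 2 ^ (p + 1) + 1 / 2 ^ (p + 1) = 1 / 2 ^ p := by
    rw [pow_succ]
    field_simp
    norm_num
  have hq0 : (0 : ℝ) < 1 / 2 ^ (p + 1) := by positivity
  refine ⟨B₁, Gt, l1, l2, ?_, fun ω hω y hy V V' => ?_, fun ω hω => ?_⟩
  · exact
      { degG := fun y => (l3 y).trans (by omega)
        degH := fun s => (l4 s).trans (by omega)
        depG := l5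
        depH := l6
        pos := fun ω hω => (l7 ω hω).1.trans (by linarith)
        agr := fun ω hω b hb => by
          refine ((l7 ω hω).2.1 b hb).trans ?_
          have h0 : 0 ≤ 2 * ε₁ + 2 ^ (k + C₁) * (ε₃ * 2 ^ w / 2 ^ K) := by positivity
          have h1 : 2 ^ i * ((4 * (i : ℝ) + 4 + 2 ^ L) / 2 ^ n) *
              (2 * ε₁ + 2 ^ (k + C₁) * (ε₃ * 2 ^ w / 2 ^ K)) ≤
              2 * ε₁ + 2 ^ (k + C) * (ε₃ * 2 ^ w / 2 ^ K) := by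
            refine (mul_le_of_le_one_left h0 hM1).trans ?_
            exact add_le_add le_rfl (mul_le_mul_of_nonneg_right
              (pow_le_pow_right₀ (by norm_num) (by omega)) (by positivity))
          linarith
        lip := fun ω hω b _ l hl => ((l7 ω hω).2.2 b l hl).trans (pow_le_pow_right₀
          (by norm_num) (hE l hl)) }
  · have hBω := l1 ω hω
    have h1 := hcur (K := 2 ^ κ) (L := 2 ^ L) (E := 2 ^ (k + C₁) * ε₃) (n := n)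
      (n₂ := κ + C₅ + 2) (g := gC) (a := aC) (ψ := TH (slam F w ω)) (lam := lam) (ω := ω) (c := c)
      hw hwa (by positivity) (by positivity) (by positivity) (fun l => hG.dlam _ l)
      (hch.cur ω hBω) (by omega) hn1 hn2 hn3 (hch.own hT hBω) (hch.vel ω hBω)
      (fun V hV τ hτ => by
        refine (l8 ω hω V hV τ hτ).trans (le_of_eq ?_)
        rw [nrm_sp _ _ _ hV, nrm_sp _ _ _ hV]) y hy V V'
    refine h1.trans ?_
    have n1 := nrm_nonneg c (TH (slam F w ω)) gC aC i y V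
    have n2 := nrm_nonneg c (TH (slam F w ω)) gC aC i y V'
    refine mul_le_mul_of_nonneg_right (mul_le_mul_of_nonneg_right ?_ n1) n2
    have h2 : C₃ * (1 + 2 ^ L) ≤ 2 ^ C₄ * 2 ^ L := by
      have h3 : C₃ * (1 + 2 ^ L) ≤ 2 * C₃ * 2 ^ L := by
        have : C₃ * 1 ≤ C₃ * 2 ^ L := mul_le_mul_of_nonneg_left hL1 (by linarith)
        linarith
      exact h3.trans (mul_le_mul_of_nonneg_right hC₄.le (by positivity))
    have h3 : (0 : ℝ) ≤ 2 ^ (k + C₁) * (ε₃ * 2 ^ w / 2 ^ aC) := by positivity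
    calc C₃ * (1 + 2 ^ L) * (2 ^ (k + C₁) * ε₃ * 2 ^ w / 2 ^ aC) =
          (C₃ * (1 + 2 ^ L)) * (2 ^ (k + C₁) * (ε₃ * 2 ^ w / 2 ^ aC)) := by ring
      _ ≤ (2 ^ C₄ * 2 ^ L) * (2 ^ (k + C₁) * (ε₃ * 2 ^ w / 2 ^ aC)) :=
          mul_le_mul_of_nonneg_right h2 h3
      _ = 2 ^ (C₄ + L + (k + C₁)) * (ε₃ * 2 ^ w / 2 ^ aC) := by
        rw [pow_add, pow_add]
        ring
      _ ≤ _ := mul_le_mul_of_nonneg_right (pow_le_pow_right₀ (by norm_num) (by omega))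
          (by positivity)
  · have hown : ∀ l < i, bt F ω (some (c l)) = eval (bt F ω) (lnP c (slam F w ω) l) := by
      intro l _
      rw [eval_lnP_own]
      have e1 : bt F ω none = F.t ω := rfl
      have e2 : bt F ω (some (c l)) = F.x ω (c l) := rfl
      rw [e1, e2]
      ring
    rw [dd_nuH _ _ _ _ _ _ _ _ hown, dd_lnP]
    have e1 : ∀ l ∈ range i, (lam (slam F w ω) l).eval (2 ^ w * bt F ω none -
        ((slam F w ω).2.2 : ℝ)) * (bd F ω (some (c l)) - dd (lnP c (slam F w ω) l) (bt F ω)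
          (bd F ω)) = 0 := by
      intro l _
      rw [dd_lnP]
      have e2 : bd F ω (some (c l)) = (slam F w ω).1.2 (c l) := rfl
      have e3 : bd F ω none = 1 := rfl
      rw [e2, e3, mul_one, sub_self, mul_zero]
    rw [Finset.sum_eq_zero e1, add_zero]
    have e3 : bd F ω none = 1 := rfl
    rw [e3, mul_one]
    rfl

/-- **The next chain**: the chain with the label of `sta_step`. -/
theorem ChC.snoc {F : Fam m J} {c : ℕ → Fin m} {i w K aC n n' p pC : ℕ} {gT gC : ℕ → ℕ}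
    {κ κ' L M : ℝ} {B B' : F.Ω → Prop} {TH : LnT F → ℕ → MvPolynomial (Option (Fin m)) ℝ}
    {Ht : LnT F → MvPolynomial (Option (Fin m)) ℝ} (hκ : 0 ≤ κ) (hM : 0 ≤ M) (hκκ : κ ≤ κ')
    (h : ChC F c i w K aC (n + n') gT gC κ L B TH) (hB : Sub B' B)
    (hcur : ∀ ω, B' ω → ∀ y, NBx c (TH (slam F w ω)) (fun l => gC l + n) (aC + n)
      (F.t ω) i y → ∀ V V', |hs (Ht (slam F w ω)) y V V'| ≤
        M * nrm c (TH (slam F w ω)) gC aC i y V * nrm c (TH (slam F w ω)) gC aC i y V')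
    (hM2 : M * 2 ^ pC ≤ κ' * (2 ^ n * 2 ^ n)) (hp : pC + n' + 1 ≤ p)
    (hvel : ∀ ω, B' ω → 2 ^ pC * |bd F ω (some (c i)) -
      dd (Ht (slam F w ω)) (bt F ω) (bd F ω)| ≤ 2 ^ aC) :
    ChC F c (i + 1) w K (aC + n) n' (fun j => if j < i then gT j else p)
      (fun j => if j < i then gC j + n else pC) κ' (L + 1) B'
      (fun s j => if j < i then TH s j else Ht s) where
  rad := by
    have := h.rad
    omega
  sid := fun l hl => by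
    show (if l < i then gC l + n else pC) + n' + 1 ≤ if l < i then gT l else p
    by_cases h1 : l < i
    · rw [if_pos h1, if_pos h1]
      have := h.sid l h1
      omega
    · rw [if_neg h1, if_neg h1]
      exact hp
  cur := fun ω hω => curB_snoc hκ (h.cur ω (hB ω hω)) (hcur ω hω) hM hκκ hM2
  vel := fun ω hω => by
    show nrm c (fun j => if j < i then TH (slam F w ω) j else Ht (slam F w ω))
      (fun j => if j < i then gC j + n else pC) (aC + n) (i + 1) (bt F ω) (bd F ω) ≤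
        (L + 1) * 2 ^ (aC + n)
    rw [nrm_succ]
    have e1 : nrm c (fun j => if j < i then TH (slam F w ω) j else Ht (slam F w ω))
        (fun j => if j < i then gC j + n else pC) (aC + n) i (bt F ω) (bd F ω) =
        nrm c (TH (slam F w ω)) (fun j => gC j + n) (aC + n) i (bt F ω) (bd F ω) :=
      nrm_sup (fun l hl => if_pos hl) fun l hl => if_pos hl
    have h1 : nrm c (TH (slam F w ω)) (fun j => gC j + n) (aC + n) i (bt F ω) (bd F ω) =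
        2 ^ n * nrm c (TH (slam F w ω)) gC aC i (bt F ω) (bd F ω) := by
      unfold nrm
      rw [mul_add, Finset.mul_sum]
      congr 1
      · rw [pow_add]
        ring
      · refine Finset.sum_congr rfl fun l _ => ?_
        rw [pow_add]
        ring
    rw [e1, h1, if_neg (lt_irrefl i), if_neg (lt_irrefl i)]
    have h2 := h.vel ω (hB ω hω)
    have h3 := hvel ω hω
    have h4 : (2 : ℝ) ^ aC ≤ 2 ^ (aC + n) :=
      pow_le_pow_right₀ (by norm_num) (Nat.le_add_right _ _)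
    calc 2 ^ n * nrm c (TH (slam F w ω)) gC aC i (bt F ω) (bd F ω) +
          2 ^ pC * |bd F ω (some (c i)) - dd (Ht (slam F w ω)) (bt F ω) (bd F ω)| ≤
          2 ^ n * (L * 2 ^ aC) + 2 ^ (aC + n) :=
          add_le_add (mul_le_mul_of_nonneg_left h2 (by positivity)) (h3.trans h4)
      _ = _ := by
        rw [pow_add]
        ring

/-- The numbers of `StaG.to`. -/
theorem num_to (i : ℕ) : ∃ C : ℕ, ∀ κ L n : ℕ, κ + L + C ≤ n → 2 ≤ n ∧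
    (2 : ℝ) ^ κ * 4 ^ i * (4 * i + 4) ^ 2 ≤ 2 ^ n ∧ (2 : ℝ) ^ κ * 4 ^ i * 2 ^ L ≤ 2 ^ n ∧
    1 + 2 * (2 : ℝ) ^ L ≤ 2 ^ n ∧ 2 ^ i * ((4 * (i : ℝ) + 4 + 2 ^ L) / 2 ^ n) ≤ 1 := by
  obtain ⟨C₅, hC₅⟩ := pow_unbounded_of_one_lt (4 ^ i * (4 * (i : ℝ) + 4) ^ 2 + 2 ^ i * (4 * i + 5))
    (one_lt_two (α := ℝ))
  refine ⟨C₅ + 4, fun κ L n hn => ?_⟩
  have hi0 : (0 : ℝ) ≤ i := Nat.cast_nonneg i
  have hL1 : (1 : ℝ) ≤ 2 ^ L := one_le_pow₀ (by norm_num)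
  have hκ1 : (1 : ℝ) ≤ 2 ^ κ := one_le_pow₀ (by norm_num)
  have hC5a : 4 ^ i * (4 * (i : ℝ) + 4) ^ 2 ≤ 2 ^ C₅ := by
    have : (0 : ℝ) ≤ 2 ^ i * (4 * i + 5) := by positivity
    linarith
  have hC5b : 2 ^ i * (4 * (i : ℝ) + 5) ≤ 2 ^ C₅ := by
    have : (0 : ℝ) ≤ 4 ^ i * (4 * (i : ℝ) + 4) ^ 2 := by positivity
    linarith
  have h4i : (4 : ℝ) ^ i ≤ 4 ^ i * (4 * (i : ℝ) + 4) ^ 2 :=
    le_mul_of_one_le_right (by positivity) (one_le_pow₀ (by linarith))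
  refine ⟨by omega, ?_, ?_, ?_, ?_⟩
  · calc (2 : ℝ) ^ κ * 4 ^ i * (4 * i + 4) ^ 2 = 2 ^ κ * (4 ^ i * (4 * i + 4) ^ 2) := by ring
      _ ≤ 2 ^ κ * 2 ^ C₅ := mul_le_mul_of_nonneg_left hC5a (by positivity)
      _ = 2 ^ (κ + C₅) := by rw [pow_add]
      _ ≤ _ := pow_le_pow_right₀ (by norm_num) (by omega)
  · calc (2 : ℝ) ^ κ * 4 ^ i * 2 ^ L ≤ 2 ^ κ * 2 ^ C₅ * 2 ^ L := by
          refine mul_le_mul_of_nonneg_right (mul_le_mul_of_nonneg_left (h4i.trans hC5a)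
            (by positivity)) (by positivity)
      _ = 2 ^ (κ + C₅ + L) := by rw [pow_add, pow_add]
      _ ≤ _ := pow_le_pow_right₀ (by norm_num) (by omega)
  · calc 1 + 2 * (2 : ℝ) ^ L ≤ 4 * 2 ^ L := by linarith
      _ = 2 ^ (2 + L) := by
        rw [pow_add]
        norm_num
      _ ≤ _ := pow_le_pow_right₀ (by norm_num) (by omega)
  · rw [mul_div_assoc', div_le_one (by positivity)]
    calc 2 ^ i * (4 * (i : ℝ) + 4 + 2 ^ L) ≤ 2 ^ i * ((4 * i + 5) * 2 ^ L) := by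
          refine mul_le_mul_of_nonneg_left ?_ (by positivity)
          have h1 : (4 * (i : ℝ) + 4) * 1 ≤ (4 * i + 4) * 2 ^ L :=
            mul_le_mul_of_nonneg_left hL1 (by positivity)
          linarith
      _ = (2 ^ i * (4 * i + 5)) * 2 ^ L := by ring
      _ ≤ 2 ^ C₅ * 2 ^ L := mul_le_mul_of_nonneg_right hC5b (by positivity)
      _ = 2 ^ (C₅ + L) := by rw [pow_add]
      _ ≤ _ := pow_le_pow_right₀ (by norm_num) (by omega)

/-- **The class end** over a thin chain with natural curvature. -/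
theorem stn_no (D₁ D i : ℕ) : ∃ C : ℕ, 1 ≤ C ∧ D ≤ C ∧ ∀ {θ : ℝ} {S : PCl m}
    {P : List (Fin m) × Fin m → ℝ → ℝ → ℝ} (_ : ThrOf (chsys m θ) S P) (_ : TmH S)
    (c : ℕ → Fin m) (_ : Set.InjOn c (Set.Iio i)) (a w : ℚ) (e h ε : ℝ) (_ : 0 ≤ w)
    (_ : w ≤ a) (_ : a ≤ 1) (_ : w < 1) (_ : e < θ * w) (_ : 0 < h) (_ : 0 < ε)
    (_ : bet P c i a w + h ≤ 1),
    ∃ δ : ℝ, 0 < δ ∧ Bas S (fun J F A => ∀ (a₀ w₀ aC n e₀ k p κ L : ℕ) (Kv gC gT E : ℕ → ℕ)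
      (ε₁ ε₂ ε₃ : ℝ) (B : F.Ω → Prop) (T : PtT F → ℕ → MvPolynomial (Option (Fin m)) ℝ)
      (TH : LnT F → ℕ → MvPolynomial (Option (Fin m)) ℝ)
      (Gp : PtT F → MvPolynomial (Option (Fin m)) ℝ) (lam : LnT F → ℕ → Polynomial ℝ),
      w₀ ≤ aC → a₀ ≤ ⌊(a : ℝ) * J⌋₊ → w₀ ≤ ⌊(w : ℝ) * J⌋₊ → e₀ ≤ ⌊e * J⌋₊ → ε * J ≤ k →
      (∀ l, Kv l ≤ D) → (∀ l < i, gT l ≤ J) → κ + L + C ≤ n → p + 1 + C ≤ J →
      ⌊(bet P c i a w + h) * J⌋₊ + a₀ ≤ p + ⌊(a : ℝ) * J⌋₊ →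
      (∀ l < i, E l ≤ e₀ + nlp (fun j => if j < i then gT j else p) l i) →
      (∀ l < i, E l + (p + 1) + C ≤ J) → 0 ≤ ε₁ → 0 ≤ ε₂ → 0 < ε₃ →
      ε₂ / 2 ^ a₀ + (2 * ε₁ + 2 ^ (k + C) * (ε₃ * 2 ^ w₀ / 2 ^ a₀)) ≤ 1 / 2 ^ (p + 1) →
      Sub B A → ChOK F c i Kv a₀ w₀ e₀ gT B T TH →
      ChC F c i w₀ a₀ aC n gT gC (2 ^ κ) (2 ^ L) B TH →
      StaG F c i D₁ w₀ aC gC E ε₁ ε₂ ε₃ B TH Gp lam →
      Pe F.p B ≤ Real.exp (-(δ * J)) * Pe F.p A) := by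
  obtain ⟨C₁, hC₁, hDC, hno⟩ := sta_no (m := m) D₁ D i
  obtain ⟨C₂, hnum⟩ := num_to i
  refine ⟨C₁ + C₂, by omega, by omega, ?_⟩
  intro θ S P hP hS c hc a w e h ε hw hwa ha hw1 he hh hε hbet
  obtain ⟨δ, hδ, hbas⟩ := hno hP hS c hc a w e h ε hw hwa ha hw1 he hh hε hbet
  have hwR : (w : ℝ) < 1 := by exact_mod_cast hw1
  refine ⟨δ, hδ, hbas.mono 0 ?_⟩
  rintro J - F A hA a₀ w₀ aC n e₀ k p κ L Kv gC gT E ε₁ ε₂ ε₃ B T TH Gp lam k0 k1 k2 k3 k5 k6 k7 kn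
    k8 k9 k10 k11 k12 k13 k14 k15 hBA hT hch hG
  obtain ⟨m1, m2, m3, m4, m5⟩ := hnum κ L n (by omega)
  have hwJ : w₀ ≤ J := by
    have h1 : (⌊(w : ℝ) * J⌋₊ : ℝ) ≤ J := by
      have h2 : (⌊(w : ℝ) * J⌋₊ : ℝ) ≤ w * J := Nat.floor_le (mul_nonneg (by exact_mod_cast hw)
        (Nat.cast_nonneg J))
      have h3 : (w : ℝ) * J ≤ 1 * J := mul_le_mul_of_nonneg_right hwR.le (Nat.cast_nonneg J)
      linarith
    have h2 : ⌊(w : ℝ) * J⌋₊ ≤ J := by exact_mod_cast h1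
    omega
  have hD := hG.to hwJ (by positivity) m1 m2 m3 m4 hch hT
  refine hA a₀ w₀ e₀ k p Kv gC gT E ε₁ ε₂ ε₃ (2 ^ i * ((4 * i + 4 + 2 ^ L) / 2 ^ n)) B T TH Gp lam
    (k0.trans ((Nat.le_add_right _ _).trans hch.rad)) k1 k2 k3 k5 k6 k7 (by omega) k9 k10
    (fun l hl => by
      have := k11 l hl
      omega) k12 k13 k14 ?_ hBA hT hD
  refine le_trans (add_le_add le_rfl ?_) k15
  have h0 : 0 ≤ 2 * ε₁ + 2 ^ (k + C₁) * (ε₃ * 2 ^ w₀ / 2 ^ a₀) := by positivity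
  refine (mul_le_of_le_one_left h0 m5).trans ?_
  exact add_le_add le_rfl (mul_le_mul_of_nonneg_right
    (pow_le_pow_right₀ (by norm_num) (by omega)) (by positivity))

end Pool.D2S
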