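import Pool.Agent.H66.D2.Evp

/-!
# Second derivatives of the closed charts along the whole window

`zp_ev`: the polynomial `zp` at every time of the window. `zp_co`: `zp` of the charts of an earlier
window. `var_one`: the variation of a bounded polynomial. `rem_win`: the Remez inequality for finitely
many windows.
-/

set_option autoImplicit false

namespace Pool.TNW

open Finset Real MvPolynomial
open Pool.Agent.H49.Ent Pool.Agent.H32.Dense Pool.STK Pool.KA Pool.KSAT Pool.K2S Pool.PB Pool.S6C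
open Pool.GEN Pool.CHT Pool.CHX Pool.ISO Pool.D2R Pool.D2Z Pool.D2F Pool.TN
open Pool.FLF (Fam.sub)
open Pool.PB.Trl (rt rt_mem t_rt)

variable {m J : ℕ}

/-! ### The polynomial at every time of the window -/

/-- The gradients of the charts of a line, at a time of the window. -/
noncomputable def kx {F : Fam m J} (t : ℕ) (Xc : LnT F → ℕ → MvPolynomial (Option (Fin m)) ℝ)
    (s : LnT F) (τ : ℝ) (l : ℕ) : Option (Fin m) → ℝ := grd (Xc s l) (xt t s τ)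

theorem kx_rt (F : Fam m J) {t : ℕ} (ht : t ≤ J)
    (Xc : LnT F → ℕ → MvPolynomial (Option (Fin m)) ℝ) (ω : F.Ω) :
    kx t Xc (slam F t ω) (rt F t ω) = kc t Xc ω := by
  funext l
  unfold kx kc
  rw [xt_bt F ht]

theorem cvc_kx {F : Fam m J} {c : ℕ → Fin m} {t : ℕ}
    {Xc : LnT F → ℕ → MvPolynomial (Option (Fin m)) ℝ} (h : ∀ s l, DepC c l (Xc s l)) (s : LnT F)
    (τ : ℝ) (l : ℕ) : CvC c l (kx t Xc s τ l) := cvc_grd (h _ _) _

theorem zp_ev {F : Fam m J} {c : ℕ → Fin m} {r t : ℕ} (hc : Set.InjOn c (Set.Iio r))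
    {Q : LnT F → MvPolynomial (Option (Fin m)) ℝ} (hQ : ∀ s, DepC c r (Q s))
    {Xc : LnT F → ℕ → MvPolynomial (Option (Fin m)) ℝ} (hX : ∀ s l, DepC c l (Xc s l))
    (x : ℕ) (s : LnT F) (τ : ℝ) : (zp c r t Q Xc x s).eval τ =
      hs (Q s) (xt t s τ) (wd s) (ev c r (kx t Xc s τ) x) := by
  have h1 := hs_sum_c hc (hQ s) (xt t s τ) (wd s) (ev_none c r (kx t Xc s τ) x)
  unfold zp
  rw [Polynomial.eval_mul, Polynomial.eval_C, Polynomial.eval_finsetSum, h1]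
  have h2 : ∀ j ∈ range r, (Polynomial.derivative (kpol c t Q s j) *
      evp (fun j i => kpol c t (fun s => Xc s j) s i) x j).eval τ =
      1 / 2 ^ t * (dd (pderiv (some (c j)) (Q s)) (xt t s τ) (wd s) *
        ev c r (kx t Xc s τ) x (some (c j))) := by
    intro j hj
    rw [Finset.mem_range] at hj
    rw [Polynomial.eval_mul]
    have e1 : (Polynomial.derivative (kpol c t Q s j)).eval τ =
        1 / 2 ^ t * dd (pderiv (some (c j)) (Q s)) (xt t s τ) (wd s) := der_R _ _ _ _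
    have e2 : (evp (fun j i => kpol c t (fun s => Xc s j) s i) x j).eval τ =
        ev c r (kx t Xc s τ) x (some (c j)) :=
      evp_eval hc (Ξ := kx t Xc s τ) (fun l => cvc_kx hX s τ l) (fun j _ i _ =>
        eval_lcR _ _ _ _) x j hj
    rw [e1, e2]
    ring
  rw [Finset.sum_congr rfl h2, ← Finset.mul_sum, ← mul_assoc]
  have ht : (2 : ℝ) ^ t ≠ 0 := by positivity
  rw [mul_one_div_cancel ht, one_mul]

/-- The point of the line, in the window of the line before. -/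
theorem xt_co {F : Fam m J} {w t : ℕ} (h : w ≤ t) (s : LnT F) (τ : ℝ) :
    xt t s τ = xt w (co (t - w) s) ((((s.2.2 % 2 ^ (t - w) : ℕ) : ℝ) + τ) / 2 ^ (t - w)) := by
  funext o
  unfold xt
  rw [eval_lc', eval_lc']
  have e1 : (s.2.2 : ℝ) = (((s.2.2 / 2 ^ (t - w) : ℕ) : ℝ)) * 2 ^ (t - w) +
      ((s.2.2 % 2 ^ (t - w) : ℕ) : ℝ) := by
    have h1 := Nat.div_add_mod s.2.2 (2 ^ (t - w))
    have h2 : ((2 ^ (t - w) * (s.2.2 / 2 ^ (t - w)) + s.2.2 % 2 ^ (t - w) : ℕ) : ℝ) =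
        (s.2.2 : ℝ) := by rw [h1]
    push_cast at h2
    rw [← h2]
    ring
  have e2 : ((s.2.2 : ℝ) + τ) / 2 ^ t = (((co (t - w) s).2.2 : ℝ) +
      (((s.2.2 % 2 ^ (t - w) : ℕ) : ℝ) + τ) / 2 ^ (t - w)) / 2 ^ w := by
    have e3 : (2 : ℝ) ^ t = 2 ^ (t - w) * 2 ^ w := by
      rw [← pow_add]
      congr 1
      omega
    have e4 : ((co (t - w) s).2.2 : ℝ) = ((s.2.2 / 2 ^ (t - w) : ℕ) : ℝ) := rfl
    rw [e3, e4, e1]
    have : (2 : ℝ) ^ (t - w) ≠ 0 := by positivity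
    field_simp
    ring
  rw [e2]
  cases o with
  | none => rfl
  | some j => rfl

/-- The times of the later window, in the earlier one. -/
theorem mem_co {b n : ℕ} {τ : ℝ} (hτ : τ ∈ Set.Icc (0 : ℝ) 1) :
    ((((b % 2 ^ n : ℕ) : ℝ) + τ) / 2 ^ n) ∈ Set.Icc (0 : ℝ) 1 := by
  have h1 : b % 2 ^ n + 1 ≤ 2 ^ n := Nat.mod_lt _ (by positivity)
  have h2 : (((b % 2 ^ n : ℕ) : ℝ)) + 1 ≤ 2 ^ n := by exact_mod_cast h1
  have h3 : (0 : ℝ) ≤ ((b % 2 ^ n : ℕ) : ℝ) := Nat.cast_nonneg _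
  refine ⟨div_nonneg (by linarith [hτ.1]) (by positivity), ?_⟩
  rw [div_le_one (by positivity)]
  linarith [hτ.2]

/-- **The polynomial of the charts of an earlier window.** -/
theorem zp_co {F : Fam m J} {c : ℕ → Fin m} {r w t : ℕ} (hc : Set.InjOn c (Set.Iio r))
    (h : w ≤ t) {Q : LnT F → MvPolynomial (Option (Fin m)) ℝ} (hQ : ∀ s, DepC c r (Q s))
    {Xc : LnT F → ℕ → MvPolynomial (Option (Fin m)) ℝ} (hX : ∀ s l, DepC c l (Xc s l))
    (x : ℕ) (s : LnT F) (τ : ℝ) :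
    (zp c r t (fun s => Q (co (t - w) s)) (fun s => Xc (co (t - w) s)) x s).eval τ =
      (zp c r w Q Xc x (co (t - w) s)).eval
        ((((s.2.2 % 2 ^ (t - w) : ℕ) : ℝ) + τ) / 2 ^ (t - w)) := by
  rw [zp_ev hc (fun s => hQ _) (fun s l => hX _ l), zp_ev hc hQ hX]
  have e1 : wd s = wd (co (t - w) s) := by
    funext o
    cases o with
    | none => rfl
    | some j => rfl
  have e2 : kx t (fun s => Xc (co (t - w) s)) s τ = kx w Xc (co (t - w) s)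
      ((((s.2.2 % 2 ^ (t - w) : ℕ) : ℝ) + τ) / 2 ^ (t - w)) := by
    funext l
    unfold kx
    rw [xt_co h]
  rw [e2, xt_co h, e1]

/-! ### The variation of a bounded polynomial -/

theorem var_one (K : ℕ) : ∃ C : ℝ, 1 ≤ C ∧ ∀ (q : Polynomial ℝ) (S : ℝ), q.natDegree ≤ K →
    (∀ t ∈ Set.Icc (0 : ℝ) 1, |q.eval t| ≤ S) → ∀ a ∈ Set.Icc (0 : ℝ) 1,
      ∀ b ∈ Set.Icc (0 : ℝ) 1, |q.eval a - q.eval b| ≤ C * S * |a - b| := by
  obtain ⟨C, hC, h⟩ := der_one K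
  refine ⟨C, hC, fun q S hq hS a ha b hb => ?_⟩
  have h1 := Convex.norm_image_sub_le_of_norm_hasDerivWithin_le (f := fun x => q.eval x)
    (f' := fun x => q.derivative.eval x) (s := Set.Icc (0 : ℝ) 1) (C := C * S) (x := b) (y := a)
    (fun x _ => (q.hasDerivAt x).hasDerivWithinAt) (fun x hx => by
      rw [Real.norm_eq_abs]
      refine h q S hq hS x ?_
      rw [abs_le]
      constructor <;> linarith [hx.1, hx.2]) (convex_Icc 0 1) hb ha
  rw [Real.norm_eq_abs, Real.norm_eq_abs] at h1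
  exact h1

/-! ### The Remez inequality for finitely many windows -/

theorem rem_win (m K M N : ℕ) : ∃ C : ℝ, 1 ≤ C ∧ ∀ (J : ℕ) (F : Fam m J)
    (A : F.Ω → Prop), 0 < Pe F.p A → ∀ (w : ℕ → ℕ)
    (q : ℕ → ℕ → LnT F → Polynomial ℝ) (S : ℕ → ℕ → ℝ) (θ : ℝ),
    (∀ i < N, w i ≤ J) → (∀ i < N, ∀ j < M, ∀ s, (q i j s).natDegree ≤ K) →
    (∀ i < N, ∀ j < M, 0 < S i j) → 0 ≤ θ →
    (∀ (A' : F.Ω → Prop) (hA' : 0 < Pe F.p A'), Sub A' A → Pe F.p A ≤ 2 ^ N * Pe F.p A' →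
      (Fam.sub F A' hA').Tm θ) → (∀ i < N, C * (θ + 1) ≤ ((J : ℝ) - w i) * Real.log 2) →
    (∀ ω, A ω → ∀ i < N, ∀ j < M,
      |(q i j (slam F (w i) ω)).eval (rt F (w i) ω)| ≤ S i j) →
    ∃ B : F.Ω → Prop, Sub B A ∧ Pe F.p A ≤ 2 ^ N * Pe F.p B ∧ ∀ ω, B ω → ∀ i < N, ∀ j < M,
      ∀ τ ∈ Set.Icc (0 : ℝ) 1,
        |(q i j (slam F (w i) ω)).eval τ| ≤ Real.exp (C * (θ + 1)) * S i j := by
  obtain ⟨C, hC, hrem⟩ := rem_fam m K M
  refine ⟨C, hC, ?_⟩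
  intro J F A hA w q S θ hw hq hS hθ hTm hJ hqS
  have hkey : ∀ n ≤ N, ∃ B : F.Ω → Prop, Sub B A ∧ Pe F.p A ≤ 2 ^ n * Pe F.p B ∧
      ∀ ω, B ω → ∀ i < n, ∀ j < M, ∀ τ ∈ Set.Icc (0 : ℝ) 1,
        |(q i j (slam F (w i) ω)).eval τ| ≤ Real.exp (C * (θ + 1)) * S i j := by
    intro n
    induction n with
    | zero =>
      intro _
      exact ⟨A, fun ω h => h, by rw [pow_zero, one_mul], fun ω _ i hi => absurd hi (by omega)⟩
    | succ n ih =>
      intro hn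
      obtain ⟨B, h1, h2, h3⟩ := ih (by omega)
      have hB : 0 < Pe F.p B := by
        by_contra h
        rw [not_lt] at h
        have h4 : (2 : ℝ) ^ n * Pe F.p B ≤ 0 := mul_nonpos_of_nonneg_of_nonpos (by positivity) h
        linarith
      have hB0 := hB.le
      obtain ⟨B', k1, k2, k3⟩ := hrem J F B hB (w n) (q n) (S n) θ (hw n (by omega))
        (fun j hj s => hq n (by omega) j hj s) (fun j hj => hS n (by omega) j hj) hθ
        (hTm B hB h1 (h2.trans (mul_le_mul_of_nonneg_right (pow_le_pow_right₀ (by norm_num)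
          (by omega)) hB0))) (hJ n (by omega)) (fun ω hω j hj => hqS ω (h1 ω hω) n (by omega) j hj)
      refine ⟨B', fun ω h => h1 ω (k1 ω h), ?_, fun ω hω i hi j hj τ hτ => ?_⟩
      · rw [pow_succ, mul_assoc]
        refine h2.trans (mul_le_mul_of_nonneg_left ?_ (by positivity))
        linarith
      · rcases Nat.lt_succ_iff_lt_or_eq.1 hi with h | h
        · exact h3 ω (k1 ω hω) i h j hj τ hτ
        · subst h
          exact k3 ω hω j hj τ hτ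
  exact hkey N le_rfl

/-! ### At the sample -/

section

variable {F : Fam m J} {c : ℕ → Fin m} {r D Dr N M A cl : ℕ} {Sc : ℕ → Prop}
    {w e h pp : ℕ → ℕ} {z g gc gT g₀ : ℕ → ℕ → ℕ} {κ : ℝ} {B : F.Ω → Prop}
    {G : ℕ → PtT F → ℕ → MvPolynomial (Option (Fin m)) ℝ}
    {H : ℕ → LnT F → ℕ → MvPolynomial (Option (Fin m)) ℝ}
    {T : ℕ → PtT F → ℕ → MvPolynomial (Option (Fin m)) ℝ}
    {TH : ℕ → LnT F → ℕ → MvPolynomial (Option (Fin m)) ℝ}
    {Gt : ℕ → PtT F → MvPolynomial (Option (Fin m)) ℝ}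
    {Ht : ℕ → LnT F → MvPolynomial (Option (Fin m)) ℝ}

theorem dep_TH (E : CEv F c r D Dr N M A cl Sc w e h pp z g gc gT g₀ κ B G H T TH Gt Ht)
    {i : ℕ} (hi : i ≤ N) (s : LnT F) (l : ℕ) : DepC c l (TH i s l) := (E.evs i hi).thin.depH s l

theorem deg_TH (E : CEv F c r D Dr N M A cl Sc w e h pp z g gc gT g₀ κ B G H T TH Gt Ht)
    {i : ℕ} (hi : i ≤ N) (s : LnT F) (l : ℕ) : (TH i s l).totalDegree ≤ D :=
  (E.evs i hi).thin.degH s l

/-- The vectors of the closed frame of rough coordinates, in the frame of the ball. -/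
theorem sz_evT (E : CEv F c r D Dr N M A cl Sc w e h pp z g gc gT g₀ κ B G H T TH Gt Ht)
    {k : ℕ} (hk : k ≤ N) (h1 : ∀ l < r, cl ≤ gT k l ∧ cl ≤ gc k l) {ω : F.Ω} (hω : B ω) {l : ℕ}
    (hl : l ≤ r) (hns : ∀ x < l, ¬ Sc x) (x : ℕ) :
    sz c (g₀ k) (gG G ω k) l (ev c l (kT w TH ω k) x) ≤ 2 ^ ((cl + 1) * r) * 2 ^ g₀ k x := by
  have hc : Set.InjOn c (Set.Iio l) := E.inj.mono (Set.Iio_subset_Iio (by omega))
  have h2 : ∀ j < l, |cv (kT w TH ω k j - gG G ω k j) (ev c l (kT w TH ω k) x)| ≤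
      2 ^ cl / 2 ^ g₀ k j * sz c (g₀ k) (gG G ω k) j (ev c l (kT w TH ω k) x) := by
    intro j hj
    have h3 := E.cb hk (hj.trans_le hl) (hns j hj) (h1 j (hj.trans_le hl)).1
      (h1 j (hj.trans_le hl)).2 hω (ev c l (kT w TH ω k) x)
    rw [en_sz _ _ _ _ _ (ev_none _ _ _ _)] at h3
    exact h3
  have h3 := sz_ge (K := 2 ^ cl) (by positivity) h2 le_rfl
  have h4 : ∀ j, CvC c j (kT w TH ω k j) := fun j =>
    cvc_grd (dep_TH E hk (slam F (w k) ω) j) (bt F ω)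
  refine h3.trans (mul_le_mul ?_ (sz_ev hc h4 _ le_rfl) (sz_nonneg _ _ _ _ _) (by positivity))
  refine (pow_le_pow_left₀ (by positivity) (?_ : (1 : ℝ) + 2 ^ cl ≤ 2 ^ (cl + 1)) l).trans ?_
  · have : (1 : ℝ) ≤ 2 ^ cl := one_le_pow₀ (by norm_num)
    rw [pow_succ]
    linarith
  · rw [← pow_mul]
    exact p2 (Nat.mul_le_mul_left _ hl)

/-- **The second derivative in the vectors of the closed frame**, at the sample. -/
theorem zsam (E : CEv F c r D Dr N M A cl Sc w e h pp z g gc gT g₀ κ B G H T TH Gt Ht)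
    {i X : ℕ} (hi : i ≤ N) (h1 : ∀ l < r, cl ≤ gT i l ∧ cl ≤ gc i l) (hp : cl ≤ pp i)
    (hgr : cl ≤ gc i r) {ω : F.Ω} (hω : B ω) {l : ℕ} (hl : l < r) (hns : ∀ x < l, ¬ Sc x)
    (hX : Sc l → g₀ i l + (A - w i) ≤ gT i l + X) (x : ℕ) :
    |(zp c r (w i) (fun s => TH i s l) (TH i) x (slam F (w i) ω)).eval (rt F (w i) ω)| ≤
      2 ^ (15 * cl + 4 * r + X + 10 + (cl + 1) * r) * 2 ^ w i / 2 ^ g₀ i l * 2 ^ g₀ i x := by
  have hc : Set.InjOn c (Set.Iio r) := E.inj.mono (Set.Iio_subset_Iio (by omega))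
  have hcl : Set.InjOn c (Set.Iio l) := E.inj.mono (Set.Iio_subset_Iio (by omega))
  have hJ : w i ≤ J := (E.wA i hi).trans E.AJ
  have hd : ∀ s, DepC c l (TH i s l) := fun s => dep_TH E hi s l
  have hg : g₀ i l + (A - w i) ≤ gT i l + (X + 2 * cl) := by
    by_cases hs : Sc l
    · have := hX hs
      omega
    · have a1 := E.t_rg hi hl hs
      have a2 := E.ng i hi l hl.le
      omega
  rw [zp_rt hc hJ (fun s => (hd s).mono hl.le) (fun s j => dep_TH E hi s j)]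
  rw [hs_cut hc hl.le (fun j => cvc_kc (fun s j => dep_TH E hi s j) ω j) x (hd _)]
  have h2 := E.zS hi hi le_rfl h1 hp hgr hω hl hns (h1 l hl).1 hg
    (ev c l (kc (w i) (TH i) ω) x)
  rw [en_sz _ _ _ _ _ (ev_none _ _ _ _)] at h2
  have h3 : sz c (g₀ i) (gG G ω i) l (ev c l (kc (w i) (TH i) ω) x) ≤
      2 ^ ((cl + 1) * r) * 2 ^ g₀ i x := sz_evT E hi h1 hω hl.le hns x
  refine h2.trans ((mul_le_mul_of_nonneg_left h3 (by positivity)).trans ?_)
  have e1 : (2 : ℝ) ^ (12 * cl + 4 * r + (X + 2 * cl) + 10) * 2 ^ w i / 2 ^ g₀ i l *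
      (2 ^ ((cl + 1) * r) * 2 ^ g₀ i x) = 2 ^ (12 * cl + 4 * r + (X + 2 * cl) + 10 +
      (cl + 1) * r) * (2 ^ w i / 2 ^ g₀ i l * 2 ^ g₀ i x) := by
    rw [pow_add _ (12 * cl + 4 * r + (X + 2 * cl) + 10)]
    ring
  rw [e1, mul_div_assoc, mul_assoc]
  exact mul_le_mul_of_nonneg_right (p2 (by omega)) (by positivity)

end

end Pool.TNW
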