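import Pool.Agent.H42.D2.Zwa

/-!
# Second derivatives of the closed charts along the whole window: the event

`cev_zw`: on a part of the event of a static cell the second derivatives of the closed charts, in the
direction of the line and of the vectors of the closed frame, are natural on the whole window, and
their variation on a later window is small.
-/

set_option autoImplicit false

namespace Pool.TNW

open Finset Real MvPolynomial
open Pool.Agent.H49.Ent Pool.Agent.H32.Dense Pool.STK Pool.KA Pool.KSAT Pool.K2S Pool.PB Pool.S6C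
open Pool.GEN Pool.CHT Pool.CHX Pool.ISO Pool.D2R Pool.D2Z Pool.D2F Pool.TN
open Pool.FLF (Fam.sub)
open Pool.PB.Trl (rt rt_mem t_rt)

/-- **On the whole window.** -/
theorem cev_zw (m D r N : ℕ) : ∃ C : ℕ, 1 ≤ C ∧ ∀ {J : ℕ} {F : Fam m J} {c : ℕ → Fin m}
    {Dr M A cl X k : ℕ} {Sc : ℕ → Prop} {w e h pp : ℕ → ℕ} {z g gc gT g₀ : ℕ → ℕ → ℕ} {κ θ : ℝ}
    {B : F.Ω → Prop} {G : ℕ → PtT F → ℕ → MvPolynomial (Option (Fin m)) ℝ}
    {H : ℕ → LnT F → ℕ → MvPolynomial (Option (Fin m)) ℝ}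
    {T : ℕ → PtT F → ℕ → MvPolynomial (Option (Fin m)) ℝ}
    {TH : ℕ → LnT F → ℕ → MvPolynomial (Option (Fin m)) ℝ}
    {Gt : ℕ → PtT F → MvPolynomial (Option (Fin m)) ℝ}
    {Ht : ℕ → LnT F → MvPolynomial (Option (Fin m)) ℝ},
    CEv F c r D Dr N M A cl Sc w e h pp z g gc gT g₀ κ B G H T TH Gt Ht → 0 < Pe F.p B → 0 ≤ θ →
    (∀ (B' : F.Ω → Prop) (hB' : 0 < Pe F.p B'), Sub B' B → Pe F.p B ≤ 2 ^ (N + 1) * Pe F.p B' →
      (Fam.sub F B' hB').Tm θ) →
    (∀ i ≤ N, C * (θ + 1) ≤ ((J : ℝ) - w i) * Real.log 2) → Real.exp (C * (θ + 1)) ≤ 2 ^ k →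
    (∀ i ≤ N, (∀ l < r, cl ≤ gT i l ∧ cl ≤ gc i l) ∧ cl ≤ pp i ∧ cl ≤ gc i r) →
    ∃ B' : F.Ω → Prop, Sub B' B ∧ Pe F.p B ≤ 2 ^ (N + 1) * Pe F.p B' ∧
      ∀ ω, B' ω → ∀ i ≤ N, ∀ l < r, (∀ y < l, ¬ Sc y) →
        (Sc l → g₀ i l + (A - w i) ≤ gT i l + X) → ∀ x < l,
        (∀ τ ∈ Set.Icc (0 : ℝ) 1,
          |(zp c r (w i) (fun s => TH i s l) (TH i) x (slam F (w i) ω)).eval τ| ≤
            2 ^ (C * (cl + X + k + 1)) * 2 ^ w i / 2 ^ g₀ i l * 2 ^ g₀ i x) ∧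
        ∀ t, w i ≤ t → t ≤ J → ∀ τ ∈ Set.Icc (0 : ℝ) 1, ∀ τ' ∈ Set.Icc (0 : ℝ) 1,
          |(zp c r t (fun s => TH i (co (t - w i) s) l) (fun s => TH i (co (t - w i) s)) x
              (slam F t ω)).eval τ -
            (zp c r t (fun s => TH i (co (t - w i) s) l) (fun s => TH i (co (t - w i) s)) x
              (slam F t ω)).eval τ'| ≤
            2 ^ (C * (cl + X + k + 1)) * 2 ^ w i / 2 ^ g₀ i l * 2 ^ g₀ i x * |τ - τ'| /
              2 ^ (t - w i) := by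
  classical
  obtain ⟨C₁, hC₁, hrem⟩ := rem_win m (D * (r + 1)) (r * r) (N + 1)
  obtain ⟨C₂, hC₂, hvar⟩ := var_one (D * (r + 1))
  obtain ⟨a₁, ha₁⟩ := exists_nat_ge C₁
  obtain ⟨a₂, ha₂⟩ := pow_unbounded_of_one_lt C₂ (show (1 : ℝ) < 2 by norm_num)
  obtain ⟨C, hC⟩ : ∃ C, C = a₁ + a₂ + 5 * r + 30 := ⟨_, rfl⟩
  refine ⟨C, by omega, ?_⟩
  intro J F c Dr M A cl X k Sc w e h pp z g gc gT g₀ κ θ B G H T TH Gt Ht E hB hθ hTm hJ hexp
    hnum
  obtain ⟨S₀, hS₀⟩ : ∃ x, x = 15 * cl + 4 * r + X + 10 + (cl + 1) * r := ⟨_, rfl⟩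
  have hCC : C₁ * (θ + 1) ≤ C * (θ + 1) := by
    refine mul_le_mul_of_nonneg_right (ha₁.trans ?_) (by linarith)
    have : a₁ ≤ C := by omega
    exact_mod_cast this
  have hE1 : Real.exp (C₁ * (θ + 1)) ≤ 2 ^ k := (Real.exp_le_exp.2 hCC).trans hexp
  have hc : Set.InjOn c (Set.Iio r) := E.inj.mono (Set.Iio_subset_Iio (by omega))
  obtain ⟨P, hP⟩ : ∃ P : ℕ → ℕ → Prop, P = fun i j => (∀ y < j / r, ¬ Sc y) ∧
      (Sc (j / r) → g₀ i (j / r) + (A - w i) ≤ gT i (j / r) + X) := ⟨_, rfl⟩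
  obtain ⟨q, hq⟩ : ∃ q : ℕ → ℕ → LnT F → Polynomial ℝ, q = fun i j s => if P i j then
      zp c r (w i) (fun s => TH i s (j / r)) (TH i) (j % r) s else 0 := ⟨_, rfl⟩
  obtain ⟨S, hS⟩ : ∃ S : ℕ → ℕ → ℝ, S = fun i j => 2 ^ S₀ * 2 ^ w i / 2 ^ g₀ i (j / r) *
      2 ^ g₀ i (j % r) := ⟨_, rfl⟩
  have hSp : ∀ i j, 0 < S i j := fun i j => by
    rw [hS]
    positivity
  obtain ⟨B', k1, k2, k3⟩ := hrem J F B hB w q S θ (fun i hi => (E.wA i (by omega)).trans E.AJ)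
    (fun i hi j hj s => by
      rw [hq]
      show (if P i j then _ else _ : Polynomial ℝ).natDegree ≤ _
      split_ifs with h1
      · exact zp_deg c r (w i) (fun s => deg_TH E (by omega) s _)
          (fun s l => deg_TH E (by omega) s l) _ s
      · rw [Polynomial.natDegree_zero]
        exact Nat.zero_le _) (fun i _ j _ => hSp i j) hθ hTm
    (fun i hi => hCC.trans (hJ i (by omega))) (fun ω hω i hi j hj => by
      rw [hq]
      show |(if P i j then _ else _ : Polynomial ℝ).eval _| ≤ _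
      split_ifs with h1
      · rw [hP] at h1
        have hn := hnum i (by omega)
        have h2 := zsam E (i := i) (X := X) (by omega) hn.1 hn.2.1 hn.2.2 hω (l := j / r)
          (Nat.div_lt_of_lt_mul hj) h1.1 h1.2 (j % r)
        rw [← hS₀] at h2
        rw [hS]
        exact h2
      · rw [Polynomial.eval_zero, abs_zero]
        exact (hSp i j).le)
  refine ⟨B', k1, k2, ?_⟩
  intro ω hω i hi l hl hns hX x hx
  have hr0 : 0 < r := by omega
  have hj : x + l * r < r * r := by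
    have h1 : (l + 1) * r ≤ r * r := Nat.mul_le_mul_right _ hl
    have h2 : (l + 1) * r = l * r + r := by ring
    omega
  have hj1 : (x + l * r) / r = l := by
    rw [Nat.add_mul_div_right _ _ hr0, Nat.div_eq_of_lt (by omega), zero_add]
  have hj2 : (x + l * r) % r = x := by
    rw [Nat.add_mul_mod_self_right, Nat.mod_eq_of_lt (by omega)]
  obtain ⟨Z, hZ⟩ : ∃ Z : ℝ, Z = 2 ^ k * (2 ^ S₀ * 2 ^ w i / 2 ^ g₀ i l * 2 ^ g₀ i x) := ⟨_, rfl⟩
  obtain ⟨pz, hpz⟩ : ∃ p : Polynomial ℝ, p = zp c r (w i) (fun s => TH i s l) (TH i) x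
      (slam F (w i) ω) := ⟨_, rfl⟩
  have hbd : ∀ τ ∈ Set.Icc (0 : ℝ) 1, |pz.eval τ| ≤ Z := by
    intro τ hτ
    have h1 := k3 ω hω i (by omega) (x + l * r) hj τ hτ
    have h2 : q i (x + l * r) (slam F (w i) ω) = pz := by
      rw [hq, hpz]
      show (if P i (x + l * r) then zp c r (w i) (fun s => TH i s ((x + l * r) / r)) (TH i)
        ((x + l * r) % r) (slam F (w i) ω) else 0) = _
      rw [if_pos (by rw [hP]; simp only [hj1]; exact ⟨hns, hX⟩), hj2]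
      simp only [hj1]
    rw [h2] at h1
    refine h1.trans ?_
    rw [hS, hZ]
    simp only [hj1, hj2]
    exact mul_le_mul_of_nonneg_right hE1 (by positivity)
  have hZ0 : 0 ≤ Z := by
    rw [hZ]
    positivity
  have hpd : pz.natDegree ≤ D * (r + 1) := by
    rw [hpz]
    exact zp_deg c r (w i) (fun s => deg_TH E hi s _) (fun s l => deg_TH E hi s l) _ _
  have hnumC : a₂ + k + S₀ ≤ C * (cl + X + k + 1) := by
    have e1 : C * (cl + X + k + 1) = C * cl + C * X + C * k + C := by ring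
    have e2 : 15 * cl + r * cl ≤ C * cl := by
      rw [← add_mul]
      exact Nat.mul_le_mul_right _ (by omega)
    have e3 : 1 * X ≤ C * X := Nat.mul_le_mul_right _ (by omega)
    have e4 : 1 * k ≤ C * k := Nat.mul_le_mul_right _ (by omega)
    have e5 : (cl + 1) * r = r * cl + r := by ring
    rw [e1, hS₀, e5]
    omega
  have hfin : C₂ * Z ≤ 2 ^ (C * (cl + X + k + 1)) * 2 ^ w i / 2 ^ g₀ i l * 2 ^ g₀ i x := by
    have e1 : (2 : ℝ) ^ (a₂ + k + S₀) * (2 ^ w i / 2 ^ g₀ i l * 2 ^ g₀ i x) = 2 ^ a₂ * Z := by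
      rw [hZ, pow_add, pow_add]
      ring
    calc C₂ * Z ≤ 2 ^ a₂ * Z := mul_le_mul_of_nonneg_right ha₂.le hZ0
      _ = 2 ^ (a₂ + k + S₀) * (2 ^ w i / 2 ^ g₀ i l * 2 ^ g₀ i x) := e1.symm
      _ ≤ 2 ^ (C * (cl + X + k + 1)) * (2 ^ w i / 2 ^ g₀ i l * 2 ^ g₀ i x) :=
          mul_le_mul_of_nonneg_right (p2 hnumC) (by positivity)
      _ = _ := by ring
  refine ⟨fun τ hτ => ?_, fun t ht htJ τ hτ τ' hτ' => ?_⟩
  · rw [← hpz]
    refine (hbd τ hτ).trans (le_trans ?_ hfin)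
    exact le_mul_of_one_le_left hZ0 hC₂
  · rw [zp_co hc ht (Q := fun s => TH i s l) (Xc := TH i)
      (fun s => (dep_TH E hi s l).mono hl.le) (fun s j => dep_TH E hi s j),
      zp_co hc ht (Q := fun s => TH i s l) (Xc := TH i)
      (fun s => (dep_TH E hi s l).mono hl.le) (fun s j => dep_TH E hi s j),
      co_slam F ht htJ, ← hpz]
    have h1 := hvar pz Z hpd hbd _ (mem_co (b := (slam F t ω).2.2) (n := t - w i) hτ) _
      (mem_co (b := (slam F t ω).2.2) (n := t - w i) hτ')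
    have e1 : ((((slam F t ω).2.2 % 2 ^ (t - w i) : ℕ) : ℝ) + τ) / 2 ^ (t - w i) -
        ((((slam F t ω).2.2 % 2 ^ (t - w i) : ℕ) : ℝ) + τ') / 2 ^ (t - w i) =
        (τ - τ') / 2 ^ (t - w i) := by ring
    rw [e1, abs_div, abs_of_pos (show (0 : ℝ) < 2 ^ (t - w i) by positivity)] at h1
    refine h1.trans ?_
    rw [← mul_div_assoc]
    refine div_le_div_of_nonneg_right ?_ (by positivity)
    exact mul_le_mul_of_nonneg_right hfin (abs_nonneg _)

end Pool.TNW
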