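import Pool.Agent.H42.D2.Zwb

/-!
# The second derivative of a static chart in the mixed frame

`ZWd`: the conclusion of `cev_zw` at one sample. `zm_one`, `zm_two`: the variation, on a later window
`w k`, of the second derivative of the static chart of the window `w i`, in the direction of the line
and of the first vector of the mixed frame (rough charts of the window `w k`).
-/

set_option autoImplicit false

namespace Pool.TNW

open Finset Real MvPolynomial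
open Pool.Agent.H49.Ent Pool.Agent.H32.Dense Pool.STK Pool.KA Pool.KSAT Pool.K2S Pool.PB Pool.S6C
open Pool.GEN Pool.CHT Pool.CHX Pool.ISO Pool.D2R Pool.D2Z Pool.D2F Pool.TN
open Pool.FLF (Fam.sub)
open Pool.PB.Trl (rt rt_mem t_rt)

variable {m J : ℕ}

/-- The conclusion of `cev_zw` at one sample. -/
def ZWd (F : Fam m J) (c : ℕ → Fin m) (r N A : ℕ) (Sc : ℕ → Prop) (w : ℕ → ℕ) (gT g₀ : ℕ → ℕ → ℕ)
    (TH : ℕ → LnT F → ℕ → MvPolynomial (Option (Fin m)) ℝ) (X Z : ℕ) (ω : F.Ω) : Prop :=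
  ∀ i ≤ N, ∀ l < r, (∀ y < l, ¬ Sc y) →
    (Sc l → g₀ i l + (A - w i) ≤ gT i l + X) → ∀ x < l,
    (∀ τ ∈ Set.Icc (0 : ℝ) 1,
      |(zp c r (w i) (fun s => TH i s l) (TH i) x (slam F (w i) ω)).eval τ| ≤
        2 ^ Z * 2 ^ w i / 2 ^ g₀ i l * 2 ^ g₀ i x) ∧
    ∀ t, w i ≤ t → t ≤ J → ∀ τ ∈ Set.Icc (0 : ℝ) 1, ∀ τ' ∈ Set.Icc (0 : ℝ) 1,
      |(zp c r t (fun s => TH i (co (t - w i) s) l) (fun s => TH i (co (t - w i) s)) x
          (slam F t ω)).eval τ -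
        (zp c r t (fun s => TH i (co (t - w i) s) l) (fun s => TH i (co (t - w i) s)) x
          (slam F t ω)).eval τ'| ≤
        2 ^ Z * 2 ^ w i / 2 ^ g₀ i l * 2 ^ g₀ i x * |τ - τ'| / 2 ^ (t - w i)

/-! ### One and two coordinates -/

theorem hs_fr1 {c : ℕ → Fin m} {n : ℕ} (hc : Set.InjOn c (Set.Iio n)) (hn : 1 ≤ n)
    {Ξ : ℕ → Option (Fin m) → ℝ} (hΞ : ∀ l, CvC c l (Ξ l))
    {Q : MvPolynomial (Option (Fin m)) ℝ} (hQ : DepC c 1 Q) (x W : Option (Fin m) → ℝ) :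
    hs Q x W (ev c n Ξ 0) = dd (pderiv (some (c 0)) Q) x W := by
  have hc1 := hc.mono (Set.Iio_subset_Iio hn)
  rw [hs_sum_c hc1 hQ x W (ev_none c n Ξ 0), Finset.sum_range_one, ev_rec hc hΞ 0 (by omega),
    if_pos rfl, Finset.sum_range_zero, add_zero, mul_one]

theorem hs_fr2 {c : ℕ → Fin m} {n : ℕ} (hc : Set.InjOn c (Set.Iio n)) (hn : 2 ≤ n)
    {Ξ : ℕ → Option (Fin m) → ℝ} (hΞ : ∀ l, CvC c l (Ξ l))
    {Q : MvPolynomial (Option (Fin m)) ℝ} (hQ : DepC c 2 Q) (x W : Option (Fin m) → ℝ) :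
    hs Q x W (ev c n Ξ 0) = dd (pderiv (some (c 0)) Q) x W +
      dd (pderiv (some (c 1)) Q) x W * Ξ 1 (some (c 0)) ∧
    hs Q x W (ev c n Ξ 1) = dd (pderiv (some (c 1)) Q) x W := by
  have hc1 := hc.mono (Set.Iio_subset_Iio hn)
  have e0 : ∀ i, ev c n Ξ i (some (c 0)) = if 0 = i then 1 else 0 := fun i => by
    rw [ev_rec hc hΞ i (by omega), Finset.sum_range_zero, add_zero]
  have e1 : ∀ i, ev c n Ξ i (some (c 1)) = (if 1 = i then 1 else 0) +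
      Ξ 1 (some (c 0)) * ev c n Ξ i (some (c 0)) := fun i => by
    rw [ev_rec hc hΞ i (by omega), Finset.sum_range_one]
  constructor
  · rw [hs_sum_c hc1 hQ x W (ev_none c n Ξ 0), Finset.sum_range_succ, Finset.sum_range_one, e1,
      e0, if_pos rfl, if_neg (by norm_num), mul_one, zero_add, mul_one]
  · rw [hs_sum_c hc1 hQ x W (ev_none c n Ξ 1), Finset.sum_range_succ, Finset.sum_range_one, e1,
      e0, if_pos rfl, if_neg (by norm_num), mul_zero, mul_zero, add_zero, mul_one, zero_add]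

/-- The variation of the gradient of a chart over one coordinate. -/
theorem lip_kp {F : Fam m J} {c : ℕ → Fin m} {r t : ℕ} (hc : Set.InjOn c (Set.Iio r))
    (hr : 1 ≤ r) {Xc : LnT F → ℕ → MvPolynomial (Option (Fin m)) ℝ}
    (hX : ∀ s l, DepC c l (Xc s l)) (s : LnT F) {Bd : ℝ}
    (h : ∀ τ ∈ Set.Icc (0 : ℝ) 1, |(zp c r t (fun s => Xc s 1) Xc 0 s).eval τ| ≤ Bd) :
    ∀ a ∈ Set.Icc (0 : ℝ) 1, ∀ b ∈ Set.Icc (0 : ℝ) 1,
      |grd (Xc s 1) (xt t s a) (some (c 0)) - grd (Xc s 1) (xt t s b) (some (c 0))| ≤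
        Bd / 2 ^ t * |a - b| := by
  intro a ha b hb
  obtain ⟨p, hp⟩ : ∃ p : Polynomial ℝ, p = kpol c t (fun s => Xc s 1) s 0 := ⟨_, rfl⟩
  have hev : ∀ τ, p.eval τ = grd (Xc s 1) (xt t s τ) (some (c 0)) := fun τ => by
    rw [hp]
    exact eval_lcR _ _ _ _
  have hder : ∀ τ ∈ Set.Icc (0 : ℝ) 1, |p.derivative.eval τ| ≤ Bd / 2 ^ t := by
    intro τ hτ
    have h1 := h τ hτ
    have h2 : ∀ s, DepC c r (Xc s 1) := fun s => (hX s 1).mono hr
    rw [zp_ev hc h2 hX, hs_fr1 hc hr (fun l => cvc_kx hX s τ l) (hX s 1)] at h1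
    have h3 : p.derivative.eval τ =
        1 / 2 ^ t * dd (pderiv (some (c 0)) (Xc s 1)) (xt t s τ) (wd s) := by
      rw [hp]
      exact der_R _ _ _ _
    rw [h3, abs_mul, abs_of_pos (show (0 : ℝ) < 1 / 2 ^ t by positivity), one_div,
      ← div_eq_inv_mul]
    exact div_le_div_of_nonneg_right h1 (by positivity)
  have h1 := Convex.norm_image_sub_le_of_norm_hasDerivWithin_le (f := fun x => p.eval x)
    (f' := fun x => p.derivative.eval x) (s := Set.Icc (0 : ℝ) 1) (C := Bd / 2 ^ t) (x := b)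
    (y := a) (fun x _ => (p.hasDerivAt x).hasDerivWithinAt) (fun x hx => by
      rw [Real.norm_eq_abs]
      exact hder x hx) (convex_Icc 0 1) hb ha
  rw [Real.norm_eq_abs, Real.norm_eq_abs] at h1
  simp only [hev] at h1
  exact h1

section

variable {F : Fam m J} {c : ℕ → Fin m} {r D Dr N M A cl : ℕ} {Sc : ℕ → Prop}
    {w e h pp : ℕ → ℕ} {z g gc gT g₀ : ℕ → ℕ → ℕ} {κ : ℝ} {B : F.Ω → Prop}
    {G : ℕ → PtT F → ℕ → MvPolynomial (Option (Fin m)) ℝ}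
    {H : ℕ → LnT F → ℕ → MvPolynomial (Option (Fin m)) ℝ}
    {T : ℕ → PtT F → ℕ → MvPolynomial (Option (Fin m)) ℝ}
    {TH : ℕ → LnT F → ℕ → MvPolynomial (Option (Fin m)) ℝ}
    {Gt : ℕ → PtT F → MvPolynomial (Option (Fin m)) ℝ}
    {Ht : ℕ → LnT F → MvPolynomial (Option (Fin m)) ℝ}

theorem dep_Xcf (E : CEv F c r D Dr N M A cl Sc w e h pp z g gc gT g₀ κ B G H T TH Gt Ht)
    {i k : ℕ} (hi : i ≤ N) (hk : k ≤ N) (s : LnT F) (l : ℕ) :
    DepC c l (Xcf w TH Sc i k s l) := by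
  unfold Xcf
  split_ifs
  · exact dep_TH E hi _ l
  · exact dep_TH E hk _ l

/-- **One coordinate below**: the frame does not enter. -/
theorem zm_one (E : CEv F c r D Dr N M A cl Sc w e h pp z g gc gT g₀ κ B G H T TH Gt Ht)
    {i k X Z : ℕ} {ω : F.Ω} (hA : ZWd F c r N A Sc w gT g₀ TH X Z ω) (hi : i ≤ N) (hk : k ≤ N)
    (hw : w i ≤ w k) (hr : 1 < r) (hs0 : ¬ Sc 0) (hs1 : Sc 1)
    (hX : g₀ i 1 + (A - w i) ≤ gT i 1 + X) : ∀ τ ∈ Set.Icc (0 : ℝ) 1, ∀ τ' ∈ Set.Icc (0 : ℝ) 1,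
    |(zp c r (w k) (fun s => Xcf w TH Sc i k s 1) (Xcf w TH Sc i k) 0 (slam F (w k) ω)).eval τ -
      (zp c r (w k) (fun s => Xcf w TH Sc i k s 1) (Xcf w TH Sc i k) 0
        (slam F (w k) ω)).eval τ'| ≤
      2 ^ Z * 2 ^ w i / 2 ^ g₀ i 1 * 2 ^ g₀ i 0 * |τ - τ'| / 2 ^ (w k - w i) := by
  intro τ hτ τ' hτ'
  have hc : Set.InjOn c (Set.Iio r) := E.inj.mono (Set.Iio_subset_Iio (by omega))
  have h1 := (hA i hi 1 hr (fun y hy => by
    have : y = 0 := by omega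
    rw [this]
    exact hs0) (fun _ => hX) 0 (by omega)).2 (w k) hw ((E.wA k hk).trans E.AJ) τ hτ τ' hτ'
  have e1 : ∀ τ, (zp c r (w k) (fun s => Xcf w TH Sc i k s 1) (Xcf w TH Sc i k) 0
      (slam F (w k) ω)).eval τ = (zp c r (w k) (fun s => TH i (co (w k - w i) s) 1)
      (fun s => TH i (co (w k - w i) s)) 0 (slam F (w k) ω)).eval τ := by
    intro τ
    rw [zp_ev hc (fun s => (dep_Xcf E hi hk s 1).mono hr.le) (fun s l => dep_Xcf E hi hk s l),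
      zp_ev hc (fun s => (dep_TH E hi _ 1).mono hr.le) (fun s l => dep_TH E hi _ l),
      hs_fr1 hc hr.le (fun l => cvc_kx (fun s l => dep_Xcf E hi hk s l) _ τ l)
        (dep_Xcf E hi hk _ 1),
      hs_fr1 hc hr.le (fun l => cvc_kx (fun s l => dep_TH E hi _ l) _ τ l) (dep_TH E hi _ 1)]
    unfold Xcf
    rw [if_pos hs1]
  rw [e1, e1]
  exact h1

/-- **Two coordinates below**, the upper one rough. -/
theorem zm_two (E : CEv F c r D Dr N M A cl Sc w e h pp z g gc gT g₀ κ B G H T TH Gt Ht)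
    {i k X Z : ℕ} {ω : F.Ω} (hω : B ω) (hA : ZWd F c r N A Sc w gT g₀ TH X Z ω) (hi : i ≤ N)
    (hk : k ≤ N) (hw : w i ≤ w k) (hr : 2 < r) (hs0 : ¬ Sc 0) (hs1 : ¬ Sc 1) (hs2 : Sc 2)
    (hX : g₀ i 2 + (A - w i) ≤ gT i 2 + X) (hone : g₀ k 0 ≤ g₀ i 0 + (w k - w i) + X)
    (hmo : gT i 1 ≤ gT k 1 + X) (hcl : cl + X ≤ gT i 1) :
    ∀ τ ∈ Set.Icc (0 : ℝ) 1, ∀ τ' ∈ Set.Icc (0 : ℝ) 1,
    |(zp c r (w k) (fun s => Xcf w TH Sc i k s 2) (Xcf w TH Sc i k) 0 (slam F (w k) ω)).eval τ -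
      (zp c r (w k) (fun s => Xcf w TH Sc i k s 2) (Xcf w TH Sc i k) 0
        (slam F (w k) ω)).eval τ'| ≤
      2 ^ (2 * Z + 7 * cl + 2 * X + 3) * (2 ^ w i / 2 ^ g₀ i 2 * 2 ^ g₀ i 0 / 2 ^ (w k - w i) +
        2 ^ w i / 2 ^ g₀ i 2 * 2 ^ g₀ i 1 * (2 ^ g₀ k 0 / 2 ^ g₀ k 1)) * |τ - τ'| := by
  intro τ hτ τ' hτ'
  have hc : Set.InjOn c (Set.Iio r) := E.inj.mono (Set.Iio_subset_Iio (by omega))
  have hkJ : w k ≤ J := (E.wA k hk).trans E.AJ
  obtain ⟨s, hs⟩ : ∃ s, s = slam F (w k) ω := ⟨_, rfl⟩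
  have hco : co (w k - w i) s = slam F (w i) ω := by rw [hs, co_slam F hw hkJ]
  have hns1 : ∀ y < 1, ¬ Sc y := fun y hy => by
    have : y = 0 := by omega
    rw [this]
    exact hs0
  have hns2 : ∀ y < 2, ¬ Sc y := fun y hy => by
    have : y = 0 ∨ y = 1 := by omega
    rcases this with h | h
    · rw [h]; exact hs0
    · rw [h]; exact hs1
  have hA0 := hA i hi 2 hr hns2 (fun _ => hX) 0 (by omega)
  have hA1 := hA i hi 2 hr hns2 (fun _ => hX) 1 (by omega)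
  have hBi := hA i hi 1 (by omega) hns1 (fun h => absurd h hs1) 0 (by omega)
  have hBk := hA k hk 1 (by omega) hns1 (fun h => absurd h hs1) 0 (by omega)
  -- the functions of the time
  obtain ⟨hh, hhh⟩ : ∃ f : ℕ → ℝ → ℝ, f = fun j τ =>
      dd (pderiv (some (c j)) (TH i (slam F (w i) ω) 2)) (xt (w k) s τ) (wd s) := ⟨_, rfl⟩
  obtain ⟨f, hf⟩ : ∃ f : ℝ → ℝ, f = fun τ => grd (TH k s 1) (xt (w k) s τ) (some (c 0)) :=
    ⟨_, rfl⟩
  obtain ⟨q, hq⟩ : ∃ f : ℝ → ℝ, f = fun τ =>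
      grd (TH i (slam F (w i) ω) 1) (xt (w k) s τ) (some (c 0)) := ⟨_, rfl⟩
  have ez : ∀ τ, (zp c r (w k) (fun s => Xcf w TH Sc i k s 2) (Xcf w TH Sc i k) 0 s).eval τ =
      hh 0 τ + hh 1 τ * f τ := by
    intro τ
    rw [zp_ev hc (fun s => (dep_Xcf E hi hk s 2).mono hr.le) (fun s l => dep_Xcf E hi hk s l),
      (hs_fr2 hc hr.le (fun l => cvc_kx (fun s l => dep_Xcf E hi hk s l) s τ l)
        (dep_Xcf E hi hk s 2) _ _).1]
    have e1 : Xcf w TH Sc i k s 2 = TH i (slam F (w i) ω) 2 := by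
      unfold Xcf
      rw [if_pos hs2, hco]
    have e2 : kx (w k) (Xcf w TH Sc i k) s τ 1 (some (c 0)) = f τ := by
      rw [hf]
      show grd (Xcf w TH Sc i k s 1) (xt (w k) s τ) (some (c 0)) = _
      unfold Xcf
      rw [if_neg hs1]
    rw [e1, e2, hhh]
  have e0 : ∀ x < 2, ∀ τ, (zp c r (w k) (fun s => TH i (co (w k - w i) s) 2)
      (fun s => TH i (co (w k - w i) s)) x s).eval τ =
      if x = 0 then hh 0 τ + hh 1 τ * q τ else hh 1 τ := by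
    intro x hx τ
    rw [zp_ev hc (fun s => (dep_TH E hi _ 2).mono hr.le) (fun s l => dep_TH E hi _ l)]
    have h3 := hs_fr2 hc hr.le
      (fun l => cvc_kx (t := w k) (Xc := fun s => TH i (co (w k - w i) s))
        (fun s l => dep_TH E hi _ l) s τ l) (dep_TH E hi (co (w k - w i) s) 2)
      (xt (w k) s τ) (wd s)
    have e2 : kx (w k) (fun s => TH i (co (w k - w i) s)) s τ 1 (some (c 0)) = q τ := by
      rw [hq]
      show grd (TH i (co (w k - w i) s) 1) (xt (w k) s τ) (some (c 0)) = _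
      rw [hco]
    rw [e2] at h3
    have : x = 0 ∨ x = 1 := by omega
    rcases this with h | h
    · rw [h, if_pos rfl, h3.1, hco, hhh]
    · rw [h, if_neg (by norm_num), h3.2, hco, hhh]
  -- the variation of `hh 0 + hh 1 * q` and of `hh 1`
  obtain ⟨U, hU⟩ : ∃ U : ℕ → ℝ, U = fun x => 2 ^ w i / 2 ^ g₀ i 2 * 2 ^ g₀ i x := ⟨_, rfl⟩
  obtain ⟨R, hR⟩ : ∃ R : ℝ, R = 2 ^ (w k - w i) := ⟨_, rfl⟩
  have hR0 : 0 < R := by rw [hR]; positivity
  obtain ⟨Y, hY⟩ : ∃ Y : ℝ, Y = 2 ^ Z := ⟨_, rfl⟩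
  have hY1 : 1 ≤ Y := by rw [hY]; exact one_le_pow₀ (by norm_num)
  have hU0 : ∀ x, 0 < U x := fun x => by rw [hU]; positivity
  have hd0 : 0 ≤ |τ - τ'| := abs_nonneg _
  have v0 : |(hh 0 τ + hh 1 τ * q τ) - (hh 0 τ' + hh 1 τ' * q τ')| ≤
      Y * U 0 / R * |τ - τ'| := by
    have h1 := hA0.2 (w k) hw hkJ τ hτ τ' hτ'
    rw [← hs, e0 0 (by omega), e0 0 (by omega), if_pos rfl, if_pos rfl] at h1
    refine h1.trans (le_of_eq ?_)
    rw [hY, hU, hR]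
    ring
  have v1 : |hh 1 τ - hh 1 τ'| ≤ Y * U 1 / R * |τ - τ'| := by
    have h1 := hA1.2 (w k) hw hkJ τ hτ τ' hτ'
    rw [← hs, e0 1 (by omega), e0 1 (by omega), if_neg (by norm_num), if_neg (by norm_num)] at h1
    refine h1.trans (le_of_eq ?_)
    rw [hY, hU, hR]
    ring
  have b1 : |hh 1 τ'| ≤ Y * U 1 := by
    have h2 := e0 1 (by omega) τ'
    rw [if_neg (by norm_num), zp_co hc hw (Q := fun s => TH i s 2) (Xc := TH i)
      (fun s => (dep_TH E hi s 2).mono hr.le) (fun s j => dep_TH E hi s j), hco] at h2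
    rw [← h2]
    refine (hA1.1 _ (mem_co hτ')).trans (le_of_eq ?_)
    rw [hY, hU]
    ring
  -- the variation of the two gradients
  have vf : |f τ - f τ'| ≤ Y * (2 ^ g₀ k 0 / 2 ^ g₀ k 1) * |τ - τ'| := by
    have h1 := lip_kp hc (by omega) (Xc := TH k) (t := w k) (fun s l => dep_TH E hk s l) s
      (Bd := 2 ^ Z * 2 ^ w k / 2 ^ g₀ k 1 * 2 ^ g₀ k 0) (by rw [hs]; exact hBk.1) τ hτ τ' hτ'
    rw [hf]
    refine h1.trans (le_of_eq ?_)
    rw [hY]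
    have : (2 : ℝ) ^ w k ≠ 0 := by positivity
    field_simp
  have vq : |q τ - q τ'| ≤ Y * (2 ^ g₀ i 0 / 2 ^ g₀ i 1) / R * |τ - τ'| := by
    have h1 := lip_kp hc (by omega) (Xc := TH i) (t := w i) (fun s l => dep_TH E hi s l)
      (slam F (w i) ω) (Bd := 2 ^ Z * 2 ^ w i / 2 ^ g₀ i 1 * 2 ^ g₀ i 0) hBi.1 _
      (mem_co (b := s.2.2) (n := w k - w i) hτ) _ (mem_co (b := s.2.2) (n := w k - w i) hτ')
    have h2 : ∀ τ, xt (w i) (slam F (w i) ω) ((((s.2.2 % 2 ^ (w k - w i) : ℕ) : ℝ) + τ) /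
        2 ^ (w k - w i)) = xt (w k) s τ := fun τ => by
      rw [xt_co hw, hco]
    rw [h2, h2] at h1
    have e1 : ((((s.2.2 % 2 ^ (w k - w i) : ℕ) : ℝ) + τ) / 2 ^ (w k - w i) -
        (((s.2.2 % 2 ^ (w k - w i) : ℕ) : ℝ) + τ') / 2 ^ (w k - w i)) =
        (τ - τ') / 2 ^ (w k - w i) := by ring
    rw [e1, abs_div, abs_of_pos (show (0 : ℝ) < 2 ^ (w k - w i) by positivity)] at h1
    rw [hq]
    refine h1.trans (le_of_eq ?_)
    rw [hY, hR]
    have : (2 : ℝ) ^ w i ≠ 0 := by positivity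
    field_simp
  -- the difference of the two gradients
  have dfq : |f τ - q τ| ≤ 2 ^ (6 * cl + 2 * X) * (2 ^ g₀ i 0 / 2 ^ g₀ i 1) := by
    have h1 := ((E.lab 1 (by omega) i hi k hk hw).2 (gT i 1 - (X + cl)) (by omega)
      (by omega)).win ω hω τ hτ (Pi.single (some (c 0)) 1)
    have h3 : ∀ (P : MvPolynomial (Option (Fin m)) ℝ) (x : Option (Fin m) → ℝ),
        dd P x (Pi.single (some (c 0)) 1) = grd P x (some (c 0)) := by
      classical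
      intro P x
      unfold dd
      rw [Finset.sum_eq_single (some (c 0)) (fun b _ hb => by
        rw [Pi.single_eq_of_ne hb, mul_zero])
        (fun h => absurd (Finset.mem_univ _) h), Pi.single_eq_same, mul_one]
      rfl
    have h4 : nrm c (TH k (slam F (w k) ω)) (gT k) (w k + (A - w k)) 1 (ptw F (w k) ω τ)
        (Pi.single (some (c 0)) 1) = 2 ^ gT k 0 := by
      unfold nrm
      have h5 : dd (TH k (slam F (w k) ω) 0) (ptw F (w k) ω τ) (Pi.single (some (c 0)) 1) =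
          0 := by
        rw [h3]
        exact cvc_grd (dep_TH E hk (slam F (w k) ω) 0) _ _ (fun l hl => absurd hl (by omega))
      rw [Finset.sum_range_one, h5, Pi.single_eq_same, Pi.single_eq_of_ne (by simp), abs_zero,
        mul_zero, zero_add, sub_zero, abs_one, mul_one]
    rw [h4, dd_sub, h3, h3] at h1
    have h5 : |f τ - q τ| ≤ 2 ^ cl / 2 ^ (gT i 1 - (X + cl)) * 2 ^ gT k 0 := by
      rw [abs_sub_comm, hf, hq, hs]
      exact h1
    refine h5.trans ?_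
    have a1 := E.t_rg hk (l := 0) (by omega) hs0
    have a2 := E.t_rg hi (l := 1) (by omega) hs1
    have a3 := E.ng k hk 0 (by omega)
    have a4 := E.ng i hi 1 (by omega)
    have a5 := E.wA k hk
    rw [← mul_div_assoc, div_mul_eq_mul_div, div_le_div_iff₀ (by positivity) (by positivity),
      ← pow_add, ← pow_add, ← pow_add, ← pow_add]
    exact p2 (by omega)
  -- the end
  rw [← hs, ez, ez]
  have eU : U 1 * (2 ^ g₀ i 0 / 2 ^ g₀ i 1) = U 0 := by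
    rw [hU]
    have : (2 : ℝ) ^ g₀ i 1 ≠ 0 := by positivity
    field_simp
  obtain ⟨V, hV⟩ : ∃ V : ℝ, V = 2 ^ (6 * cl + 2 * X) := ⟨_, rfl⟩
  have hV1 : 1 ≤ V := by rw [hV]; exact one_le_pow₀ (by norm_num)
  obtain ⟨ρ, hρ⟩ : ∃ ρ : ℝ, ρ = 2 ^ g₀ k 0 / 2 ^ g₀ k 1 := ⟨_, rfl⟩
  have hρ0 : 0 < ρ := by rw [hρ]; positivity
  rw [← hV] at dfq
  rw [← hρ] at vf ⊢
  have e1 : (hh 0 τ + hh 1 τ * f τ) - (hh 0 τ' + hh 1 τ' * f τ') =
      ((hh 0 τ + hh 1 τ * q τ) - (hh 0 τ' + hh 1 τ' * q τ')) +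
      ((hh 1 τ - hh 1 τ') * (f τ - q τ) + hh 1 τ' * ((f τ - f τ') - (q τ - q τ'))) := by ring
  rw [e1]
  have t1 : |(hh 1 τ - hh 1 τ') * (f τ - q τ)| ≤ Y * V * (U 0 / R) * |τ - τ'| := by
    rw [abs_mul]
    refine (mul_le_mul v1 dfq (abs_nonneg _) (by have := hU0 1; positivity)).trans (le_of_eq ?_)
    rw [← eU]
    ring
  have t2 : |hh 1 τ' * ((f τ - f τ') - (q τ - q τ'))| ≤
      (Y * Y) * (U 0 / R + U 1 * ρ) * |τ - τ'| := by
    rw [abs_mul]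
    have h1 := (abs_sub (f τ - f τ') (q τ - q τ')).trans (add_le_add vf vq)
    refine (mul_le_mul b1 h1 (abs_nonneg _) (by have := hU0 1; positivity)).trans (le_of_eq ?_)
    rw [← eU]
    ring
  have hUR : 0 < U 0 / R := div_pos (hU0 0) hR0
  have hU1 : 0 < U 1 * ρ := mul_pos (hU0 1) hρ0
  have hYY : Y ≤ Y * Y := le_mul_of_one_le_left (by linarith) hY1
  have hYV : Y * Y ≤ (Y * Y) * V := le_mul_of_one_le_right (by positivity) hV1
  have hYV' : Y * V ≤ (Y * Y) * V := mul_le_mul_of_nonneg_right hYY (by linarith)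
  have t0 : Y * U 0 / R * |τ - τ'| ≤ (Y * Y) * V * (U 0 / R + U 1 * ρ) * |τ - τ'| := by
    refine mul_le_mul_of_nonneg_right ?_ hd0
    rw [mul_div_assoc]
    exact mul_le_mul (hYY.trans hYV) (by linarith) hUR.le (by positivity)
  have t1' : Y * V * (U 0 / R) * |τ - τ'| ≤ (Y * Y) * V * (U 0 / R + U 1 * ρ) * |τ - τ'| := by
    refine mul_le_mul_of_nonneg_right ?_ hd0
    exact mul_le_mul hYV' (by linarith) hUR.le (by positivity)
  have t2' : (Y * Y) * (U 0 / R + U 1 * ρ) * |τ - τ'| ≤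
      (Y * Y) * V * (U 0 / R + U 1 * ρ) * |τ - τ'| := by
    refine mul_le_mul_of_nonneg_right (mul_le_mul_of_nonneg_right ?_ (by positivity)) hd0
    exact le_mul_of_one_le_right (by positivity) hV1
  refine (abs_add_le _ _).trans ((add_le_add v0 ((abs_add_le _ _).trans
    (add_le_add t1 t2))).trans ?_)
  have e2 : (2 : ℝ) ^ (2 * Z + 7 * cl + 2 * X + 3) * (2 ^ w i / 2 ^ g₀ i 2 * 2 ^ g₀ i 0 /
      2 ^ (w k - w i) + 2 ^ w i / 2 ^ g₀ i 2 * 2 ^ g₀ i 1 * ρ) * |τ - τ'| =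
      2 ^ (2 * Z + 7 * cl + 2 * X + 3) * (U 0 / R + U 1 * ρ) * |τ - τ'| := by
    rw [hU, hR]
  rw [e2]
  have e3 : 4 * ((Y * Y) * V) ≤ 2 ^ (2 * Z + 7 * cl + 2 * X + 3) := by
    have e4 : 4 * ((Y * Y) * V) = 2 ^ (2 * Z + (6 * cl + 2 * X) + 2) := by
      rw [hY, hV, pow_add, pow_add, two_mul Z, pow_add]
      ring
    rw [e4]
    exact p2 (by omega)
  have e5 : 4 * ((Y * Y) * V) * (U 0 / R + U 1 * ρ) * |τ - τ'| ≤
      2 ^ (2 * Z + 7 * cl + 2 * X + 3) * (U 0 / R + U 1 * ρ) * |τ - τ'| :=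
    mul_le_mul_of_nonneg_right (mul_le_mul_of_nonneg_right e3 (by positivity)) hd0
  have e6 : 0 ≤ (Y * Y) * V * (U 0 / R + U 1 * ρ) * |τ - τ'| := by positivity
  linarith

end

end Pool.TNW
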